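import Pool.Agent.Helper5.SumStep

set_option autoImplicit false

/-!
Residue classes inside finite sets of integers, and some elementary inequalities.
-/

open Finset

namespace Pool.Agent.Helper2.E

open Pool.Agent.Helper5

/-- the class of `d` modulo `n` inside `E` -/
def cl (n : ℤ) (E : Finset ℤ) (d : ℤ) : Finset ℤ := E.filter (fun x => x % n = d % n)

theorem mem_cl {n : ℤ} {E : Finset ℤ} {d x : ℤ} : x ∈ cl n E d ↔ x ∈ E ∧ x % n = d % n := by
  unfold cl; rw [mem_filter]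

theorem cl_subset (n : ℤ) (E : Finset ℤ) (d : ℤ) : cl n E d ⊆ E := filter_subset _ _

theorem self_mem_cl {n : ℤ} {E : Finset ℤ} {d : ℤ} (h : d ∈ E) : d ∈ cl n E d :=
  mem_cl.2 ⟨h, rfl⟩

theorem cl_congr {n : ℤ} {E : Finset ℤ} {d d' : ℤ} (h : d % n = d' % n) : cl n E d = cl n E d' := by
  unfold cl; rw [h]

theorem emod_eq_of_dvd {a b n m : ℤ} (h : a % n = b % n) (hd : m ∣ n) : a % m = b % m := by
  have h1 : n ∣ a - b := Int.emod_eq_emod_iff_emod_sub_eq_zero.1 h |> Int.dvd_of_emod_eq_zero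
  exact Int.emod_eq_emod_iff_emod_sub_eq_zero.2 (Int.emod_eq_zero_of_dvd (hd.trans h1))

theorem emod_eq_iff_dvd {a b n : ℤ} : a % n = b % n ↔ n ∣ a - b := by
  rw [Int.emod_eq_emod_iff_emod_sub_eq_zero]
  exact ⟨Int.dvd_of_emod_eq_zero, Int.emod_eq_zero_of_dvd⟩

/-- a finer class taken inside a class is the finer class -/
theorem cl_cl {n m : ℤ} (hd : m ∣ n) {E : Finset ℤ} {d d₀ : ℤ} (h : d % m = d₀ % m) :
    cl n (cl m E d₀) d = cl n E d := by
  ext x
  rw [mem_cl, mem_cl, mem_cl]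
  constructor
  · rintro ⟨⟨h1, _⟩, h3⟩; exact ⟨h1, h3⟩
  · rintro ⟨h1, h3⟩
    exact ⟨⟨h1, (emod_eq_of_dvd h3 hd).trans h⟩, h3⟩

/-- if `E` lies in one class then the class is `E` -/
theorem cl_eq_self {n : ℤ} {E : Finset ℤ} {d : ℤ} (h : ∀ x ∈ E, x % n = d % n) : cl n E d = E := by
  ext x; rw [mem_cl]; exact ⟨fun hx => hx.1, fun hx => ⟨hx, h x hx⟩⟩

theorem cl_card_anti {p : ℕ} (E : Finset ℤ) (d : ℤ) {i j : ℕ} (h : i ≤ j) :
    (cl ((p:ℤ) ^ j) E d).card ≤ (cl ((p:ℤ) ^ i) E d).card := by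
  apply card_le_card
  intro x hx
  rw [mem_cl] at hx ⊢
  exact ⟨hx.1, emod_eq_of_dvd hx.2 (pow_dvd_pow _ h)⟩

/-- matching of the residues of `d` and of `m` when `d + u m` is fixed -/
theorem matching {p : ℕ} (hp : p.Prime) {u : ℕ} (hu : u ≠ 0) {d m d' m' : ℤ}
    (h : d + (u : ℤ) * m = d' + (u : ℤ) * m') (j : ℕ) :
    d % (p:ℤ) ^ (u.factorization p + j) = d' % (p:ℤ) ^ (u.factorization p + j) ↔
      m % (p:ℤ) ^ j = m' % (p:ℤ) ^ j := by
  rw [emod_eq_iff_dvd, emod_eq_iff_dvd]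
  have h1 : d - d' = (u : ℤ) * (m' - m) := by rw [mul_sub]; linarith
  rw [h1]
  by_cases hz : m' - m = 0
  · have hz' : m - m' = 0 := by linarith
    rw [hz, hz']; simp
  · have hz' : m - m' ≠ 0 := fun h => hz (by linarith)
    have hu0 : (u : ℤ) ≠ 0 := by exact_mod_cast hu
    rw [pow_dvd_iff_val hp (mul_ne_zero hu0 hz), pow_dvd_iff_val hp hz',
      val_mul hu0 hz, val_natCast]
    have : val p (m' - m) = val p (m - m') := by
      unfold Pool.Agent.Helper5.val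
      rw [← Int.natAbs_neg, neg_sub]
    rw [this]
    omega

theorem bern {θ y : ℝ} (hθ0 : 0 ≤ θ) (hθ1 : θ ≤ 1) (hy0 : 0 ≤ y) :
    y ^ θ + θ * (1 - y) ≤ 1 := by
  have h := rpow_one_add_le_one_add_mul_self (s := y - 1) (by linarith) hθ0 hθ1
  have e : 1 + (y - 1) = y := by ring
  rw [e] at h
  linarith

/-- sum over the decreasing steps of an antitone sequence -/
theorem sum_steps {f : ℕ → ℝ} (hf0 : ∀ i, 0 ≤ f i) (hf : Antitone f) {ρ lam : ℝ}
    (hρ0 : 0 ≤ ρ) (hρ1 : ρ < 1) (hl : 0 < lam) (L : Finset ℕ)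
    (hL : ∀ i ∈ L, f (i + 1) ≤ ρ * f i) :
    ∑ i ∈ L, (f i) ^ lam ≤ (1 / (1 - ρ ^ lam)) * (f 0) ^ lam := by
  have hρl : ρ ^ lam < 1 := Real.rpow_lt_one hρ0 hρ1 hl
  have hpos : 0 < 1 - ρ ^ lam := by linarith
  rw [div_mul_eq_mul_div, one_mul, le_div_iff₀ hpos]
  have hg : Antitone (fun i => (f i) ^ lam) := fun i j hij =>
    Real.rpow_le_rpow (hf0 j) (hf hij) hl.le
  obtain ⟨n, hn⟩ : ∃ n, L ⊆ range n := by
    refine ⟨L.sup id + 1, fun i hi => ?_⟩
    rw [mem_range]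
    have := Finset.le_sup (f := id) hi
    simp only [id] at this
    omega
  calc (∑ i ∈ L, (f i) ^ lam) * (1 - ρ ^ lam)
      = ∑ i ∈ L, (f i) ^ lam * (1 - ρ ^ lam) := by rw [sum_mul]
    _ ≤ ∑ i ∈ L, ((f i) ^ lam - (f (i + 1)) ^ lam) := by
        apply sum_le_sum
        intro i hi
        have h1 : (f (i + 1)) ^ lam ≤ ρ ^ lam * (f i) ^ lam := by
          rw [← Real.mul_rpow hρ0 (hf0 i)]
          exact Real.rpow_le_rpow (hf0 _) (hL i hi) hl.le
        linarith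
    _ ≤ ∑ i ∈ range n, ((f i) ^ lam - (f (i + 1)) ^ lam) := by
        apply sum_le_sum_of_subset_of_nonneg hn
        intro i _ _
        have := hg (Nat.le_succ i)
        simp only at this
        linarith
    _ = (f 0) ^ lam - (f n) ^ lam := by
        rw [Finset.sum_range_sub' (fun i => (f i) ^ lam)]
    _ ≤ (f 0) ^ lam := by
        have := Real.rpow_nonneg (hf0 n) lam
        linarith

end Pool.Agent.Helper2.E
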