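import Pool.Agent.Helper2.ESum2

set_option autoImplicit false

/-!
Rational multipliers and cosets of finitely generated multiplicative groups.
-/

open Finset

namespace Pool.Agent.Helper2.E

open Pool.Agent.Helper5 (uP mP uP_pos uP_mul_mP uP_factorization mP_ne_zero sI sI_card)

theorem exists_scale (A : Finset ℤ) (r : ℤ → ℚ) :
    ∃ Z : ℕ, 0 < Z ∧ ∀ a ∈ A, ∃ n : ℤ, r a * Z = n := by
  refine ⟨∏ a ∈ A, (r a).den, Finset.prod_pos (fun a _ => (r a).den_pos), ?_⟩
  intro a ha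
  obtain ⟨t, ht⟩ := Finset.dvd_prod_of_mem (fun a => (r a).den) ha
  refine ⟨(r a).num * t, ?_⟩
  rw [ht]
  push_cast
  have h := Rat.mul_den_eq_num (r a)
  rw [← mul_assoc, h]

theorem sI_scale (A : Finset ℤ) (Z : ℤ) (j : ℕ) :
    sI (A.image (fun a => Z * a)) j = (sI A j).image (fun a => Z * a) := by
  induction j with
  | zero => simp [sI]
  | succ j ih =>
    have h1 : sI (A.image (fun a => Z * a)) (j + 1) =
      image₂ (· + ·) (sI (A.image (fun a => Z * a)) j) (A.image (fun a => Z * a)) := rfl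
    have h2 : sI A (j + 1) = image₂ (· + ·) (sI A j) A := rfl
    rw [h1, h2, ih]
    ext x
    simp only [mem_image₂, mem_image]
    constructor
    · rintro ⟨_, ⟨y, hy, rfl⟩, _, ⟨z, hz, rfl⟩, rfl⟩
      exact ⟨y + z, ⟨y, hy, z, hz, rfl⟩, by ring⟩
    · rintro ⟨_, ⟨y, hy, z, hz, rfl⟩, rfl⟩
      exact ⟨Z * y, ⟨y, hy, rfl⟩, Z * z, ⟨z, hz, rfl⟩, by ring⟩

/-- clearing denominators of the multipliers and of the cofactors -/
theorem exists_norm (A : Finset ℤ) (u : ℤ → ℚ) (hu : ∀ a ∈ A, 0 < u a) :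
    ∃ Z : ℕ, 0 < Z ∧ ∃ (U : ℤ → ℕ) (m : ℤ → ℤ), (∀ x, U x ≠ 0) ∧
      (∀ a ∈ A, (U (Z * a) : ℤ) * m (Z * a) = Z * a) ∧
      (∀ a ∈ A, ∀ a' ∈ A, u a = u a' → U (Z * a) = U (Z * a')) ∧
      (∀ a ∈ A, ∀ a' ∈ A, (a : ℚ) / u a = (a' : ℚ) / u a' → m (Z * a) = m (Z * a')) := by
  classical
  obtain ⟨Z₁, hZ₁, h1⟩ := exists_scale A u
  obtain ⟨Z₂, hZ₂, h2⟩ := exists_scale A (fun a => (a : ℚ) / u a)
  choose! n₁ hn₁ using h1
  choose! n₂ hn₂ using h2
  set Z := Z₁ * Z₂ with hZ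
  have hZpos : 0 < Z := Nat.mul_pos hZ₁ hZ₂
  have hZ0 : (Z : ℤ) ≠ 0 := by exact_mod_cast hZpos.ne'
  have hZ₁q : (0:ℚ) < Z₁ := by exact_mod_cast hZ₁
  have hn₁pos : ∀ a ∈ A, 0 < n₁ a := by
    intro a ha
    have h := mul_pos (hu a ha) hZ₁q
    rw [hn₁ a ha] at h
    exact_mod_cast h
  refine ⟨Z, hZpos, fun x => if x / (Z : ℤ) ∈ A then (n₁ (x / (Z : ℤ))).natAbs else 1,
    fun x => n₂ (x / (Z : ℤ)), ?_, ?_, ?_, ?_⟩
  · intro x
    simp only
    split_ifs with h
    · exact Int.natAbs_ne_zero.2 (hn₁pos _ h).ne'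
    · exact one_ne_zero
  · intro a ha
    have e : (Z : ℤ) * a / (Z : ℤ) = a := Int.mul_ediv_cancel_left _ hZ0
    simp only [e]
    rw [if_pos ha]
    have h3 : ((n₁ a).natAbs : ℤ) = n₁ a := Int.natAbs_of_nonneg (hn₁pos a ha).le
    rw [h3]
    have h4 : ((n₁ a * n₂ a : ℤ) : ℚ) = ((Z : ℤ) * a : ℤ) := by
      push_cast
      rw [← hn₁ a ha, ← hn₂ a ha, hZ]
      push_cast
      have := (hu a ha).ne'
      field_simp
    exact_mod_cast h4
  · intro a ha a' ha' h
    have e : ∀ b : ℤ, (Z : ℤ) * b / (Z : ℤ) = b := fun b => Int.mul_ediv_cancel_left _ hZ0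
    simp only [e]
    rw [if_pos ha, if_pos ha']
    have h3 : (n₁ a : ℚ) = n₁ a' := by rw [← hn₁ a ha, ← hn₁ a' ha', h]
    have h4 : n₁ a = n₁ a' := by exact_mod_cast h3
    rw [h4]
  · intro a ha a' ha' h
    have e : ∀ b : ℤ, (Z : ℤ) * b / (Z : ℤ) = b := fun b => Int.mul_ediv_cancel_left _ hZ0
    simp only [e]
    have h3 : (n₂ a : ℚ) = n₂ a' := by rw [← hn₂ a ha, ← hn₂ a' ha', h]
    exact_mod_cast h3

/-- **Iterated sum step with rational multipliers.** -/
theorem sum_iter_rat {θ lam : ℝ} (hθ0 : 0 < θ) (hθ1 : θ ≤ 1 / 2) (hl : 0 < lam) :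
    ∃ b C : ℝ, 0 ≤ b ∧ 1 ≤ C ∧ ∀ P : Finset ℕ, (∀ p ∈ P, p.Prime) →
      ∀ A : Finset ℤ, A.Nonempty → (0:ℤ) ∉ A →
      ∀ (u : ℤ → ℚ), (∀ a ∈ A, 0 < u a) →
      (∀ a ∈ A, ∀ a' ∈ A, (∀ p ∈ P, Pool.Agent.Helper5.val p a = Pool.Agent.Helper5.val p a') →
        u a = u a') →
      ∀ R : ℝ, 0 < R →
      (∀ a ∈ A, R ≤ ((A.filter (fun a' : ℤ => (a' : ℚ) / u a' = (a : ℚ) / u a)).card : ℝ)) →
      ∀ N k : ℕ, A.card ≤ N → ∀ j : ℕ, j ≤ k →
      (j : ℝ) * (Real.log A.card - ((P.card : ℝ) * (Real.log (1 / θ) + 2 + b) +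
        2 * θ * (((k:ℝ) + 1) * Real.log N) +
        (k * Real.log N) * (C ^ P.card * (N : ℝ) ^ (lam * (k + 1)) / R))) ≤
        Real.log ((sI A j).card : ℝ) := by
  classical
  obtain ⟨b, C, hb, hC, hstep⟩ := sum_iter' hθ0 hθ1 hl
  refine ⟨b, C, hb, hC, ?_⟩
  intro P hP A hA h0 u hu hdet R hR hfib N k hAN j hj
  obtain ⟨Z, hZ, U, m, hU0, hUm, hUu, hmm⟩ := exists_norm A u hu
  have hZ0 : (Z : ℤ) ≠ 0 := by exact_mod_cast hZ.ne'
  have hinj : Function.Injective (fun a : ℤ => (Z : ℤ) * a) := fun a b h =>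
    mul_left_cancel₀ hZ0 h
  set A' := A.image (fun a => (Z : ℤ) * a) with hA'
  have hcard : A'.card = A.card := card_image_of_injective _ hinj
  have hval : ∀ p ∈ P, ∀ a : ℤ, a ≠ 0 → Pool.Agent.Helper5.val p ((Z : ℤ) * a) =
      Pool.Agent.Helper5.val p (Z : ℤ) + Pool.Agent.Helper5.val p a := fun p _ a ha =>
    Pool.Agent.Helper5.val_mul hZ0 ha
  have hA0 : ∀ a ∈ A, a ≠ 0 := fun a ha h => h0 (h ▸ ha)
  have h := hstep P hP A' (hA.image _) (by
      intro hmem
      obtain ⟨a, ha, h⟩ := mem_image.1 hmem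
      rcases mul_eq_zero.1 h with h | h
      · exact hZ0 h
      · exact hA0 a ha h) U m hU0 (by
      intro x hx
      obtain ⟨a, ha, rfl⟩ := mem_image.1 hx
      exact hUm a ha) (by
      intro x hx y hy hxy
      obtain ⟨a, ha, rfl⟩ := mem_image.1 hx
      obtain ⟨a', ha', rfl⟩ := mem_image.1 hy
      apply hUu a ha a' ha'
      apply hdet a ha a' ha'
      intro p hp
      have := hxy p hp
      rw [hval p hp a (hA0 a ha), hval p hp a' (hA0 a' ha')] at this
      omega) R hR (by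
      intro x hx
      obtain ⟨a, ha, rfl⟩ := mem_image.1 hx
      refine (hfib a ha).trans ?_
      apply Nat.cast_le.2
      refine le_trans (le_of_eq (card_image_of_injective _ hinj).symm) ?_
      apply card_le_card
      intro y hy
      obtain ⟨a', ha', rfl⟩ := mem_image.1 hy
      rw [mem_filter] at ha'
      rw [mem_filter]
      exact ⟨mem_image_of_mem _ ha'.1, hmm a' ha'.1 a ha ha'.2⟩) N k (by rw [hcard]; exact hAN) j hj
  rw [hcard, hA', sI_scale, card_image_of_injective _ hinj] at h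
  exact h

/-- evaluation of an exponent vector -/
noncomputable def ev {ι : Type*} (g : ι → ℚ) (e : ι →₀ ℤ) : ℚ := e.prod fun i n => g i ^ n

theorem ev_pos {ι : Type*} {g : ι → ℚ} (hg : ∀ i, 0 < g i) (e : ι →₀ ℤ) : 0 < ev g e := by
  unfold ev Finsupp.prod
  exact Finset.prod_pos (fun i _ => zpow_pos (hg i) _)

theorem ev_add {ι : Type*} {g : ι → ℚ} (hg : ∀ i, 0 < g i) (e e' : ι →₀ ℤ) :
    ev g (e + e') = ev g e * ev g e' := by
  classical
  unfold ev
  rw [Finsupp.prod_add_index']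
  · intro i; simp
  · intro i m n; exact zpow_add₀ (hg i).ne' m n

theorem ev_neg {ι : Type*} {g : ι → ℚ} (hg : ∀ i, 0 < g i) (e : ι →₀ ℤ) :
    ev g (-e) = (ev g e)⁻¹ := by
  have h := ev_add hg e (-e)
  rw [add_neg_cancel] at h
  have h0 : ev g (0 : ι →₀ ℤ) = 1 := by unfold ev; simp
  rw [h0] at h
  exact eq_inv_of_mul_eq_one_right h.symm

theorem ev_sub {ι : Type*} {g : ι → ℚ} (hg : ∀ i, 0 < g i) (e e' : ι →₀ ℤ) :
    ev g (e - e') = ev g e / ev g e' := by
  rw [sub_eq_add_neg, ev_add hg, ev_neg hg, div_eq_mul_inv]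

/-- the valuation of an integer as the valuation of a rational -/
theorem padicValRat_eq_val {p : ℕ} (hp : p.Prime) {a : ℤ} {x : ℚ} (hx : |(a : ℚ)| = x) :
    padicValRat p x = (Pool.Agent.Helper5.val p a : ℤ) := by
  have h1 : x = ((a.natAbs : ℕ) : ℚ) := by rw [← hx, Nat.cast_natAbs, Int.cast_abs]
  rw [h1, padicValRat.of_nat]
  congr 1
  unfold Pool.Agent.Helper5.val
  rw [Nat.factorization_def _ hp]

/-- **Multipliers for a finitely generated group.** -/
theorem exists_mult {ι : Type*} {g : ι → ℚ} (hg : ∀ i, 0 < g i) (S : Finset ι)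
    (P : Finset ℕ) (hP : ∀ p ∈ P, p.Prime)
    (hinj : ∀ e : ι →₀ ℤ, e.support ⊆ S → (∀ p ∈ P, padicValRat p (ev g e) = 0) → e = 0)
    (A : Finset ℤ) (hA0 : ∀ a ∈ A, a ≠ 0) (e : ℤ → ι →₀ ℤ)
    (he : ∀ a ∈ A, |(a : ℚ)| = ev g (e a)) :
    ∃ u : ℤ → ℚ, (∀ a, 0 < u a) ∧
      (∀ a ∈ A, ∀ a' ∈ A, (∀ p ∈ P, Pool.Agent.Helper5.val p a = Pool.Agent.Helper5.val p a') →
        u a = u a') ∧
      (∀ a ∈ A, ∀ a' ∈ A, (e a - e a').support ⊆ S → |(a : ℚ)| / u a = |(a' : ℚ)| / u a') := by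
  classical
  -- the valuation vector
  let v : ℤ → (ℕ → ℤ) := fun a p => if p ∈ P then (Pool.Agent.Helper5.val p a : ℤ) else 0
  let φ : (ι →₀ ℤ) → (ℕ → ℤ) := fun e p => if p ∈ P then padicValRat p (ev g e) else 0
  have hφadd : ∀ e e' : ι →₀ ℤ, φ (e + e') = φ e + φ e' := by
    intro e e'
    funext p
    simp only [φ, Pi.add_apply]
    split_ifs with hp
    · haveI := Fact.mk (hP p hp)
      rw [ev_add hg, padicValRat.mul (ev_pos hg e).ne' (ev_pos hg e').ne']
    · rfl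
  have hφneg : ∀ e : ι →₀ ℤ, φ (-e) = -φ e := by
    intro e
    have h1 := hφadd e (-e)
    rw [add_neg_cancel] at h1
    have h0 : φ 0 = 0 := by
      have := hφadd 0 0
      rw [add_zero] at this
      exact left_eq_add.1 this
    rw [h0] at h1
    exact eq_neg_of_add_eq_zero_right h1.symm
  have hφinj : ∀ e e' : ι →₀ ℤ, e.support ⊆ S → e'.support ⊆ S → φ e = φ e' → e = e' := by
    intro e e' hs hs' h
    have h1 : e - e' = 0 := by
      apply hinj
      · intro i hi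
        have := Finsupp.support_sub hi
        rcases mem_union.1 this with h | h
        · exact hs h
        · exact hs' h
      · intro p hp
        have h2 : φ (e - e') = 0 := by rw [sub_eq_add_neg, hφadd, hφneg, h, add_neg_cancel]
        have h3 := congrFun h2 p
        simp only [φ, if_pos hp, Pi.zero_apply] at h3
        exact h3
    exact sub_eq_zero.1 h1
  -- the lattice relation
  let r : ℤ → ℤ → Prop := fun a a' => ∃ x : ι →₀ ℤ, x.support ⊆ S ∧ φ x = v a - v a'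
  have hr : Equivalence r := by
    refine ⟨?_, ?_, ?_⟩
    · intro a
      refine ⟨0, by simp, ?_⟩
      have := hφadd 0 0
      rw [add_zero] at this
      rw [sub_self]
      exact left_eq_add.1 this
    · rintro a a' ⟨x, hx, hx'⟩
      refine ⟨-x, by rw [Finsupp.support_neg]; exact hx, ?_⟩
      rw [hφneg, hx']; ring
    · rintro a a' a'' ⟨x, hx, hx'⟩ ⟨y, hy, hy'⟩
      refine ⟨x + y, ?_, ?_⟩
      · intro i hi
        rcases mem_union.1 (Finsupp.support_add hi) with h | h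
        · exact hx h
        · exact hy h
      · rw [hφadd, hx', hy']; ring
  let st : Setoid ℤ := ⟨r, hr⟩
  let rep : ℤ → ℤ := fun a => (Quotient.mk st a).out
  have hrep : ∀ a, r a (rep a) := by
    intro a
    have h : st.r (Quotient.mk st a).out a := Quotient.exact (Quotient.out_eq (Quotient.mk st a))
    exact hr.symm h
  have hrepeq : ∀ a a', r a a' → rep a = rep a' := by
    intro a a' h
    have : Quotient.mk st a = Quotient.mk st a' := Quotient.sound h
    simp only [rep]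
    rw [this]
  choose x hxS hxφ using hrep
  refine ⟨fun a => ev g (x a), fun a => ev_pos hg _, ?_, ?_⟩
  · intro a ha a' ha' hval
    have hv : v a = v a' := by
      funext p
      simp only [v]
      split_ifs with hp
      · rw [hval p hp]
      · rfl
    have h1 : r a a' := by
      refine ⟨0, by simp, ?_⟩
      have := hφadd 0 0
      rw [add_zero] at this
      rw [hv, sub_self]
      exact left_eq_add.1 this
    have h2 : x a = x a' := by
      apply hφinj _ _ (hxS a) (hxS a')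
      rw [hxφ, hxφ, hrepeq a a' h1, hv]
    show ev g (x a) = ev g (x a')
    rw [h2]
  · intro a ha a' ha' hsupp
    have hφe : φ (e a - e a') = v a - v a' := by
      rw [sub_eq_add_neg, hφadd, hφneg]
      funext p
      simp only [φ, v, Pi.add_apply, Pi.neg_apply, Pi.sub_apply]
      split_ifs with hp
      · rw [padicValRat_eq_val (hP p hp) (he a ha), padicValRat_eq_val (hP p hp) (he a' ha')]
        ring
      · ring
    have h1 : r a a' := ⟨e a - e a', hsupp, hφe⟩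
    have h2 : x a = (e a - e a') + x a' := by
      apply hφinj _ _ (hxS a)
      · intro i hi
        rcases mem_union.1 (Finsupp.support_add hi) with h | h
        · exact hsupp h
        · exact hxS a' h
      · rw [hφadd, hφe, hxφ, hxφ, hrepeq a a' h1]; ring
    show |(a : ℚ)| / ev g (x a) = |(a' : ℚ)| / ev g (x a')
    rw [h2, ev_add hg, ev_sub hg, ← he a ha, ← he a' ha']
    have e1 : (|(a : ℚ)|) ≠ 0 := by
      rw [abs_ne_zero]; exact_mod_cast hA0 a ha
    have e2 : (|(a' : ℚ)|) ≠ 0 := by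
      rw [abs_ne_zero]; exact_mod_cast hA0 a' ha'
    have e3 := (ev_pos hg (x a')).ne'
    field_simp

end Pool.Agent.Helper2.E
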