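import Pool.Agent.Helper2.EVal

set_option autoImplicit false

/-!
Few primes separate the elements of a finitely generated multiplicative group: the version for
generators that may satisfy multiplicative relations.
-/

open Finset

namespace Pool.Agent.Helper2.E

/-- few functionals of a family have the same common kernel as the whole family -/
theorem exists_sep' {V : Type*} [AddCommGroup V] [Module ℚ V] [FiniteDimensional ℚ V]
    {I : Type*} [DecidableEq I] (Φ : I → V →ₗ[ℚ] ℚ) :
    ∀ (n : ℕ) (W : Submodule ℚ V), Module.finrank ℚ W ≤ n →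
      ∃ P : Finset I, P.card ≤ n ∧ ∀ w ∈ W, (∀ i ∈ P, Φ i w = 0) → ∀ i, Φ i w = 0 := by
  intro n
  induction n with
  | zero =>
    intro W hW
    refine ⟨∅, by simp, ?_⟩
    intro w hw _ i
    have h0 : Module.finrank ℚ W = 0 := by omega
    have h1 : W = ⊥ := Submodule.finrank_eq_zero.1 h0
    rw [h1] at hw
    rw [(Submodule.mem_bot ℚ).1 hw, map_zero]
  | succ n ih =>
    intro W hW
    by_cases hall : ∀ w ∈ W, ∀ i, Φ i w = 0
    · exact ⟨∅, by simp, fun w hw _ => hall w hw⟩
    · push Not at hall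
      obtain ⟨w, hw, i, hi⟩ := hall
      set W' := W ⊓ LinearMap.ker (Φ i) with hW'
      have hlt : W' < W := by
        refine lt_of_le_of_ne inf_le_left ?_
        intro h
        have : w ∈ W' := by rw [h]; exact hw
        exact hi (LinearMap.mem_ker.1 this.2)
      have hfr := Submodule.finrank_lt_finrank_of_lt hlt
      obtain ⟨P, hP1, hP2⟩ := ih W' (by omega)
      refine ⟨insert i P, (card_insert_le _ _).trans (by omega), ?_⟩
      intro x hx hx'
      apply hP2 x ⟨hx, LinearMap.mem_ker.2 (hx' i (mem_insert_self _ _))⟩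
      intro j hj
      exact hx' j (mem_insert_of_mem hj)

/-- **Few primes separate the elements of a finitely generated multiplicative group.** -/
theorem exists_primes' {ι : Type*} [DecidableEq ι] {g : ι → ℚ} (hg : ∀ i, 0 < g i)
    (S : Finset ι) :
    ∃ P : Finset ℕ, (∀ p ∈ P, p.Prime) ∧ P.card ≤ S.card ∧
      ∀ e : ι →₀ ℤ, e.support ⊆ S → (∀ p ∈ P, padicValRat p (ev g e) = 0) → ev g e = 1 := by
  classical
  let Φ : {p : ℕ // p.Prime} → (({i // i ∈ S}) → ℚ) →ₗ[ℚ] ℚ := fun p =>
    ∑ i : {i // i ∈ S}, (padicValRat p.1 (g i.1) : ℚ) • LinearMap.proj i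
  have hΦ : ∀ p w, Φ p w = ∑ i : {i // i ∈ S}, (padicValRat p.1 (g i.1) : ℚ) * w i := by
    intro p w
    simp only [Φ, LinearMap.sum_apply, LinearMap.smul_apply, LinearMap.proj_apply, smul_eq_mul]
  have hint : ∀ e : ι →₀ ℤ, e.support ⊆ S → ∀ p : {p : ℕ // p.Prime},
      Φ p (fun i => (e i.1 : ℚ)) = ((padicValRat p.1 (ev g e) : ℤ) : ℚ) := by
    intro e he p
    rw [hΦ, padicValRat_ev hg p.2, Finsupp.sum_of_support_subset e he _ (by intro i _; simp)]
    push_cast
    rw [← Finset.sum_coe_sort S]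
    apply sum_congr rfl
    intro i _
    ring
  obtain ⟨P, hP1, hP2⟩ := exists_sep' Φ S.card ⊤ (by
    rw [finrank_top, Module.finrank_pi, Fintype.card_coe])
  refine ⟨P.image Subtype.val, ?_, card_image_le.trans hP1, ?_⟩
  · intro p hp
    obtain ⟨q, _, rfl⟩ := mem_image.1 hp
    exact q.2
  · intro e he hval
    have h1 := hP2 (fun i => (e i.1 : ℚ)) Submodule.mem_top (by
      intro p hp
      rw [hint e he p, hval p.1 (mem_image_of_mem _ hp), Int.cast_zero])
    apply eq_one_of_padicValRat (ev_pos hg e)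
    intro p hp
    have h2 := h1 ⟨p, hp⟩
    rw [hint e he ⟨p, hp⟩] at h2
    exact_mod_cast h2

/-- **Multipliers for a finitely generated group.** -/
theorem exists_mult' {ι : Type*} {g : ι → ℚ} (hg : ∀ i, 0 < g i) (S : Finset ι)
    (P : Finset ℕ) (hP : ∀ p ∈ P, p.Prime)
    (hinj : ∀ e : ι →₀ ℤ, e.support ⊆ S → (∀ p ∈ P, padicValRat p (ev g e) = 0) → ev g e = 1)
    (A : Finset ℤ) (hA0 : ∀ a ∈ A, a ≠ 0) :
    ∃ u : ℤ → ℚ, (∀ a, 0 < u a) ∧
      (∀ a ∈ A, ∀ a' ∈ A, (∀ p ∈ P, Pool.Agent.Helper5.val p a = Pool.Agent.Helper5.val p a') →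
        u a = u a') ∧
      (∀ a ∈ A, ∀ a' ∈ A, (∃ x : ι →₀ ℤ, x.support ⊆ S ∧ |(a : ℚ)| = |(a' : ℚ)| * ev g x) →
        |(a : ℚ)| / u a = |(a' : ℚ)| / u a') := by
  classical
  -- the valuation vector
  let v : ℤ → (ℕ → ℤ) := fun a p => if p ∈ P then (Pool.Agent.Helper5.val p a : ℤ) else 0
  let φ : (ι →₀ ℤ) → (ℕ → ℤ) := fun e p => if p ∈ P then padicValRat p (ev g e) else 0
  have hφadd : ∀ e e' : ι →₀ ℤ, φ (e + e') = φ e + φ e' := by
    intro e e'
    funext p
    simp only [φ, Pi.add_apply]
    split_ifs with hp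
    · haveI := Fact.mk (hP p hp)
      rw [ev_add hg, padicValRat.mul (ev_pos hg e).ne' (ev_pos hg e').ne']
    · rfl
  have hφneg : ∀ e : ι →₀ ℤ, φ (-e) = -φ e := by
    intro e
    have h1 := hφadd e (-e)
    rw [add_neg_cancel] at h1
    have h0 : φ 0 = 0 := by
      have := hφadd 0 0
      rw [add_zero] at this
      exact left_eq_add.1 this
    rw [h0] at h1
    exact eq_neg_of_add_eq_zero_right h1.symm
  have hφinj : ∀ e e' : ι →₀ ℤ, e.support ⊆ S → e'.support ⊆ S → φ e = φ e' →
      ev g e = ev g e' := by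
    intro e e' hs hs' h
    have h1 : ev g (e - e') = 1 := by
      apply hinj
      · intro i hi
        have := Finsupp.support_sub hi
        rcases mem_union.1 this with h | h
        · exact hs h
        · exact hs' h
      · intro p hp
        have h2 : φ (e - e') = 0 := by rw [sub_eq_add_neg, hφadd, hφneg, h, add_neg_cancel]
        have h3 := congrFun h2 p
        simp only [φ, if_pos hp, Pi.zero_apply] at h3
        exact h3
    rw [ev_sub hg, div_eq_one_iff_eq (ev_pos hg e').ne'] at h1
    exact h1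
  -- the lattice relation
  let r : ℤ → ℤ → Prop := fun a a' => ∃ x : ι →₀ ℤ, x.support ⊆ S ∧ φ x = v a - v a'
  have hr : Equivalence r := by
    refine ⟨?_, ?_, ?_⟩
    · intro a
      refine ⟨0, by simp, ?_⟩
      have := hφadd 0 0
      rw [add_zero] at this
      rw [sub_self]
      exact left_eq_add.1 this
    · rintro a a' ⟨x, hx, hx'⟩
      refine ⟨-x, by rw [Finsupp.support_neg]; exact hx, ?_⟩
      rw [hφneg, hx']; ring
    · rintro a a' a'' ⟨x, hx, hx'⟩ ⟨y, hy, hy'⟩
      refine ⟨x + y, ?_, ?_⟩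
      · intro i hi
        rcases mem_union.1 (Finsupp.support_add hi) with h | h
        · exact hx h
        · exact hy h
      · rw [hφadd, hx', hy']; ring
  let st : Setoid ℤ := ⟨r, hr⟩
  let rep : ℤ → ℤ := fun a => (Quotient.mk st a).out
  have hrep : ∀ a, r a (rep a) := by
    intro a
    have h : st.r (Quotient.mk st a).out a := Quotient.exact (Quotient.out_eq (Quotient.mk st a))
    exact hr.symm h
  have hrepeq : ∀ a a', r a a' → rep a = rep a' := by
    intro a a' h
    have : Quotient.mk st a = Quotient.mk st a' := Quotient.sound h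
    simp only [rep]
    rw [this]
  choose x hxS hxφ using hrep
  refine ⟨fun a => ev g (x a), fun a => ev_pos hg _, ?_, ?_⟩
  · intro a ha a' ha' hval
    have hv : v a = v a' := by
      funext p
      simp only [v]
      split_ifs with hp
      · rw [hval p hp]
      · rfl
    have h1 : r a a' := by
      refine ⟨0, by simp, ?_⟩
      have := hφadd 0 0
      rw [add_zero] at this
      rw [hv, sub_self]
      exact left_eq_add.1 this
    apply hφinj _ _ (hxS a) (hxS a')
    rw [hxφ, hxφ, hrepeq a a' h1, hv]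
  · rintro a ha a' ha' ⟨e, he, hae⟩
    have ha0 : (0:ℚ) < |(a : ℚ)| := abs_pos.2 (by exact_mod_cast hA0 a ha)
    have ha0' : (0:ℚ) < |(a' : ℚ)| := abs_pos.2 (by exact_mod_cast hA0 a' ha')
    have hφe : φ e = v a - v a' := by
      funext p
      simp only [φ, v, Pi.sub_apply]
      split_ifs with hp
      · haveI := Fact.mk (hP p hp)
        have h1 : padicValRat p |(a : ℚ)| = padicValRat p |(a' : ℚ)| + padicValRat p (ev g e) := by
          rw [hae, padicValRat.mul ha0'.ne' (ev_pos hg e).ne']
        rw [padicValRat_eq_val (hP p hp) (rfl : |(a : ℚ)| = |(a : ℚ)|),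
          padicValRat_eq_val (hP p hp) (rfl : |(a' : ℚ)| = |(a' : ℚ)|)] at h1
        linarith
      · ring
    have h1 : r a a' := ⟨e, he, hφe⟩
    have h2 : ev g (x a) = ev g (e + x a') := by
      apply hφinj _ _ (hxS a)
      · intro i hi
        rcases mem_union.1 (Finsupp.support_add hi) with h | h
        · exact he h
        · exact hxS a' h
      · rw [hφadd, hφe, hxφ, hxφ, hrepeq a a' h1]; ring
    show |(a : ℚ)| / ev g (x a) = |(a' : ℚ)| / ev g (x a')
    rw [h2, ev_add hg, hae]
    have e3 := (ev_pos hg (x a')).ne'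
    have e4 := (ev_pos hg e).ne'
    field_simp

end Pool.Agent.Helper2.E
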