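import Pool.Agent.Helper2.EStepB

set_option autoImplicit false

/-!
Decoding `(d, m)` from `d + u m`: induction over levels and primes.
-/

open Finset

namespace Pool.Agent.Helper2.E

/-- splitting of `E` only -/
theorem stepS {θ Λ T : ℝ} (hθ0 : 0 < θ) {u : ℕ} {E M : Finset ℤ} {α : ℤ → ℤ}
    (hsame : ∀ d ∈ E, ∀ m ∈ M, ∀ d' ∈ E, ∀ m' ∈ M,
      d + (u:ℤ) * m = d' + (u:ℤ) * m' → α d = α d')
    {F : ℤ → ℤ → Prop}
    (hsub : ∀ a ∈ E.image α, Good θ Λ T u (E.filter (fun d => α d = a)) M F) :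
    Good θ Λ T u E M F := by
  classical
  choose! W hW hcost using hsub
  refine ⟨fun d m => 1 * W (α d) d m, ⟨?_, ?_⟩, ?_⟩
  · intro d hd m hm
    rw [one_mul]
    exact (hW _ (mem_image_of_mem _ hd)).pos d (mem_filter.2 ⟨hd, rfl⟩) m hm
  · intro x
    rcases ((E ×ˢ M).filter (fun e => e.1 + (u:ℤ) * e.2 = x)).eq_empty_or_nonempty with h0 | h0
    · rw [h0, sum_empty]; exact zero_le_one
    · obtain ⟨e₀, he₀⟩ := h0
      rw [mem_filter, mem_product] at he₀
      have hA := hW _ (mem_image_of_mem α he₀.1.1)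
      refine le_trans ?_ (hA.ker x)
      calc ∑ e ∈ (E ×ˢ M).filter (fun e => e.1 + (u:ℤ) * e.2 = x), 1 * W (α e.1) e.1 e.2
          = ∑ e ∈ (E ×ˢ M).filter (fun e => e.1 + (u:ℤ) * e.2 = x), W (α e₀.1) e.1 e.2 := by
            apply sum_congr rfl
            intro e he
            rw [mem_filter, mem_product] at he
            rw [one_mul, hsame e.1 he.1.1 e.2 he.1.2 e₀.1 he₀.1.1 e₀.2 he₀.1.2
              (he.2.trans he₀.2.symm)]
        _ ≤ _ := by
            apply sum_le_sum_of_subset_of_nonneg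
            · intro e he
              rw [mem_filter, mem_product] at he
              rw [mem_filter, mem_product, mem_filter]
              exact ⟨⟨⟨he.1.1, hsame e.1 he.1.1 e.2 he.1.2 e₀.1 he₀.1.1 e₀.2 he₀.1.2
                (he.2.trans he₀.2.symm)⟩, he.1.2⟩, he.2⟩
            · intro e he _
              rw [mem_filter, mem_product] at he
              exact (hA.pos e.1 he.1.1 e.2 he.1.2).le
  · intro m hm
    rw [cost_glue (fun _ => 1) (fun a d => W a d m) (fun _ _ => one_pos)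
      (fun a ha d hd hda => (hW a ha).pos d (mem_filter.2 ⟨hd, hda⟩) m hm)]
    set n : ℤ → ℝ := fun a => ((E.filter (fun d => α d = a)).card : ℝ) with hn
    have hn1 : ∀ a ∈ E.image α, 1 ≤ n a := by
      intro a ha
      obtain ⟨d, hd, rfl⟩ := mem_image.1 ha
      have : 0 < (E.filter (fun d' => α d' = α d)).card := card_pos.2 ⟨d, mem_filter.2 ⟨hd, rfl⟩⟩
      simp only [hn]
      exact_mod_cast this
    have hnsum : ∑ a ∈ E.image α, n a = E.card := card_class_sum E α
    have hterm : ∀ a ∈ E.image α, n a * (-Real.log 1) +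
        (-∑ d ∈ E.filter (fun d => α d = a), Real.log (W a d m)) ≤
        n a * (θ * Real.log E.card + 2 * θ * Real.log M.card + T) +
        Λ * (((E.filter (fun d => α d = a)).filter (fun d => F d m)).card : ℝ) := by
      intro a ha
      have h1 := hcost a ha m hm
      have hna : 0 < n a := lt_of_lt_of_le one_pos (hn1 a ha)
      have h2 : Real.log (n a) ≤ Real.log E.card := by
        apply Real.log_le_log hna
        simp only [hn]
        exact_mod_cast card_le_card (filter_subset _ _)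
      have h7 : n a * (θ * Real.log (n a) + 2 * θ * Real.log M.card + T) ≤
            n a * (θ * Real.log E.card + 2 * θ * Real.log M.card + T) :=
          mul_le_mul_of_nonneg_left (add_le_add (add_le_add
            (mul_le_mul_of_nonneg_left h2 hθ0.le) le_rfl) le_rfl) hna.le
      rw [Real.log_one, neg_zero, mul_zero, zero_add]
      exact h1.trans (add_le_add h7 le_rfl)
    refine (sum_le_sum hterm).trans ?_
    rw [sum_add_distrib, ← sum_mul, hnsum, ← mul_sum, fail_class_sum E α (fun d => F d m)]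

theorem card_one_of_close {n : ℤ} {E : Finset ℤ} (hE : E.Nonempty)
    (h1 : ∀ x ∈ E, ∀ y ∈ E, x % n = y % n) (h2 : ∀ x ∈ E, ∀ y ∈ E, |x - y| < n) : E.card = 1 := by
  obtain ⟨x₀, hx₀⟩ := hE
  rw [card_eq_one]
  refine ⟨x₀, ?_⟩
  ext x
  rw [mem_singleton]
  constructor
  · intro hx
    have h3 : n ∣ x - x₀ := emod_eq_iff_dvd.1 (h1 x hx x₀ hx₀)
    have h4 := Int.eq_zero_of_abs_lt_dvd h3 (h2 x hx x₀ hx₀)
    omega
  · rintro rfl; exact hx₀

/-- induction over the levels at one prime -/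
theorem levels {θ η Λ T' : ℝ} (hθ0 : 0 < θ) (hθ1 : θ ≤ 1) (hη0 : 0 < η) (hη1 : η < 1)
    (hηθ : η ≤ θ) (hη : θ * Real.log η = Real.log θ) (hΛ : 0 ≤ Λ) (hT' : 0 ≤ T')
    {p : ℕ} (hp : p.Prime) {u : ℕ} (hu : u ≠ 0) (J : List ℕ)
    (hnext : ∀ E M : Finset ℤ, E.Nonempty → M.Nonempty → Real.log E.card ≤ Λ →
      Good θ Λ T' u E M (Fail η u.factorization J E M)) :
    ∀ (n i : ℕ) (E M : Finset ℤ), E.Nonempty → M.Nonempty → Real.log E.card ≤ Λ →
      (∀ x ∈ E, ∀ y ∈ E, x % (p:ℤ) ^ (u.factorization p + i) =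
        y % (p:ℤ) ^ (u.factorization p + i)) →
      (∀ x ∈ M, ∀ y ∈ M, x % (p:ℤ) ^ i = y % (p:ℤ) ^ i) →
      (∀ x ∈ E, ∀ y ∈ E, |x - y| < (p:ℤ) ^ (i + n)) →
      (∀ x ∈ M, ∀ y ∈ M, |x - y| < (p:ℤ) ^ (i + n)) →
      Good θ Λ (T' + -Real.log (1 - (1 - η) ^ θ)) u E M
        (FailFrom η u.factorization p J i E M) := by
  classical
  have hb : 0 ≤ -Real.log (1 - (1 - η) ^ θ) := by
    rw [neg_nonneg]
    have h1 : (1 - η) ^ θ < 1 := Real.rpow_lt_one (by linarith) (by linarith) hθ0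
    have h2 : 0 ≤ (1 - η) ^ θ := Real.rpow_nonneg (by linarith) _
    exact Real.log_nonpos (by linarith) (by linarith)
  have hp1 : (1:ℤ) ≤ p := by exact_mod_cast hp.one_lt.le
  intro n
  induction n with
  | zero =>
    intro i E M hE hM hΛE hEc hMc hEd hMd
    apply good_single hΛ (by linarith)
    · apply card_one_of_close hE hEc
      intro x hx y hy
      refine (hEd x hx y hy).trans_le ?_
      rw [add_zero]
      exact pow_le_pow_right₀ hp1 (by omega)
    · apply card_one_of_close hM hMc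
      intro x hx y hy
      exact hMd x hx y hy
  | succ n ih =>
    intro i E M hE hM hΛE hEc hMc hEd hMd
    set v := u.factorization p with hv
    let α : ℤ → ℤ := fun d => d % (p:ℤ) ^ (v + (i + 1))
    let β : ℤ → ℤ := fun m => m % (p:ℤ) ^ (i + 1)
    have hmatch : ∀ d ∈ E, ∀ m ∈ M, ∀ d' ∈ E, ∀ m' ∈ M,
        d + (u:ℤ) * m = d' + (u:ℤ) * m' → (α d = α d' ↔ β m = β m') := by
      intro d _ m _ d' _ m' _ h
      exact matching hp hu h (i + 1)
    have hsub : ∀ a ∈ E.image α, ∀ b ∈ M.image β,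
        Good θ Λ (T' + -Real.log (1 - (1 - η) ^ θ)) u (E.filter (fun d => α d = a))
          (M.filter (fun m => β m = b)) (FailFrom η u.factorization p J i E M) := by
      intro a ha b hb'
      obtain ⟨d₀, hd₀, rfl⟩ := mem_image.1 ha
      obtain ⟨m₀, hm₀, rfl⟩ := mem_image.1 hb'
      have hEe : E.filter (fun d => α d = α d₀) = cl ((p:ℤ) ^ (v + (i + 1))) E d₀ := rfl
      have hMe : M.filter (fun m => β m = β m₀) = cl ((p:ℤ) ^ (i + 1)) M m₀ := rfl
      rw [hEe, hMe]
      have h1 := ih (i + 1) (cl ((p:ℤ) ^ (v + (i + 1))) E d₀) (cl ((p:ℤ) ^ (i + 1)) M m₀)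
        ⟨d₀, self_mem_cl hd₀⟩ ⟨m₀, self_mem_cl hm₀⟩
        (le_trans (Real.log_le_log (by exact_mod_cast card_pos.2 ⟨d₀, self_mem_cl hd₀⟩)
          (by exact_mod_cast card_le_card (cl_subset _ _ _))) hΛE)
        (fun x hx y hy => (mem_cl.1 hx).2.trans (mem_cl.1 hy).2.symm)
        (fun x hx y hy => (mem_cl.1 hx).2.trans (mem_cl.1 hy).2.symm)
        (fun x hx y hy => by
          rw [show i + 1 + n = i + (n + 1) by ring]
          exact hEd x (mem_cl.1 hx).1 y (mem_cl.1 hy).1)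
        (fun x hx y hy => by
          rw [show i + 1 + n = i + (n + 1) by ring]
          exact hMd x (mem_cl.1 hx).1 y (mem_cl.1 hy).1)
      refine h1.mono hΛ ?_
      intro d hd m hm hf
      exact (failFrom_cl (mem_cl.1 hd).2 (mem_cl.1 hm).2 hf).anti (Nat.le_succ i)
    by_cases hex : ∃ h ∈ E.image α, (1 - η) * (E.card : ℝ) ≤
        ((E.filter (fun d => α d = h)).card : ℝ)
    · obtain ⟨h, hh, hheavy⟩ := hex
      exact stepH hθ0 hθ1 hη0 hηθ hη hM hmatch hsub hh hheavy
    · push Not at hex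
      apply stepB hθ0 hη0 hη1 le_rfl hE hM hmatch hΛ hsub (fun a ha => (hex a ha).le)
        (hnext E M hE hM hΛE)
      intro d hd m hm hcrit hF
      have hE1 : cl ((p:ℤ) ^ (v + i)) E d = E := cl_eq_self (fun x hx => hEc x hx d hd)
      have hM1 : cl ((p:ℤ) ^ i) M m = M := cl_eq_self (fun x hx => hMc x hx m hm)
      refine ⟨i, le_rfl, ?_, ?_, ?_⟩
      · rw [hE1]
        exact (hex (α d) (mem_image_of_mem _ hd)).le
      · rw [hM1]
        exact hcrit
      · rw [hE1, hM1]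
        exact hF

/-- induction over the primes -/
theorem primes {θ η Λ : ℝ} (hθ0 : 0 < θ) (hθ1 : θ ≤ 1) (hη0 : 0 < η) (hη1 : η < 1)
    (hηθ : η ≤ θ) (hη : θ * Real.log η = Real.log θ) (hΛ : 0 ≤ Λ)
    {u : ℕ} (hu : u ≠ 0) : ∀ (J : List ℕ), (∀ p ∈ J, p.Prime) →
    ∀ E M : Finset ℤ, E.Nonempty → M.Nonempty → Real.log E.card ≤ Λ →
      Good θ Λ ((J.length : ℝ) * (-Real.log (1 - (1 - η) ^ θ))) u E M
        (Fail η u.factorization J E M) := by
  classical
  have hb : 0 ≤ -Real.log (1 - (1 - η) ^ θ) := by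
    rw [neg_nonneg]
    have h1 : (1 - η) ^ θ < 1 := Real.rpow_lt_one (by linarith) (by linarith) hθ0
    have h2 : 0 ≤ (1 - η) ^ θ := Real.rpow_nonneg (by linarith) _
    exact Real.log_nonpos (by linarith) (by linarith)
  intro J
  induction J with
  | nil =>
    intro _ E M hE hM hΛE
    simp only [List.length_nil, Nat.cast_zero, zero_mul]
    exact good_nil hθ0.le le_rfl hu hE hM hΛE
  | cons p J ih =>
    intro hJ E M hE hM hΛE
    have hp : p.Prime := hJ p List.mem_cons_self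
    have ihJ := ih (fun q hq => hJ q (List.mem_cons_of_mem _ hq))
    have hlev := levels hθ0 hθ1 hη0 hη1 hηθ hη hΛ
      (T' := (J.length : ℝ) * (-Real.log (1 - (1 - η) ^ θ))) (by positivity) hp hu J ihJ
    have hT : ((p :: J).length : ℝ) * (-Real.log (1 - (1 - η) ^ θ)) =
        (J.length : ℝ) * (-Real.log (1 - (1 - η) ^ θ)) + -Real.log (1 - (1 - η) ^ θ) := by
      rw [List.length_cons]; push_cast; ring
    rw [hT]
    set v := u.factorization p with hv
    -- a bound for all differences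
    obtain ⟨n, hn⟩ : ∃ n : ℕ, (∀ x ∈ E, ∀ y ∈ E, |x - y| < (p:ℤ) ^ n) ∧
        (∀ x ∈ M, ∀ y ∈ M, |x - y| < (p:ℤ) ^ n) := by
      set B : ℕ := ((E ×ˢ E) ∪ (M ×ˢ M)).sup (fun z => (z.1 - z.2).natAbs) with hB
      refine ⟨B, ?_, ?_⟩
      · intro x hx y hy
        have h1 : (x - y).natAbs ≤ B := Finset.le_sup (f := fun z : ℤ × ℤ => (z.1 - z.2).natAbs)
          (b := (x, y)) (mem_union_left _ (mem_product.2 ⟨hx, hy⟩))
        have h2 : B < p ^ B := Nat.lt_pow_self hp.one_lt
        have h3 : ((x - y).natAbs : ℤ) < ((p ^ B : ℕ) : ℤ) := by exact_mod_cast h1.trans_lt h2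
        rw [Int.natCast_natAbs] at h3
        exact_mod_cast h3
      · intro x hx y hy
        have h1 : (x - y).natAbs ≤ B := Finset.le_sup (f := fun z : ℤ × ℤ => (z.1 - z.2).natAbs)
          (b := (x, y)) (mem_union_right _ (mem_product.2 ⟨hx, hy⟩))
        have h2 : B < p ^ B := Nat.lt_pow_self hp.one_lt
        have h3 : ((x - y).natAbs : ℤ) < ((p ^ B : ℕ) : ℤ) := by exact_mod_cast h1.trans_lt h2
        rw [Int.natCast_natAbs] at h3
        exact_mod_cast h3
    apply stepS hθ0 (α := fun d => d % (p:ℤ) ^ (v + 0))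
    · intro d _ m _ d' _ m' _ h
      exact (matching hp hu h 0).2 (by simp)
    · intro a ha
      obtain ⟨d₀, hd₀, rfl⟩ := mem_image.1 ha
      have hEe : E.filter (fun d => d % (p:ℤ) ^ (v + 0) = d₀ % (p:ℤ) ^ (v + 0)) =
        cl ((p:ℤ) ^ (v + 0)) E d₀ := rfl
      rw [hEe]
      have h1 := hlev n 0 (cl ((p:ℤ) ^ (v + 0)) E d₀) M ⟨d₀, self_mem_cl hd₀⟩ hM
        (le_trans (Real.log_le_log (by exact_mod_cast card_pos.2 ⟨d₀, self_mem_cl hd₀⟩)
          (by exact_mod_cast card_le_card (cl_subset _ _ _))) hΛE)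
        (fun x hx y hy => (mem_cl.1 hx).2.trans (mem_cl.1 hy).2.symm)
        (fun x _ y _ => by simp)
        (fun x hx y hy => by
          rw [zero_add]
          exact hn.1 x (mem_cl.1 hx).1 y (mem_cl.1 hy).1)
        (fun x hx y hy => by
          rw [zero_add]
          exact hn.2 x hx y hy)
      refine h1.mono hΛ ?_
      intro d hd m hm hf
      have hM1 : cl ((p:ℤ) ^ 0) M m = M := cl_eq_self (fun x _ => by simp)
      have h2 : FailFrom η u.factorization p J 0 E M d m := by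
        apply failFrom_cl (d₀ := d₀) (m₀ := m) (mem_cl.1 hd).2 rfl
        rw [hM1]
        exact hf
      obtain ⟨j, _, h3, h4, h5⟩ := h2
      exact ⟨j, h3, h4, h5⟩

/-- **Decoding `(d, m)`**. -/
theorem decM {θ lam : ℝ} (hθ0 : 0 < θ) (hθ1 : θ ≤ 1 / 2) (hl : 0 < lam) :
    ∃ b C : ℝ, 0 ≤ b ∧ 1 ≤ C ∧ ∀ S : Finset ℕ, (∀ p ∈ S, p.Prime) →
      ∀ D M : Finset ℤ, D.Nonempty → M.Nonempty →
      ∃ F : ℕ → ℤ → ℤ → Prop,
        (∀ d ∈ D, ∀ m ∈ M, ∀ V : Finset ℕ, (∀ u ∈ V, u ≠ 0 ∧ u.primeFactors ⊆ S) →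
          (∀ u ∈ V, F u d m) →
          (V.card : ℝ) ≤ C ^ S.card * ((D.card : ℝ) ^ lam * (M.card : ℝ) ^ lam)) ∧
        (∀ u : ℕ, u ≠ 0 → Good θ (Real.log D.card) ((S.card : ℝ) * b) u D M (F u)) := by
  classical
  set η : ℝ := θ ^ (1 / θ) with hηdef
  have hη0 : 0 < η := Real.rpow_pos_of_pos hθ0 _
  have hη1 : η < 1 := Real.rpow_lt_one hθ0.le (by linarith) (by positivity)
  have hηθ : η ≤ θ := by
    calc η = θ ^ (1 / θ) := rfl
      _ ≤ θ ^ (1:ℝ) := by
        apply Real.rpow_le_rpow_of_exponent_ge hθ0 (by linarith)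
        rw [le_div_iff₀ hθ0]; linarith
      _ = θ := Real.rpow_one θ
  have hη : θ * Real.log η = Real.log θ := by
    rw [hηdef, Real.log_rpow hθ0]
    field_simp
  set C := (1 / (1 - (1 - η) ^ lam)) * (1 / (1 - (1 / 2 : ℝ) ^ lam)) with hC
  have hC1 : 1 ≤ C := by
    have h1 : (1 - η) ^ lam < 1 := Real.rpow_lt_one (by linarith) (by linarith) hl
    have h1' : 0 ≤ (1 - η) ^ lam := Real.rpow_nonneg (by linarith) _
    have h2 : (1 / 2 : ℝ) ^ lam < 1 := Real.rpow_lt_one (by norm_num) (by norm_num) hl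
    have h2' : 0 ≤ (1 / 2 : ℝ) ^ lam := Real.rpow_nonneg (by norm_num) _
    have h3 : 1 ≤ 1 / (1 - (1 - η) ^ lam) := by rw [le_div_iff₀ (by linarith)]; linarith
    have h4 : 1 ≤ 1 / (1 - (1 / 2 : ℝ) ^ lam) := by rw [le_div_iff₀ (by linarith)]; linarith
    calc (1:ℝ) = 1 * 1 := (one_mul 1).symm
      _ ≤ _ := mul_le_mul h3 h4 zero_le_one (by linarith)
  refine ⟨-Real.log (1 - (1 - η) ^ θ), C, ?_, hC1, ?_⟩
  · rw [neg_nonneg]
    have h1 : (1 - η) ^ θ < 1 := Real.rpow_lt_one (by linarith) (by linarith) hθ0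
    have h2 : 0 ≤ (1 - η) ^ θ := Real.rpow_nonneg (by linarith) _
    exact Real.log_nonpos (by linarith) (by linarith)
  · intro S hS D M hD hM
    refine ⟨fun u => Fail η u.factorization S.toList D M, ?_, ?_⟩
    · intro d hd m hm V hV hF
      have := fail_count hη0 hη1.le hl (fun u : ℕ => (u.factorization : ℕ → ℕ)) S.toList D M d m
        hd hm V hF (by
          intro u hu u' hu' huu
          apply Nat.eq_of_factorization_eq (hV u hu).1 (hV u' hu').1
          intro q
          by_cases hq : q ∈ S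
          · exact huu q (mem_toList.2 hq)
          · have h1 : q ∉ u.primeFactors := fun h => hq ((hV u hu).2 h)
            have h2 : q ∉ u'.primeFactors := fun h => hq ((hV u' hu').2 h)
            rw [← Nat.support_factorization, Finsupp.notMem_support_iff] at h1 h2
            rw [h1, h2])
      rw [length_toList] at this
      exact this
    · intro u hu
      have := primes hθ0 (by linarith) hη0 hη1 hηθ hη
        (Λ := Real.log D.card) (Real.log_natCast_nonneg _) hu S.toList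
        (fun p hp => hS p (mem_toList.1 hp)) D M hD hM le_rfl
      rw [length_toList] at this
      exact this

end Pool.Agent.Helper2.E
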