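import Pool.Agent.Helper2.EFinal3

set_option autoImplicit false

/-!
Exponent vectors of integers, and the passage from a large subset to the set.
-/

open Finset

namespace Pool.Agent.Helper2.E

open Pool.Agent.Helper5

/-- The conclusion for a set `A` from the one for a large subset `B`. -/
theorem lift (k : ℕ) (hk : 1 ≤ k) (ε : ℝ) (hε : 0 < ε) {c' : ℝ} (hc' : 0 < c') {c : ℝ}
    (hc1 : c ≤ c' / 2) (hc2 : c ≤ 1 / 2) (hc3 : c ≤ ε / (2 * k)) (hcpos : 0 < c)
    {A B : Finset ℤ} (hA : A.Nonempty) (hBA : B ⊆ A)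
    (hcard : (A.card : ℝ) ^ (1 - c) ≤ (B.card : ℝ)) :
    B.Nonempty ∧ c * Real.log A.card ≤ c' * Real.log B.card ∧
    (c' * (B.card : ℝ) ^ ((k : ℝ) - ε / 2) ≤ max ((kS k B).card : ℝ) ((kP k B).card : ℝ) →
      c * (A.card : ℝ) ^ ((k : ℝ) - ε) ≤ max ((kS k A).card : ℝ) ((kP k A).card : ℝ)) := by
  have hk0 : (0 : ℝ) < k := by exact_mod_cast hk
  have hn1 : 1 ≤ A.card := card_pos.mpr hA
  have hn1' : (1 : ℝ) ≤ A.card := by exact_mod_cast hn1
  have hnpos : (0 : ℝ) < A.card := by linarith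
  have hbpos : (0 : ℝ) < B.card := lt_of_lt_of_le (Real.rpow_pos_of_pos hnpos _) hcard
  have hBne : B.Nonempty := by
    rw [← card_pos]; exact_mod_cast hbpos
  have hlogn : 0 ≤ Real.log A.card := Real.log_nonneg hn1'
  have hloglow : (1 - c) * Real.log A.card ≤ Real.log B.card := by
    rw [← Real.log_rpow hnpos]
    exact Real.log_le_log (Real.rpow_pos_of_pos hnpos _) hcard
  have hloglow2 : Real.log A.card ≤ 2 * Real.log B.card := by
    have : 1 / 2 * Real.log A.card ≤ (1 - c) * Real.log A.card :=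
      mul_le_mul_of_nonneg_right (by linarith) hlogn
    linarith
  have hkey : c * Real.log A.card ≤ c' * Real.log B.card := by
    calc c * Real.log A.card ≤ c' / 2 * Real.log A.card :=
          mul_le_mul_of_nonneg_right hc1 hlogn
      _ ≤ c' / 2 * (2 * Real.log B.card) :=
          mul_le_mul_of_nonneg_left hloglow2 (by positivity)
      _ = _ := by ring
  refine ⟨hBne, hkey, ?_⟩
  intro hB
  have hmono : max ((kS k B).card : ℝ) ((kP k B).card : ℝ) ≤
      max ((kS k A).card : ℝ) ((kP k A).card : ℝ) := by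
    apply max_le_max
    · exact_mod_cast card_le_card (kS_mono k hBA)
    · exact_mod_cast card_le_card (kP_mono k hBA)
  have hmax1 : (1 : ℝ) ≤ max ((kS k A).card : ℝ) ((kP k A).card : ℝ) := by
    apply le_max_of_le_left
    exact_mod_cast card_pos.mpr (kS_nonempty k hA)
  rcases le_or_gt 0 ((k : ℝ) - ε / 2) with h0 | h0
  · have h1 : (A.card : ℝ) ^ ((k : ℝ) - ε) ≤ (B.card : ℝ) ^ ((k : ℝ) - ε / 2) := by
      calc (A.card : ℝ) ^ ((k : ℝ) - ε) ≤ (A.card : ℝ) ^ ((1 - c) * ((k : ℝ) - ε / 2)) := by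
            apply Real.rpow_le_rpow_of_exponent_le hn1'
            have h2 : c * k ≤ ε / 2 := by
              calc c * k ≤ ε / (2 * k) * k := mul_le_mul_of_nonneg_right hc3 hk0.le
                _ = ε / 2 := by field_simp
            have h3 : 0 ≤ c * (ε / 2) := by positivity
            linarith
        _ = ((A.card : ℝ) ^ (1 - c)) ^ ((k : ℝ) - ε / 2) := Real.rpow_mul hnpos.le _ _
        _ ≤ (B.card : ℝ) ^ ((k : ℝ) - ε / 2) :=
            Real.rpow_le_rpow (Real.rpow_nonneg hnpos.le _) hcard h0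
    calc c * (A.card : ℝ) ^ ((k : ℝ) - ε) ≤ c' * (B.card : ℝ) ^ ((k : ℝ) - ε / 2) := by
          apply mul_le_mul _ h1 (Real.rpow_nonneg hnpos.le _) hc'.le
          linarith
      _ ≤ _ := hB
      _ ≤ _ := hmono
  · have h1 : (A.card : ℝ) ^ ((k : ℝ) - ε) ≤ 1 :=
      Real.rpow_le_one_of_one_le_of_nonpos hn1' (by linarith)
    calc c * (A.card : ℝ) ^ ((k : ℝ) - ε) ≤ 1 * 1 := by
          apply mul_le_mul (by linarith) h1 (Real.rpow_nonneg hnpos.le _) (by norm_num)
      _ ≤ _ := by linarith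

/-- the type of primes -/
abbrev Pr : Type := {p : ℕ // p.Prime}

/-- the exponent vector of an integer, in the primes -/
noncomputable def fac (b : ℤ) : Pr →₀ ℤ :=
  (b.natAbs.factorization.comapDomain (Subtype.val : Pr → ℕ)
    Subtype.val_injective.injOn).mapRange (fun n : ℕ => (n : ℤ)) rfl

theorem fac_apply (b : ℤ) (p : Pr) : fac b p = (padicValInt p b : ℤ) := by
  unfold fac
  rw [Finsupp.mapRange_apply, Finsupp.comapDomain_apply, Nat.factorization_def _ p.2]
  rfl

theorem fac_mul {a b : ℤ} (ha : a ≠ 0) (hb : b ≠ 0) : fac (a * b) = fac a + fac b := by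
  ext p
  haveI := Fact.mk p.2
  rw [Finsupp.add_apply, fac_apply, fac_apply, fac_apply, padicValInt.mul ha hb]
  push_cast
  ring

theorem fac_inj {a b : ℤ} (ha : a ≠ 0) (hb : b ≠ 0) (h : fac a = fac b) : a = b ∨ a = -b := by
  apply Int.natAbs_eq_natAbs_iff.1
  apply Nat.eq_of_factorization_eq (Int.natAbs_ne_zero.2 ha) (Int.natAbs_ne_zero.2 hb)
  intro p
  by_cases hp : p.Prime
  · have h1 := DFunLike.congr_fun h ⟨p, hp⟩
    rw [fac_apply, fac_apply] at h1
    rw [Nat.factorization_def _ hp, Nat.factorization_def _ hp]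
    exact_mod_cast h1
  · rw [Nat.factorization_eq_zero_of_not_prime _ hp, Nat.factorization_eq_zero_of_not_prime _ hp]

theorem primes_pos (p : Pr) : (0 : ℚ) < ((p : ℕ) : ℚ) := by
  exact_mod_cast p.2.pos

theorem val_ev (e : Pr →₀ ℤ) (p : Pr) :
    padicValRat p (ev (fun p : Pr => ((p : ℕ) : ℚ)) e) = e p := by
  haveI := Fact.mk p.2
  rw [padicValRat_ev primes_pos p.2, Finsupp.sum, Finset.sum_eq_single p]
  · rw [padicValRat.self p.2.one_lt, mul_one]
  · intro q _ hq
    haveI := Fact.mk q.2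
    rw [padicValRat.of_nat, padicValNat_primes (fun h => hq (Subtype.ext h.symm))]
    simp
  · intro h
    rw [Finsupp.notMem_support_iff.1 h, zero_mul]

theorem ev_fac {b : ℤ} (hb : b ≠ 0) :
    |(b : ℚ)| = ev (fun p : Pr => ((p : ℕ) : ℚ)) (fac b) := by
  have h1 : (0:ℚ) < |(b : ℚ)| := abs_pos.2 (by exact_mod_cast hb)
  have h2 := ev_pos primes_pos (fac b)
  have h3 : |(b : ℚ)| / ev (fun p : Pr => ((p : ℕ) : ℚ)) (fac b) = 1 := by
    apply eq_one_of_padicValRat (by positivity)
    intro p hp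
    haveI := Fact.mk hp
    rw [padicValRat.div h1.ne' h2.ne', padicValRat_eq_val hp rfl,
      val_ev (fac b) ⟨p, hp⟩, fac_apply]
    have : Pool.Agent.Helper5.val p b = padicValInt p b := by
      unfold Pool.Agent.Helper5.val
      rw [Nat.factorization_def _ hp]
      rfl
    rw [this, sub_self]
  rw [div_eq_one_iff_eq h2.ne'] at h3
  exact h3

open Classical in
/-- exponent vector outside `T` -/
noncomputable def offT (T : Set ℕ) (b : ℤ) : Pr →₀ ℤ := (fac b).filter (fun p => (p : ℕ) ∉ T)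

open Classical in
theorem offT_apply (T : Set ℕ) (b : ℤ) (p : Pr) :
    offT T b p = if (p : ℕ) ∈ T then 0 else (padicValInt p b : ℤ) := by
  unfold offT
  rw [Finsupp.filter_apply, ← fac_apply]
  by_cases h : (p : ℕ) ∈ T <;> simp [h]

theorem offT_mul (T : Set ℕ) {a b : ℤ} (ha : a ≠ 0) (hb : b ≠ 0) :
    offT T (a * b) = offT T a + offT T b := by
  classical
  unfold offT
  rw [fac_mul ha hb, Finsupp.filter_add]

/-- products correspond to sums of exponent vectors -/
theorem vI_offT (T : Set ℕ) (A : Finset ℤ) (hA : ∀ a ∈ A, a ≠ 0) (j : ℕ) :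
    (∀ x ∈ pI A j, x ≠ 0) ∧ vI (A.image (offT T)) j = (pI A j).image (offT T) := by
  classical
  induction j with
  | zero =>
    refine ⟨?_, ?_⟩
    · intro x hx
      simp only [pI, mem_singleton] at hx
      rw [hx]; norm_num
    · simp only [vI, pI, image_singleton]
      congr 1
      ext p
      rw [offT_apply]
      simp
  | succ j ih =>
    obtain ⟨ih1, ih2⟩ := ih
    refine ⟨?_, ?_⟩
    · intro x hx
      simp only [pI, mem_image₂] at hx
      obtain ⟨y, hy, a, ha, rfl⟩ := hx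
      exact mul_ne_zero (ih1 y hy) (hA a ha)
    · have h1 : vI (A.image (offT T)) (j + 1) =
        image₂ (· + ·) (vI (A.image (offT T)) j) (A.image (offT T)) := rfl
      have h2 : pI A (j + 1) = image₂ (· * ·) (pI A j) A := rfl
      rw [h1, h2, ih2]
      ext v
      simp only [mem_image₂, mem_image]
      constructor
      · rintro ⟨_, ⟨y, hy, rfl⟩, _, ⟨z, hz, rfl⟩, rfl⟩
        exact ⟨y * z, ⟨y, hy, z, hz, rfl⟩, offT_mul T (ih1 y hy) (hA z hz)⟩
      · rintro ⟨_, ⟨y, hy, z, hz, rfl⟩, rfl⟩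
        exact ⟨_, ⟨y, hy, rfl⟩, _, ⟨z, hz, rfl⟩, (offT_mul T (ih1 y hy) (hA z hz)).symm⟩

end Pool.Agent.Helper2.E
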