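import Pool.Agent.Helper2.E0

set_option autoImplicit false

/-!
The failing exponent vectors of a pair `(d, m)` and their number.
-/

open Finset

namespace Pool.Agent.Helper2.E

open Pool.Agent.Helper5 hiding val

/-- `(d, m)` is stopped at every prime of the list -/
def Fail (η : ℝ) (v : ℕ → ℕ) : List ℕ → Finset ℤ → Finset ℤ → ℤ → ℤ → Prop
  | [], _, _, _, _ => True
  | (p :: J), E, M, d, m => ∃ i : ℕ,
      ((cl ((p:ℤ) ^ (v p + (i + 1))) E d).card : ℝ) ≤
        (1 - η) * ((cl ((p:ℤ) ^ (v p + i)) E d).card : ℝ) ∧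
      2 * (cl ((p:ℤ) ^ (i + 1)) M m).card ≤ (cl ((p:ℤ) ^ i) M m).card ∧
      Fail η v J (cl ((p:ℤ) ^ (v p + i)) E d) (cl ((p:ℤ) ^ i) M m) d m

/-- number of failing vectors -/
theorem fail_count {η lam : ℝ} (hη0 : 0 < η) (hη1 : η ≤ 1) (hl : 0 < lam) {ι : Type*}
    [DecidableEq ι] (v : ι → ℕ → ℕ) :
    ∀ (J : List ℕ) (E M : Finset ℤ) (d m : ℤ), d ∈ E → m ∈ M → ∀ V : Finset ι,
      (∀ u ∈ V, Fail η (v u) J E M d m) →
      (∀ u ∈ V, ∀ u' ∈ V, (∀ p ∈ J, v u p = v u' p) → u = u') →
      (V.card : ℝ) ≤ ((1 / (1 - (1 - η) ^ lam)) * (1 / (1 - (1 / 2 : ℝ) ^ lam))) ^ J.length *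
        ((E.card : ℝ) ^ lam * (M.card : ℝ) ^ lam) := by
  intro J
  induction J with
  | nil =>
    intro E M d m hd hm V _ hinj
    have h1 : V.card ≤ 1 := by
      rw [card_le_one]
      intro u hu u' hu'
      exact hinj u hu u' hu' (by simp)
    have h2 : (V.card : ℝ) ≤ 1 := by exact_mod_cast h1
    have hE : (1 : ℝ) ≤ E.card := by exact_mod_cast card_pos.2 ⟨d, hd⟩
    have hM : (1 : ℝ) ≤ M.card := by exact_mod_cast card_pos.2 ⟨m, hm⟩
    have h3 : (1:ℝ) ≤ (E.card : ℝ) ^ lam := Real.one_le_rpow hE hl.le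
    have h4 : (1:ℝ) ≤ (M.card : ℝ) ^ lam := Real.one_le_rpow hM hl.le
    simp only [List.length_nil, pow_zero, one_mul]
    nlinarith
  | cons p J ih =>
    intro E M d m hd hm V hV hinj
    classical
    simp only [Fail] at hV
    choose! i hi1 hi2 hi3 using hV
    set l : ι → ℕ := fun u => v u p + i u with hldef
    set c₁ := 1 / (1 - (1 - η) ^ lam) with hc₁
    set c₂ := 1 / (1 - (1 / 2 : ℝ) ^ lam) with hc₂
    have hc₁0 : 0 < c₁ := by
      have : (1 - η) ^ lam < 1 := Real.rpow_lt_one (by linarith) (by linarith) hl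
      rw [hc₁]; apply one_div_pos.2; linarith
    have hc₂0 : 0 < c₂ := by
      have : (1 / 2 : ℝ) ^ lam < 1 := Real.rpow_lt_one (by norm_num) (by norm_num) hl
      rw [hc₂]; apply one_div_pos.2; linarith
    set T := (c₁ * c₂) ^ J.length with hT
    have hT0 : 0 ≤ T := by positivity
    let key : ι → ℕ × ℕ := fun u => (l u, i u)
    have hpart : (V.card : ℝ) = ∑ z ∈ V.image key, ((V.filter (fun u => key u = z)).card : ℝ) := by
      have := Finset.card_eq_sum_card_image key V
      exact_mod_cast this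
    have hsmall : ∀ z ∈ V.image key, ((V.filter (fun u => key u = z)).card : ℝ) ≤
        T * (((cl ((p:ℤ) ^ z.1) E d).card : ℝ) ^ lam * ((cl ((p:ℤ) ^ z.2) M m).card : ℝ) ^ lam) := by
      intro z _
      apply ih _ _ d m (self_mem_cl hd) (self_mem_cl hm)
      · intro u hu
        rw [mem_filter] at hu
        have h1 := hi3 u hu.1
        have e1 : l u = z.1 := congrArg Prod.fst hu.2
        have e2 : i u = z.2 := congrArg Prod.snd hu.2
        rw [← e1, ← e2]
        exact h1
      · intro u hu u' hu' hJ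
        rw [mem_filter] at hu hu'
        apply hinj u hu.1 u' hu'.1
        intro q hq
        rcases List.mem_cons.1 hq with rfl | hq
        · have e1 : l u = l u' := congrArg Prod.fst (hu.2.trans hu'.2.symm)
          have e2 : i u = i u' := congrArg Prod.snd (hu.2.trans hu'.2.symm)
          simp only [hldef] at e1
          omega
        · exact hJ q hq
    set Lset := V.image l with hLset
    set Iset := V.image i with hIset
    have hsub : V.image key ⊆ Lset ×ˢ Iset := by
      intro z hz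
      rw [mem_image] at hz
      obtain ⟨u, hu, rfl⟩ := hz
      exact mem_product.2 ⟨mem_image_of_mem _ hu, mem_image_of_mem _ hu⟩
    have hE := sum_steps (f := fun j => ((cl ((p:ℤ) ^ j) E d).card : ℝ)) (fun _ => Nat.cast_nonneg _)
      (fun a b hab => Nat.cast_le.2 (cl_card_anti (p := p) E d hab)) (ρ := 1 - η) (by linarith)
      (by linarith) hl Lset (by
        intro j hj
        rw [hLset, mem_image] at hj
        obtain ⟨u, hu, rfl⟩ := hj
        exact hi1 u hu)
    have hM := sum_steps (f := fun j => ((cl ((p:ℤ) ^ j) M m).card : ℝ)) (fun _ => Nat.cast_nonneg _)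
      (fun a b hab => Nat.cast_le.2 (cl_card_anti (p := p) M m hab)) (ρ := 1 / 2) (by norm_num)
      (by norm_num) hl Iset (by
        intro j hj
        rw [hIset, mem_image] at hj
        obtain ⟨u, hu, rfl⟩ := hj
        have := hi2 u hu
        have h' : (2:ℝ) * ((cl ((p:ℤ) ^ (i u + 1)) M m).card : ℝ) ≤
          ((cl ((p:ℤ) ^ (i u)) M m).card : ℝ) := by exact_mod_cast this
        linarith)
    simp only [pow_zero] at hE hM
    have hE1 : cl (1:ℤ) E d = E := cl_eq_self (fun x _ => by simp)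
    have hM1 : cl (1:ℤ) M m = M := cl_eq_self (fun x _ => by simp)
    rw [hE1, ← hc₁] at hE
    rw [hM1, ← hc₂] at hM
    calc (V.card : ℝ) = ∑ z ∈ V.image key, ((V.filter (fun u => key u = z)).card : ℝ) := hpart
      _ ≤ ∑ z ∈ V.image key, T * (((cl ((p:ℤ) ^ z.1) E d).card : ℝ) ^ lam *
            ((cl ((p:ℤ) ^ z.2) M m).card : ℝ) ^ lam) := sum_le_sum hsmall
      _ ≤ ∑ z ∈ Lset ×ˢ Iset, T * (((cl ((p:ℤ) ^ z.1) E d).card : ℝ) ^ lam *
            ((cl ((p:ℤ) ^ z.2) M m).card : ℝ) ^ lam) := by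
          apply sum_le_sum_of_subset_of_nonneg hsub
          intro z _ _
          positivity
      _ = T * ((∑ a ∈ Lset, ((cl ((p:ℤ) ^ a) E d).card : ℝ) ^ lam) *
            ∑ b ∈ Iset, ((cl ((p:ℤ) ^ b) M m).card : ℝ) ^ lam) := by
          rw [sum_product, sum_mul_sum, mul_sum]
          apply sum_congr rfl
          intro a _
          rw [mul_sum]
      _ ≤ T * ((c₁ * (E.card : ℝ) ^ lam) * (c₂ * (M.card : ℝ) ^ lam)) := by
          apply mul_le_mul_of_nonneg_left _ hT0
          apply mul_le_mul hE hM (sum_nonneg fun _ _ => by positivity) (by positivity)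
      _ = _ := by
          rw [hT, List.length_cons, pow_succ]
          ring

end Pool.Agent.Helper2.E
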