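import Pool.Agent.Helper2.EIter
import Pool.Agent.Helper1.EProdIter
import Pool.Agent.Helper5.FewPrimes

set_option autoImplicit false

/-!
Assembly of the theorem for sets of integers with few distinct prime factors.
-/

open Finset

namespace Pool.Agent.Helper2.E

open Pool.Agent.Helper5 (uP mP sI pI kS kP kernel sI_subset pI_subset kS_nonempty)

theorem mul_exp_neg_le {x t : ℝ} (ht : 0 < t) : x * Real.exp (-(t * x)) ≤ 1 / t := by
  have h1 : t * x ≤ Real.exp (t * x) := by
    have := Real.add_one_le_exp (t * x)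
    linarith
  rw [Real.exp_neg, ← div_eq_mul_inv, div_le_div_iff₀ (Real.exp_pos _) ht]
  linarith

theorem coreE (k : ℕ) (hk : 1 ≤ k) (ε : ℝ) (hε : 0 < ε) :
    ∃ c : ℝ, 0 < c ∧ ∀ A : Finset ℤ, A.Nonempty →
      (∀ a ∈ A, a ≠ 0 → (a.natAbs.primeFactors.card : ℝ) ≤ c * Real.log A.card) →
      c * (A.card : ℝ) ^ ((k : ℝ) - ε) ≤ max ((kS k A).card : ℝ) ((kP k A).card : ℝ) := by
  classical
  have hk0 : (0:ℝ) < k := by exact_mod_cast hk
  have hk1 : (1:ℝ) ≤ k := by exact_mod_cast hk
  -- parameters
  set ε₁ : ℝ := ε / (4 * k) with hε₁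
  have hε₁0 : 0 < ε₁ := by positivity
  set θ : ℝ := min (1 / 2) (ε / (8 * k * (k + 1))) with hθdef
  have hθ0 : 0 < θ := by
    rw [hθdef]; apply lt_min (by norm_num) (by positivity)
  have hθ1 : θ ≤ 1 / 2 := min_le_left _ _
  have hθ2 : θ ≤ ε / (8 * k * (k + 1)) := min_le_right _ _
  set lam : ℝ := ε₁ / (4 * (k + 1)) with hlam
  have hlam0 : 0 < lam := by positivity
  set H : ℕ := ⌈8 * (k:ℝ) ^ 2 / ε⌉₊ + 2 with hH
  have hH2 : (2:ℝ) ≤ H := by
    rw [hH]; push_cast
    have : (0:ℝ) ≤ (⌈8 * (k:ℝ) ^ 2 / ε⌉₊ : ℝ) := Nat.cast_nonneg _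
    linarith
  have hHge : 8 * (k:ℝ) ^ 2 / ε ≤ H := by
    rw [hH]; push_cast
    have := Nat.le_ceil (8 * (k:ℝ) ^ 2 / ε)
    linarith
  have hHpos : (0:ℝ) < H := by linarith
  have hlogH : 0 ≤ Real.log H := Real.log_nonneg (by linarith)
  obtain ⟨b, C, hb, hC, hsum⟩ := sum_iter hθ0 hθ1 hlam0
  have hlogC : 0 ≤ Real.log C := Real.log_nonneg hC
  have hlogθ : 0 ≤ Real.log (1 / θ) := by
    apply Real.log_nonneg
    rw [le_div_iff₀ hθ0]; linarith
  set Y : ℝ := Real.log H + k + Real.log (1 / θ) + 2 + b + Real.log C + 1 with hY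
  have hY1 : 1 ≤ Y := by rw [hY]; linarith
  have hYpos : 0 < Y := by linarith
  set c₁ : ℝ := ε / (16 * k * Y) with hc₁
  have hc₁0 : 0 < c₁ := by positivity
  have hkc : k * c₁ * Y = ε / 16 := by rw [hc₁]; field_simp
  have hlog2 : Real.log 2 ≤ 1 := by
    have := Real.log_le_sub_one_of_pos (show (0:ℝ) < 2 by norm_num)
    linarith
  have hlog2' : 0 < Real.log 2 := Real.log_pos (by norm_num)
  have hb1 : k * c₁ * Real.log H ≤ ε / 16 := by
    rw [← hkc]; apply mul_le_mul_of_nonneg_left _ (by positivity); rw [hY]; linarith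
  have hb2 : k * c₁ * (k * Real.log 2) ≤ ε / 16 := by
    rw [← hkc]; apply mul_le_mul_of_nonneg_left _ (by positivity)
    have : (k:ℝ) * Real.log 2 ≤ k * 1 := by gcongr
    rw [hY]; linarith
  have hb3 : k * c₁ * (Real.log (1 / θ) + 2 + b) ≤ ε / 16 := by
    rw [← hkc]; apply mul_le_mul_of_nonneg_left _ (by positivity); rw [hY]; linarith
  have hb4 : c₁ * Real.log C ≤ ε₁ / 4 := by
    have h1 : k * c₁ * Real.log C ≤ ε / 16 := by
      rw [← hkc]; apply mul_le_mul_of_nonneg_left _ (by positivity); rw [hY]; linarith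
    have h2 : k * (ε₁ / 4) = ε / 16 := by rw [hε₁]; field_simp; norm_num
    have h3 : k * (c₁ * Real.log C) ≤ k * (ε₁ / 4) := by rw [h2]; linarith
    exact le_of_mul_le_mul_left h3 hk0
  set K₁ : ℝ := k * (3 * Real.log 2 + k * (2 / ε₁)) with hK₁
  have hK₁0 : 0 ≤ K₁ := by positivity
  refine ⟨min c₁ (Real.exp (-K₁)), lt_min hc₁0 (Real.exp_pos _), ?_⟩
  intro A hAne hfew
  set c := min c₁ (Real.exp (-K₁)) with hc
  have hcc₁ : c ≤ c₁ := min_le_left _ _
  have hcK : c ≤ Real.exp (-K₁) := min_le_right _ _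
  have hcpos : 0 < c := lt_min hc₁0 (Real.exp_pos _)
  clear_value c
  set n := A.card with hn
  have hn1 : 1 ≤ n := card_pos.mpr hAne
  have hn1' : (1 : ℝ) ≤ n := by exact_mod_cast hn1
  have hnpos : (0 : ℝ) < n := by linarith
  have hmax1 : (1 : ℝ) ≤ max ((kS k A).card : ℝ) ((kP k A).card : ℝ) := by
    apply le_max_of_le_left
    exact_mod_cast card_pos.mpr (kS_nonempty k hAne)
  rcases Nat.lt_or_ge n 2 with hlt | hge
  · have hn1'' : n = 1 := by omega
    rw [hn1'']
    have : c ≤ 1 := hcK.trans (Real.exp_le_one_iff.2 (by linarith))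
    simp only [Nat.cast_one, Real.one_rpow, mul_one]
    linarith
  · set L := Real.log n with hL
    have hL0 : 0 ≤ L := Real.log_nonneg hn1'
    set A' := A.erase 0 with hA'
    have hA'0 : (0 : ℤ) ∉ A' := notMem_erase 0 A
    have hA'A : A' ⊆ A := erase_subset _ _
    have hA'card : n ≤ A'.card + 1 := by
      have h : A.card - 1 ≤ A'.card := pred_card_le_card_erase
      omega
    have hA'card2 : n ≤ 2 * A'.card := by omega
    have hA'ne : A'.Nonempty := by rw [← card_pos]; omega
    set s := ⌊c₁ * L⌋₊ with hs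
    have hsL : (s:ℝ) ≤ c₁ * L := Nat.floor_le (by positivity)
    have hω : ∀ a ∈ A', a.natAbs.primeFactors.card ≤ s := by
      intro a ha
      apply Nat.le_floor
      have h1 := hfew a (hA'A ha) (ne_of_mem_erase ha)
      have h2 : c * L ≤ c₁ * L := by gcongr
      exact h1.trans h2
    obtain ⟨P, hP1, hP2⟩ := kernel A' (fun a => a.natAbs.primeFactors) H
    set A₀ := A'.filter (fun a => P ⊆ a.natAbs.primeFactors) with hA₀
    have hA₀pos : 0 < A₀.card := by
      rcases Nat.eq_zero_or_pos A₀.card with h | h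
      · rw [h, mul_zero] at hP1
        have := card_pos.2 hA'ne
        omega
      · exact h
    obtain ⟨a₀, ha₀⟩ := card_pos.1 hA₀pos
    have ha₀' := mem_filter.1 ha₀
    have hPprime : ∀ p ∈ P, p.Prime := fun p hp => (Nat.mem_primeFactors.1 (ha₀'.2 hp)).1
    have hPs : P.card ≤ s := (card_le_card ha₀'.2).trans (hω a₀ ha₀'.1)
    have hPL : (P.card : ℝ) ≤ c₁ * L := le_trans (by exact_mod_cast hPs) hsL
    have hA₀A : A₀ ⊆ A := (filter_subset _ _).trans hA'A
    have hA₀0 : (0:ℤ) ∉ A₀ := fun h => hA'0 (mem_filter.1 h).1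
    -- size of A₀
    have hlogA₀ : L - Real.log 2 - c₁ * L * Real.log H ≤ Real.log A₀.card := by
      have h1 : (n:ℝ) ≤ 2 * ((H:ℝ) ^ P.card * A₀.card) := by
        have h2 : n ≤ 2 * (H ^ P.card * A₀.card) :=
          hA'card2.trans (Nat.mul_le_mul_left 2 hP1)
        exact_mod_cast h2
      have hA₀pos' : (0:ℝ) < A₀.card := by exact_mod_cast hA₀pos
      have h3 : L ≤ Real.log (2 * ((H:ℝ) ^ P.card * A₀.card)) := Real.log_le_log hnpos h1
      rw [Real.log_mul (by norm_num) (by positivity), Real.log_mul (by positivity) (by positivity),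
        Real.log_pow] at h3
      have h4 : (P.card : ℝ) * Real.log H ≤ c₁ * L * Real.log H := by gcongr
      linarith
    set R : ℝ := Real.exp (ε₁ * L) with hR
    have hR0 : 0 < R := Real.exp_pos _
    -- it suffices to bound the logarithm
    have hfin : ∀ m : ℕ, 1 ≤ m → (k:ℝ) * L - ε * L - K₁ ≤ Real.log m →
        (m:ℝ) ≤ max ((kS k A).card : ℝ) ((kP k A).card : ℝ) →
        c * (n : ℝ) ^ ((k : ℝ) - ε) ≤ max ((kS k A).card : ℝ) ((kP k A).card : ℝ) := by
      intro m hm1 hlog hm
      refine le_trans ?_ hm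
      have hmpos : (0:ℝ) < m := by exact_mod_cast hm1
      calc c * (n : ℝ) ^ ((k : ℝ) - ε) ≤ Real.exp (-K₁) * Real.exp (((k:ℝ) - ε) * L) := by
            apply mul_le_mul hcK _ (by positivity) (Real.exp_pos _).le
            rw [Real.rpow_def_of_pos hnpos, mul_comm]
        _ = Real.exp ((k:ℝ) * L - ε * L - K₁) := by rw [← Real.exp_add]; congr 1; ring
        _ ≤ Real.exp (Real.log m) := Real.exp_le_exp.2 hlog
        _ = m := Real.exp_log hmpos
    set fib : ℤ → ℕ := fun a => (A₀.filter (fun a' => mP P a' = mP P a)).card with hfib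
    set As := A₀.filter (fun a => (fib a : ℝ) ≤ R) with hAs
    set Al := A₀.filter (fun a => ¬ (fib a : ℝ) ≤ R) with hAl
    have hsplit : As.card + Al.card = A₀.card := card_filter_add_card_filter_not _
    rcases le_total Al.card As.card with hcase | hcase
    · -- product side
      have hhalf : A₀.card ≤ 2 * As.card := by omega
      have hAspos : 0 < As.card := by omega
      have hAsne : As.Nonempty := card_pos.1 hAspos
      have hAs0 : (0:ℤ) ∉ As := fun h => hA₀0 (mem_filter.1 h).1
      have hAsA : As ⊆ A := (filter_subset _ _).trans hA₀A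
      have hAsn : As.card ≤ n := card_le_card hAsA
      have hκA : ∀ q : ℕ, q.Prime → q ∉ P →
          ((As.filter (fun a => (q:ℤ) ∣ a)).card : ℝ) ≤ (2 / (H:ℝ)) * As.card := by
        intro q hq hqP
        have h1 := hP2 q hqP
        have h2 : (As.filter (fun a => (q:ℤ) ∣ a)).card ≤
            (A₀.filter (fun a => q ∈ a.natAbs.primeFactors)).card := by
          apply card_le_card
          intro a ha
          rw [mem_filter] at ha
          have ha1 := (mem_filter.1 ha.1).1
          rw [mem_filter]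
          refine ⟨ha1, ?_⟩
          rw [Nat.mem_primeFactors]
          exact ⟨hq, Int.natCast_dvd.1 ha.2, Int.natAbs_ne_zero.2 (fun h => hA₀0 (h ▸ ha1))⟩
        have h3 : H * (As.filter (fun a => (q:ℤ) ∣ a)).card ≤ 2 * As.card :=
          (Nat.mul_le_mul_left _ h2).trans (h1.trans hhalf)
        have h4 : (H:ℝ) * ((As.filter (fun a => (q:ℤ) ∣ a)).card : ℝ) ≤ 2 * As.card := by
          exact_mod_cast h3
        rw [div_mul_eq_mul_div, le_div_iff₀ hHpos]
        linarith
      have hRfib : ∀ x, ((As.filter (fun a => mP P a = x)).card : ℝ) ≤ R := by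
        intro x
        rcases (As.filter (fun a => mP P a = x)).eq_empty_or_nonempty with h0 | ⟨a, ha⟩
        · rw [h0]; simpa using hR0.le
        · rw [mem_filter] at ha
          have ha2 := (mem_filter.1 ha.1).2
          refine le_trans ?_ ha2
          rw [← ha.2]
          apply Nat.cast_le.2
          apply card_le_card
          intro a' ha'
          rw [mem_filter] at ha' ⊢
          exact ⟨(mem_filter.1 ha'.1).1, ha'.2⟩
      have hprod := Pool.Agent.Helper1.prod_iter' hPprime hAs0 hAsne (2 / (H:ℝ)) R (by positivity)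
        hR0 s k n hAsn (fun a ha => hω a (mem_filter.1 (mem_filter.1 ha).1).1) hκA hRfib
      have hpIne : 1 ≤ (pI As k).card := by
        rcases Nat.eq_zero_or_pos (pI As k).card with h | h
        · exfalso
          have : ∀ j, (pI As j).Nonempty := by
            intro j
            induction j with
            | zero => exact ⟨1, by simp [pI]⟩
            | succ j ih => exact Finset.Nonempty.image₂ ih hAsne
          have := card_pos.2 (this k)
          omega
        · exact h
      have hpk : ((pI As k).card : ℝ) ≤ max ((kS k A).card : ℝ) ((kP k A).card : ℝ) := by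
        apply le_max_of_le_right
        exact_mod_cast card_le_card (pI_subset hAsA k)
      refine hfin _ hpIne ?_ hpk
      refine le_trans ?_ hprod
      have hlogAs : Real.log A₀.card - Real.log 2 ≤ Real.log As.card := by
        have h1 : (A₀.card : ℝ) ≤ 2 * As.card := by exact_mod_cast hhalf
        have hA₀pos' : (0:ℝ) < A₀.card := by exact_mod_cast hA₀pos
        have hAspos' : (0:ℝ) < As.card := by exact_mod_cast hAspos
        have h2 := Real.log_le_log hA₀pos' h1
        rw [Real.log_mul (by norm_num) hAspos'.ne'] at h2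
        linarith
      have hlogR : Real.log R = ε₁ * L := by rw [hR, Real.log_exp]
      rw [hlogR]
      have h5 : (s:ℝ) * Real.log 2 ≤ c₁ * L * Real.log 2 := by gcongr
      have h6 : 2 / (H:ℝ) * k * k ≤ ε / 4 := by
        have : 8 * (k:ℝ) ^ 2 / ε ≤ H := hHge
        rw [div_le_iff₀ hε] at this
        rw [div_mul_eq_mul_div, div_mul_eq_mul_div, div_le_iff₀ hHpos]
        nlinarith
      have h7 : (k:ℝ) * ε₁ = ε / 4 := by rw [hε₁]; field_simp
      have h8 : (k:ℝ) * (L - 3 * Real.log 2 - c₁ * L * Real.log H - ε₁ * L -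
          k * (c₁ * L * Real.log 2) - 2 / (H:ℝ) * k * L) ≤
          (k:ℝ) * (Real.log As.card - Real.log 2 - ε₁ * L - k * s * Real.log 2 -
            2 / (H:ℝ) * k * Real.log n) := by
        apply mul_le_mul_of_nonneg_left _ hk0.le
        have h9 : (k:ℝ) * s * Real.log 2 ≤ k * (c₁ * L * Real.log 2) := by
          rw [mul_assoc]; gcongr
        linarith
      refine le_trans ?_ h8
      have h10 : (k:ℝ) * (L - 3 * Real.log 2 - c₁ * L * Real.log H - ε₁ * L -
          k * (c₁ * L * Real.log 2) - 2 / (H:ℝ) * k * L) =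
          k * L - k * (3 * Real.log 2) - (k * c₁ * Real.log H + k * ε₁ +
            k * c₁ * (k * Real.log 2) + 2 / (H:ℝ) * k * k) * L := by ring
      rw [h10]
      have h11 : (k * c₁ * Real.log H + k * ε₁ + k * c₁ * (k * Real.log 2) +
          2 / (H:ℝ) * k * k) * L ≤ ε * L := by
        apply mul_le_mul_of_nonneg_right _ hL0
        linarith
      have h12 : (k:ℝ) * (3 * Real.log 2) ≤ K₁ := by
        rw [hK₁]
        apply mul_le_mul_of_nonneg_left _ hk0.le
        have : 0 ≤ (k:ℝ) * (2 / ε₁) := by positivity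
        linarith
      linarith
    · -- sum side
      have hhalf : A₀.card ≤ 2 * Al.card := by omega
      have hAlpos : 0 < Al.card := by omega
      have hAlne : Al.Nonempty := card_pos.1 hAlpos
      have hAl0 : (0:ℤ) ∉ Al := fun h => hA₀0 (mem_filter.1 h).1
      have hAlA : Al ⊆ A := (filter_subset _ _).trans hA₀A
      have hAln : Al.card ≤ n := card_le_card hAlA
      have hRfib : ∀ a ∈ Al, R ≤ ((Al.filter (fun a' => mP P a' = mP P a)).card : ℝ) := by
        intro a ha
        have ha2 := (mem_filter.1 ha).2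
        push Not at ha2
        refine ha2.le.trans ?_
        apply Nat.cast_le.2
        apply card_le_card
        intro a' ha'
        rw [mem_filter] at ha' ⊢
        refine ⟨?_, ha'.2⟩
        rw [hAl, mem_filter]
        refine ⟨ha'.1, ?_⟩
        have : fib a' = fib a := by
          simp only [hfib]; rw [ha'.2]
        rw [this]
        push Not
        exact ha2
      have hsumk := hsum P hPprime Al hAlne hAl0 R hR0 hRfib n k hAln k le_rfl
      have hsIne : 1 ≤ (sI Al k).card := card_pos.2 (sI_nonempty hAlne k)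
      have hsk : ((sI Al k).card : ℝ) ≤ max ((kS k A).card : ℝ) ((kP k A).card : ℝ) := by
        apply le_max_of_le_left
        exact_mod_cast card_le_card (sI_subset hAlA k)
      refine hfin _ hsIne ?_ hsk
      refine le_trans ?_ hsumk
      have hlogAl : Real.log A₀.card - Real.log 2 ≤ Real.log Al.card := by
        have h1 : (A₀.card : ℝ) ≤ 2 * Al.card := by exact_mod_cast hhalf
        have hA₀pos' : (0:ℝ) < A₀.card := by exact_mod_cast hA₀pos
        have hAlpos' : (0:ℝ) < Al.card := by exact_mod_cast hAlpos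
        have h2 := Real.log_le_log hA₀pos' h1
        rw [Real.log_mul (by norm_num) hAlpos'.ne'] at h2
        linarith
      -- the exceptional term
      have hCpos : 0 < C := by linarith
      have h1 : C ^ P.card * (n : ℝ) ^ (lam * (k + 1)) / R ≤ Real.exp (-(ε₁ / 2 * L)) := by
        have e1 : C ^ P.card ≤ Real.exp (ε₁ / 4 * L) := by
          have : C ^ P.card = Real.exp (P.card * Real.log C) := by
            rw [← Real.log_pow, Real.exp_log (by positivity)]
          rw [this]
          apply Real.exp_le_exp.2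
          calc (P.card : ℝ) * Real.log C ≤ (c₁ * L) * Real.log C := by gcongr
            _ = (c₁ * Real.log C) * L := by ring
            _ ≤ ε₁ / 4 * L := by gcongr
        have e2 : (n : ℝ) ^ (lam * (k + 1)) = Real.exp (ε₁ / 4 * L) := by
          rw [Real.rpow_def_of_pos hnpos]
          congr 1
          rw [hlam]
          field_simp
          exact hL.symm
        rw [e2, div_le_iff₀ hR0, hR, ← Real.exp_add]
        calc C ^ P.card * Real.exp (ε₁ / 4 * L)
            ≤ Real.exp (ε₁ / 4 * L) * Real.exp (ε₁ / 4 * L) := by gcongr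
          _ = Real.exp (-(ε₁ / 2 * L) + ε₁ * L) := by
              rw [← Real.exp_add]; congr 1; ring
      have h2 : (k * L) * (C ^ P.card * (n : ℝ) ^ (lam * (k + 1)) / R) ≤ k * (2 / ε₁) := by
        calc (k * L) * (C ^ P.card * (n : ℝ) ^ (lam * (k + 1)) / R)
            ≤ (k * L) * Real.exp (-(ε₁ / 2 * L)) := by gcongr
          _ = k * (L * Real.exp (-(ε₁ / 2 * L))) := by ring
          _ ≤ k * (1 / (ε₁ / 2)) := by
              apply mul_le_mul_of_nonneg_left (mul_exp_neg_le (by positivity)) hk0.le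
          _ = k * (2 / ε₁) := by congr 1; field_simp
      have h3 : (P.card : ℝ) * (Real.log (1 / θ) + 2 + b) ≤
          c₁ * L * (Real.log (1 / θ) + 2 + b) := by gcongr
      have h4 : (k:ℝ) * (L - 2 * Real.log 2 - c₁ * L * Real.log H -
          (c₁ * L * (Real.log (1 / θ) + 2 + b) + 2 * θ * ((k + 1) * L) + k * (2 / ε₁))) ≤
          (k:ℝ) * (Real.log Al.card - ((P.card : ℝ) * (Real.log (1 / θ) + 2 + b) +
        2 * θ * (((k:ℝ) + 1) * Real.log n) +
        (k * Real.log n) * (C ^ P.card * (n : ℝ) ^ (lam * (k + 1)) / R))) := by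
        apply mul_le_mul_of_nonneg_left _ hk0.le
        rw [← hL]
        linarith
      refine le_trans ?_ h4
      have h5 : (k:ℝ) * (2 * θ * (k + 1)) ≤ ε / 4 := by
        calc (k:ℝ) * (2 * θ * (k + 1)) = 2 * k * (k + 1) * θ := by ring
          _ ≤ 2 * k * (k + 1) * (ε / (8 * k * (k + 1))) := by gcongr
          _ = ε / 4 := by field_simp; norm_num
      have h10 : (k:ℝ) * (L - 2 * Real.log 2 - c₁ * L * Real.log H -
          (c₁ * L * (Real.log (1 / θ) + 2 + b) + 2 * θ * ((k + 1) * L) + k * (2 / ε₁))) =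
          k * L - k * (2 * Real.log 2 + k * (2 / ε₁)) - (k * c₁ * Real.log H +
            k * c₁ * (Real.log (1 / θ) + 2 + b) + k * (2 * θ * (k + 1))) * L := by ring
      rw [h10]
      have h11 : (k * c₁ * Real.log H + k * c₁ * (Real.log (1 / θ) + 2 + b) +
          k * (2 * θ * (k + 1))) * L ≤ ε * L := by
        apply mul_le_mul_of_nonneg_right _ hL0
        linarith
      have h12 : (k:ℝ) * (2 * Real.log 2 + k * (2 / ε₁)) ≤ K₁ := by
        rw [hK₁]
        apply mul_le_mul_of_nonneg_left _ hk0.le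
        linarith
      linarith

end Pool.Agent.Helper2.E
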