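import Pool.Agent.Helper2.EProdV

set_option autoImplicit false

/-!
The product step and its iteration on exponent vectors.
-/

open Finset

namespace Pool.Agent.Helper2.E

variable {ι : Type*} [DecidableEq ι]

/-- the part of a vector off `P` -/
noncomputable def off (P : Finset ι) (a : ι →₀ ℤ) : ι →₀ ℤ := a.filter (fun i => i ∉ P)

theorem off_apply (P : Finset ι) (a : ι →₀ ℤ) (q : ι) : off P a q = if q ∈ P then 0 else a q := by
  unfold off
  rw [Finsupp.filter_apply]
  by_cases h : q ∈ P <;> simp [h]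

theorem off_add (P : Finset ι) (a b : ι →₀ ℤ) : off P (a + b) = off P a + off P b := by
  ext q
  rw [Finsupp.add_apply, off_apply, off_apply, off_apply, Finsupp.add_apply]
  split_ifs <;> simp

theorem off_support (P : Finset ι) (a : ι →₀ ℤ) : (off P a).support ⊆ a.support := by
  intro q hq
  rw [Finsupp.mem_support_iff, off_apply] at hq
  rw [Finsupp.mem_support_iff]
  by_contra h
  rw [h] at hq
  simp at hq

theorem countP_le (S : Finset ι) (v : ι →₀ ℤ) :
    S.toList.countP (fun q => decide (v q ≠ 0)) ≤ v.support.card := by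
  rw [List.countP_eq_length_filter]
  have h1 : (S.toList.filter (fun q => decide (v q ≠ 0))).Nodup := S.nodup_toList.filter _
  rw [← List.toFinset_card_of_nodup h1]
  apply card_le_card
  intro q hq
  rw [List.mem_toFinset, List.mem_filter] at hq
  rw [Finsupp.mem_support_iff]
  simpa using hq.2

/-- **Product step** on exponent vectors. -/
theorem prod_stepV (P : Finset ι) {A : Finset (ι →₀ ℤ)} (hAne : A.Nonempty) {κ θ R : ℝ}
    (hκ : 0 ≤ κ) (hθ0 : 0 < θ) (hθ1 : θ ≤ 1) (hR0 : 0 < R)
    (hκA : ∀ q, q ∉ P → ((A.filter (fun a => a q ≠ 0)).card : ℝ) ≤ κ * A.card)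
    (hR : ∀ b : ι →₀ ℤ, ((A.filter (fun a => off P a = b)).card : ℝ) ≤ R)
    {D : Finset (ι →₀ ℤ)} (hDne : D.Nonempty) (W s' : ℕ)
    (hW : ∀ d ∈ D, ∀ a ∈ A, (d + off P a).support.card ≤ W)
    (hs' : ∀ d ∈ D, d.support.card ≤ s') :
    Real.log D.card + Real.log A.card - Real.log R - W * Real.log 2 -
      (θ + κ) * Real.log D.card - κ * (s' * Real.log (1 / θ)) ≤
      Real.log ((image₂ (· + ·) D (A.image (off P))).card : ℝ) := by
  classical
  set S : Finset ι := D.biUnion Finsupp.support with hS
  set l := S.toList with hl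
  have hsep : ∀ d ∈ D, ∀ d' ∈ D, (∀ q ∈ l, d q = d' q) → d = d' := by
    intro d hd d' hd' h
    ext q
    by_cases hq : q ∈ S
    · exact h q (mem_toList.2 hq)
    · have h1 : d q = 0 := by
        by_contra hne
        exact hq (mem_biUnion.2 ⟨d, hd, Finsupp.mem_support_iff.2 hne⟩)
      have h2 : d' q = 0 := by
        by_contra hne
        exact hq (mem_biUnion.2 ⟨d', hd', Finsupp.mem_support_iff.2 hne⟩)
      rw [h1, h2]
  have hlogθ : 0 ≤ Real.log (1 / θ) := by
    apply Real.log_nonneg
    rw [le_div_iff₀ hθ0]; linarith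
  have hlog2 : 0 < Real.log 2 := Real.log_pos (by norm_num)
  let w : (ι →₀ ℤ) × (ι →₀ ℤ) → ℝ := fun e => wv θ (e.1 + off P e.2) e.1 l D / R
  have hwpos : ∀ e ∈ D ×ˢ A, 0 < w e := by
    intro e he
    exact div_pos (wv_pos hθ0 _ _ l D (mem_product.1 he).1) hR0
  have hker : ∀ y, ∑ e ∈ (D ×ˢ A).filter (fun e => e.1 + off P e.2 = y), w e ≤ 1 := by
    intro y
    rw [sum_filter, sum_product]
    have h1 : ∀ d ∈ D, ∑ a ∈ A, (if d + off P a = y then w (d, a) else 0) ≤
        wv θ y d l D := by
      intro d hd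
      have hpos := wv_pos hθ0 y d l D hd
      rw [← sum_filter]
      have h2 : ∀ a ∈ A.filter (fun a => d + off P a = y), w (d, a) = wv θ y d l D / R := by
        intro a ha
        rw [mem_filter] at ha
        show wv θ (d + off P a) d l D / R = _
        rw [ha.2]
      rw [sum_congr rfl h2, sum_const, nsmul_eq_mul]
      have h3 : ((A.filter (fun a => d + off P a = y)).card : ℝ) ≤ R := by
        refine le_trans ?_ (hR (y - d))
        apply Nat.cast_le.2
        apply card_le_card
        intro a ha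
        rw [mem_filter] at ha ⊢
        exact ⟨ha.1, eq_sub_of_add_eq' ha.2⟩
      calc ((A.filter (fun a => d + off P a = y)).card : ℝ) * (wv θ y d l D / R)
          ≤ R * (wv θ y d l D / R) := mul_le_mul_of_nonneg_right h3 (by positivity)
        _ = wv θ y d l D := by field_simp
    exact (sum_le_sum h1).trans (wv_sum hθ0 hθ1 y l D hsep)
  have hmain := log_image_ge' (hDne.product hAne)
    (fun e : (ι →₀ ℤ) × (ι →₀ ℤ) => e.1 + off P e.2) w hwpos hker
  have himg : (D ×ˢ A).image (fun e : (ι →₀ ℤ) × (ι →₀ ℤ) => e.1 + off P e.2) =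
      image₂ (· + ·) D (A.image (off P)) := by
    ext y
    simp only [mem_image, mem_image₂, mem_product, Prod.exists]
    constructor
    · rintro ⟨d, a, ⟨hd, ha⟩, rfl⟩
      exact ⟨d, hd, _, ⟨a, ha, rfl⟩, rfl⟩
    · rintro ⟨d, hd, _, ⟨a, ha, rfl⟩, rfl⟩
      exact ⟨d, a, ⟨hd, ha⟩, rfl⟩
  have hD0 : (0:ℝ) < D.card := by exact_mod_cast card_pos.2 hDne
  have hA0 : (0:ℝ) < A.card := by exact_mod_cast card_pos.2 hAne
  rw [himg, card_product] at hmain
  push_cast at hmain
  rw [Real.log_mul hD0.ne' hA0.ne'] at hmain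
  have hκ' : ∀ q, ((A.filter (fun a => off P a q ≠ 0)).card : ℝ) ≤ κ * A.card := by
    intro q
    by_cases hq : q ∈ P
    · have : A.filter (fun a => off P a q ≠ 0) = ∅ := by
        apply filter_false_of_mem
        intro a _ h
        rw [off_apply, if_pos hq] at h
        exact h rfl
      rw [this]
      simp only [card_empty, Nat.cast_zero]
      positivity
    · refine le_trans (le_of_eq ?_) (hκA q hq)
      congr 2
      ext a
      rw [mem_filter, mem_filter, off_apply, if_neg hq]
  have hcost : -∑ e ∈ D ×ˢ A, Real.log (w e) ≤ (D.card : ℝ) * ((A.card : ℝ) *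
      (Real.log R + W * Real.log 2 + (θ + κ) * Real.log D.card +
        κ * (s' * Real.log (1 / θ)))) := by
    rw [sum_product, ← sum_neg_distrib]
    have h1 : ∀ d ∈ D, -∑ a ∈ A, Real.log (w (d, a)) ≤ (A.card : ℝ) *
      (Real.log R + W * Real.log 2 + (θ + κ) * Real.log D.card +
        κ * (s' * Real.log (1 / θ))) := by
      intro d hd
      have h2 : ∀ a ∈ A, Real.log (w (d, a)) =
          Real.log (wv θ (d + off P a) d l D) - Real.log R := by
        intro a _
        exact Real.log_div (wv_pos hθ0 _ _ l D hd).ne' hR0.ne'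
      rw [sum_congr rfl h2, sum_sub_distrib, sum_const, nsmul_eq_mul]
      have h3 := wv_cost hθ0 hθ1 hκ A (fun a => off P a) hκ' d l D hd
      have h4 : (∑ a ∈ A, ((l.countP (fun q => decide ((d + off P a) q ≠ 0)) : ℕ) : ℝ)) ≤
          A.card * W := by
        rw [← nsmul_eq_mul, ← sum_const]
        apply sum_le_sum
        intro a ha
        exact_mod_cast (countP_le S (d + off P a)).trans (hW d hd a ha)
      have h5 : (((l.countP (fun q => decide (d q ≠ 0)) : ℕ) : ℝ)) ≤ s' := by
        exact_mod_cast (countP_le S d).trans (hs' d hd)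
      have h6 := mul_le_mul_of_nonneg_right h4 hlog2.le
      have h7 : κ * (A.card : ℝ) * (((l.countP (fun q => decide (d q ≠ 0)) : ℕ) : ℝ) *
          Real.log (1 / θ)) ≤ κ * (A.card : ℝ) * (s' * Real.log (1 / θ)) := by
        apply mul_le_mul_of_nonneg_left _ (by positivity)
        exact mul_le_mul_of_nonneg_right h5 hlogθ
      have h8 : (A.card : ℝ) * (Real.log R + W * Real.log 2 + (θ + κ) * Real.log D.card +
        κ * (s' * Real.log (1 / θ))) = (A.card : ℝ) * Real.log R +
        (A.card : ℝ) * W * Real.log 2 + (A.card : ℝ) * ((θ + κ) * Real.log D.card) +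
        κ * (A.card : ℝ) * (s' * Real.log (1 / θ)) := by ring
      rw [h8]
      linarith
    refine (sum_le_sum h1).trans ?_
    rw [sum_const, nsmul_eq_mul]
  have h10 : (1 / ((D.card : ℝ) * A.card)) * (-∑ e ∈ D ×ˢ A, Real.log (w e)) ≤
      Real.log R + W * Real.log 2 + (θ + κ) * Real.log D.card +
        κ * (s' * Real.log (1 / θ)) := by
    have h11 := mul_le_mul_of_nonneg_left hcost
      (by positivity : 0 ≤ 1 / ((D.card : ℝ) * A.card))
    refine h11.trans (le_of_eq ?_)
    field_simp
  have h16 : (1 / ((D.card : ℝ) * A.card)) * (-∑ e ∈ D ×ˢ A, Real.log (w e)) =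
      -((1 / ((D.card : ℝ) * A.card)) * ∑ e ∈ D ×ˢ A, Real.log (w e)) := by ring
  rw [h16] at h10
  linarith

theorem vI_nonempty {A : Finset (ι →₀ ℤ)} (hA : A.Nonempty) (j : ℕ) : (vI A j).Nonempty := by
  induction j with
  | zero => exact ⟨0, by simp [vI]⟩
  | succ j ih => exact Finset.Nonempty.image₂ ih hA

theorem vI_card (A : Finset (ι →₀ ℤ)) (j : ℕ) : (vI A j).card ≤ A.card ^ j := by
  induction j with
  | zero => simp [vI]
  | succ j ih =>
    simp only [vI, pow_succ]
    exact (card_image₂_le _ _ _).trans (Nat.mul_le_mul_right _ ih)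

theorem vI_support {A : Finset (ι →₀ ℤ)} {s : ℕ} (h : ∀ a ∈ A, a.support.card ≤ s) (j : ℕ) :
    ∀ v ∈ vI A j, v.support.card ≤ j * s := by
  induction j with
  | zero =>
    intro v hv
    simp only [vI, mem_singleton] at hv
    subst hv
    simp
  | succ j ih =>
    intro v hv
    simp only [vI, mem_image₂] at hv
    obtain ⟨x, hx, a, ha, rfl⟩ := hv
    have h1 := (card_le_card (Finsupp.support_add (g₁ := x) (g₂ := a))).trans
      (card_union_le _ _)
    have h2 := ih x hx
    have h3 := h a ha
    calc (x + a).support.card ≤ x.support.card + a.support.card := h1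
      _ ≤ j * s + s := Nat.add_le_add h2 h3
      _ = (j + 1) * s := by ring

theorem vI_off (P : Finset ι) (A : Finset (ι →₀ ℤ)) (j : ℕ) :
    vI (A.image (off P)) j = (vI A j).image (off P) := by
  induction j with
  | zero =>
    simp only [vI, image_singleton]
    congr 1
    ext q
    rw [off_apply]
    simp
  | succ j ih =>
    have h1 : vI (A.image (off P)) (j + 1) =
      image₂ (· + ·) (vI (A.image (off P)) j) (A.image (off P)) := rfl
    have h2 : vI A (j + 1) = image₂ (· + ·) (vI A j) A := rfl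
    rw [h1, h2, ih]
    ext x
    simp only [mem_image₂, mem_image]
    constructor
    · rintro ⟨_, ⟨y, hy, rfl⟩, _, ⟨z, hz, rfl⟩, rfl⟩
      exact ⟨y + z, ⟨y, hy, z, hz, rfl⟩, off_add P y z⟩
    · rintro ⟨_, ⟨y, hy, z, hz, rfl⟩, rfl⟩
      exact ⟨_, ⟨y, hy, rfl⟩, _, ⟨z, hz, rfl⟩, (off_add P y z).symm⟩

/-- **Iterated product step** on exponent vectors. -/
theorem prod_iterV (P : Finset ι) {A : Finset (ι →₀ ℤ)} (hAne : A.Nonempty) {κ θ R : ℝ}
    (hκ : 0 ≤ κ) (hθ0 : 0 < θ) (hθ1 : θ ≤ 1) (hR0 : 0 < R) (s k N : ℕ) (hAN : A.card ≤ N)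
    (hω : ∀ a ∈ A, a.support.card ≤ s)
    (hκA : ∀ q, q ∉ P → ((A.filter (fun a => a q ≠ 0)).card : ℝ) ≤ κ * A.card)
    (hR : ∀ b : ι →₀ ℤ, ((A.filter (fun a => off P a = b)).card : ℝ) ≤ R) :
    (k : ℝ) * (Real.log A.card - Real.log R - k * s * Real.log 2 -
      (θ + κ) * (k * Real.log N) - κ * (k * s * Real.log (1 / θ))) ≤
      Real.log ((vI A k).card : ℝ) := by
  classical
  have hA1 : 1 ≤ A.card := card_pos.2 hAne
  have hN1 : 1 ≤ N := hA1.trans hAN
  have hN1' : (1:ℝ) ≤ N := by exact_mod_cast hN1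
  have hLN : 0 ≤ Real.log N := Real.log_nonneg hN1'
  have hlogθ : 0 ≤ Real.log (1 / θ) := by
    apply Real.log_nonneg
    rw [le_div_iff₀ hθ0]; linarith
  have hlog2 : 0 < Real.log 2 := Real.log_pos (by norm_num)
  set B := A.image (off P) with hB
  have hBne : B.Nonempty := hAne.image _
  have hωB : ∀ b ∈ B, b.support.card ≤ s := by
    intro b hb
    obtain ⟨a, ha, rfl⟩ := mem_image.1 hb
    exact (card_le_card (off_support P a)).trans (hω a ha)
  have hBN : B.card ≤ N := card_image_le.trans hAN
  have key : ∀ j : ℕ, j ≤ k → (j : ℝ) * (Real.log A.card - Real.log R - k * s * Real.log 2 -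
      (θ + κ) * (k * Real.log N) - κ * (k * s * Real.log (1 / θ))) ≤
      Real.log ((vI B j).card : ℝ) := by
    intro j
    induction j with
    | zero => intro _; simp [vI]
    | succ j ih =>
      intro hj
      have ih' := ih (by omega)
      have hne := vI_nonempty hBne j
      have hsupp := vI_support hωB j
      have h2 := prod_stepV P hAne hκ hθ0 hθ1 hR0 hκA hR hne (k * s) (k * s) (by
        intro d hd a ha
        have h3 := (card_le_card (Finsupp.support_add (g₁ := d) (g₂ := off P a))).trans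
          (card_union_le _ _)
        have h4 := hsupp d hd
        have h5 := hωB _ (mem_image_of_mem _ ha)
        calc (d + off P a).support.card ≤ d.support.card + (off P a).support.card := h3
          _ ≤ j * s + s := Nat.add_le_add h4 h5
          _ = (j + 1) * s := by ring
          _ ≤ k * s := Nat.mul_le_mul_right _ hj) (by
        intro d hd
        exact (hsupp d hd).trans (Nat.mul_le_mul_right _ (by omega)))
      have hD0 : (0:ℝ) < ((vI B j).card : ℝ) := by exact_mod_cast card_pos.2 hne
      have hDN : ((vI B j).card : ℝ) ≤ (N:ℝ) ^ k := by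
        have h1 : (vI B j).card ≤ N ^ k :=
          (vI_card B j).trans ((Nat.pow_le_pow_left hBN j).trans
            (Nat.pow_le_pow_right hN1 (by omega)))
        exact_mod_cast h1
      have hLD : Real.log ((vI B j).card : ℝ) ≤ k * Real.log N := by
        rw [← Real.log_pow]
        exact Real.log_le_log hD0 hDN
      have h6 : (θ + κ) * Real.log ((vI B j).card : ℝ) ≤ (θ + κ) * (k * Real.log N) := by
        gcongr
      have h7 : image₂ (· + ·) (vI B j) B = vI B (j + 1) := rfl
      rw [← hB, h7] at h2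
      push_cast at h2 ⊢
      linarith
  refine (key k le_rfl).trans ?_
  rw [hB, vI_off]
  apply Real.log_le_log
  · exact_mod_cast card_pos.2 ((vI_nonempty hAne k).image _)
  · exact_mod_cast card_image_le

/-- **Kernel**: a set `P` contained in `Z a` for many `a`, all other elements being rare. -/
theorem kernelV {α : Type*} [DecidableEq α] (A : Finset α) (Z : α → Finset ι) (H : ℕ) :
    ∃ P : Finset ι, A.card ≤ H ^ P.card * (A.filter (fun a => P ⊆ Z a)).card ∧
      ∀ p, p ∉ P → H * ((A.filter (fun a => P ⊆ Z a)).filter (fun a => p ∈ Z a)).card ≤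
        (A.filter (fun a => P ⊆ Z a)).card := by
  classical
  rcases A.eq_empty_or_nonempty with rfl | hA
  · exact ⟨∅, by simp, by simp⟩
  let U := A.biUnion Z
  let Fam := U.powerset.filter
    (fun P => A.card ≤ H ^ P.card * (A.filter (fun a => P ⊆ Z a)).card)
  have hne : Fam.Nonempty := by
    refine ⟨∅, ?_⟩
    simp [Fam]
  obtain ⟨P, hP, hmax⟩ := exists_max_image Fam Finset.card hne
  rw [mem_filter, mem_powerset] at hP
  refine ⟨P, hP.2, ?_⟩
  intro p hp
  by_contra hcon
  push Not at hcon
  set A₀ := A.filter (fun a => P ⊆ Z a) with hA₀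
  set A₁ := A₀.filter (fun a => p ∈ Z a) with hA₁
  have hA₁eq : A₁ = A.filter (fun a => insert p P ⊆ Z a) := by
    ext a
    simp only [hA₁, hA₀, mem_filter, insert_subset_iff]
    tauto
  have hA₁ne : A₁.Nonempty := by
    rw [← card_pos]
    rcases Nat.eq_zero_or_pos A₁.card with h | h
    · rw [h] at hcon; simp at hcon
    · exact h
  obtain ⟨a, ha⟩ := hA₁ne
  have ha' := ha
  rw [hA₁eq, mem_filter] at ha'
  have hmem : insert p P ∈ Fam := by
    rw [mem_filter, mem_powerset]
    refine ⟨?_, ?_⟩
    · intro q hq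
      exact mem_biUnion.mpr ⟨a, ha'.1, ha'.2 hq⟩
    · rw [← hA₁eq, card_insert_of_notMem hp]
      calc A.card ≤ H ^ P.card * A₀.card := hP.2
        _ ≤ H ^ P.card * (H * A₁.card) := Nat.mul_le_mul_left _ hcon.le
        _ = _ := by ring
  have := hmax _ hmem
  rw [card_insert_of_notMem hp] at this
  omega

end Pool.Agent.Helper2.E
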