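import Pool.Agent.Helper2.EVal
import Pool.Agent.Helper2.EProdV2
import Pool.Agent.Helper2.EFinal

set_option autoImplicit false

/-!
Assembly of the theorem for sets whose elements are sparse in a locally independent
multiplicative dictionary.
-/

open Finset

namespace Pool.Agent.Helper2.E

open Pool.Agent.Helper5 (sI pI kS kP sI_subset pI_subset kS_nonempty)

variable {ι : Type*} [DecidableEq ι]

/-- the products corresponding to the iterated sums of exponent vectors -/
theorem vI_prod {g : ι → ℚ} (hg : ∀ i, 0 < g i) {A : Finset ℤ} {e : ℤ → ι →₀ ℤ}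
    (he : ∀ a ∈ A, |(a : ℚ)| = ev g (e a)) (j : ℕ) :
    ∀ v ∈ vI (A.image e) j, ∃ x ∈ pI A j, |(x : ℚ)| = ev g v := by
  classical
  induction j with
  | zero =>
    intro v hv
    simp only [vI, mem_singleton] at hv
    subst hv
    refine ⟨1, by simp [pI], ?_⟩
    unfold ev
    simp
  | succ j ih =>
    intro v hv
    simp only [vI, mem_image₂] at hv
    obtain ⟨y, hy, b, hb, rfl⟩ := hv
    obtain ⟨a, ha, rfl⟩ := mem_image.1 hb
    obtain ⟨x, hx, hxy⟩ := ih y hy
    refine ⟨x * a, ?_, ?_⟩
    · simp only [pI, mem_image₂]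
      exact ⟨x, hx, a, ha, rfl⟩
    · rw [ev_add hg, ← hxy, ← he a ha]
      push_cast
      rw [abs_mul]

theorem coreV (k : ℕ) (hk : 1 ≤ k) (ε : ℝ) (hε : 0 < ε) :
    ∃ c : ℝ, 0 < c ∧ ∀ (ι : Type) (g : ι → ℚ), (∀ i, 0 < g i) →
      ∀ A : Finset ℤ, A.Nonempty →
      (∀ e : ι →₀ ℤ, (e.support.card : ℝ) ≤ Real.log A.card → ev g e = 1 → e = 0) →
      (∀ a ∈ A, a ≠ 0 → ∃ e : ι →₀ ℤ, |(a : ℚ)| = ev g e ∧
        (e.support.card : ℝ) ≤ c * Real.log A.card) →
      c * (A.card : ℝ) ^ ((k : ℝ) - ε) ≤ max ((kS k A).card : ℝ) ((kP k A).card : ℝ) := by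
  classical
  have hk0 : (0:ℝ) < k := by exact_mod_cast hk
  have hk1 : (1:ℝ) ≤ k := by exact_mod_cast hk
  -- parameters
  set ε₁ : ℝ := ε / (4 * k) with hε₁
  have hε₁0 : 0 < ε₁ := by positivity
  set θ : ℝ := min (1 / 2) (ε / (8 * k * (k + 1))) with hθdef
  have hθ0 : 0 < θ := by
    rw [hθdef]; apply lt_min (by norm_num) (by positivity)
  have hθ1 : θ ≤ 1 / 2 := min_le_left _ _
  have hθ2 : θ ≤ ε / (8 * k * (k + 1)) := min_le_right _ _
  set lam : ℝ := ε₁ / (4 * (k + 1)) with hlam
  have hlam0 : 0 < lam := by positivity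
  set H : ℕ := ⌈16 * (k:ℝ) ^ 2 / ε⌉₊ + 2 with hH
  have hH2 : (2:ℝ) ≤ H := by
    rw [hH]; push_cast
    have : (0:ℝ) ≤ (⌈16 * (k:ℝ) ^ 2 / ε⌉₊ : ℝ) := Nat.cast_nonneg _
    linarith
  have hHge : 16 * (k:ℝ) ^ 2 / ε ≤ H := by
    rw [hH]; push_cast
    have := Nat.le_ceil (16 * (k:ℝ) ^ 2 / ε)
    linarith
  have hHpos : (0:ℝ) < H := by linarith
  have hlogH : 0 ≤ Real.log H := Real.log_nonneg (by linarith)
  obtain ⟨b, C, hb, hC, hsum⟩ := sum_iter_rat hθ0 hθ1 hlam0
  have hlogC : 0 ≤ Real.log C := Real.log_nonneg hC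
  have hlogθ : 0 ≤ Real.log (1 / θ) := by
    apply Real.log_nonneg
    rw [le_div_iff₀ hθ0]; linarith
  set Y : ℝ := Real.log H + k + k * Real.log (1 / θ) + Real.log (1 / θ) + 2 + b + Real.log C + 1
    with hY
  have hkθ : 0 ≤ k * Real.log (1 / θ) := by positivity
  have hY1 : 1 ≤ Y := by rw [hY]; linarith
  have hYpos : 0 < Y := by linarith
  set c₁ : ℝ := min (ε / (16 * k * Y)) (1 / (2 * k)) with hc₁
  have hc₁0 : 0 < c₁ := lt_min (by positivity) (by positivity)
  have hc₁le : c₁ ≤ ε / (16 * k * Y) := min_le_left _ _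
  have hc₁k : c₁ ≤ 1 / (2 * k) := min_le_right _ _
  have hkc : k * c₁ * Y ≤ ε / 16 := by
    calc k * c₁ * Y ≤ k * (ε / (16 * k * Y)) * Y := by gcongr
      _ = ε / 16 := by field_simp
  have hlog2 : Real.log 2 ≤ 1 := by
    have := Real.log_le_sub_one_of_pos (show (0:ℝ) < 2 by norm_num)
    linarith
  have hlog2' : 0 < Real.log 2 := Real.log_pos (by norm_num)
  have hYb : ∀ z : ℝ, z ≤ Y → k * c₁ * z ≤ ε / 16 := by
    intro z hz
    exact (mul_le_mul_of_nonneg_left hz (by positivity)).trans hkc
  have hb1 : k * c₁ * Real.log H ≤ ε / 16 := hYb _ (by rw [hY]; linarith)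
  have hb2 : k * c₁ * (k * Real.log 2) ≤ ε / 16 := by
    apply hYb
    have : (k:ℝ) * Real.log 2 ≤ k * 1 := by gcongr
    rw [hY]; linarith
  have hb3 : k * c₁ * (Real.log (1 / θ) + 2 + b) ≤ ε / 16 := hYb _ (by rw [hY]; linarith)
  have hb5 : k * c₁ * (k * Real.log (1 / θ)) ≤ ε / 16 := hYb _ (by rw [hY]; linarith)
  have hb4 : c₁ * Real.log C ≤ ε₁ / 4 := by
    have h1 : k * c₁ * Real.log C ≤ ε / 16 := hYb _ (by rw [hY]; linarith)
    have h2 : k * (ε₁ / 4) = ε / 16 := by rw [hε₁]; field_simp; norm_num
    have h3 : k * (c₁ * Real.log C) ≤ k * (ε₁ / 4) := by rw [h2]; linarith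
    exact le_of_mul_le_mul_left h3 hk0
  set K₁ : ℝ := k * (3 * Real.log 2 + k * (2 / ε₁)) with hK₁
  have hK₁0 : 0 ≤ K₁ := by positivity
  refine ⟨min c₁ (Real.exp (-(K₁ + k * Real.log 4))), lt_min hc₁0 (Real.exp_pos _), ?_⟩
  intro ι g hg A hAne hrel hfew
  have hlog4 : 0 < Real.log 4 := Real.log_pos (by norm_num)
  set c := min c₁ (Real.exp (-(K₁ + k * Real.log 4))) with hc
  have hcc₁ : c ≤ c₁ := min_le_left _ _
  have hcK4 : c ≤ Real.exp (-(K₁ + k * Real.log 4)) := min_le_right _ _
  have hcK : c ≤ Real.exp (-K₁) := hcK4.trans (Real.exp_le_exp.2 (by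
    have : 0 ≤ (k:ℝ) * Real.log 4 := by positivity
    linarith))
  have hcpos : 0 < c := lt_min hc₁0 (Real.exp_pos _)
  clear_value c
  set n := A.card with hn
  have hn1 : 1 ≤ n := card_pos.mpr hAne
  have hn1' : (1 : ℝ) ≤ n := by exact_mod_cast hn1
  have hnpos : (0 : ℝ) < n := by linarith
  have hmax1 : (1 : ℝ) ≤ max ((kS k A).card : ℝ) ((kP k A).card : ℝ) := by
    apply le_max_of_le_left
    exact_mod_cast card_pos.mpr (kS_nonempty k hAne)
  rcases Nat.lt_or_ge n 2 with hlt | hge
  · have hn1'' : n = 1 := by omega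
    rw [hn1'']
    have : c ≤ 1 := hcK.trans (Real.exp_le_one_iff.2 (by linarith))
    simp only [Nat.cast_one, Real.one_rpow, mul_one]
    linarith
  · set L := Real.log n with hL
    have hL0 : 0 ≤ L := Real.log_nonneg hn1'
    -- a large part of one sign
    obtain ⟨A', hA'A, hA'card2, hsign⟩ : ∃ A' ⊆ A, n ≤ 4 * A'.card ∧
        (∀ a ∈ A', a ≠ 0) ∧ (∀ a ∈ A', ∀ a' ∈ A', ∀ x y : ℚ, |(a : ℚ)| * x = |(a' : ℚ)| * y →
          (a : ℚ) * x = (a' : ℚ) * y) := by
      have h1 : n ≤ (A.filter (fun a => 0 < a)).card + (A.filter (fun a => a < 0)).card + 1 := by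
        have h2 : A ⊆ (A.filter (fun a => 0 < a) ∪ A.filter (fun a => a < 0)) ∪ {0} := by
          intro a ha
          rw [mem_union, mem_union, mem_filter, mem_filter, mem_singleton]
          rcases lt_trichotomy a 0 with h | h | h
          · exact Or.inl (Or.inr ⟨ha, h⟩)
          · exact Or.inr h
          · exact Or.inl (Or.inl ⟨ha, h⟩)
        have h3 := (card_le_card h2).trans (card_union_le _ _)
        have h4 := card_union_le (A.filter (fun a => 0 < a)) (A.filter (fun a => a < 0))
        rw [card_singleton] at h3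
        omega
      rcases le_total (A.filter (fun a => a < 0)).card (A.filter (fun a => 0 < a)).card with h | h
      · refine ⟨A.filter (fun a => 0 < a), filter_subset _ _, by omega, ?_, ?_⟩
        · intro a ha; exact (mem_filter.1 ha).2.ne'
        · intro a ha a' ha' x y hxy
          have e1 : (0:ℚ) < a := by exact_mod_cast (mem_filter.1 ha).2
          have e2 : (0:ℚ) < a' := by exact_mod_cast (mem_filter.1 ha').2
          rw [abs_of_pos e1, abs_of_pos e2] at hxy
          exact hxy
      · refine ⟨A.filter (fun a => a < 0), filter_subset _ _, by omega, ?_, ?_⟩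
        · intro a ha; exact (mem_filter.1 ha).2.ne
        · intro a ha a' ha' x y hxy
          have e1 : (a:ℚ) < 0 := by exact_mod_cast (mem_filter.1 ha).2
          have e2 : (a':ℚ) < 0 := by exact_mod_cast (mem_filter.1 ha').2
          rw [abs_of_neg e1, abs_of_neg e2] at hxy
          linarith
    obtain ⟨hA'ne0, hsign⟩ := hsign
    have hA'ne : A'.Nonempty := by rw [← card_pos]; omega
    have hA'0 : (0:ℤ) ∉ A' := fun h => hA'ne0 0 h rfl
    -- exponent vectors
    choose! e he hes using fun a (ha : a ∈ A') => hfew a (hA'A ha) (hA'ne0 a ha)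
    have heinj : Set.InjOn e (A' : Set ℤ) := by
      intro a ha a' ha' h
      have h1 : |(a : ℚ)| * 1 = |(a' : ℚ)| * 1 := by rw [he a ha, he a' ha', h]
      have h2 := hsign a ha a' ha' 1 1 h1
      simp only [mul_one] at h2
      exact_mod_cast h2
    set s := ⌊c₁ * L⌋₊ with hs
    have hsL : (s:ℝ) ≤ c₁ * L := Nat.floor_le (by positivity)
    have hω : ∀ a ∈ A', (e a).support.card ≤ s := by
      intro a ha
      apply Nat.le_floor
      have h1 := hes a ha
      have h2 : c * L ≤ c₁ * L := by gcongr
      exact h1.trans h2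
    have hks : (2 * k * s : ℝ) ≤ L := by
      calc (2 * k * s : ℝ) ≤ 2 * k * (c₁ * L) := by gcongr
        _ ≤ 2 * k * (1 / (2 * k) * L) := by gcongr
        _ = L := by field_simp
    obtain ⟨S, hS1, hS2⟩ := kernelV A' (fun a => (e a).support) H
    set A₀ := A'.filter (fun a => S ⊆ (e a).support) with hA₀
    have hA₀pos : 0 < A₀.card := by
      rcases Nat.eq_zero_or_pos A₀.card with h | h
      · rw [h, mul_zero] at hS1
        have := card_pos.2 hA'ne
        omega
      · exact h
    obtain ⟨a₀, ha₀⟩ := card_pos.1 hA₀pos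
    have ha₀' := mem_filter.1 ha₀
    have hSs : S.card ≤ s := (card_le_card ha₀'.2).trans (hω a₀ ha₀'.1)
    have hSL : (S.card : ℝ) ≤ c₁ * L := le_trans (by exact_mod_cast hSs) hsL
    have hA₀A' : A₀ ⊆ A' := filter_subset _ _
    have hA₀A : A₀ ⊆ A := hA₀A'.trans hA'A
    have hA₀0 : (0:ℤ) ∉ A₀ := fun h => hA'0 (mem_filter.1 h).1
    -- size of A₀
    have hlogA₀ : L - Real.log 4 - c₁ * L * Real.log H ≤ Real.log A₀.card := by
      have h1 : (n:ℝ) ≤ 4 * ((H:ℝ) ^ S.card * A₀.card) := by
        have h2 : n ≤ 4 * (H ^ S.card * A₀.card) :=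
          hA'card2.trans (Nat.mul_le_mul_left 4 hS1)
        exact_mod_cast h2
      have hA₀pos' : (0:ℝ) < A₀.card := by exact_mod_cast hA₀pos
      have h3 : L ≤ Real.log (4 * ((H:ℝ) ^ S.card * A₀.card)) := Real.log_le_log hnpos h1
      rw [Real.log_mul (by norm_num) (by positivity), Real.log_mul (by positivity) (by positivity),
        Real.log_pow] at h3
      have h4 : (S.card : ℝ) * Real.log H ≤ c₁ * L * Real.log H := by gcongr
      linarith
    set R : ℝ := Real.exp (ε₁ * L) with hR
    have hR0 : 0 < R := Real.exp_pos _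
    -- it suffices to bound the logarithm
    have hfin : ∀ m : ℕ, 1 ≤ m → (k:ℝ) * L - ε * L - (K₁ + k * Real.log 4) ≤ Real.log m →
        (m:ℝ) ≤ max ((kS k A).card : ℝ) ((kP k A).card : ℝ) →
        c * (n : ℝ) ^ ((k : ℝ) - ε) ≤ max ((kS k A).card : ℝ) ((kP k A).card : ℝ) := by
      intro m hm1 hlog hm
      refine le_trans ?_ hm
      have hmpos : (0:ℝ) < m := by exact_mod_cast hm1
      calc c * (n : ℝ) ^ ((k : ℝ) - ε)
          ≤ Real.exp (-(K₁ + k * Real.log 4)) * Real.exp (((k:ℝ) - ε) * L) := by
            apply mul_le_mul hcK4 _ (by positivity) (Real.exp_pos _).le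
            rw [Real.rpow_def_of_pos hnpos, mul_comm]
        _ = Real.exp ((k:ℝ) * L - ε * L - (K₁ + k * Real.log 4)) := by
            rw [← Real.exp_add]; congr 1; ring
        _ ≤ Real.exp (Real.log m) := Real.exp_le_exp.2 hlog
        _ = m := Real.exp_log hmpos
    set fib : ℤ → ℕ := fun a => (A₀.filter (fun a' => off S (e a') = off S (e a))).card with hfib
    set As := A₀.filter (fun a => (fib a : ℝ) ≤ R) with hAs
    set Al := A₀.filter (fun a => ¬ (fib a : ℝ) ≤ R) with hAl
    have hsplit : As.card + Al.card = A₀.card := card_filter_add_card_filter_not _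
    rcases le_total Al.card As.card with hcase | hcase
    · -- product side
      have hhalf : A₀.card ≤ 2 * As.card := by omega
      have hAspos : 0 < As.card := by omega
      have hAsne : As.Nonempty := card_pos.1 hAspos
      have hAsA' : As ⊆ A' := (filter_subset _ _).trans hA₀A'
      have hAsA : As ⊆ A := hAsA'.trans hA'A
      have hAsn : As.card ≤ n := card_le_card hAsA
      set V := As.image e with hV
      have heinjs : Set.InjOn e (As : Set ℤ) := heinj.mono (by exact_mod_cast hAsA')
      have hVcard : V.card = As.card := card_image_of_injOn heinjs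
      have hcardf : ∀ (Q : (ι →₀ ℤ) → Prop) [DecidablePred Q], (V.filter Q).card =
          (As.filter (fun a => Q (e a))).card := by
        intro Q _
        have : V.filter Q = (As.filter (fun a => Q (e a))).image e := by
          ext v
          simp only [hV, mem_filter, mem_image]
          constructor
          · rintro ⟨⟨a, ha, rfl⟩, hq⟩
            exact ⟨a, ⟨ha, hq⟩, rfl⟩
          · rintro ⟨a, ⟨ha, hq⟩, rfl⟩
            exact ⟨⟨a, ha, rfl⟩, hq⟩
        rw [this, card_image_of_injOn (heinjs.mono (by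
          intro a ha
          exact (mem_filter.1 (mem_coe.1 ha)).1))]
      have hκA : ∀ q, q ∉ S →
          ((V.filter (fun v => v q ≠ 0)).card : ℝ) ≤ (2 / (H:ℝ)) * V.card := by
        intro q hqS
        have h1 := hS2 q hqS
        have h2 : (V.filter (fun v => v q ≠ 0)).card ≤
            (A₀.filter (fun a => q ∈ (e a).support)).card := by
          rw [hcardf]
          apply card_le_card
          intro a ha
          rw [mem_filter] at ha
          rw [mem_filter]
          exact ⟨(mem_filter.1 ha.1).1, Finsupp.mem_support_iff.2 ha.2⟩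
        have h3 : H * (V.filter (fun v => v q ≠ 0)).card ≤ 2 * V.card := by
          rw [hVcard]
          exact (Nat.mul_le_mul_left _ h2).trans (h1.trans hhalf)
        have h4 : (H:ℝ) * ((V.filter (fun v => v q ≠ 0)).card : ℝ) ≤ 2 * V.card := by
          exact_mod_cast h3
        rw [div_mul_eq_mul_div, le_div_iff₀ hHpos]
        linarith
      have hRfib : ∀ x, ((V.filter (fun v => off S v = x)).card : ℝ) ≤ R := by
        intro x
        rw [hcardf]
        rcases (As.filter (fun a => off S (e a) = x)).eq_empty_or_nonempty with h0 | ⟨a, ha⟩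
        · rw [h0]; simpa using hR0.le
        · rw [mem_filter] at ha
          have ha2 := (mem_filter.1 ha.1).2
          refine le_trans ?_ ha2
          rw [← ha.2]
          apply Nat.cast_le.2
          apply card_le_card
          intro a' ha'
          rw [mem_filter] at ha' ⊢
          exact ⟨(mem_filter.1 ha'.1).1, ha'.2⟩
      have hωV : ∀ v ∈ V, v.support.card ≤ s := by
        intro v hv
        obtain ⟨a, ha, rfl⟩ := mem_image.1 hv
        exact hω a (hAsA' ha)
      have hVne : V.Nonempty := hAsne.image _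
      have hprod := prod_iterV S hVne (κ := 2 / (H:ℝ)) (by positivity) hθ0 (by linarith) hR0 s k n
        (by rw [hVcard]; exact hAsn) hωV hκA hRfib
      -- products
      have hpk : ((vI V k).card : ℝ) ≤ max ((kS k A).card : ℝ) ((kP k A).card : ℝ) := by
        apply le_max_of_le_right
        apply Nat.cast_le.2
        choose! x hx hxv using vI_prod hg (A := As) (e := e) (fun a ha => he a (hAsA' ha)) k
        apply card_le_card_of_injOn x
        · intro v hv
          exact mem_coe.2 (pI_subset hAsA k (hx v (mem_coe.1 hv)))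
        · intro v hv v' hv' h
          rw [mem_coe] at hv hv'
          have h1 : ev g v = ev g v' := by rw [← hxv v hv, ← hxv v' hv', h]
          have h2 : ev g (v - v') = 1 := by
            rw [ev_sub hg, h1, div_self (ev_pos hg v').ne']
          have h3 : (v - v').support.card ≤ 2 * (k * s) := by
            have e1 := (card_le_card (Finsupp.support_sub (f := v) (g := v'))).trans
              (card_union_le _ _)
            have e2 := vI_support hωV k v hv
            have e3 := vI_support hωV k v' hv'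
            omega
          have h4 : v - v' = 0 := by
            apply hrel _ _ h2
            calc ((v - v').support.card : ℝ) ≤ ((2 * (k * s) : ℕ) : ℝ) := by exact_mod_cast h3
              _ = 2 * k * s := by push_cast; ring
              _ ≤ L := hks
          exact sub_eq_zero.1 h4
      have hvIne : 1 ≤ (vI V k).card := card_pos.2 (vI_nonempty hVne k)
      refine hfin _ hvIne ?_ hpk
      refine le_trans ?_ hprod
      rw [hVcard]
      have hlogAs : Real.log A₀.card - Real.log 2 ≤ Real.log As.card := by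
        have h1 : (A₀.card : ℝ) ≤ 2 * As.card := by exact_mod_cast hhalf
        have hA₀pos' : (0:ℝ) < A₀.card := by exact_mod_cast hA₀pos
        have hAspos' : (0:ℝ) < As.card := by exact_mod_cast hAspos
        have h2 := Real.log_le_log hA₀pos' h1
        rw [Real.log_mul (by norm_num) hAspos'.ne'] at h2
        linarith
      have hlogR : Real.log R = ε₁ * L := by rw [hR, Real.log_exp]
      rw [hlogR, ← hL]
      have h5 : (s:ℝ) * Real.log 2 ≤ c₁ * L * Real.log 2 := by gcongr
      have h5' : (s:ℝ) * Real.log (1 / θ) ≤ c₁ * L * Real.log (1 / θ) := by gcongr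
      have hκ1 : 2 / (H:ℝ) ≤ 1 := by rw [div_le_one hHpos]; exact hH2
      have h6 : 2 / (H:ℝ) * k * k ≤ ε / 8 := by
        have : 16 * (k:ℝ) ^ 2 / ε ≤ H := hHge
        rw [div_le_iff₀ hε] at this
        rw [div_mul_eq_mul_div, div_mul_eq_mul_div, div_le_iff₀ hHpos]
        nlinarith
      have h6' : θ * k * k ≤ ε / 8 := by
        calc θ * k * k ≤ ε / (8 * k * (k + 1)) * k * k := by gcongr
          _ = ε / 8 * (k / (k + 1)) := by field_simp
          _ ≤ ε / 8 * 1 := by
              apply mul_le_mul_of_nonneg_left _ (by positivity)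
              rw [div_le_one (by positivity)]; linarith
          _ = ε / 8 := mul_one _
      have h7 : (k:ℝ) * ε₁ = ε / 4 := by rw [hε₁]; field_simp
      have h8 : (k:ℝ) * (L - Real.log 4 - Real.log 2 - c₁ * L * Real.log H - ε₁ * L -
          k * (c₁ * L * Real.log 2) - (θ + 2 / (H:ℝ)) * (k * L) -
          k * (c₁ * L * Real.log (1 / θ))) ≤
          (k:ℝ) * (Real.log As.card - ε₁ * L - k * s * Real.log 2 -
            (θ + 2 / (H:ℝ)) * (k * L) - 2 / (H:ℝ) * (k * s * Real.log (1 / θ))) := by
        apply mul_le_mul_of_nonneg_left _ hk0.le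
        have h9 : (k:ℝ) * s * Real.log 2 ≤ k * (c₁ * L * Real.log 2) := by
          rw [mul_assoc]; gcongr
        have h9' : 2 / (H:ℝ) * (k * s * Real.log (1 / θ)) ≤ k * (c₁ * L * Real.log (1 / θ)) := by
          calc 2 / (H:ℝ) * (k * s * Real.log (1 / θ)) ≤ 1 * (k * s * Real.log (1 / θ)) := by
                gcongr
            _ = k * (s * Real.log (1 / θ)) := by ring
            _ ≤ _ := by gcongr
        linarith
      refine le_trans ?_ h8
      have h10 : (k:ℝ) * (L - Real.log 4 - Real.log 2 - c₁ * L * Real.log H - ε₁ * L -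
          k * (c₁ * L * Real.log 2) - (θ + 2 / (H:ℝ)) * (k * L) -
          k * (c₁ * L * Real.log (1 / θ))) =
          k * L - k * Real.log 4 - k * Real.log 2 - (k * c₁ * Real.log H + k * ε₁ +
            k * c₁ * (k * Real.log 2) + (θ * k * k + 2 / (H:ℝ) * k * k) +
            k * c₁ * (k * Real.log (1 / θ))) * L := by ring
      rw [h10]
      have h11 : (k * c₁ * Real.log H + k * ε₁ + k * c₁ * (k * Real.log 2) +
          (θ * k * k + 2 / (H:ℝ) * k * k) + k * c₁ * (k * Real.log (1 / θ))) * L ≤ ε * L := by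
        apply mul_le_mul_of_nonneg_right _ hL0
        linarith
      have h12 : (k:ℝ) * Real.log 2 ≤ K₁ := by
        rw [hK₁]
        apply mul_le_mul_of_nonneg_left _ hk0.le
        have : 0 ≤ (k:ℝ) * (2 / ε₁) := by positivity
        linarith
      linarith
    · -- sum side
      have hhalf : A₀.card ≤ 2 * Al.card := by omega
      have hAlpos : 0 < Al.card := by omega
      have hAlne : Al.Nonempty := card_pos.1 hAlpos
      have hAlA' : Al ⊆ A' := (filter_subset _ _).trans hA₀A'
      have hAl0 : (0:ℤ) ∉ Al := fun h => hA'0 (hAlA' h)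
      have hAlA : Al ⊆ A := hAlA'.trans hA'A
      have hAln : Al.card ≤ n := card_le_card hAlA
      obtain ⟨P, hPprime, hPS, hPinj⟩ := exists_primes hg S (by
        intro x hx hx1
        apply hrel x _ hx1
        have h1 : (x.support.card : ℝ) ≤ s := by exact_mod_cast (card_le_card hx).trans hSs
        have h2 : (s:ℝ) ≤ 2 * k * s := by
          have : (0:ℝ) ≤ s := Nat.cast_nonneg _
          nlinarith
        linarith)
      have hPL : (P.card : ℝ) ≤ c₁ * L := le_trans (by exact_mod_cast hPS) hSL
      obtain ⟨u, hu0, hu1, hu2⟩ := exists_mult hg S P hPprime hPinj Al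
        (fun a ha => hA'ne0 a (hAlA' ha)) e (fun a ha => he a (hAlA' ha))
      have hRfib : ∀ a ∈ Al, R ≤
          ((Al.filter (fun a' : ℤ => (a' : ℚ) / u a' = (a : ℚ) / u a)).card : ℝ) := by
        intro a ha
        have ha2 := (mem_filter.1 ha).2
        push Not at ha2
        refine ha2.le.trans ?_
        apply Nat.cast_le.2
        apply card_le_card
        intro a' ha'
        rw [mem_filter] at ha' ⊢
        have ha'l : a' ∈ Al := by
          rw [hAl, mem_filter]
          refine ⟨ha'.1, ?_⟩
          have : fib a' = fib a := by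
            simp only [hfib]; rw [ha'.2]
          rw [this]
          push Not
          exact ha2
        refine ⟨ha'l, ?_⟩
        have hsupp : (e a' - e a).support ⊆ S := by
          intro q hq
          by_contra hqS
          have h1 := DFunLike.congr_fun ha'.2 q
          rw [off_apply, off_apply, if_neg hqS, if_neg hqS] at h1
          rw [Finsupp.mem_support_iff, Finsupp.sub_apply, h1, sub_self] at hq
          exact hq rfl
        have h2 := hu2 a' ha'l a ha hsupp
        rw [div_eq_mul_inv, div_eq_mul_inv] at h2 ⊢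
        exact hsign a' (hAlA' ha'l) a (hAlA' ha) _ _ h2
      have hsumk := hsum P hPprime Al hAlne hAl0 u (fun a _ => hu0 a) hu1 R hR0 hRfib n k hAln k
        le_rfl
      have hsIne : 1 ≤ (sI Al k).card := card_pos.2 (sI_nonempty hAlne k)
      have hsk : ((sI Al k).card : ℝ) ≤ max ((kS k A).card : ℝ) ((kP k A).card : ℝ) := by
        apply le_max_of_le_left
        exact_mod_cast card_le_card (sI_subset hAlA k)
      refine hfin _ hsIne ?_ hsk
      refine le_trans ?_ hsumk
      have hlogAl : Real.log A₀.card - Real.log 2 ≤ Real.log Al.card := by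
        have h1 : (A₀.card : ℝ) ≤ 2 * Al.card := by exact_mod_cast hhalf
        have hA₀pos' : (0:ℝ) < A₀.card := by exact_mod_cast hA₀pos
        have hAlpos' : (0:ℝ) < Al.card := by exact_mod_cast hAlpos
        have h2 := Real.log_le_log hA₀pos' h1
        rw [Real.log_mul (by norm_num) hAlpos'.ne'] at h2
        linarith
      -- the exceptional term
      have hCpos : 0 < C := by linarith
      have h1 : C ^ P.card * (n : ℝ) ^ (lam * (k + 1)) / R ≤ Real.exp (-(ε₁ / 2 * L)) := by
        have e1 : C ^ P.card ≤ Real.exp (ε₁ / 4 * L) := by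
          have : C ^ P.card = Real.exp (P.card * Real.log C) := by
            rw [← Real.log_pow, Real.exp_log (by positivity)]
          rw [this]
          apply Real.exp_le_exp.2
          calc (P.card : ℝ) * Real.log C ≤ (c₁ * L) * Real.log C := by gcongr
            _ = (c₁ * Real.log C) * L := by ring
            _ ≤ ε₁ / 4 * L := by gcongr
        have e2 : (n : ℝ) ^ (lam * (k + 1)) = Real.exp (ε₁ / 4 * L) := by
          rw [Real.rpow_def_of_pos hnpos]
          congr 1
          rw [hlam]
          field_simp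
          exact hL.symm
        rw [e2, div_le_iff₀ hR0, hR, ← Real.exp_add]
        calc C ^ P.card * Real.exp (ε₁ / 4 * L)
            ≤ Real.exp (ε₁ / 4 * L) * Real.exp (ε₁ / 4 * L) := by gcongr
          _ = Real.exp (-(ε₁ / 2 * L) + ε₁ * L) := by
              rw [← Real.exp_add]; congr 1; ring
      have h2 : (k * L) * (C ^ P.card * (n : ℝ) ^ (lam * (k + 1)) / R) ≤ k * (2 / ε₁) := by
        calc (k * L) * (C ^ P.card * (n : ℝ) ^ (lam * (k + 1)) / R)
            ≤ (k * L) * Real.exp (-(ε₁ / 2 * L)) := by gcongr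
          _ = k * (L * Real.exp (-(ε₁ / 2 * L))) := by ring
          _ ≤ k * (1 / (ε₁ / 2)) := by
              apply mul_le_mul_of_nonneg_left (mul_exp_neg_le (by positivity)) hk0.le
          _ = k * (2 / ε₁) := by congr 1; field_simp
      have h3 : (P.card : ℝ) * (Real.log (1 / θ) + 2 + b) ≤
          c₁ * L * (Real.log (1 / θ) + 2 + b) := by gcongr
      have h4 : (k:ℝ) * (L - Real.log 4 - Real.log 2 - c₁ * L * Real.log H -
          (c₁ * L * (Real.log (1 / θ) + 2 + b) + 2 * θ * ((k + 1) * L) + k * (2 / ε₁))) ≤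
          (k:ℝ) * (Real.log Al.card - ((P.card : ℝ) * (Real.log (1 / θ) + 2 + b) +
        2 * θ * (((k:ℝ) + 1) * Real.log n) +
        (k * Real.log n) * (C ^ P.card * (n : ℝ) ^ (lam * (k + 1)) / R))) := by
        apply mul_le_mul_of_nonneg_left _ hk0.le
        rw [← hL]
        linarith
      refine le_trans ?_ h4
      have h5 : (k:ℝ) * (2 * θ * (k + 1)) ≤ ε / 4 := by
        calc (k:ℝ) * (2 * θ * (k + 1)) = 2 * k * (k + 1) * θ := by ring
          _ ≤ 2 * k * (k + 1) * (ε / (8 * k * (k + 1))) := by gcongr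
          _ = ε / 4 := by field_simp; norm_num
      have h10 : (k:ℝ) * (L - Real.log 4 - Real.log 2 - c₁ * L * Real.log H -
          (c₁ * L * (Real.log (1 / θ) + 2 + b) + 2 * θ * ((k + 1) * L) + k * (2 / ε₁))) =
          k * L - k * Real.log 4 - k * (Real.log 2 + k * (2 / ε₁)) - (k * c₁ * Real.log H +
            k * c₁ * (Real.log (1 / θ) + 2 + b) + k * (2 * θ * (k + 1))) * L := by ring
      rw [h10]
      have h11 : (k * c₁ * Real.log H + k * c₁ * (Real.log (1 / θ) + 2 + b) +
          k * (2 * θ * (k + 1))) * L ≤ ε * L := by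
        apply mul_le_mul_of_nonneg_right _ hL0
        linarith
      have h12 : (k:ℝ) * (Real.log 2 + k * (2 / ε₁)) ≤ K₁ := by
        rw [hK₁]
        apply mul_le_mul_of_nonneg_left _ hk0.le
        linarith
      linarith

end Pool.Agent.Helper2.E
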