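import Pool.Agent.Helper2.EProdE

set_option autoImplicit false

/-!
The entropy product step and its iteration.
-/

open Finset

namespace Pool.Agent.Helper2.E

section weights

variable {β α ι : Type*}

/-- the weight along a list of coordinates -/
noncomputable def w2 (τ lam : ℝ) (x : β → ι → ℤ) (y : α → ι → ℤ) (z : ι → ℤ) (d : β) (a : α) :
    List ι → Finset β → Finset α → ℝ
  | [], _, _ => 1
  | q :: l, K, L =>
    gf τ lam K (fun d' => x d' q) L (fun a' => y a' q) (z q) (x d q) (y a q) *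
      w2 τ lam x y z d a l (K.filter (fun d' => x d' q = x d q))
        (L.filter (fun a' => y a' q = y a q))

/-- kernel -/
theorem w2_sum [DecidableEq (ι → ℤ)] {τ lam : ℝ} (hτ1 : τ ≤ 1) (hl0 : 0 ≤ lam) (hl1 : lam ≤ 1) {R : ℝ} (hR : 0 ≤ R)
    (x : β → ι → ℤ) (y : α → ι → ℤ) (z : ι → ℤ) (s : ι → ℤ) :
    ∀ (l : List ι) (K : Finset β) (L : Finset α),
      (∀ d ∈ K, ∀ d' ∈ K, (∀ q ∈ l, x d q = x d' q) → d = d') →
      (∀ d ∈ K, ((L.filter (fun a => x d + y a = s)).card : ℝ) ≤ R) →
      ∑ d ∈ K, ∑ a ∈ L.filter (fun a => x d + y a = s), w2 τ lam x y z d a l K L ≤ R := by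
  classical
  intro l
  induction l with
  | nil =>
    intro K L hsep hfib
    rcases K.eq_empty_or_nonempty with h0 | ⟨d₀, hd₀⟩
    · rw [h0, sum_empty]; exact hR
    · have h1 : K = {d₀} := by
        rw [eq_singleton_iff_unique_mem]
        exact ⟨hd₀, fun d hd => hsep d hd d₀ hd₀ (by simp)⟩
      rw [h1, sum_singleton]
      simp only [w2, sum_const, nsmul_eq_mul, mul_one]
      exact hfib d₀ hd₀
  | cons q l ih =>
    intro K L hsep hfib
    rcases K.eq_empty_or_nonempty with h0 | hne
    · rw [h0, sum_empty]; exact hR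
    rw [← Finset.sum_fiberwise_of_maps_to (t := K.image (fun d => x d q)) (g := fun d => x d q)
      (fun e he => mem_image_of_mem _ he)]
    have hg := gf_sum (lam := lam) hτ1 hl0 hl1 hne (fun d => x d q) L (fun a => y a q) (z q) (s q)
    calc ∑ c ∈ K.image (fun d => x d q), ∑ d ∈ K.filter (fun d => x d q = c),
          ∑ a ∈ L.filter (fun a => x d + y a = s), w2 τ lam x y z d a (q :: l) K L
        ≤ ∑ c ∈ K.image (fun d => x d q),
          gf τ lam K (fun d => x d q) L (fun a => y a q) (z q) c (s q - c) * R := by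
          apply sum_le_sum
          intro c _
          have hin : ∀ d ∈ K.filter (fun d => x d q = c),
              ∑ a ∈ L.filter (fun a => x d + y a = s), w2 τ lam x y z d a (q :: l) K L =
              gf τ lam K (fun d => x d q) L (fun a => y a q) (z q) c (s q - c) *
              ∑ a ∈ (L.filter (fun a => y a q = s q - c)).filter (fun a => x d + y a = s),
                w2 τ lam x y z d a l (K.filter (fun d => x d q = c))
                  (L.filter (fun a => y a q = s q - c)) := by
            intro d hd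
            rw [mem_filter] at hd
            have hset : (L.filter (fun a => y a q = s q - c)).filter (fun a => x d + y a = s) =
                L.filter (fun a => x d + y a = s) := by
              ext a
              rw [mem_filter, mem_filter, mem_filter]
              constructor
              · rintro ⟨⟨h1, _⟩, h3⟩
                exact ⟨h1, h3⟩
              · rintro ⟨h1, h3⟩
                refine ⟨⟨h1, ?_⟩, h3⟩
                have := congrFun h3 q
                rw [Pi.add_apply, hd.2] at this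
                omega
            rw [hset, mul_sum]
            apply sum_congr rfl
            intro a ha
            rw [mem_filter] at ha
            have h4 : y a q = s q - c := by
              have := congrFun ha.2 q
              rw [Pi.add_apply, hd.2] at this
              omega
            show gf τ lam K (fun d' => x d' q) L (fun a' => y a' q) (z q) (x d q) (y a q) *
              w2 τ lam x y z d a l (K.filter (fun d' => x d' q = x d q))
                (L.filter (fun a' => y a' q = y a q)) = _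
            rw [hd.2, h4]
          rw [sum_congr rfl hin, ← mul_sum]
          apply mul_le_mul_of_nonneg_left _ (gf_nonneg hτ1 hl0 hl1 _ _ _ _ _ _ _)
          apply ih
          · intro d hd d' hd' h
            rw [mem_filter] at hd hd'
            apply hsep d hd.1 d' hd'.1
            intro q' hq'
            rcases List.mem_cons.1 hq' with rfl | hq'
            · rw [hd.2, hd'.2]
            · exact h q' hq'
          · intro d hd
            refine le_trans ?_ (hfib d (mem_filter.1 hd).1)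
            apply Nat.cast_le.2
            apply card_le_card
            intro a ha
            rw [mem_filter, mem_filter] at ha
            exact mem_filter.2 ⟨ha.1.1, ha.2⟩
      _ = (∑ c ∈ K.image (fun d => x d q),
          gf τ lam K (fun d => x d q) L (fun a => y a q) (z q) c (s q - c)) * R := by
          rw [sum_mul]
      _ ≤ 1 * R := mul_le_mul_of_nonneg_right hg hR
      _ = R := one_mul R

end weights

section classes

variable {β ι : Type*}

/-- the class of `d` by the coordinates in `m` -/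
def cls (S : Finset β) (x : β → ι → ℤ) (m : List ι) (d : β) : Finset β :=
  S.filter (fun d' => ∀ q ∈ m, x d' q = x d q)

theorem mem_cls {S : Finset β} {x : β → ι → ℤ} {m : List ι} {d d' : β} :
    d' ∈ cls S x m d ↔ d' ∈ S ∧ ∀ q ∈ m, x d' q = x d q := by
  unfold cls; rw [mem_filter]

theorem cls_nil (S : Finset β) (x : β → ι → ℤ) (d : β) : cls S x [] d = S := by
  ext d'; rw [mem_cls]; simp

theorem cls_cons (S : Finset β) (x : β → ι → ℤ) (m : List ι) (q : ι) (d : β) :
    (cls S x m d).filter (fun d' => x d' q = x d q) = cls S x (q :: m) d := by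
  ext d'
  rw [mem_filter, mem_cls, mem_cls]
  simp only [List.mem_cons, forall_eq_or_imp]
  tauto

theorem self_mem_cls {S : Finset β} {x : β → ι → ℤ} {m : List ι} {d : β} (hd : d ∈ S) :
    d ∈ cls S x m d := mem_cls.2 ⟨hd, fun _ _ => rfl⟩

theorem cls_eq {S : Finset β} {x : β → ι → ℤ} {m : List ι} {d d' : β}
    (h : d' ∈ cls S x m d) : cls S x m d' = cls S x m d := by
  ext e
  rw [mem_cls, mem_cls]
  have h2 := (mem_cls.1 h).2
  constructor
  · rintro ⟨h3, h4⟩
    exact ⟨h3, fun q hq => (h4 q hq).trans (h2 q hq)⟩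
  · rintro ⟨h3, h4⟩
    exact ⟨h3, fun q hq => (h4 q hq).trans (h2 q hq).symm⟩

theorem sum_cls [DecidableEq (Finset β)] (S : Finset β) (x : β → ι → ℤ) (m : List ι)
    (F : Finset β → β → ℝ) :
    ∑ d ∈ S, F (cls S x m d) d = ∑ K ∈ S.image (cls S x m), ∑ d ∈ K, F K d := by
  rw [← Finset.sum_fiberwise_of_maps_to (t := S.image (cls S x m)) (g := cls S x m)
      (fun e he => mem_image_of_mem _ he)]
  apply sum_congr rfl
  intro K hK
  obtain ⟨d₀, hd₀, rfl⟩ := mem_image.1 hK
  have h1 : S.filter (fun d => cls S x m d = cls S x m d₀) = cls S x m d₀ := by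
    ext d
    rw [mem_filter]
    constructor
    · rintro ⟨h1, h2⟩
      rw [← h2]
      exact self_mem_cls h1
    · intro h
      exact ⟨(mem_cls.1 h).1, cls_eq h⟩
  rw [h1]
  apply sum_congr rfl
  intro d hd
  rw [cls_eq hd]

theorem cls_image_nonempty [DecidableEq (Finset β)] {S : Finset β} {x : β → ι → ℤ} {m : List ι}
    {K : Finset β} (hK : K ∈ S.image (cls S x m)) : K.Nonempty := by
  obtain ⟨d₀, hd₀, rfl⟩ := mem_image.1 hK
  exact ⟨d₀, self_mem_cls hd₀⟩

theorem cls_info {S : Finset β} {x : β → ι → ℤ} {m : List ι} {q : ι} {d : β} (hd : d ∈ S) :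
    info (cls S x m d) (fun d' => x d' q) d =
      Real.log (cls S x m d).card - Real.log (cls S x (q :: m) d).card := by
  rw [info_eq (self_mem_cls hd), cls_cons]

end classes

section cost

variable {β α ι : Type*}

/-- cost of one level -/
theorem level_cost {τ lam : ℝ} (hτ0 : 0 < τ) (hτ1 : τ ≤ 1 / 2) (hl0 : 0 < lam) (hl1 : lam ≤ 1 / 2)
    (D : Finset β) (V : Finset α) (x : β → ι → ℤ) (y : α → ι → ℤ) (z : ι → ℤ)
    (m : List ι) (q : ι) {κ : ℝ} (hκ0 : 0 ≤ κ)
    (hκ : ((V.filter (fun a => y a q ≠ z q)).card : ℝ) ≤ κ * V.card) {η : ℝ}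
    (hη : ((2 * τ + 1) / (-Real.log τ) + τ) + 2 * lam / τ +
      (1 / τ + 1 + (-Real.log lam) / τ) * κ ≤ η) :
    (∀ d ∈ D, ∀ a ∈ V, 0 < gf τ lam (cls D x m d) (fun d' => x d' q) (cls V y m a)
      (fun a' => y a' q) (z q) (x d q) (y a q)) ∧
    ∑ d ∈ D, ∑ a ∈ V, -Real.log (gf τ lam (cls D x m d) (fun d' => x d' q) (cls V y m a)
      (fun a' => y a' q) (z q) (x d q) (y a q)) ≤
      η * (V.card * ∑ d ∈ D, info (cls D x m d) (fun d' => x d' q) d) +
      η * (D.card * ∑ a ∈ V, info (cls V y m a) (fun a' => y a' q) a) := by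
  classical
  refine ⟨?_, ?_⟩
  · intro d hd a ha
    exact (pair_cost hτ0 hτ1 hl0 hl1 ⟨d, self_mem_cls hd⟩ (fun d' => x d' q)
      ⟨a, self_mem_cls ha⟩ (fun a' => y a' q) (z q)).1 d (self_mem_cls hd) a (self_mem_cls ha)
  set c₁ := ((2 * τ + 1) / (-Real.log τ) + τ) + 2 * lam / τ with hc₁
  set c₂ := (2 * τ + 1) / (-Real.log τ) + τ with hc₂
  set c₃ := 1 / τ + 1 + (-Real.log lam) / τ with hc₃
  have hΛ : 0 < -Real.log τ := by
    rw [neg_pos]; exact Real.log_neg hτ0 (by linarith)
  have hll : 0 < -Real.log lam := by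
    rw [neg_pos]; exact Real.log_neg hl0 (by linarith)
  have hc₃0 : 0 ≤ c₃ := by positivity
  have hc₁₂ : c₂ ≤ c₁ := by
    rw [hc₁]
    have : 0 ≤ 2 * lam / τ := by positivity
    linarith
  have h1 : ∑ d ∈ D, ∑ a ∈ V, -Real.log (gf τ lam (cls D x m d) (fun d' => x d' q) (cls V y m a)
      (fun a' => y a' q) (z q) (x d q) (y a q)) =
      ∑ K ∈ D.image (cls D x m), ∑ L ∈ V.image (cls V y m), ∑ d ∈ K, ∑ a ∈ L,
        -Real.log (gf τ lam K (fun d' => x d' q) L (fun a' => y a' q) (z q) (x d q) (y a q)) := by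
    rw [sum_cls D x m (fun K d => ∑ a ∈ V, -Real.log (gf τ lam K (fun d' => x d' q) (cls V y m a)
      (fun a' => y a' q) (z q) (x d q) (y a q)))]
    apply sum_congr rfl
    intro K _
    rw [sum_comm (s := V.image (cls V y m)) (t := K)]
    apply sum_congr rfl
    intro d _
    exact sum_cls V y m (fun L a => -Real.log (gf τ lam K (fun d' => x d' q) L
      (fun a' => y a' q) (z q) (x d q) (y a q)))
  rw [h1]
  have h2 : ∀ K ∈ D.image (cls D x m), ∀ L ∈ V.image (cls V y m), ∑ d ∈ K, ∑ a ∈ L,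
        -Real.log (gf τ lam K (fun d' => x d' q) L (fun a' => y a' q) (z q) (x d q) (y a q)) ≤
      c₁ * (L.card * ∑ d ∈ K, info K (fun d' => x d' q) d) +
      c₂ * (K.card * ∑ a ∈ L, info L (fun a' => y a' q) a) +
      c₃ * (((L.filter (fun a => y a q ≠ z q)).card : ℝ) *
        ∑ d ∈ K, info K (fun d' => x d' q) d) := by
    intro K hK L hL
    exact (pair_cost hτ0 hτ1 hl0 hl1 (cls_image_nonempty hK) (fun d' => x d' q)
      (cls_image_nonempty hL) (fun a' => y a' q) (z q)).2
  refine (sum_le_sum (fun K hK => sum_le_sum (fun L hL => h2 K hK L hL))).trans ?_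
  -- evaluate the double sum
  have hcardV : ∑ L ∈ V.image (cls V y m), (L.card : ℝ) = V.card := by
    have := sum_cls V y m (fun _ _ => (1:ℝ))
    simp only [sum_const, nsmul_eq_mul, mul_one] at this
    exact this.symm
  have hcardD : ∑ K ∈ D.image (cls D x m), (K.card : ℝ) = D.card := by
    have := sum_cls D x m (fun _ _ => (1:ℝ))
    simp only [sum_const, nsmul_eq_mul, mul_one] at this
    exact this.symm
  have hcardN : ∑ L ∈ V.image (cls V y m), ((L.filter (fun a => y a q ≠ z q)).card : ℝ) =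
      ((V.filter (fun a => y a q ≠ z q)).card : ℝ) := by
    have := sum_cls V y m (fun _ a => if y a q = z q then (0:ℝ) else 1)
    rw [sum_ind_not V (fun a => y a q) (z q)] at this
    rw [this]
    apply sum_congr rfl
    intro L _
    rw [sum_ind_not L (fun a => y a q) (z q)]
  have hID := sum_cls D x m (fun K d => info K (fun d' => x d' q) d)
  have hIV := sum_cls V y m (fun L a => info L (fun a' => y a' q) a)
  have h3 : ∑ K ∈ D.image (cls D x m), ∑ L ∈ V.image (cls V y m),
      (c₁ * (L.card * ∑ d ∈ K, info K (fun d' => x d' q) d) +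
      c₂ * (K.card * ∑ a ∈ L, info L (fun a' => y a' q) a) +
      c₃ * (((L.filter (fun a => y a q ≠ z q)).card : ℝ) *
        ∑ d ∈ K, info K (fun d' => x d' q) d)) =
      c₁ * (V.card * ∑ d ∈ D, info (cls D x m d) (fun d' => x d' q) d) +
      c₂ * (D.card * ∑ a ∈ V, info (cls V y m a) (fun a' => y a' q) a) +
      c₃ * (((V.filter (fun a => y a q ≠ z q)).card : ℝ) *
        ∑ d ∈ D, info (cls D x m d) (fun d' => x d' q) d) := by
    rw [hID, hIV, ← hcardV, ← hcardD, ← hcardN]
    simp only [sum_add_distrib, ← mul_sum, ← sum_mul]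
  rw [h3]
  have hI0 : 0 ≤ ∑ d ∈ D, info (cls D x m d) (fun d' => x d' q) d :=
    sum_nonneg (fun d hd => info_nonneg (self_mem_cls hd))
  have hJ0 : 0 ≤ ∑ a ∈ V, info (cls V y m a) (fun a' => y a' q) a :=
    sum_nonneg (fun d hd => info_nonneg (self_mem_cls hd))
  generalize ∑ d ∈ D, info (cls D x m d) (fun d' => x d' q) d = I at *
  generalize ∑ a ∈ V, info (cls V y m a) (fun a' => y a' q) a = J at *
  have h4 : c₃ * (((V.filter (fun a => y a q ≠ z q)).card : ℝ) * I) ≤
      c₃ * κ * (V.card * I) := by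
    calc c₃ * (((V.filter (fun a => y a q ≠ z q)).card : ℝ) * I) ≤
          c₃ * ((κ * V.card) * I) := by gcongr
      _ = _ := by ring
  have h5 : c₂ * (D.card * J) ≤ η * (D.card * J) := by
    apply mul_le_mul_of_nonneg_right _ (by positivity)
    have : 0 ≤ c₃ * κ := by positivity
    linarith
  have h6 : (c₁ + c₃ * κ) * (V.card * I) ≤ η * (V.card * I) :=
    mul_le_mul_of_nonneg_right hη (by positivity)
  linarith

/-- total cost -/
theorem w2_cost {τ lam : ℝ} (hτ0 : 0 < τ) (hτ1 : τ ≤ 1 / 2) (hl0 : 0 < lam) (hl1 : lam ≤ 1 / 2)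
    (D : Finset β) (V : Finset α) (x : β → ι → ℤ) (y : α → ι → ℤ) (z : ι → ℤ)
    {κ : ℝ} (hκ0 : 0 ≤ κ)
    (hκ : ∀ q, ((V.filter (fun a => y a q ≠ z q)).card : ℝ) ≤ κ * V.card) {η : ℝ} (hη0 : 0 ≤ η)
    (hη : ((2 * τ + 1) / (-Real.log τ) + τ) + 2 * lam / τ +
      (1 / τ + 1 + (-Real.log lam) / τ) * κ ≤ η) :
    ∀ (l m : List ι),
    (∀ d ∈ D, ∀ a ∈ V, 0 < w2 τ lam x y z d a l (cls D x m d) (cls V y m a)) ∧
    ∑ d ∈ D, ∑ a ∈ V, -Real.log (w2 τ lam x y z d a l (cls D x m d) (cls V y m a)) ≤
      η * (V.card * ∑ d ∈ D, Real.log (cls D x m d).card) +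
      η * (D.card * ∑ a ∈ V, Real.log (cls V y m a).card) := by
  intro l
  induction l with
  | nil =>
    intro m
    refine ⟨fun _ _ _ _ => one_pos, ?_⟩
    simp only [w2, Real.log_one, neg_zero, sum_const_zero]
    have h1 : 0 ≤ ∑ d ∈ D, Real.log ((cls D x m d).card : ℝ) :=
      sum_nonneg (fun d _ => Real.log_natCast_nonneg _)
    have h2 : 0 ≤ ∑ a ∈ V, Real.log ((cls V y m a).card : ℝ) :=
      sum_nonneg (fun d _ => Real.log_natCast_nonneg _)
    positivity
  | cons q l ih =>
    intro m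
    obtain ⟨hpos, hcost⟩ := level_cost hτ0 hτ1 hl0 hl1 D V x y z m q hκ0 (hκ q) hη
    obtain ⟨ihpos, ihcost⟩ := ih (q :: m)
    have hw : ∀ d a, w2 τ lam x y z d a (q :: l) (cls D x m d) (cls V y m a) =
        gf τ lam (cls D x m d) (fun d' => x d' q) (cls V y m a)
          (fun a' => y a' q) (z q) (x d q) (y a q) *
        w2 τ lam x y z d a l (cls D x (q :: m) d) (cls V y (q :: m) a) := by
      intro d a
      show _ * w2 τ lam x y z d a l ((cls D x m d).filter (fun d' => x d' q = x d q))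
        ((cls V y m a).filter (fun a' => y a' q = y a q)) = _
      rw [cls_cons, cls_cons]
    refine ⟨fun d hd a ha => ?_, ?_⟩
    · rw [hw]
      exact mul_pos (hpos d hd a ha) (ihpos d hd a ha)
    · have h1 : ∑ d ∈ D, ∑ a ∈ V,
          -Real.log (w2 τ lam x y z d a (q :: l) (cls D x m d) (cls V y m a)) =
          ∑ d ∈ D, ∑ a ∈ V, -Real.log (gf τ lam (cls D x m d) (fun d' => x d' q) (cls V y m a)
            (fun a' => y a' q) (z q) (x d q) (y a q)) +
          ∑ d ∈ D, ∑ a ∈ V,
            -Real.log (w2 τ lam x y z d a l (cls D x (q :: m) d) (cls V y (q :: m) a)) := by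
        rw [← sum_add_distrib]
        apply sum_congr rfl
        intro d hd
        rw [← sum_add_distrib]
        apply sum_congr rfl
        intro a ha
        rw [hw, Real.log_mul (hpos d hd a ha).ne' (ihpos d hd a ha).ne']
        ring
      rw [h1]
      have h2 : ∑ d ∈ D, info (cls D x m d) (fun d' => x d' q) d =
          ∑ d ∈ D, Real.log (cls D x m d).card -
            ∑ d ∈ D, Real.log (cls D x (q :: m) d).card := by
        rw [← sum_sub_distrib]
        exact sum_congr rfl (fun d hd => cls_info hd)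
      have h3 : ∑ a ∈ V, info (cls V y m a) (fun a' => y a' q) a =
          ∑ a ∈ V, Real.log (cls V y m a).card -
            ∑ a ∈ V, Real.log (cls V y (q :: m) a).card := by
        rw [← sum_sub_distrib]
        exact sum_congr rfl (fun d hd => cls_info hd)
      rw [h2, h3] at hcost
      linarith

end cost

section step

variable {α ι : Type*} [DecidableEq ι]

/-- **Entropy product step.** -/
theorem prod_stepE {τ lam : ℝ} (hτ0 : 0 < τ) (hτ1 : τ ≤ 1 / 2) (hl0 : 0 < lam) (hl1 : lam ≤ 1 / 2)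
    {κ : ℝ} (hκ0 : 0 ≤ κ) {η : ℝ} (hη0 : 0 ≤ η)
    (hη : ((2 * τ + 1) / (-Real.log τ) + τ) + 2 * lam / τ +
      (1 / τ + 1 + (-Real.log lam) / τ) * κ ≤ η)
    {A : Finset α} (hAne : A.Nonempty) (vec : α → ι →₀ ℤ) (z : ι → ℤ)
    (hκ : ∀ q, ((A.filter (fun a => vec a q ≠ z q)).card : ℝ) ≤ κ * A.card)
    {R : ℝ} (hR0 : 0 < R)
    (hR : ∀ b : ι →₀ ℤ, ((A.filter (fun a => vec a = b)).card : ℝ) ≤ R)
    {D : Finset (ι →₀ ℤ)} (hDne : D.Nonempty) :
    Real.log D.card + Real.log A.card - Real.log R -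
      η * (Real.log D.card + Real.log A.card) ≤
      Real.log ((image₂ (· + ·) D (A.image vec)).card : ℝ) := by
  classical
  set S : Finset ι := D.biUnion Finsupp.support with hS
  set l := S.toList with hl
  have hsep : ∀ d ∈ D, ∀ d' ∈ D, (∀ q ∈ l, d q = d' q) → d = d' := by
    intro d hd d' hd' h
    ext q
    by_cases hq : q ∈ S
    · exact h q (mem_toList.2 hq)
    · have h1 : d q = 0 := by
        by_contra hne
        exact hq (mem_biUnion.2 ⟨d, hd, Finsupp.mem_support_iff.2 hne⟩)
      have h2 : d' q = 0 := by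
        by_contra hne
        exact hq (mem_biUnion.2 ⟨d', hd', Finsupp.mem_support_iff.2 hne⟩)
      rw [h1, h2]
  obtain ⟨hwpos', hcost⟩ := w2_cost hτ0 hτ1 hl0 hl1 D A (fun d : ι →₀ ℤ => (d : ι → ℤ))
    (fun a => (vec a : ι → ℤ)) z hκ0 hκ hη0 hη l []
  simp only [cls_nil] at hwpos' hcost
  rw [sum_const, sum_const, nsmul_eq_mul, nsmul_eq_mul] at hcost
  let w : (ι →₀ ℤ) × α → ℝ := fun e => w2 τ lam (fun d : ι →₀ ℤ => (d : ι → ℤ))
    (fun a => (vec a : ι → ℤ)) z e.1 e.2 l D A / R
  have hwpos : ∀ e ∈ D ×ˢ A, 0 < w e := by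
    intro e he
    rw [mem_product] at he
    exact div_pos (hwpos' e.1 he.1 e.2 he.2) hR0
  have hker : ∀ s, ∑ e ∈ (D ×ˢ A).filter (fun e => e.1 + vec e.2 = s), w e ≤ 1 := by
    intro s
    have h1 := w2_sum (τ := τ) (lam := lam) (by linarith) hl0.le (by linarith) hR0.le
      (fun d : ι →₀ ℤ => (d : ι → ℤ)) (fun a => (vec a : ι → ℤ)) z (s : ι → ℤ) l D A hsep (by
        intro d _
        refine le_trans ?_ (hR (s - d))
        apply Nat.cast_le.2
        apply card_le_card
        intro a ha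
        rw [mem_filter] at ha ⊢
        refine ⟨ha.1, ?_⟩
        ext q
        have := congrFun ha.2 q
        rw [Pi.add_apply] at this
        rw [Finsupp.sub_apply]
        omega)
    have h2 : ∑ e ∈ (D ×ˢ A).filter (fun e => e.1 + vec e.2 = s), w e =
        (∑ d ∈ D, ∑ a ∈ A.filter (fun a => (d : ι → ℤ) + (vec a : ι → ℤ) = (s : ι → ℤ)),
          w2 τ lam (fun d : ι →₀ ℤ => (d : ι → ℤ)) (fun a => (vec a : ι → ℤ)) z d a l D A) / R := by
      rw [sum_filter, sum_product, sum_div]
      apply sum_congr rfl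
      intro d _
      rw [← sum_filter, sum_div]
      apply sum_congr
      · apply filter_congr
        intro a _
        rw [← Finsupp.coe_add]
        exact ⟨fun h => by rw [h], fun h => DFunLike.coe_injective h⟩
      · intro a _
        rfl
    rw [h2, div_le_one hR0]
    exact h1
  have hmain := log_image_ge' (hDne.product hAne)
    (fun e : (ι →₀ ℤ) × α => e.1 + vec e.2) w hwpos hker
  have himg : (D ×ˢ A).image (fun e : (ι →₀ ℤ) × α => e.1 + vec e.2) =
      image₂ (· + ·) D (A.image vec) := by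
    ext y
    simp only [mem_image, mem_image₂, mem_product, Prod.exists]
    constructor
    · rintro ⟨d, a, ⟨hd, ha⟩, rfl⟩
      exact ⟨d, hd, _, ⟨a, ha, rfl⟩, rfl⟩
    · rintro ⟨d, hd, _, ⟨a, ha, rfl⟩, rfl⟩
      exact ⟨d, a, ⟨hd, ha⟩, rfl⟩
  have hD0 : (0:ℝ) < D.card := by exact_mod_cast card_pos.2 hDne
  have hA0 : (0:ℝ) < A.card := by exact_mod_cast card_pos.2 hAne
  rw [himg, card_product] at hmain
  push_cast at hmain
  rw [Real.log_mul hD0.ne' hA0.ne'] at hmain
  have h3 : -∑ e ∈ D ×ˢ A, Real.log (w e) ≤ (D.card : ℝ) * A.card *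
      (Real.log R + η * (Real.log D.card + Real.log A.card)) := by
    rw [sum_product, ← sum_neg_distrib]
    have h4 : ∀ d ∈ D, -∑ a ∈ A, Real.log (w (d, a)) = A.card * Real.log R +
        ∑ a ∈ A, -Real.log (w2 τ lam (fun d : ι →₀ ℤ => (d : ι → ℤ))
          (fun a => (vec a : ι → ℤ)) z d a l D A) := by
      intro d hd
      rw [← sum_neg_distrib, ← nsmul_eq_mul, ← sum_const, ← sum_add_distrib]
      apply sum_congr rfl
      intro a ha
      show -Real.log (w2 τ lam (fun d : ι →₀ ℤ => (d : ι → ℤ))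
          (fun a => (vec a : ι → ℤ)) z d a l D A / R) = _
      rw [Real.log_div (hwpos' d hd a ha).ne' hR0.ne']
      ring
    rw [sum_congr rfl h4, sum_add_distrib, sum_const, nsmul_eq_mul]
    have h5 : (D.card : ℝ) * A.card *
      (Real.log R + η * (Real.log D.card + Real.log A.card)) =
      D.card * (A.card * Real.log R) + (η * (A.card * (D.card * Real.log D.card)) +
        η * (D.card * (A.card * Real.log A.card))) := by ring
    rw [h5]
    linarith
  have h10 : (1 / ((D.card : ℝ) * A.card)) * (-∑ e ∈ D ×ˢ A, Real.log (w e)) ≤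
      Real.log R + η * (Real.log D.card + Real.log A.card) := by
    have h11 := mul_le_mul_of_nonneg_left h3
      (by positivity : 0 ≤ 1 / ((D.card : ℝ) * A.card))
    refine h11.trans (le_of_eq ?_)
    field_simp
  have h16 : (1 / ((D.card : ℝ) * A.card)) * (-∑ e ∈ D ×ˢ A, Real.log (w e)) =
      -((1 / ((D.card : ℝ) * A.card)) * ∑ e ∈ D ×ˢ A, Real.log (w e)) := by ring
  rw [h16] at h10
  linarith

/-- **Iterated entropy product step.** -/
theorem prod_iterE {τ lam : ℝ} (hτ0 : 0 < τ) (hτ1 : τ ≤ 1 / 2) (hl0 : 0 < lam) (hl1 : lam ≤ 1 / 2)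
    {κ : ℝ} (hκ0 : 0 ≤ κ) {η : ℝ} (hη0 : 0 ≤ η)
    (hη : ((2 * τ + 1) / (-Real.log τ) + τ) + 2 * lam / τ +
      (1 / τ + 1 + (-Real.log lam) / τ) * κ ≤ η)
    {A : Finset α} (hAne : A.Nonempty) (vec : α → ι →₀ ℤ) (z : ι → ℤ)
    (hκ : ∀ q, ((A.filter (fun a => vec a q ≠ z q)).card : ℝ) ≤ κ * A.card)
    {R : ℝ} (hR0 : 0 < R)
    (hR : ∀ b : ι →₀ ℤ, ((A.filter (fun a => vec a = b)).card : ℝ) ≤ R)
    (k N : ℕ) (hAN : A.card ≤ N) :
    (k : ℝ) * (Real.log A.card - Real.log R - η * (((k:ℝ) + 1) * Real.log N)) ≤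
      Real.log ((vI (A.image vec) k).card : ℝ) := by
  classical
  have hA1 : 1 ≤ A.card := card_pos.2 hAne
  have hN1 : 1 ≤ N := hA1.trans hAN
  have hN1' : (1:ℝ) ≤ N := by exact_mod_cast hN1
  have hLN : 0 ≤ Real.log N := Real.log_nonneg hN1'
  have hA0 : (0:ℝ) < A.card := by exact_mod_cast card_pos.2 hAne
  have hLA : Real.log A.card ≤ Real.log N := Real.log_le_log hA0 (by exact_mod_cast hAN)
  set B := A.image vec with hB
  have hBne : B.Nonempty := hAne.image _
  have hBN : B.card ≤ N := card_image_le.trans hAN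
  have key : ∀ j : ℕ, j ≤ k → (j : ℝ) * (Real.log A.card - Real.log R -
      η * (((k:ℝ) + 1) * Real.log N)) ≤ Real.log ((vI B j).card : ℝ) := by
    intro j
    induction j with
    | zero => intro _; simp [vI]
    | succ j ih =>
      intro hj
      have ih' := ih (by omega)
      have hne := vI_nonempty hBne j
      have h2 := prod_stepE hτ0 hτ1 hl0 hl1 hκ0 hη0 hη hAne vec z hκ hR0 hR hne
      have hD0 : (0:ℝ) < ((vI B j).card : ℝ) := by exact_mod_cast card_pos.2 hne
      have hDN : ((vI B j).card : ℝ) ≤ (N:ℝ) ^ k := by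
        have h1 : (vI B j).card ≤ N ^ k :=
          (vI_card B j).trans ((Nat.pow_le_pow_left hBN j).trans
            (Nat.pow_le_pow_right hN1 (by omega)))
        exact_mod_cast h1
      have hLD : Real.log ((vI B j).card : ℝ) ≤ k * Real.log N := by
        rw [← Real.log_pow]
        exact Real.log_le_log hD0 hDN
      have h6 : η * (Real.log ((vI B j).card : ℝ) + Real.log A.card) ≤
          η * (((k:ℝ) + 1) * Real.log N) := by
        apply mul_le_mul_of_nonneg_left _ hη0
        linarith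
      have h7 : image₂ (· + ·) (vI B j) B = vI B (j + 1) := rfl
      rw [← hB, h7] at h2
      push_cast at h2 ⊢
      linarith
  exact key k le_rfl

end step

/-- the parameters of the entropy step -/
theorem exists_params {η : ℝ} (hη : 0 < η) : ∃ τ lam κ : ℝ, 0 < τ ∧ τ ≤ 1 / 2 ∧ 0 < lam ∧
    lam ≤ 1 / 2 ∧ 0 < κ ∧ ((2 * τ + 1) / (-Real.log τ) + τ) + 2 * lam / τ +
      (1 / τ + 1 + (-Real.log lam) / τ) * κ ≤ η := by
  -- choose τ = min (η/4) (exp (-8/η)) (1/2)
  set τ : ℝ := min (1 / 2) (min (η / 4) (Real.exp (-(8 / η)))) with hτ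
  have hτ0 : 0 < τ := by
    rw [hτ]; exact lt_min (by norm_num) (lt_min (by positivity) (Real.exp_pos _))
  have hτ1 : τ ≤ 1 / 2 := min_le_left _ _
  have hτ2 : τ ≤ η / 4 := (min_le_right _ _).trans (min_le_left _ _)
  have hτ3 : τ ≤ Real.exp (-(8 / η)) := (min_le_right _ _).trans (min_le_right _ _)
  have hΛ : 8 / η ≤ -Real.log τ := by
    have := Real.log_le_log hτ0 hτ3
    rw [Real.log_exp] at this
    linarith
  have hΛ0 : 0 < -Real.log τ := lt_of_lt_of_le (by positivity) hΛ
  set lam : ℝ := min (1 / 2) (η * τ / 8) with hlam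
  have hl0 : 0 < lam := by rw [hlam]; exact lt_min (by norm_num) (by positivity)
  have hl1 : lam ≤ 1 / 2 := min_le_left _ _
  have hl2 : lam ≤ η * τ / 8 := min_le_right _ _
  have hll : 0 < -Real.log lam := by
    rw [neg_pos]; exact Real.log_neg hl0 (by linarith)
  set c₃ := 1 / τ + 1 + (-Real.log lam) / τ with hc₃
  have hc₃0 : 0 < c₃ := by positivity
  refine ⟨τ, lam, η / 4 / c₃, hτ0, hτ1, hl0, hl1, by positivity, ?_⟩
  have e1 : (2 * τ + 1) / (-Real.log τ) ≤ η / 4 := by
    rw [div_le_iff₀ hΛ0]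
    calc 2 * τ + 1 ≤ 2 := by linarith
      _ = η / 4 * (8 / η) := by field_simp; norm_num
      _ ≤ η / 4 * (-Real.log τ) := by gcongr
  have e2 : 2 * lam / τ ≤ η / 4 := by
    rw [div_le_iff₀ hτ0]
    linarith
  have e3 : c₃ * (η / 4 / c₃) = η / 4 := by field_simp
  rw [e3]
  linarith

end Pool.Agent.Helper2.E
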