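import Pool.Agent.Helper2.ECoset2
import Pool.Agent.Helper2.EProdE2
import Pool.Agent.Helper2.EFinal2

set_option autoImplicit false

/-!
Assembly of the theorem for sets with few popular primes (popular coordinates).
-/

open Finset

namespace Pool.Agent.Helper2.E

open Pool.Agent.Helper5 (sI pI kS kP sI_subset pI_subset kS_nonempty)

/-- a large part of one sign -/
theorem exists_sign (A : Finset ℤ) (hA : 2 ≤ A.card) : ∃ A' ⊆ A, A.card ≤ 4 * A'.card ∧
    (∀ a ∈ A', a ≠ 0) ∧ (∀ a ∈ A', ∀ a' ∈ A', ∀ x y : ℚ, |(a : ℚ)| * x = |(a' : ℚ)| * y →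
      (a : ℚ) * x = (a' : ℚ) * y) := by
  classical
  have h1 : A.card ≤ (A.filter (fun a => 0 < a)).card + (A.filter (fun a => a < 0)).card + 1 := by
    have h2 : A ⊆ (A.filter (fun a => 0 < a) ∪ A.filter (fun a => a < 0)) ∪ {0} := by
      intro a ha
      rw [mem_union, mem_union, mem_filter, mem_filter, mem_singleton]
      rcases lt_trichotomy a 0 with h | h | h
      · exact Or.inl (Or.inr ⟨ha, h⟩)
      · exact Or.inr h
      · exact Or.inl (Or.inl ⟨ha, h⟩)
    have h3 := (card_le_card h2).trans (card_union_le _ _)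
    have h4 := card_union_le (A.filter (fun a => 0 < a)) (A.filter (fun a => a < 0))
    rw [card_singleton] at h3
    omega
  rcases le_total (A.filter (fun a => a < 0)).card (A.filter (fun a => 0 < a)).card with h | h
  · refine ⟨A.filter (fun a => 0 < a), filter_subset _ _, by omega, ?_, ?_⟩
    · intro a ha; exact (mem_filter.1 ha).2.ne'
    · intro a ha a' ha' x y hxy
      have e1 : (0:ℚ) < a := by exact_mod_cast (mem_filter.1 ha).2
      have e2 : (0:ℚ) < a' := by exact_mod_cast (mem_filter.1 ha').2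
      rw [abs_of_pos e1, abs_of_pos e2] at hxy
      exact hxy
  · refine ⟨A.filter (fun a => a < 0), filter_subset _ _, by omega, ?_, ?_⟩
    · intro a ha; exact (mem_filter.1 ha).2.ne
    · intro a ha a' ha' x y hxy
      have e1 : (a:ℚ) < 0 := by exact_mod_cast (mem_filter.1 ha).2
      have e2 : (a':ℚ) < 0 := by exact_mod_cast (mem_filter.1 ha').2
      rw [abs_of_neg e1, abs_of_neg e2] at hxy
      linarith

/-- **Sum side**: many elements in the coset `a Γ`, `Γ` generated by few elements. -/
theorem sum_side (k : ℕ) (hk : 1 ≤ k) {ε ε₁ : ℝ} (hε : 0 < ε) (hε₁0 : 0 < ε₁) :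
    ∃ c₁ K₁ : ℝ, 0 < c₁ ∧ 0 ≤ K₁ ∧ ∀ (ι : Type) (g : ι → ℚ), (∀ i, 0 < g i) →
      ∀ (T : Finset ι) (n : ℕ), (T.card : ℝ) ≤ c₁ * Real.log n →
      ∀ A : Finset ℤ, A.Nonempty → A.card ≤ n → (∀ a ∈ A, a ≠ 0) →
      (∀ a ∈ A, ∀ a' ∈ A, ∀ x y : ℚ, |(a : ℚ)| * x = |(a' : ℚ)| * y →
        (a : ℚ) * x = (a' : ℚ) * y) →
      ∀ F : ℤ → Finset ℤ, (∀ a ∈ A, F a ⊆ A) →
      (∀ a ∈ A, Real.exp (ε₁ * Real.log n) ≤ ((F a).card : ℝ)) →
      (∀ a ∈ A, ∀ a' ∈ F a, ∃ x : ι →₀ ℤ, x.support ⊆ T ∧ |(a' : ℚ)| = |(a : ℚ)| * ev g x) →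
      (k : ℝ) * Real.log A.card - ε * Real.log n - K₁ ≤ Real.log ((sI A k).card : ℝ) := by
  classical
  have hk0 : (0:ℝ) < k := by exact_mod_cast hk
  have hk1 : (1:ℝ) ≤ k := by exact_mod_cast hk
  set θ : ℝ := min (1 / 2) (ε / (8 * k * (k + 1))) with hθdef
  have hθ0 : 0 < θ := by
    rw [hθdef]; apply lt_min (by norm_num) (by positivity)
  have hθ1 : θ ≤ 1 / 2 := min_le_left _ _
  have hθ2 : θ ≤ ε / (8 * k * (k + 1)) := min_le_right _ _
  set lam : ℝ := ε₁ / (4 * (k + 1)) with hlam
  have hlam0 : 0 < lam := by positivity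
  obtain ⟨b, C, hb, hC, hsum⟩ := sum_iter_rat hθ0 hθ1 hlam0
  have hlogC : 0 ≤ Real.log C := Real.log_nonneg hC
  have hlogθ : 0 ≤ Real.log (1 / θ) := by
    apply Real.log_nonneg
    rw [le_div_iff₀ hθ0]; linarith
  set Y : ℝ := Real.log (1 / θ) + 2 + b + 1 with hY
  have hYpos : 0 < Y := by linarith
  set c₁ : ℝ := min (ε / (4 * k * Y)) (ε₁ / 4 / (Real.log C + 1)) with hc₁
  have hc₁0 : 0 < c₁ := lt_min (by positivity) (by positivity)
  have hc₁le : c₁ ≤ ε / (4 * k * Y) := min_le_left _ _
  have hb4 : c₁ * Real.log C ≤ ε₁ / 4 := by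
    calc c₁ * Real.log C ≤ ε₁ / 4 / (Real.log C + 1) * Real.log C := by
          gcongr; exact min_le_right _ _
      _ = ε₁ / 4 * (Real.log C / (Real.log C + 1)) := by ring
      _ ≤ ε₁ / 4 * 1 := by
          apply mul_le_mul_of_nonneg_left _ (by positivity)
          rw [div_le_one (by linarith)]; linarith
      _ = ε₁ / 4 := mul_one _
  have hb3 : k * c₁ * (Real.log (1 / θ) + 2 + b) ≤ ε / 4 := by
    calc k * c₁ * (Real.log (1 / θ) + 2 + b) ≤ k * c₁ * Y := by
          apply mul_le_mul_of_nonneg_left _ (by positivity)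
          rw [hY]; linarith
      _ ≤ k * (ε / (4 * k * Y)) * Y := by gcongr
      _ = ε / 4 := by field_simp
  set K₁ : ℝ := k * (k * (2 / ε₁)) with hK₁
  refine ⟨c₁, K₁, hc₁0, by positivity, ?_⟩
  intro ι g hg T n hT A hA hAn hA0 hsign F hFA hF hcos
  have hA1 : 1 ≤ A.card := card_pos.2 hA
  have hn1 : 1 ≤ n := hA1.trans hAn
  have hn1' : (1 : ℝ) ≤ n := by exact_mod_cast hn1
  have hnpos : (0 : ℝ) < n := by linarith
  set L := Real.log n with hL
  have hL0 : 0 ≤ L := Real.log_nonneg hn1'
  set R : ℝ := Real.exp (ε₁ * L) with hR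
  have hR0 : 0 < R := Real.exp_pos _
  have hA0' : (0:ℤ) ∉ A := fun h => hA0 0 h rfl
  obtain ⟨P, hPprime, hPS, hPinj⟩ := exists_primes' hg T
  have hPL : (P.card : ℝ) ≤ c₁ * L := le_trans (by exact_mod_cast hPS) hT
  obtain ⟨u, hu0, hu1, hu2⟩ := exists_mult' hg T P hPprime hPinj A hA0
  have hRfib : ∀ a ∈ A, R ≤
      ((A.filter (fun a' : ℤ => (a' : ℚ) / u a' = (a : ℚ) / u a)).card : ℝ) := by
    intro a ha
    refine (hF a ha).trans ?_
    apply Nat.cast_le.2
    apply card_le_card
    intro a' ha'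
    have ha'A := hFA a ha ha'
    rw [mem_filter]
    refine ⟨ha'A, ?_⟩
    have h2 := hu2 a' ha'A a ha (hcos a ha a' ha')
    rw [div_eq_mul_inv, div_eq_mul_inv] at h2 ⊢
    exact hsign a' ha'A a ha _ _ h2
  have hsumk := hsum P hPprime A hA hA0' u (fun a _ => hu0 a) hu1 R hR0 hRfib n k hAn k le_rfl
  refine le_trans ?_ hsumk
  have hCpos : 0 < C := by linarith
  have h1 : C ^ P.card * (n : ℝ) ^ (lam * (k + 1)) / R ≤ Real.exp (-(ε₁ / 2 * L)) := by
    have e1 : C ^ P.card ≤ Real.exp (ε₁ / 4 * L) := by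
      have : C ^ P.card = Real.exp (P.card * Real.log C) := by
        rw [← Real.log_pow, Real.exp_log (by positivity)]
      rw [this]
      apply Real.exp_le_exp.2
      calc (P.card : ℝ) * Real.log C ≤ (c₁ * L) * Real.log C := by gcongr
        _ = (c₁ * Real.log C) * L := by ring
        _ ≤ ε₁ / 4 * L := by gcongr
    have e2 : (n : ℝ) ^ (lam * (k + 1)) = Real.exp (ε₁ / 4 * L) := by
      rw [Real.rpow_def_of_pos hnpos]
      congr 1
      rw [hlam]
      field_simp
      exact hL.symm
    rw [e2, div_le_iff₀ hR0, hR, ← Real.exp_add]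
    calc C ^ P.card * Real.exp (ε₁ / 4 * L)
        ≤ Real.exp (ε₁ / 4 * L) * Real.exp (ε₁ / 4 * L) := by gcongr
      _ = Real.exp (-(ε₁ / 2 * L) + ε₁ * L) := by
          rw [← Real.exp_add]; congr 1; ring
  have h2 : (k * L) * (C ^ P.card * (n : ℝ) ^ (lam * (k + 1)) / R) ≤ k * (2 / ε₁) := by
    calc (k * L) * (C ^ P.card * (n : ℝ) ^ (lam * (k + 1)) / R)
        ≤ (k * L) * Real.exp (-(ε₁ / 2 * L)) := by gcongr
      _ = k * (L * Real.exp (-(ε₁ / 2 * L))) := by ring
      _ ≤ k * (1 / (ε₁ / 2)) := by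
          apply mul_le_mul_of_nonneg_left (mul_exp_neg_le (by positivity)) hk0.le
      _ = k * (2 / ε₁) := by congr 1; field_simp
  have h3 : (P.card : ℝ) * (Real.log (1 / θ) + 2 + b) ≤
      c₁ * L * (Real.log (1 / θ) + 2 + b) := by gcongr
  have h4 : (k:ℝ) * (Real.log A.card -
      (c₁ * L * (Real.log (1 / θ) + 2 + b) + 2 * θ * ((k + 1) * L) + k * (2 / ε₁))) ≤
      (k:ℝ) * (Real.log A.card - ((P.card : ℝ) * (Real.log (1 / θ) + 2 + b) +
    2 * θ * (((k:ℝ) + 1) * Real.log n) +
    (k * Real.log n) * (C ^ P.card * (n : ℝ) ^ (lam * (k + 1)) / R))) := by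
    apply mul_le_mul_of_nonneg_left _ hk0.le
    rw [← hL]
    linarith
  refine le_trans ?_ h4
  have h5 : (k:ℝ) * (2 * θ * (k + 1)) ≤ ε / 4 := by
    calc (k:ℝ) * (2 * θ * (k + 1)) = 2 * k * (k + 1) * θ := by ring
      _ ≤ 2 * k * (k + 1) * (ε / (8 * k * (k + 1))) := by gcongr
      _ = ε / 4 := by field_simp; norm_num
  have h10 : (k:ℝ) * (Real.log A.card -
      (c₁ * L * (Real.log (1 / θ) + 2 + b) + 2 * θ * ((k + 1) * L) + k * (2 / ε₁))) =
      k * Real.log A.card - K₁ - (k * c₁ * (Real.log (1 / θ) + 2 + b) +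
        k * (2 * θ * (k + 1))) * L := by rw [hK₁]; ring
  rw [h10]
  have h11 : (k * c₁ * (Real.log (1 / θ) + 2 + b) + k * (2 * θ * (k + 1))) * L ≤ ε * L := by
    apply mul_le_mul_of_nonneg_right _ hL0
    linarith
  linarith

theorem coreP (k : ℕ) (hk : 1 ≤ k) (ε : ℝ) (hε : 0 < ε) :
    ∃ c : ℝ, 0 < c ∧ ∀ (ι : Type) (g : ι → ℚ), (∀ i, 0 < g i) →
      ∀ M : ℝ, (∀ e : ι →₀ ℤ, (e.support.card : ℝ) ≤ M → ev g e = 1 → e = 0) →
      ∀ A : Finset ℤ, A.Nonempty → ∀ e : ℤ → ι →₀ ℤ,
      (∀ a ∈ A, a ≠ 0 → |(a : ℚ)| = ev g (e a) ∧ ((e a).support.card : ℝ) ≤ c * M) →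
      ∀ T : Finset ι, (T.card : ℝ) ≤ c * Real.log A.card →
      (∀ i, i ∉ T → ∃ z : ℤ, ((A.filter (fun a => e a i ≠ z)).card : ℝ) ≤ c * A.card) →
      c * (A.card : ℝ) ^ ((k : ℝ) - ε) ≤ max ((kS k A).card : ℝ) ((kP k A).card : ℝ) := by
  classical
  have hk0 : (0:ℝ) < k := by exact_mod_cast hk
  have hk1 : (1:ℝ) ≤ k := by exact_mod_cast hk
  -- parameters
  set ε₁ : ℝ := ε / (4 * k) with hε₁
  have hε₁0 : 0 < ε₁ := by positivity
  obtain ⟨c₁, K₁, hc₁0, hK₁0, hsum⟩ := sum_side k hk hε hε₁0
  obtain ⟨τ, lam, κ, hτ0, hτ1, hl0, hl1, hκ0, hpar⟩ :=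
    exists_params (η := ε / (4 * k * (k + 1))) (by positivity)
  set η : ℝ := ε / (4 * k * (k + 1)) with hη
  have hη0 : 0 < η := by positivity
  set K₂ : ℝ := K₁ + k * Real.log 8 with hK₂
  have hlog8 : 0 < Real.log 8 := Real.log_pos (by norm_num)
  have hK₂0 : 0 ≤ K₂ := by positivity
  refine ⟨min (min c₁ (κ / 8)) (min (1 / (2 * k)) (Real.exp (-K₂))),
    lt_min (lt_min hc₁0 (by positivity)) (lt_min (by positivity) (Real.exp_pos _)), ?_⟩
  intro ι g hg M hrel A hAne e he T hT hpop
  set c := min (min c₁ (κ / 8)) (min (1 / (2 * k)) (Real.exp (-K₂))) with hc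
  have hcc₁ : c ≤ c₁ := (min_le_left _ _).trans (min_le_left _ _)
  have hcκ : c ≤ κ / 8 := (min_le_left _ _).trans (min_le_right _ _)
  have hck : c ≤ 1 / (2 * k) := (min_le_right _ _).trans (min_le_left _ _)
  have hcK : c ≤ Real.exp (-K₂) := (min_le_right _ _).trans (min_le_right _ _)
  have hcpos : 0 < c := lt_min (lt_min hc₁0 (by positivity))
    (lt_min (by positivity) (Real.exp_pos _))
  clear_value c
  set n := A.card with hn
  have hn1 : 1 ≤ n := card_pos.mpr hAne
  have hn1' : (1 : ℝ) ≤ n := by exact_mod_cast hn1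
  have hnpos : (0 : ℝ) < n := by linarith
  have hmax1 : (1 : ℝ) ≤ max ((kS k A).card : ℝ) ((kP k A).card : ℝ) := by
    apply le_max_of_le_left
    exact_mod_cast card_pos.mpr (kS_nonempty k hAne)
  rcases Nat.lt_or_ge n 2 with hlt | hge
  · have hn1'' : n = 1 := by omega
    rw [hn1'']
    have : c ≤ 1 := hcK.trans (Real.exp_le_one_iff.2 (by linarith))
    simp only [Nat.cast_one, Real.one_rpow, mul_one]
    linarith
  · set L := Real.log n with hL
    have hL0 : 0 ≤ L := Real.log_nonneg hn1'
    obtain ⟨A', hA'A, hA'card, hA'ne0, hsign⟩ := exists_sign A hge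
    have hA'ne : A'.Nonempty := by rw [← card_pos]; omega
    have hA'n : A'.card ≤ n := card_le_card hA'A
    have hev : ∀ a ∈ A', |(a : ℚ)| = ev g (e a) := fun a ha =>
      (he a (hA'A ha) (hA'ne0 a ha)).1
    have hsup : ∀ a ∈ A', ((e a).support.card : ℝ) ≤ c * M := fun a ha =>
      (he a (hA'A ha) (hA'ne0 a ha)).2
    have heinj : Set.InjOn e (A' : Set ℤ) := by
      intro a ha a' ha' h
      have h1 : |(a : ℚ)| * 1 = |(a' : ℚ)| * 1 := by rw [hev a ha, hev a' ha', h]
      have h2 := hsign a ha a' ha' 1 1 h1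
      simp only [mul_one] at h2
      exact_mod_cast h2
    -- it suffices to bound the logarithm
    have hfin : ∀ m : ℕ, 1 ≤ m → (k:ℝ) * L - ε * L - K₂ ≤ Real.log m →
        (m:ℝ) ≤ max ((kS k A).card : ℝ) ((kP k A).card : ℝ) →
        c * (n : ℝ) ^ ((k : ℝ) - ε) ≤ max ((kS k A).card : ℝ) ((kP k A).card : ℝ) := by
      intro m hm1 hlog hm
      refine le_trans ?_ hm
      have hmpos : (0:ℝ) < m := by exact_mod_cast hm1
      calc c * (n : ℝ) ^ ((k : ℝ) - ε)
          ≤ Real.exp (-K₂) * Real.exp (((k:ℝ) - ε) * L) := by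
            apply mul_le_mul hcK _ (by positivity) (Real.exp_pos _).le
            rw [Real.rpow_def_of_pos hnpos, mul_comm]
        _ = Real.exp ((k:ℝ) * L - ε * L - K₂) := by
            rw [← Real.exp_add]; congr 1; ring
        _ ≤ Real.exp (Real.log m) := Real.exp_le_exp.2 hlog
        _ = m := Real.exp_log hmpos
    set R : ℝ := Real.exp (ε₁ * L) with hR
    have hR0 : 0 < R := Real.exp_pos _
    set fib : ℤ → Finset ℤ := fun a => A'.filter (fun a' => off T (e a') = off T (e a)) with hfib
    set As := A'.filter (fun a => ((fib a).card : ℝ) ≤ R) with hAs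
    set Al := A'.filter (fun a => ¬ ((fib a).card : ℝ) ≤ R) with hAl
    have hsplit : As.card + Al.card = A'.card := card_filter_add_card_filter_not _
    have hlog8' : ∀ m : ℕ, 0 < m → n ≤ 8 * m → L - Real.log 8 ≤ Real.log m := by
      intro m hm h
      have hm' : (0:ℝ) < m := by exact_mod_cast hm
      have h1 : (n : ℝ) ≤ 8 * m := by exact_mod_cast h
      have h2 := Real.log_le_log hnpos h1
      rw [Real.log_mul (by norm_num) hm'.ne'] at h2
      linarith
    rcases le_total Al.card As.card with hcase | hcase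
    · -- product side
      have hAspos : 0 < As.card := by omega
      have hAsne : As.Nonempty := card_pos.1 hAspos
      have hAsA' : As ⊆ A' := filter_subset _ _
      have hAsA : As ⊆ A := hAsA'.trans hA'A
      have hAsn : As.card ≤ n := card_le_card hAsA
      have h8 : n ≤ 8 * As.card := by omega
      choose! z hz using hpop
      have hprod := prod_iterE hτ0 hτ1 hl0 hl1 hκ0.le hη0.le hpar (A := As) hAsne
        (fun a => off T (e a)) (fun i => if i ∈ T then 0 else z i) (by
          intro q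
          simp only [off_apply]
          by_cases hq : q ∈ T
          · simp only [if_pos hq, ne_eq, not_true_eq_false, filter_false, card_empty,
              Nat.cast_zero]
            positivity
          · simp only [if_neg hq]
            have h1 : ((As.filter (fun a => e a q ≠ z q)).card : ℝ) ≤
                ((A.filter (fun a => e a q ≠ z q)).card : ℝ) := by
              apply Nat.cast_le.2
              exact card_le_card (filter_subset_filter _ hAsA)
            refine h1.trans ((hz q hq).trans ?_)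
            have h2 : (n : ℝ) ≤ 8 * As.card := by exact_mod_cast h8
            calc c * (n:ℝ) ≤ κ / 8 * (8 * As.card) := by gcongr
              _ = κ * As.card := by ring) hR0 (by
          intro b
          rcases (As.filter (fun a => off T (e a) = b)).eq_empty_or_nonempty with h0 | ⟨a, ha⟩
          · rw [h0]; simpa using hR0.le
          · rw [mem_filter] at ha
            have ha2 := (mem_filter.1 ha.1).2
            refine le_trans ?_ ha2
            rw [← ha.2]
            apply Nat.cast_le.2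
            apply card_le_card
            intro a' ha'
            rw [mem_filter] at ha'
            exact mem_filter.2 ⟨hAsA' ha'.1, ha'.2⟩) k n hAsn
      -- from vectors to products
      set s := ⌊c * M⌋₊ with hs
      have hωV : ∀ v ∈ As.image e, v.support.card ≤ s := by
        intro v hv
        obtain ⟨a, ha, rfl⟩ := mem_image.1 hv
        exact Nat.le_floor (hsup a (hAsA' ha))
      have hcM : 0 ≤ c * M := by
        obtain ⟨a, ha⟩ := hAsne
        exact le_trans (Nat.cast_nonneg _) (hsup a (hAsA' ha))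
      have hM0 : 0 ≤ M := nonneg_of_mul_nonneg_right hcM hcpos
      have hks : (2 * k * s : ℝ) ≤ M := by
        have hsL : (s:ℝ) ≤ c * M := Nat.floor_le hcM
        calc (2 * k * s : ℝ) ≤ 2 * k * (c * M) := by gcongr
          _ ≤ 2 * k * (1 / (2 * k) * M) := by gcongr
          _ = M := by field_simp
      have hVne : (As.image e).Nonempty := hAsne.image _
      have hpk : ((vI (As.image e) k).card : ℝ) ≤
          max ((kS k A).card : ℝ) ((kP k A).card : ℝ) := by
        apply le_max_of_le_right
        apply Nat.cast_le.2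
        choose! x hx hxv using vI_prod hg (A := As) (e := e) (fun a ha => hev a (hAsA' ha)) k
        apply card_le_card_of_injOn x
        · intro v hv
          exact mem_coe.2 (pI_subset hAsA k (hx v (mem_coe.1 hv)))
        · intro v hv v' hv' h
          rw [mem_coe] at hv hv'
          have h1 : ev g v = ev g v' := by rw [← hxv v hv, ← hxv v' hv', h]
          have h2 : ev g (v - v') = 1 := by
            rw [ev_sub hg, h1, div_self (ev_pos hg v').ne']
          have h3 : (v - v').support.card ≤ 2 * (k * s) := by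
            have e1 := (card_le_card (Finsupp.support_sub (f := v) (g := v'))).trans
              (card_union_le _ _)
            have e2 := vI_support hωV k v hv
            have e3 := vI_support hωV k v' hv'
            omega
          have h4 : v - v' = 0 := by
            apply hrel _ _ h2
            calc ((v - v').support.card : ℝ) ≤ ((2 * (k * s) : ℕ) : ℝ) := by exact_mod_cast h3
              _ = 2 * k * s := by push_cast; ring
              _ ≤ M := hks
          exact sub_eq_zero.1 h4
      have hvIne : 1 ≤ (vI (As.image e) k).card := card_pos.2 (vI_nonempty hVne k)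
      refine hfin _ hvIne ?_ hpk
      have himg : As.image (fun a => off T (e a)) = (As.image e).image (off T) := by
        rw [image_image]; rfl
      rw [himg, vI_off] at hprod
      have hle : Real.log (((vI (As.image e) k).image (off T)).card : ℝ) ≤
          Real.log ((vI (As.image e) k).card : ℝ) := by
        apply Real.log_le_log
        · exact_mod_cast card_pos.2 ((vI_nonempty hVne k).image _)
        · exact_mod_cast card_image_le
      refine le_trans ?_ (hprod.trans hle)
      have hlogR : Real.log R = ε₁ * L := by rw [hR, Real.log_exp]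
      rw [hlogR, ← hL]
      have h5 := hlog8' As.card hAspos h8
      have h7 : (k:ℝ) * ε₁ = ε / 4 := by rw [hε₁]; field_simp
      have h6 : (k:ℝ) * (η * (k + 1)) = ε / 4 := by rw [hη]; field_simp
      have h9 : (k:ℝ) * (L - Real.log 8 - ε₁ * L - η * ((k + 1) * L)) ≤
          k * (Real.log As.card - ε₁ * L - η * ((k + 1) * L)) := by
        apply mul_le_mul_of_nonneg_left _ hk0.le
        linarith
      refine le_trans ?_ h9
      have h10 : (k:ℝ) * (L - Real.log 8 - ε₁ * L - η * ((k + 1) * L)) =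
          k * L - k * Real.log 8 - (k * ε₁ + k * (η * (k + 1))) * L := by ring
      rw [h10, h7, h6]
      have h11 : (ε / 4 + ε / 4) * L ≤ ε * L := by
        apply mul_le_mul_of_nonneg_right _ hL0
        linarith
      rw [hK₂]
      linarith
    · -- sum side
      have hAlpos : 0 < Al.card := by omega
      have hAlne : Al.Nonempty := card_pos.1 hAlpos
      have hAlA' : Al ⊆ A' := filter_subset _ _
      have hAlA : Al ⊆ A := hAlA'.trans hA'A
      have hAln : Al.card ≤ n := card_le_card hAlA
      have h8 : n ≤ 8 * Al.card := by omega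
      have hsumk := hsum ι g hg T n (hT.trans (by gcongr)) Al hAlne hAln
        (fun a ha => hA'ne0 a (hAlA' ha))
        (fun a ha a' ha' x y h => hsign a (hAlA' ha) a' (hAlA' ha') x y h) fib (by
          intro a ha a' ha'
          have ha2 := (mem_filter.1 ha).2
          have ha'2 := mem_filter.1 ha'
          rw [hAl, mem_filter]
          refine ⟨ha'2.1, ?_⟩
          have : fib a' = fib a := by
            simp only [hfib]; rw [ha'2.2]
          rw [this]
          exact ha2) (by
          intro a ha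
          have ha2 := (mem_filter.1 ha).2
          push Not at ha2
          exact ha2.le) (by
          intro a ha a' ha'
          have ha'2 := mem_filter.1 ha'
          refine ⟨e a' - e a, ?_, ?_⟩
          · intro q hq
            by_contra hqT
            have h1 := DFunLike.congr_fun ha'2.2 q
            rw [off_apply, off_apply, if_neg hqT, if_neg hqT] at h1
            rw [Finsupp.mem_support_iff, Finsupp.sub_apply, h1, sub_self] at hq
            exact hq rfl
          · rw [ev_sub hg, hev a' ha'2.1, hev a (hAlA' ha)]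
            have := (ev_pos hg (e a)).ne'
            field_simp)
      have hsIne : 1 ≤ (sI Al k).card := card_pos.2 (sI_nonempty hAlne k)
      have hsk : ((sI Al k).card : ℝ) ≤ max ((kS k A).card : ℝ) ((kP k A).card : ℝ) := by
        apply le_max_of_le_left
        exact_mod_cast card_le_card (sI_subset hAlA k)
      refine hfin _ hsIne ?_ hsk
      refine le_trans ?_ hsumk
      have h5 := hlog8' Al.card hAlpos h8
      have h9 : (k:ℝ) * (L - Real.log 8) ≤ k * Real.log Al.card := by gcongr
      rw [hK₂, ← hL]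
      linarith

end Pool.Agent.Helper2.E
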