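import Pool.Agent.Helper2.EFinal3

set_option autoImplicit false

/-!
Sumsets of sets with rich cosets of a multiplicative group of small rank.
-/

open Finset

namespace Pool.Agent.Helper2.E

open Pool.Agent.Helper5

/-- the absolute value of a unit -/
def gab (t : ℚˣ) : ℚ := |(t : ℚ)|

theorem gab_pos (t : ℚˣ) : 0 < gab t := abs_pos.2 t.ne_zero

/-- elements of the group generated by `T`, in terms of exponent vectors -/
theorem closure_ev (T : Finset ℚˣ) {γ : ℚˣ} (hγ : γ ∈ Subgroup.closure (T : Set ℚˣ)) :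
    ∃ x : ℚˣ →₀ ℤ, x.support ⊆ T ∧ |(γ : ℚ)| = ev gab x := by
  classical
  induction hγ using Subgroup.closure_induction with
  | mem t ht =>
    refine ⟨Finsupp.single t 1, ?_, ?_⟩
    · intro i hi
      have := Finsupp.support_single_subset hi
      rw [mem_singleton] at this
      subst this
      exact ht
    · unfold ev
      rw [Finsupp.prod_single_index (by simp)]
      simp [gab]
  | one =>
    refine ⟨0, by simp, ?_⟩
    unfold ev
    simp
  | mul a b _ _ ha hb =>
    obtain ⟨x, hx, hx'⟩ := ha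
    obtain ⟨y, hy, hy'⟩ := hb
    refine ⟨x + y, ?_, ?_⟩
    · intro i hi
      rcases mem_union.1 (Finsupp.support_add hi) with h | h
      · exact hx h
      · exact hy h
    · rw [ev_add gab_pos, ← hx', ← hy', Units.val_mul, abs_mul]
  | inv a _ ha =>
    obtain ⟨x, hx, hx'⟩ := ha
    refine ⟨-x, by rw [Finsupp.support_neg]; exact hx, ?_⟩
    rw [ev_neg gab_pos, ← hx', Units.val_inv_eq_inv_val, abs_inv]

/-- same coset up to sign -/
def Rel (T : Finset ℚˣ) (a b : ℤ) : Prop :=
  ∃ x : ℚˣ →₀ ℤ, x.support ⊆ T ∧ |(a : ℚ)| = |(b : ℚ)| * ev gab x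

theorem Rel.refl (T : Finset ℚˣ) (a : ℤ) : Rel T a a := by
  refine ⟨0, by simp, ?_⟩
  unfold ev
  simp

theorem Rel.symm {T : Finset ℚˣ} {a b : ℤ} (h : Rel T a b) : Rel T b a := by
  obtain ⟨x, hx, hx'⟩ := h
  refine ⟨-x, by rw [Finsupp.support_neg]; exact hx, ?_⟩
  rw [ev_neg gab_pos, hx']
  have := (ev_pos gab_pos x).ne'
  field_simp

theorem Rel.trans {T : Finset ℚˣ} {a b d : ℤ} (h : Rel T a b) (h' : Rel T b d) : Rel T a d := by
  classical
  obtain ⟨x, hx, hx'⟩ := h
  obtain ⟨y, hy, hy'⟩ := h'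
  refine ⟨x + y, ?_, ?_⟩
  · intro i hi
    rcases mem_union.1 (Finsupp.support_add hi) with h | h
    · exact hx h
    · exact hy h
  · rw [ev_add gab_pos, hx', hy']
    ring

/-- half of the elements of rich classes have rich classes of their own sign -/
theorem exists_one_sign (T : Finset ℚˣ) (A W : Finset ℤ) (hWA : W ⊆ A) (r : ℝ)
    (hA0 : ∀ a ∈ W, a ≠ 0)
    (hW : ∀ a ∈ W, ∀ F : Finset ℤ, (∀ a', a' ∈ F ↔ a' ∈ A ∧ a' ≠ 0 ∧ Rel T a' a) →
      2 * r ≤ (F.card : ℝ)) :
    ∃ (P : Finset ℤ) (F : ℤ → Finset ℤ), P ⊆ A ∧ W.card ≤ 4 * P.card ∧ (∀ a ∈ P, a ≠ 0) ∧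
      (∀ a ∈ P, ∀ a' ∈ P, ∀ x y : ℚ, |(a : ℚ)| * x = |(a' : ℚ)| * y →
        (a : ℚ) * x = (a' : ℚ) * y) ∧
      (∀ a ∈ P, F a ⊆ P) ∧ (∀ a ∈ P, r ≤ ((F a).card : ℝ)) ∧
      (∀ a ∈ P, ∀ a' ∈ F a, Rel T a' a) := by
  classical
  -- positive and negative parts of the class
  let Fp : ℤ → Finset ℤ := fun a => A.filter (fun a' => 0 < a' ∧ Rel T a' a)
  let Fn : ℤ → Finset ℤ := fun a => A.filter (fun a' => a' < 0 ∧ Rel T a' a)
  let P : Finset ℤ := A.filter (fun a => 0 < a ∧ r ≤ ((Fp a).card : ℝ))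
  let Q : Finset ℤ := A.filter (fun a => a < 0 ∧ r ≤ ((Fn a).card : ℝ))
  have hFp : ∀ a a', Rel T a a' → Fp a = Fp a' := by
    intro a a' h
    ext x
    simp only [Fp, mem_filter]
    constructor
    · rintro ⟨h1, h2, h3⟩; exact ⟨h1, h2, h3.trans h⟩
    · rintro ⟨h1, h2, h3⟩; exact ⟨h1, h2, h3.trans h.symm⟩
  have hFn : ∀ a a', Rel T a a' → Fn a = Fn a' := by
    intro a a' h
    ext x
    simp only [Fn, mem_filter]
    constructor
    · rintro ⟨h1, h2, h3⟩; exact ⟨h1, h2, h3.trans h⟩
    · rintro ⟨h1, h2, h3⟩; exact ⟨h1, h2, h3.trans h.symm⟩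
  have htot : ∀ a ∈ W, 2 * r ≤ ((Fp a).card : ℝ) + ((Fn a).card : ℝ) := by
    intro a ha
    have h1 := hW a ha (Fp a ∪ Fn a) (by
      intro a'
      simp only [Fp, Fn, mem_union, mem_filter]
      constructor
      · rintro (⟨h1, h2, h3⟩ | ⟨h1, h2, h3⟩)
        · exact ⟨h1, h2.ne', h3⟩
        · exact ⟨h1, h2.ne, h3⟩
      · rintro ⟨h1, h2, h3⟩
        rcases lt_or_gt_of_ne h2 with h | h
        · exact Or.inr ⟨h1, h, h3⟩
        · exact Or.inl ⟨h1, h, h3⟩)
    refine h1.trans ?_
    exact_mod_cast card_union_le _ _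
  -- the elements whose class is mostly positive
  have hWp : (W.filter (fun a => (Fn a).card ≤ (Fp a).card)).card ≤ 2 * P.card := by
    rw [card_eq_sum_card_image Fp]
    have h1 : ∀ C ∈ (W.filter (fun a => (Fn a).card ≤ (Fp a).card)).image Fp,
        ((W.filter (fun a => (Fn a).card ≤ (Fp a).card)).filter (fun a => Fp a = C)).card ≤
        2 * (P.filter (fun a => Fp a = C)).card := by
      intro C hC
      obtain ⟨a₀, ha₀, rfl⟩ := mem_image.1 hC
      rw [mem_filter] at ha₀
      have hr := htot a₀ ha₀.1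
      have hr2 : r ≤ ((Fp a₀).card : ℝ) := by
        have : ((Fn a₀).card : ℝ) ≤ (Fp a₀).card := by exact_mod_cast ha₀.2
        linarith
      have hrel : ∀ a ∈ (W.filter (fun a => (Fn a).card ≤ (Fp a).card)).filter
          (fun a => Fp a = Fp a₀), a ∈ Fp a₀ ∪ Fn a₀ := by
        intro a ha
        rw [mem_filter, mem_filter] at ha
        obtain ⟨⟨haW, hle⟩, heq⟩ := ha
        have hra : Rel T a a₀ := by
          by_cases hne : (Fp a₀).Nonempty
          · obtain ⟨x, hx⟩ := hne
            have hx' := hx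
            rw [← heq] at hx'
            exact (mem_filter.1 hx').2.2.symm.trans (mem_filter.1 hx).2.2
          · exfalso
            rw [not_nonempty_iff_eq_empty] at hne
            have h0 : (Fp a).card = 0 := by rw [heq, hne]; rfl
            have h0' : (Fn a).card = 0 := by omega
            rcases lt_or_gt_of_ne (hA0 a haW) with h | h
            · exact (card_pos.2 ⟨a, mem_filter.2 ⟨hWA haW, h, Rel.refl T a⟩⟩).ne' h0'
            · exact (card_pos.2 ⟨a, mem_filter.2 ⟨hWA haW, h, Rel.refl T a⟩⟩).ne' h0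
        rw [mem_union]
        rcases lt_or_gt_of_ne (hA0 a haW) with h | h
        · exact Or.inr (mem_filter.2 ⟨hWA haW, h, hra⟩)
        · exact Or.inl (mem_filter.2 ⟨hWA haW, h, hra⟩)
      have h2 := (card_le_card hrel).trans (card_union_le _ _)
      have h3 : Fp a₀ ⊆ P.filter (fun a => Fp a = Fp a₀) := by
        intro x hx
        have hx' := mem_filter.1 hx
        rw [mem_filter, mem_filter]
        have he := hFp x a₀ hx'.2.2
        exact ⟨⟨hx'.1, hx'.2.1, by rw [he]; exact hr2⟩, he⟩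
      have h4 := card_le_card h3
      have h5 := ha₀.2
      omega
    refine (sum_le_sum h1).trans ?_
    rw [← mul_sum]
    apply Nat.mul_le_mul_left
    rw [← card_biUnion]
    · apply card_le_card
      intro x hx
      obtain ⟨C, _, hx⟩ := mem_biUnion.1 hx
      exact (mem_filter.1 hx).1
    · intro C _ C' _ hCC
      rw [Function.onFun, disjoint_left]
      intro x hx hx'
      exact hCC ((mem_filter.1 hx).2.symm.trans (mem_filter.1 hx').2)
  have hWn : (W.filter (fun a => ¬ (Fn a).card ≤ (Fp a).card)).card ≤ 2 * Q.card := by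
    rw [card_eq_sum_card_image Fn]
    have h1 : ∀ C ∈ (W.filter (fun a => ¬ (Fn a).card ≤ (Fp a).card)).image Fn,
        ((W.filter (fun a => ¬ (Fn a).card ≤ (Fp a).card)).filter (fun a => Fn a = C)).card ≤
        2 * (Q.filter (fun a => Fn a = C)).card := by
      intro C hC
      obtain ⟨a₀, ha₀, rfl⟩ := mem_image.1 hC
      rw [mem_filter] at ha₀
      have hr := htot a₀ ha₀.1
      have hle₀ : (Fp a₀).card ≤ (Fn a₀).card := (not_le.1 ha₀.2).le
      have hr2 : r ≤ ((Fn a₀).card : ℝ) := by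
        have : ((Fp a₀).card : ℝ) ≤ (Fn a₀).card := by exact_mod_cast hle₀
        linarith
      have hrel : ∀ a ∈ (W.filter (fun a => ¬ (Fn a).card ≤ (Fp a).card)).filter
          (fun a => Fn a = Fn a₀), a ∈ Fp a₀ ∪ Fn a₀ := by
        intro a ha
        rw [mem_filter, mem_filter] at ha
        obtain ⟨⟨haW, hle⟩, heq⟩ := ha
        have hra : Rel T a a₀ := by
          have hne : (Fn a₀).Nonempty := by
            rw [← card_pos]
            have := ha₀.2
            omega
          obtain ⟨x, hx⟩ := hne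
          have hx' := hx
          rw [← heq] at hx'
          exact (mem_filter.1 hx').2.2.symm.trans (mem_filter.1 hx).2.2
        rw [mem_union]
        rcases lt_or_gt_of_ne (hA0 a haW) with h | h
        · exact Or.inr (mem_filter.2 ⟨hWA haW, h, hra⟩)
        · exact Or.inl (mem_filter.2 ⟨hWA haW, h, hra⟩)
      have h2 := (card_le_card hrel).trans (card_union_le _ _)
      have h3 : Fn a₀ ⊆ Q.filter (fun a => Fn a = Fn a₀) := by
        intro x hx
        have hx' := mem_filter.1 hx
        rw [mem_filter, mem_filter]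
        have he := hFn x a₀ hx'.2.2
        exact ⟨⟨hx'.1, hx'.2.1, by rw [he]; exact hr2⟩, he⟩
      have h4 := card_le_card h3
      omega
    refine (sum_le_sum h1).trans ?_
    rw [← mul_sum]
    apply Nat.mul_le_mul_left
    rw [← card_biUnion]
    · apply card_le_card
      intro x hx
      obtain ⟨C, _, hx⟩ := mem_biUnion.1 hx
      exact (mem_filter.1 hx).1
    · intro C _ C' _ hCC
      rw [Function.onFun, disjoint_left]
      intro x hx hx'
      exact hCC ((mem_filter.1 hx).2.symm.trans (mem_filter.1 hx').2)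
  have hsplit : (W.filter (fun a => (Fn a).card ≤ (Fp a).card)).card +
      (W.filter (fun a => ¬ (Fn a).card ≤ (Fp a).card)).card = W.card :=
    card_filter_add_card_filter_not _
  rcases le_total Q.card P.card with h | h
  · refine ⟨P, Fp, filter_subset _ _, by omega, ?_, ?_, ?_, ?_, ?_⟩
    · intro a ha; exact (mem_filter.1 ha).2.1.ne'
    · intro a ha a' ha' x y hxy
      have e1 : (0:ℚ) < a := by exact_mod_cast (mem_filter.1 ha).2.1
      have e2 : (0:ℚ) < a' := by exact_mod_cast (mem_filter.1 ha').2.1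
      rw [abs_of_pos e1, abs_of_pos e2] at hxy
      exact hxy
    · intro a ha x hx
      have hx' := mem_filter.1 hx
      have he := hFp x a hx'.2.2
      exact mem_filter.2 ⟨hx'.1, hx'.2.1, by rw [he]; exact (mem_filter.1 ha).2.2⟩
    · intro a ha; exact (mem_filter.1 ha).2.2
    · intro a _ a' ha'; exact (mem_filter.1 ha').2.2
  · refine ⟨Q, Fn, filter_subset _ _, by omega, ?_, ?_, ?_, ?_, ?_⟩
    · intro a ha; exact (mem_filter.1 ha).2.1.ne
    · intro a ha a' ha' x y hxy
      have e1 : (a:ℚ) < 0 := by exact_mod_cast (mem_filter.1 ha).2.1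
      have e2 : (a':ℚ) < 0 := by exact_mod_cast (mem_filter.1 ha').2.1
      rw [abs_of_neg e1, abs_of_neg e2] at hxy
      linarith
    · intro a ha x hx
      have hx' := mem_filter.1 hx
      have he := hFn x a hx'.2.2
      exact mem_filter.2 ⟨hx'.1, hx'.2.1, by rw [he]; exact (mem_filter.1 ha).2.2⟩
    · intro a ha; exact (mem_filter.1 ha).2.2
    · intro a _ a' ha'; exact (mem_filter.1 ha').2.2

/-- **Many elements in rich cosets of one multiplicative group of small rank force a sumset of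
nearly maximal size.**

For all `k ≥ 1`, `ε > 0` and `δ > 0` there is `c > 0` with the following property. Let `A` be a
finite set of integers and let `Γ` be a subgroup of the multiplicative group of the rationals
generated by at most `c log |A|` elements. If at least `|A|^(1-c)` elements `b` of `A` are such
that the coset `Γ b` contains at least `|A|^δ` elements of `A`, then `|kA| ≥ c |A|^(k-ε)`. -/
theorem rich_cosets : ∀ k : ℕ, 1 ≤ k → ∀ ε : ℝ, 0 < ε → ∀ δ : ℝ, 0 < δ → ∃ c : ℝ, 0 < c ∧
    ∀ A B : Finset ℤ, A.Nonempty → B ⊆ A → (A.card : ℝ) ^ (1 - c) ≤ (B.card : ℝ) →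
    ∀ T : Finset ℚˣ, (T.card : ℝ) ≤ c * Real.log (A.card : ℝ) →
      (∀ b ∈ B, b ≠ 0 → (A.card : ℝ) ^ δ ≤
        (Set.ncard {a : ℤ | a ∈ A ∧ ∃ γ ∈ Subgroup.closure (T : Set ℚˣ),
          (a : ℚ) = (γ : ℚ) * (b : ℚ)} : ℝ)) →
      c * (A.card : ℝ) ^ ((k : ℝ) - ε) ≤
        (((Fintype.piFinset (fun _ : Fin k => A)).image
            (fun f : Fin k → ℤ => ∑ i, f i)).card : ℝ) := by
  intro k hk ε hε δ hδ
  have hk0 : (0 : ℝ) < k := by exact_mod_cast hk
  obtain ⟨c₁, K₁, hc₁0, hK₁0, hsum⟩ := sum_side k hk (ε := ε / 2) (ε₁ := δ / 2) (by positivity)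
    (by positivity)
  -- for |A| ≥ exp (2 log 2 / δ) the factor 2 is harmless
  set Λ : ℝ := 2 * Real.log 2 / δ with hΛ
  have hlog2 : 0 < Real.log 2 := Real.log_pos (by norm_num)
  have hlog8 : 0 < Real.log 8 := Real.log_pos (by norm_num)
  have hΛ0 : 0 < Λ := by positivity
  set K₂ : ℝ := K₁ + k * Real.log 8 + k * Λ with hK₂
  have hK₂0 : 0 ≤ K₂ := by positivity
  set c : ℝ := min (min c₁ (ε / (2 * k))) (min (1 / 2) (Real.exp (-K₂))) with hc
  have hcpos : 0 < c := lt_min (lt_min hc₁0 (by positivity)) (lt_min (by norm_num)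
    (Real.exp_pos _))
  have hcc₁ : c ≤ c₁ := (min_le_left _ _).trans (min_le_left _ _)
  have hcε : c ≤ ε / (2 * k) := (min_le_left _ _).trans (min_le_right _ _)
  have hch : c ≤ 1 / 2 := (min_le_right _ _).trans (min_le_left _ _)
  have hcK : c ≤ Real.exp (-K₂) := (min_le_right _ _).trans (min_le_right _ _)
  clear_value c
  refine ⟨c, hcpos, ?_⟩
  intro A B hA hBA hcard T hT hrich
  show c * (A.card : ℝ) ^ ((k : ℝ) - ε) ≤ ((kS k A).card : ℝ)
  have hn1 : 1 ≤ A.card := card_pos.mpr hA
  have hn1' : (1 : ℝ) ≤ A.card := by exact_mod_cast hn1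
  have hnpos : (0 : ℝ) < A.card := by linarith
  set L := Real.log (A.card : ℝ) with hL
  have hL0 : 0 ≤ L := Real.log_nonneg hn1'
  have hS1 : (1 : ℝ) ≤ ((kS k A).card : ℝ) := by exact_mod_cast card_pos.mpr (kS_nonempty k hA)
  have hbpos : (0 : ℝ) < B.card := lt_of_lt_of_le (Real.rpow_pos_of_pos hnpos _) hcard
  have hloglow : (1 - c) * L ≤ Real.log B.card := by
    rw [hL, ← Real.log_rpow hnpos]
    exact Real.log_le_log (Real.rpow_pos_of_pos hnpos _) hcard
  -- it suffices to bound the logarithm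
  have hfin : (k:ℝ) * L - ε * L - K₂ ≤ Real.log ((kS k A).card : ℝ) →
      c * (A.card : ℝ) ^ ((k : ℝ) - ε) ≤ ((kS k A).card : ℝ) := by
    intro hlog
    have hmpos : (0:ℝ) < ((kS k A).card : ℝ) := by linarith
    calc c * (A.card : ℝ) ^ ((k : ℝ) - ε)
        ≤ Real.exp (-K₂) * Real.exp (((k:ℝ) - ε) * L) := by
          apply mul_le_mul hcK _ (by positivity) (Real.exp_pos _).le
          rw [Real.rpow_def_of_pos hnpos, mul_comm]
      _ = Real.exp ((k:ℝ) * L - ε * L - K₂) := by
          rw [← Real.exp_add]; congr 1; ring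
      _ ≤ Real.exp (Real.log ((kS k A).card : ℝ)) := Real.exp_le_exp.2 hlog
      _ = _ := Real.exp_log hmpos
  by_cases hsmall : L ≤ Λ
  · -- small sets
    apply hfin
    have h1 : 0 ≤ Real.log ((kS k A).card : ℝ) := Real.log_nonneg hS1
    have h2 : (k:ℝ) * L ≤ k * Λ := by gcongr
    have h3 : 0 ≤ ε * L := by positivity
    have h4 : 0 ≤ k * Real.log 8 := by positivity
    linarith
  · push Not at hsmall
    have hLpos : 0 < L := lt_trans hΛ0 hsmall
    -- B has at least two elements
    have hB2 : 2 ≤ B.card := by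
      have h1 : 0 < Real.log B.card := lt_of_lt_of_le (by
        apply mul_pos _ hLpos; linarith) hloglow
      by_contra hlt
      push Not at hlt
      have h2 : B.card = 0 ∨ B.card = 1 := by omega
      rcases h2 with h2 | h2 <;> rw [h2] at h1 <;> simp at h1
    set W := B.erase 0 with hW
    have hWcard : B.card ≤ 2 * W.card := by
      have h : B.card - 1 ≤ W.card := pred_card_le_card_erase
      omega
    have hr : 2 * Real.exp (δ / 2 * L) ≤ (A.card : ℝ) ^ δ := by
      rw [Real.rpow_def_of_pos hnpos, ← hL]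
      have h1 : Real.exp (L * δ) = Real.exp (δ / 2 * L) * Real.exp (δ / 2 * L) := by
        rw [← Real.exp_add]; congr 1; ring
      rw [h1]
      apply mul_le_mul_of_nonneg_right _ (Real.exp_pos _).le
      have h2 : Real.log 2 ≤ δ / 2 * L := by
        have h3 : δ / 2 * Λ ≤ δ / 2 * L := by gcongr
        have h4 : δ / 2 * Λ = Real.log 2 := by rw [hΛ]; field_simp
        linarith
      calc (2:ℝ) = Real.exp (Real.log 2) := (Real.exp_log (by norm_num)).symm
        _ ≤ Real.exp (δ / 2 * L) := Real.exp_le_exp.2 h2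
    obtain ⟨P, F, hPA, hWP, hP0, hPsign, hFP, hFr, hFrel⟩ := exists_one_sign T A W
      ((erase_subset _ _).trans hBA) (Real.exp (δ / 2 * L))
      (fun a ha => ne_of_mem_erase ha) (by
      intro a ha F hF
      have ha0 := ne_of_mem_erase ha
      refine hr.trans ((hrich a (mem_of_mem_erase ha) ha0).trans ?_)
      apply Nat.cast_le.2
      rw [← Set.ncard_coe_finset F]
      apply Set.ncard_le_ncard _ F.finite_toSet
      rintro x ⟨hxA, γ, hγ, hxγ⟩
      rw [mem_coe, hF]
      have ha0' : (a : ℚ) ≠ 0 := by exact_mod_cast ha0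
      refine ⟨hxA, ?_, ?_⟩
      · intro h0
        rw [h0, Int.cast_zero] at hxγ
        exact mul_ne_zero γ.ne_zero ha0' hxγ.symm
      · obtain ⟨y, hy, hy'⟩ := closure_ev T hγ
        refine ⟨y, hy, ?_⟩
        rw [hxγ, abs_mul, hy', mul_comm])
    have hPcard : B.card ≤ 8 * P.card := by omega
    have hPpos : 0 < P.card := by omega
    have hPne : P.Nonempty := card_pos.1 hPpos
    have hlogP : (1 - c) * L - Real.log 8 ≤ Real.log P.card := by
      have hP' : (0:ℝ) < P.card := by exact_mod_cast hPpos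
      have h1 : (B.card : ℝ) ≤ 8 * P.card := by exact_mod_cast hPcard
      have h2 := Real.log_le_log hbpos h1
      rw [Real.log_mul (by norm_num) hP'.ne'] at h2
      linarith
    have hmain := hsum ℚˣ gab gab_pos T A.card (hT.trans (by gcongr)) P hPne
      (card_le_card hPA) hP0 hPsign F hFP hFr (fun a ha a' ha' => hFrel a ha a' ha')
    have hsub : Real.log ((sI P k).card : ℝ) ≤ Real.log ((kS k A).card : ℝ) := by
      apply Real.log_le_log
      · exact_mod_cast card_pos.2 (sI_nonempty hPne k)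
      · exact_mod_cast card_le_card (sI_subset hPA k)
    apply hfin
    refine le_trans ?_ (hmain.trans hsub)
    have h1 : (k:ℝ) * ((1 - c) * L - Real.log 8) ≤ k * Real.log P.card := by gcongr
    have h2 : k * c * L ≤ ε / 2 * L := by
      apply mul_le_mul_of_nonneg_right _ hL0
      calc k * c ≤ k * (ε / (2 * k)) := by gcongr
        _ = ε / 2 := by field_simp
    have h3 : 0 ≤ k * Λ := by positivity
    rw [← hL]
    have h4 : (k:ℝ) * ((1 - c) * L - Real.log 8) = k * L - k * c * L - k * Real.log 8 := by ring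
    linarith

end Pool.Agent.Helper2.E
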