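import Pool.Agent.Helper2.EFac
import Pool.Agent.Helper2.ERich

set_option autoImplicit false

/-!
The Erdős–Szemerédi inequality for sets with a Freiman homomorphism that has concentrated
coordinates and whose fibres lie in cosets of a group of small rank.
-/

open Finset

namespace Pool.Agent.Helper2.E

open Pool.Agent.Helper5

theorem vI_mem {ι : Type*} [DecidableEq ι] (V : Finset (ι →₀ ℤ)) (k : ℕ) :
    ∀ v ∈ vI V k, ∃ f : Fin k → ι →₀ ℤ, (∀ j, f j ∈ V) ∧ ∑ j, f j = v := by
  induction k with
  | zero =>
    intro v hv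
    simp only [vI, mem_singleton] at hv
    exact ⟨fun j => j.elim0, fun j => j.elim0, by rw [hv]; simp⟩
  | succ k ih =>
    intro v hv
    simp only [vI, mem_image₂] at hv
    obtain ⟨x, hx, a, ha, rfl⟩ := hv
    obtain ⟨f, hf, hfx⟩ := ih x hx
    refine ⟨Fin.snoc f a, ?_, ?_⟩
    · intro j
      refine Fin.lastCases ?_ (fun j => ?_) j
      · simpa using ha
      · simpa using hf j
    · rw [Fin.sum_univ_castSucc]
      simp [hfx]

theorem coreH (k : ℕ) (hk : 1 ≤ k) (ε : ℝ) (hε : 0 < ε) :
    ∃ c : ℝ, 0 < c ∧ ∀ (ι : Type) (A : Finset ℤ), A.Nonempty → (0 : ℤ) ∉ A →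
      ∀ (φ : ℤ → ι →₀ ℤ) (T : Finset ℚˣ),
      (∀ x y : Fin k → ℤ, (∀ j, x j ∈ A) → (∀ j, y j ∈ A) → ∏ j, x j = ∏ j, y j →
        ∑ j, φ (x j) = ∑ j, φ (y j)) →
      (∀ i, ∃ z : ℤ, ((A.filter (fun a => φ a i ≠ z)).card : ℝ) ≤ c * A.card) →
      (T.card : ℝ) ≤ c * Real.log A.card →
      (∀ a ∈ A, ∀ a' ∈ A, φ a = φ a' → ∃ γ ∈ Subgroup.closure (T : Set ℚˣ),
        (a' : ℚ) = (γ : ℚ) * (a : ℚ)) →
      c * (A.card : ℝ) ^ ((k : ℝ) - ε) ≤ max ((kS k A).card : ℝ) ((kP k A).card : ℝ) := by
  classical
  have hk0 : (0:ℝ) < k := by exact_mod_cast hk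
  -- parameters
  set ε₁ : ℝ := ε / (4 * k) with hε₁
  have hε₁0 : 0 < ε₁ := by positivity
  obtain ⟨cR, hcR0, hrich⟩ := rich_cosets k hk ε hε ε₁ hε₁0
  obtain ⟨τ, lam, κ, hτ0, hτ1, hl0, hl1, hκ0, hpar⟩ :=
    exists_params (η := ε / (4 * k * (k + 1))) (by positivity)
  set η : ℝ := ε / (4 * k * (k + 1)) with hη
  have hη0 : 0 < η := by positivity
  have hlog2 : 0 < Real.log 2 := Real.log_pos (by norm_num)
  set Λ : ℝ := Real.log 2 / cR with hΛ
  have hΛ0 : 0 < Λ := by positivity
  set K₂ : ℝ := k * Real.log 2 + k * Λ with hK₂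
  have hK₂0 : 0 ≤ K₂ := by positivity
  refine ⟨min (min cR (κ / 2)) (Real.exp (-K₂)),
    lt_min (lt_min hcR0 (by positivity)) (Real.exp_pos _), ?_⟩
  intro ι A hAne hA0 φ T hfrei hpop hT hfibT
  set c := min (min cR (κ / 2)) (Real.exp (-K₂)) with hc
  have hccR : c ≤ cR := (min_le_left _ _).trans (min_le_left _ _)
  have hcκ : c ≤ κ / 2 := (min_le_left _ _).trans (min_le_right _ _)
  have hcK : c ≤ Real.exp (-K₂) := min_le_right _ _
  have hcpos : 0 < c := lt_min (lt_min hcR0 (by positivity)) (Real.exp_pos _)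
  clear_value c
  set n := A.card with hn
  have hn1 : 1 ≤ n := card_pos.mpr hAne
  have hn1' : (1 : ℝ) ≤ n := by exact_mod_cast hn1
  have hnpos : (0 : ℝ) < n := by linarith
  have hmax1 : (1 : ℝ) ≤ max ((kS k A).card : ℝ) ((kP k A).card : ℝ) := by
    apply le_max_of_le_left
    exact_mod_cast card_pos.mpr (kS_nonempty k hAne)
  set L := Real.log n with hL
  have hL0 : 0 ≤ L := Real.log_nonneg hn1'
  -- it suffices to bound the logarithm
  have hfin : ∀ m : ℕ, 1 ≤ m → (k:ℝ) * L - ε * L - K₂ ≤ Real.log m →
      (m:ℝ) ≤ max ((kS k A).card : ℝ) ((kP k A).card : ℝ) →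
      c * (n : ℝ) ^ ((k : ℝ) - ε) ≤ max ((kS k A).card : ℝ) ((kP k A).card : ℝ) := by
    intro m hm1 hlog hm
    refine le_trans ?_ hm
    have hmpos : (0:ℝ) < m := by exact_mod_cast hm1
    calc c * (n : ℝ) ^ ((k : ℝ) - ε)
        ≤ Real.exp (-K₂) * Real.exp (((k:ℝ) - ε) * L) := by
          apply mul_le_mul hcK _ (by positivity) (Real.exp_pos _).le
          rw [Real.rpow_def_of_pos hnpos, mul_comm]
      _ = Real.exp ((k:ℝ) * L - ε * L - K₂) := by
          rw [← Real.exp_add]; congr 1; ring
      _ ≤ Real.exp (Real.log m) := Real.exp_le_exp.2 hlog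
      _ = m := Real.exp_log hmpos
  by_cases hsmall : L ≤ Λ
  · -- small sets
    refine hfin 1 le_rfl ?_ (by exact_mod_cast hmax1)
    simp only [Nat.cast_one, Real.log_one]
    have h2 : (k:ℝ) * L ≤ k * Λ := by gcongr
    have h3 : 0 ≤ ε * L := by positivity
    have h4 : 0 ≤ k * Real.log 2 := by positivity
    linarith
  · push Not at hsmall
    set R : ℝ := Real.exp (ε₁ * L) with hR
    have hR0 : 0 < R := Real.exp_pos _
    set fib' : ℤ → Finset ℤ := fun a => A.filter (fun a' => φ a = φ a') with hfib'
    set As := A.filter (fun a => ((fib' a).card : ℝ) ≤ R) with hAs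
    set Al := A.filter (fun a => ¬ ((fib' a).card : ℝ) ≤ R) with hAl
    have hsplit : As.card + Al.card = A.card := card_filter_add_card_filter_not _
    rcases le_total Al.card As.card with hcase | hcase
    · -- product side
      have h2n : n ≤ 2 * As.card := by omega
      have hAspos : 0 < As.card := by omega
      have hAsne : As.Nonempty := card_pos.1 hAspos
      have hAsA : As ⊆ A := filter_subset _ _
      have hAsn : As.card ≤ n := card_le_card hAsA
      choose z hz using hpop
      have hprod := prod_iterE hτ0 hτ1 hl0 hl1 hκ0.le hη0.le hpar (A := As) hAsne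
        φ z (by
          intro q
          have h1 : ((As.filter (fun a => φ a q ≠ z q)).card : ℝ) ≤
              ((A.filter (fun a => φ a q ≠ z q)).card : ℝ) := by
            apply Nat.cast_le.2
            exact card_le_card (filter_subset_filter _ hAsA)
          refine h1.trans ((hz q).trans ?_)
          have h2 : (n : ℝ) ≤ 2 * As.card := by exact_mod_cast h2n
          calc c * (n:ℝ) ≤ κ / 2 * (2 * As.card) := by gcongr
            _ = κ * As.card := by ring) hR0 (by
          intro b
          rcases (As.filter (fun a => φ a = b)).eq_empty_or_nonempty with h0 | ⟨a, ha⟩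
          · rw [h0]; simpa using hR0.le
          · rw [mem_filter] at ha
            have ha2 := (mem_filter.1 ha.1).2
            refine le_trans ?_ ha2
            apply Nat.cast_le.2
            apply card_le_card
            intro a' ha'
            rw [mem_filter] at ha'
            exact mem_filter.2 ⟨hAsA ha'.1, ha.2.trans ha'.2.symm⟩) k n hAsn
      -- from vectors to products
      have hVne : (As.image φ).Nonempty := hAsne.image _
      have hpk : ((vI (As.image φ) k).card : ℝ) ≤
          max ((kS k A).card : ℝ) ((kP k A).card : ℝ) := by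
        apply le_max_of_le_right
        apply Nat.cast_le.2
        have hex : ∀ v ∈ vI (As.image φ) k, ∃ f : Fin k → ℤ, (∀ j, f j ∈ As) ∧
            ∑ j, φ (f j) = v := by
          intro v hv
          obtain ⟨f, hf, hfv⟩ := vI_mem _ k v hv
          choose g hg hgf using fun j => mem_image.1 (hf j)
          refine ⟨g, hg, ?_⟩
          rw [← hfv]
          exact sum_congr rfl (fun j _ => hgf j)
        choose! f hf hfv using hex
        apply card_le_card_of_injOn (fun v => ∏ j, f v j)
        · intro v hv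
          have hv' := mem_coe.1 hv
          refine mem_coe.2 (mem_image.2 ⟨f v, Fintype.mem_piFinset.2 (fun j => ?_), rfl⟩)
          exact hAsA (hf v hv' j)
        · intro v hv w hw h
          have hv' := mem_coe.1 hv
          have hw' := mem_coe.1 hw
          rw [← hfv v hv', ← hfv w hw']
          exact hfrei (f v) (f w) (fun j => hAsA (hf v hv' j)) (fun j => hAsA (hf w hw' j)) h
      have hvIne : 1 ≤ (vI (As.image φ) k).card := card_pos.2 (vI_nonempty hVne k)
      refine hfin _ hvIne ?_ hpk
      refine le_trans ?_ hprod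
      have hlogR : Real.log R = ε₁ * L := by rw [hR, Real.log_exp]
      rw [hlogR, ← hL]
      have h5 : L - Real.log 2 ≤ Real.log As.card := by
        have hm' : (0:ℝ) < As.card := by exact_mod_cast hAspos
        have h1 : (n : ℝ) ≤ 2 * As.card := by exact_mod_cast h2n
        have h2 := Real.log_le_log hnpos h1
        rw [Real.log_mul (by norm_num) hm'.ne'] at h2
        linarith
      have h7 : (k:ℝ) * ε₁ = ε / 4 := by rw [hε₁]; field_simp
      have h6 : (k:ℝ) * (η * (k + 1)) = ε / 4 := by rw [hη]; field_simp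
      have h9 : (k:ℝ) * (L - Real.log 2 - ε₁ * L - η * ((k + 1) * L)) ≤
          k * (Real.log As.card - ε₁ * L - η * ((k + 1) * L)) := by
        apply mul_le_mul_of_nonneg_left _ hk0.le
        linarith
      refine le_trans ?_ h9
      have h10 : (k:ℝ) * (L - Real.log 2 - ε₁ * L - η * ((k + 1) * L)) =
          k * L - k * Real.log 2 - (k * ε₁ + k * (η * (k + 1))) * L := by ring
      rw [h10, h7, h6]
      have h11 : (ε / 4 + ε / 4) * L ≤ ε * L := by
        apply mul_le_mul_of_nonneg_right _ hL0
        linarith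
      have h12 : 0 ≤ k * Λ := by positivity
      rw [hK₂]
      linarith
    · -- sum side
      have h2n : n ≤ 2 * Al.card := by omega
      have hAlA : Al ⊆ A := filter_subset _ _
      have hAlcard : (n : ℝ) ^ (1 - cR) ≤ (Al.card : ℝ) := by
        have h1 : (2:ℝ) ≤ (n : ℝ) ^ cR := by
          rw [Real.rpow_def_of_pos hnpos, ← hL]
          have h2 : Real.log 2 ≤ L * cR := by
            have : Λ * cR = Real.log 2 := by rw [hΛ]; field_simp
            nlinarith
          calc (2:ℝ) = Real.exp (Real.log 2) := (Real.exp_log (by norm_num)).symm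
            _ ≤ Real.exp (L * cR) := Real.exp_le_exp.2 h2
        have h2 : (n : ℝ) ^ (1 - cR) * (n : ℝ) ^ cR = n := by
          rw [← Real.rpow_add hnpos]
          simp
        have h3 : 0 < (n : ℝ) ^ (1 - cR) := Real.rpow_pos_of_pos hnpos _
        have h4 : (n : ℝ) ≤ 2 * Al.card := by exact_mod_cast h2n
        nlinarith
      have hsum := hrich A Al hAne hAlA hAlcard T (hT.trans (by gcongr)) (by
        intro b hb _
        have hb2 := mem_filter.1 hb
        have h1 := hb2.2
        push Not at h1
        have h2 : (n : ℝ) ^ ε₁ = R := by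
          rw [hR, Real.rpow_def_of_pos hnpos, ← hL, mul_comm]
        rw [h2]
        refine h1.le.trans ?_
        apply Nat.cast_le.2
        rw [← Set.ncard_coe_finset]
        apply Set.ncard_le_ncard
        · intro a ha
          have ha' := mem_filter.1 (mem_coe.1 ha)
          exact ⟨ha'.1, hfibT b hb2.1 a ha'.1 ha'.2⟩
        · apply A.finite_toSet.subset
          rintro a ⟨ha, _⟩
          exact ha)
      refine le_trans ?_ (le_max_left _ _)
      refine le_trans ?_ hsum
      apply mul_le_mul_of_nonneg_right hccR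
      positivity

end Pool.Agent.Helper2.E
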