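import Pool.Agent.Helper2.EFail

set_option autoImplicit false

/-!
Weights on `E × M` whose sums over the solutions of `d + u m = x` are at most one, and the two
gluing steps.
-/

open Finset

namespace Pool.Agent.Helper2.E

/-- admissible weights on `E × M` for the multiplier `u` -/
structure Adm (u : ℕ) (E M : Finset ℤ) (W : ℤ → ℤ → ℝ) : Prop where
  pos : ∀ d ∈ E, ∀ m ∈ M, 0 < W d m
  ker : ∀ x : ℤ, ∑ e ∈ (E ×ˢ M).filter (fun e => e.1 + (u:ℤ) * e.2 = x), W e.1 e.2 ≤ 1

open Classical in
/-- there are admissible weights of small cost, up to failing elements -/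
def Good (θ Λ T : ℝ) (u : ℕ) (E M : Finset ℤ) (F : ℤ → ℤ → Prop) : Prop :=
  ∃ W : ℤ → ℤ → ℝ, Adm u E M W ∧ ∀ m ∈ M, -∑ d ∈ E, Real.log (W d m) ≤
    (E.card : ℝ) * (θ * Real.log E.card + 2 * θ * Real.log M.card + T) +
      Λ * ((E.filter (fun d => F d m)).card : ℝ)

theorem Good.mono {θ Λ T : ℝ} (hΛ : 0 ≤ Λ) {u : ℕ} {E M : Finset ℤ} {F F' : ℤ → ℤ → Prop}
    (h : Good θ Λ T u E M F) (hF : ∀ d ∈ E, ∀ m ∈ M, F d m → F' d m) : Good θ Λ T u E M F' := by
  classical
  obtain ⟨W, h1, h2⟩ := h
  refine ⟨W, h1, fun m hm => (h2 m hm).trans ?_⟩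
  have : ((E.filter (fun d => F d m)).card : ℝ) ≤ ((E.filter (fun d => F' d m)).card : ℝ) := by
    apply Nat.cast_le.2
    apply card_le_card
    intro d hd
    rw [mem_filter] at hd ⊢
    exact ⟨hd.1, hF d hd.1 m hm hd.2⟩
  have := mul_le_mul_of_nonneg_left this hΛ
  linarith

/-- the classes met by the solutions form a partial matching -/
theorem glue {u : ℕ} {E M : Finset ℤ} {α β : ℤ → ℤ}
    (hmatch : ∀ d ∈ E, ∀ m ∈ M, ∀ d' ∈ E, ∀ m' ∈ M,
      d + (u:ℤ) * m = d' + (u:ℤ) * m' → (α d = α d' ↔ β m = β m'))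
    {W' : ℤ → ℤ → ℤ → ℤ → ℝ}
    (hW : ∀ a ∈ E.image α, ∀ b ∈ M.image β,
      Adm u (E.filter (fun d => α d = a)) (M.filter (fun m => β m = b)) (W' a b))
    (q : ℤ → ℤ → ℝ) (hq : ∀ a b, 0 ≤ q a b) (x : ℤ) :
    ∃ K : Finset (ℤ × ℤ), K ⊆ (E.image α) ×ˢ (M.image β) ∧
      (∀ z ∈ K, ∀ z' ∈ K, (z.1 = z'.1 ↔ z.2 = z'.2)) ∧
      ∑ e ∈ (E ×ˢ M).filter (fun e => e.1 + (u:ℤ) * e.2 = x),
        q (α e.1) (β e.2) * W' (α e.1) (β e.2) e.1 e.2 ≤ ∑ z ∈ K, q z.1 z.2 := by
  classical
  set S := (E ×ˢ M).filter (fun e => e.1 + (u:ℤ) * e.2 = x) with hS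
  let key : ℤ × ℤ → ℤ × ℤ := fun e => (α e.1, β e.2)
  refine ⟨S.image key, ?_, ?_, ?_⟩
  · intro z hz
    rw [mem_image] at hz
    obtain ⟨e, he, rfl⟩ := hz
    rw [hS, mem_filter, mem_product] at he
    exact mem_product.2 ⟨mem_image_of_mem _ he.1.1, mem_image_of_mem _ he.1.2⟩
  · intro z hz z' hz'
    rw [mem_image] at hz hz'
    obtain ⟨e, he, rfl⟩ := hz
    obtain ⟨e', he', rfl⟩ := hz'
    rw [hS, mem_filter, mem_product] at he he'
    exact hmatch e.1 he.1.1 e.2 he.1.2 e'.1 he'.1.1 e'.2 he'.1.2 (he.2.trans he'.2.symm)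
  · rw [← Finset.sum_fiberwise_of_maps_to (t := S.image key) (g := key)
      (fun e he => mem_image_of_mem _ he)]
    apply sum_le_sum
    intro z hz
    have hz' : z.1 ∈ E.image α ∧ z.2 ∈ M.image β := by
      rw [mem_image] at hz
      obtain ⟨e, he, rfl⟩ := hz
      rw [hS, mem_filter, mem_product] at he
      exact ⟨mem_image_of_mem _ he.1.1, mem_image_of_mem _ he.1.2⟩
    have hA := hW z.1 hz'.1 z.2 hz'.2
    calc ∑ e ∈ S.filter (fun e => key e = z), q (α e.1) (β e.2) * W' (α e.1) (β e.2) e.1 e.2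
        = ∑ e ∈ S.filter (fun e => key e = z), q z.1 z.2 * W' z.1 z.2 e.1 e.2 := by
          apply sum_congr rfl
          intro e he
          rw [mem_filter] at he
          have e1 : α e.1 = z.1 := congrArg Prod.fst he.2
          have e2 : β e.2 = z.2 := congrArg Prod.snd he.2
          rw [e1, e2]
      _ = q z.1 z.2 * ∑ e ∈ S.filter (fun e => key e = z), W' z.1 z.2 e.1 e.2 := by
          rw [mul_sum]
      _ ≤ q z.1 z.2 * 1 := by
          apply mul_le_mul_of_nonneg_left _ (hq _ _)
          refine le_trans ?_ (hA.ker x)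
          apply sum_le_sum_of_subset_of_nonneg
          · intro e he
            rw [mem_filter, hS, mem_filter, mem_product] at he
            have e1 : α e.1 = z.1 := congrArg Prod.fst he.2
            have e2 : β e.2 = z.2 := congrArg Prod.snd he.2
            rw [mem_filter, mem_product, mem_filter, mem_filter]
            exact ⟨⟨⟨he.1.1.1, e1⟩, ⟨he.1.1.2, e2⟩⟩, he.1.2⟩
          · intro e he _
            rw [mem_filter, mem_product] at he
            exact (hA.pos e.1 he.1.1 e.2 he.1.2).le
      _ = q z.1 z.2 := mul_one _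

/-- cost of glued weights -/
theorem cost_glue {E : Finset ℤ} {α : ℤ → ℤ} (c : ℤ → ℝ) (w : ℤ → ℤ → ℝ)
    (hc : ∀ a ∈ E.image α, 0 < c a) (hw : ∀ a ∈ E.image α, ∀ d ∈ E, α d = a → 0 < w a d) :
    -∑ d ∈ E, Real.log (c (α d) * w (α d) d) =
      ∑ a ∈ E.image α, (((E.filter (fun d => α d = a)).card : ℝ) * (-Real.log (c a)) +
        (-∑ d ∈ E.filter (fun d => α d = a), Real.log (w a d))) := by
  classical
  rw [← Finset.sum_fiberwise_of_maps_to (t := E.image α) (g := α)
      (fun e he => mem_image_of_mem _ he), ← sum_neg_distrib]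
  apply sum_congr rfl
  intro a ha
  have : ∀ d ∈ E.filter (fun d => α d = a), Real.log (c (α d) * w (α d) d) =
      Real.log (c a) + Real.log (w a d) := by
    intro d hd
    rw [mem_filter] at hd
    rw [hd.2, Real.log_mul (hc a ha).ne' (hw a ha d hd.1 hd.2).ne']
  rw [sum_congr rfl this, sum_add_distrib, sum_const, nsmul_eq_mul]
  ring

/-- a class is at most everything -/
theorem card_class_sum (E : Finset ℤ) (α : ℤ → ℤ) :
    ∑ a ∈ E.image α, ((E.filter (fun d => α d = a)).card : ℝ) = E.card := by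
  classical
  have := Finset.card_eq_sum_card_image α E
  exact_mod_cast this.symm

open Classical in
theorem fail_class_sum (E : Finset ℤ) (α : ℤ → ℤ) (F : ℤ → Prop) :
    ∑ a ∈ E.image α, (((E.filter (fun d => α d = a)).filter (fun d => F d)).card : ℝ) =
      ((E.filter (fun d => F d)).card : ℝ) := by
  have h1 : (E.filter (fun d => F d)).card =
      ∑ a ∈ E.image α, ((E.filter (fun d => F d)).filter (fun d => α d = a)).card := by
    apply Finset.card_eq_sum_card_fiberwise
    intro d hd
    rw [mem_coe, mem_filter] at hd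
    exact mem_coe.2 (mem_image_of_mem _ hd.1)
  rw [h1]
  push_cast
  apply sum_congr rfl
  intro a _
  congr 2
  ext d
  simp only [mem_filter]
  tauto

/-- **Type H step**: one class of `E` is heavy. -/
theorem stepH {θ η Λ T : ℝ} (hθ0 : 0 < θ) (hθ1 : θ ≤ 1) (hη0 : 0 < η) (hηθ : η ≤ θ)
    (hη : θ * Real.log η = Real.log θ) {u : ℕ} {E M : Finset ℤ} {α β : ℤ → ℤ}
    (hM : M.Nonempty)
    (hmatch : ∀ d ∈ E, ∀ m ∈ M, ∀ d' ∈ E, ∀ m' ∈ M,
      d + (u:ℤ) * m = d' + (u:ℤ) * m' → (α d = α d' ↔ β m = β m'))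
    {F : ℤ → ℤ → Prop}
    (hsub : ∀ a ∈ E.image α, ∀ b ∈ M.image β,
      Good θ Λ T u (E.filter (fun d => α d = a)) (M.filter (fun m => β m = b)) F)
    {h : ℤ} (hh : h ∈ E.image α)
    (hheavy : (1 - η) * (E.card : ℝ) ≤ ((E.filter (fun d => α d = h)).card : ℝ)) :
    Good θ Λ T u E M F := by
  classical
  choose! W hW hcost using hsub
  set s : ℤ → ℝ := fun b => ((M.filter (fun m => β m = b)).card : ℝ) / M.card with hs
  have hMpos : (0:ℝ) < M.card := by exact_mod_cast card_pos.2 hM
  have hs0 : ∀ b, 0 ≤ s b := fun b => by positivity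
  have hspos : ∀ b ∈ M.image β, 0 < s b := by
    intro b hb
    obtain ⟨m, hm, rfl⟩ := mem_image.1 hb
    have : 0 < (M.filter (fun m' => β m' = β m)).card := card_pos.2 ⟨m, mem_filter.2 ⟨hm, rfl⟩⟩
    have : (0:ℝ) < ((M.filter (fun m' => β m' = β m)).card : ℝ) := by exact_mod_cast this
    positivity
  have hs1 : ∑ b ∈ M.image β, s b = 1 := by
    rw [hs, ← sum_div, card_class_sum, div_self hMpos.ne']
  let q : ℤ → ℤ → ℝ := fun a b => if a = h then (s b) ^ θ else θ * s b
  have hq0 : ∀ a b, 0 ≤ q a b := by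
    intro a b
    simp only [q]
    split_ifs
    · exact Real.rpow_nonneg (hs0 b) _
    · exact mul_nonneg hθ0.le (hs0 b)
  have hqpos : ∀ a, ∀ b ∈ M.image β, 0 < q a b := by
    intro a b hb
    simp only [q]
    split_ifs
    · exact Real.rpow_pos_of_pos (hspos b hb) _
    · exact mul_pos hθ0 (hspos b hb)
  refine ⟨fun d m => q (α d) (β m) * W (α d) (β m) d m, ⟨?_, ?_⟩, ?_⟩
  · intro d hd m hm
    exact mul_pos (hqpos _ _ (mem_image_of_mem _ hm))
      ((hW _ (mem_image_of_mem _ hd) _ (mem_image_of_mem _ hm)).pos d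
        (mem_filter.2 ⟨hd, rfl⟩) m (mem_filter.2 ⟨hm, rfl⟩))
  · intro x
    obtain ⟨K, hK1, hK2, hK3⟩ := glue hmatch hW q hq0 x
    refine hK3.trans ?_
    rw [← sum_filter_add_sum_filter_not K (fun z => z.1 = h)]
    have hinj : Set.InjOn Prod.snd (K : Set (ℤ × ℤ)) := by
      intro z hz z' hz' hzz
      exact Prod.ext ((hK2 z hz z' hz').2 hzz) hzz
    have hlight : ∑ z ∈ K.filter (fun z => ¬ z.1 = h), q z.1 z.2 =
        θ * ∑ b ∈ (K.filter (fun z => ¬ z.1 = h)).image Prod.snd, s b := by
      rw [sum_image (fun z hz z' hz' => hinj (mem_filter.1 hz).1 (mem_filter.1 hz').1), mul_sum]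
      apply sum_congr rfl
      intro z hz
      simp only [q]
      rw [if_neg (mem_filter.1 hz).2]
    have himg : (K.filter (fun z => ¬ z.1 = h)).image Prod.snd ⊆ M.image β := by
      intro b hb
      obtain ⟨z, hz, rfl⟩ := mem_image.1 hb
      exact (mem_product.1 (hK1 (mem_filter.1 hz).1)).2
    rw [hlight]
    rcases (K.filter (fun z => z.1 = h)).eq_empty_or_nonempty with h0 | ⟨z₀, hz₀⟩
    · rw [h0, sum_empty, zero_add]
      calc θ * ∑ b ∈ (K.filter (fun z => ¬ z.1 = h)).image Prod.snd, s b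
          ≤ θ * ∑ b ∈ M.image β, s b := by
            apply mul_le_mul_of_nonneg_left _ hθ0.le
            exact sum_le_sum_of_subset_of_nonneg himg (fun b _ _ => hs0 b)
        _ = θ := by rw [hs1, mul_one]
        _ ≤ 1 := hθ1
    · have h1 : K.filter (fun z => z.1 = h) = {z₀} := by
        ext z
        rw [mem_singleton]
        constructor
        · intro hz
          rw [mem_filter] at hz hz₀
          exact Prod.ext (hz.2.trans hz₀.2.symm)
            ((hK2 z hz.1 z₀ hz₀.1).1 (hz.2.trans hz₀.2.symm))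
        · rintro rfl; exact hz₀
      rw [h1, sum_singleton]
      rw [mem_filter] at hz₀
      have h2 : q z₀.1 z₀.2 = (s z₀.2) ^ θ := by simp only [q]; rw [if_pos hz₀.2]
      have hb₀ : z₀.2 ∈ M.image β := (mem_product.1 (hK1 hz₀.1)).2
      have h3 : ∑ b ∈ (K.filter (fun z => ¬ z.1 = h)).image Prod.snd, s b ≤ 1 - s z₀.2 := by
        rw [← hs1, ← add_sum_erase _ _ hb₀]
        have : ∑ b ∈ (K.filter (fun z => ¬ z.1 = h)).image Prod.snd, s b ≤
            ∑ b ∈ (M.image β).erase z₀.2, s b := by
          apply sum_le_sum_of_subset_of_nonneg _ (fun b _ _ => hs0 b)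
          intro b hb
          rw [mem_erase]
          refine ⟨?_, himg hb⟩
          rintro rfl
          obtain ⟨z, hz, hzz⟩ := mem_image.1 hb
          rw [mem_filter] at hz
          exact hz.2 (((hK2 z hz.1 z₀ hz₀.1).2 hzz).trans hz₀.2)
        linarith
      rw [h2]
      have h4 := bern hθ0.le hθ1 (hs0 z₀.2)
      have h5 := mul_le_mul_of_nonneg_left h3 hθ0.le
      linarith
  · intro m hm
    have hb : β m ∈ M.image β := mem_image_of_mem _ hm
    set b := β m with hbdef
    have hE0 : E.Nonempty := by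
      obtain ⟨d, hd, _⟩ := mem_image.1 hh
      exact ⟨d, hd⟩
    have hEpos : (0:ℝ) < E.card := by exact_mod_cast card_pos.2 hE0
    rw [cost_glue (fun a => q a b) (fun a d => W a b d m) (fun a _ => hqpos a b hb)
      (fun a ha d hd hda => (hW a ha b hb).pos d (mem_filter.2 ⟨hd, hda⟩) m
        (mem_filter.2 ⟨hm, rfl⟩))]
    set n : ℤ → ℝ := fun a => ((E.filter (fun d => α d = a)).card : ℝ) with hn
    have hn1 : ∀ a ∈ E.image α, 1 ≤ n a := by
      intro a ha
      obtain ⟨d, hd, rfl⟩ := mem_image.1 ha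
      have : 0 < (E.filter (fun d' => α d' = α d)).card := card_pos.2 ⟨d, mem_filter.2 ⟨hd, rfl⟩⟩
      simp only [hn]
      exact_mod_cast this
    have hnsum : ∑ a ∈ E.image α, n a = E.card := card_class_sum E α
    have hnle : ∀ a, n a ≤ E.card := fun a => by
      simp only [hn]; exact_mod_cast card_le_card (filter_subset _ _)
    have hMb : Real.log ((M.filter (fun m' => β m' = b)).card : ℝ) =
        Real.log M.card + Real.log (s b) := by
      rw [← Real.log_mul hMpos.ne' (hspos b hb).ne']
      congr 1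
      simp only [hs]
      field_simp
    have hsle : s b ≤ 1 := by
      rw [← hs1]
      exact single_le_sum (fun b _ => hs0 b) hb
    have hlogs : Real.log (s b) ≤ 0 := Real.log_nonpos (hs0 b) hsle
    have hlogη : Real.log η ≤ 0 := Real.log_nonpos hη0.le (hηθ.trans hθ1)
    -- bound for each class
    have hterm : ∀ a ∈ E.image α, n a * (-Real.log (q a b)) +
        (-∑ d ∈ E.filter (fun d => α d = a), Real.log (W a b d m)) ≤
        n a * (θ * Real.log E.card + 2 * θ * Real.log M.card + T) +
        (n a * (2 * θ * Real.log (s b)) - n a * (θ * Real.log (s b)) -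
          (if a = h then 0 else n a * ((1 - θ) * Real.log (s b)))) +
        Λ * (((E.filter (fun d => α d = a)).filter (fun d => F d m)).card : ℝ) := by
      intro a ha
      have h1 := hcost a ha b hb m (mem_filter.2 ⟨hm, rfl⟩)
      rw [hMb] at h1
      have hna : 0 < n a := lt_of_lt_of_le one_pos (hn1 a ha)
      have h2 : Real.log (n a) ≤ Real.log E.card := Real.log_le_log hna (hnle a)
      by_cases hah : a = h
      · rw [if_pos hah]
        have h3 : q a b = (s b) ^ θ := by simp only [q]; rw [if_pos hah]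
        rw [h3, Real.log_rpow (hspos b hb)]
        have h4 : n a * (θ * Real.log (n a)) ≤ n a * (θ * Real.log E.card) := by gcongr
        have h5 : n a * (θ * Real.log (n a) + 2 * θ * (Real.log M.card + Real.log (s b)) + T) =
          n a * (θ * Real.log (n a)) + n a * (2 * θ * Real.log M.card) +
          n a * (2 * θ * Real.log (s b)) + n a * T := by ring
        have h6 : (-∑ d ∈ E.filter (fun d => α d = a), Real.log (W a b d m)) ≤
          n a * (θ * Real.log (n a) + 2 * θ * (Real.log M.card + Real.log (s b)) + T) +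
          Λ * (((E.filter (fun d => α d = a)).filter (fun d => F d m)).card : ℝ) := h1
        rw [h5] at h6
        linarith
      · rw [if_neg hah]
        have h3 : q a b = θ * s b := by simp only [q]; rw [if_neg hah]
        rw [h3, Real.log_mul hθ0.ne' (hspos b hb).ne']
        have h2' : Real.log (n a) ≤ Real.log E.card + Real.log η := by
          rw [← Real.log_mul hEpos.ne' hη0.ne']
          apply Real.log_le_log hna
          have h7 : n a + n h ≤ E.card := by
            rw [← hnsum]
            have := Finset.add_le_sum (s := E.image α) (f := n) (i := a) (j := h)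
              (fun c hc => (zero_le_one.trans (hn1 c hc))) ha hh hah
            exact this
          have h8 : (1 - η) * (E.card : ℝ) ≤ n h := hheavy
          linarith
        have h4 : n a * (θ * Real.log (n a)) ≤
            n a * (θ * (Real.log E.card + Real.log η)) := by gcongr
        have h5 : n a * (θ * Real.log (n a) + 2 * θ * (Real.log M.card + Real.log (s b)) + T) =
          n a * (θ * Real.log (n a)) + n a * (2 * θ * Real.log M.card) +
          n a * (2 * θ * Real.log (s b)) + n a * T := by ring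
        have h6 : (-∑ d ∈ E.filter (fun d => α d = a), Real.log (W a b d m)) ≤
          n a * (θ * Real.log (n a) + 2 * θ * (Real.log M.card + Real.log (s b)) + T) +
          Λ * (((E.filter (fun d => α d = a)).filter (fun d => F d m)).card : ℝ) := h1
        rw [h5] at h6
        have h9 : n a * (θ * (Real.log E.card + Real.log η)) =
          n a * (θ * Real.log E.card) + n a * Real.log θ := by rw [mul_add θ, hη]; ring
        rw [h9] at h4
        linarith
    refine (sum_le_sum hterm).trans ?_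
    rw [sum_add_distrib, sum_add_distrib, ← sum_mul, hnsum, ← mul_sum,
      fail_class_sum E α (fun d => F d m)]
    have hmid : ∑ a ∈ E.image α, (n a * (2 * θ * Real.log (s b)) - n a * (θ * Real.log (s b)) -
          (if a = h then 0 else n a * ((1 - θ) * Real.log (s b)))) ≤ 0 := by
      rw [sum_sub_distrib, sum_sub_distrib, ← sum_mul, ← sum_mul, hnsum]
      have h1 : ∑ a ∈ E.image α, (if a = h then 0 else n a * ((1 - θ) * Real.log (s b))) =
          ((E.card : ℝ) - n h) * ((1 - θ) * Real.log (s b)) := by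
        rw [← hnsum, ← add_sum_erase _ _ hh, ← add_sum_erase _ _ hh, if_pos rfl]
        have : ∀ a ∈ (E.image α).erase h, (if a = h then 0 else
            n a * ((1 - θ) * Real.log (s b))) = n a * ((1 - θ) * Real.log (s b)) := by
          intro a ha
          rw [if_neg (ne_of_mem_erase ha)]
        rw [sum_congr rfl this, ← sum_mul]
        ring
      rw [h1]
      have h2 : (1 - η) * (E.card : ℝ) ≤ n h := hheavy
      have h3 : ((E.card : ℝ) - n h) * (1 - θ) ≤ θ * E.card := by
        have h4 : (E.card : ℝ) - n h ≤ η * E.card := by linarith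
        have h5 : 0 ≤ (E.card : ℝ) - n h := by linarith [hnle h]
        have h6 : η * (E.card : ℝ) ≤ θ * E.card := by gcongr
        nlinarith
      nlinarith
    linarith

end Pool.Agent.Helper2.E
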