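import Pool.Agent.Helper2.ESum

set_option autoImplicit false

/-!
Iterated sumsets.
-/

open Finset

namespace Pool.Agent.Helper2.E

open Pool.Agent.Helper5 (uP mP sI sI_card)

theorem sI_nonempty {A : Finset ℤ} (hA : A.Nonempty) (j : ℕ) : (sI A j).Nonempty := by
  induction j with
  | zero => exact ⟨0, by simp [sI]⟩
  | succ j ih => exact Finset.Nonempty.image₂ ih hA

/-- **Iterated sum step.** -/
theorem sum_iter {θ lam : ℝ} (hθ0 : 0 < θ) (hθ1 : θ ≤ 1 / 2) (hl : 0 < lam) :
    ∃ b C : ℝ, 0 ≤ b ∧ 1 ≤ C ∧ ∀ S : Finset ℕ, (∀ p ∈ S, p.Prime) →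
      ∀ A : Finset ℤ, A.Nonempty → (0:ℤ) ∉ A → ∀ R : ℝ, 0 < R →
      (∀ a ∈ A, R ≤ ((A.filter (fun a' => mP S a' = mP S a)).card : ℝ)) →
      ∀ N k : ℕ, A.card ≤ N → ∀ j : ℕ, j ≤ k →
      (j : ℝ) * (Real.log A.card - ((S.card : ℝ) * (Real.log (1 / θ) + 2 + b) +
        2 * θ * (((k:ℝ) + 1) * Real.log N) +
        (k * Real.log N) * (C ^ S.card * (N : ℝ) ^ (lam * (k + 1)) / R))) ≤
        Real.log ((sI A j).card : ℝ) := by
  classical
  obtain ⟨b, C, hb, hC, hstep⟩ := sum_step hθ0 hθ1 hl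
  refine ⟨b, C, hb, hC, ?_⟩
  intro S hS A hA h0 R hR hfib N k hAN
  have hA1 : 1 ≤ A.card := card_pos.2 hA
  have hN1 : 1 ≤ N := hA1.trans hAN
  have hN1' : (1:ℝ) ≤ N := by exact_mod_cast hN1
  have hNpos : (0:ℝ) < N := by linarith
  have hLN : 0 ≤ Real.log N := Real.log_nonneg hN1'
  have hAN' : (A.card : ℝ) ≤ N := by exact_mod_cast hAN
  have hApos : (0:ℝ) < A.card := by exact_mod_cast hA1
  have hLA : Real.log A.card ≤ Real.log N := Real.log_le_log hApos hAN'
  intro j
  induction j with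
  | zero => intro _; simp [sI]
  | succ j ih =>
    intro hj
    have ih' := ih (by omega)
    have hne := sI_nonempty hA j
    have hDpos : (0:ℝ) < ((sI A j).card : ℝ) := by exact_mod_cast card_pos.2 hne
    have hD1 : (1:ℝ) ≤ ((sI A j).card : ℝ) := by exact_mod_cast card_pos.2 hne
    have hDN : ((sI A j).card : ℝ) ≤ (N:ℝ) ^ k := by
      have h1 : (sI A j).card ≤ N ^ k :=
        (sI_card A j).trans ((Nat.pow_le_pow_left hAN j).trans
          (Nat.pow_le_pow_right hN1 (by omega)))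
      exact_mod_cast h1
    have hLD : Real.log ((sI A j).card : ℝ) ≤ k * Real.log N := by
      rw [← Real.log_pow]
      exact Real.log_le_log hDpos hDN
    have hLD0 : 0 ≤ Real.log ((sI A j).card : ℝ) := Real.log_nonneg hD1
    have h2 := hstep S hS (sI A j) A hne hA h0 R hR hfib
    have h3 : ((sI A j).card : ℝ) ^ lam * (A.card : ℝ) ^ lam ≤ (N : ℝ) ^ (lam * (k + 1)) := by
      calc ((sI A j).card : ℝ) ^ lam * (A.card : ℝ) ^ lam
          ≤ ((N:ℝ) ^ k) ^ lam * (N : ℝ) ^ lam := by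
            apply mul_le_mul (Real.rpow_le_rpow hDpos.le hDN hl.le)
              (Real.rpow_le_rpow hApos.le hAN' hl.le) (by positivity) (by positivity)
        _ = (N : ℝ) ^ (lam * (k + 1)) := by
            rw [← Real.rpow_natCast, ← Real.rpow_mul hNpos.le, ← Real.rpow_add hNpos]
            congr 1
            ring
    have h4 : Real.log ((sI A j).card : ℝ) *
        (C ^ S.card * (((sI A j).card : ℝ) ^ lam * (A.card : ℝ) ^ lam) / R) ≤
        (k * Real.log N) * (C ^ S.card * (N : ℝ) ^ (lam * (k + 1)) / R) := by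
      apply mul_le_mul hLD _ (by positivity) (by positivity)
      gcongr
    have h5 : 2 * θ * (Real.log ((sI A j).card : ℝ) + Real.log A.card) ≤
        2 * θ * (((k:ℝ) + 1) * Real.log N) := by
      apply mul_le_mul_of_nonneg_left _ (by linarith)
      linarith
    have h6 : image₂ (· + ·) (sI A j) A = sI A (j + 1) := rfl
    rw [h6] at h2
    push_cast
    linarith

end Pool.Agent.Helper2.E
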