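import Pool.Agent.Helper2.EProdV2

set_option autoImplicit false

/-!
The product side by an entropy argument: if every coordinate of the vectors of `V` is concentrated
(away from few vectors it takes one value), then `D + V` has nearly maximal size for every `D`.
Here: the weights of one coordinate and their cost on a pair of classes.
-/

open Finset

namespace Pool.Agent.Helper2.E

section factor

variable {β α : Type*}

/-- frequency of the value `c` -/
noncomputable def mu (K : Finset β) (X : β → ℤ) (c : ℤ) : ℝ :=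
  ((K.filter (fun d => X d = c)).card : ℝ) / K.card

/-- frequency of the values other than `c` -/
noncomputable def co (K : Finset β) (X : β → ℤ) (c : ℤ) : ℝ :=
  ((K.filter (fun d => X d ≠ c)).card : ℝ) / K.card

theorem mu_nonneg (K : Finset β) (X : β → ℤ) (c : ℤ) : 0 ≤ mu K X c := by
  unfold mu; positivity

theorem co_nonneg (K : Finset β) (X : β → ℤ) (c : ℤ) : 0 ≤ co K X c := by
  unfold co; positivity

theorem mu_add_co {K : Finset β} (hK : K.Nonempty) (X : β → ℤ) (c : ℤ) :
    mu K X c + co K X c = 1 := by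
  unfold mu co
  have hpos : (0:ℝ) < K.card := by exact_mod_cast card_pos.2 hK
  have h : (K.filter (fun d => X d = c)).card + (K.filter (fun d => X d ≠ c)).card = K.card :=
    card_filter_add_card_filter_not _
  rw [← add_div, div_eq_one_iff_eq hpos.ne']
  exact_mod_cast h

theorem mu_pos {K : Finset β} {X : β → ℤ} {d : β} (hd : d ∈ K) : 0 < mu K X (X d) := by
  unfold mu
  have h1 : 0 < (K.filter (fun d' => X d' = X d)).card :=
    card_pos.2 ⟨d, mem_filter.2 ⟨hd, rfl⟩⟩
  have h2 : 0 < K.card := card_pos.2 ⟨d, hd⟩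
  have h3 : (0:ℝ) < ((K.filter (fun d' => X d' = X d)).card : ℝ) := by exact_mod_cast h1
  have h4 : (0:ℝ) < (K.card : ℝ) := by exact_mod_cast h2
  positivity

theorem co_pos {K : Finset β} {X : β → ℤ} {d : β} (hd : d ∈ K) {c : ℤ} (hc : X d ≠ c) :
    0 < co K X c := by
  unfold co
  have h1 : 0 < (K.filter (fun d' => X d' ≠ c)).card :=
    card_pos.2 ⟨d, mem_filter.2 ⟨hd, hc⟩⟩
  have h2 : 0 < K.card := card_pos.2 ⟨d, hd⟩
  have h3 : (0:ℝ) < ((K.filter (fun d' => X d' ≠ c)).card : ℝ) := by exact_mod_cast h1
  have h4 : (0:ℝ) < (K.card : ℝ) := by exact_mod_cast h2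
  positivity

theorem mu_le_co {K : Finset β} {X : β → ℤ} {c c' : ℤ} (hc : c ≠ c') : mu K X c ≤ co K X c' := by
  unfold mu co
  apply div_le_div_of_nonneg_right _ (by positivity)
  apply Nat.cast_le.2
  apply card_le_card
  intro d hd
  rw [mem_filter] at hd ⊢
  exact ⟨hd.1, by rw [hd.2]; exact hc⟩

theorem sum_mu {K : Finset β} (hK : K.Nonempty) (X : β → ℤ) :
    ∑ c ∈ K.image X, mu K X c = 1 := by
  have h1 : (K.card : ℝ) = ∑ c ∈ K.image X, ((K.filter (fun d => X d = c)).card : ℝ) := by
    have := Finset.card_eq_sum_card_image X K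
    exact_mod_cast this
  have hpos : (0:ℝ) < K.card := by exact_mod_cast card_pos.2 hK
  unfold mu
  rw [← sum_div, ← h1, div_self hpos.ne']

open Classical in
/-- the two coefficients at the value `s` of the sum -/
noncomputable def AB (τ lam : ℝ) (K : Finset β) (X : β → ℤ) (L : Finset α) (Y : α → ℤ)
    (z s : ℤ) : ℝ × ℝ :=
  if h : ∃ j, co K X j ≤ τ then
    if co L Y z ≤ τ then
      if s = h.choose + z then
        (1 - co L Y z * co K X h.choose, co L Y z * co K X h.choose)
      else (co K X h.choose / (co L Y z + co K X h.choose),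
        co L Y z / (co L Y z + co K X h.choose))
    else (0, 1)
  else (1 - lam, lam)

theorem AB_spec {τ lam : ℝ} (hτ1 : τ ≤ 1) (hl0 : 0 ≤ lam) (hl1 : lam ≤ 1)
    (K : Finset β) (X : β → ℤ) (L : Finset α) (Y : α → ℤ) (z s : ℤ) :
    0 ≤ (AB τ lam K X L Y z s).1 ∧ 0 ≤ (AB τ lam K X L Y z s).2 ∧
      (AB τ lam K X L Y z s).1 + (AB τ lam K X L Y z s).2 ≤ 1 := by
  classical
  unfold AB
  split_ifs with h1 h2 h3
  · have e1 := co_nonneg L Y z
    have e2 := co_nonneg K X h1.choose
    have e3 := h1.choose_spec
    have e4 : co L Y z * co K X h1.choose ≤ 1 * 1 :=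
      mul_le_mul (h2.trans hτ1) (e3.trans hτ1) e2 zero_le_one
    refine ⟨by simp only; linarith, mul_nonneg e1 e2, by simp⟩
  · have e1 := co_nonneg L Y z
    have e2 := co_nonneg K X h1.choose
    refine ⟨by positivity, by positivity, ?_⟩
    simp only
    rw [← add_div, add_comm]
    exact div_self_le_one _
  · exact ⟨le_rfl, zero_le_one, by simp⟩
  · exact ⟨by simp only; linarith, hl0, by simp⟩

/-- the factor at one coordinate -/
noncomputable def gf (τ lam : ℝ) (K : Finset β) (X : β → ℤ) (L : Finset α) (Y : α → ℤ)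
    (z c u : ℤ) : ℝ :=
  (if u = z then (AB τ lam K X L Y z (c + u)).1 else 0) +
    (AB τ lam K X L Y z (c + u)).2 * mu K X c

theorem gf_nonneg {τ lam : ℝ} (hτ1 : τ ≤ 1) (hl0 : 0 ≤ lam) (hl1 : lam ≤ 1)
    (K : Finset β) (X : β → ℤ) (L : Finset α) (Y : α → ℤ) (z c u : ℤ) :
    0 ≤ gf τ lam K X L Y z c u := by
  obtain ⟨h1, h2, h3⟩ := AB_spec hτ1 hl0 hl1 K X L Y z (c + u)
  unfold gf
  have := mu_nonneg K X c
  split_ifs <;> positivity

/-- kernel at one coordinate -/
theorem gf_sum {τ lam : ℝ} (hτ1 : τ ≤ 1) (hl0 : 0 ≤ lam) (hl1 : lam ≤ 1)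
    {K : Finset β} (hK : K.Nonempty) (X : β → ℤ) (L : Finset α) (Y : α → ℤ) (z s : ℤ) :
    ∑ c ∈ K.image X, gf τ lam K X L Y z c (s - c) ≤ 1 := by
  obtain ⟨h1, h2, h3⟩ := AB_spec hτ1 hl0 hl1 K X L Y z s
  have h4 : ∀ c, gf τ lam K X L Y z c (s - c) =
      (if s - z = c then (AB τ lam K X L Y z s).1 else 0) + (AB τ lam K X L Y z s).2 * mu K X c := by
    intro c
    unfold gf
    rw [show c + (s - c) = s by ring]
    congr 1
    by_cases h : s - c = z
    · rw [if_pos h, if_pos (by omega)]
    · rw [if_neg h, if_neg (by omega)]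
  simp only [h4]
  rw [sum_add_distrib, ← mul_sum, sum_mu hK, mul_one, sum_ite_eq]
  split_ifs
  · exact h3
  · linarith

/-- Information of an element of a class. -/
noncomputable def info (K : Finset β) (X : β → ℤ) (d : β) : ℝ := -Real.log (mu K X (X d))

theorem info_nonneg {K : Finset β} {X : β → ℤ} {d : β} (hd : d ∈ K) : 0 ≤ info K X d := by
  unfold info
  rw [neg_nonneg]
  apply Real.log_nonpos (mu_nonneg _ _ _)
  have h1 := mu_add_co ⟨d, hd⟩ X (X d)
  have h2 := co_nonneg K X (X d)
  linarith

theorem info_eq {K : Finset β} {X : β → ℤ} {d : β} (hd : d ∈ K) :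
    info K X d = Real.log K.card - Real.log ((K.filter (fun d' => X d' = X d)).card : ℝ) := by
  unfold info mu
  have h1 : 0 < (K.filter (fun d' => X d' = X d)).card :=
    card_pos.2 ⟨d, mem_filter.2 ⟨hd, rfl⟩⟩
  have h2 : 0 < K.card := card_pos.2 ⟨d, hd⟩
  have h3 : (0:ℝ) < ((K.filter (fun d' => X d' = X d)).card : ℝ) := by exact_mod_cast h1
  have h4 : (0:ℝ) < (K.card : ℝ) := by exact_mod_cast h2
  rw [Real.log_div h3.ne' h4.ne']
  ring

/-- total information is at least `p log (1/p)` -/
theorem sum_info_ge {K : Finset β} (X : β → ℤ) (z : ℤ) :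
    ((K.filter (fun d => X d ≠ z)).card : ℝ) * (-Real.log (co K X z)) ≤ ∑ d ∈ K, info K X d := by
  classical
  rw [← nsmul_eq_mul, ← sum_const]
  refine le_trans (sum_le_sum (g := fun d => info K X d) ?_)
    (sum_le_sum_of_subset_of_nonneg (filter_subset (fun d => X d ≠ z) K)
      (fun d hd _ => info_nonneg hd))
  intro d hd
  rw [mem_filter] at hd
  unfold info
  apply neg_le_neg
  exact Real.log_le_log (mu_pos hd.1) (mu_le_co hd.2)

/-- pointwise cost in the concentrated case, bare form -/
theorem conc_cost {τ : ℝ} (hτ1 : τ ≤ 1 / 2)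
    {K : Finset β} {X : β → ℤ} {L : Finset α} {Y : α → ℤ} {z j : ℤ}
    (h1 : co K X j ≤ τ) (h2 : co L Y z ≤ τ) {d : β} {a : α} (hd : d ∈ K) (ha : a ∈ L)
    {A B : ℝ}
    (hA : A = if X d + Y a = j + z then 1 - co L Y z * co K X j
      else co K X j / (co L Y z + co K X j))
    (hB : B = if X d + Y a = j + z then co L Y z * co K X j
      else co L Y z / (co L Y z + co K X j)) :
    0 < (if Y a = z then A else 0) + B * mu K X (X d) ∧
    -Real.log ((if Y a = z then A else 0) + B * mu K X (X d)) ≤
      2 * (co L Y z * co K X j) +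
      (if Y a = z then 0 else 1) * (if X d = j then 0 else 1) *
        (-Real.log (co L Y z) - Real.log (co K X j)) +
      (if X d = j then 0 else 1) * (co L Y z / co K X j) +
      (if Y a = z then 0 else 1) * (co K X j / co L Y z) +
      (if Y a = z then 0 else 1) * info K X d := by
  classical
  have hmu : 0 < mu K X (X d) := mu_pos hd
  have hinfo := info_nonneg (K := K) (X := X) hd
  have hp0 := co_nonneg L Y z
  have hr0 := co_nonneg K X j
  have hp' : Y a ≠ z → 0 < co L Y z := fun h => co_pos ha h
  have hr' : X d ≠ j → 0 < co K X j := fun h => co_pos hd h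
  generalize co L Y z = p at *
  generalize co K X j = r at *
  have hpr : p * r ≤ 1 / 4 := by nlinarith
  have hlp : 0 ≤ -Real.log p := by
    rw [neg_nonneg]; exact Real.log_nonpos hp0 (by linarith)
  have hlr : 0 ≤ -Real.log r := by
    rw [neg_nonneg]; exact Real.log_nonpos hr0 (by linarith)
  have hpr0 : 0 ≤ p * r := by positivity
  have hpr1 : 0 ≤ p / r := by positivity
  have hpr2 : 0 ≤ r / p := by positivity
  by_cases hu : Y a = z
  · by_cases hc : X d = j
    · -- typical
      rw [if_pos (by rw [hu, hc])] at hA hB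
      rw [if_pos hu, if_pos hu, if_pos hc]
      simp only [zero_mul, add_zero]
      have h3 : 0 < 1 - p * r := by linarith
      have h4 : 1 - p * r ≤ A + B * mu K X (X d) := by
        have : 0 ≤ p * r * mu K X (X d) := by positivity
        rw [hA, hB]
        linarith
      refine ⟨by linarith, ?_⟩
      have h5 : -Real.log (A + B * mu K X (X d)) ≤ -Real.log (1 - p * r) :=
        neg_le_neg (Real.log_le_log h3 h4)
      refine h5.trans ?_
      have h6 : -Real.log (1 - p * r) ≤ (p * r) / (1 - p * r) := by
        rw [← Real.log_inv]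
        refine (Real.log_le_sub_one_of_pos (inv_pos.2 h3)).trans (le_of_eq ?_)
        field_simp
        ring
      refine h6.trans ?_
      rw [div_le_iff₀ h3]
      nlinarith
    · have hr0' : 0 < r := hr' hc
      rw [if_neg (by rw [hu]; omega)] at hA hB
      rw [if_pos hu, if_pos hu, if_neg hc]
      simp only [zero_mul, add_zero, one_mul]
      have h3 : 0 < r / (p + r) := by positivity
      have h4 : r / (p + r) ≤ A + B * mu K X (X d) := by
        have : 0 ≤ p / (p + r) * mu K X (X d) := by positivity
        rw [hA, hB]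
        linarith
      refine ⟨by linarith, ?_⟩
      have h5 : -Real.log (A + B * mu K X (X d)) ≤
          -Real.log (r / (p + r)) := neg_le_neg (Real.log_le_log h3 h4)
      have h6 : -Real.log (r / (p + r)) ≤ p / r := by
        rw [← Real.log_inv, inv_div]
        refine (Real.log_le_sub_one_of_pos (by positivity)).trans (le_of_eq ?_)
        field_simp
        ring
      linarith
  · have hp0' : 0 < p := hp' hu
    by_cases hs : X d + Y a = j + z
    · have hc : X d ≠ j := by omega
      have hr0' : 0 < r := hr' hc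
      rw [if_pos hs] at hA hB
      rw [if_neg hu, if_neg hu, if_neg hc, hB]
      simp only [one_mul, zero_add]
      have h3 : 0 < p * r * mu K X (X d) := by positivity
      refine ⟨h3, ?_⟩
      rw [Real.log_mul (by positivity) hmu.ne', Real.log_mul hp0'.ne' hr0'.ne']
      unfold info
      linarith
    · rw [if_neg hs] at hA hB
      rw [if_neg hu, if_neg hu, hB]
      simp only [one_mul, zero_add]
      have h3 : 0 < p / (p + r) * mu K X (X d) := by positivity
      refine ⟨h3, ?_⟩
      rw [Real.log_mul (by positivity) hmu.ne']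
      have h6 : -Real.log (p / (p + r)) ≤ r / p := by
        rw [← Real.log_inv, inv_div]
        refine (Real.log_le_sub_one_of_pos (by positivity)).trans (le_of_eq ?_)
        field_simp
        ring
      have e2 : 0 ≤ (if X d = j then (0:ℝ) else 1) * (-Real.log p - Real.log r) := by
        split_ifs
        · linarith
        · linarith
      have e3 : 0 ≤ (if X d = j then (0:ℝ) else 1) * (p / r) := by
        split_ifs <;> positivity
      unfold info
      linarith

theorem sum_ind_not {σ : Type*} (L : Finset σ) (Y : σ → ℤ) (z : ℤ) :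
    ∑ a ∈ L, (if Y a = z then (0:ℝ) else 1) = ((L.filter (fun a => Y a ≠ z)).card : ℝ) := by
  rw [card_filter]
  push_cast
  apply sum_congr rfl
  intro a _
  by_cases h : Y a = z <;> simp [h]

theorem co_mul_card {K : Finset β} (hK : K.Nonempty) (X : β → ℤ) (c : ℤ) :
    ((K.filter (fun d => X d ≠ c)).card : ℝ) = co K X c * K.card := by
  unfold co
  have hpos : (0:ℝ) < K.card := by exact_mod_cast card_pos.2 hK
  field_simp

/-- lower bound of the total information by the concentration -/
theorem sum_info_ge' {K : Finset β} (hK : K.Nonempty) (X : β → ℤ) {z : ℤ} {τ : ℝ} (hτ0 : 0 < τ)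
    (h : co K X z ≤ τ) : co K X z * K.card * (-Real.log τ) ≤ ∑ d ∈ K, info K X d := by
  have h1 := sum_info_ge (K := K) X z
  rw [co_mul_card hK] at h1
  refine le_trans ?_ h1
  rcases (co_nonneg K X z).eq_or_lt with h0 | h0
  · rw [← h0]; simp
  · apply mul_le_mul_of_nonneg_left _ (by positivity)
    exact neg_le_neg (Real.log_le_log h0 h)

/-- **Cost on a pair of classes.** -/
theorem pair_cost {τ lam : ℝ} (hτ0 : 0 < τ) (hτ1 : τ ≤ 1 / 2) (hl0 : 0 < lam) (hl1 : lam ≤ 1 / 2)
    {K : Finset β} (hK : K.Nonempty) (X : β → ℤ) {L : Finset α} (hL : L.Nonempty) (Y : α → ℤ)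
    (z : ℤ) :
    (∀ d ∈ K, ∀ a ∈ L, 0 < gf τ lam K X L Y z (X d) (Y a)) ∧
    ∑ d ∈ K, ∑ a ∈ L, -Real.log (gf τ lam K X L Y z (X d) (Y a)) ≤
      (((2 * τ + 1) / (-Real.log τ) + τ) + 2 * lam / τ) * (L.card * ∑ d ∈ K, info K X d) +
      ((2 * τ + 1) / (-Real.log τ) + τ) * (K.card * ∑ a ∈ L, info L Y a) +
      (1 / τ + 1 + (-Real.log lam) / τ) *
        (((L.filter (fun a => Y a ≠ z)).card : ℝ) * ∑ d ∈ K, info K X d) := by
  classical
  have hKpos : (0:ℝ) < K.card := by exact_mod_cast card_pos.2 hK
  have hLpos : (0:ℝ) < L.card := by exact_mod_cast card_pos.2 hL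
  have hΛ : 0 < -Real.log τ := by
    rw [neg_pos]; exact Real.log_neg hτ0 (by linarith)
  have hll : 0 < -Real.log lam := by
    rw [neg_pos]; exact Real.log_neg hl0 (by linarith)
  have hI0 : 0 ≤ ∑ d ∈ K, info K X d := sum_nonneg (fun d hd => info_nonneg hd)
  have hJ0 : 0 ≤ ∑ a ∈ L, info L Y a := sum_nonneg (fun d hd => info_nonneg hd)
  have hN0 : (0:ℝ) ≤ ((L.filter (fun a => Y a ≠ z)).card : ℝ) := Nat.cast_nonneg _
  by_cases h1 : ∃ j, co K X j ≤ τ
  · by_cases h2 : co L Y z ≤ τ
    · -- both concentrated
      have hpt : ∀ d ∈ K, ∀ a ∈ L, _ := fun d hd a ha =>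
        conc_cost (τ := τ) hτ1 h1.choose_spec h2 hd ha (A := (AB τ lam K X L Y z (X d + Y a)).1)
          (B := (AB τ lam K X L Y z (X d + Y a)).2)
          (by unfold AB; rw [dif_pos h1, if_pos h2]; split_ifs <;> rfl)
          (by unfold AB; rw [dif_pos h1, if_pos h2]; split_ifs <;> rfl)
      refine ⟨fun d hd a ha => (hpt d hd a ha).1, ?_⟩
      have hr1 := h1.choose_spec
      refine (sum_le_sum (fun d hd => sum_le_sum (fun a ha => (hpt d hd a ha).2))).trans ?_
      generalize h1.choose = j at *
      have hI := sum_info_ge' hK X hτ0 hr1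
      have hJ := sum_info_ge' hL Y hτ0 h2
      have hI' := sum_info_ge (K := K) X j
      have hJ' := sum_info_ge (K := L) Y z
      have hp0 := co_nonneg L Y z
      have hr0 := co_nonneg K X j
      have hM := co_mul_card hK X j
      have hN := co_mul_card hL Y z
      have e0 : ∀ (x : β → ℝ) (y : α → ℝ) (I : β → ℝ) (c₁ c₂ c₃ c₄ : ℝ),
          ∑ d ∈ K, ∑ a ∈ L, (c₁ + y a * x d * c₂ + x d * c₃ + y a * c₄ + y a * I d) =
          K.card * (L.card * c₁) + (∑ d ∈ K, x d) * (∑ a ∈ L, y a) * c₂ +
          L.card * ((∑ d ∈ K, x d) * c₃) + K.card * ((∑ a ∈ L, y a) * c₄) +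
          (∑ a ∈ L, y a) * ∑ d ∈ K, I d := by
        intro x y I c₁ c₂ c₃ c₄
        have : ∀ d ∈ K, ∑ a ∈ L, (c₁ + y a * x d * c₂ + x d * c₃ + y a * c₄ + y a * I d) =
            L.card * c₁ + x d * ((∑ a ∈ L, y a) * c₂) + x d * (L.card * c₃) +
            (∑ a ∈ L, y a) * c₄ + I d * (∑ a ∈ L, y a) := by
          intro d _
          rw [sum_add_distrib, sum_add_distrib, sum_add_distrib, sum_add_distrib, sum_const,
            sum_const, nsmul_eq_mul, nsmul_eq_mul]
          have e1 : ∑ a ∈ L, y a * x d * c₂ = x d * ((∑ a ∈ L, y a) * c₂) := by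
            rw [sum_mul, mul_sum]
            apply sum_congr rfl; intro a _; ring
          rw [e1, ← sum_mul, ← sum_mul]
          ring
        rw [sum_congr rfl this]
        rw [sum_add_distrib, sum_add_distrib, sum_add_distrib, sum_add_distrib, sum_const,
          sum_const, nsmul_eq_mul, nsmul_eq_mul, ← sum_mul, ← sum_mul, ← sum_mul]
        ring
      rw [e0 (fun d => if X d = j then 0 else 1) (fun a => if Y a = z then 0 else 1)
        (fun d => info K X d)]
      rw [sum_ind_not, sum_ind_not, hM, hN]
      rw [hM] at hI'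
      rw [hN] at hJ'
      generalize (∑ d ∈ K, info K X d) = I at *
      generalize (∑ a ∈ L, info L Y a) = J at *
      generalize co L Y z = p at *
      generalize co K X j = r at *
      generalize (K.card : ℝ) = k at *
      generalize (L.card : ℝ) = l at *
      set Λ := -Real.log τ with hΛdef
      have hlp : 0 ≤ -Real.log p := by
        rw [neg_nonneg]; exact Real.log_nonpos hp0 (by linarith)
      have hlr : 0 ≤ -Real.log r := by
        rw [neg_nonneg]; exact Real.log_nonpos hr0 (by linarith)
      have hplp : 0 ≤ p * l * -Real.log p := by positivity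
      have hrlr : 0 ≤ r * k * -Real.log r := by positivity
      -- the five terms
      have t1 : k * (l * (2 * (p * r))) ≤ 2 * τ / Λ * (k * J) := by
        have : 2 * τ / Λ * (k * J) = 2 * τ * k * J / Λ := by ring
        rw [this, le_div_iff₀ hΛ]
        calc k * (l * (2 * (p * r))) * Λ = 2 * r * k * (p * l * Λ) := by ring
          _ ≤ 2 * τ * k * J := by gcongr
      have t2 : r * k * (p * l) * (-Real.log p - Real.log r) ≤ τ * (k * J) + τ * (l * I) := by
        have a1 : r * k * (p * l * -Real.log p) ≤ τ * k * J := by gcongr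
        have a2 : p * l * (r * k * -Real.log r) ≤ τ * l * I := by gcongr
        linarith
      have t3 : l * (r * k * (p / r)) ≤ 1 / Λ * (k * J) := by
        have a1 : r * (p / r) ≤ p := by
          rcases hr0.eq_or_lt with h0 | h0
          · rw [← h0]; simpa using hp0
          · rw [mul_div_cancel₀ _ h0.ne']
        have : 1 / Λ * (k * J) = k * J / Λ := by ring
        rw [this, le_div_iff₀ hΛ]
        calc l * (r * k * (p / r)) * Λ = k * l * Λ * (r * (p / r)) := by ring
          _ ≤ k * l * Λ * p := by gcongr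
          _ = k * (p * l * Λ) := by ring
          _ ≤ k * J := by gcongr
      have t4 : k * (p * l * (r / p)) ≤ 1 / Λ * (l * I) := by
        have a1 : p * (r / p) ≤ r := by
          rcases hp0.eq_or_lt with h0 | h0
          · rw [← h0]; simpa using hr0
          · rw [mul_div_cancel₀ _ h0.ne']
        have : 1 / Λ * (l * I) = l * I / Λ := by ring
        rw [this, le_div_iff₀ hΛ]
        calc k * (p * l * (r / p)) * Λ = k * l * Λ * (p * (r / p)) := by ring
          _ ≤ k * l * Λ * r := by gcongr
          _ = l * (r * k * Λ) := by ring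
          _ ≤ l * I := by gcongr
      have t5 : p * l * I ≤ (1 / τ + 1 + -Real.log lam / τ) * (p * l * I) := by
        have a1 : 0 ≤ p * l * I := by positivity
        have a2 : 0 ≤ (1 / τ + -Real.log lam / τ) * (p * l * I) := by positivity
        linarith
      have t6 : 0 ≤ 2 * lam / τ * (l * I) := by positivity
      have t7 : 0 ≤ 2 * τ / Λ * (l * I) := by positivity
      have e5 : ((2 * τ + 1) / Λ + τ + 2 * lam / τ) * (l * I) +
          ((2 * τ + 1) / Λ + τ) * (k * J) = 2 * τ / Λ * (k * J) +
          (τ * (k * J) + τ * (l * I)) + 1 / Λ * (k * J) + 1 / Λ * (l * I) +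
          2 * lam / τ * (l * I) + 2 * τ / Λ * (l * I) := by ring
      rw [e5]
      linarith
    · -- V not concentrated on this class
      push Not at h2
      have hg : ∀ d a, gf τ lam K X L Y z (X d) (Y a) = mu K X (X d) := by
        intro d a
        unfold gf AB
        rw [dif_pos h1, if_neg (not_le.2 h2)]
        simp
      simp only [hg]
      refine ⟨fun d hd _ _ => mu_pos hd, ?_⟩
      have h3 : ∑ d ∈ K, ∑ _a ∈ L, -Real.log (mu K X (X d)) =
          L.card * ∑ d ∈ K, info K X d := by
        rw [mul_sum]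
        apply sum_congr rfl
        intro d _
        rw [sum_const, nsmul_eq_mul]
        rfl
      rw [h3]
      have h4 : (L.card : ℝ) ≤ 1 / τ * ((L.filter (fun a => Y a ≠ z)).card : ℝ) := by
        rw [co_mul_card hL, one_div, ← div_eq_inv_mul, le_div_iff₀ hτ0]
        rw [mul_comm]
        gcongr
      have h5 : (L.card : ℝ) * ∑ d ∈ K, info K X d ≤
          1 / τ * (((L.filter (fun a => Y a ≠ z)).card : ℝ) * ∑ d ∈ K, info K X d) := by
        rw [← mul_assoc]
        exact mul_le_mul_of_nonneg_right h4 hI0
      have h6 : 0 ≤ (((2 * τ + 1) / (-Real.log τ) + τ) + 2 * lam / τ) *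
          (L.card * ∑ d ∈ K, info K X d) := by positivity
      have h7 : 0 ≤ ((2 * τ + 1) / (-Real.log τ) + τ) * (K.card * ∑ a ∈ L, info L Y a) := by
        positivity
      have h8 : 0 ≤ (1 + (-Real.log lam) / τ) *
        (((L.filter (fun a => Y a ≠ z)).card : ℝ) * ∑ d ∈ K, info K X d) := by positivity
      have h9 : (1 / τ + 1 + (-Real.log lam) / τ) *
        (((L.filter (fun a => Y a ≠ z)).card : ℝ) * ∑ d ∈ K, info K X d) = 1 / τ *
        (((L.filter (fun a => Y a ≠ z)).card : ℝ) * ∑ d ∈ K, info K X d) +
        (1 + (-Real.log lam) / τ) *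
        (((L.filter (fun a => Y a ≠ z)).card : ℝ) * ∑ d ∈ K, info K X d) := by ring
      rw [h9]
      linarith
  · -- D not concentrated on this class
    have hg : ∀ d a, gf τ lam K X L Y z (X d) (Y a) =
        (if Y a = z then 1 - lam else 0) + lam * mu K X (X d) := by
      intro d a
      unfold gf AB
      rw [dif_neg h1]
    simp only [hg]
    have hpos : ∀ d ∈ K, ∀ a, 0 < (if Y a = z then 1 - lam else 0) + lam * mu K X (X d) := by
      intro d hd a
      have := mu_pos (X := X) hd
      split_ifs
      · have : 0 < 1 - lam := by linarith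
        positivity
      · positivity
    refine ⟨fun d hd a _ => hpos d hd a, ?_⟩
    have hinfo : ∀ d ∈ K, τ ≤ info K X d := by
      intro d hd
      push Not at h1
      have e1 := h1 (X d)
      have e2 := mu_add_co hK X (X d)
      have e3 : mu K X (X d) ≤ 1 - τ := by linarith
      unfold info
      have e4 : Real.log (mu K X (X d)) ≤ mu K X (X d) - 1 :=
        Real.log_le_sub_one_of_pos (mu_pos hd)
      linarith
    have hpt : ∀ d ∈ K, ∀ a ∈ L,
        -Real.log ((if Y a = z then 1 - lam else 0) + lam * mu K X (X d)) ≤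
        2 * lam / τ * info K X d +
          (if Y a = z then 0 else 1) * ((1 + (-Real.log lam) / τ) * info K X d) := by
      intro d hd a _
      have hmu := mu_pos (X := X) hd
      have hi := hinfo d hd
      have hi0 : 0 ≤ info K X d := by linarith
      by_cases hu : Y a = z
      · rw [if_pos hu, if_pos hu, zero_mul, add_zero]
        have e1 : 0 < 1 - lam := by linarith
        have e2 : -Real.log (1 - lam + lam * mu K X (X d)) ≤ -Real.log (1 - lam) := by
          apply neg_le_neg
          apply Real.log_le_log e1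
          have : 0 ≤ lam * mu K X (X d) := by positivity
          linarith
        have e3 : -Real.log (1 - lam) ≤ 2 * lam := by
          have : -Real.log (1 - lam) ≤ lam / (1 - lam) := by
            rw [← Real.log_inv]
            refine (Real.log_le_sub_one_of_pos (inv_pos.2 e1)).trans (le_of_eq ?_)
            field_simp
            ring
          refine this.trans ?_
          rw [div_le_iff₀ e1]
          nlinarith
        have e4 : 2 * lam ≤ 2 * lam / τ * info K X d := by
          calc 2 * lam = 2 * lam / τ * τ := by field_simp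
            _ ≤ 2 * lam / τ * info K X d := by gcongr
        linarith
      · rw [if_neg hu, if_neg hu, zero_add, one_mul, Real.log_mul hl0.ne' hmu.ne']
        have e4 : -Real.log lam ≤ -Real.log lam / τ * info K X d := by
          calc -Real.log lam = -Real.log lam / τ * τ := by field_simp
            _ ≤ -Real.log lam / τ * info K X d := by gcongr
        have e5 : 0 ≤ 2 * lam / τ * info K X d := by positivity
        have e6 : info K X d = -Real.log (mu K X (X d)) := rfl
        linarith
    refine (sum_le_sum (fun d hd => sum_le_sum (fun a ha => hpt d hd a ha))).trans ?_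
    have e0 : ∑ d ∈ K, ∑ a ∈ L, (2 * lam / τ * info K X d +
          (if Y a = z then 0 else 1) * ((1 + (-Real.log lam) / τ) * info K X d)) =
        2 * lam / τ * (L.card * ∑ d ∈ K, info K X d) +
        (1 + (-Real.log lam) / τ) *
          (((L.filter (fun a => Y a ≠ z)).card : ℝ) * ∑ d ∈ K, info K X d) := by
      have : ∀ d ∈ K, ∑ a ∈ L, (2 * lam / τ * info K X d +
          (if Y a = z then 0 else 1) * ((1 + (-Real.log lam) / τ) * info K X d)) =
          (2 * lam / τ * L.card + (1 + (-Real.log lam) / τ) *
            ((L.filter (fun a => Y a ≠ z)).card : ℝ)) * info K X d := by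
        intro d _
        rw [sum_add_distrib, sum_const, nsmul_eq_mul, ← sum_mul, sum_ind_not]
        ring
      rw [sum_congr rfl this, ← mul_sum]
      ring
    rw [e0]
    have h6 : 0 ≤ ((2 * τ + 1) / (-Real.log τ) + τ) *
        (L.card * ∑ d ∈ K, info K X d) := by positivity
    have h7 : 0 ≤ ((2 * τ + 1) / (-Real.log τ) + τ) * (K.card * ∑ a ∈ L, info L Y a) := by
      positivity
    have h8 : 0 ≤ 1 / τ *
      (((L.filter (fun a => Y a ≠ z)).card : ℝ) * ∑ d ∈ K, info K X d) := by positivity
    linarith

end factor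

end Pool.Agent.Helper2.E
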