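import Pool.Agent.Helper2.ESum

set_option autoImplicit false

/-!
The product side, on exponent vectors: iterated sumsets of finite sets of finitely supported
integer vectors.
-/

open Finset

namespace Pool.Agent.Helper2.E

/-- a sub-probability on the fibres of `f` forces many values -/
theorem log_image_ge' {ι β : Type*} [DecidableEq ι] [DecidableEq β] {Ω : Finset ι}
    (hΩ : Ω.Nonempty) (f : ι → β) (w : ι → ℝ) (hw : ∀ e ∈ Ω, 0 < w e)
    (hker : ∀ x, ∑ e ∈ Ω.filter (fun e => f e = x), w e ≤ 1) :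
    Real.log Ω.card + (1 / (Ω.card : ℝ)) * ∑ e ∈ Ω, Real.log (w e) ≤
      Real.log ((Ω.image f).card : ℝ) := by
  classical
  have hn : (0:ℝ) < Ω.card := by exact_mod_cast card_pos.2 hΩ
  have hT : (0:ℝ) < ((Ω.image f).card : ℝ) := by exact_mod_cast card_pos.2 (hΩ.image f)
  set n : ℝ := (Ω.card : ℝ) with hndef
  set T : ℝ := ((Ω.image f).card : ℝ) with hTdef
  have hsum : ∑ e ∈ Ω, w e ≤ T := by
    rw [← Finset.sum_fiberwise_of_maps_to (t := Ω.image f) (g := f)
      (fun e he => mem_image_of_mem _ he)]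
    calc ∑ x ∈ Ω.image f, ∑ e ∈ Ω.filter (fun e => f e = x), w e
        ≤ ∑ _x ∈ Ω.image f, (1:ℝ) := sum_le_sum (fun x _ => hker x)
      _ = T := by rw [sum_const, nsmul_eq_mul, mul_one]
  have h1 : ∀ e ∈ Ω, Real.log (w e) ≤ Real.log (T / n) + (n / T * w e - 1) := by
    intro e he
    have h2 : Real.log (n / T * w e) ≤ n / T * w e - 1 :=
      Real.log_le_sub_one_of_pos (mul_pos (div_pos hn hT) (hw e he))
    have h3 : Real.log (n / T * w e) = -Real.log (T / n) + Real.log (w e) := by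
      rw [Real.log_mul (div_pos hn hT).ne' (hw e he).ne', Real.log_div hn.ne' hT.ne',
        Real.log_div hT.ne' hn.ne']
      ring
    linarith
  have h4 : ∑ e ∈ Ω, Real.log (w e) ≤ n * Real.log (T / n) := by
    refine (sum_le_sum h1).trans ?_
    rw [sum_add_distrib, sum_sub_distrib, ← mul_sum, sum_const, sum_const, nsmul_eq_mul,
      nsmul_eq_mul, mul_one]
    have h5 : n / T * ∑ e ∈ Ω, w e ≤ n / T * T :=
      mul_le_mul_of_nonneg_left hsum (div_pos hn hT).le
    have h6 : n / T * T = n := by field_simp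
    linarith
  have h7 : (1 / n) * ∑ e ∈ Ω, Real.log (w e) ≤ Real.log (T / n) := by
    have := mul_le_mul_of_nonneg_left h4 (by positivity : 0 ≤ 1 / n)
    have h8 : 1 / n * (n * Real.log (T / n)) = Real.log (T / n) := by field_simp
    linarith
  rw [Real.log_div hT.ne' hn.ne'] at h7
  linarith

/-- iterated sumset of vectors -/
noncomputable def vI {ι : Type*} [DecidableEq ι] (A : Finset (ι →₀ ℤ)) : ℕ → Finset (ι →₀ ℤ)
  | 0 => {0}
  | (j + 1) => image₂ (· + ·) (vI A j) A

variable {ι : Type*} [DecidableEq ι]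

/-- the class of vectors of `K` with `q`-coordinate `c` -/
def vc (K : Finset (ι →₀ ℤ)) (q : ι) (c : ℤ) : Finset (ι →₀ ℤ) := K.filter (fun d => d q = c)

theorem mem_vc {K : Finset (ι →₀ ℤ)} {q : ι} {c : ℤ} {d : ι →₀ ℤ} :
    d ∈ vc K q c ↔ d ∈ K ∧ d q = c := by
  unfold vc; rw [mem_filter]

/-- the factor at the coordinate `q` -/
noncomputable def fq (θ : ℝ) (K : Finset (ι →₀ ℤ)) (q : ι) (y c : ℤ) : ℝ :=
  if y = 0 then
    (if c = 0 then (((vc K q c).card : ℝ) / K.card) ^ θ else θ * (((vc K q c).card : ℝ) / K.card))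
  else (1 / 2) * (if c = y then 1 else (((vc K q c).card : ℝ) / K.card))

/-- the weight along a list of coordinates -/
noncomputable def wv (θ : ℝ) (y d : ι →₀ ℤ) : List ι → Finset (ι →₀ ℤ) → ℝ
  | [], _ => 1
  | (q :: l), K => fq θ K q (y q) (d q) * wv θ y d l (vc K q (d q))

theorem vc_sum (K : Finset (ι →₀ ℤ)) (q : ι) (hK : K.Nonempty) :
    ∑ c ∈ K.image (fun d => d q), (((vc K q c).card : ℝ) / K.card) = 1 := by
  have h1 : (K.card : ℝ) = ∑ c ∈ K.image (fun d => d q), ((vc K q c).card : ℝ) := by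
    have := Finset.card_eq_sum_card_image (fun d : ι →₀ ℤ => d q) K
    exact_mod_cast this
  have hpos : (0:ℝ) < K.card := by exact_mod_cast card_pos.2 hK
  rw [← sum_div, ← h1, div_self hpos.ne']

theorem fq_sum {θ : ℝ} (hθ0 : 0 < θ) (hθ1 : θ ≤ 1) (K : Finset (ι →₀ ℤ)) (hK : K.Nonempty)
    (q : ι) (y : ℤ) : ∑ c ∈ K.image (fun d => d q), fq θ K q y c ≤ 1 := by
  have hsum := vc_sum K q hK
  set ρ : ℤ → ℝ := fun c => ((vc K q c).card : ℝ) / K.card with hρ
  have hρ0 : ∀ c, 0 ≤ ρ c := fun c => by positivity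
  by_cases hy : y = 0
  · have hf : ∀ c, fq θ K q y c = if c = 0 then (ρ c) ^ θ else θ * ρ c := by
      intro c; unfold fq; rw [if_pos hy]
    simp only [hf]
    by_cases h0 : (0:ℤ) ∈ K.image (fun d => d q)
    · rw [← add_sum_erase _ _ h0, if_pos rfl]
      have h1 : ∑ c ∈ (K.image (fun d => d q)).erase 0, (if c = 0 then (ρ c) ^ θ else θ * ρ c) =
          θ * ∑ c ∈ (K.image (fun d => d q)).erase 0, ρ c := by
        rw [mul_sum]
        apply sum_congr rfl
        intro c hc
        rw [if_neg (ne_of_mem_erase hc)]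
      have h2 : ∑ c ∈ (K.image (fun d => d q)).erase 0, ρ c = 1 - ρ 0 := by
        rw [← hsum, ← add_sum_erase _ _ h0]; ring
      rw [h1, h2]
      exact bern hθ0.le hθ1 (hρ0 0)
    · have h1 : ∑ c ∈ K.image (fun d => d q), (if c = 0 then (ρ c) ^ θ else θ * ρ c) =
          θ * ∑ c ∈ K.image (fun d => d q), ρ c := by
        rw [mul_sum]
        apply sum_congr rfl
        intro c hc
        rw [if_neg (fun h => h0 (by rw [← h]; exact hc))]
      rw [h1, hsum, mul_one]
      exact hθ1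
  · have hf : ∀ c, fq θ K q y c ≤ (1 / 2) * (if c = y then 1 else 0) + (1 / 2) * ρ c := by
      intro c
      unfold fq
      rw [if_neg hy]
      have := hρ0 c
      simp only [hρ] at this
      split_ifs with h
      · linarith
      · linarith
    refine (sum_le_sum (fun c _ => hf c)).trans ?_
    rw [sum_add_distrib, ← mul_sum, ← mul_sum, hsum]
    have h1 : ∑ c ∈ K.image (fun d => d q), (if c = y then (1:ℝ) else 0) ≤ 1 := by
      rw [sum_ite_eq']
      split_ifs <;> norm_num
    linarith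

theorem fq_pos {θ : ℝ} (hθ0 : 0 < θ) {K : Finset (ι →₀ ℤ)} {d : ι →₀ ℤ} (hd : d ∈ K)
    (q : ι) (y : ℤ) : 0 < fq θ K q y (d q) := by
  have h1 : 0 < (vc K q (d q)).card := card_pos.2 ⟨d, mem_filter.2 ⟨hd, rfl⟩⟩
  have h2 : 0 < K.card := card_pos.2 ⟨d, hd⟩
  have h3 : (0:ℝ) < ((vc K q (d q)).card : ℝ) := by exact_mod_cast h1
  have h4 : (0:ℝ) < (K.card : ℝ) := by exact_mod_cast h2
  unfold fq
  split_ifs <;> positivity

theorem wv_pos {θ : ℝ} (hθ0 : 0 < θ) (y d : ι →₀ ℤ) : ∀ (l : List ι) (K : Finset (ι →₀ ℤ)),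
    d ∈ K → 0 < wv θ y d l K := by
  intro l
  induction l with
  | nil => intro K _; exact one_pos
  | cons q l ih =>
    intro K hd
    exact mul_pos (fq_pos hθ0 hd q _) (ih _ (mem_filter.2 ⟨hd, rfl⟩))

/-- kernel -/
theorem wv_sum {θ : ℝ} (hθ0 : 0 < θ) (hθ1 : θ ≤ 1) (y : ι →₀ ℤ) :
    ∀ (l : List ι) (K : Finset (ι →₀ ℤ)),
      (∀ d ∈ K, ∀ d' ∈ K, (∀ q ∈ l, d q = d' q) → d = d') → ∑ d ∈ K, wv θ y d l K ≤ 1 := by
  intro l
  induction l with
  | nil =>
    intro K hsep
    have h1 : K.card ≤ 1 := by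
      rw [card_le_one]
      intro d hd d' hd'
      exact hsep d hd d' hd' (by simp)
    simp only [wv, sum_const, nsmul_eq_mul, mul_one]
    exact_mod_cast h1
  | cons q l ih =>
    intro K hsep
    rcases K.eq_empty_or_nonempty with h0 | hne
    · rw [h0, sum_empty]; exact zero_le_one
    rw [← Finset.sum_fiberwise_of_maps_to (t := K.image (fun d => d q)) (g := fun d => d q)
      (fun e he => mem_image_of_mem _ he)]
    refine le_trans (sum_le_sum (g := fun c => fq θ K q (y q) c) ?_) (fq_sum hθ0 hθ1 K hne q (y q))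
    intro c hc
    have h1 : ∀ d ∈ K.filter (fun d => d q = c), wv θ y d (q :: l) K =
        fq θ K q (y q) c * wv θ y d l (vc K q c) := by
      intro d hd
      rw [mem_filter] at hd
      show fq θ K q (y q) (d q) * wv θ y d l (vc K q (d q)) = _
      rw [hd.2]
    rw [sum_congr rfl h1, ← mul_sum]
    have h2 : ∑ d ∈ K.filter (fun d => d q = c), wv θ y d l (vc K q c) ≤ 1 := by
      apply ih
      intro d hd d' hd' h
      rw [mem_filter] at hd hd'
      apply hsep d hd.1 d' hd'.1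
      intro q' hq'
      rcases List.mem_cons.1 hq' with rfl | hq'
      · rw [hd.2, hd'.2]
      · exact h q' hq'
    have h3 : 0 ≤ fq θ K q (y q) c := by
      obtain ⟨d, hd, rfl⟩ := mem_image.1 hc
      exact (fq_pos hθ0 hd q _).le
    calc fq θ K q (y q) c * ∑ d ∈ K.filter (fun d => d q = c), wv θ y d l (vc K q c)
        ≤ fq θ K q (y q) c * 1 := mul_le_mul_of_nonneg_left h2 h3
      _ = _ := mul_one _

/-- cost of one coordinate -/
theorem fq_cost {θ : ℝ} (hθ0 : 0 < θ) (hθ1 : θ ≤ 1) {K : Finset (ι →₀ ℤ)} {d : ι →₀ ℤ}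
    (hd : d ∈ K) (q : ι) (a : ℤ) :
    -Real.log (fq θ K q (d q + a) (d q)) ≤
      (if d q + a = 0 then 0 else 1) * Real.log 2 +
      θ * (Real.log K.card - Real.log (vc K q (d q)).card) +
      (if a = 0 then 0 else 1) * (Real.log K.card - Real.log (vc K q (d q)).card) +
      (if a = 0 then 0 else 1) * ((if d q = 0 then 0 else 1) * Real.log (1 / θ)) := by
  have h1 : 0 < (vc K q (d q)).card := card_pos.2 ⟨d, mem_filter.2 ⟨hd, rfl⟩⟩
  have h2 : 0 < K.card := card_pos.2 ⟨d, hd⟩
  have h3 : (0:ℝ) < ((vc K q (d q)).card : ℝ) := by exact_mod_cast h1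
  have h4 : (0:ℝ) < (K.card : ℝ) := by exact_mod_cast h2
  have h5 : Real.log ((vc K q (d q)).card : ℝ) ≤ Real.log K.card :=
    Real.log_le_log h3 (by exact_mod_cast card_le_card (filter_subset _ _))
  have hlogθ : 0 ≤ Real.log (1 / θ) := by
    apply Real.log_nonneg
    rw [le_div_iff₀ hθ0]; linarith
  have hlog2 : 0 < Real.log 2 := Real.log_pos (by norm_num)
  have hdiv : Real.log (((vc K q (d q)).card : ℝ) / K.card) =
      Real.log (vc K q (d q)).card - Real.log K.card := Real.log_div h3.ne' h4.ne'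
  have hpos : 0 < ((vc K q (d q)).card : ℝ) / K.card := by positivity
  have hθ' : Real.log (1 / θ) = -Real.log θ := by rw [one_div, Real.log_inv]
  have hge : 0 ≤ θ * (Real.log K.card - Real.log (vc K q (d q)).card) :=
    mul_nonneg hθ0.le (by linarith)
  unfold fq
  by_cases hy : d q + a = 0
  · rw [if_pos hy, if_pos hy]
    by_cases hc : d q = 0
    · have ha : a = 0 := by omega
      rw [if_pos hc, if_pos ha, if_pos hc, Real.log_rpow hpos, hdiv]
      simp only [zero_mul]
      linarith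
    · have ha : a ≠ 0 := by omega
      rw [if_neg hc, if_neg ha, if_neg hc, Real.log_mul hθ0.ne' hpos.ne', hdiv, hθ']
      simp only [zero_mul, one_mul]
      linarith
  · rw [if_neg hy, if_neg hy]
    by_cases ha : a = 0
    · rw [if_pos (by omega), if_pos ha, Real.log_mul (by norm_num) (by norm_num), Real.log_one,
        one_div, Real.log_inv]
      simp only [zero_mul, one_mul]
      linarith
    · rw [if_neg (by omega), if_neg ha, Real.log_mul (by norm_num) hpos.ne', hdiv, one_div,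
        Real.log_inv]
      simp only [one_mul]
      have h6 : 0 ≤ (if d q = 0 then (0:ℝ) else 1) * Real.log (1 / θ) := by
        split_ifs <;> linarith
      linarith

/-- total cost, averaged over the second summand -/
theorem wv_cost {θ κ : ℝ} (hθ0 : 0 < θ) (hθ1 : θ ≤ 1) (hκ0 : 0 ≤ κ) {α : Type*} (A : Finset α)
    (vec : α → ι →₀ ℤ)
    (hκ : ∀ q, ((A.filter (fun a => vec a q ≠ 0)).card : ℝ) ≤ κ * A.card)
    (d : ι →₀ ℤ) : ∀ (l : List ι) (K : Finset (ι →₀ ℤ)), d ∈ K →
    -∑ a ∈ A, Real.log (wv θ (d + vec a) d l K) ≤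
      (∑ a ∈ A, ((l.countP (fun q => decide ((d + vec a) q ≠ 0)) : ℕ) : ℝ)) * Real.log 2 +
      (A.card : ℝ) * ((θ + κ) * Real.log K.card) +
      κ * A.card * (((l.countP (fun q => decide (d q ≠ 0)) : ℕ) : ℝ) * Real.log (1 / θ)) := by
  have hlogθ : 0 ≤ Real.log (1 / θ) := by
    apply Real.log_nonneg
    rw [le_div_iff₀ hθ0]; linarith
  intro l
  induction l with
  | nil =>
    intro K hd
    simp only [wv, Real.log_one, sum_const_zero, neg_zero, List.countP_nil, Nat.cast_zero,
      zero_mul, mul_zero, add_zero, zero_add]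
    have := Real.log_natCast_nonneg K.card
    positivity
  | cons q l ih =>
    intro K hd
    set K' := vc K q (d q) with hK'
    have hd' : d ∈ K' := mem_vc.2 ⟨hd, rfl⟩
    have ih' := ih K' hd'
    have hK0 : (0:ℝ) < K'.card := by exact_mod_cast card_pos.2 ⟨d, hd'⟩
    set Δ := Real.log (K.card : ℝ) - Real.log (K'.card : ℝ) with hΔ
    have hΔ0 : 0 ≤ Δ := by
      have : Real.log (K'.card : ℝ) ≤ Real.log K.card :=
        Real.log_le_log hK0 (by exact_mod_cast card_le_card (filter_subset _ _))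
      linarith
    have h1 : ∀ a ∈ A, Real.log (wv θ (d + vec a) d (q :: l) K) =
        Real.log (fq θ K q (d q + vec a q) (d q)) + Real.log (wv θ (d + vec a) d l K') := by
      intro a _
      exact Real.log_mul (fq_pos hθ0 hd q _).ne' (wv_pos hθ0 _ _ l K' hd').ne'
    rw [sum_congr rfl h1, sum_add_distrib]
    have h2 : -∑ a ∈ A, Real.log (fq θ K q (d q + vec a q) (d q)) ≤
        (∑ a ∈ A, (if d q + vec a q = 0 then (0:ℝ) else 1)) * Real.log 2 +
        (A.card : ℝ) * (θ * Δ) + κ * A.card * Δ +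
        κ * A.card * ((if d q = 0 then 0 else 1) * Real.log (1 / θ)) := by
      rw [← sum_neg_distrib]
      refine (sum_le_sum (fun a _ => fq_cost hθ0 hθ1 hd q (vec a q))).trans ?_
      have e0 : ∀ (x y : α → ℝ) (c₁ c₂ c₃ c₄ : ℝ),
          ∑ a ∈ A, (x a * c₁ + c₂ + y a * c₃ + y a * c₄) =
          (∑ a ∈ A, x a) * c₁ + (A.card : ℝ) * c₂ + (∑ a ∈ A, y a) * c₃ +
            (∑ a ∈ A, y a) * c₄ := by
        intro x y c₁ c₂ c₃ c₄
        rw [sum_add_distrib, sum_add_distrib, sum_add_distrib, sum_mul, sum_mul, sum_mul,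
          sum_const, nsmul_eq_mul]
      rw [e0]
      have h3 : ∑ a ∈ A, (if vec a q = 0 then (0:ℝ) else 1) ≤ κ * A.card := by
        refine le_trans (le_of_eq ?_) (hκ q)
        rw [card_filter]
        push_cast
        apply sum_congr rfl
        intro a _
        by_cases h : vec a q = 0 <;> simp [h]
      have h4 : (∑ a ∈ A, (if vec a q = 0 then (0:ℝ) else 1)) * Δ ≤ κ * A.card * Δ :=
        mul_le_mul_of_nonneg_right h3 hΔ0
      have h5 : 0 ≤ (if d q = 0 then (0:ℝ) else 1) * Real.log (1 / θ) := by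
        split_ifs <;> linarith
      have h6 := mul_le_mul_of_nonneg_right h3 h5
      linarith
    have h7 : ∀ a ∈ A, (((q :: l).countP (fun q => decide ((d + vec a) q ≠ 0)) : ℕ) : ℝ) =
        ((l.countP (fun q => decide ((d + vec a) q ≠ 0)) : ℕ) : ℝ) +
        (if d q + vec a q = 0 then (0:ℝ) else 1) := by
      intro a _
      rw [List.countP_cons]
      push_cast
      congr 1
      by_cases h : d q + vec a q = 0 <;> simp [h]
    have h8 : (((q :: l).countP (fun q => decide (d q ≠ 0)) : ℕ) : ℝ) =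
        ((l.countP (fun q => decide (d q ≠ 0)) : ℕ) : ℝ) + (if d q = 0 then (0:ℝ) else 1) := by
      rw [List.countP_cons]
      push_cast
      congr 1
      by_cases h : d q = 0 <;> simp [h]
    rw [sum_congr rfl h7, h8, sum_add_distrib]
    have h9 : Real.log (K.card : ℝ) = Real.log (K'.card : ℝ) + Δ := by rw [hΔ]; ring
    rw [h9]
    have h10 : (A.card : ℝ) * ((θ + κ) * (Real.log (K'.card : ℝ) + Δ)) =
      (A.card : ℝ) * ((θ + κ) * Real.log (K'.card : ℝ)) + (A.card : ℝ) * (θ * Δ) +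
      κ * A.card * Δ := by ring
    rw [h10, add_mul, add_mul, mul_add]
    linarith

end Pool.Agent.Helper2.E
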