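import Pool.Agent.Helper2.EGlue

set_option autoImplicit false

/-!
The second gluing step and the induction over levels and primes.
-/

open Finset

namespace Pool.Agent.Helper2.E

theorem add_bound {x y z w t : ℝ} (h1 : x ≤ y + z) (h2 : y ≤ w + t) : -t + x ≤ w + z := by
  linarith

/-- **Type B step**: no class of `E` is heavy. -/
theorem stepB {θ η Λ T T' : ℝ} (hθ0 : 0 < θ) (hη0 : 0 < η) (hη1 : η < 1)
    (hT : T' + -Real.log (1 - (1 - η) ^ θ) ≤ T) {u : ℕ} {E M : Finset ℤ} {α β : ℤ → ℤ}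
    (hE : E.Nonempty) (hM : M.Nonempty)
    (hmatch : ∀ d ∈ E, ∀ m ∈ M, ∀ d' ∈ E, ∀ m' ∈ M,
      d + (u:ℤ) * m = d' + (u:ℤ) * m' → (α d = α d' ↔ β m = β m'))
    {F F' : ℤ → ℤ → Prop} (hΛ : 0 ≤ Λ)
    (hsub : ∀ a ∈ E.image α, ∀ b ∈ M.image β,
      Good θ Λ T u (E.filter (fun d => α d = a)) (M.filter (fun m => β m = b)) F)
    (hlight : ∀ a ∈ E.image α,
      ((E.filter (fun d => α d = a)).card : ℝ) ≤ (1 - η) * (E.card : ℝ))
    (hnext : Good θ Λ T' u E M F')
    (hFF : ∀ d ∈ E, ∀ m ∈ M, 2 * (M.filter (fun m' => β m' = β m)).card ≤ M.card →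
      F' d m → F d m) :
    Good θ Λ T u E M F := by
  classical
  choose! W hW hcost using hsub
  obtain ⟨W', hW', hcost'⟩ := hnext
  have hρ0 : 0 < 1 - η := by linarith
  set ρ := (1 - η) ^ θ with hρ
  have hρpos : 0 < ρ := Real.rpow_pos_of_pos hρ0 _
  have hρ1 : ρ < 1 := Real.rpow_lt_one hρ0.le (by linarith) hθ0
  have hMpos : (0:ℝ) < M.card := by exact_mod_cast card_pos.2 hM
  have hEpos : (0:ℝ) < E.card := by exact_mod_cast card_pos.2 hE
  let heavy : ℤ → Prop := fun b => M.card < 2 * (M.filter (fun m' => β m' = b)).card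
  have huniq : ∀ b b', heavy b → heavy b' → b = b' := by
    intro b b' hb hb'
    by_contra hne
    have hdis : Disjoint (M.filter (fun m' => β m' = b)) (M.filter (fun m' => β m' = b')) := by
      rw [disjoint_left]
      intro m hm hm'
      rw [mem_filter] at hm hm'
      exact hne (hm.2.symm.trans hm'.2)
    have h1 := card_union_of_disjoint hdis
    have h2 : (M.filter (fun m' => β m' = b) ∪ M.filter (fun m' => β m' = b')).card ≤ M.card :=
      card_le_card (union_subset (filter_subset _ _) (filter_subset _ _))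
    simp only [heavy] at hb hb'
    omega
  let q : ℤ → ℤ → ℝ := fun _ b => if heavy b then ρ else 0
  have hq0 : ∀ a b, 0 ≤ q a b := by
    intro a b
    simp only [q]
    split_ifs
    · exact hρpos.le
    · exact le_rfl
  refine ⟨fun d m => if heavy (β m) then ρ * W (α d) (β m) d m else (1 - ρ) * W' d m,
    ⟨?_, ?_⟩, ?_⟩
  · intro d hd m hm
    split_ifs
    · exact mul_pos hρpos ((hW _ (mem_image_of_mem _ hd) _ (mem_image_of_mem _ hm)).pos d
        (mem_filter.2 ⟨hd, rfl⟩) m (mem_filter.2 ⟨hm, rfl⟩))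
    · exact mul_pos (by linarith) (hW'.pos d hd m hm)
  · intro x
    obtain ⟨K, hK1, hK2, hK3⟩ := glue hmatch hW q hq0 x
    have h1 : ∑ e ∈ (E ×ˢ M).filter (fun e => e.1 + (u:ℤ) * e.2 = x),
        (if heavy (β e.2) then ρ * W (α e.1) (β e.2) e.1 e.2 else (1 - ρ) * W' e.1 e.2) ≤
        (∑ e ∈ (E ×ˢ M).filter (fun e => e.1 + (u:ℤ) * e.2 = x),
          q (α e.1) (β e.2) * W (α e.1) (β e.2) e.1 e.2) +
        (1 - ρ) * ∑ e ∈ (E ×ˢ M).filter (fun e => e.1 + (u:ℤ) * e.2 = x), W' e.1 e.2 := by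
      rw [mul_sum, ← sum_add_distrib]
      apply sum_le_sum
      intro e he
      rw [mem_filter, mem_product] at he
      have hp := hW'.pos e.1 he.1.1 e.2 he.1.2
      simp only [q]
      split_ifs
      · have := mul_nonneg (by linarith : (0:ℝ) ≤ 1 - ρ) hp.le
        linarith
      · rw [zero_mul, zero_add]
    have h2 : ∑ z ∈ K, q z.1 z.2 ≤ ρ := by
      rw [← sum_filter_add_sum_filter_not K (fun z => heavy z.2)]
      have h3 : ∑ z ∈ K.filter (fun z => ¬ heavy z.2), q z.1 z.2 = 0 := by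
        apply sum_eq_zero
        intro z hz
        simp only [q]
        rw [if_neg (mem_filter.1 hz).2]
      have h4 : ∑ z ∈ K.filter (fun z => heavy z.2), q z.1 z.2 =
          ((K.filter (fun z => heavy z.2)).card : ℝ) * ρ := by
        rw [← nsmul_eq_mul, ← sum_const]
        apply sum_congr rfl
        intro z hz
        simp only [q]
        rw [if_pos (mem_filter.1 hz).2]
      have h5 : (K.filter (fun z => heavy z.2)).card ≤ 1 := by
        rw [card_le_one]
        intro z hz z' hz'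
        rw [mem_filter] at hz hz'
        have e2 := huniq _ _ hz.2 hz'.2
        exact Prod.ext ((hK2 z hz.1 z' hz'.1).2 e2) e2
      have h6 : ((K.filter (fun z => heavy z.2)).card : ℝ) ≤ 1 := by exact_mod_cast h5
      rw [h3, h4, add_zero]
      nlinarith
    have h7 := hW'.ker x
    have h8 : (1 - ρ) * ∑ e ∈ (E ×ˢ M).filter (fun e => e.1 + (u:ℤ) * e.2 = x), W' e.1 e.2 ≤
        (1 - ρ) * 1 := mul_le_mul_of_nonneg_left h7 (by linarith)
    linarith
  · intro m hm
    have hb : β m ∈ M.image β := mem_image_of_mem _ hm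
    by_cases hhv : heavy (β m)
    · simp only [if_pos hhv]
      set b := β m with hbdef
      rw [cost_glue (fun _ => ρ) (fun a d => W a b d m) (fun _ _ => hρpos)
        (fun a ha d hd hda => (hW a ha b hb).pos d (mem_filter.2 ⟨hd, hda⟩) m
          (mem_filter.2 ⟨hm, rfl⟩))]
      set n : ℤ → ℝ := fun a => ((E.filter (fun d => α d = a)).card : ℝ) with hn
      have hn1 : ∀ a ∈ E.image α, 1 ≤ n a := by
        intro a ha
        obtain ⟨d, hd, rfl⟩ := mem_image.1 ha
        have : 0 < (E.filter (fun d' => α d' = α d)).card :=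
          card_pos.2 ⟨d, mem_filter.2 ⟨hd, rfl⟩⟩
        simp only [hn]
        exact_mod_cast this
      have hnsum : ∑ a ∈ E.image α, n a = E.card := card_class_sum E α
      have hMb : Real.log ((M.filter (fun m' => β m' = b)).card : ℝ) ≤ Real.log M.card := by
        apply Real.log_le_log
        · have : 0 < (M.filter (fun m' => β m' = b)).card :=
            card_pos.2 ⟨m, mem_filter.2 ⟨hm, rfl⟩⟩
          exact_mod_cast this
        · exact_mod_cast card_le_card (filter_subset _ _)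
      have hterm : ∀ a ∈ E.image α, n a * (-Real.log ρ) +
          (-∑ d ∈ E.filter (fun d => α d = a), Real.log (W a b d m)) ≤
          n a * (θ * Real.log E.card + 2 * θ * Real.log M.card + T) +
          Λ * (((E.filter (fun d => α d = a)).filter (fun d => F d m)).card : ℝ) := by
        intro a ha
        have h1 := hcost a ha b hb m (mem_filter.2 ⟨hm, rfl⟩)
        have hna : 0 < n a := lt_of_lt_of_le one_pos (hn1 a ha)
        have h2 : Real.log (n a) ≤ Real.log E.card + Real.log (1 - η) := by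
          rw [← Real.log_mul hEpos.ne' hρ0.ne']
          apply Real.log_le_log hna
          have h9 : n a ≤ (1 - η) * (E.card : ℝ) := hlight a ha
          rw [mul_comm] at h9
          exact h9
        have h3 : Real.log ρ = θ * Real.log (1 - η) := by rw [hρ, Real.log_rpow hρ0]
        have h6 : (-∑ d ∈ E.filter (fun d => α d = a), Real.log (W a b d m)) ≤
          n a * (θ * Real.log (n a) + 2 * θ *
            Real.log ((M.filter (fun m' => β m' = b)).card : ℝ) + T) +
          Λ * (((E.filter (fun d => α d = a)).filter (fun d => F d m)).card : ℝ) := h1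
        have h7 : n a * (θ * Real.log (n a) + 2 * θ *
            Real.log ((M.filter (fun m' => β m' = b)).card : ℝ) + T) ≤
            n a * (θ * (Real.log E.card + Real.log (1 - η)) + 2 * θ * Real.log M.card + T) :=
          mul_le_mul_of_nonneg_left (add_le_add (add_le_add
            (mul_le_mul_of_nonneg_left h2 hθ0.le)
            (mul_le_mul_of_nonneg_left hMb (by linarith))) le_rfl) hna.le
        have h8 : n a * (θ * (Real.log E.card + Real.log (1 - η)) + 2 * θ * Real.log M.card + T) =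
            n a * (θ * Real.log E.card + 2 * θ * Real.log M.card + T) +
            n a * (θ * Real.log (1 - η)) := by ring
        rw [h3]
        rw [h8] at h7
        have h10 : n a * (-(θ * Real.log (1 - η))) = -(n a * (θ * Real.log (1 - η))) := by ring
        rw [h10]
        exact add_bound h6 h7
      refine (sum_le_sum hterm).trans ?_
      rw [sum_add_distrib, ← sum_mul, hnsum, ← mul_sum, fail_class_sum E α (fun d => F d m)]
    · simp only [if_neg hhv]
      have h1 : ∀ d ∈ E, Real.log ((1 - ρ) * W' d m) = Real.log (1 - ρ) + Real.log (W' d m) := by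
        intro d hd
        rw [Real.log_mul (by linarith) (hW'.pos d hd m hm).ne']
      rw [sum_congr rfl h1, sum_add_distrib, sum_const, nsmul_eq_mul]
      have h2 := hcost' m hm
      have h3 : ((E.filter (fun d => F' d m)).card : ℝ) ≤ ((E.filter (fun d => F d m)).card : ℝ) := by
        apply Nat.cast_le.2
        apply card_le_card
        intro d hd
        rw [mem_filter] at hd ⊢
        refine ⟨hd.1, hFF d hd.1 m hm ?_ hd.2⟩
        simp only [heavy] at hhv
        omega
      have h4 := mul_le_mul_of_nonneg_left h3 hΛ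
      have h5 : (E.card : ℝ) * (T' + -Real.log (1 - ρ)) ≤ (E.card : ℝ) * T := by gcongr
      linarith

/-- two singletons -/
theorem good_single {θ Λ T : ℝ} (hΛ : 0 ≤ Λ) (hT : 0 ≤ T) {u : ℕ} {E M : Finset ℤ}
    (hE : E.card = 1) (hM : M.card = 1) (F : ℤ → ℤ → Prop) : Good θ Λ T u E M F := by
  classical
  refine ⟨fun _ _ => 1, ⟨fun _ _ _ _ => one_pos, ?_⟩, ?_⟩
  · intro x
    rw [sum_const, nsmul_eq_mul, mul_one]
    have h1 : ((E ×ˢ M).filter (fun e => e.1 + (u:ℤ) * e.2 = x)).card ≤ (E ×ˢ M).card :=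
      card_le_card (filter_subset _ _)
    rw [card_product, hE, hM] at h1
    exact_mod_cast h1
  · intro m _
    simp only [Real.log_one, sum_const_zero, neg_zero, hE, hM, Nat.cast_one, mul_zero]
    positivity

/-- no primes left: choose `d` at random -/
theorem good_nil {θ Λ T : ℝ} (hθ : 0 ≤ θ) (hT : 0 ≤ T) {u : ℕ} (hu : u ≠ 0) {E M : Finset ℤ}
    (hE : E.Nonempty) (hM : M.Nonempty) (hΛ : Real.log E.card ≤ Λ) :
    Good θ Λ T u E M (fun _ _ => True) := by
  classical
  have hEpos : (0:ℝ) < E.card := by exact_mod_cast card_pos.2 hE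
  have hE1 : (1:ℝ) ≤ E.card := by exact_mod_cast card_pos.2 hE
  have hM1 : (1:ℝ) ≤ M.card := by exact_mod_cast card_pos.2 hM
  refine ⟨fun _ _ => 1 / E.card, ⟨fun _ _ _ _ => by positivity, ?_⟩, ?_⟩
  · intro x
    rw [sum_const, nsmul_eq_mul]
    have h1 : ((E ×ˢ M).filter (fun e => e.1 + (u:ℤ) * e.2 = x)).card ≤ E.card := by
      apply card_le_card_of_injOn Prod.fst
      · intro e he
        rw [mem_coe, mem_filter, mem_product] at he
        exact mem_coe.2 he.1.1
      · intro e he e' he' h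
        rw [mem_coe, mem_filter] at he he'
        have h2 : (u:ℤ) * e.2 = (u:ℤ) * e'.2 := by
          have := he.2.trans he'.2.symm
          rw [h] at this
          linarith
        have hu0 : (u:ℤ) ≠ 0 := by exact_mod_cast hu
        exact Prod.ext h (mul_left_cancel₀ hu0 h2)
    have h2 : (((E ×ˢ M).filter (fun e => e.1 + (u:ℤ) * e.2 = x)).card : ℝ) ≤ E.card := by
      exact_mod_cast h1
    rw [mul_one_div, div_le_one hEpos]
    exact h2
  · intro m _
    have h0 : ∀ inst : DecidablePred (fun _ : ℤ => True),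
        (@Finset.filter ℤ (fun _ => True) inst E).card = E.card := by
      intro inst
      congr 1
      ext x
      simp
    rw [h0, sum_const, nsmul_eq_mul, one_div, Real.log_inv]
    have h1 : 0 ≤ Real.log (E.card : ℝ) := Real.log_nonneg hE1
    have h2 : 0 ≤ Real.log (M.card : ℝ) := Real.log_nonneg hM1
    have h3 : (E.card : ℝ) * Real.log E.card ≤ (E.card : ℝ) * Λ := by gcongr
    have h4 : 0 ≤ (E.card : ℝ) * (θ * Real.log E.card + 2 * θ * Real.log M.card + T) := by
      positivity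
    linarith

/-- fail predicate seen from level `i` -/
def FailFrom (η : ℝ) (v : ℕ → ℕ) (p : ℕ) (J : List ℕ) (i : ℕ) (E M : Finset ℤ) (d m : ℤ) :
    Prop := ∃ j : ℕ, i ≤ j ∧
      ((cl ((p:ℤ) ^ (v p + (j + 1))) E d).card : ℝ) ≤
        (1 - η) * ((cl ((p:ℤ) ^ (v p + j)) E d).card : ℝ) ∧
      2 * (cl ((p:ℤ) ^ (j + 1)) M m).card ≤ (cl ((p:ℤ) ^ j) M m).card ∧
      Fail η v J (cl ((p:ℤ) ^ (v p + j)) E d) (cl ((p:ℤ) ^ j) M m) d m

theorem failFrom_cl {η : ℝ} {v : ℕ → ℕ} {p : ℕ} {J : List ℕ} {i : ℕ} {E M : Finset ℤ}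
    {d m d₀ m₀ : ℤ} (hd : d % (p:ℤ) ^ (v p + i) = d₀ % (p:ℤ) ^ (v p + i))
    (hm : m % (p:ℤ) ^ i = m₀ % (p:ℤ) ^ i)
    (h : FailFrom η v p J i (cl ((p:ℤ) ^ (v p + i)) E d₀) (cl ((p:ℤ) ^ i) M m₀) d m) :
    FailFrom η v p J i E M d m := by
  obtain ⟨j, hij, h1, h2, h3⟩ := h
  have e1 : ∀ k, i ≤ k → cl ((p:ℤ) ^ (v p + k)) (cl ((p:ℤ) ^ (v p + i)) E d₀) d =
      cl ((p:ℤ) ^ (v p + k)) E d := fun k hk => cl_cl (pow_dvd_pow _ (by omega)) hd
  have e2 : ∀ k, i ≤ k → cl ((p:ℤ) ^ k) (cl ((p:ℤ) ^ i) M m₀) m = cl ((p:ℤ) ^ k) M m :=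
    fun k hk => cl_cl (pow_dvd_pow _ hk) hm
  rw [e1 j hij, e1 (j + 1) (by omega)] at h1
  rw [e2 j hij, e2 (j + 1) (by omega)] at h2
  rw [e1 j hij, e2 j hij] at h3
  exact ⟨j, hij, h1, h2, h3⟩

theorem FailFrom.anti {η : ℝ} {v : ℕ → ℕ} {p : ℕ} {J : List ℕ} {i i' : ℕ} (hi : i ≤ i')
    {E M : Finset ℤ} {d m : ℤ} (h : FailFrom η v p J i' E M d m) : FailFrom η v p J i E M d m := by
  obtain ⟨j, hij, h'⟩ := h
  exact ⟨j, hi.trans hij, h'⟩

end Pool.Agent.Helper2.E
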