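import Pool.Agent.Helper2.EDecM
import Pool.Agent.Helper1.EDecU
import Pool.Agent.Helper5.Iterate

set_option autoImplicit false

/-!
The sum step: for every finite `D`, the sumset `D + A` is almost as large as `|D| |A|` when the
fibres of the `S`-free part on `A` are large.
-/

open Finset

namespace Pool.Agent.Helper2.E

open Pool.Agent.Helper5 (uP mP uP_pos uP_mul_mP uP_factorization mP_ne_zero sI sI_card)

/-- a sub-probability on the fibres of `f` forces many values -/
theorem log_image_ge {ι : Type*} [DecidableEq ι] {Ω : Finset ι} (hΩ : Ω.Nonempty) (f : ι → ℤ)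
    (w : ι → ℝ) (hw : ∀ e ∈ Ω, 0 < w e)
    (hker : ∀ x, ∑ e ∈ Ω.filter (fun e => f e = x), w e ≤ 1) :
    Real.log Ω.card + (1 / (Ω.card : ℝ)) * ∑ e ∈ Ω, Real.log (w e) ≤
      Real.log ((Ω.image f).card : ℝ) := by
  classical
  have hn : (0:ℝ) < Ω.card := by exact_mod_cast card_pos.2 hΩ
  have hT : (0:ℝ) < ((Ω.image f).card : ℝ) := by exact_mod_cast card_pos.2 (hΩ.image f)
  set n : ℝ := (Ω.card : ℝ) with hndef
  set T : ℝ := ((Ω.image f).card : ℝ) with hTdef
  have hsum : ∑ e ∈ Ω, w e ≤ T := by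
    rw [← Finset.sum_fiberwise_of_maps_to (t := Ω.image f) (g := f)
      (fun e he => mem_image_of_mem _ he)]
    calc ∑ x ∈ Ω.image f, ∑ e ∈ Ω.filter (fun e => f e = x), w e
        ≤ ∑ _x ∈ Ω.image f, (1:ℝ) := sum_le_sum (fun x _ => hker x)
      _ = T := by rw [sum_const, nsmul_eq_mul, mul_one]
  have h1 : ∀ e ∈ Ω, Real.log (w e) ≤ Real.log (T / n) + (n / T * w e - 1) := by
    intro e he
    have h2 : Real.log (n / T * w e) ≤ n / T * w e - 1 :=
      Real.log_le_sub_one_of_pos (mul_pos (div_pos hn hT) (hw e he))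
    have h3 : Real.log (n / T * w e) = -Real.log (T / n) + Real.log (w e) := by
      rw [Real.log_mul (div_pos hn hT).ne' (hw e he).ne', Real.log_div hn.ne' hT.ne',
        Real.log_div hT.ne' hn.ne']
      ring
    linarith
  have h4 : ∑ e ∈ Ω, Real.log (w e) ≤ n * Real.log (T / n) := by
    refine (sum_le_sum h1).trans ?_
    rw [sum_add_distrib, sum_sub_distrib, ← mul_sum, sum_const, sum_const, nsmul_eq_mul,
      nsmul_eq_mul, mul_one]
    have h5 : n / T * ∑ e ∈ Ω, w e ≤ n / T * T :=
      mul_le_mul_of_nonneg_left hsum (div_pos hn hT).le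
    have h6 : n / T * T = n := by field_simp
    linarith
  have h7 : (1 / n) * ∑ e ∈ Ω, Real.log (w e) ≤ Real.log (T / n) := by
    have := mul_le_mul_of_nonneg_left h4 (by positivity : 0 ≤ 1 / n)
    have h8 : 1 / n * (n * Real.log (T / n)) = Real.log (T / n) := by field_simp
    linarith
  rw [Real.log_div hT.ne' hn.ne'] at h7
  linarith

/-- **Sum step.** -/
theorem sum_step {θ lam : ℝ} (hθ0 : 0 < θ) (hθ1 : θ ≤ 1 / 2) (hl : 0 < lam) :
    ∃ b C : ℝ, 0 ≤ b ∧ 1 ≤ C ∧ ∀ S : Finset ℕ, (∀ p ∈ S, p.Prime) →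
      ∀ D A : Finset ℤ, D.Nonempty → A.Nonempty → (0:ℤ) ∉ A → ∀ R : ℝ, 0 < R →
      (∀ a ∈ A, R ≤ ((A.filter (fun a' => mP S a' = mP S a)).card : ℝ)) →
      Real.log D.card + Real.log A.card - (S.card : ℝ) * (Real.log (1 / θ) + 2 + b) -
          2 * θ * (Real.log D.card + Real.log A.card) -
          Real.log D.card * (C ^ S.card * ((D.card : ℝ) ^ lam * (A.card : ℝ) ^ lam) / R) ≤
        Real.log ((image₂ (· + ·) D A).card : ℝ) := by
  classical
  obtain ⟨b, C, hb, hC, hdec⟩ := decM hθ0 hθ1 hl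
  refine ⟨b, C, hb, hC, ?_⟩
  intro S hS D A hD hA h0 R hR hfib
  have hA0 : ∀ a ∈ A, a ≠ 0 := fun a ha h => h0 (h ▸ ha)
  set M := A.image (mP S) with hM
  have hMne : M.Nonempty := hA.image _
  obtain ⟨q, hq0, hq1, hq2⟩ := Pool.Agent.Helper1.decU S hS θ hθ0 (by linarith) D hD
  obtain ⟨F, hF, hgood⟩ := hdec S hS D M hD hMne
  have hu0 : ∀ a : ℤ, uP S a ≠ 0 := fun a => (uP_pos hS a).ne'
  have hval : ∀ a : ℤ, ∀ p ∈ S, Pool.Agent.Helper5.val p a = (uP S a).factorization p := by
    intro a p hp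
    rw [uP_factorization hS, if_pos hp]
  have hsupp : ∀ a : ℤ, (uP S a).primeFactors ⊆ S := by
    intro a p hp
    rw [← Nat.support_factorization, Finsupp.mem_support_iff, uP_factorization hS] at hp
    by_contra h
    rw [if_neg h] at hp
    exact hp rfl
  choose W hWadm hWcost using fun u : ℕ => fun hu : u ≠ 0 => hgood u hu
  let w : ℤ × ℤ → ℝ := fun e => q (e.1 + e.2) (uP S e.2) * W (uP S e.2) (hu0 e.2) e.1 (mP S e.2)
  have hD1 : (1:ℝ) ≤ D.card := by exact_mod_cast card_pos.2 hD
  have hA1 : (1:ℝ) ≤ A.card := by exact_mod_cast card_pos.2 hA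
  have hM1 : (1:ℝ) ≤ M.card := by exact_mod_cast card_pos.2 hMne
  have hMA : (M.card : ℝ) ≤ A.card := by exact_mod_cast card_image_le
  have hqpos : ∀ a ∈ A, ∀ d ∈ D, 0 < q (d + a) (uP S a) := fun a ha d hd =>
    (hq2 (uP S a) a (hA0 a ha) (hval a)).1 d hd
  have hWpos : ∀ a ∈ A, ∀ d ∈ D, 0 < W (uP S a) (hu0 a) d (mP S a) := fun a ha d hd =>
    (hWadm _ (hu0 a)).pos d hd _ (mem_image_of_mem _ ha)
  have hwpos : ∀ e ∈ D ×ˢ A, 0 < w e := by
    intro e he
    rw [mem_product] at he
    exact mul_pos (hqpos e.2 he.2 e.1 he.1) (hWpos e.2 he.2 e.1 he.1)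
  -- kernel
  have hker : ∀ x, ∑ e ∈ (D ×ˢ A).filter (fun e => e.1 + e.2 = x), w e ≤ 1 := by
    intro x
    set Ω := (D ×ˢ A).filter (fun e => e.1 + e.2 = x) with hΩ
    rw [← Finset.sum_fiberwise_of_maps_to (t := A.image (uP S)) (g := fun e : ℤ × ℤ => uP S e.2)
      (fun e he => mem_image_of_mem _ (mem_product.1 (mem_filter.1 he).1).2)]
    refine le_trans (sum_le_sum (g := fun u => q x u) ?_) (hq1 x (A.image (uP S)) ?_)
    · intro u hu
      obtain ⟨a₀, ha₀, rfl⟩ := mem_image.1 hu
      set u := uP S a₀ with hudef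
      have h1 : ∀ e ∈ Ω.filter (fun e => uP S e.2 = u), w e =
          q x u * W u (hu0 a₀) e.1 (mP S e.2) := by
        intro e he
        rw [mem_filter] at he
        have he1 := (mem_filter.1 he.1).2
        have h2 : ∀ (u' : ℕ) (h' : u' ≠ 0), u' = u →
            W u' h' e.1 (mP S e.2) = W u (hu0 a₀) e.1 (mP S e.2) := by
          intro u' h' hh; subst hh; rfl
        show q (e.1 + e.2) (uP S e.2) * W (uP S e.2) (hu0 e.2) e.1 (mP S e.2) = _
        rw [h2 _ _ he.2, he1, he.2]
      rw [sum_congr rfl h1, ← mul_sum]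
      have h3 : ∑ e ∈ Ω.filter (fun e => uP S e.2 = u), W u (hu0 a₀) e.1 (mP S e.2) ≤ 1 := by
        refine le_trans ?_ ((hWadm u (hu0 a₀)).ker x)
        have hinj : Set.InjOn (fun e : ℤ × ℤ => (e.1, mP S e.2))
            (Ω.filter (fun e => uP S e.2 = u) : Finset (ℤ × ℤ)) := by
          intro e he e' he' h
          rw [mem_coe, mem_filter] at he he'
          simp only [Prod.mk.injEq] at h
          have ha := hA0 _ (mem_product.1 (mem_filter.1 he.1).1).2
          have ha' := hA0 _ (mem_product.1 (mem_filter.1 he'.1).1).2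
          have e2 : e.2 = e'.2 := by
            rw [← uP_mul_mP hS ha, ← uP_mul_mP hS ha', he.2, he'.2, h.2]
          exact Prod.ext h.1 e2
        rw [← sum_image (f := fun z : ℤ × ℤ => W u (hu0 a₀) z.1 z.2) hinj]
        apply sum_le_sum_of_subset_of_nonneg
        · intro z hz
          obtain ⟨e, he, rfl⟩ := mem_image.1 hz
          rw [mem_filter] at he
          have he1 := mem_filter.1 he.1
          have he2 := mem_product.1 he1.1
          rw [mem_filter, mem_product]
          refine ⟨⟨he2.1, mem_image_of_mem _ he2.2⟩, ?_⟩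
          simp only
          rw [← he.2, uP_mul_mP hS (hA0 _ he2.2)]
          exact he1.2
        · intro z hz _
          rw [mem_filter, mem_product] at hz
          exact ((hWadm u (hu0 a₀)).pos z.1 hz.1.1 z.2 hz.1.2).le
      calc q x u * ∑ e ∈ Ω.filter (fun e => uP S e.2 = u), W u (hu0 a₀) e.1 (mP S e.2)
          ≤ q x u * 1 := mul_le_mul_of_nonneg_left h3 (hq0 x u)
        _ = q x u := mul_one _
    · intro u hu
      obtain ⟨a₀, _, rfl⟩ := mem_image.1 hu
      exact ⟨hu0 a₀, hsupp a₀⟩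
  have hmain := log_image_ge (hD.product hA) (fun e : ℤ × ℤ => e.1 + e.2) w hwpos hker
  have himg : (D ×ˢ A).image (fun e : ℤ × ℤ => e.1 + e.2) = image₂ (· + ·) D A := rfl
  rw [himg, card_product] at hmain
  push_cast at hmain
  rw [Real.log_mul (by positivity) (by positivity)] at hmain
  -- the cost
  set LD := Real.log (D.card : ℝ) with hLD
  set LA := Real.log (A.card : ℝ) with hLA
  have hLD0 : 0 ≤ LD := Real.log_nonneg hD1
  have hLM : Real.log (M.card : ℝ) ≤ LA := Real.log_le_log (by linarith) hMA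
  have hcost : -∑ e ∈ D ×ˢ A, Real.log (w e) ≤
      (D.card : ℝ) * A.card * ((S.card : ℝ) * (Real.log (1 / θ) + 2 + b) + 2 * θ * (LD + LA)) +
      LD * ((D.card : ℝ) * M.card * (C ^ S.card * ((D.card : ℝ) ^ lam * (A.card : ℝ) ^ lam))) := by
    rw [sum_product_right, ← sum_neg_distrib]
    have h1 : ∀ a ∈ A, -∑ d ∈ D, Real.log (w (d, a)) ≤
        (D.card : ℝ) * ((S.card : ℝ) * (Real.log (1 / θ) + 2 + b) + 2 * θ * (LD + LA)) +
        LD * ((D.filter (fun d => F (uP S a) d (mP S a))).card : ℝ) := by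
      intro a ha
      have e1 : ∀ d ∈ D, Real.log (w (d, a)) =
          Real.log (q (d + a) (uP S a)) + Real.log (W (uP S a) (hu0 a) d (mP S a)) := by
        intro d hd
        exact Real.log_mul (hqpos a ha d hd).ne' (hWpos a ha d hd).ne'
      rw [sum_congr rfl e1, sum_add_distrib]
      have h2 := (hq2 (uP S a) a (hA0 a ha) (hval a)).2
      have h3 := hWcost (uP S a) (hu0 a) (mP S a) (mem_image_of_mem _ ha)
      have h4 : (D.card : ℝ) * (2 * θ * Real.log (M.card : ℝ)) ≤ (D.card : ℝ) * (2 * θ * LA) := by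
        gcongr
      have h5 : (D.card : ℝ) * (θ * LD + 2 * θ * Real.log (M.card : ℝ) + (S.card : ℝ) * b) =
        (D.card : ℝ) * (θ * LD) + (D.card : ℝ) * (2 * θ * Real.log (M.card : ℝ)) +
        (D.card : ℝ) * ((S.card : ℝ) * b) := by ring
      rw [h5] at h3
      have h6 : (D.card : ℝ) * (θ * LD + (S.card : ℝ) * (Real.log (1 / θ) + 2)) =
        (D.card : ℝ) * (θ * LD) + (D.card : ℝ) * ((S.card : ℝ) * (Real.log (1 / θ) + 2)) := by
        ring
      rw [h6] at h2
      have h7 : (D.card : ℝ) * ((S.card : ℝ) * (Real.log (1 / θ) + 2 + b) + 2 * θ * (LD + LA)) =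
        (D.card : ℝ) * ((S.card : ℝ) * (Real.log (1 / θ) + 2)) +
        (D.card : ℝ) * ((S.card : ℝ) * b) + (D.card : ℝ) * (θ * LD) +
        (D.card : ℝ) * (θ * LD) + (D.card : ℝ) * (2 * θ * LA) := by ring
      rw [h7]
      linarith
    refine (sum_le_sum h1).trans ?_
    rw [sum_add_distrib, sum_const, nsmul_eq_mul, ← mul_sum]
    have hfail : ∑ a ∈ A, ((D.filter (fun d => F (uP S a) d (mP S a))).card : ℝ) ≤
        (D.card : ℝ) * M.card * (C ^ S.card * ((D.card : ℝ) ^ lam * (A.card : ℝ) ^ lam)) := by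
      have e1 : ∑ a ∈ A, ((D.filter (fun d => F (uP S a) d (mP S a))).card : ℝ) =
          ∑ d ∈ D, ((A.filter (fun a => F (uP S a) d (mP S a))).card : ℝ) := by
        have := Finset.sum_card_bipartiteAbove_eq_sum_card_bipartiteBelow (s := A) (t := D)
          (fun a d => F (uP S a) d (mP S a))
        unfold bipartiteAbove bipartiteBelow at this
        exact_mod_cast this
      rw [e1]
      have h2 : ∀ d ∈ D, ((A.filter (fun a => F (uP S a) d (mP S a))).card : ℝ) ≤
          (M.card : ℝ) * (C ^ S.card * ((D.card : ℝ) ^ lam * (A.card : ℝ) ^ lam)) := by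
        intro d hd
        have h3 : (A.filter (fun a => F (uP S a) d (mP S a))).card =
            ∑ m ∈ M, ((A.filter (fun a => F (uP S a) d (mP S a))).filter
              (fun a => mP S a = m)).card := by
          apply Finset.card_eq_sum_card_fiberwise
          intro a ha
          rw [mem_coe, mem_filter] at ha
          exact mem_coe.2 (mem_image_of_mem _ ha.1)
        rw [h3]
        push_cast
        have h4 : ∀ m ∈ M, (((A.filter (fun a => F (uP S a) d (mP S a))).filter
              (fun a => mP S a = m)).card : ℝ) ≤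
            C ^ S.card * ((D.card : ℝ) ^ lam * (A.card : ℝ) ^ lam) := by
          intro m hm
          set Y := (A.filter (fun a => F (uP S a) d (mP S a))).filter
              (fun a => mP S a = m) with hY
          have hinj : Set.InjOn (uP S) (Y : Set ℤ) := by
            intro a ha a' ha' h
            rw [mem_coe, hY, mem_filter, mem_filter] at ha ha'
            rw [← uP_mul_mP hS (hA0 _ ha.1.1), ← uP_mul_mP hS (hA0 _ ha'.1.1), h, ha.2, ha'.2]
          rw [← card_image_of_injOn hinj]
          have h5 := hF d hd m hm (Y.image (uP S)) (by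
            intro u hu
            obtain ⟨a, _, rfl⟩ := mem_image.1 hu
            exact ⟨hu0 a, hsupp a⟩) (by
            intro u hu
            obtain ⟨a, ha, rfl⟩ := mem_image.1 hu
            rw [hY, mem_filter, mem_filter] at ha
            rw [← ha.2]
            exact ha.1.2)
          refine h5.trans ?_
          apply mul_le_mul_of_nonneg_left _ (by positivity)
          apply mul_le_mul_of_nonneg_left _ (by positivity)
          exact Real.rpow_le_rpow (by positivity) hMA hl.le
        refine (sum_le_sum h4).trans ?_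
        rw [sum_const, nsmul_eq_mul]
      refine (sum_le_sum h2).trans ?_
      rw [sum_const, nsmul_eq_mul, mul_assoc]
    have h8 := mul_le_mul_of_nonneg_left hfail hLD0
    have h9 : (A.card : ℝ) * ((D.card : ℝ) * ((S.card : ℝ) * (Real.log (1 / θ) + 2 + b) +
        2 * θ * (LD + LA))) = (D.card : ℝ) * A.card * ((S.card : ℝ) * (Real.log (1 / θ) + 2 + b) +
        2 * θ * (LD + LA)) := by ring
    rw [h9]
    linarith
  -- the fibres are large
  have hMR : (M.card : ℝ) * R ≤ A.card := by
    have h1 : (A.card : ℝ) = ∑ m ∈ M, ((A.filter (fun a => mP S a = m)).card : ℝ) := by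
      have := Finset.card_eq_sum_card_image (mP S) A
      exact_mod_cast this
    rw [h1, ← nsmul_eq_mul, ← sum_const]
    apply sum_le_sum
    intro m hm
    obtain ⟨a, ha, rfl⟩ := mem_image.1 hm
    exact hfib a ha
  set G := C ^ S.card * ((D.card : ℝ) ^ lam * (A.card : ℝ) ^ lam) with hG
  have hG0 : 0 ≤ G := by positivity
  have hDpos : (0:ℝ) < D.card := by linarith
  have hApos : (0:ℝ) < A.card := by linarith
  have h10 : (1 / ((D.card : ℝ) * A.card)) * (-∑ e ∈ D ×ˢ A, Real.log (w e)) ≤
      (S.card : ℝ) * (Real.log (1 / θ) + 2 + b) + 2 * θ * (LD + LA) + LD * (G / R) := by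
    have h11 := mul_le_mul_of_nonneg_left hcost
      (by positivity : 0 ≤ 1 / ((D.card : ℝ) * A.card))
    refine h11.trans ?_
    have h12 : (1 / ((D.card : ℝ) * A.card)) * ((D.card : ℝ) * A.card *
        ((S.card : ℝ) * (Real.log (1 / θ) + 2 + b) + 2 * θ * (LD + LA)) +
        LD * ((D.card : ℝ) * M.card * G)) =
        ((S.card : ℝ) * (Real.log (1 / θ) + 2 + b) + 2 * θ * (LD + LA)) +
        LD * (G * (M.card / A.card)) := by
      field_simp
    rw [h12]
    have h13 : (M.card : ℝ) / A.card ≤ 1 / R := by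
      rw [div_le_div_iff₀ hApos hR]
      linarith
    have h14 : LD * (G * (M.card / A.card)) ≤ LD * (G * (1 / R)) := by gcongr
    have h15 : LD * (G * (1 / R)) = LD * (G / R) := by ring
    linarith
  have h16 : (1 / ((D.card : ℝ) * A.card)) * (-∑ e ∈ D ×ˢ A, Real.log (w e)) =
      -((1 / ((D.card : ℝ) * A.card)) * ∑ e ∈ D ×ˢ A, Real.log (w e)) := by ring
  rw [h16] at h10
  linarith

end Pool.Agent.Helper2.E
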