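import Pool.Agent.Helper2.EIter

set_option autoImplicit false

/-!
The sum step for general factorisations `a = U a * m a`, where `U a` depends only on the
valuations of `a` at a small set of primes.
-/

open Finset

namespace Pool.Agent.Helper2.E

open Pool.Agent.Helper5 (uP mP uP_pos uP_mul_mP uP_factorization mP_ne_zero sI sI_card)

/-- **Decoding `(d, m)`**, with general multipliers. -/
theorem decM' {θ lam : ℝ} (hθ0 : 0 < θ) (hθ1 : θ ≤ 1 / 2) (hl : 0 < lam) :
    ∃ b C : ℝ, 0 ≤ b ∧ 1 ≤ C ∧ ∀ S : Finset ℕ, (∀ p ∈ S, p.Prime) →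
      ∀ D M : Finset ℤ, D.Nonempty → M.Nonempty →
      ∃ F : ℕ → ℤ → ℤ → Prop,
        (∀ d ∈ D, ∀ m ∈ M, ∀ V : Finset ℕ,
          (∀ u ∈ V, ∀ u' ∈ V, (∀ p ∈ S, u.factorization p = u'.factorization p) → u = u') →
          (∀ u ∈ V, F u d m) →
          (V.card : ℝ) ≤ C ^ S.card * ((D.card : ℝ) ^ lam * (M.card : ℝ) ^ lam)) ∧
        (∀ u : ℕ, u ≠ 0 → Good θ (Real.log D.card) ((S.card : ℝ) * b) u D M (F u)) := by
  classical
  set η : ℝ := θ ^ (1 / θ) with hηdef
  have hη0 : 0 < η := Real.rpow_pos_of_pos hθ0 _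
  have hη1 : η < 1 := Real.rpow_lt_one hθ0.le (by linarith) (by positivity)
  have hηθ : η ≤ θ := by
    calc η = θ ^ (1 / θ) := rfl
      _ ≤ θ ^ (1:ℝ) := by
        apply Real.rpow_le_rpow_of_exponent_ge hθ0 (by linarith)
        rw [le_div_iff₀ hθ0]; linarith
      _ = θ := Real.rpow_one θ
  have hη : θ * Real.log η = Real.log θ := by
    rw [hηdef, Real.log_rpow hθ0]
    field_simp
  set C := (1 / (1 - (1 - η) ^ lam)) * (1 / (1 - (1 / 2 : ℝ) ^ lam)) with hC
  have hC1 : 1 ≤ C := by
    have h1 : (1 - η) ^ lam < 1 := Real.rpow_lt_one (by linarith) (by linarith) hl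
    have h1' : 0 ≤ (1 - η) ^ lam := Real.rpow_nonneg (by linarith) _
    have h2 : (1 / 2 : ℝ) ^ lam < 1 := Real.rpow_lt_one (by norm_num) (by norm_num) hl
    have h2' : 0 ≤ (1 / 2 : ℝ) ^ lam := Real.rpow_nonneg (by norm_num) _
    have h3 : 1 ≤ 1 / (1 - (1 - η) ^ lam) := by rw [le_div_iff₀ (by linarith)]; linarith
    have h4 : 1 ≤ 1 / (1 - (1 / 2 : ℝ) ^ lam) := by rw [le_div_iff₀ (by linarith)]; linarith
    calc (1:ℝ) = 1 * 1 := (one_mul 1).symm
      _ ≤ _ := mul_le_mul h3 h4 zero_le_one (by linarith)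
  refine ⟨-Real.log (1 - (1 - η) ^ θ), C, ?_, hC1, ?_⟩
  · rw [neg_nonneg]
    have h1 : (1 - η) ^ θ < 1 := Real.rpow_lt_one (by linarith) (by linarith) hθ0
    have h2 : 0 ≤ (1 - η) ^ θ := Real.rpow_nonneg (by linarith) _
    exact Real.log_nonpos (by linarith) (by linarith)
  · intro S hS D M hD hM
    refine ⟨fun u => Fail η u.factorization S.toList D M, ?_, ?_⟩
    · intro d hd m hm V hV hF
      have := fail_count hη0 hη1.le hl (fun u : ℕ => (u.factorization : ℕ → ℕ)) S.toList D M d m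
        hd hm V hF (by
          intro u hu u' hu' huu
          apply hV u hu u' hu'
          intro p hp
          exact huu p (mem_toList.2 hp))
      rw [length_toList] at this
      exact this
    · intro u hu
      have := primes hθ0 (by linarith) hη0 hη1 hηθ hη
        (Λ := Real.log D.card) (Real.log_natCast_nonneg _) hu S.toList
        (fun p hp => hS p (mem_toList.1 hp)) D M hD hM le_rfl
      rw [length_toList] at this
      exact this

/-- **Sum step.** -/
theorem sum_step' {θ lam : ℝ} (hθ0 : 0 < θ) (hθ1 : θ ≤ 1 / 2) (hl : 0 < lam) :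
    ∃ b C : ℝ, 0 ≤ b ∧ 1 ≤ C ∧ ∀ S : Finset ℕ, (∀ p ∈ S, p.Prime) →
      ∀ D A : Finset ℤ, D.Nonempty → A.Nonempty → (0:ℤ) ∉ A →
      ∀ (U : ℤ → ℕ) (m : ℤ → ℤ), (∀ a, U a ≠ 0) → (∀ a ∈ A, (U a : ℤ) * m a = a) →
      (∀ a ∈ A, ∀ a' ∈ A, (∀ p ∈ S, Pool.Agent.Helper5.val p a = Pool.Agent.Helper5.val p a') →
        U a = U a') →
      ∀ R : ℝ, 0 < R →
      (∀ a ∈ A, R ≤ ((A.filter (fun a' => m a' = m a)).card : ℝ)) →
      Real.log D.card + Real.log A.card - (S.card : ℝ) * (Real.log (1 / θ) + 2 + b) -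
          2 * θ * (Real.log D.card + Real.log A.card) -
          Real.log D.card * (C ^ S.card * ((D.card : ℝ) ^ lam * (A.card : ℝ) ^ lam) / R) ≤
        Real.log ((image₂ (· + ·) D A).card : ℝ) := by
  classical
  obtain ⟨b, C, hb, hC, hdec⟩ := decM' hθ0 hθ1 hl
  refine ⟨b, C, hb, hC, ?_⟩
  intro S hS D A hD hA h0 U m hU0 hUm hdet R hR hfib
  have hA0 : ∀ a ∈ A, a ≠ 0 := fun a ha h => h0 (h ▸ ha)
  have hm0 : ∀ a ∈ A, m a ≠ 0 := by
    intro a ha h
    have := hUm a ha
    rw [h, mul_zero] at this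
    exact hA0 a ha this.symm
  set M := A.image m with hM
  have hMne : M.Nonempty := hA.image _
  obtain ⟨q, hq0, hq1, hq2⟩ := Pool.Agent.Helper1.decU S hS θ hθ0 (by linarith) D hD
  obtain ⟨F, hF, hgood⟩ := hdec S hS D M hD hMne
  have hval : ∀ a : ℤ, ∀ p ∈ S, Pool.Agent.Helper5.val p a = (uP S a).factorization p := by
    intro a p hp
    rw [uP_factorization hS, if_pos hp]
  have hsupp : ∀ a : ℤ, (uP S a).primeFactors ⊆ S := by
    intro a p hp
    rw [← Nat.support_factorization, Finsupp.mem_support_iff, uP_factorization hS] at hp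
    by_contra h
    rw [if_neg h] at hp
    exact hp rfl
  have hdet' : ∀ a ∈ A, ∀ a' ∈ A, uP S a = uP S a' → U a = U a' := by
    intro a ha a' ha' h
    apply hdet a ha a' ha'
    intro p hp
    rw [hval a p hp, hval a' p hp, h]
  choose W hWadm hWcost using fun u : ℕ => fun hu : u ≠ 0 => hgood u hu
  let w : ℤ × ℤ → ℝ := fun e => q (e.1 + e.2) (uP S e.2) * W (U e.2) (hU0 e.2) e.1 (m e.2)
  have hD1 : (1:ℝ) ≤ D.card := by exact_mod_cast card_pos.2 hD
  have hA1 : (1:ℝ) ≤ A.card := by exact_mod_cast card_pos.2 hA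
  have hM1 : (1:ℝ) ≤ M.card := by exact_mod_cast card_pos.2 hMne
  have hMA : (M.card : ℝ) ≤ A.card := by exact_mod_cast card_image_le
  have hqpos : ∀ a ∈ A, ∀ d ∈ D, 0 < q (d + a) (uP S a) := fun a ha d hd =>
    (hq2 (uP S a) a (hA0 a ha) (hval a)).1 d hd
  have hWpos : ∀ a ∈ A, ∀ d ∈ D, 0 < W (U a) (hU0 a) d (m a) := fun a ha d hd =>
    (hWadm _ (hU0 a)).pos d hd _ (mem_image_of_mem _ ha)
  have hwpos : ∀ e ∈ D ×ˢ A, 0 < w e := by
    intro e he
    rw [mem_product] at he
    exact mul_pos (hqpos e.2 he.2 e.1 he.1) (hWpos e.2 he.2 e.1 he.1)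
  -- kernel
  have hker : ∀ x, ∑ e ∈ (D ×ˢ A).filter (fun e => e.1 + e.2 = x), w e ≤ 1 := by
    intro x
    set Ω := (D ×ˢ A).filter (fun e => e.1 + e.2 = x) with hΩ
    rw [← Finset.sum_fiberwise_of_maps_to (t := A.image (uP S)) (g := fun e : ℤ × ℤ => uP S e.2)
      (fun e he => mem_image_of_mem _ (mem_product.1 (mem_filter.1 he).1).2)]
    refine le_trans (sum_le_sum (g := fun u => q x u) ?_) (hq1 x (A.image (uP S)) ?_)
    · intro u hu
      obtain ⟨a₀, ha₀, rfl⟩ := mem_image.1 hu
      set u := uP S a₀ with hudef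
      have hUeq : ∀ e ∈ Ω.filter (fun e => uP S e.2 = u), U e.2 = U a₀ := by
        intro e he
        rw [mem_filter] at he
        exact hdet' _ (mem_product.1 (mem_filter.1 he.1).1).2 _ ha₀ he.2
      have h1 : ∀ e ∈ Ω.filter (fun e => uP S e.2 = u), w e =
          q x u * W (U a₀) (hU0 a₀) e.1 (m e.2) := by
        intro e he
        have hUe := hUeq e he
        rw [mem_filter] at he
        have he1 := (mem_filter.1 he.1).2
        have h2 : ∀ (u' : ℕ) (h' : u' ≠ 0), u' = U a₀ →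
            W u' h' e.1 (m e.2) = W (U a₀) (hU0 a₀) e.1 (m e.2) := by
          intro u' h' hh; subst hh; rfl
        show q (e.1 + e.2) (uP S e.2) * W (U e.2) (hU0 e.2) e.1 (m e.2) = _
        rw [h2 _ _ hUe, he1, he.2]
      rw [sum_congr rfl h1, ← mul_sum]
      have h3 : ∑ e ∈ Ω.filter (fun e => uP S e.2 = u), W (U a₀) (hU0 a₀) e.1 (m e.2) ≤ 1 := by
        refine le_trans ?_ ((hWadm (U a₀) (hU0 a₀)).ker x)
        have hinj : Set.InjOn (fun e : ℤ × ℤ => (e.1, m e.2))
            (Ω.filter (fun e => uP S e.2 = u) : Finset (ℤ × ℤ)) := by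
          intro e he e' he' h
          have hUe := hUeq e he
          have hUe' := hUeq e' he'
          rw [mem_coe, mem_filter] at he he'
          simp only [Prod.mk.injEq] at h
          have ha := (mem_product.1 (mem_filter.1 he.1).1).2
          have ha' := (mem_product.1 (mem_filter.1 he'.1).1).2
          have e2 : e.2 = e'.2 := by
            rw [← hUm _ ha, ← hUm _ ha', hUe, hUe', h.2]
          exact Prod.ext h.1 e2
        rw [← sum_image (f := fun z : ℤ × ℤ => W (U a₀) (hU0 a₀) z.1 z.2) hinj]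
        apply sum_le_sum_of_subset_of_nonneg
        · intro z hz
          obtain ⟨e, he, rfl⟩ := mem_image.1 hz
          have hUe := hUeq e he
          rw [mem_filter] at he
          have he1 := mem_filter.1 he.1
          have he2 := mem_product.1 he1.1
          rw [mem_filter, mem_product]
          refine ⟨⟨he2.1, mem_image_of_mem _ he2.2⟩, ?_⟩
          simp only
          rw [← hUe, hUm _ he2.2]
          exact he1.2
        · intro z hz _
          rw [mem_filter, mem_product] at hz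
          exact ((hWadm (U a₀) (hU0 a₀)).pos z.1 hz.1.1 z.2 hz.1.2).le
      calc q x u * ∑ e ∈ Ω.filter (fun e => uP S e.2 = u), W (U a₀) (hU0 a₀) e.1 (m e.2)
          ≤ q x u * 1 := mul_le_mul_of_nonneg_left h3 (hq0 x u)
        _ = q x u := mul_one _
    · intro u hu
      obtain ⟨a₀, _, rfl⟩ := mem_image.1 hu
      exact ⟨(uP_pos hS a₀).ne', hsupp a₀⟩
  have hmain := log_image_ge (hD.product hA) (fun e : ℤ × ℤ => e.1 + e.2) w hwpos hker
  have himg : (D ×ˢ A).image (fun e : ℤ × ℤ => e.1 + e.2) = image₂ (· + ·) D A := rfl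
  rw [himg, card_product] at hmain
  push_cast at hmain
  rw [Real.log_mul (by positivity) (by positivity)] at hmain
  -- the cost
  set LD := Real.log (D.card : ℝ) with hLD
  set LA := Real.log (A.card : ℝ) with hLA
  have hLD0 : 0 ≤ LD := Real.log_nonneg hD1
  have hLM : Real.log (M.card : ℝ) ≤ LA := Real.log_le_log (by linarith) hMA
  have hcost : -∑ e ∈ D ×ˢ A, Real.log (w e) ≤
      (D.card : ℝ) * A.card * ((S.card : ℝ) * (Real.log (1 / θ) + 2 + b) + 2 * θ * (LD + LA)) +
      LD * ((D.card : ℝ) * M.card * (C ^ S.card * ((D.card : ℝ) ^ lam * (A.card : ℝ) ^ lam))) := by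
    rw [sum_product_right, ← sum_neg_distrib]
    have h1 : ∀ a ∈ A, -∑ d ∈ D, Real.log (w (d, a)) ≤
        (D.card : ℝ) * ((S.card : ℝ) * (Real.log (1 / θ) + 2 + b) + 2 * θ * (LD + LA)) +
        LD * ((D.filter (fun d => F (U a) d (m a))).card : ℝ) := by
      intro a ha
      have e1 : ∀ d ∈ D, Real.log (w (d, a)) =
          Real.log (q (d + a) (uP S a)) + Real.log (W (U a) (hU0 a) d (m a)) := by
        intro d hd
        exact Real.log_mul (hqpos a ha d hd).ne' (hWpos a ha d hd).ne'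
      rw [sum_congr rfl e1, sum_add_distrib]
      have h2 := (hq2 (uP S a) a (hA0 a ha) (hval a)).2
      have h3 := hWcost (U a) (hU0 a) (m a) (mem_image_of_mem _ ha)
      have h4 : (D.card : ℝ) * (2 * θ * Real.log (M.card : ℝ)) ≤ (D.card : ℝ) * (2 * θ * LA) := by
        gcongr
      have h5 : (D.card : ℝ) * (θ * LD + 2 * θ * Real.log (M.card : ℝ) + (S.card : ℝ) * b) =
        (D.card : ℝ) * (θ * LD) + (D.card : ℝ) * (2 * θ * Real.log (M.card : ℝ)) +
        (D.card : ℝ) * ((S.card : ℝ) * b) := by ring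
      rw [h5] at h3
      have h6 : (D.card : ℝ) * (θ * LD + (S.card : ℝ) * (Real.log (1 / θ) + 2)) =
        (D.card : ℝ) * (θ * LD) + (D.card : ℝ) * ((S.card : ℝ) * (Real.log (1 / θ) + 2)) := by
        ring
      rw [h6] at h2
      have h7 : (D.card : ℝ) * ((S.card : ℝ) * (Real.log (1 / θ) + 2 + b) + 2 * θ * (LD + LA)) =
        (D.card : ℝ) * ((S.card : ℝ) * (Real.log (1 / θ) + 2)) +
        (D.card : ℝ) * ((S.card : ℝ) * b) + (D.card : ℝ) * (θ * LD) +
        (D.card : ℝ) * (θ * LD) + (D.card : ℝ) * (2 * θ * LA) := by ring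
      rw [h7]
      linarith
    refine (sum_le_sum h1).trans ?_
    rw [sum_add_distrib, sum_const, nsmul_eq_mul, ← mul_sum]
    have hfail : ∑ a ∈ A, ((D.filter (fun d => F (U a) d (m a))).card : ℝ) ≤
        (D.card : ℝ) * M.card * (C ^ S.card * ((D.card : ℝ) ^ lam * (A.card : ℝ) ^ lam)) := by
      have e1 : ∑ a ∈ A, ((D.filter (fun d => F (U a) d (m a))).card : ℝ) =
          ∑ d ∈ D, ((A.filter (fun a => F (U a) d (m a))).card : ℝ) := by
        have := Finset.sum_card_bipartiteAbove_eq_sum_card_bipartiteBelow (s := A) (t := D)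
          (fun a d => F (U a) d (m a))
        unfold bipartiteAbove bipartiteBelow at this
        exact_mod_cast this
      rw [e1]
      have h2 : ∀ d ∈ D, ((A.filter (fun a => F (U a) d (m a))).card : ℝ) ≤
          (M.card : ℝ) * (C ^ S.card * ((D.card : ℝ) ^ lam * (A.card : ℝ) ^ lam)) := by
        intro d hd
        have h3 : (A.filter (fun a => F (U a) d (m a))).card =
            ∑ m₀ ∈ M, ((A.filter (fun a => F (U a) d (m a))).filter
              (fun a => m a = m₀)).card := by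
          apply Finset.card_eq_sum_card_fiberwise
          intro a ha
          rw [mem_coe, mem_filter] at ha
          exact mem_coe.2 (mem_image_of_mem _ ha.1)
        rw [h3]
        push_cast
        have h4 : ∀ m₀ ∈ M, (((A.filter (fun a => F (U a) d (m a))).filter
              (fun a => m a = m₀)).card : ℝ) ≤
            C ^ S.card * ((D.card : ℝ) ^ lam * (A.card : ℝ) ^ lam) := by
          intro m₀ hm₀
          set Y := (A.filter (fun a => F (U a) d (m a))).filter
              (fun a => m a = m₀) with hY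
          have hinj : Set.InjOn U (Y : Set ℤ) := by
            intro a ha a' ha' h
            rw [mem_coe, hY, mem_filter, mem_filter] at ha ha'
            rw [← hUm _ ha.1.1, ← hUm _ ha'.1.1, h, ha.2, ha'.2]
          rw [← card_image_of_injOn hinj]
          have h5 := hF d hd m₀ hm₀ (Y.image U) (by
            intro u hu u' hu' huu
            obtain ⟨a, ha, rfl⟩ := mem_image.1 hu
            obtain ⟨a', ha', rfl⟩ := mem_image.1 hu'
            rw [hY, mem_filter, mem_filter] at ha ha'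
            apply hdet a ha.1.1 a' ha'.1.1
            intro p hp
            have hm₀0 : m₀ ≠ 0 := by rw [← ha.2]; exact hm0 a ha.1.1
            have e3 : ∀ x : ℤ, x ∈ A → m x = m₀ → Pool.Agent.Helper5.val p x =
                (U x).factorization p + Pool.Agent.Helper5.val p m₀ := by
              intro x hx hmx
              have hUx : (U x : ℤ) ≠ 0 := by exact_mod_cast hU0 x
              conv_lhs => rw [← hUm x hx, hmx]
              rw [Pool.Agent.Helper5.val_mul hUx hm₀0, Pool.Agent.Helper5.val_natCast]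
            rw [e3 a ha.1.1 ha.2, e3 a' ha'.1.1 ha'.2, huu p hp]) (by
            intro u hu
            obtain ⟨a, ha, rfl⟩ := mem_image.1 hu
            rw [hY, mem_filter, mem_filter] at ha
            rw [← ha.2]
            exact ha.1.2)
          refine h5.trans ?_
          apply mul_le_mul_of_nonneg_left _ (by positivity)
          apply mul_le_mul_of_nonneg_left _ (by positivity)
          exact Real.rpow_le_rpow (by positivity) hMA hl.le
        refine (sum_le_sum h4).trans ?_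
        rw [sum_const, nsmul_eq_mul]
      refine (sum_le_sum h2).trans ?_
      rw [sum_const, nsmul_eq_mul, mul_assoc]
    have h8 := mul_le_mul_of_nonneg_left hfail hLD0
    have h9 : (A.card : ℝ) * ((D.card : ℝ) * ((S.card : ℝ) * (Real.log (1 / θ) + 2 + b) +
        2 * θ * (LD + LA))) = (D.card : ℝ) * A.card * ((S.card : ℝ) * (Real.log (1 / θ) + 2 + b) +
        2 * θ * (LD + LA)) := by ring
    rw [h9]
    linarith
  -- the fibres are large
  have hMR : (M.card : ℝ) * R ≤ A.card := by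
    have h1 : (A.card : ℝ) = ∑ m₀ ∈ M, ((A.filter (fun a => m a = m₀)).card : ℝ) := by
      have := Finset.card_eq_sum_card_image m A
      exact_mod_cast this
    rw [h1, ← nsmul_eq_mul, ← sum_const]
    apply sum_le_sum
    intro m₀ hm₀
    obtain ⟨a, ha, rfl⟩ := mem_image.1 hm₀
    exact hfib a ha
  set G := C ^ S.card * ((D.card : ℝ) ^ lam * (A.card : ℝ) ^ lam) with hG
  have hG0 : 0 ≤ G := by positivity
  have hDpos : (0:ℝ) < D.card := by linarith
  have hApos : (0:ℝ) < A.card := by linarith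
  have h10 : (1 / ((D.card : ℝ) * A.card)) * (-∑ e ∈ D ×ˢ A, Real.log (w e)) ≤
      (S.card : ℝ) * (Real.log (1 / θ) + 2 + b) + 2 * θ * (LD + LA) + LD * (G / R) := by
    have h11 := mul_le_mul_of_nonneg_left hcost
      (by positivity : 0 ≤ 1 / ((D.card : ℝ) * A.card))
    refine h11.trans ?_
    have h12 : (1 / ((D.card : ℝ) * A.card)) * ((D.card : ℝ) * A.card *
        ((S.card : ℝ) * (Real.log (1 / θ) + 2 + b) + 2 * θ * (LD + LA)) +
        LD * ((D.card : ℝ) * M.card * G)) =
        ((S.card : ℝ) * (Real.log (1 / θ) + 2 + b) + 2 * θ * (LD + LA)) +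
        LD * (G * (M.card / A.card)) := by
      field_simp
    rw [h12]
    have h13 : (M.card : ℝ) / A.card ≤ 1 / R := by
      rw [div_le_div_iff₀ hApos hR]
      linarith
    have h14 : LD * (G * (M.card / A.card)) ≤ LD * (G * (1 / R)) := by gcongr
    have h15 : LD * (G * (1 / R)) = LD * (G / R) := by ring
    linarith
  have h16 : (1 / ((D.card : ℝ) * A.card)) * (-∑ e ∈ D ×ˢ A, Real.log (w e)) =
      -((1 / ((D.card : ℝ) * A.card)) * ∑ e ∈ D ×ˢ A, Real.log (w e)) := by ring
  rw [h16] at h10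
  linarith

/-- **Iterated sum step.** -/
theorem sum_iter' {θ lam : ℝ} (hθ0 : 0 < θ) (hθ1 : θ ≤ 1 / 2) (hl : 0 < lam) :
    ∃ b C : ℝ, 0 ≤ b ∧ 1 ≤ C ∧ ∀ S : Finset ℕ, (∀ p ∈ S, p.Prime) →
      ∀ A : Finset ℤ, A.Nonempty → (0:ℤ) ∉ A →
      ∀ (U : ℤ → ℕ) (m : ℤ → ℤ), (∀ a, U a ≠ 0) → (∀ a ∈ A, (U a : ℤ) * m a = a) →
      (∀ a ∈ A, ∀ a' ∈ A, (∀ p ∈ S, Pool.Agent.Helper5.val p a = Pool.Agent.Helper5.val p a') →
        U a = U a') →
      ∀ R : ℝ, 0 < R →
      (∀ a ∈ A, R ≤ ((A.filter (fun a' => m a' = m a)).card : ℝ)) →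
      ∀ N k : ℕ, A.card ≤ N → ∀ j : ℕ, j ≤ k →
      (j : ℝ) * (Real.log A.card - ((S.card : ℝ) * (Real.log (1 / θ) + 2 + b) +
        2 * θ * (((k:ℝ) + 1) * Real.log N) +
        (k * Real.log N) * (C ^ S.card * (N : ℝ) ^ (lam * (k + 1)) / R))) ≤
        Real.log ((sI A j).card : ℝ) := by
  classical
  obtain ⟨b, C, hb, hC, hstep⟩ := sum_step' hθ0 hθ1 hl
  refine ⟨b, C, hb, hC, ?_⟩
  intro S hS A hA h0 U m hU0 hUm hdet R hR hfib N k hAN
  have hA1 : 1 ≤ A.card := card_pos.2 hA
  have hN1 : 1 ≤ N := hA1.trans hAN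
  have hN1' : (1:ℝ) ≤ N := by exact_mod_cast hN1
  have hNpos : (0:ℝ) < N := by linarith
  have hLN : 0 ≤ Real.log N := Real.log_nonneg hN1'
  have hAN' : (A.card : ℝ) ≤ N := by exact_mod_cast hAN
  have hApos : (0:ℝ) < A.card := by exact_mod_cast hA1
  have hLA : Real.log A.card ≤ Real.log N := Real.log_le_log hApos hAN'
  intro j
  induction j with
  | zero => intro _; simp [sI]
  | succ j ih =>
    intro hj
    have ih' := ih (by omega)
    have hne := sI_nonempty hA j
    have hDpos : (0:ℝ) < ((sI A j).card : ℝ) := by exact_mod_cast card_pos.2 hne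
    have hD1 : (1:ℝ) ≤ ((sI A j).card : ℝ) := by exact_mod_cast card_pos.2 hne
    have hDN : ((sI A j).card : ℝ) ≤ (N:ℝ) ^ k := by
      have h1 : (sI A j).card ≤ N ^ k :=
        (sI_card A j).trans ((Nat.pow_le_pow_left hAN j).trans
          (Nat.pow_le_pow_right hN1 (by omega)))
      exact_mod_cast h1
    have hLD : Real.log ((sI A j).card : ℝ) ≤ k * Real.log N := by
      rw [← Real.log_pow]
      exact Real.log_le_log hDpos hDN
    have hLD0 : 0 ≤ Real.log ((sI A j).card : ℝ) := Real.log_nonneg hD1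
    have h2 := hstep S hS (sI A j) A hne hA h0 U m hU0 hUm hdet R hR hfib
    have h3 : ((sI A j).card : ℝ) ^ lam * (A.card : ℝ) ^ lam ≤ (N : ℝ) ^ (lam * (k + 1)) := by
      calc ((sI A j).card : ℝ) ^ lam * (A.card : ℝ) ^ lam
          ≤ ((N:ℝ) ^ k) ^ lam * (N : ℝ) ^ lam := by
            apply mul_le_mul (Real.rpow_le_rpow hDpos.le hDN hl.le)
              (Real.rpow_le_rpow hApos.le hAN' hl.le) (by positivity) (by positivity)
        _ = (N : ℝ) ^ (lam * (k + 1)) := by
            rw [← Real.rpow_natCast, ← Real.rpow_mul hNpos.le, ← Real.rpow_add hNpos]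
            congr 1
            ring
    have h4 : Real.log ((sI A j).card : ℝ) *
        (C ^ S.card * (((sI A j).card : ℝ) ^ lam * (A.card : ℝ) ^ lam) / R) ≤
        (k * Real.log N) * (C ^ S.card * (N : ℝ) ^ (lam * (k + 1)) / R) := by
      apply mul_le_mul hLD _ (by positivity) (by positivity)
      gcongr
    have h5 : 2 * θ * (Real.log ((sI A j).card : ℝ) + Real.log A.card) ≤
        2 * θ * (((k:ℝ) + 1) * Real.log N) := by
      apply mul_le_mul_of_nonneg_left _ (by linarith)
      linarith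
    have h6 : image₂ (· + ·) (sI A j) A = sI A (j + 1) := rfl
    rw [h6] at h2
    push_cast
    linarith

end Pool.Agent.Helper2.E
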