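import Pool.Agent.Helper2.EFac

set_option autoImplicit false

namespace Pool.Agent.Helper2.E

open Finset Pool.Agent.Helper5

/-- **Sets of integers without popular primes have product sets of nearly maximal size.**

For every `k ≥ 1` and `ε > 0` there is `c > 0` such that the following holds for finite sets of
integers `B ⊆ A` with `|B| ≥ |A|^(1-c)`. Let `T` be any set of primes. If for each prime `p`
outside `T` the valuation `v_p` is constant on all but at most `c |B|` elements of `B`, and for
each nonzero `b ∈ B` at most `2 |A|^c` nonzero elements of `B` have the same valuations as `b` at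
all primes outside `T`, then `|A^k| ≥ c |A|^(k-ε)`. -/
theorem unpop : ∀ k : ℕ, 1 ≤ k → ∀ ε : ℝ, 0 < ε → ∃ c : ℝ, 0 < c ∧
    ∀ A B : Finset ℤ, A.Nonempty → B ⊆ A → (A.card : ℝ) ^ (1 - c) ≤ (B.card : ℝ) →
    ∀ T : Set ℕ,
      (∀ p : ℕ, p.Prime → p ∉ T →
        ∃ z : ℕ, ((B.filter (fun b => padicValInt p b ≠ z)).card : ℝ) ≤ c * (B.card : ℝ)) →
      (∀ b ∈ B, b ≠ 0 →
        (Set.ncard {b' : ℤ | b' ∈ B ∧ b' ≠ 0 ∧
          ∀ p : ℕ, p.Prime → p ∉ T → padicValInt p b' = padicValInt p b} : ℝ) ≤
        2 * (A.card : ℝ) ^ c) →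
      c * (A.card : ℝ) ^ ((k : ℝ) - ε) ≤
        (((Fintype.piFinset (fun _ : Fin k => A)).image
            (fun f : Fin k → ℤ => ∏ i, f i)).card : ℝ) := by
  classical
  intro k hk ε hε
  have hk0 : (0 : ℝ) < k := by exact_mod_cast hk
  obtain ⟨τ, lam, κ, hτ0, hτ1, hl0, hl1, hκ0, hpar⟩ :=
    exists_params (η := ε / (4 * k * (k + 1))) (by positivity)
  set η : ℝ := ε / (4 * k * (k + 1)) with hη
  have hη0 : 0 < η := by positivity
  have hlog2 : 0 < Real.log 2 := Real.log_pos (by norm_num)
  set K₂ : ℝ := 2 * (k * Real.log 2) with hK₂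
  have hK₂0 : 0 ≤ K₂ := by positivity
  set c : ℝ := min (min (κ / 2) (ε / (4 * k))) (min (1 / 2) (Real.exp (-K₂))) with hc
  have hcpos : 0 < c := lt_min (lt_min (by positivity) (by positivity)) (lt_min (by norm_num)
    (Real.exp_pos _))
  have hcκ : c ≤ κ / 2 := (min_le_left _ _).trans (min_le_left _ _)
  have hcε : c ≤ ε / (4 * k) := (min_le_left _ _).trans (min_le_right _ _)
  have hch : c ≤ 1 / 2 := (min_le_right _ _).trans (min_le_left _ _)
  have hcK : c ≤ Real.exp (-K₂) := (min_le_right _ _).trans (min_le_right _ _)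
  clear_value c
  refine ⟨c, hcpos, ?_⟩
  intro A B hA hBA hcard T hpop hfib
  show c * (A.card : ℝ) ^ ((k : ℝ) - ε) ≤ ((kP k A).card : ℝ)
  have hn1 : 1 ≤ A.card := card_pos.mpr hA
  have hn1' : (1 : ℝ) ≤ A.card := by exact_mod_cast hn1
  have hnpos : (0 : ℝ) < A.card := by linarith
  set L := Real.log (A.card : ℝ) with hL
  have hL0 : 0 ≤ L := Real.log_nonneg hn1'
  have hPne : (kP k A).Nonempty := by
    obtain ⟨a, ha⟩ := hA
    exact ⟨_, mem_image_of_mem _ (Fintype.mem_piFinset.2 (fun _ => ha) :
      (fun _ : Fin k => a) ∈ Fintype.piFinset (fun _ : Fin k => A))⟩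
  have hP1 : (1 : ℝ) ≤ ((kP k A).card : ℝ) := by exact_mod_cast card_pos.mpr hPne
  have hbpos : (0 : ℝ) < B.card := lt_of_lt_of_le (Real.rpow_pos_of_pos hnpos _) hcard
  have hloglow : (1 - c) * L ≤ Real.log B.card := by
    rw [hL, ← Real.log_rpow hnpos]
    exact Real.log_le_log (Real.rpow_pos_of_pos hnpos _) hcard
  -- it suffices to bound the logarithm
  have hfin : (k:ℝ) * L - ε * L - K₂ ≤ Real.log ((kP k A).card : ℝ) →
      c * (A.card : ℝ) ^ ((k : ℝ) - ε) ≤ ((kP k A).card : ℝ) := by
    intro hlog
    have hmpos : (0:ℝ) < ((kP k A).card : ℝ) := by linarith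
    calc c * (A.card : ℝ) ^ ((k : ℝ) - ε)
        ≤ Real.exp (-K₂) * Real.exp (((k:ℝ) - ε) * L) := by
          apply mul_le_mul hcK _ (by positivity) (Real.exp_pos _).le
          rw [Real.rpow_def_of_pos hnpos, mul_comm]
      _ = Real.exp ((k:ℝ) * L - ε * L - K₂) := by
          rw [← Real.exp_add]; congr 1; ring
      _ ≤ Real.exp (Real.log ((kP k A).card : ℝ)) := Real.exp_le_exp.2 hlog
      _ = _ := Real.exp_log hmpos
  rcases hL0.eq_or_lt with hL00 | hLpos
  · apply hfin
    rw [← hL00]
    have h1 : 0 ≤ Real.log ((kP k A).card : ℝ) := Real.log_nonneg hP1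
    linarith
  · -- B has at least two elements
    have hB2 : 2 ≤ B.card := by
      have h1 : 0 < Real.log B.card := lt_of_lt_of_le (by
        apply mul_pos _ hLpos; linarith) hloglow
      by_contra hlt
      push Not at hlt
      have h2 : B.card = 0 ∨ B.card = 1 := by omega
      rcases h2 with h2 | h2 <;> rw [h2] at h1 <;> simp at h1
    set W := B.erase 0 with hW
    have hWcard : B.card ≤ 2 * W.card := by
      have h : B.card - 1 ≤ W.card := pred_card_le_card_erase
      omega
    have hWpos : 0 < W.card := by omega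
    have hWne : W.Nonempty := card_pos.1 hWpos
    have hWB : W ⊆ B := erase_subset _ _
    have hWA : W ⊆ A := hWB.trans hBA
    have hW0 : ∀ a ∈ W, a ≠ 0 := fun a ha => ne_of_mem_erase ha
    set R : ℝ := 2 * (A.card : ℝ) ^ c with hR
    have hR0 : 0 < R := by positivity
    choose! z hz using hpop
    have hprod := prod_iterE hτ0 hτ1 hl0 hl1 hκ0.le hη0.le hpar (A := W) hWne
      (offT T) (fun p => if (p : ℕ) ∈ T then 0 else (z p : ℤ)) (by
        intro q
        by_cases hq : (q : ℕ) ∈ T
        · have : W.filter (fun a => offT T a q ≠ if (q : ℕ) ∈ T then 0 else (z q : ℤ)) = ∅ := by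
            apply filter_false_of_mem
            intro a _ h
            rw [offT_apply, if_pos hq, if_pos hq] at h
            exact h rfl
          rw [this]
          simp only [card_empty, Nat.cast_zero]
          positivity
        · have h1 : ((W.filter (fun a => offT T a q ≠
              if (q : ℕ) ∈ T then 0 else (z q : ℤ))).card : ℝ) ≤
              ((B.filter (fun b => padicValInt q b ≠ z q)).card : ℝ) := by
            apply Nat.cast_le.2
            apply card_le_card
            intro a ha
            rw [mem_filter] at ha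
            rw [mem_filter]
            refine ⟨hWB ha.1, ?_⟩
            intro h
            apply ha.2
            rw [offT_apply, if_neg hq, if_neg hq, h]
          refine h1.trans ((hz q q.2 hq).trans ?_)
          have h2 : (B.card : ℝ) ≤ 2 * W.card := by exact_mod_cast hWcard
          calc c * (B.card : ℝ) ≤ κ / 2 * (2 * W.card) := by gcongr
            _ = κ * W.card := by ring) hR0 (by
        intro v
        rcases (W.filter (fun a => offT T a = v)).eq_empty_or_nonempty with h0 | ⟨a, ha⟩
        · rw [h0]; simpa using hR0.le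
        · rw [mem_filter] at ha
          refine le_trans ?_ (hfib a (hWB ha.1) (hW0 a ha.1))
          apply Nat.cast_le.2
          rw [← Set.ncard_coe_finset]
          apply Set.ncard_le_ncard
          · intro b hb
            have hb' := mem_filter.1 (mem_coe.1 hb)
            refine ⟨hWB hb'.1, hW0 b hb'.1, ?_⟩
            intro p hp hpT
            have h1 : offT T b = offT T a := hb'.2.trans ha.2.symm
            have h2 := DFunLike.congr_fun h1 ⟨p, hp⟩
            rw [offT_apply, offT_apply, if_neg hpT, if_neg hpT] at h2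
            exact_mod_cast h2
          · apply B.finite_toSet.subset
            rintro b ⟨hb, _⟩
            exact hb) k A.card (card_le_card hWA)
    obtain ⟨_, hvI⟩ := vI_offT T W hW0 k
    rw [hvI] at hprod
    have hle : Real.log (((pI W k).image (offT T)).card : ℝ) ≤
        Real.log ((kP k A).card : ℝ) := by
      apply Real.log_le_log
      · rw [← hvI]
        exact_mod_cast card_pos.2 (vI_nonempty (hWne.image _) k)
      · exact_mod_cast card_image_le.trans (card_le_card (pI_subset hWA k))
    apply hfin
    refine le_trans ?_ (hprod.trans hle)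
    have hlogW : (1 - c) * L - Real.log 2 ≤ Real.log W.card := by
      have hW' : (0:ℝ) < W.card := by exact_mod_cast hWpos
      have h1 : (B.card : ℝ) ≤ 2 * W.card := by exact_mod_cast hWcard
      have h2 := Real.log_le_log hbpos h1
      rw [Real.log_mul (by norm_num) hW'.ne'] at h2
      linarith
    have hlogR : Real.log R = Real.log 2 + c * L := by
      rw [hR, Real.log_mul (by norm_num) (by positivity), Real.log_rpow hnpos]
    rw [hlogR, ← hL]
    have h6 : (k:ℝ) * (η * (k + 1)) = ε / 4 := by rw [hη]; field_simp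
    have h7 : (k:ℝ) * c ≤ ε / 4 := by
      calc (k:ℝ) * c ≤ k * (ε / (4 * k)) := by gcongr
        _ = ε / 4 := by field_simp
    have h9 : (k:ℝ) * ((1 - c) * L - Real.log 2 - (Real.log 2 + c * L) - η * ((k + 1) * L)) ≤
        k * (Real.log W.card - (Real.log 2 + c * L) - η * ((k + 1) * L)) := by
      apply mul_le_mul_of_nonneg_left _ hk0.le
      linarith
    refine le_trans ?_ h9
    have h10 : (k:ℝ) * ((1 - c) * L - Real.log 2 - (Real.log 2 + c * L) - η * ((k + 1) * L)) =
        k * L - K₂ - (2 * (k * c) + k * (η * (k + 1))) * L := by rw [hK₂]; ring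
    rw [h10, h6]
    have h11 : (2 * (k * c) + ε / 4) * L ≤ ε * L := by
      apply mul_le_mul_of_nonneg_right _ hL0
      linarith
    linarith

end Pool.Agent.Helper2.E
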