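import Pool.Agent.Helper2.ECoset

set_option autoImplicit false

/-!
Few primes separate the elements of a finitely generated multiplicative group.
-/

open Finset

namespace Pool.Agent.Helper2.E

/-- few functionals separate the points of a finite dimensional space -/
theorem exists_sep {V : Type*} [AddCommGroup V] [Module ℚ V] [FiniteDimensional ℚ V]
    {I : Type*} [DecidableEq I] (Φ : I → V →ₗ[ℚ] ℚ) :
    ∀ (n : ℕ) (W : Submodule ℚ V), Module.finrank ℚ W ≤ n →
      (∀ w ∈ W, (∀ i, Φ i w = 0) → w = 0) →
      ∃ P : Finset I, P.card ≤ n ∧ ∀ w ∈ W, (∀ i ∈ P, Φ i w = 0) → w = 0 := by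
  intro n
  induction n with
  | zero =>
    intro W hW _
    refine ⟨∅, by simp, ?_⟩
    intro w hw _
    have h0 : Module.finrank ℚ W = 0 := by omega
    have h1 : W = ⊥ := Submodule.finrank_eq_zero.1 h0
    rw [h1] at hw
    exact (Submodule.mem_bot ℚ).1 hw
  | succ n ih =>
    intro W hW hsep
    by_cases hbot : W = ⊥
    · refine ⟨∅, by simp, ?_⟩
      intro w hw _
      rw [hbot] at hw
      exact (Submodule.mem_bot ℚ).1 hw
    · obtain ⟨w, hw, hw0⟩ := Submodule.exists_mem_ne_zero_of_ne_bot hbot
      have hex : ∃ i, Φ i w ≠ 0 := by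
        by_contra h
        push Not at h
        exact hw0 (hsep w hw h)
      obtain ⟨i, hi⟩ := hex
      set W' := W ⊓ LinearMap.ker (Φ i) with hW'
      have hlt : W' < W := by
        refine lt_of_le_of_ne inf_le_left ?_
        intro h
        have : w ∈ W' := by rw [h]; exact hw
        exact hi (LinearMap.mem_ker.1 this.2)
      have hfr := Submodule.finrank_lt_finrank_of_lt hlt
      obtain ⟨P, hP1, hP2⟩ := ih W' (by omega) (fun x hx hx' => hsep x hx.1 hx')
      refine ⟨insert i P, (card_insert_le _ _).trans (by omega), ?_⟩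
      intro x hx hx'
      apply hP2 x ⟨hx, LinearMap.mem_ker.2 (hx' i (mem_insert_self _ _))⟩
      intro j hj
      exact hx' j (mem_insert_of_mem hj)

theorem padicValRat_ev {ι : Type*} {g : ι → ℚ} (hg : ∀ i, 0 < g i) {p : ℕ} (hp : p.Prime)
    (e : ι →₀ ℤ) : padicValRat p (ev g e) = e.sum fun i n => n * padicValRat p (g i) := by
  classical
  haveI := Fact.mk hp
  induction e using Finsupp.induction with
  | zero =>
    unfold ev
    simp
  | single_add i n e hi hn ih =>
    rw [ev_add hg, padicValRat.mul (ev_pos hg _).ne' (ev_pos hg e).ne', ih]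
    rw [Finsupp.sum_add_index' (by intro j; simp) (by intro j m n; ring)]
    congr 1
    unfold ev
    rw [Finsupp.prod_single_index (by simp), Finsupp.sum_single_index (by simp)]
    exact padicValRat.zpow (g i)

/-- a positive rational with trivial valuations is one -/
theorem eq_one_of_padicValRat {x : ℚ} (hx : 0 < x) (h : ∀ p : ℕ, p.Prime → padicValRat p x = 0) :
    x = 1 := by
  have hnum : 0 < x.num := Rat.num_pos.2 hx
  have h1 : x.num.natAbs = x.den := by
    apply Nat.eq_of_factorization_eq (Int.natAbs_ne_zero.2 hnum.ne') x.den_ne_zero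
    intro p
    by_cases hp : p.Prime
    · have h2 := h p hp
      unfold padicValRat at h2
      rw [Nat.factorization_def _ hp, Nat.factorization_def _ hp]
      have h3 : padicValInt p x.num = padicValNat p x.num.natAbs := rfl
      rw [h3] at h2
      omega
    · rw [Nat.factorization_eq_zero_of_not_prime _ hp, Nat.factorization_eq_zero_of_not_prime _ hp]
  have h2 : x.num = x.den := by
    have := Int.natAbs_of_nonneg hnum.le
    rw [← this, h1]
  rw [← Rat.num_div_den x, h2]
  have : (x.den : ℚ) ≠ 0 := by exact_mod_cast x.den_ne_zero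
  rw [Int.cast_natCast, div_self this]

/-- **Few primes separate the elements of a finitely generated multiplicative group.** -/
theorem exists_primes {ι : Type*} [DecidableEq ι] {g : ι → ℚ} (hg : ∀ i, 0 < g i) (S : Finset ι)
    (hind : ∀ e : ι →₀ ℤ, e.support ⊆ S → ev g e = 1 → e = 0) :
    ∃ P : Finset ℕ, (∀ p ∈ P, p.Prime) ∧ P.card ≤ S.card ∧
      ∀ e : ι →₀ ℤ, e.support ⊆ S → (∀ p ∈ P, padicValRat p (ev g e) = 0) → e = 0 := by
  classical
  let Φ : {p : ℕ // p.Prime} → (({i // i ∈ S}) → ℚ) →ₗ[ℚ] ℚ := fun p =>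
    ∑ i : {i // i ∈ S}, (padicValRat p.1 (g i.1) : ℚ) • LinearMap.proj i
  have hΦ : ∀ p w, Φ p w = ∑ i : {i // i ∈ S}, (padicValRat p.1 (g i.1) : ℚ) * w i := by
    intro p w
    simp only [Φ, LinearMap.sum_apply, LinearMap.smul_apply, LinearMap.proj_apply, smul_eq_mul]
  -- an integer vector killed by all functionals is zero
  have hint : ∀ e : ι →₀ ℤ, e.support ⊆ S → ∀ p : {p : ℕ // p.Prime},
      Φ p (fun i => (e i.1 : ℚ)) = ((padicValRat p.1 (ev g e) : ℤ) : ℚ) := by
    intro e he p
    rw [hΦ, padicValRat_ev hg p.2, Finsupp.sum_of_support_subset e he _ (by intro i _; simp)]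
    push_cast
    rw [← Finset.sum_coe_sort S]
    apply sum_congr rfl
    intro i _
    ring
  have hsep : ∀ w ∈ (⊤ : Submodule ℚ ({i // i ∈ S} → ℚ)), (∀ p, Φ p w = 0) → w = 0 := by
    intro w _ hw
    -- clear denominators
    set D : ℕ := ∏ i : {i // i ∈ S}, (w i).den with hD
    have hDpos : 0 < D := Finset.prod_pos (fun i _ => (w i).den_pos)
    have hDi : ∀ i : {i // i ∈ S}, ∃ n : ℤ, w i * D = n := by
      intro i
      obtain ⟨t, ht⟩ := Finset.dvd_prod_of_mem (fun i : {i // i ∈ S} => (w i).den) (mem_univ i)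
      refine ⟨(w i).num * t, ?_⟩
      rw [hD, ht]
      push_cast
      rw [← mul_assoc, Rat.mul_den_eq_num]
    choose n hn using hDi
    let e : ι →₀ ℤ := Finsupp.onFinset S (fun i => if h : i ∈ S then n ⟨i, h⟩ else 0) (by
      intro i hi
      by_contra h
      rw [dif_neg h] at hi
      exact hi rfl)
    have heS : e.support ⊆ S := Finsupp.support_onFinset_subset
    have hei : ∀ i : {i // i ∈ S}, (e i.1 : ℚ) = w i * D := by
      intro i
      have : e i.1 = n i := by
        simp only [e, Finsupp.onFinset_apply]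
        rw [dif_pos i.2]
      rw [this, hn i]
    have hval : ∀ p : ℕ, p.Prime → padicValRat p (ev g e) = 0 := by
      intro p hp
      have h1 := hint e heS ⟨p, hp⟩
      have h2 : (fun i : {i // i ∈ S} => (e i.1 : ℚ)) = (D : ℚ) • w := by
        funext i
        rw [hei i, Pi.smul_apply, smul_eq_mul, mul_comm]
      rw [h2, map_smul, hw, smul_zero] at h1
      exact_mod_cast h1.symm
    have he0 : e = 0 := hind e heS (eq_one_of_padicValRat (ev_pos hg e) hval)
    funext i
    have h3 := hei i
    rw [he0] at h3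
    simp only [Finsupp.coe_zero, Pi.zero_apply, Int.cast_zero] at h3
    rcases mul_eq_zero.1 h3.symm with h | h
    · rw [h]; rfl
    · exact absurd h (by exact_mod_cast hDpos.ne')
  obtain ⟨P, hP1, hP2⟩ := exists_sep Φ S.card ⊤ (by
    rw [finrank_top, Module.finrank_pi, Fintype.card_coe]) hsep
  refine ⟨P.image Subtype.val, ?_, card_image_le.trans hP1, ?_⟩
  · intro p hp
    obtain ⟨q, _, rfl⟩ := mem_image.1 hp
    exact q.2
  · intro e he hval
    have h1 := hP2 (fun i => (e i.1 : ℚ)) Submodule.mem_top (by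
      intro p hp
      rw [hint e he p, hval p.1 (mem_image_of_mem _ hp), Int.cast_zero])
    ext i
    by_cases hi : i ∈ S
    · have h2 := congrFun h1 ⟨i, hi⟩
      simp only [Pi.zero_apply] at h2
      exact_mod_cast h2
    · exact Finsupp.notMem_support_iff.1 (fun h => hi (he h))

end Pool.Agent.Helper2.E
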