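import Pool.Agent.Helper2.FInd

set_option autoImplicit false

/-!
The dichotomy: a large sumset, or a large subset without good subgroups.
-/

open Finset

namespace Pool.Agent.Helper2.F

variable {G : Type*} [AddCommGroup G] [DecidableEq G]

/-- `B` has no good subgroup with parameters `κ, β, m`. -/
def NoGood (κ β : ℝ) (m : ℕ) (B : Finset G) : Prop :=
  ∀ H : AddSubgroup G, κ * B.card ≤ (inn H B).card →
    ((inn H B).card : ℝ) ≤ (1 - κ) * B.card →
    ∃ a : G, a ∉ H ∧ β * (out H B).card ≤ (cls H (out H B) a).card ∧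
      ∃ k : ℕ, 1 ≤ k ∧ k ≤ m ∧ k • a ∈ H

variable (G) in
theorem dich {κ c b : ℝ} (hκ0 : 0 < κ) (hκ1 : κ < 1) (hc : 0 < c) (hb : 0 < b) :
    ∃ m : ℕ, ∃ β lam : ℝ, 0 < β ∧ 0 < lam ∧ ∀ D X : Finset G, D.Nonempty → X.Nonempty →
      Real.log X.card ≤ b * Real.log D.card →
      (1 + lam) * Real.log X.card ≤ Real.log (sset X D).card ∨
      ∃ B ⊆ D, B.Nonempty ∧ (1 - c) * Real.log D.card ≤ Real.log B.card ∧ NoGood κ β m B := by
  have hl2 : 0 < Real.log 2 := Real.log_pos (by norm_num)
  set h₁ : ℝ := 2 * b * Real.log 2 / (c * κ) with hh₁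
  have hh₁0 : 0 < h₁ := by positivity
  set α : ℝ := Real.exp (-h₁) with hα
  have hα0 : 0 < α := Real.exp_pos _
  have hlogα : Real.log (1 / α) = h₁ := by rw [one_div, Real.log_inv, hα, Real.log_exp]; ring
  obtain ⟨m, hm⟩ := exists_nat_gt (2 / α)
  have hm' : 2 < ((m : ℝ) + 1) * α := by
    rw [div_lt_iff₀ hα0] at hm
    nlinarith
  set τ : ℝ := (α / 2) ^ (m + 1) / (m + 1) with hτ
  have hτ0 : 0 < τ := by positivity
  have hmτ : m * τ ≤ (α / 2) ^ (m + 1) := by
    have h1 : ((m : ℝ) + 1) * τ = (α / 2) ^ (m + 1) := by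
      rw [hτ]; field_simp
    nlinarith
  have hκ' : 0 < 1 - κ := by linarith
  set lam : ℝ := (κ * (1 - κ) * τ) ^ 2 / (κ * h₁) with hlam
  have hlam0 : 0 < lam := by positivity
  set g : ℝ := lam * κ * h₁ / Real.log 2 with hg
  have hg0 : 0 < g := by positivity
  have hg1 : g * Real.log 2 = lam * κ * h₁ := by rw [hg]; field_simp
  have hg2 : lam * κ * h₁ = (κ * (1 - κ) * τ) ^ 2 := by rw [hlam]; field_simp
  have hgc : g * c = 2 * b * lam := by rw [hg, hh₁]; field_simp
  refine ⟨m, α / 2, lam, by positivity, hlam0, ?_⟩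
  intro D X hD hX hXb
  by_cases hex : ∃ B ⊆ D, B.Nonempty ∧ (1 - c) * Real.log D.card ≤ Real.log B.card ∧
      NoGood κ (α / 2) m B
  · exact Or.inr hex
  · left
    have hDp : (0 : ℝ) < D.card := by exact_mod_cast card_pos.2 hD
    have hXp : (0 : ℝ) < X.card := by exact_mod_cast card_pos.2 hX
    set θ : ℝ := Real.exp ((1 - c) * Real.log D.card) with hθ
    have hθ0 : 0 < θ := Real.exp_pos _
    have hmain := main (D := D) hκ0 hκ1 hα0 hm' hτ0.le hmτ hlam0.le hg0.le
      (by rw [hlogα]; exact hg1.le) (by rw [hg1]; exact hg2.le) hθ0 (by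
        intro B hB hBθ
        have hB0 : (0 : ℝ) < B.card := hθ0.trans hBθ
        have hBne : B.Nonempty := by
          rw [← card_pos]; exact_mod_cast hB0
        have hBlog : (1 - c) * Real.log D.card ≤ Real.log B.card := by
          rw [← Real.log_exp ((1 - c) * Real.log D.card)]
          exact Real.log_le_log hθ0 hBθ.le
        have hng : ¬ NoGood κ (α / 2) m B := fun h => hex ⟨B, hB, hBne, hBlog, h⟩
        unfold NoGood at hng
        push Not at hng
        obtain ⟨H, h1, h2, h3⟩ := hng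
        exact ⟨H, h1, h2, h3⟩) D.card D (Subset.refl _) rfl hD X hX
    have h2 := hmain.trans (J_le hX hD)
    have h3 : g * Real.log (D.card / θ) - lam * Real.log X.card ≤
        Real.log (sset X D).card - Real.log X.card :=
      le_of_mul_le_mul_left h2 (by positivity)
    have h4 : Real.log (D.card / θ) = c * Real.log D.card := by
      rw [Real.log_div hDp.ne' hθ0.ne', hθ, Real.log_exp]; ring
    rw [h4] at h3
    have h5 : g * (c * Real.log D.card) = 2 * lam * (b * Real.log D.card) := by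
      rw [← mul_assoc, hgc]; ring
    have h6 : 2 * lam * Real.log X.card ≤ 2 * lam * (b * Real.log D.card) :=
      mul_le_mul_of_nonneg_left hXb (by positivity)
    linarith

end Pool.Agent.Helper2.F
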