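import Pool.Agent.Helper2.FPrime
import Pool.Agent.Helper2.EUnpop

set_option autoImplicit false

/-!
Few sums, many products: the final assembly.
-/

open Finset

namespace Pool.Agent.Helper2.F

open Pool.Agent.Helper5 Pool.Agent.Helper2.E

/-- the product set has at least one element -/
theorem one_le_kP (k : ℕ) {A : Finset ℤ} (hA : A.Nonempty) : (1 : ℝ) ≤
    (((Fintype.piFinset (fun _ : Fin k => A)).image
      (fun f : Fin k → ℤ => ∏ i, f i)).card : ℝ) := by
  obtain ⟨a, ha⟩ := hA
  have : ((Fintype.piFinset (fun _ : Fin k => A)).image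
      (fun f : Fin k → ℤ => ∏ i, f i)).Nonempty :=
    ⟨_, mem_image_of_mem _ (Fintype.mem_piFinset.2 (fun _ => ha) :
      (fun _ : Fin k => a) ∈ Fintype.piFinset (fun _ : Fin k => A))⟩
  exact_mod_cast card_pos.2 this

theorem fewSums (k : ℕ) (hk : 1 ≤ k) (ε C : ℝ) (hε : 0 < ε) :
    ∃ c : ℝ, 0 < c ∧ c ≤ 1 ∧ ∀ A X : Finset ℤ, A.Nonempty → X.Nonempty →
      (X.card : ℝ) ≤ (A.card : ℝ) ^ C →
      ((sset X A).card : ℝ) ≤ (A.card : ℝ) ^ c * X.card →
      c * (A.card : ℝ) ^ ((k : ℝ) - ε) ≤
        (((Fintype.piFinset (fun _ : Fin k => A)).image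
          (fun f : Fin k → ℤ => ∏ i, f i)).card : ℝ) := by
  classical
  obtain ⟨c₁, hc₁, hun⟩ := unpop k hk ε hε
  set κ : ℝ := min c₁ 1 / 2 with hκ
  have hκ0 : 0 < κ := by rw [hκ]; positivity
  have hκ1 : κ ≤ 1 / 2 := by rw [hκ]; have := min_le_right c₁ 1; linarith
  have hκ2 : 2 * κ ≤ c₁ := by rw [hκ]; have := min_le_left c₁ 1; linarith
  set C' : ℝ := max C 1 with hC'
  have hC'0 : 0 < C' := lt_of_lt_of_le one_pos (le_max_right _ _)
  obtain ⟨L₀, lam, hlam, hall⟩ := allP hκ0 (by linarith) hκ0 (show 0 < 2 * C' by positivity)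
  have hl2 : 0 < Real.log 2 := Real.log_pos (by norm_num)
  set L₁ : ℝ := max (max (2 * Real.log 2) (2 * Real.log 2 / c₁)) (2 * L₀) with hL₁
  have hL₁a : 2 * Real.log 2 ≤ L₁ := (le_max_left _ _).trans (le_max_left _ _)
  have hL₁b : 2 * Real.log 2 / c₁ ≤ L₁ := (le_max_right _ _).trans (le_max_left _ _)
  have hL₁c : 2 * L₀ ≤ L₁ := le_max_right _ _
  have hL₁0 : 0 < L₁ := by linarith
  have hk0 : (0 : ℝ) < k := by exact_mod_cast hk
  set c : ℝ := min (min c₁ (1 / 2)) (min (lam / 4) (Real.exp (-(k * L₁)))) with hc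
  have hc0 : 0 < c := lt_min (lt_min hc₁ (by norm_num)) (lt_min (by positivity) (Real.exp_pos _))
  have hcc₁ : c ≤ c₁ := (min_le_left _ _).trans (min_le_left _ _)
  have hch : c ≤ 1 / 2 := (min_le_left _ _).trans (min_le_right _ _)
  have hcl : c ≤ lam / 4 := (min_le_right _ _).trans (min_le_left _ _)
  have hce : c ≤ Real.exp (-(k * L₁)) := (min_le_right _ _).trans (min_le_right _ _)
  refine ⟨c, hc0, by linarith, ?_⟩
  intro A X hA hX hXA hsum
  have hA1 : (1 : ℝ) ≤ A.card := by exact_mod_cast card_pos.2 hA
  have hA0 : (0 : ℝ) < A.card := by linarith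
  have hX1 : (1 : ℝ) ≤ X.card := by exact_mod_cast card_pos.2 hX
  have hX0 : (0 : ℝ) < X.card := by linarith
  have hlA0 : 0 ≤ Real.log A.card := Real.log_nonneg hA1
  have hlX0 : 0 ≤ Real.log X.card := Real.log_nonneg hX1
  rcases lt_or_ge (Real.log A.card) L₁ with hsmall | hbig
  · -- small sets
    have h1 : (A.card : ℝ) ^ ((k : ℝ) - ε) ≤ Real.exp (k * L₁) := by
      rw [Real.rpow_def_of_pos hA0]
      apply Real.exp_le_exp.2
      calc Real.log A.card * ((k : ℝ) - ε) ≤ Real.log A.card * k :=
            mul_le_mul_of_nonneg_left (by linarith) hlA0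
        _ ≤ L₁ * k := mul_le_mul_of_nonneg_right hsmall.le hk0.le
        _ = k * L₁ := mul_comm _ _
    calc c * (A.card : ℝ) ^ ((k : ℝ) - ε) ≤ Real.exp (-(k * L₁)) * Real.exp (k * L₁) :=
          mul_le_mul hce h1 (by positivity) (Real.exp_pos _).le
      _ = 1 := by rw [← Real.exp_add]; simp
      _ ≤ _ := one_le_kP k hA
  · -- large sets
    set D := A.erase 0 with hD
    have hcardD : A.card ≤ 2 * D.card := by
      have h1 : A.card - 1 ≤ D.card := pred_card_le_card_erase
      have h2 : 2 ≤ A.card := by
        by_contra hlt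
        have h3 : A.card ≤ 1 := by omega
        have h4 : (A.card : ℝ) ≤ 1 := by exact_mod_cast h3
        have h5 := Real.log_le_log hA0 h4
        rw [Real.log_one] at h5
        linarith
      omega
    have hDpos : 0 < D.card := by
      have := card_pos.2 hA
      omega
    have hDne : D.Nonempty := card_pos.1 hDpos
    have hD0 : (0 : ℝ) < D.card := by exact_mod_cast hDpos
    have hDA : D ⊆ A := erase_subset _ _
    have h0D : (0 : ℤ) ∉ D := notMem_erase _ _
    have hlD : Real.log A.card - Real.log 2 ≤ Real.log D.card := by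
      have h1 : (A.card : ℝ) ≤ 2 * D.card := by exact_mod_cast hcardD
      have h2 := Real.log_le_log hA0 h1
      rw [Real.log_mul (by norm_num) hD0.ne'] at h2
      linarith
    have hlD2 : 1 / 2 * Real.log A.card ≤ Real.log D.card := by linarith
    have hlXA : Real.log X.card ≤ C' * Real.log A.card := by
      have h1 := Real.log_le_log hX0 hXA
      rw [Real.log_rpow hA0] at h1
      exact h1.trans (mul_le_mul_of_nonneg_right (le_max_left _ _) hlA0)
    have hlXD : Real.log X.card ≤ 2 * C' * Real.log D.card := by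
      have : C' * (1 / 2 * Real.log A.card) ≤ C' * Real.log D.card :=
        mul_le_mul_of_nonneg_left hlD2 hC'0.le
      linarith
    rcases hall D X hDne hX h0D (by linarith) hlXD with hbigsum | ⟨B, hBD, hBne, hBl, hpop⟩
    · -- impossible
      exfalso
      have h1 := hbigsum.trans (log_sset_mono hX hDne hDA)
      have hssne : (0 : ℝ) < (sset X A).card := by
        obtain ⟨x, hx⟩ := hX
        obtain ⟨y, hy⟩ := hA
        exact_mod_cast card_pos.2 ⟨_, mem_sset hx hy⟩
      have h2 := Real.log_le_log hssne hsum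
      rw [Real.log_mul (by positivity) hX0.ne', Real.log_rpow hA0] at h2
      have h3 : Real.log A.card ≤ Real.log (sset X A).card := by
        apply Real.log_le_log hA0
        obtain ⟨x, hx⟩ := hX
        have h4 : A.image (fun y => x + y) ⊆ sset X A := by
          intro s hs
          obtain ⟨y, hy, rfl⟩ := mem_image.1 hs
          exact mem_sset hx hy
        have h5 := card_le_card h4
        rw [card_image_of_injective _ (add_right_injective x)] at h5
        exact_mod_cast h5
      have hlApos : 0 < Real.log A.card := by linarith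
      have h6 : (1 - c) * Real.log A.card ≤ Real.log X.card := by linarith
      have h7 : lam * Real.log X.card ≤ c * Real.log A.card := by linarith
      have h8 : lam * ((1 - c) * Real.log A.card) ≤ lam * Real.log X.card :=
        mul_le_mul_of_nonneg_left h6 hlam.le
      have h9 : (lam * (1 - c)) * Real.log A.card ≤ c * Real.log A.card := by linarith
      have h10 : lam * (1 - c) ≤ c := le_of_mul_le_mul_right h9 hlApos
      nlinarith
    · have hB0 : (0 : ℝ) < B.card := by exact_mod_cast card_pos.2 hBne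
      have hBl2 : (1 - c₁) * Real.log A.card ≤ Real.log B.card := by
        have h1 : (1 - κ) * (Real.log A.card - Real.log 2) ≤ (1 - κ) * Real.log D.card :=
          mul_le_mul_of_nonneg_left hlD (by linarith)
        have h2 : Real.log 2 ≤ c₁ / 2 * Real.log A.card := by
          have h3 : c₁ / 2 * (2 * Real.log 2 / c₁) = Real.log 2 := by field_simp
          calc Real.log 2 = c₁ / 2 * (2 * Real.log 2 / c₁) := h3.symm
            _ ≤ c₁ / 2 * Real.log A.card :=
              mul_le_mul_of_nonneg_left (hL₁b.trans hbig) (by positivity)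
        have h4 : (1 - κ) * Real.log 2 ≤ Real.log 2 := by nlinarith
        have h5 : κ * Real.log A.card ≤ c₁ / 2 * Real.log A.card :=
          mul_le_mul_of_nonneg_right (by linarith) hlA0
        nlinarith
      have hcard : (A.card : ℝ) ^ (1 - c₁) ≤ (B.card : ℝ) := by
        rw [Real.rpow_def_of_pos hA0, ← Real.exp_log hB0]
        apply Real.exp_le_exp.2
        linarith
      have hmain := hun A B hA (hBD.trans hDA) hcard ∅ (by
        intro p hp _
        obtain ⟨z, hz⟩ := hpop p hp
        exact ⟨z, hz.trans (mul_le_mul_of_nonneg_right hκ2 hB0.le)⟩) (by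
        intro b _ hb0
        have h1 : {b' : ℤ | b' ∈ B ∧ b' ≠ 0 ∧
            ∀ p : ℕ, p.Prime → p ∉ (∅ : Set ℕ) → padicValInt p b' = padicValInt p b} ⊆
            {b, -b} := by
          rintro b' ⟨_, hb'0, hb'⟩
          have : fac b' = fac b := by
            ext p
            rw [fac_apply, fac_apply, hb' p p.2 (by simp)]
          rcases fac_inj hb'0 hb0 this with h | h
          · exact Or.inl h
          · exact Or.inr h
        have h2 : Set.ncard {b' : ℤ | b' ∈ B ∧ b' ≠ 0 ∧
            ∀ p : ℕ, p.Prime → p ∉ (∅ : Set ℕ) → padicValInt p b' = padicValInt p b} ≤ 2 :=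
          (Set.ncard_le_ncard h1 (Set.toFinite _)).trans
            ((Set.ncard_insert_le b {-b}).trans (by rw [Set.ncard_singleton]))
        have h3 : (1 : ℝ) ≤ (A.card : ℝ) ^ c₁ := Real.one_le_rpow hA1 hc₁.le
        have h4 : ((Set.ncard {b' : ℤ | b' ∈ B ∧ b' ≠ 0 ∧
            ∀ p : ℕ, p.Prime → p ∉ (∅ : Set ℕ) → padicValInt p b' = padicValInt p b} : ℕ) :
            ℝ) ≤ 2 := by exact_mod_cast h2
        linarith)
      exact (mul_le_mul_of_nonneg_right hcc₁ (by positivity)).trans hmain

theorem sset_eq (X A : Finset ℤ) : sset X A = image₂ (· + ·) X A := by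
  unfold sset
  rw [image₂]
  rfl

theorem manySums (k : ℕ) (hk : 1 ≤ k) (ε b : ℝ) (hε : 0 < ε) :
    ∃ c : ℝ, 0 < c ∧ ∀ A : Finset ℤ, A.Nonempty →
      c * (A.card : ℝ) ^ ((k : ℝ) - ε) ≤
        (((Fintype.piFinset (fun _ : Fin k => A)).image
          (fun f : Fin k → ℤ => ∏ i, f i)).card : ℝ) ∨
      ∀ h : ℕ, 1 ≤ h → (A.card : ℝ) ^ (min b (1 + c * ((h : ℝ) - 1))) ≤
        (((Fintype.piFinset (fun _ : Fin h => A)).image
          (fun f : Fin h → ℤ => ∑ i, f i)).card : ℝ) := by
  obtain ⟨c, hc0, hc1, hfew⟩ := fewSums k hk ε b hε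
  refine ⟨c, hc0, ?_⟩
  intro A hA
  by_cases hP : c * (A.card : ℝ) ^ ((k : ℝ) - ε) ≤
        (((Fintype.piFinset (fun _ : Fin k => A)).image
          (fun f : Fin k → ℤ => ∏ i, f i)).card : ℝ)
  · exact Or.inl hP
  · right
    have hA1 : (1 : ℝ) ≤ A.card := by exact_mod_cast card_pos.2 hA
    have hA0 : (0 : ℝ) < A.card := by linarith
    have hne : ∀ j, (sI A j).Nonempty := fun j => sI_nonempty hA j
    have key : ∀ j : ℕ, (A.card : ℝ) ^ (min b (1 + c * j)) ≤ ((sI A (j + 1)).card : ℝ) := by
      intro j
      induction j with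
      | zero =>
        have h0 : sI A (0 + 1) = A := by
          show image₂ (· + ·) {0} A = A
          rw [image₂_singleton_left]
          simp
        rw [h0]
        calc (A.card : ℝ) ^ (min b (1 + c * ((0 : ℕ) : ℝ))) ≤ (A.card : ℝ) ^ (1 : ℝ) := by
              apply Real.rpow_le_rpow_of_exponent_le hA1
              refine (min_le_right _ _).trans ?_
              simp
          _ = _ := Real.rpow_one _
      | succ j ih =>
        have hmono : (sI A (j + 1)).card ≤ (sI A (j + 1 + 1)).card := by
          show (sI A (j + 1)).card ≤ (image₂ (· + ·) (sI A (j + 1)) A).card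
          obtain ⟨a, ha⟩ := hA
          have h4 : (sI A (j + 1)).image (fun y => y + a) ⊆
              image₂ (· + ·) (sI A (j + 1)) A := by
            intro s hs
            obtain ⟨y, hy, rfl⟩ := mem_image.1 hs
            exact mem_image₂_of_mem hy ha
          have h5 := card_le_card h4
          rwa [card_image_of_injective _ (add_left_injective a)] at h5
        have hmono' : ((sI A (j + 1)).card : ℝ) ≤ ((sI A (j + 1 + 1)).card : ℝ) := by
          exact_mod_cast hmono
        rcases le_or_gt ((sI A (j + 1)).card : ℝ) ((A.card : ℝ) ^ b) with h1 | h1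
        · have h2 : (A.card : ℝ) ^ c * (sI A (j + 1)).card < (sset (sI A (j + 1)) A).card := by
            by_contra h
            push Not at h
            exact hP (hfew A (sI A (j + 1)) hA (hne (j + 1)) h1 h)
          have h3 : sset (sI A (j + 1)) A = sI A (j + 1 + 1) := sset_eq _ _
          rw [h3] at h2
          refine le_trans ?_ h2.le
          calc (A.card : ℝ) ^ (min b (1 + c * ((j + 1 : ℕ) : ℝ)))
              ≤ (A.card : ℝ) ^ (c + min b (1 + c * j)) := by
                apply Real.rpow_le_rpow_of_exponent_le hA1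
                rw [← min_add_add_left]
                apply min_le_min
                · linarith
                · push_cast; linarith
            _ = (A.card : ℝ) ^ c * (A.card : ℝ) ^ (min b (1 + c * j)) := Real.rpow_add hA0 _ _
            _ ≤ _ := mul_le_mul_of_nonneg_left ih (by positivity)
        · refine le_trans ?_ hmono'
          refine le_trans ?_ h1.le
          apply Real.rpow_le_rpow_of_exponent_le hA1
          exact min_le_left _ _
    intro h hh
    obtain ⟨j, rfl⟩ : ∃ j, h = j + 1 := ⟨h - 1, by omega⟩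
    have h1 := key j
    have h2 : ((j + 1 : ℕ) : ℝ) - 1 = j := by push_cast; ring
    rw [h2]
    refine h1.trans ?_
    exact_mod_cast card_le_card (sI_subset (Subset.refl A) _)

end Pool.Agent.Helper2.F
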