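import Pool.Agent.Helper2.FMain

set_option autoImplicit false

/-!
The main induction: mutual information of sums over iterated splittings by subgroups.
-/

open Finset

namespace Pool.Agent.Helper2.F

variable {G : Type*} [AddCommGroup G] [DecidableEq G]

open scoped Classical in
theorem J_classes (H : AddSubgroup G) (X D : Finset G) (hD : ∀ y ∈ D, y ∈ H) :
    J X D = ∑ c ∈ X.image (fun x => (QuotientAddGroup.mk x : G ⧸ H)), J (cq H X c) D := by
  unfold J
  rw [← sum_fiberwise_of_maps_to (s := X)
    (t := X.image (fun x => (QuotientAddGroup.mk x : G ⧸ H)))
    (g := fun x => (QuotientAddGroup.mk x : G ⧸ H)) (fun x hx => mem_image_of_mem _ hx)]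
  apply sum_congr rfl
  intro c _
  have h1 : X.filter (fun x => (QuotientAddGroup.mk x : G ⧸ H) = c) = cq H X c := rfl
  rw [h1]
  apply sum_congr rfl
  intro x hx
  apply sum_congr rfl
  intro y hy
  congr 3
  unfold rep
  congr 1
  apply filter_congr
  intro y' hy'
  rw [mem_cq]
  constructor
  · intro h
    refine ⟨h, ?_⟩
    rw [← (mem_cq.1 hx).2]
    have e1 : x + y - y' = x + (y - y') := by abel
    rw [e1, QuotientAddGroup.mk_add]
    have e2 : (QuotientAddGroup.mk (y - y') : G ⧸ H) = 0 :=
      (QuotientAddGroup.eq_zero_iff _).2 (H.sub_mem (hD y hy) (hD y' hy'))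
    rw [e2, add_zero]
  · intro h
    exact h.1

open scoped Classical in
theorem card_classes (H : AddSubgroup G) (X : Finset G) (T : Finset (G ⧸ H)) :
    ∑ c ∈ T, ((cq H X c).card : ℝ) ≤ X.card := by
  have h : ∑ c ∈ T, (cq H X c).card ≤ X.card := by
    have h1 : ∑ c ∈ T, (cq H X c).card =
        (X.filter (fun x => (QuotientAddGroup.mk x : G ⧸ H) ∈ T)).card := by
      rw [card_eq_sum_card_fiberwise (f := fun x => (QuotientAddGroup.mk x : G ⧸ H)) (t := T)
        (by intro x hx; exact (mem_filter.1 (mem_coe.1 hx)).2)]
      apply sum_congr rfl
      intro c hc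
      congr 1
      ext x
      rw [mem_cq, mem_filter, mem_filter]
      constructor
      · rintro ⟨h1, h2⟩
        exact ⟨⟨h1, h2 ▸ hc⟩, h2⟩
      · rintro ⟨⟨h1, _⟩, h2⟩
        exact ⟨h1, h2⟩
    rw [h1]
    exact card_filter_le _ _
  exact_mod_cast h

open scoped Classical in
theorem card_classes_eq (H : AddSubgroup G) (X : Finset G) :
    ∑ c ∈ X.image (fun x => (QuotientAddGroup.mk x : G ⧸ H)), ((cq H X c).card : ℝ) =
      X.card := by
  have h : X.card = ∑ c ∈ X.image (fun x => (QuotientAddGroup.mk x : G ⧸ H)),
      (cq H X c).card := by
    rw [card_eq_sum_card_fiberwise (f := fun x => (QuotientAddGroup.mk x : G ⧸ H))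
      (t := X.image (fun x => (QuotientAddGroup.mk x : G ⧸ H)))
      (fun x hx => mem_image_of_mem _ hx)]
    rfl
  rw [h]
  push_cast
  rfl

theorem two_log {a b : ℝ} (ha : 0 < a) (hb : 0 < b) :
    (a + b) * (Real.log (a + b) - Real.log 2) ≤ a * Real.log a + b * Real.log b := by
  have hab : 0 < a + b := by positivity
  have key : ∀ x : ℝ, 0 < x → x * (Real.log (a + b) - Real.log 2 - Real.log x) ≤
      (a + b) / 2 - x := by
    intro x hx
    have h1 := Real.log_le_sub_one_of_pos (show 0 < (a + b) / 2 / x by positivity)
    rw [Real.log_div (by positivity) hx.ne', Real.log_div hab.ne' (by norm_num)] at h1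
    have h2 := mul_le_mul_of_nonneg_left h1 hx.le
    have h3 : x * ((a + b) / 2 / x - 1) = (a + b) / 2 - x := by field_simp
    linarith
  have h1 := key a ha
  have h2 := key b hb
  linarith

open scoped Classical in
/-- The main induction. -/
theorem main {D : Finset G} {κ α τ lam g θ : ℝ} {m : ℕ} (hκ0 : 0 < κ) (hκ1 : κ < 1)
    (hα0 : 0 < α) (hm : 2 < ((m : ℝ) + 1) * α) (hτ0 : 0 ≤ τ)
    (hτ : m * τ ≤ (α / 2) ^ (m + 1)) (hlam : 0 ≤ lam) (hg0 : 0 ≤ g)
    (hg1 : g * Real.log 2 ≤ lam * κ * Real.log (1 / α))
    (hg2 : g * Real.log 2 ≤ (κ * (1 - κ) * τ) ^ 2) (hθ : 0 < θ)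
    (hyp : ∀ B ⊆ D, θ < B.card → ∃ H : AddSubgroup G,
      κ * B.card ≤ (inn H B).card ∧ ((inn H B).card : ℝ) ≤ (1 - κ) * B.card ∧
      ∀ a : G, a ∉ H → α / 2 * (out H B).card ≤ (cls H (out H B) a).card →
        ∀ k : ℕ, 1 ≤ k → k ≤ m → k • a ∉ H) :
    ∀ n : ℕ, ∀ D' ⊆ D, D'.card = n → D'.Nonempty → ∀ X : Finset G, X.Nonempty →
      (X.card : ℝ) * D'.card * (g * Real.log (D'.card / θ) - lam * Real.log X.card) ≤
        J X D' := by
  intro n
  induction n using Nat.strong_induction_on with
  | _ n ih =>
    intro D' hD' hn hne X hX
    have hDp : (0 : ℝ) < D'.card := by exact_mod_cast card_pos.2 hne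
    have hXp : (0 : ℝ) < X.card := by exact_mod_cast card_pos.2 hX
    have hX1 : (1 : ℝ) ≤ X.card := by exact_mod_cast card_pos.2 hX
    have hlX : 0 ≤ Real.log X.card := Real.log_nonneg hX1
    rcases le_or_gt (D'.card : ℝ) θ with hsmall | hbig
    · refine le_trans ?_ (J_nonneg X D')
      apply mul_nonpos_of_nonneg_of_nonpos (by positivity)
      have h1 : Real.log (D'.card / θ) ≤ 0 :=
        Real.log_nonpos (by positivity) ((div_le_one hθ).2 hsmall)
      have h2 := mul_nonpos_of_nonneg_of_nonpos hg0 h1
      have h3 := mul_nonneg hlam hlX
      linarith
    · obtain ⟨H, hH1, hH2, hH3⟩ := hyp D' hD' hbig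
      have hsum : ((inn H D').card : ℝ) + (out H D').card = D'.card := by
        exact_mod_cast card_inn_add_out H D'
      have hp1 : (0 : ℝ) < (inn H D').card := lt_of_lt_of_le (by positivity) hH1
      have hp0 : (0 : ℝ) < (out H D').card := by nlinarith
      have hne1 : (inn H D').Nonempty := by
        rw [← card_pos]; exact_mod_cast hp1
      have hne0 : (out H D').Nonempty := by
        rw [← card_pos]; exact_mod_cast hp0
      have hlt1 : (inn H D').card < n := by
        rw [← hn, ← card_inn_add_out H D']
        have := card_pos.2 hne0
        omega
      have hlt0 : (out H D').card < n := by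
        rw [← hn, ← card_inn_add_out H D']
        have := card_pos.2 hne1
        omega
      set I : Finset (G ⧸ H) := X.image (fun x => (QuotientAddGroup.mk x : G ⧸ H)) with hI
      -- the two recursive bounds
      have hb0 := ih _ hlt0 (out H D') ((out_subset H D').trans hD') rfl hne0 X hX
      have hcne : ∀ c ∈ I, (cq H X c).Nonempty := by
        intro c hc
        obtain ⟨x, hx, rfl⟩ := mem_image.1 hc
        exact ⟨x, mem_cq.2 ⟨hx, rfl⟩⟩
      have hb1 : ((inn H D').card : ℝ) * (X.card * (g * Real.log ((inn H D').card / θ)) -
          lam * ∑ c ∈ I, ((cq H X c).card : ℝ) * Real.log (cq H X c).card) ≤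
          J X (inn H D') := by
        rw [J_classes H X (inn H D') (fun y hy => (mem_inn.1 hy).2)]
        calc ((inn H D').card : ℝ) * (X.card * (g * Real.log ((inn H D').card / θ)) -
          lam * ∑ c ∈ I, ((cq H X c).card : ℝ) * Real.log (cq H X c).card)
            = ∑ c ∈ I, ((cq H X c).card : ℝ) * (inn H D').card *
              (g * Real.log ((inn H D').card / θ) - lam * Real.log (cq H X c).card) := by
              rw [← card_classes_eq H X, sum_mul, mul_sum, ← sum_sub_distrib, mul_sum]
              apply sum_congr rfl
              intro c _
              ring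
          _ ≤ ∑ c ∈ I, J (cq H X c) (inn H D') := by
              apply sum_le_sum
              intro c hc
              exact ih _ hlt1 (inn H D') ((inn_subset H D').trans hD') rfl hne1 _ (hcne c hc)
      -- entropy of the classes
      set E : ℝ := ∑ c ∈ I, ((cq H X c).card : ℝ) * Real.log (cq H X c).card with hE
      have hEle : E ≤ X.card * Real.log X.card := by
        rw [hE]
        calc ∑ c ∈ I, ((cq H X c).card : ℝ) * Real.log (cq H X c).card
            ≤ ∑ c ∈ I, ((cq H X c).card : ℝ) * Real.log X.card := by
              apply sum_le_sum
              intro c hc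
              apply mul_le_mul_of_nonneg_left _ (by positivity)
              apply Real.log_le_log
              · exact_mod_cast card_pos.2 (hcne c hc)
              · exact_mod_cast card_le_card (cq_subset H X c)
          _ = _ := by rw [← sum_mul, card_classes_eq H X]
      -- what remains to be shown
      have hgoal : ∀ Z : ℝ, (X.card : ℝ) * D'.card * (g * Real.log 2) ≤
          lam * (inn H D').card * (X.card * Real.log X.card - E) + Z →
          J X (inn H D') + J X (out H D') + Z ≤ J X D' →
          (X.card : ℝ) * D'.card * (g * Real.log (D'.card / θ) - lam * Real.log X.card) ≤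
            J X D' := by
        intro Z hZ1 hZ2
        refine le_trans ?_ hZ2
        have e1 : Real.log (((inn H D').card : ℝ) / θ) =
            Real.log (inn H D').card - Real.log θ := Real.log_div hp1.ne' hθ.ne'
        have e0 : Real.log (((out H D').card : ℝ) / θ) =
            Real.log (out H D').card - Real.log θ := Real.log_div hp0.ne' hθ.ne'
        have e2 : Real.log ((D'.card : ℝ) / θ) =
            Real.log D'.card - Real.log θ := Real.log_div hDp.ne' hθ.ne'
        rw [e1] at hb1
        rw [e0] at hb0
        rw [e2]
        have h2l := two_log hp1 hp0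
        rw [hsum] at h2l
        have h3 := mul_le_mul_of_nonneg_left h2l (mul_nonneg hXp.le hg0)
        have h4 : ((out H D').card : ℝ) = D'.card - (inn H D').card := by linarith
        rw [h4] at h3 hb0
        nlinarith
      rcases le_or_gt (Real.log (1 / α) * X.card) (X.card * Real.log X.card - E) with hA | hB
      · -- large entropy
        apply hgoal 0
        · rw [add_zero]
          calc (X.card : ℝ) * D'.card * (g * Real.log 2)
              ≤ (X.card : ℝ) * D'.card * (lam * κ * Real.log (1 / α)) := by
                apply mul_le_mul_of_nonneg_left hg1 (by positivity)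
            _ = lam * (κ * D'.card) * (Real.log (1 / α) * X.card) := by ring
            _ ≤ lam * (inn H D').card * (X.card * Real.log X.card - E) := by
                rcases le_or_gt 0 (Real.log (1 / α)) with h | h
                · apply mul_le_mul _ hA (by positivity) (by positivity)
                  exact mul_le_mul_of_nonneg_left hH1 hlam
                · have h1 : lam * (κ * D'.card) * (Real.log (1 / α) * X.card) ≤ 0 := by
                    apply mul_nonpos_of_nonneg_of_nonpos (by positivity)
                    nlinarith
                  have h2 : 0 ≤ lam * (inn H D').card * (X.card * Real.log X.card - E) := by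
                    apply mul_nonneg (by positivity)
                    linarith
                  linarith
        · have h := J_split H (X := X) hne1 hne0 (le_refl (0 : ℝ)) 0
          have h2 : ((D'.card : ℝ)) *
            (2 * 0 * (((inn H D').card : ℝ) / D'.card * ((out H D').card / D'.card)) *
            ((cq H X 0).card -
            (∑ y ∈ out H D', ((cq H X (0 - QuotientAddGroup.mk y)).card : ℝ)) /
              (out H D').card) - 0 ^ 2 * X.card) = 0 := by ring
          rw [h2] at h
          exact h
      · -- a large class
        have hIne : I.Nonempty := hX.image _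
        obtain ⟨cs, hcsI, hcs⟩ := exists_max_image I (fun c => ((cq H X c).card : ℝ)) hIne
        have hmax : ∀ c : G ⧸ H, ((cq H X c).card : ℝ) ≤ (cq H X cs).card := by
          intro c
          by_cases hc : c ∈ I
          · exact hcs c hc
          · have h0 : cq H X c = ∅ := by
              rw [eq_empty_iff_forall_notMem]
              intro x hx
              apply hc
              rw [hI, mem_image]
              exact ⟨x, (mem_cq.1 hx).1, (mem_cq.1 hx).2⟩
            rw [h0]
            simp
        have hlarge : α * X.card ≤ (cq H X cs).card := by
          by_contra hlt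
          push Not at hlt
          have h1 : E ≤ X.card * (Real.log X.card - Real.log (1 / α)) := by
            rw [hE]
            calc ∑ c ∈ I, ((cq H X c).card : ℝ) * Real.log (cq H X c).card
                ≤ ∑ c ∈ I, ((cq H X c).card : ℝ) *
                  (Real.log X.card - Real.log (1 / α)) := by
                  apply sum_le_sum
                  intro c hc
                  apply mul_le_mul_of_nonneg_left _ (by positivity)
                  have h2 : (0 : ℝ) < (cq H X c).card := by
                    exact_mod_cast card_pos.2 (hcne c hc)
                  have h3 := Real.log_le_log h2 ((hmax c).trans hlt.le)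
                  rw [Real.log_mul hα0.ne' hXp.ne'] at h3
                  rw [one_div, Real.log_inv]
                  linarith
              _ = _ := by rw [← sum_mul, card_classes_eq H X]
          nlinarith
        obtain ⟨c, hc⟩ := node (Q := G ⧸ H) (out H D') hne0
          (fun y => (QuotientAddGroup.mk y : G ⧸ H)) (fun c => ((cq H X c).card : ℝ))
          (fun c => by positivity) hXp hα0 (fun T => card_classes H X T) hm (by
            intro a ha k hk1 hkm
            obtain ⟨a, rfl⟩ := QuotientAddGroup.mk_surjective a
            have haH : a ∉ H := by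
              intro haH
              have h0 : (out H D').filter
                  (fun y => (QuotientAddGroup.mk y : G ⧸ H) = QuotientAddGroup.mk a) = ∅ := by
                apply filter_false_of_mem
                intro y hy h
                apply (mem_out.1 hy).2
                rw [← QuotientAddGroup.eq_zero_iff, h, QuotientAddGroup.eq_zero_iff]
                exact haH
              rw [h0] at ha
              simp only [card_empty, Nat.cast_zero] at ha
              have : 0 < α / 2 * ((out H D').card : ℝ) := by positivity
              linarith
            have h1 := hH3 a haH (by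
              refine ha.trans (le_of_eq ?_)
              congr 2
              unfold cls
              apply filter_congr
              intro y _
              rw [eq_comm, QuotientAddGroup.eq, neg_add_eq_sub]) k hk1 hkm
            rw [← QuotientAddGroup.mk_nsmul]
            intro h
            exact h1 ((QuotientAddGroup.eq_zero_iff _).1 h)) hmax hlarge hτ0 hτ
        -- choose t
        set w := κ * (1 - κ) with hw
        have hw0 : 0 < w := mul_pos hκ0 (by linarith)
        have hsplit := J_split H (X := X) hne1 hne0 (show 0 ≤ w * τ by positivity) c
        apply hgoal _ _ hsplit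
        have hnn : 0 ≤ lam * (inn H D').card * (X.card * Real.log X.card - E) := by
          apply mul_nonneg (by positivity)
          linarith
        have hww : w ≤ ((inn H D').card : ℝ) / D'.card * ((out H D').card / D'.card) := by
          set η := ((inn H D').card : ℝ) / D'.card with hη
          have h1 : ((out H D').card : ℝ) / D'.card = 1 - η := by
            rw [hη, eq_sub_iff_add_eq, ← add_div, div_eq_one_iff_eq hDp.ne']
            linarith
          rw [h1]
          have h2 : κ ≤ η := by rw [hη, le_div_iff₀ hDp]; exact hH1
          have h3 : η ≤ 1 - κ := by rw [hη, div_le_iff₀ hDp]; exact hH2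
          rw [hw]
          nlinarith
        have hc' : τ * X.card ≤ ((cq H X c).card : ℝ) -
            (∑ y ∈ out H D', ((cq H X (c - QuotientAddGroup.mk y)).card : ℝ)) /
              (out H D').card := by
          rw [le_sub_iff_add_le, ← le_sub_iff_add_le', div_le_iff₀ hp0]
          nlinarith
        calc (X.card : ℝ) * D'.card * (g * Real.log 2)
            ≤ (X.card : ℝ) * D'.card * ((w * τ) ^ 2) :=
              mul_le_mul_of_nonneg_left hg2 (by positivity)
          _ = D'.card * (2 * (w * τ) * w * (τ * X.card) - (w * τ) ^ 2 * X.card) := by ring
          _ ≤ D'.card *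
              (2 * (w * τ) * (((inn H D').card : ℝ) / D'.card * ((out H D').card / D'.card)) *
              ((cq H X c).card -
              (∑ y ∈ out H D', ((cq H X (c - QuotientAddGroup.mk y)).card : ℝ)) /
                (out H D').card) - (w * τ) ^ 2 * X.card) := by
              apply mul_le_mul_of_nonneg_left _ hDp.le
              apply sub_le_sub_right
              apply mul_le_mul _ hc' (by positivity) (by positivity)
              exact mul_le_mul_of_nonneg_left hww (by positivity)
          _ ≤ _ := by linarith

end Pool.Agent.Helper2.F
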