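import Mathlib

set_option autoImplicit false

/-!
Representation functions of sumsets in abelian groups and the (unnormalised) mutual information
of `x + y` and `y`.
-/

open Finset

namespace Pool.Agent.Helper2.F

variable {G : Type*} [AddCommGroup G] [DecidableEq G]

/-- number of representations `s = x + y` with `x ∈ X`, `y ∈ D` -/
def rep (X D : Finset G) (s : G) : ℕ := (D.filter (fun y => s - y ∈ X)).card

theorem rep_pos {X D : Finset G} {x y : G} (hx : x ∈ X) (hy : y ∈ D) : 0 < rep X D (x + y) := by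
  unfold rep
  apply card_pos.2
  refine ⟨y, mem_filter.2 ⟨hy, ?_⟩⟩
  rwa [add_sub_cancel_right]

theorem rep_le (X D : Finset G) (s : G) : rep X D s ≤ D.card := card_le_card (filter_subset _ _)

/-- the set of sums -/
def sset (X D : Finset G) : Finset G := (X ×ˢ D).image (fun z => z.1 + z.2)

theorem mem_sset {X D : Finset G} {x y : G} (hx : x ∈ X) (hy : y ∈ D) : x + y ∈ sset X D :=
  mem_image_of_mem (fun z : G × G => z.1 + z.2) (mem_product.2 ⟨hx, hy⟩ : (x, y) ∈ X ×ˢ D)

theorem sum_pairs (X D : Finset G) (f : G → ℝ) {S : Finset G}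
    (hS : ∀ x ∈ X, ∀ y ∈ D, x + y ∈ S) :
    ∑ x ∈ X, ∑ y ∈ D, f (x + y) = ∑ s ∈ S, (rep X D s : ℝ) * f s := by
  have h1 : ∀ s ∈ S, (rep X D s : ℝ) * f s = ∑ y ∈ D, if s - y ∈ X then f s else 0 := by
    intro s _
    unfold rep
    rw [← sum_filter, sum_const, nsmul_eq_mul]
  rw [sum_congr rfl h1, sum_comm, sum_comm (s := S)]
  apply sum_congr rfl
  intro y hy
  rw [← sum_filter]
  apply sum_bij (fun x _ => x + y)
  · intro x hx
    rw [mem_filter]
    refine ⟨hS x hx y hy, ?_⟩
    rwa [add_sub_cancel_right]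
  · intro a _ b _ h
    exact add_right_cancel h
  · intro s hs
    rw [mem_filter] at hs
    exact ⟨s - y, hs.2, by rw [sub_add_cancel]⟩
  · intro x _
    rfl

/-- the unnormalised mutual information of `x + y` and `y` -/
noncomputable def J (X D : Finset G) : ℝ :=
  ∑ x ∈ X, ∑ y ∈ D, Real.log ((D.card : ℝ) / (rep X D (x + y) : ℝ))

theorem J_nonneg (X D : Finset G) : 0 ≤ J X D := by
  unfold J
  apply sum_nonneg
  intro x hx
  apply sum_nonneg
  intro y hy
  apply Real.log_nonneg
  rw [le_div_iff₀ (by exact_mod_cast rep_pos hx hy), one_mul]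
  exact_mod_cast rep_le X D (x + y)

theorem J_le {X D : Finset G} (hX : X.Nonempty) (hD : D.Nonempty) :
    J X D ≤ X.card * D.card * (Real.log (sset X D).card - Real.log X.card) := by
  have hXp : (0 : ℝ) < X.card := by exact_mod_cast card_pos.2 hX
  have hDp : (0 : ℝ) < D.card := by exact_mod_cast card_pos.2 hD
  have hSne : (sset X D).Nonempty := by
    obtain ⟨x, hx⟩ := hX
    obtain ⟨y, hy⟩ := hD
    exact ⟨_, mem_sset hx hy⟩
  have hSp : (0 : ℝ) < (sset X D).card := by exact_mod_cast card_pos.2 hSne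
  set s₀ : ℝ := ((sset X D).card : ℝ) with hs₀
  have h1 : ∀ x ∈ X, ∀ y ∈ D, Real.log ((D.card : ℝ) / (rep X D (x + y) : ℝ)) ≤
      (Real.log s₀ - Real.log X.card - 1) +
        (D.card * X.card / s₀) * (1 / (rep X D (x + y) : ℝ)) := by
    intro x hx y hy
    have hr : (0 : ℝ) < (rep X D (x + y) : ℝ) := by exact_mod_cast rep_pos hx hy
    have h2 := Real.log_le_sub_one_of_pos
      (show 0 < (D.card * X.card / s₀) * (1 / (rep X D (x + y) : ℝ)) by positivity)
    have h3 : Real.log ((D.card * X.card / s₀) * (1 / (rep X D (x + y) : ℝ))) =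
        Real.log ((D.card : ℝ) / (rep X D (x + y) : ℝ)) + Real.log X.card - Real.log s₀ := by
      rw [Real.log_mul (by positivity) (by positivity), Real.log_div (by positivity) hSp.ne',
        Real.log_mul hDp.ne' hXp.ne', Real.log_div hDp.ne' hr.ne', one_div, Real.log_inv]
      ring
    linarith
  unfold J
  calc ∑ x ∈ X, ∑ y ∈ D, Real.log ((D.card : ℝ) / (rep X D (x + y) : ℝ))
      ≤ ∑ x ∈ X, ∑ y ∈ D, ((Real.log s₀ - Real.log X.card - 1) +
        (D.card * X.card / s₀) * (1 / (rep X D (x + y) : ℝ))) := by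
        apply sum_le_sum
        intro x hx
        apply sum_le_sum
        intro y hy
        exact h1 x hx y hy
    _ = X.card * D.card * (Real.log s₀ - Real.log X.card - 1) +
        (D.card * X.card / s₀) * ∑ x ∈ X, ∑ y ∈ D, (1 / (rep X D (x + y) : ℝ)) := by
        simp_rw [sum_add_distrib, ← mul_sum, sum_const, nsmul_eq_mul]
        ring
    _ ≤ X.card * D.card * (Real.log s₀ - Real.log X.card - 1) +
        (D.card * X.card / s₀) * s₀ := by
        apply add_le_add le_rfl
        apply mul_le_mul_of_nonneg_left _ (by positivity)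
        rw [sum_pairs X D (fun s => 1 / (rep X D s : ℝ)) (S := sset X D)
          (fun x hx y hy => mem_sset hx hy)]
        calc ∑ s ∈ sset X D, (rep X D s : ℝ) * (1 / (rep X D s : ℝ))
            ≤ ∑ s ∈ sset X D, (1 : ℝ) := by
              apply sum_le_sum
              intro s _
              rcases eq_or_ne ((rep X D s : ℝ)) 0 with h | h
              · rw [h]; norm_num
              · rw [mul_one_div_cancel h]
          _ = s₀ := by rw [sum_const, nsmul_eq_mul, mul_one]
    _ = _ := by
        field_simp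
        ring

/-- the basic inequality for one term -/
theorem term_ge {a M t : ℝ} (ha : 0 ≤ a) (hM : 0 < M) (ht : 0 ≤ t) :
    (a - M) + t * |a - M| - t ^ 2 * (a + M) / 2 ≤ a * Real.log (a / M) := by
  have key : ∀ p q : ℝ, 0 ≤ p → 0 ≤ q →
      (p ^ 2 - q ^ 2) + t * |p ^ 2 - q ^ 2| - t ^ 2 * (p ^ 2 + q ^ 2) / 2 ≤
        2 * p ^ 2 - 2 * (p * q) := by
    intro p q hp hq
    have h1 : |p ^ 2 - q ^ 2| = |p - q| * (p + q) := by
      have : p ^ 2 - q ^ 2 = (p - q) * (p + q) := by ring
      rw [this, abs_mul, abs_of_nonneg (add_nonneg hp hq)]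
    have h2 : |p - q| ^ 2 = (p - q) ^ 2 := sq_abs _
    rw [h1]
    nlinarith [sq_nonneg (|p - q| - t * (p + q) / 2), mul_nonneg (sq_nonneg t) (sq_nonneg (p - q))]
  have h1 := key (Real.sqrt a) (Real.sqrt M) (Real.sqrt_nonneg _) (Real.sqrt_nonneg _)
  rw [Real.sq_sqrt ha, Real.sq_sqrt hM.le] at h1
  refine h1.trans ?_
  rcases ha.eq_or_lt with h0 | h0
  · rw [← h0]; simp
  · have h2 : Real.log (a / M) = -(2 * Real.log (Real.sqrt M / Real.sqrt a)) := by
      rw [Real.log_div h0.ne' hM.ne', Real.log_div (Real.sqrt_ne_zero'.2 hM)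
        (Real.sqrt_ne_zero'.2 h0), Real.log_sqrt hM.le, Real.log_sqrt h0.le]
      ring
    have hsa : 0 < Real.sqrt a := Real.sqrt_pos.2 h0
    have hsM : 0 < Real.sqrt M := Real.sqrt_pos.2 hM
    have h3 := Real.log_le_sub_one_of_pos (show 0 < Real.sqrt M / Real.sqrt a by positivity)
    have h4 : a * (Real.sqrt M / Real.sqrt a) = Real.sqrt a * Real.sqrt M := by
      rw [mul_div_assoc']
      rw [div_eq_iff hsa.ne']
      nlinarith [Real.mul_self_sqrt h0.le]
    rw [h2]
    nlinarith

theorem pair_ge {η a b M t : ℝ} (hη0 : 0 < η) (hη1 : η < 1) (ha : 0 ≤ a) (hb : 0 ≤ b)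
    (hM : M = η * a + (1 - η) * b) (ht : 0 ≤ t) :
    2 * t * (η * (1 - η)) * |a - b| - t ^ 2 * M ≤
      η * (a * Real.log (a / M)) + (1 - η) * (b * Real.log (b / M)) := by
  have hη' : 0 < 1 - η := by linarith
  rcases (show 0 ≤ M by rw [hM]; positivity).eq_or_lt with h0 | h0
  · have h1 : η * a = 0 ∧ (1 - η) * b = 0 := by
      have h2 : 0 ≤ η * a := by positivity
      have h3 : 0 ≤ (1 - η) * b := by positivity
      constructor <;> linarith
    have ha0 : a = 0 := by
      rcases mul_eq_zero.1 h1.1 with h | h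
      · linarith
      · exact h
    have hb0 : b = 0 := by
      rcases mul_eq_zero.1 h1.2 with h | h
      · linarith
      · exact h
    rw [← h0, ha0, hb0]
    simp
  · have h1 := term_ge ha h0 ht
    have h2 := term_ge hb h0 ht
    have h3 : |a - M| = (1 - η) * |a - b| := by
      have : a - M = (1 - η) * (a - b) := by rw [hM]; ring
      rw [this, abs_mul, abs_of_pos hη']
    have h4 : |b - M| = η * |a - b| := by
      have : b - M = η * (b - a) := by rw [hM]; ring
      rw [this, abs_mul, abs_of_pos hη0, abs_sub_comm]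
    rw [h3] at h1
    rw [h4] at h2
    have h5 := mul_le_mul_of_nonneg_left h1 hη0.le
    have h6 := mul_le_mul_of_nonneg_left h2 hη'.le
    refine le_trans (le_of_eq ?_) (add_le_add h5 h6)
    have h7 : η * a + (1 - η) * b - M = 0 := by rw [hM]; ring
    linear_combination (t ^ 2 / 2 - 1) * h7

end Pool.Agent.Helper2.F
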