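import Pool.Agent.Helper2.FNode
import Pool.Agent.Helper2.FRep

set_option autoImplicit false

/-!
The main induction: mutual information of sums over iterated splittings by subgroups.
-/

open Finset

namespace Pool.Agent.Helper2.F

open scoped Classical in
/-- elements of `D` in `H` -/
noncomputable def inn {G : Type*} [AddCommGroup G] (H : AddSubgroup G) (D : Finset G) : Finset G :=
  D.filter (fun y => y ∈ H)

open scoped Classical in
/-- elements of `D` outside `H` -/
noncomputable def out {G : Type*} [AddCommGroup G] (H : AddSubgroup G) (D : Finset G) : Finset G :=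
  D.filter (fun y => y ∉ H)

open scoped Classical in
/-- elements of `X` in the coset of `a` -/
noncomputable def cls {G : Type*} [AddCommGroup G] (H : AddSubgroup G) (X : Finset G)
    (a : G) : Finset G :=
  X.filter (fun y => y - a ∈ H)

open scoped Classical in
/-- elements of `X` in the coset `c` -/
noncomputable def cq {G : Type*} [AddCommGroup G] (H : AddSubgroup G) (X : Finset G)
    (c : G ⧸ H) : Finset G :=
  X.filter (fun y => (QuotientAddGroup.mk y : G ⧸ H) = c)

variable {G : Type*} [AddCommGroup G] [DecidableEq G]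

theorem inn_subset (H : AddSubgroup G) (D : Finset G) : inn H D ⊆ D := by
  classical exact filter_subset _ _
theorem out_subset (H : AddSubgroup G) (D : Finset G) : out H D ⊆ D := by
  classical exact filter_subset _ _
theorem cq_subset (H : AddSubgroup G) (X : Finset G) (c : G ⧸ H) : cq H X c ⊆ X := by
  classical exact filter_subset _ _

theorem mem_inn {H : AddSubgroup G} {D : Finset G} {y : G} : y ∈ inn H D ↔ y ∈ D ∧ y ∈ H := by
  classical
  unfold inn; rw [mem_filter]

theorem mem_out {H : AddSubgroup G} {D : Finset G} {y : G} : y ∈ out H D ↔ y ∈ D ∧ y ∉ H := by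
  classical
  unfold out; rw [mem_filter]

theorem mem_cq {H : AddSubgroup G} {X : Finset G} {c : G ⧸ H} {y : G} :
    y ∈ cq H X c ↔ y ∈ X ∧ (QuotientAddGroup.mk y : G ⧸ H) = c := by
  classical
  unfold cq; rw [mem_filter]

theorem card_inn_add_out (H : AddSubgroup G) (D : Finset G) :
    (inn H D).card + (out H D).card = D.card := by
  classical
  unfold inn out
  exact card_filter_add_card_filter_not _

theorem sum_inn_add_out (H : AddSubgroup G) (D : Finset G) (f : G → ℝ) :
    ∑ y ∈ D, f y = ∑ y ∈ inn H D, f y + ∑ y ∈ out H D, f y := by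
  classical
  unfold inn out
  exact (sum_filter_add_sum_filter_not _ _ _).symm

theorem rep_split (H : AddSubgroup G) (X D : Finset G) (s : G) :
    rep X D s = rep X (inn H D) s + rep X (out H D) s := by
  classical
  unfold rep
  rw [← card_inn_add_out H (D.filter (fun y => s - y ∈ X))]
  unfold inn out
  congr 1 <;> rw [filter_comm]

theorem sum_rep (X D : Finset G) {S : Finset G} (hS : ∀ x ∈ X, ∀ y ∈ D, x + y ∈ S) :
    ∑ s ∈ S, (rep X D s : ℝ) = X.card * D.card := by
  have h := sum_pairs X D (fun _ => 1) hS
  simp only [mul_one, sum_const, nsmul_eq_mul] at h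
  linarith

open scoped Classical in
/-- number of pairs with sum in a given class -/
theorem sum_rep_class (H : AddSubgroup G) (X D : Finset G) {S : Finset G}
    (hS : ∀ x ∈ X, ∀ y ∈ D, x + y ∈ S) (c : G ⧸ H) :
    ∑ s ∈ cq H S c, (rep X D s : ℝ) =
      ∑ y ∈ D, ((cq H X (c - QuotientAddGroup.mk y)).card : ℝ) := by
  have h := sum_pairs X D (fun s => if (QuotientAddGroup.mk s : G ⧸ H) = c then 1 else 0) hS
  simp only [mul_ite, mul_one, mul_zero] at h
  unfold cq
  rw [sum_filter, ← h, sum_comm]
  apply sum_congr rfl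
  intro y _
  rw [← sum_filter, sum_const, nsmul_eq_mul, mul_one]
  congr 2
  apply filter_congr
  intro x _
  rw [eq_sub_iff_add_eq, ← QuotientAddGroup.mk_add]

/-- the splitting inequality -/
theorem J_split (H : AddSubgroup G) {X D : Finset G} (h1 : (inn H D).Nonempty)
    (h0 : (out H D).Nonempty) {t : ℝ} (ht : 0 ≤ t) (c : G ⧸ H) :
    J X (inn H D) + J X (out H D) + D.card *
      (2 * t * (((inn H D).card : ℝ) / D.card * ((out H D).card / D.card)) *
        ((cq H X c).card -
          (∑ y ∈ out H D, ((cq H X (c - QuotientAddGroup.mk y)).card : ℝ)) / (out H D).card) -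
        t ^ 2 * X.card) ≤ J X D := by
  classical
  have hp1 : (0 : ℝ) < (inn H D).card := by exact_mod_cast card_pos.2 h1
  have hp0 : (0 : ℝ) < (out H D).card := by exact_mod_cast card_pos.2 h0
  have hsum : ((inn H D).card : ℝ) + (out H D).card = D.card := by
    exact_mod_cast card_inn_add_out H D
  have hpD : (0 : ℝ) < D.card := by linarith
  set d := (D.card : ℝ) with hd
  set d1 := ((inn H D).card : ℝ) with hd1
  set d0 := ((out H D).card : ℝ) with hd0
  set S := sset X D with hS
  have hSD : ∀ x ∈ X, ∀ y ∈ D, x + y ∈ S := fun x hx y hy => mem_sset hx hy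
  have hS1 : ∀ x ∈ X, ∀ y ∈ inn H D, x + y ∈ S := fun x hx y hy =>
    mem_sset hx (inn_subset H D hy)
  have hS0 : ∀ x ∈ X, ∀ y ∈ out H D, x + y ∈ S := fun x hx y hy =>
    mem_sset hx (out_subset H D hy)
  -- normalised functions
  set a : G → ℝ := fun s => (rep X (inn H D) s : ℝ) / d1 with ha
  set b : G → ℝ := fun s => (rep X (out H D) s : ℝ) / d0 with hb
  set M : G → ℝ := fun s => (rep X D s : ℝ) / d with hM
  set η := d1 / d with hη
  have hη0 : 0 < η := by positivity
  have hη' : 1 - η = d0 / d := by
    rw [hη, eq_div_iff hpD.ne', sub_mul, div_mul_cancel₀ _ hpD.ne']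
    linarith
  have hη1 : η < 1 := by
    have : 0 < d0 / d := by positivity
    linarith
  have hMab : ∀ s, M s = η * a s + (1 - η) * b s := by
    intro s
    rw [hη', hη, hM, ha, hb]
    simp only
    rw [rep_split H X D s]
    push_cast
    field_simp
  have ha0 : ∀ s, 0 ≤ a s := fun s => by rw [ha]; positivity
  have hb0 : ∀ s, 0 ≤ b s := fun s => by rw [hb]; positivity
  -- the identity
  have hJ : J X D = J X (inn H D) + J X (out H D) +
      ∑ s ∈ S, ((rep X (inn H D) s : ℝ) * Real.log (a s / M s) +
        (rep X (out H D) s : ℝ) * Real.log (b s / M s)) := by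
    rw [sum_add_distrib, ← sum_pairs X (inn H D) (fun s => Real.log (a s / M s)) hS1,
      ← sum_pairs X (out H D) (fun s => Real.log (b s / M s)) hS0]
    unfold J
    have hx : ∀ x ∈ X, ∑ y ∈ D, Real.log (d / (rep X D (x + y) : ℝ)) =
        ((∑ y ∈ inn H D, Real.log (d1 / (rep X (inn H D) (x + y) : ℝ))) +
          ∑ y ∈ out H D, Real.log (d0 / (rep X (out H D) (x + y) : ℝ))) +
        (∑ y ∈ inn H D, Real.log (a (x + y) / M (x + y)) +
          ∑ y ∈ out H D, Real.log (b (x + y) / M (x + y))) := by
      intro x hx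
      rw [sum_inn_add_out H D]
      have e1 : ∀ y ∈ inn H D, Real.log (d / (rep X D (x + y) : ℝ)) =
          Real.log (d1 / (rep X (inn H D) (x + y) : ℝ)) + Real.log (a (x + y) / M (x + y)) := by
        intro y hy
        have hr : (0 : ℝ) < rep X (inn H D) (x + y) := by exact_mod_cast rep_pos hx hy
        have hr' : (0 : ℝ) < rep X D (x + y) := by
          exact_mod_cast rep_pos hx (inn_subset H D hy)
        rw [← Real.log_mul (by positivity) (by rw [ha, hM]; positivity)]
        congr 1
        rw [ha, hM]
        simp only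
        field_simp
      have e0 : ∀ y ∈ out H D, Real.log (d / (rep X D (x + y) : ℝ)) =
          Real.log (d0 / (rep X (out H D) (x + y) : ℝ)) + Real.log (b (x + y) / M (x + y)) := by
        intro y hy
        have hr : (0 : ℝ) < rep X (out H D) (x + y) := by exact_mod_cast rep_pos hx hy
        have hr' : (0 : ℝ) < rep X D (x + y) := by
          exact_mod_cast rep_pos hx (out_subset H D hy)
        rw [← Real.log_mul (by positivity) (by rw [hb, hM]; positivity)]
        congr 1
        rw [hb, hM]
        simp only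
        field_simp
      rw [sum_congr rfl e1, sum_congr rfl e0, sum_add_distrib, sum_add_distrib]
      ring
    rw [sum_congr rfl hx]
    simp_rw [sum_add_distrib]
    rfl
  rw [hJ]
  apply add_le_add le_rfl
  have hpt : ∀ s ∈ S, d * (2 * t * (η * (1 - η)) * |a s - b s| - t ^ 2 * M s) ≤
      (rep X (inn H D) s : ℝ) * Real.log (a s / M s) +
        (rep X (out H D) s : ℝ) * Real.log (b s / M s) := by
    intro s _
    have h := pair_ge hη0 hη1 (ha0 s) (hb0 s) (hMab s) ht
    have h2 := mul_le_mul_of_nonneg_left h hpD.le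
    refine h2.trans (le_of_eq ?_)
    have e1 : d * (η * a s) = (rep X (inn H D) s : ℝ) := by
      rw [hη, ha]; simp only; field_simp
    have e0 : d * ((1 - η) * b s) = (rep X (out H D) s : ℝ) := by
      rw [hη', hb]; simp only; field_simp
    rw [← e1, ← e0]
    ring
  refine le_trans ?_ (sum_le_sum hpt)
  rw [← mul_sum, sum_sub_distrib, ← mul_sum, ← mul_sum]
  apply mul_le_mul_of_nonneg_left _ hpD.le
  have hMs : ∑ s ∈ S, M s = X.card := by
    rw [hM]
    simp only
    rw [← sum_div, sum_rep X D hSD]
    field_simp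
    rfl
  rw [hMs, ← hη']
  apply sub_le_sub_right
  apply mul_le_mul_of_nonneg_left _ (by positivity)
  -- restrict to the class `c`
  have hc1 : ∑ s ∈ cq H S c, a s = (cq H X c).card := by
    rw [ha]
    simp only
    rw [← sum_div, sum_rep_class H X (inn H D) hS1 c]
    have : ∀ y ∈ inn H D, ((cq H X (c - QuotientAddGroup.mk y)).card : ℝ) =
        ((cq H X c).card : ℝ) := by
      intro y hy
      have : (QuotientAddGroup.mk y : G ⧸ H) = 0 :=
        (QuotientAddGroup.eq_zero_iff y).2 (mem_inn.1 hy).2
      rw [this, sub_zero]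
    rw [sum_congr rfl this, sum_const, nsmul_eq_mul, ← hd1]
    field_simp
  have hc0 : ∑ s ∈ cq H S c, b s =
      (∑ y ∈ out H D, ((cq H X (c - QuotientAddGroup.mk y)).card : ℝ)) / d0 := by
    rw [hb]
    simp only
    rw [← sum_div, sum_rep_class H X (out H D) hS0 c]
  rw [← hc1, ← hc0, ← sum_sub_distrib]
  calc ∑ s ∈ cq H S c, (a s - b s) ≤ ∑ s ∈ cq H S c, |a s - b s| :=
        sum_le_sum (fun s _ => le_abs_self _)
    _ ≤ ∑ s ∈ S, |a s - b s| :=
        sum_le_sum_of_subset_of_nonneg (cq_subset H S c) (fun _ _ _ => abs_nonneg _)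

end Pool.Agent.Helper2.F
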