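import Mathlib

set_option autoImplicit false

/-!
The node lemma: a measure with a large atom moves by a definite amount under convolution with a
law none of whose large atoms is a torsion element of small order.
-/

open Finset

namespace Pool.Agent.Helper2.F

variable {Q : Type*} [AddCommGroup Q] [DecidableEq Q]

theorem node {ι : Type*} (D : Finset ι) (hD : D.Nonempty) (u : ι → Q) (F : Q → ℝ)
    (hF0 : ∀ c, 0 ≤ F c) {N α : ℝ} (hN : 0 < N) (hα : 0 < α)
    (hFN : ∀ T : Finset Q, ∑ c ∈ T, F c ≤ N)
    {m : ℕ} (hm : 2 < ((m : ℝ) + 1) * α)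
    (hcl : ∀ a : Q, α / 2 * D.card ≤ ((D.filter (fun y => u y = a)).card : ℝ) →
      ∀ k : ℕ, 1 ≤ k → k ≤ m → k • a ≠ 0)
    {cs : Q} (hmax : ∀ c, F c ≤ F cs) (hcs : α * N ≤ F cs) {τ : ℝ} (hτ0 : 0 ≤ τ)
    (hτ : m * τ ≤ (α / 2) ^ (m + 1)) :
    ∃ c, τ * N * D.card < F c * D.card - ∑ y ∈ D, F (c - u y) := by
  by_contra hcon
  push Not at hcon
  have hDpos : (0 : ℝ) < D.card := by exact_mod_cast card_pos.2 hD
  have hα1 : α ≤ 1 := by
    have h1 : F cs ≤ N := by
      have := hFN {cs}
      rwa [sum_singleton] at this
    have h2 : α * N ≤ 1 * N := by linarith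
    exact le_of_mul_le_mul_right h2 hN
  have hm1 : (1 : ℝ) ≤ m := by
    by_contra h
    push Not at h
    have h0 : m = 0 := by
      have : m < 1 := by exact_mod_cast h
      omega
    rw [h0] at hm
    norm_num at hm
    linarith
  set β := α / 2 with hβ
  have hβ0 : 0 < β := by positivity
  have hβ1 : β ≤ 1 / 2 := by rw [hβ]; linarith
  -- a large atom
  obtain ⟨a, ha⟩ : ∃ a : Q, β * D.card ≤ ((D.filter (fun y => u y = a)).card : ℝ) := by
    by_contra hno
    push Not at hno
    have h1 : ∑ y ∈ D, F (cs - u y) ≤ β * D.card * N := by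
      have h2 : ∑ y ∈ D, F (cs - u y) =
          ∑ a ∈ D.image u, ∑ y ∈ D.filter (fun y => u y = a), F (cs - u y) := by
        rw [sum_fiberwise_of_maps_to]
        intro y hy
        exact mem_image_of_mem _ hy
      rw [h2]
      calc ∑ a ∈ D.image u, ∑ y ∈ D.filter (fun y => u y = a), F (cs - u y)
          = ∑ a ∈ D.image u, ((D.filter (fun y => u y = a)).card : ℝ) * F (cs - a) := by
            apply sum_congr rfl
            intro a _
            rw [← nsmul_eq_mul, ← sum_const]
            apply sum_congr rfl
            intro y hy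
            rw [(mem_filter.1 hy).2]
        _ ≤ ∑ a ∈ D.image u, β * D.card * F (cs - a) := by
            apply sum_le_sum
            intro a _
            exact mul_le_mul_of_nonneg_right (hno a).le (hF0 _)
        _ = β * D.card * ∑ c ∈ (D.image u).image (fun a => cs - a), F c := by
            rw [sum_image (fun a _ b _ h => sub_right_injective h), mul_sum]
        _ ≤ β * D.card * N := by
            apply mul_le_mul_of_nonneg_left (hFN _)
            positivity
    have h3 := hcon cs
    have h4 : α * N * D.card ≤ F cs * D.card := mul_le_mul_of_nonneg_right hcs hDpos.le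
    have h5 : α * (N * D.card) ≤ (β + τ) * (N * D.card) := by nlinarith
    have h6 : α ≤ β + τ := le_of_mul_le_mul_right h5 (by positivity)
    have h7 : τ < β := by
      have h8 : τ ≤ m * τ := by nlinarith
      have h9 : β ^ (m + 1) < β := by
        have : β ^ (m + 1) = β ^ m * β := pow_succ _ _
        rw [this]
        have h10 : β ^ m ≤ β ^ 1 := by
          apply pow_le_pow_of_le_one hβ0.le (by linarith)
          exact_mod_cast hm1
        rw [pow_one] at h10
        nlinarith
      linarith
    have : α = β + β := by rw [hβ]; ring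
    linarith
  -- the chain
  have hchain : ∀ i : ℕ, β ^ i * (F cs - F (cs - i • a)) ≤ i * (τ * N) := by
    intro i
    induction i with
    | zero => simp
    | succ i ih =>
      have h1 := hcon (cs - i • a)
      have h2 : ((D.filter (fun y => u y = a)).card : ℝ) * (F cs - F (cs - (i + 1) • a)) ≤
          ∑ y ∈ D, (F cs - F (cs - i • a - u y)) := by
        calc ((D.filter (fun y => u y = a)).card : ℝ) * (F cs - F (cs - (i + 1) • a))
            = ∑ y ∈ D.filter (fun y => u y = a), (F cs - F (cs - i • a - u y)) := by
              rw [← nsmul_eq_mul, ← sum_const]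
              apply sum_congr rfl
              intro y hy
              rw [(mem_filter.1 hy).2, add_smul, one_smul, sub_sub]
          _ ≤ _ := by
              apply sum_le_sum_of_subset_of_nonneg (filter_subset _ _)
              intro y _ _
              linarith [hmax (cs - i • a - u y)]
      have h3 : ∑ y ∈ D, (F cs - F (cs - i • a - u y)) =
          D.card * F cs - ∑ y ∈ D, F (cs - i • a - u y) := by
        rw [sum_sub_distrib, sum_const, nsmul_eq_mul]
      have h4 : 0 ≤ F cs - F (cs - (i + 1) • a) := by linarith [hmax (cs - (i + 1) • a)]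
      have h5 : β * D.card * (F cs - F (cs - (i + 1) • a)) ≤
          ((D.filter (fun y => u y = a)).card : ℝ) * (F cs - F (cs - (i + 1) • a)) :=
        mul_le_mul_of_nonneg_right ha h4
      have h6 : (β * (F cs - F (cs - (i + 1) • a))) * D.card ≤
          ((F cs - F (cs - i • a)) + τ * N) * D.card := by nlinarith
      have h7 : β * (F cs - F (cs - (i + 1) • a)) ≤ (F cs - F (cs - i • a)) + τ * N :=
        le_of_mul_le_mul_right h6 hDpos
      have h8 : β ^ i ≤ 1 := pow_le_one₀ hβ0.le (by linarith)
      calc β ^ (i + 1) * (F cs - F (cs - (i + 1) • a))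
          = β ^ i * (β * (F cs - F (cs - (i + 1) • a))) := by ring
        _ ≤ β ^ i * ((F cs - F (cs - i • a)) + τ * N) :=
            mul_le_mul_of_nonneg_left h7 (by positivity)
        _ = β ^ i * (F cs - F (cs - i • a)) + β ^ i * (τ * N) := by ring
        _ ≤ i * (τ * N) + 1 * (τ * N) := by
            apply add_le_add ih
            exact mul_le_mul_of_nonneg_right h8 (by positivity)
        _ = _ := by push_cast; ring
  have hbig : ∀ i ∈ range (m + 1), β * N ≤ F (cs - i • a) := by
    intro i hi
    have him : i ≤ m := by rw [mem_range] at hi; omega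
    have h1 := hchain i
    have h2 : 0 ≤ F cs - F (cs - i • a) := by linarith [hmax (cs - i • a)]
    have h3 : β ^ m * (F cs - F (cs - i • a)) ≤ β ^ i * (F cs - F (cs - i • a)) :=
      mul_le_mul_of_nonneg_right (pow_le_pow_of_le_one hβ0.le (by linarith) him) h2
    have h4 : (i : ℝ) * (τ * N) ≤ m * (τ * N) := by
      apply mul_le_mul_of_nonneg_right _ (by positivity)
      exact_mod_cast him
    have h5 : (m : ℝ) * (τ * N) ≤ β ^ m * (β * N) := by
      calc (m : ℝ) * (τ * N) = m * τ * N := by ring
        _ ≤ β ^ (m + 1) * N := mul_le_mul_of_nonneg_right hτ hN.le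
        _ = _ := by ring
    have h6 : F cs - F (cs - i • a) ≤ β * N :=
      le_of_mul_le_mul_left (by linarith) (pow_pos hβ0 m)
    have h7 : α * N = β * N + β * N := by rw [hβ]; ring
    linarith
  have hinj : Set.InjOn (fun i : ℕ => cs - i • a) (range (m + 1) : Finset ℕ) := by
    have key : ∀ i j : ℕ, i < j → j ≤ m → cs - i • a ≠ cs - j • a := by
      intro i j hij hj h
      have h1 : i • a = j • a := sub_right_injective h
      have h2 : (j - i) • a = 0 := by
        have h3 : j • a = i • a + (j - i) • a := by
          rw [← add_smul]; congr 1; omega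
        rw [h3] at h1
        exact left_eq_add.1 h1
      exact hcl a ha (j - i) (by omega) (by omega) h2
    intro i hi j hj h
    rw [mem_coe, mem_range] at hi hj
    rcases lt_trichotomy i j with h1 | h1 | h1
    · exact absurd h (key i j h1 (by omega))
    · exact h1
    · exact absurd h.symm (key j i h1 (by omega))
  have h1 := hFN ((range (m + 1)).image (fun i : ℕ => cs - i • a))
  rw [sum_image hinj] at h1
  have h2 : ∑ _i ∈ range (m + 1), β * N ≤ ∑ i ∈ range (m + 1), F (cs - i • a) := sum_le_sum hbig
  rw [sum_const, card_range, nsmul_eq_mul] at h2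
  push_cast at h2
  have h3 : ((m : ℝ) + 1) * (β * N) = ((m : ℝ) + 1) * α * N / 2 := by rw [hβ]; ring
  have h4 : 2 * N < ((m : ℝ) + 1) * α * N := mul_lt_mul_of_pos_right hm hN
  linarith

end Pool.Agent.Helper2.F
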