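import Pool.Agent.Helper2.FDich

set_option autoImplicit false

/-!
Application to the subgroups `p ^ l ℤ` of the integers.
-/

open Finset

namespace Pool.Agent.Helper2.F

theorem level (B : Finset ℤ) (hB : B.Nonempty) (v : ℤ → ℕ) {κ : ℝ} (hκ0 : 0 < κ) (hκ1 : κ < 1) :
    (∃ l : ℕ, κ * B.card ≤ ((B.filter (fun y => l ≤ v y)).card : ℝ) ∧
      ((B.filter (fun y => l ≤ v y)).card : ℝ) ≤ (1 - κ) * B.card) ∨
    ∃ z : ℕ, ((B.filter (fun y => v y ≠ z)).card : ℝ) ≤ 2 * κ * B.card := by
  have hBp : (0 : ℝ) < B.card := by exact_mod_cast card_pos.2 hB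
  set u : ℕ → ℕ := fun l => (B.filter (fun y => l ≤ v y)).card with hu
  have hex : ∃ l : ℕ, (u l : ℝ) ≤ (1 - κ) * B.card := by
    refine ⟨B.sup v + 1, ?_⟩
    have : B.filter (fun y => B.sup v + 1 ≤ v y) = ∅ := by
      apply filter_false_of_mem
      intro y hy h
      have := le_sup (f := v) hy
      omega
    rw [hu]
    simp only
    rw [this]
    simp only [card_empty, Nat.cast_zero]
    apply mul_nonneg (by linarith) hBp.le
  classical
  set l := Nat.find hex with hl
  have hl1 : (u l : ℝ) ≤ (1 - κ) * B.card := Nat.find_spec hex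
  have hl0 : l ≠ 0 := by
    intro h0
    rw [h0] at hl1
    have h1 : u 0 = B.card := by
      rw [hu]
      simp
    rw [h1] at hl1
    nlinarith
  obtain ⟨j, hj⟩ := Nat.exists_eq_succ_of_ne_zero hl0
  have hj1 : (1 - κ) * B.card < u j := by
    have := Nat.find_min hex (show j < Nat.find hex by omega)
    push Not at this
    exact this
  rcases le_or_gt (κ * B.card) (u l : ℝ) with h | h
  · exact Or.inl ⟨l, h, hl1⟩
  · right
    refine ⟨j, ?_⟩
    have h1 : (B.filter (fun y => v y ≠ j)).card ≤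
        (B.filter (fun y => ¬ j ≤ v y)).card + u l := by
      rw [hu]
      simp only
      refine le_trans (card_le_card ?_) (card_union_le _ _)
      intro y hy
      rw [mem_filter] at hy
      rw [mem_union, mem_filter, mem_filter]
      rcases le_or_gt j (v y) with h2 | h2
      · right
        exact ⟨hy.1, by have := hy.2; omega⟩
      · left
        exact ⟨hy.1, by omega⟩
    have h2 : u j + (B.filter (fun y => ¬ j ≤ v y)).card = B.card :=
      card_filter_add_card_filter_not _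
    have h1' : ((B.filter (fun y => v y ≠ j)).card : ℝ) ≤
        (B.filter (fun y => ¬ j ≤ v y)).card + u l := by exact_mod_cast h1
    have h2' : (u j : ℝ) + (B.filter (fun y => ¬ j ≤ v y)).card = B.card := by
      exact_mod_cast h2
    linarith

theorem mem_pow {p l : ℕ} {y : ℤ} :
    y ∈ AddSubgroup.zmultiples ((p : ℤ) ^ l) ↔ (p : ℤ) ^ l ∣ y :=
  Int.mem_zmultiples_iff

theorem inn_pow {p : ℕ} (hp : p.Prime) (l : ℕ) {B : Finset ℤ} (h0 : (0 : ℤ) ∉ B) :
    inn (AddSubgroup.zmultiples ((p : ℤ) ^ l)) B = B.filter (fun y => l ≤ padicValInt p y) := by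
  haveI := Fact.mk hp
  ext y
  rw [mem_inn, mem_filter, mem_pow, padicValInt_dvd_iff]
  constructor
  · rintro ⟨h1, h2 | h2⟩
    · exact absurd (h2 ▸ h1) h0
    · exact ⟨h1, h2⟩
  · rintro ⟨h1, h2⟩
    exact ⟨h1, Or.inr h2⟩

theorem largeP {κ β : ℝ} {m : ℕ} (hκ0 : 0 < κ) (hκ1 : κ < 1) {B : Finset ℤ} (hB : B.Nonempty)
    (h0 : (0 : ℤ) ∉ B) (hng : NoGood κ β m B) {p : ℕ} (hp : p.Prime) (hpm : m < p) :
    ∃ z : ℕ, ((B.filter (fun y => padicValInt p y ≠ z)).card : ℝ) ≤ 2 * κ * B.card := by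
  rcases level B hB (padicValInt p) hκ0 hκ1 with ⟨l, h1, h2⟩ | h
  · exfalso
    rw [← inn_pow hp l h0] at h1 h2
    obtain ⟨a, ha, _, k, hk1, hkm, hka⟩ := hng _ h1 h2
    apply ha
    rw [mem_pow] at hka ⊢
    rw [nsmul_eq_mul] at hka
    have hcop : IsCoprime ((p : ℤ) ^ l) (k : ℤ) := by
      apply IsCoprime.pow_left
      rw [Nat.isCoprime_iff_coprime, Nat.Prime.coprime_iff_not_dvd hp]
      intro hdvd
      have := Nat.le_of_dvd (by omega) hdvd
      omega
    exact hcop.dvd_of_dvd_mul_left hka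
  · exact h

theorem val_eq {p l : ℕ} (hp : p.Prime) {a y : ℤ} (ha : ¬ (p : ℤ) ^ l ∣ a)
    (hy : (p : ℤ) ^ l ∣ y - a) : padicValInt p y = padicValInt p a := by
  haveI := Fact.mk hp
  have hyn : ¬ (p : ℤ) ^ l ∣ y := by
    intro h
    apply ha
    have := dvd_sub h hy
    rwa [sub_sub_cancel] at this
  have ha0 : a ≠ 0 := by rintro rfl; exact ha (dvd_zero _)
  have hy0 : y ≠ 0 := by rintro rfl; exact hyn (dvd_zero _)
  have key : ∀ x z : ℤ, x ≠ 0 → z ≠ 0 → ¬ (p : ℤ) ^ l ∣ x → (p : ℤ) ^ l ∣ x - z →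
      padicValInt p x ≤ padicValInt p z := by
    intro x z hx hz hxl hxz
    have h1 : (p : ℤ) ^ padicValInt p x ∣ x := by
      rw [padicValInt_dvd_iff]; right; exact le_rfl
    have h2 : padicValInt p x ≤ l := by
      by_contra h
      push Not at h
      exact hxl ((pow_dvd_pow _ h.le).trans h1)
    have h3 : (p : ℤ) ^ padicValInt p x ∣ z := by
      have := dvd_sub h1 ((pow_dvd_pow _ h2).trans hxz)
      rwa [sub_sub_cancel] at this
    rw [padicValInt_dvd_iff] at h3
    rcases h3 with h3 | h3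
    · exact absurd h3 hz
    · exact h3
  apply le_antisymm
  · exact key y a hy0 ha0 hyn hy
  · apply key a y ha0 hy0 ha
    rw [← neg_sub, dvd_neg]; exact hy

theorem smallP {κ β : ℝ} {m : ℕ} (hκ0 : 0 < κ) (hκ1 : κ < 1) (hβ : 0 ≤ β)
    {B : Finset ℤ} (hB : B.Nonempty)
    (h0 : (0 : ℤ) ∉ B) (hng : NoGood κ β m B) {p : ℕ} (hp : p.Prime) :
    ∃ z : ℕ, min (1 - 2 * κ) (β * κ) * B.card ≤
      ((B.filter (fun y => padicValInt p y = z)).card : ℝ) := by
  have hBp : (0 : ℝ) < B.card := by exact_mod_cast card_pos.2 hB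
  rcases level B hB (padicValInt p) hκ0 hκ1 with ⟨l, h1, h2⟩ | ⟨z, hz⟩
  · rw [← inn_pow hp l h0] at h1 h2
    obtain ⟨a, ha, hcls, _⟩ := hng _ h1 h2
    refine ⟨padicValInt p a, ?_⟩
    have hsum : ((inn (AddSubgroup.zmultiples ((p : ℤ) ^ l)) B).card : ℝ) +
        (out (AddSubgroup.zmultiples ((p : ℤ) ^ l)) B).card = B.card := by
      exact_mod_cast card_inn_add_out _ B
    calc min (1 - 2 * κ) (β * κ) * B.card ≤ (β * κ) * B.card :=
          mul_le_mul_of_nonneg_right (min_le_right _ _) hBp.le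
      _ = β * (κ * B.card) := by ring
      _ ≤ β * (out (AddSubgroup.zmultiples ((p : ℤ) ^ l)) B).card :=
          mul_le_mul_of_nonneg_left (by linarith) hβ
      _ ≤ _ := hcls
      _ ≤ _ := by
          apply Nat.cast_le.2
          apply card_le_card
          intro y hy
          unfold cls at hy
          rw [mem_filter, mem_out, mem_pow] at hy
          rw [mem_filter]
          exact ⟨hy.1.1, val_eq hp (fun h => ha (mem_pow.2 h)) (mem_pow.1 hy.2)⟩
  · refine ⟨z, ?_⟩
    have h2 : (B.filter (fun y => padicValInt p y = z)).card +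
        (B.filter (fun y => padicValInt p y ≠ z)).card = B.card :=
      card_filter_add_card_filter_not _
    have h2' : ((B.filter (fun y => padicValInt p y = z)).card : ℝ) +
        (B.filter (fun y => padicValInt p y ≠ z)).card = B.card := by
      exact_mod_cast h2
    have h3 : min (1 - 2 * κ) (β * κ) * B.card ≤ (1 - 2 * κ) * B.card :=
      mul_le_mul_of_nonneg_right (min_le_left _ _) hBp.le
    linarith

theorem sset_mono {X D D' : Finset ℤ} (h : D' ⊆ D) : sset X D' ⊆ sset X D := by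
  unfold sset
  exact image_subset_image (product_subset_product (Subset.refl _) h)

theorem log_sset_mono {X D D' : Finset ℤ} (hX : X.Nonempty) (hD' : D'.Nonempty) (h : D' ⊆ D) :
    Real.log (sset X D').card ≤ Real.log (sset X D).card := by
  obtain ⟨x, hx⟩ := hX
  obtain ⟨y, hy⟩ := hD'
  apply Real.log_le_log
  · exact_mod_cast card_pos.2 ⟨_, mem_sset hx hy⟩
  · exact_mod_cast card_le_card (sset_mono h)

theorem smallS {c b : ℝ} (hc : 0 < c) (hb : 0 < b) :
    ∃ L₀ lam : ℝ, 0 < lam ∧ ∀ p : ℕ, p.Prime → ∀ D X : Finset ℤ, D.Nonempty → X.Nonempty →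
      (0 : ℤ) ∉ D → L₀ ≤ Real.log D.card → Real.log X.card ≤ b * Real.log D.card →
      (1 + lam) * Real.log X.card ≤ Real.log (sset X D).card ∨
      ∃ B ⊆ D, B.Nonempty ∧ (1 - c) * Real.log D.card ≤ Real.log B.card ∧
        ∃ i : ℕ, ∀ y ∈ B, padicValInt p y = i := by
  obtain ⟨m, β, lam, hβ, hlam, h⟩ :=
    dich ℤ (κ := 1 / 4) (c := c / 2) (b := b) (by norm_num) (by norm_num) (by positivity) hb
  set β' : ℝ := min (1 - 2 * (1 / 4)) (β * (1 / 4)) with hβ'
  have hβ'0 : 0 < β' := lt_min (by norm_num) (by positivity)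
  refine ⟨-(2 * Real.log β' / c), lam, hlam, ?_⟩
  intro p hp D X hD hX h0 hL hXb
  rcases h D X hD hX hXb with h1 | ⟨B, hBD, hBne, hBlog, hng⟩
  · exact Or.inl h1
  · right
    have h0B : (0 : ℤ) ∉ B := fun h => h0 (hBD h)
    obtain ⟨z, hz⟩ := smallP (by norm_num) (by norm_num) hβ.le hBne h0B hng hp
    have hBp : (0 : ℝ) < B.card := by exact_mod_cast card_pos.2 hBne
    have hpos : (0 : ℝ) < ((B.filter (fun y => padicValInt p y = z)).card : ℝ) :=
      lt_of_lt_of_le (by positivity) hz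
    refine ⟨B.filter (fun y => padicValInt p y = z), (filter_subset _ _).trans hBD, ?_, ?_, z, ?_⟩
    · rw [← card_pos]; exact_mod_cast hpos
    · have h2 := Real.log_le_log (by positivity) hz
      rw [Real.log_mul hβ'0.ne' hBp.ne'] at h2
      have h3 : -Real.log β' ≤ c / 2 * Real.log D.card := by
        have h4 : c / 2 * (-(2 * Real.log β' / c)) = -Real.log β' := by field_simp
        rw [← h4]
        exact mul_le_mul_of_nonneg_left hL (by positivity)
      linarith
    · intro y hy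
      exact (mem_filter.1 hy).2

theorem iterS (P : Finset ℕ) (hP : ∀ p ∈ P, p.Prime) : ∀ c b : ℝ, 0 < c → 0 < b →
    ∃ L₀ lam : ℝ, 0 < lam ∧ ∀ D X : Finset ℤ, D.Nonempty → X.Nonempty →
      (0 : ℤ) ∉ D → L₀ ≤ Real.log D.card → Real.log X.card ≤ b * Real.log D.card →
      (1 + lam) * Real.log X.card ≤ Real.log (sset X D).card ∨
      ∃ B ⊆ D, B.Nonempty ∧ (1 - c) * Real.log D.card ≤ Real.log B.card ∧
        ∀ p ∈ P, ∃ i : ℕ, ∀ y ∈ B, padicValInt p y = i := by
  classical
  induction P using Finset.induction_on with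
  | empty =>
    intro c b hc hb
    refine ⟨0, 1, one_pos, ?_⟩
    intro D X hD hX _ _ _
    right
    refine ⟨D, Subset.refl _, hD, ?_, ?_⟩
    · have : 0 ≤ Real.log D.card := Real.log_nonneg (by exact_mod_cast card_pos.2 hD)
      nlinarith
    · intro p hp
      exact absurd hp (notMem_empty p)
  | insert p P hpP ih =>
    intro c b hc hb
    set c' : ℝ := min c 1 / 2 with hc'
    have hc'0 : 0 < c' := by rw [hc']; positivity
    have hc'1 : c' ≤ 1 / 2 := by
      rw [hc']; have := min_le_right c 1; linarith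
    have hc'2 : 2 * c' ≤ c := by
      rw [hc']; have := min_le_left c 1; linarith
    obtain ⟨L₁, lam₁, hlam₁, h1⟩ := ih (fun q hq => hP q (mem_insert_of_mem hq)) c' b hc'0 hb
    obtain ⟨L₂, lam₂, hlam₂, h2⟩ := smallS hc'0 (show 0 < 2 * b by positivity)
    refine ⟨max L₁ (2 * L₂), min lam₁ lam₂, lt_min hlam₁ hlam₂, ?_⟩
    intro D X hD hX h0 hL hXb
    have hX0 : 0 ≤ Real.log X.card := Real.log_nonneg (by exact_mod_cast card_pos.2 hX)
    have hD0 : 0 ≤ Real.log D.card := Real.log_nonneg (by exact_mod_cast card_pos.2 hD)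
    have hmono : ∀ l : ℝ, min lam₁ lam₂ ≤ l → ∀ D' ⊆ D, D'.Nonempty →
        (1 + l) * Real.log X.card ≤ Real.log (sset X D').card →
        (1 + min lam₁ lam₂) * Real.log X.card ≤ Real.log (sset X D).card := by
      intro l hl D' hD' hD'ne h
      have h3 := log_sset_mono hX hD'ne hD'
      have h4 : (1 + min lam₁ lam₂) * Real.log X.card ≤ (1 + l) * Real.log X.card :=
        mul_le_mul_of_nonneg_right (by linarith) hX0
      linarith
    rcases h1 D X hD hX h0 ((le_max_left _ _).trans hL) hXb with h3 | ⟨B₁, hB₁, hB₁ne, hB₁l, hB₁v⟩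
    · left
      exact hmono lam₁ (min_le_left _ _) D (Subset.refl _) hD h3
    · have h4 : 1 / 2 * Real.log D.card ≤ Real.log B₁.card := by
        have : 1 / 2 * Real.log D.card ≤ (1 - c') * Real.log D.card :=
          mul_le_mul_of_nonneg_right (by linarith) hD0
        linarith
      have h5 : L₂ ≤ Real.log B₁.card := by
        have := (le_max_right L₁ (2 * L₂)).trans hL
        linarith
      have h6 : Real.log X.card ≤ 2 * b * Real.log B₁.card := by
        have : b * (1 / 2 * Real.log D.card) ≤ b * Real.log B₁.card :=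
          mul_le_mul_of_nonneg_left h4 hb.le
        linarith
      rcases h2 p (hP p (mem_insert_self _ _)) B₁ X hB₁ne hX (fun h => h0 (hB₁ h)) h5 h6 with
        h7 | ⟨B₂, hB₂, hB₂ne, hB₂l, i, hi⟩
      · left
        exact hmono lam₂ (min_le_right _ _) B₁ hB₁ hB₁ne h7
      · right
        refine ⟨B₂, hB₂.trans hB₁, hB₂ne, ?_, ?_⟩
        · have h8 : (1 - c') * ((1 - c') * Real.log D.card) ≤ (1 - c') * Real.log B₁.card :=
            mul_le_mul_of_nonneg_left hB₁l (by linarith)
          have h9 : (1 - c) * Real.log D.card ≤ (1 - c') * ((1 - c') * Real.log D.card) := by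
            rw [← mul_assoc]
            apply mul_le_mul_of_nonneg_right _ hD0
            nlinarith [sq_nonneg c']
          linarith
        · intro q hq
          rcases mem_insert.1 hq with rfl | hq
          · exact ⟨i, hi⟩
          · obtain ⟨j, hj⟩ := hB₁v q hq
            exact ⟨j, fun y hy => hj y (hB₂ hy)⟩

theorem allP {κ c b : ℝ} (hκ0 : 0 < κ) (hκ1 : κ < 1) (hc : 0 < c) (hb : 0 < b) :
    ∃ L₀ lam : ℝ, 0 < lam ∧ ∀ D X : Finset ℤ, D.Nonempty → X.Nonempty →
      (0 : ℤ) ∉ D → L₀ ≤ Real.log D.card → Real.log X.card ≤ b * Real.log D.card →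
      (1 + lam) * Real.log X.card ≤ Real.log (sset X D).card ∨
      ∃ B ⊆ D, B.Nonempty ∧ (1 - c) * Real.log D.card ≤ Real.log B.card ∧
        ∀ p : ℕ, p.Prime → ∃ z : ℕ,
          ((B.filter (fun y => padicValInt p y ≠ z)).card : ℝ) ≤ 2 * κ * B.card := by
  classical
  set c' : ℝ := min c 1 / 2 with hc'
  have hc'0 : 0 < c' := by rw [hc']; positivity
  have hc'1 : c' ≤ 1 / 2 := by
    rw [hc']; have := min_le_right c 1; linarith
  have hc'2 : 2 * c' ≤ c := by
    rw [hc']; have := min_le_left c 1; linarith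
  obtain ⟨m, β, lam₂, hβ, hlam₂, h2⟩ :=
    dich ℤ hκ0 hκ1 hc'0 (show 0 < 2 * b by positivity)
  obtain ⟨L₁, lam₁, hlam₁, h1⟩ := iterS ((range (m + 1)).filter Nat.Prime)
    (fun p hp => (mem_filter.1 hp).2) c' b hc'0 hb
  refine ⟨L₁, min lam₁ lam₂, lt_min hlam₁ hlam₂, ?_⟩
  intro D X hD hX h0 hL hXb
  have hX0 : 0 ≤ Real.log X.card := Real.log_nonneg (by exact_mod_cast card_pos.2 hX)
  have hD0 : 0 ≤ Real.log D.card := Real.log_nonneg (by exact_mod_cast card_pos.2 hD)
  have hmono : ∀ l : ℝ, min lam₁ lam₂ ≤ l → ∀ D' ⊆ D, D'.Nonempty →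
      (1 + l) * Real.log X.card ≤ Real.log (sset X D').card →
      (1 + min lam₁ lam₂) * Real.log X.card ≤ Real.log (sset X D).card := by
    intro l hl D' hD' hD'ne h
    have h3 := log_sset_mono hX hD'ne hD'
    have h4 : (1 + min lam₁ lam₂) * Real.log X.card ≤ (1 + l) * Real.log X.card :=
      mul_le_mul_of_nonneg_right (by linarith) hX0
    linarith
  rcases h1 D X hD hX h0 hL hXb with h3 | ⟨B₁, hB₁, hB₁ne, hB₁l, hB₁v⟩
  · left
    exact hmono lam₁ (min_le_left _ _) D (Subset.refl _) hD h3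
  · have h4 : 1 / 2 * Real.log D.card ≤ Real.log B₁.card := by
      have : 1 / 2 * Real.log D.card ≤ (1 - c') * Real.log D.card :=
        mul_le_mul_of_nonneg_right (by linarith) hD0
      linarith
    have h6 : Real.log X.card ≤ 2 * b * Real.log B₁.card := by
      have : b * (1 / 2 * Real.log D.card) ≤ b * Real.log B₁.card :=
        mul_le_mul_of_nonneg_left h4 hb.le
      linarith
    rcases h2 B₁ X hB₁ne hX h6 with h7 | ⟨B₂, hB₂, hB₂ne, hB₂l, hng⟩
    · left
      exact hmono lam₂ (min_le_right _ _) B₁ hB₁ hB₁ne h7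
    · right
      refine ⟨B₂, hB₂.trans hB₁, hB₂ne, ?_, ?_⟩
      · have h8 : (1 - c') * ((1 - c') * Real.log D.card) ≤ (1 - c') * Real.log B₁.card :=
          mul_le_mul_of_nonneg_left hB₁l (by linarith)
        have h9 : (1 - c) * Real.log D.card ≤ (1 - c') * ((1 - c') * Real.log D.card) := by
          rw [← mul_assoc]
          apply mul_le_mul_of_nonneg_right _ hD0
          nlinarith [sq_nonneg c']
        linarith
      · intro p hp
        rcases lt_or_ge m p with hpm | hpm
        · exact largeP hκ0 hκ1 hB₂ne (fun h => h0 (hB₁ (hB₂ h))) hng hp hpm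
        · obtain ⟨j, hj⟩ := hB₁v p (mem_filter.2 ⟨mem_range.2 (by omega), hp⟩)
          refine ⟨j, ?_⟩
          have : B₂.filter (fun y => padicValInt p y ≠ j) = ∅ := by
            apply filter_false_of_mem
            intro y hy h
            exact h (hj y (hB₂ hy))
          rw [this]
          simp only [card_empty, Nat.cast_zero]
          positivity

end Pool.Agent.Helper2.F
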