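import Mathlib

set_option autoImplicit false

/-!
Two integers that agree outside few small primes cannot be congruent modulo many large primes.
-/

open Finset

namespace Pool.Agent.Helper2.G

theorem smooth_le {w : ℕ} (hw : w ≠ 0) {R : Finset ℕ} {V Q₀ : ℕ}
    (hR : ∀ q ∈ R, q ≤ Q₀) (hQ : 1 ≤ Q₀) (hout : ∀ p, p ∉ R → w.factorization p = 0)
    (hV : ∀ q ∈ R, w.factorization q ≤ V) : w ≤ Q₀ ^ (R.card * V) := by
  have h1 : w = ∏ q ∈ R, q ^ w.factorization q := by
    conv_lhs => rw [← Nat.prod_factorization_pow_eq_self hw]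
    rw [Finsupp.prod]
    apply prod_subset
    · intro p hp
      by_contra h
      exact (Finsupp.mem_support_iff.1 hp) (hout p h)
    · intro p _ hp
      rw [Finsupp.notMem_support_iff.1 hp, pow_zero]
  rw [h1]
  calc ∏ q ∈ R, q ^ w.factorization q ≤ ∏ _q ∈ R, Q₀ ^ V := by
        apply prod_le_prod' 
        intro q hq
        exact (Nat.pow_le_pow_left (hR q hq) _).trans (Nat.pow_le_pow_right hQ (hV q hq))
    _ = Q₀ ^ (R.card * V) := by
        rw [prod_const, ← pow_mul, mul_comm]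

theorem close_eq {a₁ a₂ : ℕ} (h₁ : a₁ ≠ 0) (h₂ : a₂ ≠ 0) {R I : Finset ℕ} {V Q₀ : ℕ}
    (hR : ∀ q ∈ R, q.Prime ∧ q ≤ Q₀) (hI : ∀ p ∈ I, p.Prime ∧ Q₀ < p)
    (hout : ∀ p, p ∉ R → a₁.factorization p = a₂.factorization p)
    (hV₁ : ∀ q ∈ R, a₁.factorization q ≤ V) (hV₂ : ∀ q ∈ R, a₂.factorization q ≤ V)
    (hdiv : ∀ p ∈ I, (p : ℤ) ^ (a₁.factorization p + 1) ∣ (a₁ : ℤ) - a₂)
    (hcard : R.card * V < I.card) : a₁ = a₂ := by
  rcases R.eq_empty_or_nonempty with hR0 | ⟨q₀, hq₀⟩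
  · apply Nat.eq_of_factorization_eq h₁ h₂
    intro p
    apply hout
    rw [hR0]
    exact notMem_empty p
  have hQ : 2 ≤ Q₀ := (hR q₀ hq₀).1.two_le.trans (hR q₀ hq₀).2
  set g := Nat.gcd a₁ a₂ with hg
  have hgp : 0 < g := Nat.gcd_pos_of_pos_left _ (Nat.pos_of_ne_zero h₁)
  obtain ⟨w₁, hw₁⟩ := Nat.gcd_dvd_left a₁ a₂
  obtain ⟨w₂, hw₂⟩ := Nat.gcd_dvd_right a₁ a₂
  rw [← hg] at hw₁ hw₂
  have hw₁0 : w₁ ≠ 0 := by
    rintro rfl
    exact h₁ (by rw [hw₁]; simp)
  have hw₂0 : w₂ ≠ 0 := by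
    rintro rfl
    exact h₂ (by rw [hw₂]; simp)
  have hfg : ∀ p, p ∉ R → g.factorization p = a₁.factorization p := by
    intro p hp
    rw [hg, Nat.factorization_gcd h₁ h₂, Finsupp.inf_apply, ← hout p hp, inf_idem]
  have hf1 : ∀ p, a₁.factorization p = g.factorization p + w₁.factorization p := by
    intro p
    conv_lhs => rw [hw₁]
    rw [Nat.factorization_mul hgp.ne' hw₁0]
    rfl
  have hf2 : ∀ p, a₂.factorization p = g.factorization p + w₂.factorization p := by
    intro p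
    conv_lhs => rw [hw₂]
    rw [Nat.factorization_mul hgp.ne' hw₂0]
    rfl
  have hb1 : w₁ ≤ Q₀ ^ (R.card * V) := by
    apply smooth_le hw₁0 (fun q hq => (hR q hq).2) (by omega)
    · intro p hp
      have h3 := hf1 p
      have h4 := hfg p hp
      omega
    · intro q hq
      have h3 := hf1 q
      have h4 := hV₁ q hq
      omega
  have hb2 : w₂ ≤ Q₀ ^ (R.card * V) := by
    apply smooth_le hw₂0 (fun q hq => (hR q hq).2) (by omega)
    · intro p hp
      have h3 := hf2 p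
      have h4 := hfg p hp
      have h5 := hout p hp
      omega
    · intro q hq
      have h3 := hf2 q
      have h4 := hV₂ q hq
      omega
  set w : ℤ := (w₁ : ℤ) - w₂ with hw
  have hdvd : ∀ p ∈ I, p ∣ w.natAbs := by
    intro p hp
    have hpR : p ∉ R := fun h => absurd (hR p h).2 (not_le.2 (hI p hp).2)
    rcases eq_or_ne w.natAbs 0 with h0 | h0
    · rw [h0]; exact dvd_zero p
    · have h3 := hdiv p hp
      have h4 : (a₁ : ℤ) - a₂ = (g : ℤ) * w := by
        rw [hw]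
        conv_lhs => rw [hw₁, hw₂]
        push_cast
        ring
      rw [h4, ← Int.natAbs_dvd_natAbs, Int.natAbs_mul, Int.natAbs_pow, Int.natAbs_natCast,
        Int.natAbs_natCast] at h3
      have h5 := ((hI p hp).1.pow_dvd_iff_le_factorization (Nat.mul_ne_zero hgp.ne' h0)).1 h3
      rw [Nat.factorization_mul hgp.ne' h0, Finsupp.add_apply, hfg p hpR] at h5
      have h6 : 1 ≤ w.natAbs.factorization p := by omega
      have h7 := ((hI p hp).1.pow_dvd_iff_le_factorization h0).2 h6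
      simpa using h7
  have hprod : ∏ p ∈ I, p ∣ w.natAbs := by
    apply Finset.prod_primes_dvd
    · intro p hp
      exact (hI p hp).1.prime
    · exact hdvd
  have hlow : Q₀ ^ (R.card * V) < ∏ p ∈ I, p := by
    calc Q₀ ^ (R.card * V) < Q₀ ^ I.card := Nat.pow_lt_pow_right (by omega) hcard
      _ = ∏ _p ∈ I, Q₀ := by rw [prod_const]
      _ ≤ ∏ p ∈ I, p := by
        apply prod_le_prod'
        intro p hp
        exact (hI p hp).2.le
  have habs : w.natAbs ≤ Q₀ ^ (R.card * V) := by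
    rw [hw]
    omega
  have hw0 : w.natAbs = 0 := Nat.eq_zero_of_dvd_of_lt hprod (lt_of_le_of_lt habs hlow)
  have hw12 : w₁ = w₂ := by
    have := Int.natAbs_eq_zero.1 hw0
    rw [hw] at this
    omega
  rw [hw₁, hw₂, hw12]

end Pool.Agent.Helper2.G
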