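import Pool.Agent.Helper2.GStep

set_option autoImplicit false

/-!
The induction over the revealed primes.
-/

open Finset

namespace Pool.Agent.Helper2.G

open Pool.Agent.Helper2.F

theorem induct {P : Finset ℕ} (v : ℕ → ℤ → ℕ) (𝒟 : Finset ℤ → Prop)
    (hclosed : ∀ D, 𝒟 D → ∀ p ∈ P, ∀ l, 𝒟 (part (v p) D l))
    (hdvd : ∀ D, 𝒟 D → ∀ p ∈ P, ∀ y ∈ D, (p : ℤ) ^ (v p y) ∣ y)
    (ℓ : ℕ → ℤ → ℝ) {lam : ℝ} (hlam : 0 ≤ lam)
    (hcost : ∀ p ∈ P, ∀ D, 𝒟 D → ∀ X : Finset ℤ, X.Nonempty →
      CostOK p (v p) D X (∑ y ∈ D, ℓ p y) lam) :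
    ∀ Pi : Finset ℕ, Pi ⊆ P → ∀ D, 𝒟 D → D.Nonempty → ∀ X : Finset ℤ, X.Nonempty →
      ∀ K : ℝ, (∀ y ∈ D, ((D.filter (fun y' => ∀ p ∈ Pi, v p y' = v p y)).card : ℝ) ≤ K) →
      (X.card : ℝ) * (D.card * Real.log D.card - D.card * Real.log K -
        ∑ p ∈ Pi, ∑ y ∈ D, ℓ p y - lam * D.card * Real.log X.card) ≤ J X D := by
  classical
  intro Pi
  induction Pi using Finset.induction_on with
  | empty =>
    intro _ D _ hD X hX K hK
    have hDp : (0 : ℝ) < D.card := by exact_mod_cast card_pos.2 hD
    have hX1 : (1 : ℝ) ≤ X.card := by exact_mod_cast card_pos.2 hX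
    have hlX : 0 ≤ Real.log X.card := Real.log_nonneg hX1
    obtain ⟨y, hy⟩ := hD
    have h1 := hK y hy
    have h2 : D.filter (fun y' => ∀ p ∈ (∅ : Finset ℕ), v p y' = v p y) = D := by
      apply filter_true_of_mem
      intro y' _ p hp
      exact absurd hp (notMem_empty p)
    rw [h2] at h1
    have h3 := Real.log_le_log hDp h1
    refine le_trans ?_ (J_nonneg X D)
    apply mul_nonpos_of_nonneg_of_nonpos (by positivity)
    rw [sum_empty]
    have h4 : (D.card : ℝ) * Real.log D.card ≤ D.card * Real.log K :=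
      mul_le_mul_of_nonneg_left h3 hDp.le
    have h5 : 0 ≤ lam * D.card * Real.log X.card := by positivity
    linarith
  | insert p Pi hpPi ih =>
    intro hsub D hD hDne X hX K hK
    have hpP : p ∈ P := hsub (mem_insert_self _ _)
    have hPiP : Pi ⊆ P := fun q hq => hsub (mem_insert_of_mem hq)
    obtain ⟨N, Q, hvN, hQ0, hQ1, hQp, hcst⟩ := hcost p hpP D hD X hX
    have hmulti := multi (v p) hvN Q hQ0 hQ1 hQp
    -- lower bound for the parts
    have hpart : ∀ l ∈ range N,
        (X.card : ℝ) * (((part (v p) D l).card : ℝ) * Real.log (part (v p) D l).card -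
          ((part (v p) D l).card : ℝ) * Real.log K -
          ∑ q ∈ Pi, ∑ y ∈ part (v p) D l, ℓ q y) -
          (lam * (part (v p) D l).card) * ∑ x ∈ X, Real.log (nn p X l x) ≤
        J X (part (v p) D l) := by
      intro l _
      apply classes_lower
      · intro y hy
        have := hdvd D hD p hpP y (mem_part.1 hy).1
        rwa [(mem_part.1 hy).2] at this
      · intro X' hX'
        rcases (part (v p) D l).eq_empty_or_nonempty with h0 | hne
        · rw [h0]
          unfold J
          simp
        · have h1 := ih hPiP (part (v p) D l) (hclosed D hD p hpP l) hne X' hX' K (by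
            intro y hy
            refine le_trans ?_ (hK y (mem_part.1 hy).1)
            apply Nat.cast_le.2
            apply card_le_card
            intro y' hy'
            rw [mem_filter] at hy' ⊢
            refine ⟨(mem_part.1 hy'.1).1, ?_⟩
            intro q hq
            rcases mem_insert.1 hq with rfl | hq
            · rw [(mem_part.1 hy'.1).2, (mem_part.1 hy).2]
            · exact hy'.2 q hq)
          refine le_trans (le_of_eq ?_) h1
          ring
    have hsum := sum_le_sum hpart
    -- rewrite the sums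
    have e1 : ∑ l ∈ range N,
        ((X.card : ℝ) * (((part (v p) D l).card : ℝ) * Real.log (part (v p) D l).card -
          ((part (v p) D l).card : ℝ) * Real.log K -
          ∑ q ∈ Pi, ∑ y ∈ part (v p) D l, ℓ q y) -
          (lam * (part (v p) D l).card) * ∑ x ∈ X, Real.log (nn p X l x)) =
        X.card * (∑ l ∈ range N, ((part (v p) D l).card : ℝ) * Real.log (part (v p) D l).card -
          D.card * Real.log K - ∑ q ∈ Pi, ∑ y ∈ D, ℓ q y) -
        lam * ∑ l ∈ range N, ((part (v p) D l).card : ℝ) * ∑ x ∈ X, Real.log (nn p X l x) := by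
      rw [sum_sub_distrib, ← mul_sum, sum_sub_distrib, sum_sub_distrib, ← sum_mul,
        ← card_part hvN, sum_comm (s := range N) (t := Pi)]
      have e2 : ∀ q ∈ Pi, ∑ l ∈ range N, ∑ y ∈ part (v p) D l, ℓ q y = ∑ y ∈ D, ℓ q y :=
        fun q _ => (sum_part hvN (ℓ q)).symm
      rw [sum_congr rfl e2]
      congr 1
      rw [mul_sum]
      apply sum_congr rfl
      intro l _
      ring
    have e3 : ∑ y ∈ D, ∑ x ∈ X, (Real.log X.card - Real.log (nn p X (v p y) x)) =
        D.card * (X.card * Real.log X.card) -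
        ∑ l ∈ range N, ((part (v p) D l).card : ℝ) * ∑ x ∈ X, Real.log (nn p X l x) := by
      have e4 : ∀ y ∈ D, ∑ x ∈ X, (Real.log X.card - Real.log (nn p X (v p y) x)) =
          X.card * Real.log X.card - ∑ x ∈ X, Real.log (nn p X (v p y) x) := by
        intro y _
        rw [sum_sub_distrib, sum_const, nsmul_eq_mul]
      rw [sum_congr rfl e4, sum_sub_distrib, sum_const, nsmul_eq_mul]
      congr 1
      rw [sum_part hvN (fun y => ∑ x ∈ X, Real.log (nn p X (v p y) x))]
      apply sum_congr rfl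
      intro l _
      have e5 : ∀ y ∈ part (v p) D l, ∑ x ∈ X, Real.log (nn p X (v p y) x) =
          ∑ x ∈ X, Real.log (nn p X l x) := by
        intro y hy
        rw [(mem_part.1 hy).2]
      rw [sum_congr rfl e5, sum_const, nsmul_eq_mul]
    rw [e1] at hsum
    rw [e3] at hcst
    rw [sum_insert hpPi]
    nlinarith

end Pool.Agent.Helper2.G
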