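import Pool.Agent.Helper2.GNodeM2
import Pool.Agent.Helper2.GInd
import Pool.Agent.Helper2.GArith

set_option autoImplicit false

/-!
Fibres over the unrevealed primes, and the spread condition.
-/

open Finset

namespace Pool.Agent.Helper2.G

open Pool.Agent.Helper2.F

/-- valuation -/
def vv (p : ℕ) (y : ℤ) : ℕ := y.natAbs.factorization p

theorem vv_dvd (p : ℕ) (y : ℤ) : (p : ℤ) ^ (vv p y) ∣ y := by
  rw [← Int.natAbs_dvd_natAbs, Int.natAbs_pow, Int.natAbs_natCast]
  exact Nat.ordProj_dvd _ _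

theorem vv_not_dvd {p : ℕ} {y : ℤ} (hp : p.Prime) (hy : y ≠ 0) :
    ¬ (p : ℤ) ^ (vv p y + 1) ∣ y := by
  rw [← Int.natAbs_dvd_natAbs, Int.natAbs_pow, Int.natAbs_natCast]
  exact Nat.pow_succ_factorization_not_dvd (Int.natAbs_ne_zero.2 hy) hp

/-- the revealed valuations -/
def key (P : Finset ℕ) (y : ℤ) : ℕ → ℕ := fun p => if p ∈ P then vv p y else 0

theorem key_eq {P : Finset ℕ} {y y' : ℤ} : key P y' = key P y ↔ ∀ p ∈ P, vv p y' = vv p y := by
  constructor
  · intro h p hp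
    have := congrFun h p
    unfold key at this
    rwa [if_pos hp, if_pos hp] at this
  · intro h
    funext p
    unfold key
    split_ifs with hp
    · exact h p hp
    · rfl

open scoped Classical in
/-- the fibre of `y` -/
noncomputable def fib (P : Finset ℕ) (A : Finset ℤ) (y : ℤ) : Finset ℤ :=
  A.filter (fun y' => key P y' = key P y)

theorem mem_fib {P : Finset ℕ} {A : Finset ℤ} {y y' : ℤ} :
    y' ∈ fib P A y ↔ y' ∈ A ∧ key P y' = key P y := by
  classical
  unfold fib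
  rw [mem_filter]

theorem fib_congr {P : Finset ℕ} {A : Finset ℤ} {y y' : ℤ} (h : key P y' = key P y) :
    fib P A y' = fib P A y := by
  unfold fib
  rw [h]

/-- the fibre of `y` has a rich class modulo the next power of `p` -/
def bad (P : Finset ℕ) (A : Finset ℤ) (β : ℝ) (p : ℕ) (y : ℤ) : Prop :=
  ∃ c : ℤ, β * (fib P A y).card <
    (((fib P A y).filter (fun y' => (p : ℤ) ^ (vv p y' + 1) ∣ y' - c)).card : ℝ)

theorem bad_congr {P : Finset ℕ} {A : Finset ℤ} {β : ℝ} {p : ℕ} {y y' : ℤ}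
    (h : key P y' = key P y) : bad P A β p y' ↔ bad P A β p y := by
  unfold bad
  rw [fib_congr h]

/-- unions of fibres -/
def Clo (P : Finset ℕ) (A D : Finset ℤ) : Prop := D ⊆ A ∧ ∀ y ∈ D, fib P A y ⊆ D

theorem clo_part {P : Finset ℕ} {A D : Finset ℤ} (h : Clo P A D) {p : ℕ} (hp : p ∈ P) (l : ℕ) :
    Clo P A (part (vv p) D l) := by
  refine ⟨(part_subset _ _ _).trans h.1, ?_⟩
  intro y hy y' hy'
  obtain ⟨hyD, hyl⟩ := mem_part.1 hy
  refine mem_part.2 ⟨h.2 y hyD hy', ?_⟩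
  rw [key_eq.1 (mem_fib.1 hy').2 p hp, hyl]

open scoped Classical in
theorem spread {P : Finset ℕ} {A D : Finset ℤ} (h : Clo P A D) {p : ℕ} (hp : p ∈ P) {β : ℝ}
    (hβ : 0 ≤ β) (l : ℕ) (a : ℤ) :
    (((part (vv p) D l).filter (fun y => (p : ℤ) ^ (l + 1) ∣ y - a)).card : ℝ) ≤
      β * (part (vv p) D l).card + ((part (vv p) D l).filter (bad P A β p)).card := by
  set Pt := part (vv p) D l with hPt
  have hc : Clo P A Pt := clo_part h hp l
  set E := Pt.filter (fun y => (p : ℤ) ^ (l + 1) ∣ y - a) with hE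
  set t := Pt.image (key P) with ht
  have h1 : ∀ S : Finset ℤ, S ⊆ Pt → (S.card : ℝ) =
      ∑ k ∈ t, ((S.filter (fun y => key P y = k)).card : ℝ) := by
    intro S hS
    rw [card_eq_sum_card_fiberwise (f := key P) (t := t)
      (fun y hy => mem_image_of_mem _ (hS hy))]
    push_cast
    rfl
  rw [h1 E (filter_subset _ _), h1 Pt (Subset.refl _), h1 (Pt.filter (bad P A β p))
    (filter_subset _ _), mul_sum, ← sum_add_distrib]
  apply sum_le_sum
  intro k hk
  obtain ⟨y, hy, rfl⟩ := mem_image.1 hk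
  have hfib : Pt.filter (fun y' => key P y' = key P y) = fib P A y := by
    ext y'
    rw [mem_filter, mem_fib]
    constructor
    · rintro ⟨h2, h3⟩
      exact ⟨hc.1 h2, h3⟩
    · rintro ⟨h2, h3⟩
      exact ⟨hc.2 y hy (mem_fib.2 ⟨h2, h3⟩), h3⟩
  rw [hfib]
  have hfl : ∀ y' ∈ fib P A y, vv p y' = l := by
    intro y' hy'
    exact (mem_part.1 (hc.2 y hy hy')).2
  by_cases hb : bad P A β p y
  · have h2 : (Pt.filter (bad P A β p)).filter (fun y' => key P y' = key P y) = fib P A y := by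
      rw [← hfib]
      ext y'
      rw [mem_filter, mem_filter, mem_filter]
      constructor
      · rintro ⟨⟨h2, _⟩, h3⟩
        exact ⟨h2, h3⟩
      · rintro ⟨h2, h3⟩
        exact ⟨⟨h2, (bad_congr h3).2 hb⟩, h3⟩
    rw [h2]
    have h3 : (E.filter (fun y' => key P y' = key P y)).card ≤ (fib P A y).card := by
      rw [← hfib]
      apply card_le_card
      intro y' hy'
      rw [mem_filter] at hy' ⊢
      exact ⟨(mem_filter.1 hy'.1).1, hy'.2⟩
    have h3' : ((E.filter (fun y' => key P y' = key P y)).card : ℝ) ≤ (fib P A y).card := by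
      exact_mod_cast h3
    have : 0 ≤ β * (fib P A y).card := by positivity
    linarith
  · have h2 : E.filter (fun y' => key P y' = key P y) ⊆
        (fib P A y).filter (fun y' => (p : ℤ) ^ (vv p y' + 1) ∣ y' - a) := by
      intro y' hy'
      obtain ⟨h3, h4⟩ := mem_filter.1 hy'
      obtain ⟨h5, h6⟩ := mem_filter.1 h3
      have h7 : y' ∈ fib P A y := by
        rw [← hfib]
        exact mem_filter.2 ⟨h5, h4⟩
      rw [mem_filter]
      refine ⟨h7, ?_⟩
      rw [hfl y' h7]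
      exact h6
    have h3 : ¬ (β * (fib P A y).card <
        (((fib P A y).filter (fun y' => (p : ℤ) ^ (vv p y' + 1) ∣ y' - a)).card : ℝ)) :=
      fun h => hb ⟨a, h⟩
    push Not at h3
    have h4 : ((E.filter (fun y' => key P y' = key P y)).card : ℝ) ≤
        (((fib P A y).filter (fun y' => (p : ℤ) ^ (vv p y' + 1) ∣ y' - a)).card : ℝ) := by
      exact_mod_cast card_le_card h2
    have h5 : (0 : ℝ) ≤
        (((Pt.filter (bad P A β p)).filter (fun y' => key P y' = key P y)).card : ℝ) := by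
      positivity
    linarith

theorem close_eqZ {a₁ a₂ : ℤ} (h₁ : 0 < a₁) (h₂ : 0 < a₂) {R I : Finset ℕ} {V Q₀ : ℕ}
    (hR : ∀ q ∈ R, q.Prime ∧ q ≤ Q₀) (hI : ∀ p ∈ I, p.Prime ∧ Q₀ < p)
    (hout : ∀ p, p ∉ R → vv p a₁ = vv p a₂)
    (hV₁ : ∀ q ∈ R, vv q a₁ ≤ V) (hV₂ : ∀ q ∈ R, vv q a₂ ≤ V)
    (hdiv : ∀ p ∈ I, (p : ℤ) ^ (vv p a₁ + 1) ∣ a₁ - a₂)
    (hcard : R.card * V < I.card) : a₁ = a₂ := by
  obtain ⟨b₁, rfl⟩ := Int.eq_ofNat_of_zero_le h₁.le
  obtain ⟨b₂, rfl⟩ := Int.eq_ofNat_of_zero_le h₂.le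
  unfold vv at *
  simp only [Int.natAbs_natCast] at *
  have h3 : b₁ = b₂ := by
    apply close_eq (R := R) (I := I) (V := V) (Q₀ := Q₀) (by omega) (by omega) hR hI hout hV₁ hV₂
      hdiv hcard
  rw [h3]

theorem bad_few {F : Finset ℤ} {R B : Finset ℕ} {V Q₀ : ℕ} {β : ℝ} (hβ : 0 < β)
    (hF0 : ∀ a ∈ F, 0 < a)
    (hR : ∀ q ∈ R, q.Prime ∧ q ≤ Q₀) (hB : ∀ p ∈ B, p.Prime ∧ Q₀ < p)
    (hout : ∀ a ∈ F, ∀ a' ∈ F, ∀ p, p ∉ R → vv p a = vv p a')
    (hV : ∀ a ∈ F, ∀ q ∈ R, vv q a ≤ V)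
    (hbad : ∀ p ∈ B, ∃ c : ℤ, β * F.card <
      ((F.filter (fun a => (p : ℤ) ^ (vv p a + 1) ∣ a - c)).card : ℝ))
    (hbig : 2 ≤ β ^ 2 * F.card) : β ^ 2 * B.card ≤ 2 * (R.card * V) := by
  classical
  have hFp : (0 : ℝ) < F.card := by
    by_contra h
    push Not at h
    have h1 : β ^ 2 * (F.card : ℝ) ≤ 0 := mul_nonpos_of_nonneg_of_nonpos (by positivity) h
    linarith
  choose! c hc using hbad
  set E : ℕ → Finset ℤ := fun p =>
    F.filter (fun a => (p : ℤ) ^ (vv p a + 1) ∣ a - c p) with hE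
  have h1 : ∀ p ∈ B, (β * F.card) ^ 2 ≤
      ∑ a ∈ F, ∑ a' ∈ F, (if a ∈ E p ∧ a' ∈ E p then (1 : ℝ) else 0) := by
    intro p hp
    have h2 : ∑ a ∈ F, ∑ a' ∈ F, (if a ∈ E p ∧ a' ∈ E p then (1 : ℝ) else 0) =
        ((E p).card : ℝ) ^ 2 := by
      have h3 : ∀ a ∈ F, ∑ a' ∈ F, (if a ∈ E p ∧ a' ∈ E p then (1 : ℝ) else 0) =
          if a ∈ E p then ((E p).card : ℝ) else 0 := by
        intro a _
        by_cases ha : a ∈ E p
        · simp only [ha, true_and, if_true]
          rw [← sum_filter]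
          have h4 : F.filter (fun a' => a' ∈ E p) = E p := by
            ext x
            rw [mem_filter]
            constructor
            · exact fun h => h.2
            · exact fun h => ⟨(mem_filter.1 h).1, h⟩
          rw [h4, sum_const, nsmul_eq_mul, mul_one]
        · simp [ha]
      rw [sum_congr rfl h3, ← sum_filter]
      have h4 : F.filter (fun a' => a' ∈ E p) = E p := by
        ext x
        rw [mem_filter]
        constructor
        · exact fun h => h.2
        · exact fun h => ⟨(mem_filter.1 h).1, h⟩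
      rw [h4, sum_const, nsmul_eq_mul, sq]
    rw [h2]
    exact pow_le_pow_left₀ (by positivity) (hc p hp).le 2
  have h2 := sum_le_sum h1
  rw [sum_const, nsmul_eq_mul, sum_comm] at h2
  have h3 : ∀ a ∈ F, ∑ p ∈ B, ∑ a' ∈ F, (if a ∈ E p ∧ a' ∈ E p then (1 : ℝ) else 0) ≤
      F.card * (R.card * V) + B.card := by
    intro a ha
    rw [sum_comm]
    have h4 : ∀ a' ∈ F, ∑ p ∈ B, (if a ∈ E p ∧ a' ∈ E p then (1 : ℝ) else 0) ≤
        (R.card * V : ℝ) + if a' = a then (B.card : ℝ) else 0 := by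
      intro a' ha'
      rw [← sum_filter, sum_const, nsmul_eq_mul, mul_one]
      split_ifs with heq
      · have : ((B.filter (fun p => a ∈ E p ∧ a' ∈ E p)).card : ℝ) ≤ B.card := by
          exact_mod_cast card_filter_le _ _
        have h5 : (0 : ℝ) ≤ R.card * V := by positivity
        linarith
      · rw [add_zero]
        by_contra hcon
        push Not at hcon
        apply heq
        refine (close_eqZ (hF0 a ha) (hF0 a' ha') hR (I := B.filter (fun p => a ∈ E p ∧ a' ∈ E p))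
          (V := V) (fun p hp => hB p (mem_filter.1 hp).1) (hout a ha a' ha') (hV a ha)
          (hV a' ha') ?_ (by exact_mod_cast hcon)).symm
        intro p hp
        obtain ⟨hpB, hpa, hpa'⟩ := mem_filter.1 hp
        have hpR : p ∉ R := fun h => absurd (hR p h).2 (not_le.2 (hB p hpB).2)
        have h5 := (mem_filter.1 hpa).2
        have h6 := (mem_filter.1 hpa').2
        rw [← hout a ha a' ha' p hpR] at h6
        have h7 := dvd_sub h5 h6
        have e : a - c p - (a' - c p) = a - a' := by ring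
        rwa [e] at h7
    refine (sum_le_sum h4).trans ?_
    rw [sum_add_distrib, sum_const, nsmul_eq_mul, sum_ite_eq', if_pos ha]
  have h4 := sum_le_sum h3
  rw [sum_const, nsmul_eq_mul] at h4
  have h5 := h2.trans h4
  -- `|B| β² |F|² ≤ |F|² |R| V + |F| |B|`
  have h6 : (F.card : ℝ) * B.card ≤ β ^ 2 * B.card * F.card ^ 2 / 2 := by
    have : 0 ≤ (F.card : ℝ) * B.card * (β ^ 2 * F.card - 2) :=
      mul_nonneg (by positivity) (by linarith)
    nlinarith
  have h7 : (β ^ 2 * B.card) * ((F.card : ℝ) ^ 2) ≤ (2 * (R.card * V)) * ((F.card : ℝ) ^ 2) := by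
    nlinarith
  exact le_of_mul_le_mul_right h7 (by positivity)

end Pool.Agent.Helper2.G
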