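import Pool.Agent.Helper2.GPar

set_option autoImplicit false

/-!
Sums with dense sets of divisors.
-/

open Finset

namespace Pool.Agent.Helper2.G

open Pool.Agent.Helper2.F

theorem sset_mono {X A' A : Finset ℤ} (h : A' ⊆ A) : sset X A' ⊆ sset X A := by
  unfold sset
  apply image_subset_image
  exact product_subset_product (Subset.refl _) h

theorem big {ε b : ℝ} (hε : 0 < ε) (hε1 : ε ≤ 1) (hb : 1 ≤ b) :
    ∃ c L₁ : ℝ, 0 < c ∧ c ≤ 1 / 2 ∧ ∀ n : ℕ, n ≠ 0 → L₁ ≤ Real.log n.divisors.card →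
      ∀ A : Finset ℤ, (∀ y ∈ A, 0 < y ∧ y ∣ (n : ℤ)) → A.Nonempty →
      (1 - c) * Real.log n.divisors.card ≤ Real.log A.card →
      ∀ X : Finset ℤ, X.Nonempty → Real.log X.card ≤ b * Real.log A.card →
      Real.log X.card + (1 - ε) * Real.log A.card ≤ Real.log (sset X A).card := by
  classical
  obtain ⟨lam, κ, q, δ, h₁, β, V, hlam0, hlam1, hκ0, hκ1, hq0, hq1, hδ, hh, hβ, hlog, hlb, hC₁,
    hV1, ha₀⟩ := params hε hε1 hb
  have hlog2 : 0 < Real.log 2 := Real.log_pos (by norm_num)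
  set LV : ℝ := Real.log ((V + 1 : ℕ) : ℝ) with hLV
  have hLV2 : Real.log 2 ≤ LV := by
    apply Real.log_le_log (by norm_num)
    have : 2 ≤ V + 1 := by omega
    exact_mod_cast this
  have hLV0 : 0 < LV := lt_of_lt_of_le hlog2 hLV2
  set a₀ : ℝ := Real.log (1 / (1 - q)) + (δ + κ + Real.exp (h₁ / δ) * β) *
        Real.log (((V + 1 : ℕ) : ℝ) / q) with ha₀d
  set b₀ : ℝ := Real.exp (h₁ / δ) * Real.log (((V + 1 : ℕ) : ℝ) / q) with hb₀
  set C₁ : ℝ := Real.log (1 / lam) + 1 with hC₁d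
  have hb0 : 0 < b₀ := by
    apply mul_pos (Real.exp_pos _)
    apply Real.log_pos
    rw [lt_div_iff₀ hq0]
    have : (1 : ℝ) ≤ ((V + 1 : ℕ) : ℝ) := by exact_mod_cast Nat.le_add_left 1 V
    linarith
  have hVr : (1 : ℝ) ≤ V := by exact_mod_cast hV1
  set W : ℝ := 2 * V / β ^ 2 with hW
  have hW0 : 0 < W := by positivity
  set ε₃ : ℝ := min (ε / (16 * LV)) (ε / (16 * (b₀ * W))) with hε₃
  have hε₃0 : 0 < ε₃ := lt_min (by positivity) (by positivity)
  have hε₃1 : ε₃ * LV ≤ ε / 16 := by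
    have h1 : ε₃ ≤ ε / (16 * LV) := min_le_left _ _
    have h2 := mul_le_mul_of_nonneg_right h1 hLV0.le
    have h3 : ε / (16 * LV) * LV = ε / 16 := by field_simp
    linarith
  have hε₃2 : ε₃ * (b₀ * W) ≤ ε / 16 := by
    have h1 : ε₃ ≤ ε / (16 * (b₀ * W)) := min_le_right _ _
    have h2 := mul_le_mul_of_nonneg_right h1 (mul_pos hb0 hW0).le
    have h3 : ε / (16 * (b₀ * W)) * (b₀ * W) = ε / 16 := by field_simp
    linarith
  set K : ℝ := 2 / β ^ 2 with hK
  have hK0 : 0 < K := by positivity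
  set G : ℝ := |Real.log K| + 2 * Real.log 2 with hG
  have hG0 : 0 < G := by positivity
  refine ⟨ε₃ * Real.log 2 / 2, max (16 * Real.log 2 / ε) (2 * G / (ε₃ * Real.log 2)),
    by positivity, ?_, ?_⟩
  · have h1 : ε₃ * Real.log 2 ≤ ε₃ * LV := mul_le_mul_of_nonneg_left hLV2 hε₃0.le
    linarith
  intro n hn hL₁ A hA hAne hAd X hX hXA
  set L₀ : ℝ := Real.log n.divisors.card with hL₀
  have hL1 : 16 * Real.log 2 / ε ≤ L₀ := (le_max_left _ _).trans hL₁
  have hL2 : 2 * G / (ε₃ * Real.log 2) ≤ L₀ := (le_max_right _ _).trans hL₁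
  have hL₀0 : 0 < L₀ := lt_of_lt_of_le (by positivity) hL1
  have hlog2L : Real.log 2 ≤ ε / 16 * L₀ := by
    have h2 := mul_le_mul_of_nonneg_left hL1 (show 0 ≤ ε / 16 by positivity)
    have h3 : ε / 16 * (16 * Real.log 2 / ε) = Real.log 2 := by field_simp
    linarith
  have hGL : G ≤ ε₃ * Real.log 2 / 2 * L₀ := by
    have h2 := mul_le_mul_of_nonneg_left hL2 (show 0 ≤ ε₃ * Real.log 2 / 2 by positivity)
    have h3 : ε₃ * Real.log 2 / 2 * (2 * G / (ε₃ * Real.log 2)) = G := by field_simp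
    linarith
  set m : ℕ := ⌊ε₃ * L₀⌋₊ with hm
  have hm1 : (m : ℝ) ≤ ε₃ * L₀ := Nat.floor_le (by positivity)
  have hm2 : ε₃ * L₀ - 1 ≤ m := by
    have := Nat.lt_floor_add_one (ε₃ * L₀)
    linarith
  obtain ⟨R, M, Lg, Q₀, S, hRm, hcase, hbox, hLgc, hMc, hR2, hRV⟩ := exists_setup hn hA V m
  have hτ : (0 : ℝ) < n.divisors.card := by
    exact_mod_cast card_pos.2 (Nat.nonempty_divisors.2 hn)
  have hRp : (0 : ℝ) < ((∏ q ∈ R, (n.factorization q + 1) : ℕ) : ℝ) := by
    have : 0 < 2 ^ R.card := by positivity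
    exact_mod_cast lt_of_lt_of_le this hR2
  -- bounds for the four losses
  have hRmr : (R.card : ℝ) ≤ m := by exact_mod_cast hRm
  have hloss1 : Real.log ((∏ q ∈ R, (n.factorization q + 1) : ℕ) : ℝ) ≤ ε / 16 * L₀ := by
    have h1 : ((∏ q ∈ R, (n.factorization q + 1) : ℕ) : ℝ) ≤ ((V + 1 : ℕ) : ℝ) ^ R.card := by
      exact_mod_cast hRV
    have h2 := Real.log_le_log hRp h1
    rw [Real.log_pow] at h2
    have h3 : (R.card : ℝ) * LV ≤ m * LV := mul_le_mul_of_nonneg_right hRmr hLV0.le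
    have h4 : (m : ℝ) * LV ≤ ε₃ * L₀ * LV := mul_le_mul_of_nonneg_right hm1 hLV0.le
    have h5 := mul_le_mul_of_nonneg_right hε₃1 hL₀0.le
    linarith
  have hloss2 : (Lg.card : ℝ) * C₁ ≤ ε / 16 * L₀ := by
    have h1 : ((V + 1 : ℕ) : ℝ) ^ Lg.card ≤ n.divisors.card := by exact_mod_cast hLgc
    have h2 := Real.log_le_log (by positivity) h1
    rw [Real.log_pow] at h2
    have h3 : (Lg.card : ℝ) * C₁ ≤ Lg.card * (ε / 16 * LV) :=
      mul_le_mul_of_nonneg_left hC₁ (by positivity)
    have h4 := mul_le_mul_of_nonneg_left h2 (show 0 ≤ ε / 16 by positivity)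
    linarith
  have hloss3 : (M.card : ℝ) * a₀ ≤ ε / 16 * L₀ := by
    have h1 : (2 : ℝ) ^ M.card ≤ n.divisors.card := by exact_mod_cast hMc
    have h2 := Real.log_le_log (by positivity) h1
    rw [Real.log_pow] at h2
    have h3 : (M.card : ℝ) * a₀ ≤ M.card * (ε / 16 * Real.log 2) :=
      mul_le_mul_of_nonneg_left ha₀ (by positivity)
    have h4 := mul_le_mul_of_nonneg_left h2 (show 0 ≤ ε / 16 by positivity)
    linarith
  have hloss4 : b₀ * (W * m) ≤ ε / 16 * L₀ := by
    have h1 : b₀ * (W * m) ≤ b₀ * (W * (ε₃ * L₀)) :=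
      mul_le_mul_of_nonneg_left (mul_le_mul_of_nonneg_left hm1 hW0.le) hb0.le
    have h2 := mul_le_mul_of_nonneg_right hε₃2 hL₀0.le
    linarith
  have hAp : (0 : ℝ) < A.card := by exact_mod_cast card_pos.2 hAne
  have hlogA : L₀ ≤ 2 * Real.log A.card := by
    have h1 : ε₃ * Real.log 2 ≤ ε₃ * LV := mul_le_mul_of_nonneg_left hLV2 hε₃0.le
    have h2 : ε₃ * Real.log 2 / 2 ≤ 1 / 2 := by linarith
    have h3 := mul_le_mul_of_nonneg_right h2 hL₀0.le
    linarith
  have hmain : ∀ A' : Finset ℤ, A' ⊆ A → (A.card : ℝ) / 2 ≤ A'.card →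
      (∀ y ∈ A', ((M.filter (fun p => bad (Lg ∪ M) A' β p y)).card : ℝ) ≤ W * m) →
      Real.log X.card + (1 - ε) * Real.log A.card ≤ Real.log (sset X A).card := by
    intro A' hA' hc hT
    have hA'p : (0 : ℝ) < A'.card := lt_of_lt_of_le (by positivity) hc
    have hA'ne : A'.Nonempty := card_pos.1 (by exact_mod_cast hA'p)
    have h1 := (S.restrict hA').main hA'ne hX hlam0 hlam1 hκ0 hκ1 hq0 hq1 hδ hh hβ.le hlog hT
    have h2 : Real.log (sset X A').card ≤ Real.log (sset X A).card := by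
      apply Real.log_le_log
      · obtain ⟨x, hx⟩ := hX
        obtain ⟨y, hy⟩ := hA'ne
        exact_mod_cast card_pos.2 ⟨_, mem_sset hx hy⟩
      · exact_mod_cast card_le_card (sset_mono hA')
    have h3 : Real.log A.card - Real.log 2 ≤ Real.log A'.card := by
      rw [← Real.log_div hAp.ne' (by norm_num)]
      exact Real.log_le_log (by positivity) hc
    have h4 : lam * Real.log X.card ≤ ε / 16 * Real.log A.card := by
      have h5 := mul_le_mul_of_nonneg_left hXA hlam0.le
      have h6 : 0 ≤ Real.log A.card := by linarith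
      have h7 := mul_le_mul_of_nonneg_right hlb h6
      linarith
    have h5 : ε / 16 * L₀ ≤ ε / 16 * (2 * Real.log A.card) :=
      mul_le_mul_of_nonneg_left hlogA (by positivity)
    have h6 : 0 ≤ ε * Real.log A.card := by
      apply mul_nonneg hε.le
      linarith
    linarith
  rcases hcase with hM0 | hRm'
  · apply hmain A (Subset.refl _) (by linarith)
    intro y _
    rw [hM0]
    simp only [filter_empty, card_empty, Nat.cast_zero]
    positivity
  · set A' := A.filter (fun y => ¬ (((fib (Lg ∪ M) A y).card : ℝ) < K)) with hA'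
    have hA'A : A' ⊆ A := filter_subset _ _
    apply hmain A' hA'A
    · have h1 := S.removal hK0.le
      have h2 : (A.card : ℝ) =
          (A.filter (fun y => ((fib (Lg ∪ M) A y).card : ℝ) < K)).card + A'.card := by
        have := card_filter_add_card_filter_not (s := A)
          (fun y => ((fib (Lg ∪ M) A y).card : ℝ) < K)
        rw [hA']
        exact_mod_cast this.symm
      have h3 : ((∏ p ∈ Lg ∪ M, (n.factorization p + 1) : ℕ) : ℝ) * K ≤ A.card / 2 := by
        have h4 : ((∏ p ∈ Lg ∪ M, (n.factorization p + 1) : ℕ) : ℝ) * 2 ^ m ≤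
            n.divisors.card := by
          rw [← hbox]
          push_cast
          apply mul_le_mul_of_nonneg_left _ (by positivity)
          rw [← hRm']
          exact_mod_cast hR2
        have hPp : (0 : ℝ) < ((∏ p ∈ Lg ∪ M, (n.factorization p + 1) : ℕ) : ℝ) := by
          have : 0 < ∏ p ∈ Lg ∪ M, (n.factorization p + 1) :=
            Nat.pos_of_ne_zero (prod_ne_zero_iff.2 (fun q _ => by omega))
          exact_mod_cast this
        have h5 := Real.log_le_log (by positivity) h4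
        rw [Real.log_mul hPp.ne' (by positivity), Real.log_pow] at h5
        rw [← Real.log_le_log_iff (by positivity) (by positivity),
          Real.log_mul hPp.ne' hK0.ne', Real.log_div hAp.ne' (by norm_num)]
        have h6 : Real.log K ≤ |Real.log K| := le_abs_self _
        have h7 := mul_le_mul_of_nonneg_right hm2 hlog2.le
        linarith
      linarith
    · intro y hy
      have hyA := hA'A hy
      have hfib : ∀ y₁ ∈ A', fib (Lg ∪ M) A' y₁ = fib (Lg ∪ M) A y₁ := by
        intro y₁ hy₁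
        ext y'
        rw [mem_fib, mem_fib]
        constructor
        · rintro ⟨h1, h2⟩
          exact ⟨hA'A h1, h2⟩
        · rintro ⟨h1, h2⟩
          refine ⟨?_, h2⟩
          rw [hA', mem_filter]
          refine ⟨h1, ?_⟩
          rw [fib_congr h2]
          exact (mem_filter.1 hy₁).2
      have hbig : 2 ≤ β ^ 2 * (fib (Lg ∪ M) A' y).card := by
        rw [hfib y hy]
        have h1 := (mem_filter.1 hy).2
        push Not at h1
        have h2 := mul_le_mul_of_nonneg_left h1 (show 0 ≤ β ^ 2 by positivity)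
        have h3 : β ^ 2 * K = 2 := by rw [hK]; field_simp
        linarith
      have h1 := (S.restrict hA'A).bad_count hβ hy hbig
      rw [hRm'] at h1
      rw [hW]
      have h2 : 2 * (V : ℝ) / β ^ 2 * m = 2 * (m * V) / β ^ 2 := by ring
      rw [h2, le_div_iff₀ (by positivity)]
      linarith

end Pool.Agent.Helper2.G
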