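import Pool.Agent.Helper2.GFib

set_option autoImplicit false

/-!
The main inequality for sets of divisors.
-/

open Finset

namespace Pool.Agent.Helper2.G

open Pool.Agent.Helper2.F

/-- a splitting of the primes of `n` -/
structure Setup (n : ℕ) (A : Finset ℤ) (R M Lg : Finset ℕ) (V Q₀ : ℕ) : Prop where
  n0 : n ≠ 0
  hA : ∀ y ∈ A, 0 < y ∧ y ∣ (n : ℤ)
  hR : ∀ q ∈ R, q.Prime ∧ q ≤ Q₀
  hM : ∀ p ∈ M, p.Prime ∧ Q₀ < p
  hL : ∀ p ∈ Lg, p.Prime
  hML : Disjoint M Lg
  hRV : ∀ q ∈ R, n.factorization q ≤ V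
  hMV : ∀ q ∈ M, n.factorization q ≤ V
  hout : ∀ p, p ∉ R → p ∉ M → p ∉ Lg → n.factorization p = 0

theorem vv_le {n : ℕ} (hn : n ≠ 0) {y : ℤ} (hy : y ∣ (n : ℤ)) (p : ℕ) :
    vv p y ≤ n.factorization p := by
  unfold vv
  have h1 : y.natAbs ∣ n := by
    have := Int.natAbs_dvd_natAbs.2 hy
    simpa using this
  have h2 : y.natAbs ≠ 0 := by
    rintro h
    rw [h] at h1
    exact hn (zero_dvd_iff.1 h1)
  exact (Nat.factorization_le_iff_dvd h2 hn).2 h1 p

theorem eq_of_vv {y y' : ℤ} (hy : 0 < y) (hy' : 0 < y') (h : ∀ p, vv p y = vv p y') : y = y' := by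
  have h1 : y.natAbs = y'.natAbs := by
    apply Nat.eq_of_factorization_eq (by omega) (by omega)
    exact h
  omega

variable {n : ℕ} {A : Finset ℤ} {R M Lg : Finset ℕ} {V Q₀ : ℕ}

theorem Setup.vv_eq (S : Setup n A R M Lg V Q₀) {y y' : ℤ} (hy : y ∈ A) (hy' : y' ∈ A)
    (h : key (Lg ∪ M) y = key (Lg ∪ M) y') {p : ℕ} (hp : p ∉ R) : vv p y = vv p y' := by
  by_cases hpP : p ∈ Lg ∪ M
  · exact key_eq.1 h p hpP
  · rw [mem_union, not_or] at hpP
    have h0 := S.hout p hp hpP.2 hpP.1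
    have h1 := vv_le S.n0 (S.hA y hy).2 p
    have h2 := vv_le S.n0 (S.hA y' hy').2 p
    omega

open scoped Classical in
theorem Setup.bad_count (S : Setup n A R M Lg V Q₀) {β : ℝ} (hβ : 0 < β) {y : ℤ} (hy : y ∈ A)
    (hbig : 2 ≤ β ^ 2 * (fib (Lg ∪ M) A y).card) :
    β ^ 2 * (M.filter (fun p => bad (Lg ∪ M) A β p y)).card ≤ 2 * (R.card * V) := by
  apply bad_few (F := fib (Lg ∪ M) A y) (Q₀ := Q₀) hβ
  · intro a ha
    exact (S.hA a (mem_fib.1 ha).1).1
  · exact S.hR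
  · intro p hp
    exact S.hM p (mem_filter.1 hp).1
  · intro a ha a' ha' p hp
    obtain ⟨h1, h2⟩ := mem_fib.1 ha
    obtain ⟨h3, h4⟩ := mem_fib.1 ha'
    exact S.vv_eq h1 h3 (h2.trans h4.symm) hp
  · intro a ha q hq
    exact (vv_le S.n0 (S.hA a (mem_fib.1 ha).1).2 q).trans (S.hRV q hq)
  · intro p hp
    obtain ⟨_, hb⟩ := mem_filter.1 hp
    obtain ⟨c, hc⟩ := hb
    exact ⟨c, hc⟩
  · exact hbig

theorem Setup.card_fib (S : Setup n A R M Lg V Q₀) {y : ℤ} :
    (fib (Lg ∪ M) A y).card ≤ ∏ q ∈ R, (n.factorization q + 1) := by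
  classical
  have h1 : (R.pi fun q => range (n.factorization q + 1)).card =
      ∏ q ∈ R, (n.factorization q + 1) := by
    rw [card_pi]
    simp
  rw [← h1]
  apply card_le_card_of_injOn (fun y' => fun q (_ : q ∈ R) => vv q y')
  · intro y' hy'
    rw [mem_coe, mem_pi]
    intro q _
    rw [mem_range]
    have := vv_le S.n0 (S.hA y' (mem_fib.1 hy').1).2 q
    show vv q y' < n.factorization q + 1
    omega
  · intro y₁ hy₁ y₂ hy₂ heq
    obtain ⟨h1, h2⟩ := mem_fib.1 (mem_coe.1 hy₁)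
    obtain ⟨h3, h4⟩ := mem_fib.1 (mem_coe.1 hy₂)
    apply eq_of_vv (S.hA _ h1).1 (S.hA _ h3).1
    intro p
    by_cases hp : p ∈ R
    · exact congrFun (congrFun heq p) hp
    · exact S.vv_eq h1 h3 (h2.trans h4.symm) hp

open scoped Classical in
theorem Setup.card_keys (S : Setup n A R M Lg V Q₀) (P : Finset ℕ) :
    ((A.image (key P)).card) ≤ ∏ q ∈ P, (n.factorization q + 1) := by
  have h1 : (P.pi fun q => range (n.factorization q + 1)).card =
      ∏ q ∈ P, (n.factorization q + 1) := by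
    rw [card_pi]
    simp
  rw [← h1]
  apply card_le_card_of_injOn (fun k : ℕ → ℕ => fun q (_ : q ∈ P) => k q)
  · intro k hk
    obtain ⟨y, hy, rfl⟩ := mem_image.1 (mem_coe.1 hk)
    rw [mem_coe, mem_pi]
    intro q hq
    rw [mem_range]
    have := vv_le S.n0 (S.hA y hy).2 q
    show key P y q < n.factorization q + 1
    unfold key
    rw [if_pos hq]
    omega
  · intro k hk k' hk' heq
    obtain ⟨y, hy, rfl⟩ := mem_image.1 (mem_coe.1 hk)
    obtain ⟨y', hy', rfl⟩ := mem_image.1 (mem_coe.1 hk')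
    rw [key_eq]
    intro p hp
    have := congrFun (congrFun heq p) hp
    simp only [key, if_pos hp] at this
    exact this

open scoped Classical in
theorem Setup.main (S : Setup n A R M Lg V Q₀) (hA : A.Nonempty) {X : Finset ℤ}
    (hX : X.Nonempty) {lam κ q δ h₁ β T₀ : ℝ} (hlam0 : 0 < lam) (hlam1 : lam ≤ 1) (hκ0 : 0 ≤ κ)
    (hκ1 : κ ≤ 1) (hq0 : 0 < q) (hq1 : q < 1) (hδ : 0 < δ) (hh : 0 < h₁) (hβ0 : 0 ≤ β)
    (hlog : Real.log ((V + 1 : ℕ) : ℝ) ≤ lam * κ * h₁)
    (hT : ∀ y ∈ A, ((M.filter (fun p => bad (Lg ∪ M) A β p y)).card : ℝ) ≤ T₀) :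
    Real.log X.card + Real.log A.card - Real.log ((∏ q ∈ R, (n.factorization q + 1) : ℕ) : ℝ) -
      Lg.card * (Real.log (1 / lam) + 1) -
      M.card * (Real.log (1 / (1 - q)) + (δ + κ + Real.exp (h₁ / δ) * β) *
        Real.log (((V + 1 : ℕ) : ℝ) / q)) -
      Real.exp (h₁ / δ) * Real.log (((V + 1 : ℕ) : ℝ) / q) * T₀ -
      lam * Real.log X.card ≤ Real.log (sset X A).card := by
  have hAp : (0 : ℝ) < A.card := by exact_mod_cast card_pos.2 hA
  have hXp : (0 : ℝ) < X.card := by exact_mod_cast card_pos.2 hX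
  set C₁ : ℝ := Real.log (1 / lam) + 1 with hC₁
  set b₀ : ℝ := Real.exp (h₁ / δ) * Real.log (((V + 1 : ℕ) : ℝ) / q) with hb₀
  set a₀ : ℝ := Real.log (1 / (1 - q)) + (δ + κ + Real.exp (h₁ / δ) * β) *
        Real.log (((V + 1 : ℕ) : ℝ) / q) with ha₀
  set ℓ : ℕ → ℤ → ℝ := fun p y => if p ∈ Lg then C₁ else
    a₀ + b₀ * (if bad (Lg ∪ M) A β p y then 1 else 0) with hℓ
  have hb0 : 0 ≤ b₀ := by
    apply mul_nonneg (Real.exp_pos _).le
    apply Real.log_nonneg
    rw [le_div_iff₀ hq0]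
    have : (1 : ℝ) ≤ ((V + 1 : ℕ) : ℝ) := by exact_mod_cast Nat.le_add_left 1 V
    linarith
  have hvle : ∀ y ∈ A, ∀ p, vv p y ≤ n.factorization p := fun y hy p =>
    vv_le S.n0 (S.hA y hy).2 p
  have hind := induct (P := Lg ∪ M) vv (Clo (Lg ∪ M) A)
    (fun D hD p hp l => clo_part hD hp l)
    (fun D hD p hp y hy => vv_dvd p y) ℓ hlam0.le (by
      intro p hp D hD X' hX'
      by_cases hpL : p ∈ Lg
      · have h1 : ∑ y ∈ D, ℓ p y = D.card * C₁ := by
          rw [hℓ]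
          simp only [if_pos hpL, sum_const, nsmul_eq_mul]
        rw [h1]
        apply nodeL hX' _ hlam0 hlam1
        intro y hy
        exact ⟨vv_dvd p y, vv_not_dvd (S.hL p hpL) (S.hA y (hD.1 hy)).1.ne'⟩
      · have hpM : p ∈ M := by
          rcases mem_union.1 hp with h | h
          · exact absurd h hpL
          · exact h
        have h1 : ∑ y ∈ D, ℓ p y = a₀ * D.card +
            b₀ * (D.filter (bad (Lg ∪ M) A β p)).card := by
          rw [hℓ]
          simp only [if_neg hpL]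
          rw [sum_add_distrib, sum_const, nsmul_eq_mul, ← mul_sum, ← sum_filter, sum_const,
            nsmul_eq_mul, mul_one]
          ring
        rw [h1]
        apply nodeM hX' (N := V + 1) (by omega) _ _ _ hlam0.le hκ0 hκ1 hq0 hq1 hδ hh hβ0 hlog
        · intro l a
          exact spread hD hp hβ0 l a
        · intro y hy
          have h2 := hvle y (hD.1 hy) p
          have h3 := S.hMV p hpM
          omega
        · intro y _
          exact vv_dvd p y)
    (Lg ∪ M) (Subset.refl _) A ⟨Subset.refl _, fun y _ y' hy' => (mem_fib.1 hy').1⟩ hA X hX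
    ((∏ q ∈ R, (n.factorization q + 1) : ℕ) : ℝ) (by
      intro y hy
      have h1 : A.filter (fun y' => ∀ p ∈ Lg ∪ M, vv p y' = vv p y) = fib (Lg ∪ M) A y := by
        ext y'
        rw [mem_filter, mem_fib, key_eq]
      rw [h1]
      exact_mod_cast S.card_fib)
  have hJ := hind.trans (J_le hX hA)
  have hℓsum : ∑ p ∈ Lg ∪ M, ∑ y ∈ A, ℓ p y ≤ A.card * (Lg.card * C₁ + M.card * a₀ + b₀ * T₀) := by
    rw [sum_union S.hML.symm]
    have h1 : ∑ p ∈ Lg, ∑ y ∈ A, ℓ p y = A.card * (Lg.card * C₁) := by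
      have h2 : ∀ p ∈ Lg, ∑ y ∈ A, ℓ p y = A.card * C₁ := by
        intro p hp
        rw [hℓ]
        simp only [if_pos hp, sum_const, nsmul_eq_mul]
      rw [sum_congr rfl h2, sum_const, nsmul_eq_mul]
      ring
    have h2 : ∑ p ∈ M, ∑ y ∈ A, ℓ p y ≤ A.card * (M.card * a₀ + b₀ * T₀) := by
      rw [sum_comm]
      have h3 : ∀ y ∈ A, ∑ p ∈ M, ℓ p y ≤ M.card * a₀ + b₀ * T₀ := by
        intro y hy
        have h4 : ∑ p ∈ M, ℓ p y = M.card * a₀ +
            b₀ * (M.filter (fun p => bad (Lg ∪ M) A β p y)).card := by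
          have h5 : ∀ p ∈ M, ℓ p y = a₀ + b₀ * (if bad (Lg ∪ M) A β p y then 1 else 0) := by
            intro p hp
            have h6 : p ∉ Lg := fun h => (disjoint_left.1 S.hML) hp h
            rw [hℓ]
            simp only [if_neg h6]
          rw [sum_congr rfl h5, sum_add_distrib, sum_const, nsmul_eq_mul, ← mul_sum,
            ← sum_filter, sum_const, nsmul_eq_mul, mul_one]
        rw [h4]
        have := mul_le_mul_of_nonneg_left (hT y hy) hb0
        linarith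
      refine (sum_le_sum h3).trans ?_
      rw [sum_const, nsmul_eq_mul]
    rw [h1]
    linarith
  have h1 : (X.card : ℝ) * A.card * (Real.log A.card -
      Real.log ((∏ q ∈ R, (n.factorization q + 1) : ℕ) : ℝ) -
      (Lg.card * C₁ + M.card * a₀ + b₀ * T₀) - lam * Real.log X.card) ≤
      X.card * A.card * (Real.log (sset X A).card - Real.log X.card) := by
    refine le_trans ?_ hJ
    have h2 := mul_le_mul_of_nonneg_left hℓsum hXp.le
    nlinarith
  have h2 := le_of_mul_le_mul_left h1 (mul_pos hXp hAp)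
  linarith

end Pool.Agent.Helper2.G
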