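import Pool.Agent.Helper2.FInd

set_option autoImplicit false

/-!
Splitting a set of summands by the value of a function, with a Gibbs-type lower bound for the
mutual information of the sum.
-/

open Finset

namespace Pool.Agent.Helper2.G

open Pool.Agent.Helper2.F

/-- part of `D` where `v = l` -/
def part (v : ℤ → ℕ) (D : Finset ℤ) (l : ℕ) : Finset ℤ := D.filter (fun y => v y = l)

theorem mem_part {v : ℤ → ℕ} {D : Finset ℤ} {l : ℕ} {y : ℤ} :
    y ∈ part v D l ↔ y ∈ D ∧ v y = l := by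
  unfold part; rw [mem_filter]

theorem part_subset (v : ℤ → ℕ) (D : Finset ℤ) (l : ℕ) : part v D l ⊆ D := filter_subset _ _

theorem sum_part {v : ℤ → ℕ} {D : Finset ℤ} {N : ℕ} (hv : ∀ y ∈ D, v y < N) (f : ℤ → ℝ) :
    ∑ y ∈ D, f y = ∑ l ∈ range N, ∑ y ∈ part v D l, f y := by
  unfold part
  rw [sum_fiberwise_of_maps_to]
  intro y hy
  exact mem_range.2 (hv y hy)

theorem card_part {v : ℤ → ℕ} {D : Finset ℤ} {N : ℕ} (hv : ∀ y ∈ D, v y < N) :
    (D.card : ℝ) = ∑ l ∈ range N, ((part v D l).card : ℝ) := by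
  have h := sum_part hv (fun _ => (1 : ℝ))
  simpa using h

theorem multi {X D : Finset ℤ} (v : ℤ → ℕ) {N : ℕ} (hv : ∀ y ∈ D, v y < N)
    (Q : ℕ → ℤ → ℝ) (hQ0 : ∀ l s, 0 ≤ Q l s) (hQ1 : ∀ s, ∑ l ∈ range N, Q l s ≤ 1)
    (hQp : ∀ x ∈ X, ∀ y ∈ D, 0 < Q (v y) (x + y)) :
    ∑ l ∈ range N, J X (part v D l) +
      X.card * (D.card * Real.log D.card -
        ∑ l ∈ range N, ((part v D l).card : ℝ) * Real.log (part v D l).card) +
      ∑ x ∈ X, ∑ y ∈ D, Real.log (Q (v y) (x + y)) ≤ J X D := by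
  classical
  set S := sset X D with hS
  have hSD : ∀ x ∈ X, ∀ y ∈ D, x + y ∈ S := fun x hx y hy => mem_sset hx hy
  have hSl : ∀ l, ∀ x ∈ X, ∀ y ∈ part v D l, x + y ∈ S := fun l x hx y hy =>
    mem_sset hx (part_subset v D l hy)
  have hone : ∀ x ∈ X, ∀ l ∈ range N, ∀ y ∈ part v D l,
      Real.log (((part v D l).card : ℝ) / (rep X (part v D l) (x + y) : ℝ)) +
        (Real.log D.card - Real.log (part v D l).card) +
        Real.log (Q (v y) (x + y)) -
          (Q l (x + y) * (rep X D (x + y) : ℝ) / (rep X (part v D l) (x + y) : ℝ) - 1) ≤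
      Real.log ((D.card : ℝ) / (rep X D (x + y) : ℝ)) := by
    intro x hx l _ y hy
    have hyD := (mem_part.1 hy).1
    have hvl := (mem_part.1 hy).2
    have h1 : (0 : ℝ) < rep X (part v D l) (x + y) := by exact_mod_cast rep_pos hx hy
    have h2 : (0 : ℝ) < rep X D (x + y) := by exact_mod_cast rep_pos hx hyD
    have h3 : (0 : ℝ) < D.card := by exact_mod_cast card_pos.2 ⟨y, hyD⟩
    have h4 : (0 : ℝ) < (part v D l).card := by exact_mod_cast card_pos.2 ⟨y, hy⟩
    have h5 : 0 < Q l (x + y) := by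
      have := hQp x hx y hyD
      rwa [hvl] at this
    have h6 := Real.log_le_sub_one_of_pos (show 0 <
      Q l (x + y) * (rep X D (x + y) : ℝ) / (rep X (part v D l) (x + y) : ℝ) by positivity)
    rw [Real.log_div (by positivity) h1.ne', Real.log_mul h5.ne' h2.ne'] at h6
    rw [hvl, Real.log_div h3.ne' h2.ne', Real.log_div h4.ne' h1.ne']
    linarith
  have hcorr : ∑ l ∈ range N, ∑ x ∈ X, ∑ y ∈ part v D l,
      (Q l (x + y) * (rep X D (x + y) : ℝ) / (rep X (part v D l) (x + y) : ℝ) - 1) ≤ 0 := by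
    have h1 : ∀ l ∈ range N, ∑ x ∈ X, ∑ y ∈ part v D l,
        (Q l (x + y) * (rep X D (x + y) : ℝ) / (rep X (part v D l) (x + y) : ℝ) - 1) ≤
        ∑ s ∈ S, Q l s * (rep X D s : ℝ) - X.card * (part v D l).card := by
      intro l _
      simp_rw [sum_sub_distrib]
      rw [sum_pairs X (part v D l)
        (fun s => Q l s * (rep X D s : ℝ) / (rep X (part v D l) s : ℝ)) (hSl l)]
      have h3 : ∑ _x ∈ X, ∑ _y ∈ part v D l, (1 : ℝ) = X.card * (part v D l).card := by
        simp
      rw [h3]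
      apply sub_le_sub_right
      apply sum_le_sum
      intro s _
      rcases Nat.eq_zero_or_pos (rep X (part v D l) s) with h | h
      · rw [h]
        simp only [Nat.cast_zero, zero_mul]
        exact mul_nonneg (hQ0 l s) (by positivity)
      · have h' : (0 : ℝ) < rep X (part v D l) s := by exact_mod_cast h
        rw [mul_div_cancel₀ _ h'.ne']
    refine (sum_le_sum h1).trans ?_
    rw [sum_sub_distrib, sum_comm]
    have h2 : ∑ s ∈ S, ∑ l ∈ range N, Q l s * (rep X D s : ℝ) ≤ ∑ s ∈ S, (rep X D s : ℝ) := by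
      apply sum_le_sum
      intro s _
      rw [← sum_mul]
      calc (∑ l ∈ range N, Q l s) * (rep X D s : ℝ) ≤ 1 * (rep X D s : ℝ) :=
            mul_le_mul_of_nonneg_right (hQ1 s) (by positivity)
        _ = _ := one_mul _
    have h3 : ∑ s ∈ S, (rep X D s : ℝ) = X.card * D.card := sum_rep X D hSD
    have h4 : ∑ l ∈ range N, (X.card : ℝ) * (part v D l).card = X.card * D.card := by
      rw [← mul_sum, ← card_part hv]
    linarith
  -- assemble
  have hJ : J X D = ∑ x ∈ X, ∑ l ∈ range N, ∑ y ∈ part v D l,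
      Real.log ((D.card : ℝ) / (rep X D (x + y) : ℝ)) := by
    unfold J
    apply sum_congr rfl
    intro x _
    exact sum_part hv (fun y => Real.log ((D.card : ℝ) / (rep X D (x + y) : ℝ)))
  have hlow : ∑ x ∈ X, ∑ l ∈ range N, ∑ y ∈ part v D l,
      (Real.log (((part v D l).card : ℝ) / (rep X (part v D l) (x + y) : ℝ)) +
        (Real.log D.card - Real.log (part v D l).card) +
        Real.log (Q (v y) (x + y)) -
          (Q l (x + y) * (rep X D (x + y) : ℝ) / (rep X (part v D l) (x + y) : ℝ) - 1)) ≤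
      J X D := by
    rw [hJ]
    apply sum_le_sum
    intro x hx
    apply sum_le_sum
    intro l hl
    apply sum_le_sum
    intro y hy
    exact hone x hx l hl y hy
  have e1 : ∑ x ∈ X, ∑ l ∈ range N, ∑ y ∈ part v D l,
      Real.log (((part v D l).card : ℝ) / (rep X (part v D l) (x + y) : ℝ)) =
      ∑ l ∈ range N, J X (part v D l) := by
    rw [sum_comm]
    rfl
  have e2 : ∑ _x ∈ X, ∑ l ∈ range N, ∑ _y ∈ part v D l,
      (Real.log D.card - Real.log (part v D l).card) =
      X.card * (D.card * Real.log D.card -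
        ∑ l ∈ range N, ((part v D l).card : ℝ) * Real.log (part v D l).card) := by
    rw [sum_const, nsmul_eq_mul]
    congr 1
    rw [card_part hv, sum_mul, ← sum_sub_distrib]
    apply sum_congr rfl
    intro l _
    rw [sum_const, nsmul_eq_mul]
    ring
  have e3 : ∑ x ∈ X, ∑ l ∈ range N, ∑ y ∈ part v D l, Real.log (Q (v y) (x + y)) =
      ∑ x ∈ X, ∑ y ∈ D, Real.log (Q (v y) (x + y)) := by
    apply sum_congr rfl
    intro x _
    exact (sum_part hv (fun y => Real.log (Q (v y) (x + y)))).symm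
  have e4 : ∑ x ∈ X, ∑ l ∈ range N, ∑ y ∈ part v D l,
      (Q l (x + y) * (rep X D (x + y) : ℝ) / (rep X (part v D l) (x + y) : ℝ) - 1) ≤ 0 := by
    rw [sum_comm]
    exact hcorr
  have e5 : ∑ x ∈ X, ∑ l ∈ range N, ∑ y ∈ part v D l,
      (Real.log (((part v D l).card : ℝ) / (rep X (part v D l) (x + y) : ℝ)) +
        (Real.log D.card - Real.log (part v D l).card) +
        Real.log (Q (v y) (x + y)) -
          (Q l (x + y) * (rep X D (x + y) : ℝ) / (rep X (part v D l) (x + y) : ℝ) - 1)) =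
      ∑ x ∈ X, ∑ l ∈ range N, ∑ y ∈ part v D l,
        Real.log (((part v D l).card : ℝ) / (rep X (part v D l) (x + y) : ℝ)) +
      ∑ _x ∈ X, ∑ l ∈ range N, ∑ _y ∈ part v D l,
        (Real.log D.card - Real.log (part v D l).card) +
      ∑ x ∈ X, ∑ l ∈ range N, ∑ y ∈ part v D l, Real.log (Q (v y) (x + y)) -
      ∑ x ∈ X, ∑ l ∈ range N, ∑ y ∈ part v D l,
        (Q l (x + y) * (rep X D (x + y) : ℝ) / (rep X (part v D l) (x + y) : ℝ) - 1) := by
    simp only [← sum_add_distrib, ← sum_sub_distrib]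
  rw [e5, e1, e2, e3] at hlow
  linarith

end Pool.Agent.Helper2.G
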