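import Pool.Agent.Helper2.GSpread

set_option autoImplicit false

/-!
The cost of revealing the valuation at a prime when the remaining part is spread.
-/

open Finset

namespace Pool.Agent.Helper2.G

open Pool.Agent.Helper2.F

/-- counting the errors for one `x` -/
theorem err_count {g : ℕ} {v : ℤ → ℕ} {D X : Finset ℤ} {l₁ : ℕ} {T β : ℝ} (hX : X.Nonempty)
    (hT0 : 0 ≤ T) (hβ0 : 0 ≤ β) (bad : ℤ → Prop) [DecidablePred bad]
    (hspread : ∀ l a, (((part v D l).filter (fun y => (g : ℤ) ^ (l + 1) ∣ y - a)).card : ℝ) ≤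
      β * (part v D l).card + ((part v D l).filter bad).card) (x : ℤ)
    [DecidablePred fun y => v y < l₁ ∧ pass g (typ g X l₁ T) (x + y) (v y + 1)] :
    ((D.filter (fun y => v y < l₁ ∧ pass g (typ g X l₁ T) (x + y) (v y + 1))).card : ℝ) ≤
      T * (β * D.card + (D.filter bad).card) := by
  classical
  set I := (typ g X l₁ T).image (fun x => x % (g : ℤ) ^ l₁) with hI
  have hIc : (I.card : ℝ) ≤ T := card_res hX hT0
  set E := D.filter (fun y => v y < l₁ ∧ pass g (typ g X l₁ T) (x + y) (v y + 1)) with hE
  have h1 : (E.card : ℝ) = ∑ l ∈ range l₁, ((part v E l).card : ℝ) :=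
    card_part (fun y hy => (mem_filter.1 hy).2.1)
  have h2 : ∀ l ∈ range l₁, ((part v E l).card : ℝ) ≤
      T * (β * (part v D l).card + ((part v D l).filter bad).card) := by
    intro l hl
    have hl' := mem_range.1 hl
    have h3 : part v E l ⊆ I.biUnion (fun r =>
        (part v D l).filter (fun y => (g : ℤ) ^ (l + 1) ∣ y - (r - x))) := by
      intro y hy
      obtain ⟨hyE, hvl⟩ := mem_part.1 hy
      obtain ⟨hyD, _, x', hx', hd⟩ := mem_filter.1 hyE
      rw [mem_biUnion]
      refine ⟨x' % (g : ℤ) ^ l₁, mem_image_of_mem _ hx', ?_⟩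
      rw [mem_filter]
      refine ⟨mem_part.2 ⟨hyD, hvl⟩, ?_⟩
      rw [hvl] at hd
      have h4 : (g : ℤ) ^ (l + 1) ∣ x' - x' % (g : ℤ) ^ l₁ := by
        refine (pow_dvd_pow _ (show l + 1 ≤ l₁ by omega)).trans ?_
        exact Int.dvd_self_sub_emod
      have h5 := dvd_add hd h4
      have e : x + y - x' + (x' - x' % (g : ℤ) ^ l₁) = y - (x' % (g : ℤ) ^ l₁ - x) := by ring
      rwa [e] at h5
    have h4 : ((part v E l).card : ℝ) ≤ ∑ r ∈ I,
        (((part v D l).filter (fun y => (g : ℤ) ^ (l + 1) ∣ y - (r - x))).card : ℝ) := by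
      exact_mod_cast (card_le_card h3).trans card_biUnion_le
    refine h4.trans ?_
    refine (sum_le_sum (fun r _ => hspread l (r - x))).trans ?_
    rw [sum_const, nsmul_eq_mul]
    apply mul_le_mul_of_nonneg_right hIc
    positivity
  rw [h1]
  refine (sum_le_sum h2).trans ?_
  rw [← mul_sum, sum_add_distrib, ← mul_sum]
  apply mul_le_mul_of_nonneg_left _ hT0
  apply add_le_add
  · apply mul_le_mul_of_nonneg_left _ hβ0
    have h3 : ∑ l ∈ range l₁, (part v D l).card ≤ D.card := by
      rw [← card_biUnion]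
      · apply card_le_card
        intro y hy
        rw [mem_biUnion] at hy
        obtain ⟨l, _, hl⟩ := hy
        exact (mem_part.1 hl).1
      · intro r _ r' _ hne
        rw [Function.onFun, disjoint_left]
        intro y h6 h7
        exact hne ((mem_part.1 h6).2.symm.trans (mem_part.1 h7).2)
    exact_mod_cast h3
  · have h3 : ∑ l ∈ range l₁, ((part v D l).filter bad).card ≤ (D.filter bad).card := by
      rw [← card_biUnion]
      · apply card_le_card
        intro y hy
        rw [mem_biUnion] at hy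
        obtain ⟨l, _, hl⟩ := hy
        rw [mem_filter] at hl ⊢
        exact ⟨(mem_part.1 hl.1).1, hl.2⟩
      · intro r _ r' _ hne
        rw [Function.onFun, disjoint_left]
        intro y h6 h7
        exact hne ((mem_part.1 (mem_filter.1 h6).1).2.symm.trans
          (mem_part.1 (mem_filter.1 h7).1).2)
    exact_mod_cast h3

end Pool.Agent.Helper2.G
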