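import Pool.Agent.Helper2.GNodeM

set_option autoImplicit false

/-!
The cost of revealing the valuation at a prime when the remaining part is spread: the node.
-/

open Finset

namespace Pool.Agent.Helper2.G

open Pool.Agent.Helper2.F

theorem exists_level (v : ℤ → ℕ) (D : Finset ℤ) {κ : ℝ} (hκ0 : 0 ≤ κ) (hκ1 : κ ≤ 1) :
    ∃ l₁ : ℕ, κ * D.card ≤ ((D.filter (fun y => l₁ ≤ v y)).card : ℝ) ∧
      ((D.filter (fun y => l₁ < v y)).card : ℝ) ≤ κ * D.card := by
  classical
  set N := D.sup v with hN
  set p : ℕ → Prop := fun l => κ * D.card ≤ ((D.filter (fun y => l ≤ v y)).card : ℝ) with hp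
  have h0 : p 0 := by
    have h1 : D.filter (fun y => 0 ≤ v y) = D := filter_true_of_mem (fun y _ => Nat.zero_le _)
    show κ * D.card ≤ ((D.filter (fun y => 0 ≤ v y)).card : ℝ)
    rw [h1]
    have : (0 : ℝ) ≤ D.card := by positivity
    nlinarith
  refine ⟨Nat.findGreatest p N, Nat.findGreatest_spec (Nat.zero_le N) h0, ?_⟩
  rcases Nat.lt_or_ge (Nat.findGreatest p N) N with h | h
  · have h1 : ¬ p (Nat.findGreatest p N + 1) :=
      Nat.findGreatest_is_greatest (Nat.lt_succ_self _) h
    exact (not_le.1 h1).le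
  · have h1 : D.filter (fun y => Nat.findGreatest p N < v y) = ∅ := by
      apply filter_false_of_mem
      intro y hy
      have := le_sup (f := v) hy
      omega
    rw [h1]
    simp only [card_empty, Nat.cast_zero]
    positivity

/-- few atypical elements -/
theorem card_atyp {g : ℕ} {X : Finset ℤ} {l : ℕ} {h₁ δ : ℝ} (hh : 0 < h₁) (hδ : 0 < δ)
    (hF : ∑ x ∈ X, (Real.log X.card - Real.log (nn g X l x)) ≤ h₁ * X.card) :
    ((X \ typ g X l (Real.exp (h₁ / δ))).card : ℝ) ≤ δ * X.card := by
  classical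
  have h1 : ∀ x ∈ X \ typ g X l (Real.exp (h₁ / δ)),
      h₁ / δ ≤ Real.log X.card - Real.log (nn g X l x) := by
    intro x hx
    obtain ⟨hxX, hx2⟩ := mem_sdiff.1 hx
    have hn : (0 : ℝ) < nn g X l x := by exact_mod_cast nn_pos l hxX
    have h2 : ¬ ((X.card : ℝ) ≤ Real.exp (h₁ / δ) * nn g X l x) := by
      intro h
      exact hx2 (mem_typ.2 ⟨hxX, h⟩)
    push Not at h2
    have h3 := Real.log_le_log (by positivity) h2.le
    rw [Real.log_mul (by positivity) hn.ne', Real.log_exp] at h3
    linarith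
  have h2 := sum_le_sum h1
  rw [sum_const, nsmul_eq_mul] at h2
  have h3 : ∑ x ∈ X \ typ g X l (Real.exp (h₁ / δ)),
      (Real.log X.card - Real.log (nn g X l x)) ≤
      ∑ x ∈ X, (Real.log X.card - Real.log (nn g X l x)) := by
    apply sum_le_sum_of_subset_of_nonneg sdiff_subset
    intro x hx _
    have hn : (0 : ℝ) < nn g X l x := by exact_mod_cast nn_pos l hx
    have h4 : (nn g X l x : ℝ) ≤ X.card := by exact_mod_cast nn_le g X l x
    have := Real.log_le_log hn h4
    linarith
  have h4 : ((X \ typ g X l (Real.exp (h₁ / δ))).card : ℝ) * (h₁ / δ) ≤ h₁ * X.card := by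
    linarith
  have h5 : h₁ * ((X \ typ g X l (Real.exp (h₁ / δ))).card : ℝ) ≤ h₁ * (δ * X.card) := by
    have h6 := mul_le_mul_of_nonneg_right h4 hδ.le
    have h7 : ((X \ typ g X l (Real.exp (h₁ / δ))).card : ℝ) * (h₁ / δ) * δ =
        h₁ * ((X \ typ g X l (Real.exp (h₁ / δ))).card : ℝ) := by
      field_simp
    rw [h7] at h6
    linarith
  exact le_of_mul_le_mul_left h5 hh

/-- the guess is right unless an error occurs -/
theorem guess_ok {g : ℕ} {v : ℤ → ℕ} {X : Finset ℤ} {l₁ : ℕ} {T : ℝ} {x y : ℤ}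
    (hx : x ∈ typ g X l₁ T) (hy : (g : ℤ) ^ v y ∣ y) (hl : v y ≤ l₁)
    (hne : ¬ (v y < l₁ ∧ pass g (typ g X l₁ T) (x + y) (v y + 1))) :
    guess g (typ g X l₁ T) l₁ (x + y) = v y := by
  apply guess_eq hl
  · exact ⟨x, hx, by simpa using hy⟩
  · rcases hl.eq_or_lt with h | h
    · exact Or.inl h
    · exact Or.inr (fun hp => hne ⟨h, hp⟩)

open scoped Classical in
theorem errors_le {g : ℕ} {v : ℤ → ℕ} {D X : Finset ℤ} (hX : X.Nonempty) {l₁ : ℕ}
    (hv : ∀ y ∈ D, (g : ℤ) ^ v y ∣ y) (bad : ℤ → Prop) {T κ δ β : ℝ} (hT0 : 0 ≤ T)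
    (hβ0 : 0 ≤ β)
    (hspread : ∀ l a, (((part v D l).filter (fun y => (g : ℤ) ^ (l + 1) ∣ y - a)).card : ℝ) ≤
      β * (part v D l).card + ((part v D l).filter bad).card)
    (hκ : ((D.filter (fun y => l₁ < v y)).card : ℝ) ≤ κ * D.card)
    (hδ : ((X \ typ g X l₁ T).card : ℝ) ≤ δ * X.card) :
    ∑ x ∈ X, ((D.filter (fun y => guess g (typ g X l₁ T) l₁ (x + y) ≠ v y)).card : ℝ) ≤
      X.card * ((δ + κ + T * β) * D.card + T * (D.filter bad).card) := by
  set Y := typ g X l₁ T with hY
  have hYX : Y ⊆ X := by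
    intro x hx
    exact (mem_typ.1 hx).1
  have h1 : ∀ x ∈ Y, ((D.filter (fun y => guess g Y l₁ (x + y) ≠ v y)).card : ℝ) ≤
      κ * D.card + T * (β * D.card + (D.filter bad).card) := by
    intro x hx
    have h2 : D.filter (fun y => guess g Y l₁ (x + y) ≠ v y) ⊆
        D.filter (fun y => l₁ < v y) ∪
        D.filter (fun y => v y < l₁ ∧ pass g (typ g X l₁ T) (x + y) (v y + 1)) := by
      intro y hy
      obtain ⟨hyD, hne⟩ := mem_filter.1 hy
      rw [mem_union, mem_filter, mem_filter]
      by_contra hcon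
      push Not at hcon
      have h3 : v y ≤ l₁ := by
        by_contra h4
        push Not at h4
        exact absurd h4 (not_lt.2 (hcon.1 hyD))
      apply hne
      apply guess_ok hx (hv y hyD) h3
      rintro ⟨h5, h6⟩
      exact hcon.2 hyD h5 h6
    have h3 : ((D.filter (fun y => guess g Y l₁ (x + y) ≠ v y)).card : ℝ) ≤
        (D.filter (fun y => l₁ < v y)).card +
        (D.filter (fun y => v y < l₁ ∧ pass g (typ g X l₁ T) (x + y) (v y + 1))).card := by
      exact_mod_cast (card_le_card h2).trans (card_union_le _ _)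
    have h4 := err_count (v := v) (D := D) (l₁ := l₁) hX hT0 hβ0 bad hspread x
    linarith
  have h2 : ∀ x ∈ X \ Y, ((D.filter (fun y => guess g Y l₁ (x + y) ≠ v y)).card : ℝ) ≤
      D.card := by
    intro x _
    exact_mod_cast card_filter_le _ _
  rw [← sum_sdiff hYX]
  have h3 := sum_le_sum h1
  have h4 := sum_le_sum h2
  rw [sum_const, nsmul_eq_mul] at h3 h4
  have h5 : (Y.card : ℝ) ≤ X.card := by exact_mod_cast card_le_card hYX
  have h6 : (Y.card : ℝ) * (κ * D.card + T * (β * D.card + (D.filter bad).card)) ≤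
      X.card * (κ * D.card + T * (β * D.card + (D.filter bad).card)) := by
    apply mul_le_mul_of_nonneg_right h5
    have h7 : (0 : ℝ) ≤ κ * D.card := le_trans (by positivity) hκ
    positivity
  have h7 : ((X \ Y).card : ℝ) * D.card ≤ δ * X.card * D.card :=
    mul_le_mul_of_nonneg_right hδ (by positivity)
  nlinarith

open scoped Classical in
theorem nodeM {g : ℕ} {v : ℤ → ℕ} {D X : Finset ℤ} (hX : X.Nonempty) {N : ℕ} (hN : 1 ≤ N)
    (hvN : ∀ y ∈ D, v y < N) (hv : ∀ y ∈ D, (g : ℤ) ^ v y ∣ y) (bad : ℤ → Prop)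
    {lam κ q δ h₁ β : ℝ} (hlam : 0 ≤ lam) (hκ0 : 0 ≤ κ) (hκ1 : κ ≤ 1) (hq0 : 0 < q) (hq1 : q < 1)
    (hδ : 0 < δ) (hh : 0 < h₁) (hβ0 : 0 ≤ β) (hlog : Real.log N ≤ lam * κ * h₁)
    (hspread : ∀ l a, (((part v D l).filter (fun y => (g : ℤ) ^ (l + 1) ∣ y - a)).card : ℝ) ≤
      β * (part v D l).card + ((part v D l).filter bad).card) :
    CostOK g v D X ((Real.log (1 / (1 - q)) + (δ + κ + Real.exp (h₁ / δ) * β) *
      Real.log (N / q)) * D.card +
        Real.exp (h₁ / δ) * Real.log (N / q) * (D.filter bad).card) lam := by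
  have hNr : (1 : ℝ) ≤ N := by exact_mod_cast hN
  have hlogN : 0 ≤ Real.log N := Real.log_nonneg hNr
  have hNq : 1 ≤ (N : ℝ) / q := by
    rw [le_div_iff₀ hq0]; linarith
  have hlogNq : 0 ≤ Real.log (N / q) := Real.log_nonneg hNq
  have hlogN' : Real.log N ≤ Real.log (N / q) := by
    apply Real.log_le_log (by linarith)
    rw [le_div_iff₀ hq0]
    nlinarith
  have hlq : 0 ≤ Real.log (1 / (1 - q)) := by
    apply Real.log_nonneg
    rw [le_div_iff₀ (by linarith)]
    linarith
  have hFnn : ∀ l, 0 ≤ ∑ x ∈ X, (Real.log X.card - Real.log (nn g X l x)) := by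
    intro l
    apply sum_nonneg
    intro x hx
    have hn : (0 : ℝ) < nn g X l x := by exact_mod_cast nn_pos l hx
    have h4 : (nn g X l x : ℝ) ≤ X.card := by exact_mod_cast nn_le g X l x
    have := Real.log_le_log hn h4
    linarith
  have hFmono : ∀ l l', l ≤ l' → ∑ x ∈ X, (Real.log X.card - Real.log (nn g X l x)) ≤
      ∑ x ∈ X, (Real.log X.card - Real.log (nn g X l' x)) := by
    intro l l' hll
    apply sum_le_sum
    intro x hx
    have hn : (0 : ℝ) < nn g X l' x := by exact_mod_cast nn_pos l' hx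
    have h4 : (nn g X l' x : ℝ) ≤ nn g X l x := by exact_mod_cast nn_anti g X hll x
    have := Real.log_le_log hn h4
    linarith
  obtain ⟨l₁, hl1, hl2⟩ := exists_level v D hκ0 hκ1
  rcases le_or_gt (h₁ * X.card) (∑ x ∈ X, (Real.log X.card - Real.log (nn g X l₁ x))) with
    hcase | hcase
  · -- case I
    refine ⟨N, fun _ _ => 1 / (N : ℝ), hvN, ?_, ?_, ?_, ?_⟩
    · intro l s; positivity
    · intro s
      rw [sum_const, card_range, nsmul_eq_mul, mul_one_div_cancel (by positivity)]
    · intro x _ y _; positivity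
    · rw [sum_const, sum_const, nsmul_eq_mul, nsmul_eq_mul, one_div, Real.log_inv]
      have h1 : (D.card : ℝ) * (Real.log N * X.card) ≤
          lam * ∑ y ∈ D, ∑ x ∈ X, (Real.log X.card - Real.log (nn g X (v y) x)) := by
        have h2 : ∑ y ∈ D.filter (fun y => l₁ ≤ v y), h₁ * (X.card : ℝ) ≤
            ∑ y ∈ D.filter (fun y => l₁ ≤ v y),
              ∑ x ∈ X, (Real.log X.card - Real.log (nn g X (v y) x)) := by
          apply sum_le_sum
          intro y hy
          exact hcase.trans (hFmono _ _ (mem_filter.1 hy).2)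
        have h3 : ∑ y ∈ D.filter (fun y => l₁ ≤ v y),
              ∑ x ∈ X, (Real.log X.card - Real.log (nn g X (v y) x)) ≤
            ∑ y ∈ D, ∑ x ∈ X, (Real.log X.card - Real.log (nn g X (v y) x)) := by
          apply sum_le_sum_of_subset_of_nonneg (filter_subset _ _)
          intro y _ _
          exact hFnn _
        rw [sum_const, nsmul_eq_mul] at h2
        have h4 : κ * D.card * (h₁ * X.card) ≤
            ((D.filter (fun y => l₁ ≤ v y)).card : ℝ) * (h₁ * X.card) :=
          mul_le_mul_of_nonneg_right hl1 (by positivity)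
        have h5 := mul_le_mul_of_nonneg_left (h4.trans (h2.trans h3)) hlam
        have h6 : Real.log N * ((D.card : ℝ) * X.card) ≤ lam * κ * h₁ * ((D.card : ℝ) * X.card) :=
          mul_le_mul_of_nonneg_right hlog (by positivity)
        nlinarith
      have h2 : 0 ≤ (X.card : ℝ) * ((Real.log (1 / (1 - q)) + (δ + κ + Real.exp (h₁ / δ) * β) *
        Real.log (N / q)) * D.card +
          Real.exp (h₁ / δ) * Real.log (N / q) * (D.filter bad).card) := by
        positivity
      nlinarith
  · -- case II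
    set Y := typ g X l₁ (Real.exp (h₁ / δ)) with hY
    have hat := card_atyp hh hδ hcase.le
    refine ⟨N, fun l s => (if l = guess g Y l₁ s then 1 - q else 0) + q / N, hvN, ?_, ?_, ?_, ?_⟩
    · intro l s
      have h1 : 0 ≤ q / (N : ℝ) := by positivity
      show 0 ≤ (if l = guess g Y l₁ s then 1 - q else 0) + q / N
      split_ifs <;> linarith
    · intro s
      rw [sum_add_distrib, sum_const, card_range, nsmul_eq_mul, mul_div_cancel₀ _ (by positivity),
        sum_ite_eq']
      split_ifs <;> linarith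
    · intro x _ y _
      have h1 : 0 < q / (N : ℝ) := by positivity
      show 0 < (if v y = guess g Y l₁ (x + y) then 1 - q else 0) + q / N
      split_ifs <;> linarith
    · have hterm : ∀ x ∈ X, ∀ y ∈ D,
          -Real.log ((if v y = guess g Y l₁ (x + y) then 1 - q else 0) + q / N) ≤
          Real.log (1 / (1 - q)) +
            (if guess g Y l₁ (x + y) ≠ v y then Real.log (N / q) else 0) := by
        intro x _ y _
        have h1 : 0 < q / (N : ℝ) := by positivity
        by_cases hg : v y = guess g Y l₁ (x + y)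
        · rw [if_pos hg, if_neg (by rw [hg]; simp), one_div, Real.log_inv, add_zero]
          apply neg_le_neg
          apply Real.log_le_log <;> linarith
        · rw [if_neg hg, if_pos (fun h => hg h.symm), zero_add]
          have h2 : Real.log (N / q) = -Real.log (q / N) := by
            rw [← Real.log_inv, inv_div]
          rw [h2]
          linarith
      have herr := errors_le (v := v) (D := D) hX hv bad (Real.exp_pos (h₁ / δ)).le hβ0 hspread
        hl2 hat
      rw [← hY] at herr
      have h1 : -∑ x ∈ X, ∑ y ∈ D,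
          Real.log ((if v y = guess g Y l₁ (x + y) then 1 - q else 0) + q / N) ≤
          X.card * (D.card * Real.log (1 / (1 - q))) +
          Real.log (N / q) *
            ∑ x ∈ X, ((D.filter (fun y => guess g Y l₁ (x + y) ≠ v y)).card : ℝ) := by
        rw [← sum_neg_distrib]
        have h2 : ∀ x ∈ X, -∑ y ∈ D,
            Real.log ((if v y = guess g Y l₁ (x + y) then 1 - q else 0) + q / N) ≤
            D.card * Real.log (1 / (1 - q)) + Real.log (N / q) *
              ((D.filter (fun y => guess g Y l₁ (x + y) ≠ v y)).card : ℝ) := by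
          intro x hx
          rw [← sum_neg_distrib]
          refine (sum_le_sum (hterm x hx)).trans ?_
          rw [sum_add_distrib, sum_const, nsmul_eq_mul, ← sum_filter, sum_const, nsmul_eq_mul]
          linarith
        refine (sum_le_sum h2).trans ?_
        rw [sum_add_distrib, sum_const, nsmul_eq_mul, ← mul_sum]
      have h3 := mul_le_mul_of_nonneg_left herr hlogNq
      have h4 : 0 ≤ lam * ∑ y ∈ D, ∑ x ∈ X, (Real.log X.card - Real.log (nn g X (v y) x)) := by
        apply mul_nonneg hlam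
        apply sum_nonneg
        intro y _
        exact hFnn _
      show -∑ x ∈ X, ∑ y ∈ D,
          Real.log ((if v y = guess g Y l₁ (x + y) then 1 - q else 0) + q / N) ≤ _
      refine h1.trans ?_
      nlinarith

end Pool.Agent.Helper2.G
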