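import Pool.Agent.Helper2.GMain

set_option autoImplicit false

/-!
Choice of parameters, removal of sparse fibres.
-/

open Finset

namespace Pool.Agent.Helper2.G

open Pool.Agent.Helper2.F

theorem params {ε b : ℝ} (hε : 0 < ε) (hε1 : ε ≤ 1) (hb : 1 ≤ b) :
    ∃ (lam κ q δ h₁ β : ℝ) (V : ℕ), 0 < lam ∧ lam ≤ 1 ∧ 0 ≤ κ ∧ κ ≤ 1 ∧ 0 < q ∧ q < 1 ∧ 0 < δ ∧
      0 < h₁ ∧ 0 < β ∧ Real.log ((V + 1 : ℕ) : ℝ) ≤ lam * κ * h₁ ∧ lam * b ≤ ε / 16 ∧
      Real.log (1 / lam) + 1 ≤ ε / 16 * Real.log ((V + 1 : ℕ) : ℝ) ∧ 1 ≤ V ∧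
      Real.log (1 / (1 - q)) + (δ + κ + Real.exp (h₁ / δ) * β) *
        Real.log (((V + 1 : ℕ) : ℝ) / q) ≤ ε / 16 * Real.log 2 := by
  have hlog2 : 0 < Real.log 2 := Real.log_pos (by norm_num)
  set lam : ℝ := ε / (16 * b) with hlam
  have hlam0 : 0 < lam := by positivity
  have hlam1 : lam ≤ 1 := by
    rw [hlam, div_le_one (by positivity)]
    linarith
  set C₁ : ℝ := Real.log (1 / lam) + 1 with hC₁
  have hC₁0 : 0 < C₁ := by
    have : 0 ≤ Real.log (1 / lam) := by
      apply Real.log_nonneg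
      rw [le_div_iff₀ hlam0]
      linarith
    linarith
  obtain ⟨V, hV⟩ := exists_nat_ge (Real.exp (16 * C₁ / ε))
  have hV1 : 1 ≤ V := by
    have h1 : 0 < Real.exp (16 * C₁ / ε) := Real.exp_pos _
    have h2 : (0 : ℝ) < V := lt_of_lt_of_le h1 hV
    exact_mod_cast h2
  have hVr : (0 : ℝ) < ((V + 1 : ℕ) : ℝ) := by positivity
  have hLV : 16 * C₁ / ε ≤ Real.log ((V + 1 : ℕ) : ℝ) := by
    rw [Real.le_log_iff_exp_le hVr]
    refine hV.trans ?_
    exact_mod_cast Nat.le_succ V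
  have hLV0 : 0 < Real.log ((V + 1 : ℕ) : ℝ) := lt_of_lt_of_le (by positivity) hLV
  set η : ℝ := ε * Real.log 2 / 48 with hη
  have hη0 : 0 < η := by positivity
  set q : ℝ := 1 - Real.exp (-η) with hq
  have hq1 : q < 1 := by
    have := Real.exp_pos (-η)
    linarith
  have hq0 : 0 < q := by
    have : Real.exp (-η) < 1 := Real.exp_lt_one_iff.2 (by linarith)
    linarith
  have hlq : Real.log (1 / (1 - q)) = η := by
    rw [hq, one_div, Real.log_inv]
    have : 1 - (1 - Real.exp (-η)) = Real.exp (-η) := by ring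
    rw [this, Real.log_exp, neg_neg]
  set Lq : ℝ := Real.log (((V + 1 : ℕ) : ℝ) / q) with hLq
  have hLq0 : 0 < Lq := by
    apply Real.log_pos
    rw [lt_div_iff₀ hq0]
    have : (1 : ℝ) ≤ ((V + 1 : ℕ) : ℝ) := by exact_mod_cast Nat.le_add_left 1 V
    linarith
  set δ : ℝ := min 1 (η / (2 * Lq)) with hδ
  have hδ0 : 0 < δ := lt_min one_pos (by positivity)
  have hδ1 : δ ≤ 1 := min_le_left _ _
  have hδ2 : δ * Lq ≤ η / 2 := by
    have h1 : δ ≤ η / (2 * Lq) := min_le_right _ _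
    have h2 := mul_le_mul_of_nonneg_right h1 hLq0.le
    have h3 : η / (2 * Lq) * Lq = η / 2 := by field_simp
    linarith
  set h₁ : ℝ := Real.log ((V + 1 : ℕ) : ℝ) / (lam * δ) with hh
  have hh0 : 0 < h₁ := by positivity
  set β : ℝ := η / (Real.exp (h₁ / δ) * Lq) with hβ
  have hβ0 : 0 < β := by positivity
  refine ⟨lam, δ, q, δ, h₁, β, V, hlam0, hlam1, hδ0.le, hδ1, hq0, hq1, hδ0, hh0, hβ0, ?_, ?_, ?_,
    hV1, ?_⟩
  · rw [hh]
    apply le_of_eq
    field_simp
  · rw [hlam]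
    apply le_of_eq
    field_simp
  · have h1 := mul_le_mul_of_nonneg_left hLV (show 0 ≤ ε / 16 by positivity)
    have h2 : ε / 16 * (16 * C₁ / ε) = C₁ := by field_simp
    linarith
  · rw [hlq]
    have h1 : Real.exp (h₁ / δ) * β * Lq = η := by
      rw [hβ]; field_simp
    have h2 : (δ + δ + Real.exp (h₁ / δ) * β) * Lq = 2 * (δ * Lq) +
        Real.exp (h₁ / δ) * β * Lq := by ring
    rw [h2, h1]
    have h3 : ε / 16 * Real.log 2 = 3 * η := by rw [hη]; ring
    rw [h3]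
    linarith

theorem exists_cut (S : Finset ℕ) (h0 : 0 ∉ S) (m : ℕ) (hm : m ≤ S.card) :
    ∃ Q : ℕ, (S.filter (fun p => p ≤ Q)).card = m := by
  induction m with
  | zero =>
    refine ⟨0, ?_⟩
    rw [card_eq_zero]
    apply filter_false_of_mem
    intro p hp h
    have : p = 0 := by omega
    exact h0 (this ▸ hp)
  | succ m ih =>
    obtain ⟨Q, hQ⟩ := ih (by omega)
    have hne : (S.filter (fun p => ¬ p ≤ Q)).Nonempty := by
      rw [← card_pos]
      have := card_filter_add_card_filter_not (s := S) (fun p => p ≤ Q)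
      omega
    set p₀ := (S.filter (fun p => ¬ p ≤ Q)).min' hne with hp₀
    have hp₀m : p₀ ∈ S.filter (fun p => ¬ p ≤ Q) := min'_mem _ _
    obtain ⟨hp₀S, hp₀Q⟩ := mem_filter.1 hp₀m
    refine ⟨p₀, ?_⟩
    have h1 : S.filter (fun p => p ≤ p₀) = insert p₀ (S.filter (fun p => p ≤ Q)) := by
      ext p
      rw [mem_filter, mem_insert, mem_filter]
      constructor
      · rintro ⟨h2, h3⟩
        by_cases h4 : p ≤ Q
        · exact Or.inr ⟨h2, h4⟩
        · left
          have : p₀ ≤ p := min'_le _ _ (mem_filter.2 ⟨h2, h4⟩)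
          omega
      · rintro (h | ⟨h2, h3⟩)
        · rw [h]; exact ⟨hp₀S, le_refl _⟩
        · exact ⟨h2, by omega⟩
    rw [h1, card_insert_of_notMem, hQ]
    rw [mem_filter]
    rintro ⟨_, h⟩
    exact hp₀Q h

theorem exists_cut' (S : Finset ℕ) (h0 : 0 ∉ S) (m : ℕ) :
    ∃ Q : ℕ, (S.filter (fun p => p ≤ Q)).card ≤ m ∧
      (S.filter (fun p => ¬ p ≤ Q) = ∅ ∨ (S.filter (fun p => p ≤ Q)).card = m) := by
  rcases le_or_gt m S.card with h | h
  · obtain ⟨Q, hQ⟩ := exists_cut S h0 m h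
    exact ⟨Q, hQ.le, Or.inr hQ⟩
  · refine ⟨S.sup id, (card_filter_le _ _).trans h.le, Or.inl ?_⟩
    apply filter_false_of_mem
    intro p hp
    rw [not_not]
    exact le_sup (f := id) hp

theorem exists_setup {n : ℕ} (hn : n ≠ 0) {A : Finset ℤ} (hA : ∀ y ∈ A, 0 < y ∧ y ∣ (n : ℤ))
    (V m : ℕ) : ∃ (R M Lg : Finset ℕ) (Q₀ : ℕ), Setup n A R M Lg V Q₀ ∧ R.card ≤ m ∧
      (M = ∅ ∨ R.card = m) ∧
      (∏ p ∈ Lg ∪ M, (n.factorization p + 1)) * (∏ q ∈ R, (n.factorization q + 1)) =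
        n.divisors.card ∧
      (V + 1) ^ Lg.card ≤ n.divisors.card ∧ 2 ^ M.card ≤ n.divisors.card ∧
      2 ^ R.card ≤ ∏ q ∈ R, (n.factorization q + 1) ∧
      ∏ q ∈ R, (n.factorization q + 1) ≤ (V + 1) ^ R.card := by
  set S := n.primeFactors.filter (fun p => n.factorization p ≤ V) with hS
  set Lg := n.primeFactors.filter (fun p => ¬ n.factorization p ≤ V) with hLg
  have hSp : ∀ p ∈ S, p.Prime := fun p hp => Nat.prime_of_mem_primeFactors (mem_filter.1 hp).1
  obtain ⟨Q, hQ1, hQ2⟩ := exists_cut' S (fun h => Nat.not_prime_zero (hSp 0 h)) m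
  set R := S.filter (fun p => p ≤ Q) with hR
  set M := S.filter (fun p => ¬ p ≤ Q) with hM
  have hRM : Disjoint R M := disjoint_filter_filter_not _ _ _
  have hRM' : R ∪ M = S := filter_union_filter_not_eq _ _
  have hSL : Disjoint S Lg := disjoint_filter_filter_not _ _ _
  have hSL' : S ∪ Lg = n.primeFactors := filter_union_filter_not_eq _ _
  have hRS : R ⊆ S := filter_subset _ _
  have hMS : M ⊆ S := filter_subset _ _
  have hML : Disjoint M Lg := hSL.mono_left hMS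
  have hRL : Disjoint R Lg := hSL.mono_left hRS
  have hcard : n.divisors.card = (∏ q ∈ R, (n.factorization q + 1)) *
      (∏ q ∈ M, (n.factorization q + 1)) * (∏ q ∈ Lg, (n.factorization q + 1)) := by
    rw [Nat.card_divisors hn, ← hSL', prod_union hSL, ← hRM', prod_union hRM]
  have hpos : ∀ T : Finset ℕ, 1 ≤ ∏ q ∈ T, (n.factorization q + 1) := by
    intro T
    exact Nat.one_le_iff_ne_zero.2 (prod_ne_zero_iff.2 (fun q _ => by omega))
  have h2 : ∀ T : Finset ℕ, T ⊆ n.primeFactors → 2 ^ T.card ≤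
      ∏ q ∈ T, (n.factorization q + 1) := by
    intro T hT
    rw [← prod_const]
    apply prod_le_prod'
    intro q hq
    have h3 : 0 < n.factorization q :=
      (Nat.prime_of_mem_primeFactors (hT hq)).factorization_pos_of_dvd hn
        (Nat.dvd_of_mem_primeFactors (hT hq))
    omega
  refine ⟨R, M, Lg, Q, ⟨hn, hA, ?_, ?_, ?_, hML, ?_, ?_, ?_⟩, hQ1, hQ2, ?_, ?_, ?_, ?_, ?_⟩
  · intro q hq
    exact ⟨hSp q (hRS hq), (mem_filter.1 hq).2⟩
  · intro q hq
    exact ⟨hSp q (hMS hq), not_le.1 (mem_filter.1 hq).2⟩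
  · intro q hq
    exact Nat.prime_of_mem_primeFactors (mem_filter.1 hq).1
  · intro q hq
    exact (mem_filter.1 (hRS hq)).2
  · intro q hq
    exact (mem_filter.1 (hMS hq)).2
  · intro p h3 h4 h5
    have h6 : p ∉ n.primeFactors := by
      rw [← hSL', ← hRM', mem_union, mem_union]
      tauto
    rw [← Nat.support_factorization] at h6
    exact Finsupp.notMem_support_iff.1 h6
  · rw [hcard, prod_union hML.symm]
    ring
  · rw [hcard]
    calc (V + 1) ^ Lg.card = ∏ _q ∈ Lg, (V + 1) := by rw [prod_const]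
      _ ≤ ∏ q ∈ Lg, (n.factorization q + 1) := by
        apply prod_le_prod'
        intro q hq
        have := (mem_filter.1 hq).2
        omega
      _ ≤ _ := Nat.le_mul_of_pos_left _ (Nat.mul_pos (hpos R) (hpos M))
  · rw [hcard]
    calc 2 ^ M.card ≤ ∏ q ∈ M, (n.factorization q + 1) := h2 M (hMS.trans (filter_subset _ _))
      _ ≤ (∏ q ∈ R, (n.factorization q + 1)) * (∏ q ∈ M, (n.factorization q + 1)) :=
        Nat.le_mul_of_pos_left _ (hpos R)
      _ ≤ _ := Nat.le_mul_of_pos_right _ (hpos Lg)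
  · exact h2 R (hRS.trans (filter_subset _ _))
  · rw [← prod_const]
    apply prod_le_prod'
    intro q hq
    have := (mem_filter.1 (hRS hq)).2
    omega

variable {n : ℕ} {A : Finset ℤ} {R M Lg : Finset ℕ} {V Q₀ : ℕ}

theorem Setup.restrict (S : Setup n A R M Lg V Q₀) {A' : Finset ℤ} (h : A' ⊆ A) :
    Setup n A' R M Lg V Q₀ :=
  { S with hA := fun y hy => S.hA y (h hy) }

open scoped Classical in
/-- few elements have a small fibre -/
theorem Setup.removal (S : Setup n A R M Lg V Q₀) {K : ℝ} (hK : 0 ≤ K) :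
    ((A.filter (fun y => ((fib (Lg ∪ M) A y).card : ℝ) < K)).card : ℝ) ≤
      ((∏ p ∈ Lg ∪ M, (n.factorization p + 1) : ℕ) : ℝ) * K := by
  set P := Lg ∪ M with hP
  set A₀ := A.filter (fun y => ((fib P A y).card : ℝ) < K) with hA₀
  have h1 : (A₀.card : ℝ) = ∑ k ∈ A₀.image (key P), ((A₀.filter (fun y => key P y = k)).card : ℝ) := by
    rw [card_eq_sum_card_fiberwise (f := key P) (t := A₀.image (key P))
      (fun y hy => mem_image_of_mem _ hy)]
    push_cast
    rfl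
  rw [h1]
  have h2 : ∀ k ∈ A₀.image (key P), ((A₀.filter (fun y => key P y = k)).card : ℝ) ≤ K := by
    intro k hk
    obtain ⟨y, hy, rfl⟩ := mem_image.1 hk
    have h3 := (mem_filter.1 hy).2
    refine le_trans ?_ h3.le
    apply Nat.cast_le.2
    apply card_le_card
    intro y' hy'
    obtain ⟨h4, h5⟩ := mem_filter.1 hy'
    exact mem_fib.2 ⟨(mem_filter.1 h4).1, h5⟩
  refine (sum_le_sum h2).trans ?_
  rw [sum_const, nsmul_eq_mul]
  apply mul_le_mul_of_nonneg_right _ hK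
  have h3 : (A₀.image (key P)).card ≤ (A.image (key P)).card :=
    card_le_card (image_subset_image (filter_subset _ _))
  exact_mod_cast h3.trans (S.card_keys P)

end Pool.Agent.Helper2.G
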