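import Pool.Agent.Helper2.GFinal

set_option autoImplicit false

/-!
Sums with dense sets of divisors: final form.
-/

open Finset

namespace Pool.Agent.Helper2.G

open Pool.Agent.Helper2.F

theorem card_le_divisors {n : ℕ} (hn : n ≠ 0) {A : Finset ℤ}
    (hA : ∀ y ∈ A, 0 < y ∧ y ∣ (n : ℤ)) : A.card ≤ n.divisors.card := by
  apply card_le_card_of_injOn (fun y => y.natAbs)
  · intro y hy
    rw [mem_coe, Nat.mem_divisors]
    refine ⟨?_, hn⟩
    have := Int.natAbs_dvd_natAbs.2 (hA y hy).2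
    simpa using this
  · intro y hy y' hy' h
    have h1 := (hA y hy).1
    have h2 := (hA y' hy').1
    simp only at h
    omega

theorem card_le_sset {X A : Finset ℤ} (hA : A.Nonempty) : X.card ≤ (sset X A).card := by
  obtain ⟨a, ha⟩ := hA
  apply card_le_card_of_injOn (fun x => x + a)
  · intro x hx
    exact mem_sset hx ha
  · intro x _ x' _ h
    exact add_right_cancel h

theorem one_step {ε b : ℝ} (hε : 0 < ε) : ∃ c : ℝ, 0 < c ∧ c ≤ 1 ∧
    ∀ n : ℕ, n ≠ 0 → ∀ A : Finset ℤ, (∀ y ∈ A, 0 < y ∧ y ∣ (n : ℤ)) →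
      (n.divisors.card : ℝ) ^ (1 - c) ≤ A.card →
      ∀ X : Finset ℤ, X.Nonempty → (X.card : ℝ) ≤ (A.card : ℝ) ^ b →
      c * (X.card * (A.card : ℝ) ^ (1 - ε)) ≤ (sset X A).card := by
  obtain ⟨c, L₁, hc0, hc1, hbig⟩ := big (ε := min ε 1) (b := max b 1) (lt_min hε one_pos)
    (min_le_right _ _) (le_max_right _ _)
  refine ⟨min c (Real.exp (-L₁)), lt_min hc0 (Real.exp_pos _), (min_le_left _ _).trans
    (hc1.trans (by norm_num)), ?_⟩
  intro n hn A hA hAd X hX hXA
  have hτ : (1 : ℝ) ≤ n.divisors.card := by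
    exact_mod_cast card_pos.2 (Nat.nonempty_divisors.2 hn)
  have hAp : (0 : ℝ) < A.card := lt_of_lt_of_le (by positivity) hAd
  have hAne : A.Nonempty := card_pos.1 (by exact_mod_cast hAp)
  have hA1 : (1 : ℝ) ≤ A.card := by exact_mod_cast card_pos.2 hAne
  have hXp : (0 : ℝ) < X.card := by exact_mod_cast card_pos.2 hX
  have hSX : (X.card : ℝ) ≤ (sset X A).card := by exact_mod_cast card_le_sset hAne
  have hSp : (0 : ℝ) < (sset X A).card := lt_of_lt_of_le hXp hSX
  have hAτ : (A.card : ℝ) ≤ n.divisors.card := by exact_mod_cast card_le_divisors hn hA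
  rcases le_or_gt L₁ (Real.log n.divisors.card) with hL | hL
  · have h1 := hbig n hn hL A hA hAne (by
      have h2 := Real.log_le_log (by positivity) hAd
      rw [Real.log_rpow (by positivity)] at h2
      refine le_trans ?_ h2
      apply mul_le_mul_of_nonneg_right _ (Real.log_nonneg hτ)
      have := min_le_left c (Real.exp (-L₁))
      linarith) X hX (by
      have h2 := Real.log_le_log hXp hXA
      rw [Real.log_rpow hAp] at h2
      refine h2.trans ?_
      exact mul_le_mul_of_nonneg_right (le_max_left _ _) (Real.log_nonneg hA1))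
    have h2 : (X.card : ℝ) * (A.card : ℝ) ^ (1 - ε) ≤ (sset X A).card := by
      rw [← Real.log_le_log_iff (by positivity) hSp, Real.log_mul hXp.ne' (by positivity),
        Real.log_rpow hAp]
      refine le_trans ?_ h1
      have h3 : (1 - ε) * Real.log A.card ≤ (1 - min ε 1) * Real.log A.card := by
        apply mul_le_mul_of_nonneg_right _ (Real.log_nonneg hA1)
        have := min_le_left ε 1
        linarith
      linarith
    have h3 : min c (Real.exp (-L₁)) ≤ 1 := (min_le_left _ _).trans (hc1.trans (by norm_num))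
    have h4 : 0 ≤ (X.card : ℝ) * (A.card : ℝ) ^ (1 - ε) := by positivity
    calc min c (Real.exp (-L₁)) * ((X.card : ℝ) * (A.card : ℝ) ^ (1 - ε)) ≤
        1 * ((X.card : ℝ) * (A.card : ℝ) ^ (1 - ε)) := mul_le_mul_of_nonneg_right h3 h4
      _ ≤ _ := by rw [one_mul]; exact h2
  · have h1 : (A.card : ℝ) ^ (1 - ε) ≤ Real.exp L₁ := by
      have h2 : (A.card : ℝ) ^ (1 - ε) ≤ (A.card : ℝ) ^ (1 : ℝ) :=
        Real.rpow_le_rpow_of_exponent_le hA1 (by linarith)
      rw [Real.rpow_one] at h2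
      refine h2.trans (hAτ.trans ?_)
      rw [← Real.log_le_iff_le_exp (by linarith)]
      exact hL.le
    have h2 : min c (Real.exp (-L₁)) ≤ Real.exp (-L₁) := min_le_right _ _
    calc min c (Real.exp (-L₁)) * ((X.card : ℝ) * (A.card : ℝ) ^ (1 - ε)) ≤
        Real.exp (-L₁) * (X.card * Real.exp L₁) := by
          apply mul_le_mul h2 _ (by positivity) (by positivity)
          exact mul_le_mul_of_nonneg_left h1 (by positivity)
      _ = X.card := by
          rw [Real.exp_neg]
          field_simp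
      _ ≤ _ := hSX

theorem sset_neg (X A : Finset ℤ) :
    (sset (X.image (fun x => -x)) (A.image (fun x => -x))).card = (sset X A).card := by
  have h : sset (X.image (fun x => -x)) (A.image (fun x => -x)) =
      (sset X A).image (fun x => -x) := by
    ext s
    unfold sset
    simp only [mem_image, mem_product, Prod.exists]
    constructor
    · rintro ⟨_, _, ⟨⟨x, hx, rfl⟩, ⟨a, ha, rfl⟩⟩, rfl⟩
      exact ⟨x + a, ⟨x, a, ⟨hx, ha⟩, rfl⟩, by ring⟩
    · rintro ⟨_, ⟨x, a, ⟨hx, ha⟩, rfl⟩, rfl⟩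
      exact ⟨-x, -a, ⟨⟨x, hx, rfl⟩, ⟨a, ha, rfl⟩⟩, by ring⟩
  rw [h, card_image_of_injective _ neg_injective]

theorem one_step' {ε b : ℝ} (hε : 0 < ε) : ∃ c : ℝ, 0 < c ∧ c ≤ 1 ∧
    ∀ n : ℕ, n ≠ 0 → ∀ A : Finset ℤ, (∀ y ∈ A, y ∣ (n : ℤ)) →
      (n.divisors.card : ℝ) ^ (1 - c) ≤ A.card →
      ∀ X : Finset ℤ, X.Nonempty → (X.card : ℝ) ≤ (A.card : ℝ) ^ b →
      c * (X.card * (A.card : ℝ) ^ (1 - ε)) ≤ (sset X A).card := by
  obtain ⟨c₀, hc0, hc1, hstep⟩ := one_step (ε := min ε 1) (b := 2 * max b 0)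
    (lt_min hε one_pos)
  -- threshold
  set τ₁ : ℝ := max 16 ((2 : ℝ) ^ (2 / c₀)) with hτ₁
  have hτ₁p : 16 ≤ τ₁ := le_max_left _ _
  refine ⟨min (c₀ / 2) (1 / (2 * τ₁)), lt_min (by positivity) (by positivity),
    (min_le_left _ _).trans (by linarith), ?_⟩
  intro n hn A hA hAd X hX hXA
  set c := min (c₀ / 2) (1 / (2 * τ₁)) with hc
  have hcc : c ≤ c₀ / 2 := min_le_left _ _
  have hcτ : c ≤ 1 / (2 * τ₁) := min_le_right _ _
  have hcp : 0 < c := lt_min (by positivity) (by positivity)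
  have hτ : (1 : ℝ) ≤ n.divisors.card := by
    exact_mod_cast card_pos.2 (Nat.nonempty_divisors.2 hn)
  have hAp : (0 : ℝ) < A.card := lt_of_lt_of_le (by positivity) hAd
  have hAne : A.Nonempty := card_pos.1 (by exact_mod_cast hAp)
  have hA1 : (1 : ℝ) ≤ A.card := by exact_mod_cast card_pos.2 hAne
  have hXp : (0 : ℝ) < X.card := by exact_mod_cast card_pos.2 hX
  have hSX : (X.card : ℝ) ≤ (sset X A).card := by exact_mod_cast card_le_sset hAne
  have hSp : (0 : ℝ) < (sset X A).card := lt_of_lt_of_le hXp hSX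
  have hnz : ∀ y ∈ A, y ≠ 0 := by
    rintro y hy rfl
    have := hA 0 hy
    rw [zero_dvd_iff] at this
    exact hn (by exact_mod_cast this)
  set Ap := A.filter (fun y => 0 < y) with hAp'
  set Am := (A.filter (fun y => ¬ 0 < y)).image (fun x => -x) with hAm
  have hApd : ∀ y ∈ Ap, 0 < y ∧ y ∣ (n : ℤ) := by
    intro y hy
    exact ⟨(mem_filter.1 hy).2, hA y (mem_filter.1 hy).1⟩
  have hAmd : ∀ y ∈ Am, 0 < y ∧ y ∣ (n : ℤ) := by
    intro y hy
    obtain ⟨z, hz, rfl⟩ := mem_image.1 hy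
    obtain ⟨h1, h2⟩ := mem_filter.1 hz
    have h3 := hnz z h1
    exact ⟨by omega, (neg_dvd).2 (hA z h1)⟩
  have hsum : A.card = Ap.card + Am.card := by
    rw [hAm, card_image_of_injective _ neg_injective, hAp']
    exact (card_filter_add_card_filter_not (s := A) (fun y => 0 < y)).symm
  have hA2τ : (A.card : ℝ) ≤ 2 * n.divisors.card := by
    have h1 := card_le_divisors hn hApd
    have h2 := card_le_divisors hn hAmd
    have h3 : A.card ≤ 2 * n.divisors.card := by omega
    exact_mod_cast h3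
  -- the exponent
  have hexp : (A.card : ℝ) ^ (1 - ε) ≤ (A.card : ℝ) ^ (1 - min ε 1) := by
    apply Real.rpow_le_rpow_of_exponent_le hA1
    have := min_le_left ε 1
    linarith
  have hexp1 : (A.card : ℝ) ^ (1 - min ε 1) ≤ A.card := by
    have h2 : (A.card : ℝ) ^ (1 - min ε 1) ≤ (A.card : ℝ) ^ (1 : ℝ) := by
      apply Real.rpow_le_rpow_of_exponent_le hA1
      have : 0 < min ε 1 := lt_min hε one_pos
      linarith
    rwa [Real.rpow_one] at h2
  rcases lt_or_ge (n.divisors.card : ℝ) τ₁ with hsmall | hlarge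
  · calc c * (X.card * (A.card : ℝ) ^ (1 - ε)) ≤ (1 / (2 * τ₁)) * (X.card * (2 * τ₁)) := by
          apply mul_le_mul hcτ _ (by positivity) (by positivity)
          apply mul_le_mul_of_nonneg_left _ hXp.le
          linarith
      _ = X.card := by field_simp
      _ ≤ _ := hSX
  · have h16 : 16 ≤ (n.divisors.card : ℝ) := hτ₁p.trans hlarge
    have h2c : (2 : ℝ) ≤ (n.divisors.card : ℝ) ^ (c₀ / 2) := by
      have h1 : (2 : ℝ) ^ (2 / c₀) ≤ n.divisors.card := (le_max_right _ _).trans hlarge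
      have h2 := Real.rpow_le_rpow (by positivity) h1 (show 0 ≤ c₀ / 2 by positivity)
      rw [← Real.rpow_mul (by norm_num)] at h2
      have h3 : 2 / c₀ * (c₀ / 2) = 1 := by field_simp
      rwa [h3, Real.rpow_one] at h2
    have hA4 : 4 ≤ (A.card : ℝ) := by
      refine le_trans ?_ hAd
      have h1 : (16 : ℝ) ^ ((1 : ℝ) / 2) ≤ (n.divisors.card : ℝ) ^ (1 - c) := by
        refine (Real.rpow_le_rpow (by norm_num) h16 (by norm_num)).trans ?_
        apply Real.rpow_le_rpow_of_exponent_le hτ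
        linarith
      have h2 : (16 : ℝ) ^ ((1 : ℝ) / 2) = 4 := by
        rw [show (16 : ℝ) = 4 ^ (2 : ℝ) by norm_num, ← Real.rpow_mul (by norm_num)]
        norm_num
      rwa [h2] at h1
    -- the main claim for half of `A`
    have hhalf : ∀ A' X' : Finset ℤ, (∀ y ∈ A', 0 < y ∧ y ∣ (n : ℤ)) →
        (A.card : ℝ) ≤ 2 * A'.card → X'.card = X.card → (sset X' A').card ≤ (sset X A).card →
        c * (X.card * (A.card : ℝ) ^ (1 - ε)) ≤ (sset X A).card := by
      intro A' X' hA' hcard hX' hle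
      have hA'2 : 2 ≤ (A'.card : ℝ) := by linarith
      have hdens : (n.divisors.card : ℝ) ^ (1 - c₀) ≤ A'.card := by
        have h1 : (n.divisors.card : ℝ) ^ (1 - c₀) * (n.divisors.card : ℝ) ^ (c₀ / 2) ≤
            (n.divisors.card : ℝ) ^ (1 - c) := by
          rw [← Real.rpow_add (by linarith)]
          apply Real.rpow_le_rpow_of_exponent_le hτ
          linarith
        have h2 : 0 < (n.divisors.card : ℝ) ^ (1 - c₀) := by positivity
        nlinarith
      have hX'A' : (X'.card : ℝ) ≤ (A'.card : ℝ) ^ (2 * max b 0) := by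
        rw [hX']
        have h1 : (A.card : ℝ) ^ b ≤ (A.card : ℝ) ^ (max b 0) :=
          Real.rpow_le_rpow_of_exponent_le hA1 (le_max_left _ _)
        have h2 : (A.card : ℝ) ^ (max b 0) ≤ ((A'.card : ℝ) ^ (2 : ℝ)) ^ (max b 0) := by
          apply Real.rpow_le_rpow hAp.le _ (le_max_right _ _)
          rw [Real.rpow_two]
          nlinarith
        rw [← Real.rpow_mul (by linarith)] at h2
        exact hXA.trans (h1.trans h2)
      have h3 := hstep n hn A' hA' hdens X' (card_pos.1 (by rw [hX']; exact card_pos.2 hX)) hX'A'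
      rw [hX'] at h3
      have h4 : (A.card : ℝ) ^ (1 - min ε 1) ≤ 2 * (A'.card : ℝ) ^ (1 - min ε 1) := by
        have h5 : 0 ≤ 1 - min ε 1 := by
          have := min_le_right ε 1
          linarith
        have h6 := Real.rpow_le_rpow hAp.le hcard h5
        rw [Real.mul_rpow (by norm_num) (by positivity)] at h6
        have h7 : (2 : ℝ) ^ (1 - min ε 1) ≤ 2 := by
          have h8 : (2 : ℝ) ^ (1 - min ε 1) ≤ (2 : ℝ) ^ (1 : ℝ) := by
            apply Real.rpow_le_rpow_of_exponent_le (by norm_num)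
            have : 0 < min ε 1 := lt_min hε one_pos
            linarith
          rwa [Real.rpow_one] at h8
        have h9 : 0 ≤ (A'.card : ℝ) ^ (1 - min ε 1) := by positivity
        nlinarith
      have h5 : ((sset X' A').card : ℝ) ≤ (sset X A).card := by exact_mod_cast hle
      calc c * (X.card * (A.card : ℝ) ^ (1 - ε)) ≤
          c₀ / 2 * (X.card * (2 * (A'.card : ℝ) ^ (1 - min ε 1))) := by
            apply mul_le_mul hcc _ (by positivity) (by positivity)
            exact mul_le_mul_of_nonneg_left (hexp.trans h4) hXp.le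
        _ = c₀ * (X.card * (A'.card : ℝ) ^ (1 - min ε 1)) := by ring
        _ ≤ _ := h3.trans h5
    rcases le_total Am.card Ap.card with h | h
    · apply hhalf Ap X hApd _ rfl (card_le_card (sset_mono (filter_subset _ _)))
      have : A.card ≤ 2 * Ap.card := by omega
      exact_mod_cast this
    · apply hhalf Am (X.image (fun x => -x)) hAmd _ (card_image_of_injective _ neg_injective) _
      · have : A.card ≤ 2 * Am.card := by omega
        exact_mod_cast this
      · rw [hAm, sset_neg]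
        exact card_le_card (sset_mono (filter_subset _ _))

/-- `X + kA` -/
def T (X A : Finset ℤ) (k : ℕ) : Finset ℤ :=
  (X ×ˢ Fintype.piFinset (fun _ : Fin k => A)).image (fun f => f.1 + ∑ i, f.2 i)

theorem T_zero (X A : Finset ℤ) : X.card ≤ (T X A 0).card := by
  apply card_le_card
  intro x hx
  unfold T
  rw [mem_image]
  exact ⟨(x, fun i => i.elim0), mem_product.2 ⟨hx, Fintype.mem_piFinset.2 (fun i => i.elim0)⟩,
    by simp⟩

theorem T_succ (X A : Finset ℤ) (k : ℕ) : sset (T X A k) A ⊆ T X A (k + 1) := by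
  intro s hs
  unfold sset at hs
  obtain ⟨⟨t, a⟩, h1, rfl⟩ := mem_image.1 hs
  obtain ⟨h2, h3⟩ := mem_product.1 h1
  obtain ⟨⟨x, f⟩, h4, rfl⟩ := mem_image.1 h2
  obtain ⟨h5, h6⟩ := mem_product.1 h4
  unfold T
  rw [mem_image]
  refine ⟨(x, Fin.snoc f a), mem_product.2 ⟨h5, Fintype.mem_piFinset.2 ?_⟩, ?_⟩
  · intro i
    refine Fin.lastCases ?_ (fun j => ?_) i
    · simpa using h3
    · simpa using Fintype.mem_piFinset.1 h6 j
  · simp only [Fin.sum_univ_castSucc, Fin.snoc_castSucc, Fin.snoc_last]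
    ring

theorem T_le (X A : Finset ℤ) (k : ℕ) : (T X A k).card ≤ X.card * A.card ^ k := by
  refine card_image_le.trans ?_
  rw [card_product, Fintype.card_piFinset_const]

theorem many {k : ℕ} {ε b : ℝ} (hε : 0 < ε) : ∃ c : ℝ, 0 < c ∧
    ∀ n : ℕ, n ≠ 0 → ∀ A : Finset ℤ, (∀ y ∈ A, y ∣ (n : ℤ)) →
      (n.divisors.card : ℝ) ^ (1 - c) ≤ A.card →
      ∀ X : Finset ℤ, X.Nonempty → (X.card : ℝ) ≤ (A.card : ℝ) ^ b →
      c * X.card * (A.card : ℝ) ^ ((k : ℝ) - ε) ≤ (T X A k).card := by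
  have hε' : 0 < ε / (k + 1) := by positivity
  obtain ⟨c₀, hc0, hc1, hstep⟩ := one_step' (b := b + k) hε'
  refine ⟨c₀ ^ (k + 1), by positivity, ?_⟩
  intro n hn A hA hAd X hX hXA
  have hτ : (1 : ℝ) ≤ n.divisors.card := by
    exact_mod_cast card_pos.2 (Nat.nonempty_divisors.2 hn)
  have hc2 : c₀ ^ (k + 1) ≤ c₀ := pow_le_of_le_one hc0.le hc1 (by omega)
  have hAd' : (n.divisors.card : ℝ) ^ (1 - c₀) ≤ A.card :=
    le_trans (Real.rpow_le_rpow_of_exponent_le hτ (by linarith)) hAd
  have hAp : (0 : ℝ) < A.card := lt_of_lt_of_le (by positivity) hAd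
  have hAne : A.Nonempty := card_pos.1 (by exact_mod_cast hAp)
  have hA1 : (1 : ℝ) ≤ A.card := by exact_mod_cast card_pos.2 hAne
  have hXp : (0 : ℝ) < X.card := by exact_mod_cast card_pos.2 hX
  have hind : ∀ j : ℕ, j ≤ k →
      c₀ ^ j * (X.card * ((A.card : ℝ) ^ (1 - ε / (k + 1))) ^ j) ≤ (T X A j).card := by
    intro j
    induction j with
    | zero =>
      intro _
      simp only [pow_zero, one_mul, mul_one]
      exact_mod_cast T_zero X A
    | succ j ih =>
      intro hj
      have h1 := ih (by omega)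
      have hTp : (0 : ℝ) < (T X A j).card := lt_of_lt_of_le (by positivity) h1
      have h2 := hstep n hn A hA hAd' (T X A j) (card_pos.1 (by exact_mod_cast hTp)) (by
        have h3 : ((T X A j).card : ℝ) ≤ X.card * (A.card : ℝ) ^ j := by exact_mod_cast T_le X A j
        refine h3.trans ?_
        rw [Real.rpow_add hAp, Real.rpow_natCast]
        apply mul_le_mul hXA _ (by positivity) (by positivity)
        exact pow_le_pow_right₀ hA1 (by omega))
      have h3 : ((sset (T X A j) A).card : ℝ) ≤ (T X A (j + 1)).card := by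
        exact_mod_cast card_le_card (T_succ X A j)
      refine le_trans ?_ (h2.trans h3)
      have h4 : c₀ ^ (j + 1) * (X.card * ((A.card : ℝ) ^ (1 - ε / (k + 1))) ^ (j + 1)) =
          c₀ * (c₀ ^ j * (X.card * ((A.card : ℝ) ^ (1 - ε / (k + 1))) ^ j) *
            (A.card : ℝ) ^ (1 - ε / (k + 1))) := by ring
      rw [h4]
      apply mul_le_mul_of_nonneg_left _ hc0.le
      exact mul_le_mul_of_nonneg_right h1 (by positivity)
  refine le_trans ?_ (hind k le_rfl)
  have h5 : (A.card : ℝ) ^ ((k : ℝ) - ε) ≤ ((A.card : ℝ) ^ (1 - ε / (k + 1))) ^ k := by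
    rw [← Real.rpow_natCast, ← Real.rpow_mul hAp.le]
    apply Real.rpow_le_rpow_of_exponent_le hA1
    have h6 : (1 - ε / (k + 1)) * (k : ℝ) = k - ε * (k / (k + 1)) := by ring
    rw [h6]
    have h7 : (k : ℝ) / (k + 1) ≤ 1 := by
      rw [div_le_one (by positivity)]
      linarith
    have h8 := mul_le_mul_of_nonneg_left h7 hε.le
    linarith
  have h6 : c₀ ^ (k + 1) ≤ c₀ ^ k := pow_le_pow_of_le_one hc0.le hc1 (by omega)
  calc c₀ ^ (k + 1) * X.card * (A.card : ℝ) ^ ((k : ℝ) - ε) ≤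
      c₀ ^ k * X.card * ((A.card : ℝ) ^ (1 - ε / (k + 1))) ^ k := by
        apply mul_le_mul _ h5 (by positivity) (by positivity)
        exact mul_le_mul_of_nonneg_right h6 hXp.le
    _ = _ := by ring

end Pool.Agent.Helper2.G
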