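import Pool.Agent.Helper2.GStep

set_option autoImplicit false

/-!
The cost of revealing the valuation at a prime when the remaining part is spread.
-/

open Finset

namespace Pool.Agent.Helper2.G

open Pool.Agent.Helper2.F

/-- typical elements -/
noncomputable def typ (g : ℕ) (X : Finset ℤ) (l : ℕ) (T : ℝ) : Finset ℤ :=
  open scoped Classical in X.filter (fun x => (X.card : ℝ) ≤ T * nn g X l x)

theorem mem_typ {g : ℕ} {X : Finset ℤ} {l : ℕ} {T : ℝ} {x : ℤ} :
    x ∈ typ g X l T ↔ x ∈ X ∧ (X.card : ℝ) ≤ T * nn g X l x := by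
  classical
  unfold typ
  rw [mem_filter]

/-- few residue classes contain typical elements -/
theorem card_res {g : ℕ} {X : Finset ℤ} {l : ℕ} {T : ℝ} (hX : X.Nonempty)
    (hT0 : 0 ≤ T) : ((((typ g X l T).image (fun x => x % (g : ℤ) ^ l)).card : ℕ) : ℝ) ≤ T := by
  classical
  set m : ℤ := (g : ℤ) ^ l with hm
  set I := (typ g X l T).image (fun x => x % m) with hI
  have hXp : (0 : ℝ) < X.card := by exact_mod_cast card_pos.2 hX
  have h1 : ∀ r ∈ I, (X.card : ℝ) ≤ T * ((X.filter (fun x => x % m = r)).card : ℝ) := by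
    intro r hr
    obtain ⟨x', hx', rfl⟩ := mem_image.1 hr
    have h2 := (mem_typ.1 hx').2
    have h3 : nn g X l x' = (X.filter (fun x => x % m = x' % m)).card := by
      unfold nn
      congr 1
      apply filter_congr
      intro x _
      rw [← hm, eq_comm, Int.emod_eq_emod_iff_emod_sub_eq_zero]
      exact Int.dvd_iff_emod_eq_zero
    rwa [h3] at h2
  have h4 : ∑ r ∈ I, ((X.filter (fun x => x % m = r)).card : ℝ) ≤ X.card := by
    have h5 : ∑ r ∈ I, (X.filter (fun x => x % m = r)).card ≤ X.card := by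
      rw [← card_biUnion]
      · apply card_le_card
        intro x hx
        rw [mem_biUnion] at hx
        obtain ⟨r, _, hr⟩ := hx
        exact (mem_filter.1 hr).1
      · intro r _ r' _ hne
        rw [Function.onFun, disjoint_left]
        intro x h6 h7
        exact hne ((mem_filter.1 h6).2.symm.trans (mem_filter.1 h7).2)
    exact_mod_cast h5
  rcases hT0.eq_or_lt with h0 | hTpos
  · have h5 : I = ∅ := by
      rw [eq_empty_iff_forall_notMem]
      intro r hr
      have h6 := h1 r hr
      rw [← h0, zero_mul] at h6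
      linarith
    rw [h5, ← h0]
    simp
  · have h5 := sum_le_sum h1
    rw [sum_const, nsmul_eq_mul, ← mul_sum] at h5
    have h6 : (I.card : ℝ) * X.card ≤ T * X.card :=
      h5.trans (mul_le_mul_of_nonneg_left h4 hTpos.le)
    exact le_of_mul_le_mul_right h6 hXp

/-- `s` passes the test at level `l` -/
def pass (g : ℕ) (Y : Finset ℤ) (s : ℤ) (l : ℕ) : Prop := ∃ x' ∈ Y, (g : ℤ) ^ l ∣ s - x'

theorem pass_mono {g : ℕ} {Y : Finset ℤ} {s : ℤ} {l l' : ℕ} (h : l ≤ l') (hp : pass g Y s l') :
    pass g Y s l := by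
  obtain ⟨x', hx', hd⟩ := hp
  exact ⟨x', hx', (pow_dvd_pow _ h).trans hd⟩

open scoped Classical in
/-- the guessed level -/
noncomputable def guess (g : ℕ) (Y : Finset ℤ) (l₁ : ℕ) (s : ℤ) : ℕ :=
  Nat.findGreatest (pass g Y s) l₁

theorem guess_le (g : ℕ) (Y : Finset ℤ) (l₁ : ℕ) (s : ℤ) : guess g Y l₁ s ≤ l₁ := by
  classical
  exact Nat.findGreatest_le _

theorem guess_eq {g : ℕ} {Y : Finset ℤ} {l₁ : ℕ} {s : ℤ} {l : ℕ} (hl : l ≤ l₁)
    (hp : pass g Y s l) (hn : l = l₁ ∨ ¬ pass g Y s (l + 1)) : guess g Y l₁ s = l := by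
  classical
  apply le_antisymm
  · rcases hn with rfl | hn
    · exact guess_le _ _ _ _
    · by_contra hlt
      push Not at hlt
      have h1 : pass g Y s (guess g Y l₁ s) := by
        unfold guess
        exact Nat.findGreatest_spec hl hp
      exact hn (pass_mono hlt h1)
  · unfold guess
    exact Nat.le_findGreatest hl hp

end Pool.Agent.Helper2.G
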