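import Pool.Agent.Helper2.GNode

set_option autoImplicit false

/-!
Classes modulo powers of `g`, the step of the induction, and the induction over primes.
-/

open Finset

namespace Pool.Agent.Helper2.G

open Pool.Agent.Helper2.F

/-- number of elements of `X` congruent to `s` modulo `g ^ l` -/
def nn (g : ℕ) (X : Finset ℤ) (l : ℕ) (s : ℤ) : ℕ :=
  (X.filter (fun x => (g : ℤ) ^ l ∣ s - x)).card

theorem nn_pos {g : ℕ} {X : Finset ℤ} {x : ℤ} (l : ℕ) (hx : x ∈ X) : 0 < nn g X l x := by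
  unfold nn
  exact card_pos.2 ⟨x, mem_filter.2 ⟨hx, by simp⟩⟩

theorem nn_le (g : ℕ) (X : Finset ℤ) (l : ℕ) (s : ℤ) : nn g X l s ≤ X.card :=
  card_filter_le _ _

theorem nn_zero (g : ℕ) (X : Finset ℤ) (s : ℤ) : nn g X 0 s = X.card := by
  unfold nn
  rw [filter_true_of_mem]
  intro x _
  simp

theorem nn_anti (g : ℕ) (X : Finset ℤ) {l l' : ℕ} (h : l ≤ l') (s : ℤ) :
    nn g X l' s ≤ nn g X l s := by
  unfold nn
  apply card_le_card
  intro x hx
  rw [mem_filter] at hx ⊢
  exact ⟨hx.1, (pow_dvd_pow _ h).trans hx.2⟩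

theorem nn_congr {g : ℕ} {X : Finset ℤ} {l : ℕ} {s s' : ℤ} (h : (g : ℤ) ^ l ∣ s - s') :
    nn g X l s = nn g X l s' := by
  unfold nn
  congr 1
  apply filter_congr
  intro x _
  constructor
  · intro h1
    have := dvd_sub h1 h
    have e : s - x - (s - s') = s' - x := by ring
    rwa [e] at this
  · intro h1
    have := dvd_add h1 h
    have e : s' - x + (s - s') = s - x := by ring
    rwa [e] at this

theorem cq_eq {g l : ℕ} {X : Finset ℤ} {x : ℤ} :
    cq (AddSubgroup.zmultiples ((g : ℤ) ^ l)) X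
      (QuotientAddGroup.mk x : ℤ ⧸ AddSubgroup.zmultiples ((g : ℤ) ^ l)) =
    X.filter (fun x' => (g : ℤ) ^ l ∣ x - x') := by
  ext x'
  rw [mem_cq, mem_filter, QuotientAddGroup.eq, Int.mem_zmultiples_iff, neg_add_eq_sub]

/-- lower bound by classes -/
theorem classes_lower {g l : ℕ} {X D : Finset ℤ} (hD : ∀ y ∈ D, (g : ℤ) ^ l ∣ y) {a μ : ℝ}
    (h : ∀ X' : Finset ℤ, X'.Nonempty →
      (X'.card : ℝ) * (a - μ * Real.log X'.card) ≤ J X' D) :
    (X.card : ℝ) * a - μ * ∑ x ∈ X, Real.log (nn g X l x) ≤ J X D := by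
  classical
  set H := AddSubgroup.zmultiples ((g : ℤ) ^ l) with hH
  rw [J_classes H X D (fun y hy => Int.mem_zmultiples_iff.2 (hD y hy))]
  set I : Finset (ℤ ⧸ H) := X.image (fun x => (QuotientAddGroup.mk x : ℤ ⧸ H)) with hI
  have h1 : ∑ c ∈ I, ((cq H X c).card : ℝ) * (a - μ * Real.log (cq H X c).card) ≤
      ∑ c ∈ I, J (cq H X c) D := by
    apply sum_le_sum
    intro c hc
    apply h
    obtain ⟨x, hx, rfl⟩ := mem_image.1 hc
    exact ⟨x, mem_cq.2 ⟨hx, rfl⟩⟩
  refine le_trans (le_of_eq ?_) h1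
  have h2 : ∀ c ∈ I, ((cq H X c).card : ℝ) * (a - μ * Real.log (cq H X c).card) =
      ∑ x ∈ X.filter (fun x => (QuotientAddGroup.mk x : ℤ ⧸ H) = c),
        (a - μ * Real.log (nn g X l x)) := by
    intro c _
    have h3 : ∀ x ∈ X.filter (fun x => (QuotientAddGroup.mk x : ℤ ⧸ H) = c),
        a - μ * Real.log (nn g X l x) = a - μ * Real.log (cq H X c).card := by
      intro x hx
      rw [← (mem_filter.1 hx).2, cq_eq]
      rfl
    rw [sum_congr rfl h3, sum_const, nsmul_eq_mul]
    rfl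
  rw [sum_congr rfl h2, sum_fiberwise_of_maps_to (fun x hx => mem_image_of_mem _ hx),
    sum_sub_distrib, sum_const, nsmul_eq_mul, ← mul_sum]

theorem sum_ratio (g : ℕ) (X : Finset ℤ) (l : ℕ) (y : ℤ) :
    ∑ x ∈ X, (nn g X l (x + y) : ℝ) / (nn g X l x : ℝ) ≤ X.card := by
  classical
  have h1 : ∀ x ∈ X, (nn g X l (x + y) : ℝ) / (nn g X l x : ℝ) =
      ∑ x' ∈ X, if (g : ℤ) ^ l ∣ x + y - x' then 1 / (nn g X l (x' - y) : ℝ) else 0 := by
    intro x _
    rw [← sum_filter]
    have h2 : ∀ x' ∈ X.filter (fun x' => (g : ℤ) ^ l ∣ x + y - x'),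
        1 / (nn g X l (x' - y) : ℝ) = 1 / (nn g X l x : ℝ) := by
      intro x' hx'
      have h3 : nn g X l x = nn g X l (x' - y) := by
        apply nn_congr
        have e : x - (x' - y) = x + y - x' := by ring
        rw [e]
        exact (mem_filter.1 hx').2
      rw [h3]
    rw [sum_congr rfl h2, sum_const, nsmul_eq_mul]
    unfold nn
    ring
  rw [sum_congr rfl h1, sum_comm]
  have h4 : ∀ x' ∈ X, ∑ x ∈ X,
      (if (g : ℤ) ^ l ∣ x + y - x' then 1 / (nn g X l (x' - y) : ℝ) else 0) ≤ 1 := by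
    intro x' _
    rw [← sum_filter, sum_const, nsmul_eq_mul]
    have h5 : (X.filter (fun x => (g : ℤ) ^ l ∣ x + y - x')).card = nn g X l (x' - y) := by
      unfold nn
      congr 1
      apply filter_congr
      intro x _
      rw [← dvd_neg]
      have e : -(x + y - x') = x' - y - x := by ring
      rw [e]
    rw [h5]
    rcases Nat.eq_zero_or_pos (nn g X l (x' - y)) with h | h
    · rw [h]; simp
    · have h' : (0 : ℝ) < nn g X l (x' - y) := by exact_mod_cast h
      rw [mul_one_div_cancel h'.ne']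
  calc _ ≤ ∑ _x' ∈ X, (1 : ℝ) := sum_le_sum h4
    _ = _ := by simp

theorem nn_add {g : ℕ} {X : Finset ℤ} {l : ℕ} {x y : ℤ} (hy : (g : ℤ) ^ l ∣ y)
    (hy' : ¬ (g : ℤ) ^ (l + 1) ∣ y) :
    nn g X (l + 1) x + nn g X (l + 1) (x + y) ≤ nn g X l x := by
  classical
  unfold nn
  rw [← card_union_of_disjoint]
  · apply card_le_card
    intro x' hx'
    rw [mem_union, mem_filter, mem_filter] at hx'
    rw [mem_filter]
    rcases hx' with ⟨h1, h2⟩ | ⟨h1, h2⟩
    · exact ⟨h1, (pow_dvd_pow _ (Nat.le_succ l)).trans h2⟩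
    · refine ⟨h1, ?_⟩
      have h3 := dvd_sub ((pow_dvd_pow (g : ℤ) (Nat.le_succ l)).trans h2) hy
      have e : x + y - x' - y = x - x' := by ring
      rwa [e] at h3
  · rw [disjoint_left]
    intro x' h1 h2
    rw [mem_filter] at h1 h2
    apply hy'
    have h3 := dvd_sub h2.2 h1.2
    have e : x + y - x' - (x - x') = y := by ring
    rwa [e] at h3

/-- the cost of revealing `v` -/
def CostOK (g : ℕ) (v : ℤ → ℕ) (D X : Finset ℤ) (loss lam : ℝ) : Prop :=
  ∃ (N : ℕ) (Q : ℕ → ℤ → ℝ), (∀ y ∈ D, v y < N) ∧ (∀ l s, 0 ≤ Q l s) ∧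
    (∀ s, ∑ l ∈ range N, Q l s ≤ 1) ∧ (∀ x ∈ X, ∀ y ∈ D, 0 < Q (v y) (x + y)) ∧
    -∑ x ∈ X, ∑ y ∈ D, Real.log (Q (v y) (x + y)) ≤
      X.card * loss + lam * ∑ y ∈ D, ∑ x ∈ X, (Real.log X.card - Real.log (nn g X (v y) x))

theorem nodeL {g : ℕ} {v : ℤ → ℕ} {D X : Finset ℤ} (hX : X.Nonempty)
    (hv : ∀ y ∈ D, (g : ℤ) ^ v y ∣ y ∧ ¬ (g : ℤ) ^ (v y + 1) ∣ y) {lam : ℝ} (hl0 : 0 < lam)
    (hl1 : lam ≤ 1) : CostOK g v D X (D.card * (Real.log (1 / lam) + 1)) lam := by
  classical
  have hXp : (0 : ℝ) < X.card := by exact_mod_cast card_pos.2 hX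
  refine ⟨D.sup v + 1, fun l s => lam * (((nn g X l s : ℝ) - nn g X (l + 1) s) / nn g X l s) *
    ((nn g X l s : ℝ) / X.card) ^ lam, ?_, ?_, ?_, ?_, ?_⟩
  · intro y hy
    have := le_sup (f := v) hy
    omega
  · intro l s
    have h1 : (nn g X (l + 1) s : ℝ) ≤ nn g X l s := by
      exact_mod_cast nn_anti g X (Nat.le_succ l) s
    have h2 : 0 ≤ (nn g X l s : ℝ) - nn g X (l + 1) s := by linarith
    positivity
  · intro s
    have hterm : ∀ l ∈ range (D.sup v + 1),
        lam * (((nn g X l s : ℝ) - nn g X (l + 1) s) / nn g X l s) *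
          ((nn g X l s : ℝ) / X.card) ^ lam ≤
        ((nn g X l s : ℝ) / X.card) ^ lam - ((nn g X (l + 1) s : ℝ) / X.card) ^ lam := by
      intro l _
      have h1 : (nn g X (l + 1) s : ℝ) ≤ nn g X l s := by
        exact_mod_cast nn_anti g X (Nat.le_succ l) s
      rcases Nat.eq_zero_or_pos (nn g X l s) with h | h
      · have h' : nn g X (l + 1) s = 0 := by
          have := nn_anti g X (show l ≤ l + 1 by omega) s
          omega
        rw [h, h']
        simp
      · have hn : (0 : ℝ) < nn g X l s := by exact_mod_cast h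
        set ρ : ℝ := ((nn g X l s : ℝ) - nn g X (l + 1) s) / nn g X l s with hρ
        have hρ1 : ρ ≤ 1 := by
          rw [hρ, div_le_one hn]
          have : (0 : ℝ) ≤ nn g X (l + 1) s := by positivity
          linarith
        have h2 : (nn g X (l + 1) s : ℝ) / X.card = (nn g X l s : ℝ) / X.card * (1 + -ρ) := by
          rw [hρ]; field_simp; ring
        have h3 := rpow_one_add_le_one_add_mul_self (s := -ρ) (by linarith) hl0.le hl1
        rw [h2, Real.mul_rpow (by positivity) (by linarith)]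
        have h4 : 0 ≤ ((nn g X l s : ℝ) / X.card) ^ lam := by positivity
        nlinarith
    refine (sum_le_sum hterm).trans ?_
    rw [sum_range_sub' (fun l => ((nn g X l s : ℝ) / X.card) ^ lam)]
    have h5 : ((nn g X 0 s : ℝ) / X.card) ^ lam = 1 := by
      rw [nn_zero, div_self hXp.ne', Real.one_rpow]
    have h6 : 0 ≤ ((nn g X (D.sup v + 1) s : ℝ) / X.card) ^ lam := by positivity
    rw [h5]
    linarith
  · intro x hx y hy
    obtain ⟨h1, h2⟩ := hv y hy
    have h3 : nn g X (v y) (x + y) = nn g X (v y) x := nn_congr (by simpa using h1)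
    have h4 : (0 : ℝ) < nn g X (v y) x := by exact_mod_cast nn_pos _ hx
    have h5 : (0 : ℝ) < nn g X (v y + 1) x := by exact_mod_cast nn_pos _ hx
    have h6 : (nn g X (v y + 1) x : ℝ) + nn g X (v y + 1) (x + y) ≤ nn g X (v y) x := by
      exact_mod_cast nn_add h1 h2
    have h7 : 0 < (nn g X (v y) x : ℝ) - nn g X (v y + 1) (x + y) := by linarith
    simp only
    rw [h3]
    positivity
  · have hterm : ∀ y ∈ D, ∀ x ∈ X, -Real.log (lam * (((nn g X (v y) (x + y) : ℝ) -
        nn g X (v y + 1) (x + y)) / nn g X (v y) (x + y)) *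
        ((nn g X (v y) (x + y) : ℝ) / X.card) ^ lam) ≤
        Real.log (1 / lam) + (nn g X (v y + 1) (x + y) : ℝ) / nn g X (v y + 1) x +
          lam * (Real.log X.card - Real.log (nn g X (v y) x)) := by
      intro y hy x hx
      obtain ⟨h1, h2⟩ := hv y hy
      have h3 : nn g X (v y) (x + y) = nn g X (v y) x := nn_congr (by simpa using h1)
      have h4 : (0 : ℝ) < nn g X (v y) x := by exact_mod_cast nn_pos _ hx
      have h5 : (0 : ℝ) < nn g X (v y + 1) x := by exact_mod_cast nn_pos _ hx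
      have h6 : (nn g X (v y + 1) x : ℝ) + nn g X (v y + 1) (x + y) ≤ nn g X (v y) x := by
        exact_mod_cast nn_add h1 h2
      have h7 : 0 < (nn g X (v y) x : ℝ) - nn g X (v y + 1) (x + y) := by linarith
      rw [h3, Real.log_mul (by positivity) (by positivity), Real.log_mul hl0.ne' (by positivity),
        Real.log_rpow (by positivity), Real.log_div h4.ne' hXp.ne', one_div, Real.log_inv]
      have h8 : -Real.log (((nn g X (v y) x : ℝ) - nn g X (v y + 1) (x + y)) /
          nn g X (v y) x) ≤ (nn g X (v y + 1) (x + y) : ℝ) / nn g X (v y + 1) x := by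
        rw [← Real.log_inv, inv_div]
        have h9 := Real.log_le_sub_one_of_pos
          (show 0 < (nn g X (v y) x : ℝ) / ((nn g X (v y) x : ℝ) -
            nn g X (v y + 1) (x + y)) by positivity)
        refine h9.trans ?_
        have h10 : (nn g X (v y) x : ℝ) / ((nn g X (v y) x : ℝ) - nn g X (v y + 1) (x + y)) - 1 =
            (nn g X (v y + 1) (x + y) : ℝ) /
              ((nn g X (v y) x : ℝ) - nn g X (v y + 1) (x + y)) := by
          field_simp
          ring
        rw [h10]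
        apply div_le_div_of_nonneg_left (by positivity) h5
        linarith
      linarith
    rw [sum_comm]
    rw [← sum_neg_distrib]
    have hy1 : ∀ y ∈ D, -∑ x ∈ X, Real.log (lam * (((nn g X (v y) (x + y) : ℝ) -
        nn g X (v y + 1) (x + y)) / nn g X (v y) (x + y)) *
        ((nn g X (v y) (x + y) : ℝ) / X.card) ^ lam) ≤
        X.card * (Real.log (1 / lam) + 1) +
          lam * ∑ x ∈ X, (Real.log X.card - Real.log (nn g X (v y) x)) := by
      intro y hy
      rw [← sum_neg_distrib]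
      refine (sum_le_sum (hterm y hy)).trans ?_
      rw [sum_add_distrib, sum_add_distrib, sum_const, nsmul_eq_mul, ← mul_sum]
      have h1 := sum_ratio g X (v y + 1) y
      linarith
    refine (sum_le_sum hy1).trans ?_
    rw [sum_add_distrib, sum_const, nsmul_eq_mul, ← mul_sum]
    apply add_le_add _ le_rfl
    apply le_of_eq
    ring

end Pool.Agent.Helper2.G
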