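import Pool.Agent.Helper2.HTree
import Pool.Agent.Helper2.FPrime

set_option autoImplicit false

/-!
Revealing the valuation at a large prime: the gain is proportional to the entropy of the
valuation, up to the contribution of the minority values.
-/

open Finset

namespace Pool.Agent.Helper2.H

open Pool.Agent.Helper2.F Pool.Agent.Helper2.G

/-- `v` is the valuation at `p` on `D` -/
def IsVal (p : ℕ) (v : ℤ → ℕ) (D : Finset ℤ) : Prop := ∀ y ∈ D, ∀ l, (p : ℤ) ^ l ∣ y ↔ l ≤ v y

theorem IsVal.subset {p : ℕ} {v : ℤ → ℕ} {D D' : Finset ℤ} (h : IsVal p v D) (hD : D' ⊆ D) :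
    IsVal p v D' := fun y hy => h y (hD hy)

theorem Ent_const {v : ℤ → ℕ} {D : Finset ℤ} {z : ℕ} (h : ∀ y ∈ D, v y = z) : Ent v D = 0 := by
  unfold Ent
  rcases D.eq_empty_or_nonempty with hE | hne
  · rw [hE]; simp
  · have h1 : D.image v = {z} := by
      ext j
      rw [mem_image, mem_singleton]
      constructor
      · rintro ⟨y, hy, rfl⟩; exact h y hy
      · rintro rfl
        obtain ⟨y, hy⟩ := hne
        exact ⟨y, hy, h y hy⟩
    have h2 : part v D z = D := by
      unfold part
      exact filter_true_of_mem h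
    rw [h1, sum_singleton, h2, sub_self]

theorem parts_filter {v : ℤ → ℕ} {D : Finset ℤ} (P : ℕ → Prop) [DecidablePred P] {j : ℕ}
    (hj : j ∈ (D.filter (fun y => P (v y))).image v) :
    j ∈ D.image v ∧ part v (D.filter (fun y => P (v y))) j = part v D j := by
  obtain ⟨y, hy, rfl⟩ := mem_image.1 hj
  rw [mem_filter] at hy
  refine ⟨mem_image_of_mem v hy.1, ?_⟩
  ext x
  rw [mem_part, mem_part, mem_filter]
  constructor
  · rintro ⟨⟨h1, _⟩, h3⟩
    exact ⟨h1, h3⟩
  · rintro ⟨h1, h3⟩
    exact ⟨⟨h1, h3 ▸ hy.2⟩, h3⟩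

theorem big_tree {p m : ℕ} (hp : p.Prime) (hpm : (m + 1) ^ m < p) (hm1 : 1 ≤ m)
    {α lam κ g₀ : ℝ} (hα : 0 < α) (hm : (m.choose (m / 2) : ℝ) ≤ α / 4 * 2 ^ m)
    (hlam : 0 ≤ lam) (hκ0 : 0 < κ) (hκ1 : κ ≤ 1 / 4) (hg0 : 0 ≤ g₀)
    (hg1 : g₀ ≤ κ * (lam * Real.log (1 / α))) (hg2 : 12 * g₀ ≤ κ * (α / m) ^ 2)
    {v : ℤ → ℕ} {B : ℕ → ℝ} :
    ∀ n : ℕ, ∀ D : Finset ℤ, D.card = n → IsVal p v D →
      (∀ j ∈ D.image v, LB lam (part v D j) (B j)) →
      LB lam D (∑ j ∈ D.image v, B j +
        g₀ / Real.log 2 * (Ent v D - 2 * Real.log 2 * D.card)) := by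
  have hl2 : 0 < Real.log 2 := Real.log_pos (by norm_num)
  have hg : 0 ≤ g₀ / Real.log 2 := by positivity
  have hgl : g₀ / Real.log 2 * Real.log 2 = g₀ := by field_simp
  set g := g₀ / Real.log 2 with hgdef
  intro n
  induction n using Nat.strong_induction_on with
  | _ n ih =>
    intro D hn hv hB
    rcases D.eq_empty_or_nonempty with hE | hne
    · rw [hE]
      have : Ent v (∅ : Finset ℤ) = 0 := Ent_const (z := 0) (by simp)
      rw [this]
      simpa using LB_zero hlam (∅ : Finset ℤ)
    have hDp : (0 : ℝ) < D.card := by exact_mod_cast card_pos.2 hne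
    rcases level D hne v hκ0 (by linarith) with ⟨l, h1, h2⟩ | ⟨z, hz⟩
    · -- balanced level
      set D₁ := D.filter (fun y => l ≤ v y) with hD₁
      set D₀ := D.filter (fun y => ¬ l ≤ v y) with hD₀
      have hcard : D₁.card + D₀.card = D.card := card_filter_add_card_filter_not _
      have hcard' : (D₁.card : ℝ) + D₀.card = D.card := by exact_mod_cast hcard
      have hp1 : (0 : ℝ) < D₁.card := lt_of_lt_of_le (by positivity) h1
      have hp0 : (0 : ℝ) < D₀.card := by nlinarith
      have hn1 : 0 < D₁.card := by exact_mod_cast hp1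
      have hn0 : 0 < D₀.card := by exact_mod_cast hp0
      have hi1 := ih D₁.card (by omega) D₁ rfl (hv.subset (filter_subset _ _)) (by
        intro j hj
        obtain ⟨h3, h4⟩ := parts_filter (fun i => l ≤ i) hj
        rw [hD₁, h4]
        exact hB j h3)
      have hi0 := ih D₀.card (by omega) D₀ rfl (hv.subset (filter_subset _ _)) (by
        intro j hj
        obtain ⟨h3, h4⟩ := parts_filter (fun i => ¬ l ≤ i) hj
        rw [hD₀, h4]
        exact hB j h3)
      have hs := split (l := l) hp hpm hm1 hα hκ0 hm hlam (D₁ := D₁) (D₀ := D₀) (by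
        intro y hy
        rw [hD₁, mem_filter] at hy
        exact (hv y hy.1 l).2 hy.2) (by
        intro y hy
        rw [hD₀, mem_filter] at hy
        intro h
        exact hy.2 ((hv y hy.1 l).1 h)) hi1 hi0 (by rw [hcard']; exact h1)
        (by rw [hcard']; linarith) hg0 hg1 hg2
      have hun : D₁ ∪ D₀ = D := filter_union_filter_not_eq _ _
      rw [hun] at hs
      apply hs.mono
      have e1 := Ent_split v D (fun i => l ≤ i)
      rw [← hD₁, ← hD₀] at e1
      have e2 := sum_filter_values v D (fun i => l ≤ i) (fun j _ => B j)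
      rw [← hD₁, ← hD₀] at e2
      have e3 := two_log' hp1.le hp0.le
      rw [hcard'] at e3
      have e4 := mul_le_mul_of_nonneg_left e3 hg
      rw [e1, e2, ← hcard'] at *
      nlinarith
    · -- a majority value
      set D₁ := D.filter (fun y => v y = z) with hD₁
      set D₀ := D.filter (fun y => ¬ v y = z) with hD₀
      have hcard : D₁.card + D₀.card = D.card := card_filter_add_card_filter_not _
      have hcard' : (D₁.card : ℝ) + D₀.card = D.card := by exact_mod_cast hcard
      have hz' : (D₀.card : ℝ) ≤ 1 / 2 * D.card := by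
        refine hz.trans ?_
        apply mul_le_mul_of_nonneg_right _ hDp.le
        linarith
      have hp1 : (0 : ℝ) < D₁.card := by linarith
      have hn1 : 0 < D₁.card := by exact_mod_cast hp1
      have hi0 := ih D₀.card (by omega) D₀ rfl (hv.subset (filter_subset _ _)) (by
        intro j hj
        obtain ⟨h3, h4⟩ := parts_filter (fun i => ¬ i = z) hj
        rw [hD₀, h4]
        exact hB j h3)
      have hzi : z ∈ D.image v := by
        obtain ⟨y, hy⟩ := card_pos.1 hn1
        rw [hD₁, mem_filter] at hy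
        exact mem_image.2 ⟨y, hy.1, hy.2⟩
      have hi1 : LB lam D₁ (B z) := hB z hzi
      have hdis : Disjoint D₁ D₀ := disjoint_filter_filter_not _ _ _
      have hs := LB.union hdis hi1 hi0
      have hun : D₁ ∪ D₀ = D := filter_union_filter_not_eq _ _
      rw [hun] at hs
      apply hs.mono
      have e1 := Ent_split v D (fun i => i = z)
      rw [← hD₁, ← hD₀] at e1
      have e2 := sum_filter_values v D (fun i => i = z) (fun j _ => B j)
      rw [← hD₁, ← hD₀] at e2
      have e5 : D₁.image v = {z} := by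
        ext j
        rw [mem_image, mem_singleton]
        constructor
        · rintro ⟨y, hy, rfl⟩
          exact (mem_filter.1 hy).2
        · rintro rfl
          obtain ⟨y, hy⟩ := card_pos.1 hn1
          exact ⟨y, hy, (mem_filter.1 hy).2⟩
      rw [e5, sum_singleton] at e2
      have e6 : Ent v D₁ = 0 := Ent_const (z := z) (fun y hy => (mem_filter.1 hy).2)
      rw [e6, zero_add] at e1
      have e3 := two_log' hp1.le (show (0 : ℝ) ≤ D₀.card by positivity)
      rw [hcard'] at e3
      have e7 : Ent v D - 2 * Real.log 2 * D.card ≤ Ent v D₀ - 2 * Real.log 2 * D₀.card := by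
        rw [e1]
        nlinarith
      have e4 := mul_le_mul_of_nonneg_left e7 hg
      rw [e2]
      linarith

end Pool.Agent.Helper2.H
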