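import Pool.Agent.Helper2.HBig

set_option autoImplicit false

/-!
The two gains at a large prime that are used later.
-/

open Finset

namespace Pool.Agent.Helper2.H

open Pool.Agent.Helper2.F Pool.Agent.Helper2.G

/-- size of the largest part -/
def mx (v : ℤ → ℕ) (D : Finset ℤ) : ℕ := (D.image v).sup (fun j => (part v D j).card)

/-- number of elements outside the largest part -/
noncomputable def mi (v : ℤ → ℕ) (D : Finset ℤ) : ℝ := (D.card : ℝ) - mx v D

/-- the contribution of the minority values to the entropy -/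
noncomputable def sm (v : ℤ → ℕ) (D : Finset ℤ) : ℝ :=
  if 2 * mi v D ≤ D.card then mi v D * (Real.log (D.card / mi v D) + 3) else 2 * D.card

theorem exists_mx {v : ℤ → ℕ} {D : Finset ℤ} (hD : D.Nonempty) :
    ∃ z ∈ D.image v, mi v D = (D.filter (fun y => ¬ v y = z)).card ∧
      0 < (D.filter (fun y => v y = z)).card := by
  obtain ⟨z, hz, h⟩ := exists_mem_eq_sup (D.image v) (hD.image v)
    (fun j => (part v D j).card)
  refine ⟨z, hz, ?_, ?_⟩
  · unfold mi mx
    rw [h]
    have h1 : (D.filter (fun y => v y = z)).card + (D.filter (fun y => ¬ v y = z)).card = D.card :=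
      card_filter_add_card_filter_not _
    have h2 : part v D z = D.filter (fun y => v y = z) := rfl
    rw [h2]
    have h1' : ((D.filter (fun y => v y = z)).card : ℝ) +
        (D.filter (fun y => ¬ v y = z)).card = D.card := by exact_mod_cast h1
    linarith
  · exact card_pos.2 (part_nonempty hz)

theorem mi_le {v : ℤ → ℕ} {D : Finset ℤ} (z : ℕ) :
    mi v D ≤ (D.filter (fun y => ¬ v y = z)).card := by
  have h1 : (D.filter (fun y => v y = z)).card + (D.filter (fun y => ¬ v y = z)).card = D.card :=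
    card_filter_add_card_filter_not _
  have h1' : ((D.filter (fun y => v y = z)).card : ℝ) +
      (D.filter (fun y => ¬ v y = z)).card = D.card := by exact_mod_cast h1
  have h2 : (D.filter (fun y => v y = z)).card ≤ mx v D := by
    by_cases hz : z ∈ D.image v
    · exact le_sup (f := fun j => (part v D j).card) hz
    · have := part_empty hz
      unfold part at this
      rw [this]
      simp
  have h2' : ((D.filter (fun y => v y = z)).card : ℝ) ≤ mx v D := by exact_mod_cast h2
  unfold mi
  linarith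

theorem mi_nonneg (v : ℤ → ℕ) (D : Finset ℤ) : 0 ≤ mi v D := by
  rcases D.eq_empty_or_nonempty with h | h
  · rw [h]; unfold mi mx; simp
  · obtain ⟨z, _, h1, _⟩ := exists_mx (v := v) h
    rw [h1]; positivity

theorem mi_le_card (v : ℤ → ℕ) (D : Finset ℤ) : mi v D ≤ D.card := by
  unfold mi
  have : (0 : ℝ) ≤ mx v D := by positivity
  linarith

theorem sm_nonneg (v : ℤ → ℕ) (D : Finset ℤ) : 0 ≤ sm v D := by
  unfold sm
  split_ifs with h
  · have h0 := mi_nonneg v D
    apply mul_nonneg h0
    rcases h0.eq_or_lt with h1 | h1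
    · rw [← h1]; simp
    · have : 0 ≤ Real.log (D.card / mi v D) := by
        apply Real.log_nonneg
        rw [le_div_iff₀ h1]
        linarith
      linarith
  · positivity

theorem sm_le (v : ℤ → ℕ) (D : Finset ℤ) : sm v D ≤ 3 * D.card := by
  unfold sm
  have hn : (0 : ℝ) ≤ D.card := by positivity
  split_ifs with h
  · have h0 := mi_nonneg v D
    rcases h0.eq_or_lt with h1 | h1
    · rw [← h1, zero_mul]; positivity
    · have hc : (0 : ℝ) < D.card := by linarith
      have h2 := Real.log_le_sub_one_of_pos (show 0 < (D.card : ℝ) / mi v D by positivity)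
      have h3 := mul_le_mul_of_nonneg_left h2 h1.le
      have h4 : mi v D * ((D.card : ℝ) / mi v D - 1) = D.card - mi v D := by field_simp
      linarith
  · linarith

section big

variable {p m : ℕ} (hp : p.Prime) (hpm : (m + 1) ^ m < p) (hm1 : 1 ≤ m)
    {α lam κ g₀ : ℝ} (hα : 0 < α) (hm : (m.choose (m / 2) : ℝ) ≤ α / 4 * 2 ^ m)
    (hlam : 0 ≤ lam) (hκ0 : 0 < κ) (hκ1 : κ ≤ 1 / 4) (hg0 : 0 ≤ g₀)
    (hg1 : g₀ ≤ κ * (lam * Real.log (1 / α))) (hg2 : 12 * g₀ ≤ κ * (α / m) ^ 2)
    {v : ℤ → ℕ} {B : ℕ → ℝ} {D : Finset ℤ} (hv : IsVal p v D)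
    (hB : ∀ j ∈ D.image v, LB lam (part v D j) (B j))

include hp hpm hm1 hα hm hlam hκ0 hκ1 hv hB in
theorem big_free (hs : 0 ≤ κ * (lam * Real.log (1 / α))) :
    LB lam D (∑ j ∈ D.image v, B j) := by
  have h := big_tree hp hpm hm1 hα hm hlam hκ0 hκ1 le_rfl hs (by
    have : 0 ≤ κ * (α / m) ^ 2 := by positivity
    linarith) D.card D rfl hv hB
  apply h.mono
  simp

include hp hpm hm1 hα hm hlam hκ0 hκ1 hg0 hg1 hg2 hv hB in
theorem big_fine {z : ℕ} (hz : 0 < (D.filter (fun y => v y = z)).card) :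
    LB lam D (∑ j ∈ D.image v, B j + g₀ / Real.log 2 * (Ent v D -
      ((D.filter (fun y => ¬ v y = z)).card : ℝ) *
        (Real.log (D.card / (D.filter (fun y => ¬ v y = z)).card) + 3))) := by
  have hl2 : 0 < Real.log 2 := Real.log_pos (by norm_num)
  have hl2' : Real.log 2 < 1 := by have := Real.log_two_lt_d9; linarith
  have hg : 0 ≤ g₀ / Real.log 2 := by positivity
  set g := g₀ / Real.log 2 with hgdef
  set D₁ := D.filter (fun y => v y = z) with hD₁
  set D₀ := D.filter (fun y => ¬ v y = z) with hD₀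
  have hcard : D₁.card + D₀.card = D.card := card_filter_add_card_filter_not _
  have hcard' : (D₁.card : ℝ) + D₀.card = D.card := by exact_mod_cast hcard
  have hp1 : (0 : ℝ) < D₁.card := by exact_mod_cast hz
  have hi0 := big_tree hp hpm hm1 hα hm hlam hκ0 hκ1 hg0 hg1 hg2 (B := B) D₀.card D₀ rfl
    (hv.subset (filter_subset _ _)) (by
    intro j hj
    obtain ⟨h3, h4⟩ := parts_filter (fun i => ¬ i = z) hj
    rw [hD₀, h4]
    exact hB j h3)
  have hzi : z ∈ D.image v := by
    obtain ⟨y, hy⟩ := card_pos.1 hz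
    rw [hD₁, mem_filter] at hy
    exact mem_image.2 ⟨y, hy.1, hy.2⟩
  have hi1 : LB lam D₁ (B z) := hB z hzi
  have hdis : Disjoint D₁ D₀ := disjoint_filter_filter_not _ _ _
  have hs := LB.union hdis hi1 hi0
  have hun : D₁ ∪ D₀ = D := filter_union_filter_not_eq _ _
  rw [hun] at hs
  apply hs.mono
  have e1 := Ent_split v D (fun i => i = z)
  rw [← hD₁, ← hD₀] at e1
  have e2 := sum_filter_values v D (fun i => i = z) (fun j _ => B j)
  rw [← hD₁, ← hD₀] at e2
  have e5 : D₁.image v = {z} := by
    ext j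
    rw [mem_image, mem_singleton]
    constructor
    · rintro ⟨y, hy, rfl⟩
      exact (mem_filter.1 hy).2
    · rintro rfl
      obtain ⟨y, hy⟩ := card_pos.1 hz
      exact ⟨y, hy, (mem_filter.1 hy).2⟩
  rw [e5, sum_singleton] at e2
  have e6 : Ent v D₁ = 0 := Ent_const (z := z) (fun y hy => (mem_filter.1 hy).2)
  rw [e6, zero_add] at e1
  have e3 := split_log hp1 (show (0 : ℝ) ≤ D₀.card by positivity)
  rw [hcard'] at e3
  have e8 : (0 : ℝ) ≤ D₀.card := by positivity
  have e7 : Ent v D - D₀.card * (Real.log (D.card / D₀.card) + 3) ≤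
      Ent v D₀ - 2 * Real.log 2 * D₀.card := by
    rw [e1]
    nlinarith
  have e4 := mul_le_mul_of_nonneg_left e7 hg
  rw [e2]
  linarith

include hp hpm hm1 hα hm hlam hκ0 hκ1 hg0 hg1 hg2 hv hB in
/-- the gain for general growth -/
theorem big_E : LB lam D (∑ j ∈ D.image v, B j + g₀ * max (Ent v D - sm v D) 0) := by
  have hl2 : 0 < Real.log 2 := Real.log_pos (by norm_num)
  have hl2' : Real.log 2 < 1 := by have := Real.log_two_lt_d9; linarith
  have hgg : g₀ ≤ g₀ / Real.log 2 := by
    rw [le_div_iff₀ hl2]; nlinarith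
  rcases le_or_gt (Ent v D - sm v D) 0 with h0 | h0
  · rw [max_eq_right h0, mul_zero, add_zero]
    exact big_free hp hpm hm1 hα hm hlam hκ0 hκ1 hv hB (hg0.trans hg1)
  rw [max_eq_left h0.le]
  rcases D.eq_empty_or_nonempty with hE | hne
  · exfalso
    have : Ent v D = 0 := by rw [hE]; exact Ent_const (z := 0) (by simp)
    have := sm_nonneg v D
    linarith
  obtain ⟨z, hz, h1, h2⟩ := exists_mx (v := v) hne
  have h3 : ∀ t : ℝ, t ≤ sm v D → LB lam D (∑ j ∈ D.image v, B j +
      g₀ / Real.log 2 * (Ent v D - t)) →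
      LB lam D (∑ j ∈ D.image v, B j + g₀ * (Ent v D - sm v D)) := by
    intro t ht hL
    apply hL.mono
    have e1 : g₀ * (Ent v D - sm v D) ≤ g₀ / Real.log 2 * (Ent v D - t) :=
      mul_le_mul hgg (by linarith) h0.le (by positivity)
    linarith
  by_cases hc : 2 * mi v D ≤ D.card
  · apply h3 _ _ (big_fine hp hpm hm1 hα hm hlam hκ0 hκ1 hg0 hg1 hg2 hv hB h2)
    unfold sm
    rw [if_pos hc, h1]
  · apply h3 _ _ (big_tree hp hpm hm1 hα hm hlam hκ0 hκ1 hg0 hg1 hg2 D.card D rfl hv hB)
    unfold sm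
    rw [if_neg hc]
    have : (0 : ℝ) ≤ D.card := by positivity
    nlinarith

include hp hpm hm1 hα hm hlam hκ0 hκ1 hg0 hg1 hg2 hv hB in
/-- the gain at a popular node -/
theorem big_F (hpop : 2 * κ * D.card < mi v D) :
    LB lam D (∑ j ∈ D.image v, B j + g₀ / 3 * Ent v D) := by
  have hl2 : 0 < Real.log 2 := Real.log_pos (by norm_num)
  have hl2' : Real.log 2 < 0.7 := by have := Real.log_two_lt_d9; linarith
  have hgg : g₀ ≤ g₀ / Real.log 2 := by
    rw [le_div_iff₀ hl2]; nlinarith
  have hE0 := Ent_nonneg v D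
  rcases D.eq_empty_or_nonempty with hE | hne
  · exfalso
    rw [hE] at hpop
    have := mi_le_card v (∅ : Finset ℤ)
    simp at hpop this
    linarith
  have hDp : (0 : ℝ) < D.card := by exact_mod_cast card_pos.2 hne
  rcases le_or_gt (3 * (D.card : ℝ)) (Ent v D) with hbig | hsmall
  · apply (big_tree hp hpm hm1 hα hm hlam hκ0 hκ1 hg0 hg1 hg2 D.card D rfl hv hB).mono
    have e1 : g₀ * (Ent v D - 2 * Real.log 2 * D.card) ≤
        g₀ / Real.log 2 * (Ent v D - 2 * Real.log 2 * D.card) := by
      apply mul_le_mul_of_nonneg_right hgg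
      nlinarith
    have e2 : g₀ / 3 * Ent v D ≤ g₀ * (Ent v D - 2 * Real.log 2 * D.card) := by
      have : Ent v D / 3 ≤ Ent v D - 2 * Real.log 2 * D.card := by nlinarith
      calc g₀ / 3 * Ent v D = g₀ * (Ent v D / 3) := by ring
        _ ≤ _ := mul_le_mul_of_nonneg_left this hg0
    linarith
  · rcases level D hne v hκ0 (by linarith) with ⟨l, h1, h2⟩ | ⟨z, hz⟩
    · set D₁ := D.filter (fun y => l ≤ v y) with hD₁
      set D₀ := D.filter (fun y => ¬ l ≤ v y) with hD₀
      have hcard : D₁.card + D₀.card = D.card := card_filter_add_card_filter_not _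
      have hcard' : (D₁.card : ℝ) + D₀.card = D.card := by exact_mod_cast hcard
      have hs0 := hg0.trans hg1
      have hi1 := big_free hp hpm hm1 hα hm hlam hκ0 hκ1 (D := D₁) (B := B)
        (hv.subset (filter_subset _ _)) (by
          intro j hj
          obtain ⟨h3, h4⟩ := parts_filter (fun i => l ≤ i) hj
          rw [hD₁, h4]
          exact hB j h3) hs0
      have hi0 := big_free hp hpm hm1 hα hm hlam hκ0 hκ1 (D := D₀) (B := B)
        (hv.subset (filter_subset _ _)) (by
          intro j hj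
          obtain ⟨h3, h4⟩ := parts_filter (fun i => ¬ l ≤ i) hj
          rw [hD₀, h4]
          exact hB j h3) hs0
      have hs := split (l := l) hp hpm hm1 hα hκ0 hm hlam (D₁ := D₁) (D₀ := D₀) (by
        intro y hy
        rw [hD₁, mem_filter] at hy
        exact (hv y hy.1 l).2 hy.2) (by
        intro y hy
        rw [hD₀, mem_filter] at hy
        intro h
        exact hy.2 ((hv y hy.1 l).1 h)) hi1 hi0 (by rw [hcard']; exact h1)
        (by rw [hcard']; linarith) hg0 hg1 hg2
      have hun : D₁ ∪ D₀ = D := filter_union_filter_not_eq _ _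
      rw [hun] at hs
      apply hs.mono
      have e2 := sum_filter_values v D (fun i => l ≤ i) (fun j _ => B j)
      rw [← hD₁, ← hD₀] at e2
      rw [e2, hcard']
      have : g₀ / 3 * Ent v D ≤ g₀ * D.card := by
        calc g₀ / 3 * Ent v D ≤ g₀ / 3 * (3 * D.card) :=
              mul_le_mul_of_nonneg_left hsmall.le (by positivity)
          _ = _ := by ring
      linarith
    · exfalso
      have h4 := mi_le (v := v) (D := D) z
      have h5 : ((D.filter (fun y => ¬ v y = z)).card : ℝ) ≤ 2 * κ * D.card := hz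
      linarith

end big

end Pool.Agent.Helper2.H
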