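import Pool.Agent.Helper2.HGrowth

set_option autoImplicit false

/-!
Almost maximal products, or sums growing at all orders.
-/

open Finset

namespace Pool.Agent.Helper2.H

open Pool.Agent.Helper2.F Pool.Agent.Helper2.G Pool.Agent.Helper2.E Pool.Agent.Helper5

/-- total popular entropy -/
noncomputable def Tpop (κ : ℝ) (A : Finset ℤ) : ℝ :=
  Tot (fun p => padicValInt p) (fun p E => pop κ (padicValInt p) E) (plist A) A

theorem pop_LB {κ ε' : ℝ} (hκ0 : 0 < κ) (hκ1 : κ ≤ 1 / 4) {t : ℝ} (ht : 200 ≤ t) :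
    ∃ K : ℝ, 0 ≤ K ∧ ∀ A : Finset ℤ, Signed A → ε' * (A.card * Real.log A.card) ≤ Tpop κ A →
      LB (Real.exp (-t)) A (κ * ε' / 24 * (Real.exp (-t) * t) * (A.card * Real.log A.card) -
        K * A.card) := by
  obtain ⟨m, h1, h2, h3⟩ := exists_steps (Real.exp_pos (-(t / 8)))
    (Real.exp_le_one_iff.2 (by linarith))
  have hS := small_exists ht
  refine ⟨((m + 1) ^ m + 1 : ℕ) * (t + 1), by
    have : 0 ≤ t + 1 := by linarith
    positivity, ?_⟩
  intro A hA hp
  have h4 := tree_sum_F hS hκ0 hκ1 ⟨h1, h3, h2⟩ (fun p => padicValInt p) (plist A)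
    (plist_nodup A) (fun p hp => plist_prime hp) (fun p hp => hA.isVal (plist_prime hp))
  apply h4.mono
  have h5 : κ * (Real.exp (-t) * t) / 24 * (ε' * (A.card * Real.log A.card)) ≤
      κ * (Real.exp (-t) * t) / 24 * Tpop κ A := by
    apply mul_le_mul_of_nonneg_left hp
    have : 0 < t := by linarith
    positivity
  unfold Tpop at h5
  linarith

theorem sI_mono {A : Finset ℤ} (hA : A.Nonempty) {i j : ℕ} (hij : i ≤ j) :
    (sI A i).card ≤ (sI A j).card := by
  induction j, hij using Nat.le_induction with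
  | base => exact le_rfl
  | succ j _ ih =>
    refine ih.trans ?_
    obtain ⟨a, ha⟩ := hA
    exact card_le_card_image₂_right _ ha (add_left_injective a)

/-- sums of a set with a popular part -/
theorem pop_growth {κ ε' : ℝ} (hκ0 : 0 < κ) (hκ1 : κ ≤ 1 / 4) (hε' : 0 < ε') :
    ∃ c : ℝ, 0 < c ∧ ∃ K : ℕ → ℝ, (∀ n, 0 ≤ K n) ∧ ∀ A : Finset ℤ, Signed A →
      ε' * (A.card * Real.log A.card) ≤ Tpop κ A → ∀ h : ℕ, 1 ≤ h →
      (1 + c * Real.log h) * Real.log A.card - K h ≤ Real.log (sI A h).card := by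
  classical
  set c₁ : ℝ := κ * ε' / 48 with hc₁
  have hc₁0 : 0 < c₁ := by positivity
  -- the threshold
  set t₀ : ℝ := max 200 (2 / c₁) with ht₀
  have ht₀a : 200 ≤ t₀ := le_max_left _ _
  have ht₀b : 2 / c₁ ≤ t₀ := le_max_right _ _
  have ht₀c : 2 ≤ c₁ * t₀ := by
    rw [div_le_iff₀ hc₁0] at ht₀b; linarith
  set lam₀ : ℝ := Real.exp (-t₀) with hlam₀
  have hlam₀0 : 0 < lam₀ := Real.exp_pos _
  have hlam₀1 : lam₀ ≤ 1 := Real.exp_le_one_iff.2 (by linarith)
  obtain ⟨K₀, hK₀, hLB₀⟩ := pop_LB (ε' := ε') hκ0 hκ1 ht₀a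
  have hch : ∀ h : ℕ, ∃ K : ℝ, 0 ≤ K ∧ (200 ≤ Real.log h → ∀ A : Finset ℤ, Signed A →
      ε' * (A.card * Real.log A.card) ≤ Tpop κ A →
      LB (Real.exp (-Real.log h)) A (κ * ε' / 24 * (Real.exp (-Real.log h) * Real.log h) *
        (A.card * Real.log A.card) - K * A.card)) := by
    intro h
    by_cases hh : 200 ≤ Real.log h
    · obtain ⟨K, h1, h2⟩ := pop_LB (ε' := ε') hκ0 hκ1 hh
      exact ⟨K, h1, fun _ => h2⟩
    · exact ⟨0, le_rfl, fun h => absurd h hh⟩
  choose K hK0 hK using hch
  set c : ℝ := min (c₁ / 2) (lam₀ / t₀) with hc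
  have ht₀0 : 0 < t₀ := by linarith
  have hc0 : 0 < c := lt_min (by positivity) (by positivity)
  have hc1 : c ≤ c₁ / 2 := min_le_left _ _
  have hc2 : c * t₀ ≤ lam₀ := by
    have : c ≤ lam₀ / t₀ := min_le_right _ _
    rwa [le_div_iff₀ ht₀0] at this
  refine ⟨c, hc0, fun h => K₀ + K h / (2 * Real.exp (-Real.log h)), fun n => by
    have := hK0 n
    positivity, ?_⟩
  intro A hA hp h hh
  have hA1 : (1 : ℝ) ≤ A.card := by exact_mod_cast card_pos.2 hA.ne
  have hA0 : (0 : ℝ) < A.card := by linarith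
  have hlA : 0 ≤ Real.log A.card := Real.log_nonneg hA1
  have hKh : 0 ≤ K h / (2 * Real.exp (-Real.log h)) := by
    have := hK0 h
    positivity
  rcases le_or_gt t₀ (Real.log h) with hbig | hsmall
  · -- large orders
    have h200 : 200 ≤ Real.log h := ht₀a.trans hbig
    have hp' : (0 : ℝ) < h := by exact_mod_cast hh
    have hlk : Real.exp (-Real.log h) * h = 1 := by
      rw [Real.exp_neg, Real.exp_log hp']; field_simp
    have h1 := sum_growth (Real.exp_pos _) (Real.exp_le_one_iff.2 (by linarith))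
      (hK h h200 A hA hp) hA.ne (j := h) (by rw [hlk])
    have h3 : (κ * ε' / 24 * (Real.exp (-Real.log h) * Real.log h) *
        (A.card * Real.log A.card) - K h * A.card) / A.card / (2 * Real.exp (-Real.log h)) =
        c₁ * Real.log h * Real.log A.card - K h / (2 * Real.exp (-Real.log h)) := by
      rw [hc₁]; field_simp; ring
    rw [h3] at h1
    have h4 : (1 + c * Real.log h) * Real.log A.card ≤ c₁ * Real.log h * Real.log A.card := by
      apply mul_le_mul_of_nonneg_right _ hlA
      have h5 : c * Real.log h ≤ c₁ / 2 * Real.log h :=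
        mul_le_mul_of_nonneg_right hc1 (by linarith)
      have h6 : c₁ * t₀ ≤ c₁ * Real.log h := mul_le_mul_of_nonneg_left hbig hc₁0.le
      linarith
    linarith
  · rcases Nat.lt_or_ge h 2 with hlt | hge
    · have h1 : h = 1 := by omega
      have h2 := card_le_sI hA.ne hh
      have h3 : Real.log A.card ≤ Real.log (sI A h).card := by
        apply Real.log_le_log hA0
        exact_mod_cast h2
      have e : Real.log (h : ℝ) = 0 := by rw [h1]; simp
      have e1 : (1 + c * Real.log h) * Real.log A.card = Real.log A.card := by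
        rw [e]; ring
      rw [e1]
      linarith
    · -- middle orders
      have h2 := card_le_sI hA.ne (le_refl 1)
      have h3 : Real.log A.card ≤ Real.log (sI A 1).card := by
        apply Real.log_le_log hA0
        exact_mod_cast h2
      have h4 := LB_step (hLB₀ A hA hp) hA.ne (sI_nonempty hA.ne 1)
      have h5 : sset (sI A 1) A = sI A 2 := sset_eq _ _
      rw [h5] at h4
      have h6 : (κ * ε' / 24 * (Real.exp (-t₀) * t₀) * (A.card * Real.log A.card) -
          K₀ * A.card) / A.card = 2 * (c₁ * t₀) * lam₀ * Real.log A.card - K₀ := by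
        rw [hc₁, hlam₀]; field_simp; ring
      rw [h6, ← hlam₀] at h4
      have h7 : (1 - lam₀) * Real.log A.card ≤ (1 - lam₀) * Real.log (sI A 1).card :=
        mul_le_mul_of_nonneg_left h3 (by linarith)
      have h8 : 2 * lam₀ * Real.log A.card ≤ 2 * (c₁ * t₀) * lam₀ * Real.log A.card := by
        apply mul_le_mul_of_nonneg_right _ hlA
        nlinarith
      have h9 : Real.log (sI A 2).card ≤ Real.log (sI A h).card := by
        apply Real.log_le_log
        · exact_mod_cast card_pos.2 (sI_nonempty hA.ne 2)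
        · exact_mod_cast sI_mono hA.ne hge
      have h10 : c * Real.log h * Real.log A.card ≤ lam₀ * Real.log A.card := by
        apply mul_le_mul_of_nonneg_right _ hlA
        calc c * Real.log h ≤ c * t₀ := mul_le_mul_of_nonneg_left hsmall.le hc0.le
          _ ≤ lam₀ := hc2
      have h11 : 0 ≤ lam₀ * Real.log A.card := by positivity
      linarith

/-- products of a set with a small popular part -/
theorem unpop_growth (k : ℕ) (hk : 1 ≤ k) {ε : ℝ} (hε : 0 < ε) :
    ∃ κ ε' : ℝ, 0 < κ ∧ κ ≤ 1 / 4 ∧ 0 < ε' ∧ ∀ A : Finset ℤ, Signed A →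
      Tpop κ A ≤ ε' * (A.card * Real.log A.card) →
      ((k : ℝ) - ε / 2) * Real.log A.card ≤ Real.log (pI A k).card := by
  have hk0 : (0 : ℝ) < k := by exact_mod_cast hk
  have hk1 : (1 : ℝ) ≤ k := by exact_mod_cast hk
  set η : ℝ := min (ε / (8 * k)) (1 / 4) with hη
  have hη0 : 0 < η := lt_min (by positivity) (by norm_num)
  have hη1 : η ≤ 1 / 4 := min_le_right _ _
  have hη2 : k * η ≤ ε / 8 := by
    calc k * η ≤ k * (ε / (8 * k)) := mul_le_mul_of_nonneg_left (min_le_left _ _) hk0.le
      _ = ε / 8 := by field_simp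
  set lam : ℝ := η / k with hlam
  have hlam0 : 0 < lam := by positivity
  have hklam : k * lam = η := by rw [hlam]; field_simp
  have hlam1 : lam ≤ 1 := by
    rw [hlam, div_le_one hk0]; linarith
  obtain ⟨κ₀, hκ₀, hgf⟩ := node_gibbs_F (G := Pr →₀ ℤ) hlam0 hη0
  refine ⟨min (κ₀ / 2) (1 / 4), η, lt_min (by positivity) (by norm_num), min_le_right _ _, hη0, ?_⟩
  have hκ : 2 * min (κ₀ / 2) (1 / 4) ≤ κ₀ := by
    have := min_le_left (κ₀ / 2) (1 / 4); linarith
  set κ := min (κ₀ / 2) (1 / 4) with hκdef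
  intro A hA hT
  have hA1 : (1 : ℝ) ≤ A.card := by exact_mod_cast card_pos.2 hA.ne
  have hA0 : (0 : ℝ) < A.card := by linarith
  have hlA : 0 ≤ Real.log A.card := Real.log_nonneg hA1
  have h1 := tree_prod_F hlam0 hgf hκ hA.fac_inj' coo (fun p => padicValInt p) (plist A)
      (fun p hp y _ => coo_offT (plist_prime hp) y)
  rw [hA.tot_ent] at h1
  have h2 : LB lam (A.image (offT ∅)) ((1 - η) * ((1 - η) * (A.card * Real.log A.card))) := by
    apply h1.mono
    apply mul_le_mul_of_nonneg_left _ (by linarith)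
    unfold Tpop at hT
    linarith
  have hcd : (A.image (offT ∅)).card = A.card := img_card hA.fac_inj' (Subset.refl A)
  have h3 := (iter_gen hlam0 hlam1 h2 (hA.ne.image _) (vI (A.image (offT ∅))) rfl
    (fun i => vI_succ _ i) k).2
  rw [hcd] at h3
  have h4 : Real.log (vI (A.image (offT ∅)) k).card ≤ Real.log (pI A k).card := by
    apply Real.log_le_log
    · exact_mod_cast card_pos.2 (vI_nonempty (hA.ne.image _) k)
    · exact_mod_cast prod_growth_gen hA k
  refine le_trans ?_ (h3.trans h4)
  have h5 : k * (1 - η) ≤ (1 - (1 - lam) ^ k) / lam := by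
    rw [le_div_iff₀ hlam0]
    have h6 : (1 - lam) ^ k ≤ 1 - k * lam + (k * lam) ^ 2 := by
      have h7 : (1 - lam) ^ k ≤ Real.exp (-(k * lam)) := by
        have h8 : 1 - lam ≤ Real.exp (-lam) := by
          have := Real.add_one_le_exp (-lam); linarith
        calc (1 - lam) ^ k ≤ Real.exp (-lam) ^ k := pow_le_pow_left₀ (by linarith) h8 k
          _ = Real.exp (-(k * lam)) := by rw [← Real.exp_nat_mul]; congr 1; ring
      refine h7.trans ?_
      have h9 := Real.exp_bound_div_one_sub_of_interval (x := k * lam) (by positivity)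
        (by rw [hklam]; linarith)
      have h10 : 1 + k * lam ≤ Real.exp (k * lam) := by
        have := Real.add_one_le_exp (k * lam); linarith
      have h11 : 0 < k * lam := by positivity
      rw [Real.exp_neg]
      have h12 : (Real.exp (k * lam))⁻¹ ≤ (1 + k * lam)⁻¹ :=
        inv_anti₀ (by positivity) h10
      refine h12.trans ?_
      rw [inv_eq_one_div, div_le_iff₀ (by positivity)]
      have : 0 < (k * lam) ^ 3 := by positivity
      nlinarith
    have h13 : (k * lam) ^ 2 = k * lam * η := by rw [hklam]; ring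
    rw [h13] at h6
    nlinarith
  have h6 : (1 - η) * ((1 - η) * (A.card * Real.log A.card)) / A.card =
      (1 - η) * (1 - η) * Real.log A.card := by field_simp
  rw [h6]
  have h7 : 0 ≤ (1 - η) * (1 - η) * Real.log A.card :=
    mul_nonneg (mul_nonneg (by linarith) (by linarith)) hlA
  refine le_trans ?_ (mul_le_mul_of_nonneg_left h5 h7)
  have h8 : (k : ℝ) - ε / 2 ≤ (1 - η) * (1 - η) * (k * (1 - η)) := by
    nlinarith [mul_nonneg hk0.le (sq_nonneg η), mul_nonneg (mul_nonneg hk0.le (sq_nonneg η))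
      (show 0 ≤ 3 - η by linarith)]
  have h9 := mul_le_mul_of_nonneg_right h8 hlA
  linarith

/-- **Almost maximal products, or sums growing at all orders.** -/
theorem few (k : ℕ) (hk : 1 ≤ k) (ε : ℝ) (hε : 0 < ε) : ∃ c : ℝ, 0 < c ∧ ∃ C : ℕ → ℝ,
    (∀ n, 0 < C n) ∧ ∀ A : Finset ℤ, A.Nonempty →
      c * (A.card : ℝ) ^ ((k : ℝ) - ε) ≤
        (((Fintype.piFinset (fun _ : Fin k => A)).image
          (fun f : Fin k → ℤ => ∏ i, f i)).card : ℝ) ∨
      ∀ h : ℕ, 1 ≤ h → C h * (A.card : ℝ) ^ (1 + c * Real.log h) ≤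
        (((Fintype.piFinset (fun _ : Fin h => A)).image
          (fun f : Fin h → ℤ => ∑ i, f i)).card : ℝ) := by
  classical
  obtain ⟨κ, ε', hκ0, hκ1, hε', hprod⟩ := unpop_growth k hk hε
  obtain ⟨c₂, hc₂, K, hK, hsum⟩ := pop_growth hκ0 hκ1 hε'
  have hk0 : (0 : ℝ) < k := by exact_mod_cast hk
  have hl4 : 0 < Real.log 4 := Real.log_pos (by norm_num)
  refine ⟨min c₂ (Real.exp (-(k * Real.log 4))), lt_min hc₂ (Real.exp_pos _),
    fun h => Real.exp (-(K h + (1 + c₂ * Real.log h) * Real.log 4)),
    fun n => Real.exp_pos _, ?_⟩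
  set c := min c₂ (Real.exp (-(k * Real.log 4))) with hc
  have hc0 : 0 < c := lt_min hc₂ (Real.exp_pos _)
  have hcc : c ≤ c₂ := min_le_left _ _
  have hce : c ≤ Real.exp (-(k * Real.log 4)) := min_le_right _ _
  have hc1 : c ≤ 1 := hce.trans (Real.exp_le_one_iff.2 (by
    have : 0 ≤ k * Real.log 4 := by positivity
    linarith))
  intro A hA
  have hA1 : (1 : ℝ) ≤ A.card := by exact_mod_cast card_pos.2 hA
  have hA0 : (0 : ℝ) < A.card := by linarith
  have hlA : 0 ≤ Real.log A.card := Real.log_nonneg hA1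
  have hpr1 := one_le_kP k hA
  rcases Nat.lt_or_ge A.card 2 with hlt | h2
  · left
    have h1 : A.card = 1 := by have := card_pos.2 hA; omega
    rw [h1, Nat.cast_one, Real.one_rpow, mul_one]
    linarith
  · obtain ⟨A', hA'A, hA', hcard⟩ := signed_exists h2
    have hA'1 : (1 : ℝ) ≤ A'.card := by exact_mod_cast card_pos.2 hA'.ne
    have hA'0 : (0 : ℝ) < A'.card := by linarith
    have hcard' : (A.card : ℝ) ≤ 4 * A'.card := by exact_mod_cast hcard
    have hlog : Real.log A.card - Real.log 4 ≤ Real.log A'.card := by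
      have h1 := Real.log_le_log hA0 hcard'
      rw [Real.log_mul (by norm_num) hA'0.ne'] at h1
      linarith
    rcases le_total (Tpop κ A') (ε' * (A'.card * Real.log A'.card)) with hT | hT
    · left
      have h1 := hprod A' hA' hT
      have hsub := card_le_card (pI_subset hA'A k)
      have hsub' : ((pI A' k).card : ℝ) ≤ (((Fintype.piFinset (fun _ : Fin k => A)).image
        (fun f : Fin k → ℤ => ∏ i, f i)).card : ℝ) := by exact_mod_cast hsub
      have hpos : (0 : ℝ) < (pI A' k).card := by exact_mod_cast card_pos.2 (card_le_pI hA' hk).2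
      rcases le_or_gt ((k : ℝ) - ε / 2) 0 with h0 | h0
      · have h3 : (A.card : ℝ) ^ ((k : ℝ) - ε) ≤ 1 :=
          Real.rpow_le_one_of_one_le_of_nonpos hA1 (by linarith)
        have h4 : 0 ≤ (A.card : ℝ) ^ ((k : ℝ) - ε) := by positivity
        nlinarith
      · refine le_trans ?_ hsub'
        calc c * (A.card : ℝ) ^ ((k : ℝ) - ε) ≤
            Real.exp (-(k * Real.log 4)) * Real.exp (Real.log A.card * (k - ε)) := by
              rw [Real.rpow_def_of_pos hA0]
              exact mul_le_mul_of_nonneg_right hce (Real.exp_pos _).le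
          _ = Real.exp (-(k * Real.log 4) + Real.log A.card * (k - ε)) := (Real.exp_add _ _).symm
          _ ≤ _ := by
              rw [← Real.le_log_iff_exp_le hpos]
              refine le_trans ?_ h1
              have h5 : (k - ε / 2) * (Real.log A.card - Real.log 4) ≤
                  (k - ε / 2) * Real.log A'.card := mul_le_mul_of_nonneg_left hlog h0.le
              have h6 : 0 ≤ ε / 2 * Real.log A.card := by positivity
              have h7 : 0 ≤ ε / 2 * Real.log 4 := by positivity
              linarith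
    · right
      intro h hh
      have h1 := hsum A' hA' hT h hh
      have hlh : 0 ≤ Real.log h := Real.log_nonneg (by exact_mod_cast hh)
      have hsub := card_le_card (sI_subset hA'A h)
      have hsub' : ((sI A' h).card : ℝ) ≤ (((Fintype.piFinset (fun _ : Fin h => A)).image
        (fun f : Fin h → ℤ => ∑ i, f i)).card : ℝ) := by exact_mod_cast hsub
      have hpos : (0 : ℝ) < (sI A' h).card := by exact_mod_cast card_pos.2 (sI_nonempty hA'.ne h)
      refine le_trans ?_ hsub'
      rw [Real.rpow_def_of_pos hA0, ← Real.exp_add, ← Real.le_log_iff_exp_le hpos]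
      refine le_trans ?_ h1
      have h3 : 0 ≤ 1 + c₂ * Real.log h := by positivity
      have h4 : (1 + c₂ * Real.log h) * (Real.log A.card - Real.log 4) ≤
          (1 + c₂ * Real.log h) * Real.log A'.card := mul_le_mul_of_nonneg_left hlog h3
      have h5 : c * Real.log h * Real.log A.card ≤ c₂ * Real.log h * Real.log A.card := by
        gcongr
      linarith

end Pool.Agent.Helper2.H
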