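import Pool.Agent.Helper2.HSplit
import Pool.Agent.Helper2.EProdE

set_option autoImplicit false

/-!
Revealing a coordinate of the summands in an abelian group: classes, and a Gibbs-type bound.
-/

open Finset

namespace Pool.Agent.Helper2.H

open Pool.Agent.Helper2.F Pool.Agent.Helper2.E

variable {G : Type*} [AddCommGroup G] [DecidableEq G]

/-- fibre of a coordinate -/
def fib (χ : G →+ ℤ) (D : Finset G) (c : ℤ) : Finset G := D.filter (fun y => χ y = c)

theorem mem_fib {χ : G →+ ℤ} {D : Finset G} {c : ℤ} {y : G} :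
    y ∈ fib χ D c ↔ y ∈ D ∧ χ y = c := by
  unfold fib; rw [mem_filter]

theorem fib_subset (χ : G →+ ℤ) (D : Finset G) (c : ℤ) : fib χ D c ⊆ D := filter_subset _ _

theorem fib_nonempty {χ : G →+ ℤ} {D : Finset G} {c : ℤ} (hc : c ∈ D.image χ) :
    (fib χ D c).Nonempty := by
  obtain ⟨y, hy, rfl⟩ := mem_image.1 hc
  exact ⟨y, mem_fib.2 ⟨hy, rfl⟩⟩

theorem sum_fib (χ : G →+ ℤ) (D : Finset G) (f : G → ℝ) :
    ∑ c ∈ D.image χ, ∑ y ∈ fib χ D c, f y = ∑ y ∈ D, f y :=
  sum_fiberwise_of_maps_to (fun _ hy => mem_image_of_mem χ hy) f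

theorem card_fib (χ : G →+ ℤ) (D : Finset G) :
    ∑ c ∈ D.image χ, ((fib χ D c).card : ℝ) = D.card := by
  have := sum_fib χ D (fun _ => (1 : ℝ))
  simpa using this

/-- the (unnormalised) entropy of the coordinate on a set -/
noncomputable def EntG (χ : G →+ ℤ) (D : Finset G) : ℝ :=
  D.card * Real.log D.card - ∑ c ∈ D.image χ, ((fib χ D c).card : ℝ) * Real.log (fib χ D c).card

theorem sum_info (χ : G →+ ℤ) (D : Finset G) : ∑ y ∈ D, info D χ y = EntG χ D := by
  have h1 : ∀ y ∈ D, info D χ y = Real.log D.card - Real.log ((fib χ D (χ y)).card : ℝ) := by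
    intro y hy
    rw [info_eq hy]
    rfl
  rw [sum_congr rfl h1, sum_sub_distrib, sum_const, nsmul_eq_mul]
  unfold EntG
  congr 1
  rw [← sum_fib χ D]
  apply sum_congr rfl
  intro c _
  have h2 : ∀ y ∈ fib χ D c, Real.log ((fib χ D (χ y)).card : ℝ) =
      Real.log ((fib χ D c).card : ℝ) := by
    intro y hy
    rw [(mem_fib.1 hy).2]
  rw [sum_congr rfl h2, sum_const, nsmul_eq_mul]

theorem EntG_nonneg (χ : G →+ ℤ) (D : Finset G) : 0 ≤ EntG χ D := by
  rw [← sum_info]
  exact sum_nonneg (fun y hy => info_nonneg hy)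

/-- classes of `X` when the summands lie in one fibre -/
theorem J_fib (χ : G →+ ℤ) (X D : Finset G) {c : ℤ} (hD : ∀ y ∈ D, χ y = c) :
    J X D = ∑ b ∈ X.image χ, J (fib χ X b) D := by
  unfold J
  rw [← sum_fib χ X]
  apply sum_congr rfl
  intro b _
  apply sum_congr rfl
  intro x hx
  apply sum_congr rfl
  intro y hy
  congr 3
  unfold rep
  congr 1
  apply filter_congr
  intro y' hy'
  rw [mem_fib]
  constructor
  · intro h
    refine ⟨h, ?_⟩
    rw [map_sub, map_add, hD y hy, hD y' hy', (mem_fib.1 hx).2]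
    ring
  · intro h
    exact h.1

theorem LB_fib {lam : ℝ} {χ : G →+ ℤ} {D : Finset G} {c : ℤ} (hD : ∀ y ∈ D, χ y = c) {B : ℝ}
    (h : LB lam D B) (X : Finset G) :
    (X.card : ℝ) * (B - lam * D.card * Real.log X.card) + lam * D.card * EntG χ X ≤ J X D := by
  rw [J_fib χ X D hD]
  have h1 : ∑ b ∈ X.image χ, ((fib χ X b).card : ℝ) *
      (B - lam * D.card * Real.log (fib χ X b).card) ≤ ∑ b ∈ X.image χ, J (fib χ X b) D := by
    apply sum_le_sum
    intro b hb
    exact h _ (fib_nonempty hb)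
  refine le_trans (le_of_eq ?_) h1
  have h2 : ∀ b ∈ X.image χ, ((fib χ X b).card : ℝ) *
      (B - lam * D.card * Real.log (fib χ X b).card) = (fib χ X b).card * B -
        lam * D.card * ((fib χ X b).card * Real.log (fib χ X b).card) := by
    intro b _; ring
  rw [sum_congr rfl h2, sum_sub_distrib, ← sum_mul, card_fib, ← mul_sum]
  unfold EntG
  ring

/-- free superadditivity over the fibres with values in a set -/
theorem J_free_fib (χ : G →+ ℤ) (X D : Finset G) (T : Finset ℤ) :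
    ∑ c ∈ T, J X (fib χ D c) ≤ J X (D.filter (fun y => χ y ∈ T)) := by
  classical
  induction T using Finset.induction_on with
  | empty => simp [J_nonneg]
  | insert a T ha ih =>
    rw [sum_insert ha]
    have h1 : D.filter (fun y => χ y ∈ insert a T) =
        fib χ D a ∪ D.filter (fun y => χ y ∈ T) := by
      ext y
      simp only [fib, mem_union, mem_filter, mem_insert]
      tauto
    have h2 : Disjoint (fib χ D a) (D.filter (fun y => χ y ∈ T)) := by
      rw [disjoint_left]
      intro y hy hy'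
      rw [mem_fib] at hy
      rw [mem_filter, hy.2] at hy'
      exact ha hy'.2
    rw [h1]
    exact (add_le_add le_rfl ih).trans (J_free h2)

theorem J_free_all (χ : G →+ ℤ) (X D : Finset G) :
    ∑ c ∈ D.image χ, J X (fib χ D c) ≤ J X D := by
  have h := J_free_fib χ X D (D.image χ)
  rwa [filter_true_of_mem (fun y hy => mem_image_of_mem χ hy)] at h

/-- the Gibbs bound -/
theorem multiG (χ : G →+ ℤ) {X D : Finset G} (Q : ℤ → G → ℝ) (hQ0 : ∀ c s, 0 ≤ Q c s)
    (hQ1 : ∀ s, ∑ c ∈ D.image χ, Q c s ≤ 1) (hQp : ∀ x ∈ X, ∀ y ∈ D, 0 < Q (χ y) (x + y)) :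
    ∑ c ∈ D.image χ, J X (fib χ D c) + X.card * EntG χ D +
      ∑ x ∈ X, ∑ y ∈ D, Real.log (Q (χ y) (x + y)) ≤ J X D := by
  classical
  set S := sset X D with hS
  have hSD : ∀ x ∈ X, ∀ y ∈ D, x + y ∈ S := fun x hx y hy => mem_sset hx hy
  have hSl : ∀ l, ∀ x ∈ X, ∀ y ∈ fib χ D l, x + y ∈ S := fun l x hx y hy =>
    mem_sset hx (fib_subset χ D l hy)
  have hone : ∀ x ∈ X, ∀ l ∈ D.image χ, ∀ y ∈ fib χ D l,
      Real.log (((fib χ D l).card : ℝ) / (rep X (fib χ D l) (x + y) : ℝ)) +
        (Real.log D.card - Real.log (fib χ D l).card) +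
        Real.log (Q (χ y) (x + y)) -
          (Q l (x + y) * (rep X D (x + y) : ℝ) / (rep X (fib χ D l) (x + y) : ℝ) - 1) ≤
      Real.log ((D.card : ℝ) / (rep X D (x + y) : ℝ)) := by
    intro x hx l _ y hy
    have hyD := (mem_fib.1 hy).1
    have hvl := (mem_fib.1 hy).2
    have h1 : (0 : ℝ) < rep X (fib χ D l) (x + y) := by exact_mod_cast rep_pos hx hy
    have h2 : (0 : ℝ) < rep X D (x + y) := by exact_mod_cast rep_pos hx hyD
    have h3 : (0 : ℝ) < D.card := by exact_mod_cast card_pos.2 ⟨y, hyD⟩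
    have h4 : (0 : ℝ) < (fib χ D l).card := by exact_mod_cast card_pos.2 ⟨y, hy⟩
    have h5 : 0 < Q l (x + y) := by
      have := hQp x hx y hyD
      rwa [hvl] at this
    have h6 := Real.log_le_sub_one_of_pos (show 0 <
      Q l (x + y) * (rep X D (x + y) : ℝ) / (rep X (fib χ D l) (x + y) : ℝ) by positivity)
    rw [Real.log_div (by positivity) h1.ne', Real.log_mul h5.ne' h2.ne'] at h6
    rw [hvl, Real.log_div h3.ne' h2.ne', Real.log_div h4.ne' h1.ne']
    linarith
  have hcorr : ∑ l ∈ D.image χ, ∑ x ∈ X, ∑ y ∈ fib χ D l,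
      (Q l (x + y) * (rep X D (x + y) : ℝ) / (rep X (fib χ D l) (x + y) : ℝ) - 1) ≤ 0 := by
    have h1 : ∀ l ∈ D.image χ, ∑ x ∈ X, ∑ y ∈ fib χ D l,
        (Q l (x + y) * (rep X D (x + y) : ℝ) / (rep X (fib χ D l) (x + y) : ℝ) - 1) ≤
        ∑ s ∈ S, Q l s * (rep X D s : ℝ) - X.card * (fib χ D l).card := by
      intro l _
      simp_rw [sum_sub_distrib]
      rw [sum_pairs X (fib χ D l)
        (fun s => Q l s * (rep X D s : ℝ) / (rep X (fib χ D l) s : ℝ)) (hSl l)]
      have h3 : ∑ _x ∈ X, ∑ _y ∈ fib χ D l, (1 : ℝ) = X.card * (fib χ D l).card := by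
        simp
      rw [h3]
      apply sub_le_sub_right
      apply sum_le_sum
      intro s _
      rcases Nat.eq_zero_or_pos (rep X (fib χ D l) s) with h | h
      · rw [h]
        simp only [Nat.cast_zero, zero_mul]
        exact mul_nonneg (hQ0 l s) (by positivity)
      · have h' : (0 : ℝ) < rep X (fib χ D l) s := by exact_mod_cast h
        rw [mul_div_cancel₀ _ h'.ne']
    refine (sum_le_sum h1).trans ?_
    rw [sum_sub_distrib, sum_comm]
    have h2 : ∑ s ∈ S, ∑ l ∈ D.image χ, Q l s * (rep X D s : ℝ) ≤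
        ∑ s ∈ S, (rep X D s : ℝ) := by
      apply sum_le_sum
      intro s _
      rw [← sum_mul]
      calc (∑ l ∈ D.image χ, Q l s) * (rep X D s : ℝ) ≤ 1 * (rep X D s : ℝ) :=
            mul_le_mul_of_nonneg_right (hQ1 s) (by positivity)
        _ = _ := one_mul _
    have h3 : ∑ s ∈ S, (rep X D s : ℝ) = X.card * D.card := sum_rep X D hSD
    have h4 : ∑ l ∈ D.image χ, (X.card : ℝ) * (fib χ D l).card = X.card * D.card := by
      rw [← mul_sum, card_fib]
    linarith
  -- assemble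
  have hJ : J X D = ∑ x ∈ X, ∑ l ∈ D.image χ, ∑ y ∈ fib χ D l,
      Real.log ((D.card : ℝ) / (rep X D (x + y) : ℝ)) := by
    unfold J
    apply sum_congr rfl
    intro x _
    exact (sum_fib χ D (fun y => Real.log ((D.card : ℝ) / (rep X D (x + y) : ℝ)))).symm
  have hlow : ∑ x ∈ X, ∑ l ∈ D.image χ, ∑ y ∈ fib χ D l,
      (Real.log (((fib χ D l).card : ℝ) / (rep X (fib χ D l) (x + y) : ℝ)) +
        (Real.log D.card - Real.log (fib χ D l).card) +
        Real.log (Q (χ y) (x + y)) -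
          (Q l (x + y) * (rep X D (x + y) : ℝ) / (rep X (fib χ D l) (x + y) : ℝ) - 1)) ≤
      J X D := by
    rw [hJ]
    apply sum_le_sum
    intro x hx
    apply sum_le_sum
    intro l hl
    apply sum_le_sum
    intro y hy
    exact hone x hx l hl y hy
  have e1 : ∑ x ∈ X, ∑ l ∈ D.image χ, ∑ y ∈ fib χ D l,
      Real.log (((fib χ D l).card : ℝ) / (rep X (fib χ D l) (x + y) : ℝ)) =
      ∑ l ∈ D.image χ, J X (fib χ D l) := by
    rw [sum_comm]
    rfl
  have e2 : ∑ _x ∈ X, ∑ l ∈ D.image χ, ∑ _y ∈ fib χ D l,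
      (Real.log D.card - Real.log (fib χ D l).card) = X.card * EntG χ D := by
    rw [sum_const, nsmul_eq_mul]
    congr 1
    unfold EntG
    have e7 : (D.card : ℝ) * Real.log D.card =
        ∑ c ∈ D.image χ, ((fib χ D c).card : ℝ) * Real.log D.card := by
      rw [← sum_mul, card_fib]
    rw [e7, ← sum_sub_distrib]
    apply sum_congr rfl
    intro l _
    rw [sum_const, nsmul_eq_mul]
    ring
  have e3 : ∑ x ∈ X, ∑ l ∈ D.image χ, ∑ y ∈ fib χ D l, Real.log (Q (χ y) (x + y)) =
      ∑ x ∈ X, ∑ y ∈ D, Real.log (Q (χ y) (x + y)) := by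
    apply sum_congr rfl
    intro x _
    exact sum_fib χ D (fun y => Real.log (Q (χ y) (x + y)))
  have e4 : ∑ x ∈ X, ∑ l ∈ D.image χ, ∑ y ∈ fib χ D l,
      (Q l (x + y) * (rep X D (x + y) : ℝ) / (rep X (fib χ D l) (x + y) : ℝ) - 1) ≤ 0 := by
    rw [sum_comm]
    exact hcorr
  have e5 : ∑ x ∈ X, ∑ l ∈ D.image χ, ∑ y ∈ fib χ D l,
      (Real.log (((fib χ D l).card : ℝ) / (rep X (fib χ D l) (x + y) : ℝ)) +
        (Real.log D.card - Real.log (fib χ D l).card) +
        Real.log (Q (χ y) (x + y)) -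
          (Q l (x + y) * (rep X D (x + y) : ℝ) / (rep X (fib χ D l) (x + y) : ℝ) - 1)) =
      ∑ x ∈ X, ∑ l ∈ D.image χ, ∑ y ∈ fib χ D l,
        Real.log (((fib χ D l).card : ℝ) / (rep X (fib χ D l) (x + y) : ℝ)) +
      ∑ _x ∈ X, ∑ l ∈ D.image χ, ∑ _y ∈ fib χ D l,
        (Real.log D.card - Real.log (fib χ D l).card) +
      ∑ x ∈ X, ∑ l ∈ D.image χ, ∑ y ∈ fib χ D l, Real.log (Q (χ y) (x + y)) -
      ∑ x ∈ X, ∑ l ∈ D.image χ, ∑ y ∈ fib χ D l,
        (Q l (x + y) * (rep X D (x + y) : ℝ) / (rep X (fib χ D l) (x + y) : ℝ) - 1) := by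
    simp only [← sum_add_distrib, ← sum_sub_distrib]
  rw [e5, e1, e2, e3] at hlow
  linarith

/-- the Gibbs bound with the weights of one coordinate -/
theorem gibbs (χ : G →+ ℤ) {X D : Finset G} (hX : X.Nonempty) (hD : D.Nonempty) {τ l' : ℝ}
    (hτ0 : 0 < τ) (hτ1 : τ ≤ 1 / 2) (hl0 : 0 < l') (hl1 : l' ≤ 1 / 2) (z : ℤ) :
    ∑ c ∈ D.image χ, J X (fib χ D c) + X.card * EntG χ D -
      ((((2 * τ + 1) / (-Real.log τ) + τ) + 2 * l' / τ) * (D.card * EntG χ X) +
      ((2 * τ + 1) / (-Real.log τ) + τ) * (X.card * EntG χ D) +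
      (1 / τ + 1 + (-Real.log l') / τ) *
        (((D.filter (fun a => χ a ≠ z)).card : ℝ) * EntG χ X)) ≤ J X D := by
  classical
  obtain ⟨hpos, hcost⟩ := pair_cost hτ0 hτ1 hl0 hl1 hX χ hD χ z
  rw [sum_info, sum_info] at hcost
  set Q : ℤ → G → ℝ := fun u s => gf τ l' X χ D χ z (χ s - u) u with hQ
  have hQe : ∀ x y : G, Q (χ y) (x + y) = gf τ l' X χ D χ z (χ x) (χ y) := by
    intro x y
    rw [hQ]
    simp only
    rw [map_add, add_sub_cancel_right]
  have h := multiG χ (X := X) (D := D) Q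
    (fun c s => gf_nonneg (by linarith) hl0.le (by linarith) _ _ _ _ _ _ _) (by
      intro s
      obtain ⟨h1, h2, h3⟩ := AB_spec (τ := τ) (lam := l') (by linarith) hl0.le (by linarith)
        X χ D χ z (χ s)
      have h4 : ∀ u, Q u s = (if u = z then (AB τ l' X χ D χ z (χ s)).1 else 0) +
          (AB τ l' X χ D χ z (χ s)).2 * mu X χ (χ s - u) := by
        intro u
        rw [hQ]
        simp only
        unfold gf
        rw [show χ s - u + u = χ s by ring]
      simp only [h4]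
      rw [sum_add_distrib, ← mul_sum, sum_ite_eq']
      have h5 : ∑ u ∈ D.image χ, mu X χ (χ s - u) ≤ 1 := by
        have h6 : ∑ u ∈ D.image χ, mu X χ (χ s - u) =
            ∑ c ∈ (D.image χ).image (fun u => χ s - u), mu X χ c := by
          symm
          apply sum_image (g := fun u => χ s - u)
          intro a _ b _ hab
          have : χ s - a = χ s - b := hab
          linarith
        rw [h6, ← sum_mu hX χ]
        have h7 : ∑ c ∈ (D.image χ).image (fun u => χ s - u), mu X χ c =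
            ∑ c ∈ ((D.image χ).image (fun u => χ s - u)).filter (fun c => c ∈ X.image χ),
              mu X χ c := by
          symm
          apply sum_subset (filter_subset _ _)
          intro c hc hc'
          have hcn : c ∉ X.image χ := fun h => hc' (mem_filter.2 ⟨hc, h⟩)
          unfold mu
          have : X.filter (fun d => χ d = c) = ∅ := by
            apply filter_false_of_mem
            intro d hd he
            exact hcn (mem_image.2 ⟨d, hd, he⟩)
          rw [this]
          simp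
        rw [h7]
        apply sum_le_sum_of_subset_of_nonneg
        · intro c hc; exact (mem_filter.1 hc).2
        · intro c _ _; exact mu_nonneg _ _ _
      have h8 := mul_le_mul_of_nonneg_left h5 h2
      split_ifs <;> linarith) (by
      intro x hx y hy
      rw [hQe]
      exact hpos x hx y hy)
  simp only [hQe] at h
  simp only [sum_neg_distrib] at hcost
  linarith

end Pool.Agent.Helper2.H
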