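import Pool.Agent.Helper2.HIter

set_option autoImplicit false

/-!
One of the two operations grows at all orders, with exponent a multiple of `log k`.
-/

open Finset

namespace Pool.Agent.Helper2.H

open Pool.Agent.Helper2.F Pool.Agent.Helper2.G Pool.Agent.Helper2.E Pool.Agent.Helper5

theorem signed_exists {A : Finset ℤ} (h2 : 2 ≤ A.card) :
    ∃ A' ⊆ A, Signed A' ∧ A.card ≤ 4 * A'.card := by
  classical
  set P := A.filter (fun y => 0 < y) with hP
  set N := A.filter (fun y => y < 0) with hN
  have h1 : A ⊆ (P ∪ N) ∪ {0} := by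
    intro y hy
    rw [mem_union, mem_union, hP, hN, mem_filter, mem_filter, mem_singleton]
    rcases lt_trichotomy y 0 with h | h | h
    · exact Or.inl (Or.inr ⟨hy, h⟩)
    · exact Or.inr h
    · exact Or.inl (Or.inl ⟨hy, h⟩)
  have h3 : A.card ≤ P.card + N.card + 1 := by
    refine (card_le_card h1).trans ((card_union_le _ _).trans ?_)
    have := card_union_le P N
    simp only [card_singleton]
    omega
  rcases le_total N.card P.card with h | h
  · refine ⟨P, filter_subset _ _, ⟨?_, Or.inl (fun y hy => (mem_filter.1 hy).2)⟩, by omega⟩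
    apply card_pos.1; omega
  · refine ⟨N, filter_subset _ _, ⟨?_, Or.inr (fun y hy => (mem_filter.1 hy).2)⟩, by omega⟩
    apply card_pos.1; omega

theorem growth_signed : ∃ K : ℕ → ℝ, ∀ A : Finset ℤ, Signed A →
    (∀ h : ℕ, 200 ≤ Real.log h →
      Real.log h / 128 * Real.log A.card - K h ≤ Real.log (sI A h).card) ∨
    (∀ k : ℕ, 200 ≤ Real.log k →
      Real.log k / 96 * Real.log A.card ≤ Real.log (pI A k).card) := by
  classical
  have hst : ∀ h : ℕ, ∃ m : ℕ, Steps (Real.exp (-(Real.log h / 8))) m := by
    intro h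
    have h0 : 0 ≤ Real.log h := by
      rcases Nat.eq_zero_or_pos h with rfl | hp
      · simp
      · exact Real.log_nonneg (by exact_mod_cast hp)
    obtain ⟨m, h1, h2, h3⟩ := exists_steps (Real.exp_pos (-(Real.log h / 8)))
      (Real.exp_le_one_iff.2 (by linarith))
    exact ⟨m, h1, h3, h2⟩
  choose m hm using hst
  refine ⟨fun h => (((m h + 1) ^ (m h) + 1 : ℕ) * (Real.log h + 1)) /
    (2 * Real.exp (-Real.log h)), ?_⟩
  intro A hA
  have hAp : (0 : ℝ) < A.card := by exact_mod_cast card_pos.2 hA.ne
  set v : ℕ → ℤ → ℕ := fun p => padicValInt p with hv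
  set T₁ := Tot v (fun p E => sm (v p) E) (plist A) A with hT₁
  set T₂ := Tot v (fun p E => max (Ent (v p) E - sm (v p) E) 0) (plist A) A with hT₂
  have hTot : (A.card : ℝ) * Real.log A.card ≤ T₁ + T₂ := by
    rw [← hA.tot_ent]
    have h1 := Tot_mono (v := v) (g := fun p E => Ent (v p) E)
      (g' := fun p E => 1 * sm (v p) E + 1 * max (Ent (v p) E - sm (v p) E) 0) (A := A) (plist A)
      (by
        intro p _ D _
        have := le_max_left (Ent (v p) D - sm (v p) D) 0
        linarith) A (Subset.refl A)
    rw [Tot_lin (fun p E => sm (v p) E) (fun p E => max (Ent (v p) E - sm (v p) E) 0) 1 1] at h1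
    rw [one_mul, one_mul] at h1
    exact h1
  have hbase : ∀ h : ℕ, 200 ≤ Real.log h → (0 : ℝ) < h ∧
      Real.exp (-Real.log h) * h = 1 ∧ 0 < Real.exp (-Real.log h) ∧
      Real.exp (-Real.log h) ≤ 1 := by
    intro h hh
    have hp : (0 : ℝ) < h := by
      rcases Nat.eq_zero_or_pos h with rfl | hp
      · simp at hh; linarith
      · exact_mod_cast hp
    refine ⟨hp, ?_, Real.exp_pos _, Real.exp_le_one_iff.2 (by linarith)⟩
    rw [Real.exp_neg, Real.exp_log hp]
    field_simp
  rcases le_total (A.card * Real.log A.card / 2) T₁ with hc | hc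
  · -- products grow
    right
    intro k hk
    obtain ⟨hp, hlk, hl0, hl1⟩ := hbase k hk
    have hS := small_exists hk
    have h1 := tree_prod_E hS hA.fac_inj' coo v (plist A)
      (fun p hp y _ => coo_offT (plist_prime hp) y)
    have h2 := prod_growth hl0 hl1 hA h1 (j := k) (by rw [hlk])
    refine le_trans ?_ h2
    rw [← hT₁]
    have h3 : Real.log k / 96 * Real.log A.card =
        Real.exp (-Real.log k) * Real.log k / 24 * (A.card * Real.log A.card / 2) / A.card /
          (2 * Real.exp (-Real.log k)) := by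
      field_simp
      ring
    rw [h3]
    gcongr
  · -- sums grow
    left
    have hc' : A.card * Real.log A.card / 2 ≤ T₂ := by linarith
    intro h hh
    obtain ⟨hp, hlk, hl0, hl1⟩ := hbase h hh
    have hS := small_exists hh
    have h1 := tree_sum_E hS (hm h) v (plist A) (plist_nodup A) (fun p hp => plist_prime hp)
      (fun p hp => hA.isVal (plist_prime hp))
    have h2 := sum_growth hl0 hl1 h1 hA.ne (j := h) (by rw [hlk])
    refine le_trans ?_ h2
    rw [← hT₂]
    have h3 : Real.log h / 128 * Real.log A.card - (((m h + 1) ^ (m h) + 1 : ℕ) *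
        (Real.log h + 1)) / (2 * Real.exp (-Real.log h)) =
        (Real.exp (-Real.log h) * Real.log h / 32 * (A.card * Real.log A.card / 2) -
          (((m h + 1) ^ (m h) + 1 : ℕ) * (Real.log h + 1)) * A.card) / A.card /
          (2 * Real.exp (-Real.log h)) := by
      field_simp
      ring
    rw [h3]
    gcongr

theorem card_le_sI {A : Finset ℤ} (hA : A.Nonempty) {h : ℕ} (hh : 1 ≤ h) :
    A.card ≤ (sI A h).card := by
  obtain ⟨j, rfl⟩ : ∃ j, h = j + 1 := ⟨h - 1, by omega⟩
  obtain ⟨x, hx⟩ := sI_nonempty hA j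
  exact card_le_card_image₂_left _ hx (add_right_injective x)

theorem card_le_pI {A : Finset ℤ} (hA : Signed A) {h : ℕ} (hh : 1 ≤ h) :
    A.card ≤ (pI A h).card ∧ (pI A h).Nonempty := by
  have hne : ∀ j, (pI A j).Nonempty := by
    intro j
    induction j with
    | zero => exact ⟨1, by simp [pI]⟩
    | succ j ih => exact Finset.Nonempty.image₂ ih hA.ne
  refine ⟨?_, hne h⟩
  obtain ⟨j, rfl⟩ : ∃ j, h = j + 1 := ⟨h - 1, by omega⟩
  obtain ⟨y, hy⟩ := hne j
  have h0 : (0 : ℤ) ∉ A := fun h => hA.ne_zero h rfl
  have hy0 : y ≠ 0 := fun h => pI_ne_zero h0 j (h ▸ hy)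
  have h1 : A.image (fun a => y * a) ⊆ pI A (j + 1) := by
    intro s hs
    obtain ⟨a, ha, rfl⟩ := mem_image.1 hs
    exact mem_image₂_of_mem hy ha
  have h2 := card_le_card h1
  rwa [card_image_of_injective _ (mul_right_injective₀ hy0)] at h2

/-- **Growth of one of the operations at all orders.** -/
theorem growth : ∃ C : ℕ → ℝ, (∀ n, 0 < C n) ∧ ∀ A : Finset ℤ, A.Nonempty →
    (∀ h : ℕ, 1 ≤ h → C h * (A.card : ℝ) ^ (Real.log h / 200) ≤
      (((Fintype.piFinset (fun _ : Fin h => A)).image
        (fun f : Fin h → ℤ => ∑ i, f i)).card : ℝ)) ∨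
    (∀ k : ℕ, 1 ≤ k → C k * (A.card : ℝ) ^ (Real.log k / 200) ≤
      (((Fintype.piFinset (fun _ : Fin k => A)).image
        (fun f : Fin k → ℤ => ∏ i, f i)).card : ℝ)) := by
  classical
  obtain ⟨K, hK⟩ := growth_signed
  refine ⟨fun n => 1 / 4 * Real.exp (-(|K n| + Real.log n * Real.log 4)),
    fun n => by positivity, ?_⟩
  have hl4 : 0 < Real.log 4 := Real.log_pos (by norm_num)
  have hexp : ∀ n : ℕ, 1 ≤ n → Real.exp (-(|K n| + Real.log n * Real.log 4)) ≤ 1 := by
    intro n hn
    apply Real.exp_le_one_iff.2
    have h1 : 0 ≤ Real.log n := Real.log_nonneg (by exact_mod_cast hn)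
    have h2 := abs_nonneg (K n)
    have : 0 ≤ Real.log n * Real.log 4 := by positivity
    linarith
  intro A hA
  have hA1 : (1 : ℝ) ≤ A.card := by exact_mod_cast card_pos.2 hA
  have hA0 : (0 : ℝ) < A.card := by linarith
  rcases Nat.lt_or_ge A.card 2 with hlt | h2
  · left
    intro h hh
    have h1 : A.card = 1 := by have := card_pos.2 hA; omega
    have h3 : (1 : ℝ) ≤ (((Fintype.piFinset (fun _ : Fin h => A)).image
        (fun f : Fin h → ℤ => ∑ i, f i)).card : ℝ) := by
      have h4 := card_le_card (sI_subset (Subset.refl A) h)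
      have h5 := card_le_sI hA hh
      rw [h1] at h5
      exact_mod_cast h5.trans h4
    rw [h1, Nat.cast_one, Real.one_rpow, mul_one]
    have := hexp h hh
    linarith
  · obtain ⟨A', hA'A, hA', hcard⟩ := signed_exists h2
    have hA'0 : (0 : ℝ) < A'.card := by exact_mod_cast card_pos.2 hA'.ne
    have hcard' : (A.card : ℝ) ≤ 4 * A'.card := by exact_mod_cast hcard
    have hlog : Real.log A.card - Real.log 4 ≤ Real.log A'.card := by
      have h1 := Real.log_le_log hA0 hcard'
      rw [Real.log_mul (by norm_num) hA'0.ne'] at h1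
      linarith
    have hlA : 0 ≤ Real.log A.card := Real.log_nonneg hA1
    -- small orders
    have hsmall : ∀ n : ℕ, 1 ≤ n → Real.log n < 200 → ∀ Z : ℝ, (A.card : ℝ) ≤ 4 * Z →
        1 / 4 * Real.exp (-(|K n| + Real.log n * Real.log 4)) *
          (A.card : ℝ) ^ (Real.log n / 200) ≤ Z := by
      intro n hn hlt Z hZ
      have h1 : (A.card : ℝ) ^ (Real.log n / 200) ≤ A.card := by
        calc (A.card : ℝ) ^ (Real.log n / 200) ≤ (A.card : ℝ) ^ (1 : ℝ) := by
              apply Real.rpow_le_rpow_of_exponent_le hA1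
              linarith
          _ = _ := Real.rpow_one _
      have h3 := hexp n hn
      have h4 : Real.exp (-(|K n| + Real.log n * Real.log 4)) *
          (A.card : ℝ) ^ (Real.log n / 200) ≤ 1 * A.card :=
        mul_le_mul h3 h1 (by positivity) (by norm_num)
      linarith
    -- large orders
    have hlarge : ∀ n : ℕ, 200 ≤ Real.log n → ∀ Z : ℝ, 0 < Z →
        Real.log n / 128 * Real.log A'.card - |K n| ≤ Real.log Z →
        1 / 4 * Real.exp (-(|K n| + Real.log n * Real.log 4)) *
          (A.card : ℝ) ^ (Real.log n / 200) ≤ Z := by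
      intro n hn Z hZ h1
      rw [Real.rpow_def_of_pos hA0]
      have h3 : Real.exp (-(|K n| + Real.log n * Real.log 4)) *
          Real.exp (Real.log A.card * (Real.log n / 200)) ≤ Z := by
        rw [← Real.exp_add]
        rw [← Real.le_log_iff_exp_le hZ]
        refine le_trans ?_ h1
        have h4 : Real.log n / 128 * (Real.log A.card - Real.log 4) ≤
            Real.log n / 128 * Real.log A'.card :=
          mul_le_mul_of_nonneg_left hlog (by linarith)
        have h5 : 0 ≤ Real.log n * Real.log A.card := mul_nonneg (by linarith) hlA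
        have h6 : 0 ≤ Real.log n * Real.log 4 := mul_nonneg (by linarith) hl4.le
        linarith
      have h7 : 0 < Real.exp (-(|K n| + Real.log n * Real.log 4)) *
          Real.exp (Real.log A.card * (Real.log n / 200)) := by positivity
      linarith
    rcases hK A' hA' with hs | hp
    · left
      intro h hh
      have hsub := card_le_card (sI_subset hA'A h)
      have hsub' : ((sI A' h).card : ℝ) ≤ (((Fintype.piFinset (fun _ : Fin h => A)).image
        (fun f : Fin h → ℤ => ∑ i, f i)).card : ℝ) := by exact_mod_cast hsub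
      have h5 := card_le_sI hA'.ne hh
      have h5' : (A'.card : ℝ) ≤ (sI A' h).card := by exact_mod_cast h5
      rcases lt_or_ge (Real.log h) 200 with hlt | hge
      · exact hsmall h hh hlt _ (by linarith)
      · refine (hlarge h hge _ (by linarith) ?_).trans hsub'
        have := hs h hge
        have := le_abs_self (K h)
        linarith
    · right
      intro k hk
      have hsub := card_le_card (pI_subset hA'A k)
      have hsub' : ((pI A' k).card : ℝ) ≤ (((Fintype.piFinset (fun _ : Fin k => A)).image
        (fun f : Fin k → ℤ => ∏ i, f i)).card : ℝ) := by exact_mod_cast hsub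
      have h5 := (card_le_pI hA' hk).1
      have h5' : (A'.card : ℝ) ≤ (pI A' k).card := by exact_mod_cast h5
      rcases lt_or_ge (Real.log k) 200 with hlt | hge
      · exact hsmall k hk hlt _ (by linarith)
      · refine (hlarge k hge _ (by linarith) ?_).trans hsub'
        have h6 := hp k hge
        have h7 := abs_nonneg (K k)
        have h8 : 0 ≤ Real.log A'.card := Real.log_nonneg (by
          exact_mod_cast card_pos.2 hA'.ne)
        have h9 : Real.log k / 128 * Real.log A'.card ≤ Real.log k / 96 * Real.log A'.card := by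
          apply mul_le_mul_of_nonneg_right _ h8
          linarith
        linarith

end Pool.Agent.Helper2.H
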