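import Pool.Agent.Helper2.HProdF
import Pool.Agent.Helper2.EFac
import Pool.Agent.Helper2.FFinal

set_option autoImplicit false

/-!
Iteration of the lower bound, and the setting for a set of integers of constant sign.
-/

open Finset

namespace Pool.Agent.Helper2.H

open Pool.Agent.Helper2.F Pool.Agent.Helper2.G Pool.Agent.Helper2.E Pool.Agent.Helper5

section general

variable {G : Type*} [AddCommGroup G] [DecidableEq G]

theorem LB_step {lam : ℝ} {D : Finset G} {B : ℝ} (h : LB lam D B) (hD : D.Nonempty)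
    {X : Finset G} (hX : X.Nonempty) :
    (1 - lam) * Real.log X.card + B / D.card ≤ Real.log (sset X D).card := by
  have hXp : (0 : ℝ) < X.card := by exact_mod_cast card_pos.2 hX
  have hDp : (0 : ℝ) < D.card := by exact_mod_cast card_pos.2 hD
  have h1 := (h X hX).trans (J_le hX hD)
  have h2 : (X.card : ℝ) * (B - lam * D.card * Real.log X.card) ≤
      X.card * (D.card * (Real.log (sset X D).card - Real.log X.card)) := by
    rw [← mul_assoc]; exact h1
  have h3 := le_of_mul_le_mul_left h2 hXp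
  have h4 : B ≤ D.card * (Real.log (sset X D).card - (1 - lam) * Real.log X.card) := by
    linarith
  have h5 : B / D.card ≤ Real.log (sset X D).card - (1 - lam) * Real.log X.card := by
    rw [div_le_iff₀ hDp]; linarith
  linarith

theorem iter_gen {lam : ℝ} (hl0 : 0 < lam) (hl1 : lam ≤ 1) {D : Finset G} {B : ℝ}
    (h : LB lam D B) (hD : D.Nonempty) (S : ℕ → Finset G) (h0 : S 0 = {0})
    (hS : ∀ j, S (j + 1) = sset (S j) D) (j : ℕ) :
    (S j).Nonempty ∧ B / D.card * ((1 - (1 - lam) ^ j) / lam) ≤ Real.log (S j).card := by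
  induction j with
  | zero =>
    refine ⟨by rw [h0]; exact singleton_nonempty 0, ?_⟩
    rw [h0]; simp
  | succ j ih =>
    obtain ⟨ih1, ih2⟩ := ih
    have h1 := LB_step h hD ih1
    refine ⟨?_, ?_⟩
    · rw [hS]
      obtain ⟨x, hx⟩ := ih1
      obtain ⟨y, hy⟩ := hD
      exact ⟨_, mem_sset hx hy⟩
    · rw [hS]
      refine le_trans ?_ h1
      have h2 := mul_le_mul_of_nonneg_left ih2 (show 0 ≤ 1 - lam by linarith)
      have h3 : B / D.card * ((1 - (1 - lam) ^ (j + 1)) / lam) =
          (1 - lam) * (B / D.card * ((1 - (1 - lam) ^ j) / lam)) + B / D.card := by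
        field_simp
        ring
      rw [h3]
      linarith

theorem iter_half {lam : ℝ} (hl0 : 0 < lam) (hl1 : lam ≤ 1) {D : Finset G} {B : ℝ}
    (h : LB lam D B) (hD : D.Nonempty) (S : ℕ → Finset G) (h0 : S 0 = {0})
    (hS : ∀ j, S (j + 1) = sset (S j) D) {j : ℕ} (hj : 1 ≤ lam * j) :
    B / D.card / (2 * lam) ≤ Real.log (S j).card := by
  obtain ⟨h1, h2⟩ := iter_gen hl0 hl1 h hD S h0 hS j
  have h3 : 0 ≤ Real.log (S j).card :=
    Real.log_nonneg (by exact_mod_cast card_pos.2 h1)
  rcases le_or_gt (B / D.card) 0 with hb | hb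
  · refine le_trans ?_ h3
    exact div_nonpos_of_nonpos_of_nonneg hb (by positivity)
  · refine le_trans ?_ h2
    have h4 : (1 - lam) ^ j ≤ 1 / 2 := by
      have h5 : 1 - lam ≤ Real.exp (-lam) := by
        have := Real.add_one_le_exp (-lam); linarith
      have h6 : (1 - lam) ^ j ≤ Real.exp (-lam) ^ j :=
        pow_le_pow_left₀ (by linarith) h5 j
      rw [← Real.exp_nat_mul] at h6
      refine h6.trans ?_
      have h7 : (j : ℝ) * -lam ≤ -1 := by linarith
      refine (Real.exp_le_exp.2 h7).trans ?_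
      rw [Real.exp_neg, one_div]
      apply inv_anti₀ (by norm_num)
      have := Real.add_one_le_exp (1 : ℝ)
      linarith
    have h8 : 1 / 2 / lam ≤ (1 - (1 - lam) ^ j) / lam := by
      apply div_le_div_of_nonneg_right _ hl0.le
      linarith
    calc B / D.card / (2 * lam) = B / D.card * (1 / 2 / lam) := by field_simp
      _ ≤ _ := mul_le_mul_of_nonneg_left h8 hb.le

end general

/-- the setting -/
structure Signed (A : Finset ℤ) : Prop where
  ne : A.Nonempty
  sign : (∀ y ∈ A, 0 < y) ∨ (∀ y ∈ A, y < 0)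

theorem Signed.ne_zero {A : Finset ℤ} (h : Signed A) {y : ℤ} (hy : y ∈ A) : y ≠ 0 := by
  rcases h.sign with h1 | h1
  · exact (h1 y hy).ne'
  · exact (h1 y hy).ne

/-- the primes dividing elements of `A` -/
noncomputable def plist (A : Finset ℤ) : List ℕ := (A.biUnion (fun y => y.natAbs.primeFactors)).toList

theorem plist_nodup (A : Finset ℤ) : (plist A).Nodup := nodup_toList _

theorem plist_prime {A : Finset ℤ} {p : ℕ} (hp : p ∈ plist A) : p.Prime := by
  unfold plist at hp
  rw [mem_toList, mem_biUnion] at hp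
  obtain ⟨y, _, hy⟩ := hp
  exact Nat.prime_of_mem_primeFactors hy

theorem Signed.isVal {A : Finset ℤ} (h : Signed A) {p : ℕ} (hp : p.Prime) :
    IsVal p (padicValInt p) A := by
  haveI := Fact.mk hp
  intro y hy l
  rw [padicValInt_dvd_iff]
  constructor
  · rintro (h1 | h1)
    · exact absurd h1 (h.ne_zero hy)
    · exact h1
  · exact Or.inr

theorem Signed.fac_inj' {A : Finset ℤ} (h : Signed A) :
    ∀ y ∈ A, ∀ y' ∈ A, offT ∅ y = offT ∅ y' → y = y' := by
  intro y hy y' hy' he
  have h1 : fac y = fac y' := by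
    ext p
    have h2 := DFunLike.congr_fun he p
    rw [offT_apply, offT_apply] at h2
    simp only [Set.mem_empty_iff_false, if_false] at h2
    rw [fac_apply, fac_apply]
    exact h2
  rcases fac_inj (h.ne_zero hy) (h.ne_zero hy') h1 with h2 | h2
  · exact h2
  · exfalso
    rcases h.sign with h3 | h3
    · have := h3 y hy
      have := h3 y' hy'
      omega
    · have := h3 y hy
      have := h3 y' hy'
      omega

theorem Signed.separate {A : Finset ℤ} (h : Signed A) :
    ∀ y ∈ A, ∀ y' ∈ A, (∀ p ∈ plist A, padicValInt p y = padicValInt p y') → y = y' := by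
  intro y hy y' hy' he
  apply h.fac_inj' y hy y' hy'
  ext p
  rw [offT_apply, offT_apply]
  simp only [Set.mem_empty_iff_false, if_false]
  by_cases hp : (p : ℕ) ∈ plist A
  · rw [he p hp]
  · have h1 : ∀ z ∈ A, padicValInt p z = 0 := by
      intro z hz
      have h2 : (p : ℕ) ∉ z.natAbs.primeFactors := by
        intro h3
        apply hp
        unfold plist
        rw [mem_toList, mem_biUnion]
        exact ⟨z, hz, h3⟩
      unfold padicValInt
      apply padicValNat.eq_zero_of_not_dvd
      intro h3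
      exact h2 (Nat.mem_primeFactors.2 ⟨p.2, h3, Int.natAbs_ne_zero.2 (h.ne_zero hz)⟩)
    rw [h1 y hy, h1 y' hy']

open Classical in
/-- coordinates -/
noncomputable def coo (p : ℕ) : (Pr →₀ ℤ) →+ ℤ :=
  if h : p.Prime then Finsupp.applyAddHom ⟨p, h⟩ else 0

theorem coo_offT {p : ℕ} (hp : p.Prime) (y : ℤ) : coo p (offT ∅ y) = (padicValInt p y : ℤ) := by
  unfold coo
  rw [dif_pos hp]
  show (offT ∅ y) ⟨p, hp⟩ = _
  rw [offT_apply]
  simp

theorem Signed.tot_ent {A : Finset ℤ} (h : Signed A) :
    Tot (fun p => padicValInt p) (fun p E => Ent (padicValInt p) E) (plist A) A =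
      A.card * Real.log A.card :=
  Tot_Ent (v := fun p => padicValInt p) (plist A) A h.separate

/-- iterated sums of `A` -/
theorem sum_growth {lam : ℝ} (hl0 : 0 < lam) (hl1 : lam ≤ 1) {A : Finset ℤ} {B : ℝ}
    (h : LB lam A B) (hA : A.Nonempty) {j : ℕ} (hj : 1 ≤ lam * j) :
    B / A.card / (2 * lam) ≤ Real.log (sI A j).card :=
  iter_half hl0 hl1 h hA (sI A) rfl (fun i => (sset_eq (sI A i) A).symm) hj

theorem prod_growth_gen {A : Finset ℤ} (h : Signed A) (j : ℕ) :
    (vI (A.image (offT ∅)) j).card ≤ (pI A j).card := by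
  rw [(vI_offT ∅ A (fun a ha => h.ne_zero ha) j).2]
  exact card_image_le

theorem sset_eq' {X D : Finset (Pr →₀ ℤ)} : sset X D = image₂ (· + ·) X D := by
  unfold sset
  rw [image₂]
  rfl

theorem vI_succ (D : Finset (Pr →₀ ℤ)) (j : ℕ) : vI D (j + 1) = sset (vI D j) D := sset_eq'.symm

theorem prod_growth {lam : ℝ} (hl0 : 0 < lam) (hl1 : lam ≤ 1) {A : Finset ℤ} (hA : Signed A)
    {B : ℝ} (h : LB lam (A.image (offT ∅)) B) {j : ℕ} (hj : 1 ≤ lam * j) :
    B / A.card / (2 * lam) ≤ Real.log (pI A j).card := by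
  have hcd : (A.image (offT ∅)).card = A.card := img_card hA.fac_inj' (Subset.refl A)
  have h1 := iter_half hl0 hl1 h (hA.ne.image _) (vI (A.image (offT ∅))) rfl
    (fun i => vI_succ _ i) hj
  rw [hcd] at h1
  refine h1.trans ?_
  apply Real.log_le_log
  · exact_mod_cast card_pos.2 (vI_nonempty (hA.ne.image _) j)
  · exact_mod_cast prod_growth_gen hA j

end Pool.Agent.Helper2.H
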