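import Mathlib

set_option autoImplicit false

/-!
A Littlewood-Offord type bound modulo a power of a large prime.
-/

open Finset

namespace Pool.Agent.Helper2.H

/-- simultaneous approximation by the pigeonhole principle -/
theorem dirichlet {m : ℕ} {P : ℤ} (hP : 0 < P) (f : ℕ → ℤ) :
    ∃ t : ℕ, 1 ≤ t ∧ t ≤ (m + 1) ^ m ∧ ∃ z : ℕ → ℤ, ∀ i < m,
      P ∣ t * f i - z i ∧ |z i| * (m + 1) < P := by
  classical
  have hm1 : (0 : ℤ) < m + 1 := by positivity
  -- the boxes
  have hbox : ∀ (t : ℕ) (i : Fin m), (((m : ℤ) + 1) * ((t * f i) % P) / P).toNat < m + 1 := by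
    intro t i
    have h1 := Int.emod_nonneg (t * f i) hP.ne'
    have h2 := Int.emod_lt_of_pos (t * f i) hP
    have h3 : ((m : ℤ) + 1) * ((t * f i) % P) / P < m + 1 := by
      apply Int.ediv_lt_of_lt_mul hP
      exact mul_lt_mul_of_pos_left h2 hm1
    omega
  set g : Fin ((m + 1) ^ m + 1) → (Fin m → Fin (m + 1)) :=
    fun t i => ⟨_, hbox t i⟩ with hg
  obtain ⟨t₁, t₂, hne, heq⟩ := Fintype.exists_ne_map_eq_of_card_lt g (by simp)
  have hcomp : ∀ t₁ t₂ : Fin ((m + 1) ^ m + 1), t₁ < t₂ → g t₁ = g t₂ →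
      ∃ t : ℕ, 1 ≤ t ∧ t ≤ (m + 1) ^ m ∧ ∃ z : ℕ → ℤ, ∀ i < m,
      P ∣ t * f i - z i ∧ |z i| * (m + 1) < P := by
    intro t₁ t₂ hlt heq
    have hlt' : (t₁ : ℕ) < t₂ := hlt
    refine ⟨(t₂ : ℕ) - t₁, by omega, by omega, fun i => (t₂ * f i) % P - (t₁ * f i) % P, ?_⟩
    intro i hi
    constructor
    · have h1 : P ∣ t₂ * f i - (t₂ * f i) % P := Int.dvd_self_sub_emod
      have h2 : P ∣ t₁ * f i - (t₁ * f i) % P := Int.dvd_self_sub_emod
      have h3 := dvd_sub h1 h2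
      have e : (((t₂ : ℕ) - t₁ : ℕ) : ℤ) * f i - ((t₂ * f i) % P - (t₁ * f i) % P) =
          t₂ * f i - (t₂ * f i) % P - (t₁ * f i - (t₁ * f i) % P) := by
        push_cast [hlt'.le]
        ring
      rw [e]
      exact h3
    · have h0 := congrFun heq ⟨i, hi⟩
      rw [hg] at h0
      simp only [Fin.mk.injEq] at h0
      set r₁ := (t₁ * f i) % P with hr₁
      set r₂ := (t₂ * f i) % P with hr₂
      have h1 : 0 ≤ r₁ := Int.emod_nonneg _ hP.ne'
      have h2 : 0 ≤ r₂ := Int.emod_nonneg _ hP.ne'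
      have e1 : 0 ≤ ((m : ℤ) + 1) * r₁ / P := Int.ediv_nonneg (by positivity) hP.le
      have e2 : 0 ≤ ((m : ℤ) + 1) * r₂ / P := Int.ediv_nonneg (by positivity) hP.le
      have h3 : ((m : ℤ) + 1) * r₁ / P = ((m : ℤ) + 1) * r₂ / P := by omega
      have h4 := Int.mul_ediv_add_emod (((m : ℤ) + 1) * r₁) P
      have h5 := Int.mul_ediv_add_emod (((m : ℤ) + 1) * r₂) P
      have h6 := Int.emod_nonneg (((m : ℤ) + 1) * r₁) hP.ne'
      have h7 := Int.emod_nonneg (((m : ℤ) + 1) * r₂) hP.ne'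
      have h8 := Int.emod_lt_of_pos (((m : ℤ) + 1) * r₁) hP
      have h9 := Int.emod_lt_of_pos (((m : ℤ) + 1) * r₂) hP
      rw [h3] at h4
      have h10 : |r₂ - r₁| * ((m : ℤ) + 1) = |(r₂ - r₁) * (m + 1)| := by
        rw [abs_mul, abs_of_pos hm1]
      show |r₂ - r₁| * ((m : ℤ) + 1) < P
      rw [h10, abs_lt]
      constructor <;> nlinarith
  rcases lt_or_gt_of_ne hne with h | h
  · exact hcomp _ _ h heq
  · exact hcomp _ _ h heq.symm

theorem lo_bound {p l m : ℕ} (hp : p.Prime) (hpm : (m + 1) ^ m < p) (f : ℕ → ℤ)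
    (hf : ∀ i < m, ¬ (p : ℤ) ^ l ∣ f i) (c : ℤ) :
    ((range m).powerset.filter (fun E => (p : ℤ) ^ l ∣ c - ∑ i ∈ E, f i)).card ≤
      m.choose (m / 2) := by
  classical
  set P : ℤ := (p : ℤ) ^ l with hP
  have hP0 : 0 < P := by
    have : (0 : ℤ) < p := by exact_mod_cast hp.pos
    positivity
  obtain ⟨t, ht1, ht2, z, hz⟩ := dirichlet (m := m) hP0 f
  have hcop : IsCoprime (t : ℤ) P := by
    rw [hP]
    apply IsCoprime.pow_right
    rw [Nat.isCoprime_iff_coprime]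
    rw [Nat.coprime_comm, Nat.Prime.coprime_iff_not_dvd hp]
    intro h
    have := Nat.le_of_dvd (by omega) h
    omega
  have hz0 : ∀ i < m, z i ≠ 0 := by
    intro i hi h0
    have h1 := (hz i hi).1
    rw [h0, sub_zero] at h1
    exact hf i hi (hcop.symm.dvd_of_dvd_mul_left h1)
  -- the flipped set
  set Φ : Finset ℕ → Finset (Fin m) := fun E =>
    univ.filter (fun i : Fin m => ¬ (((i : ℕ) ∈ E) ↔ z i < 0)) with hΦ
  have hmem : ∀ E : Finset ℕ, ∀ i : Fin m, i ∈ Φ E ↔ ¬ (((i : ℕ) ∈ E) ↔ z i < 0) := by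
    intro E i
    rw [hΦ]
    simp
  set 𝒮 := (range m).powerset.filter (fun E => P ∣ c - ∑ i ∈ E, f i) with h𝒮
  have hinj : Set.InjOn Φ (𝒮 : Set (Finset ℕ)) := by
    intro E hE F hF h
    have hE' := mem_powerset.1 (mem_filter.1 (mem_coe.1 hE)).1
    have hF' := mem_powerset.1 (mem_filter.1 (mem_coe.1 hF)).1
    ext i
    by_cases hi : i < m
    · have h1 := hmem E ⟨i, hi⟩
      have h2 := hmem F ⟨i, hi⟩
      rw [h] at h1
      simp only at h1 h2
      tauto
    · constructor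
      · intro h1; exact absurd (mem_range.1 (hE' h1)) hi
      · intro h1; exact absurd (mem_range.1 (hF' h1)) hi
  rw [← card_image_of_injOn hinj]
  have hanti : IsAntichain (· ⊆ ·) (SetLike.coe (𝒮.image Φ)) := by
    intro E' hE' F' hF' hne hsub
    rw [coe_image] at hE' hF'
    obtain ⟨E, hE, rfl⟩ := hE'
    obtain ⟨F, hF, rfl⟩ := hF'
    have hE1 := mem_powerset.1 (mem_filter.1 (mem_coe.1 hE)).1
    have hF1 := mem_powerset.1 (mem_filter.1 (mem_coe.1 hF)).1
    have hE2 := (mem_filter.1 (mem_coe.1 hE)).2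
    have hF2 := (mem_filter.1 (mem_coe.1 hF)).2
    apply hne
    -- sums over subsets as sums over `Fin m`
    have hind : ∀ (K : Finset ℕ), K ⊆ range m → ∀ u : ℕ → ℤ,
        ∑ i ∈ K, u i = ∑ i : Fin m, if (i : ℕ) ∈ K then u i else 0 := by
      intro K hK u
      rw [Fin.sum_univ_eq_sum_range (fun i => if i ∈ K then u i else 0) m, ← sum_filter]
      congr 1
      ext i
      rw [mem_filter]
      constructor
      · intro h; exact ⟨hK h, h⟩
      · intro h; exact h.2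
    have h1 : ∑ i ∈ F, z i - ∑ i ∈ E, z i =
        ∑ i : Fin m, if i ∈ Φ F ∧ i ∉ Φ E then |z i| else 0 := by
      rw [hind F hF1 z, hind E hE1 z, ← sum_sub_distrib]
      apply sum_congr rfl
      intro i _
      have a1 := hmem E i
      have a2 := hmem F i
      have a3 : i ∈ Φ E → i ∈ Φ F := fun h => hsub h
      rcases lt_or_ge (z i) 0 with hneg | hnn
      · rw [abs_of_neg hneg]
        simp only [hneg, iff_true] at a1 a2
        by_cases b1 : (i : ℕ) ∈ E <;> by_cases b2 : (i : ℕ) ∈ F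
        · have c1 : i ∉ Φ E := fun h => (a1.1 h) b1
          have c2 : i ∉ Φ F := fun h => (a2.1 h) b2
          simp [b1, b2, c1, c2]
        · have c1 : i ∉ Φ E := fun h => (a1.1 h) b1
          have c2 : i ∈ Φ F := a2.2 b2
          simp [b1, b2, c1, c2]
        · have c1 : i ∈ Φ E := a1.2 b1
          have c2 : i ∉ Φ F := fun h => (a2.1 h) b2
          exact absurd (a3 c1) c2
        · have c1 : i ∈ Φ E := a1.2 b1
          have c2 : i ∈ Φ F := a2.2 b2
          simp [b1, b2, c1, c2]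
      · rw [abs_of_nonneg hnn]
        have hnn' : ¬ z i < 0 := not_lt.2 hnn
        simp only [hnn', iff_false, not_not] at a1 a2
        by_cases b1 : (i : ℕ) ∈ E <;> by_cases b2 : (i : ℕ) ∈ F
        · simp [b1, b2, a1.2 b1, a2.2 b2]
        · exact absurd (a3 (a1.2 b1)) (fun h => b2 (a2.1 h))
        · have c1 : i ∉ Φ E := fun h => b1 (a1.1 h)
          simp [b1, b2, c1, a2.2 b2]
        · have c1 : i ∉ Φ E := fun h => b1 (a1.1 h)
          have c2 : i ∉ Φ F := fun h => b2 (a2.1 h)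
          simp [b1, b2, c1, c2]
    -- divisibility
    have h2 : P ∣ ∑ i ∈ F, z i - ∑ i ∈ E, z i := by
      have key : ∀ (K : Finset ℕ), K ⊆ range m → P ∣ t * ∑ i ∈ K, f i - ∑ i ∈ K, z i := by
        intro K hK
        rw [mul_sum, ← sum_sub_distrib]
        apply dvd_sum
        intro i hi
        exact (hz i (mem_range.1 (hK hi))).1
      have k1 := key E hE1
      have k2 := key F hF1
      have k3 := (dvd_sub hE2 hF2).mul_left (t : ℤ)
      have e : ∑ i ∈ F, z i - ∑ i ∈ E, z i =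
          t * (c - ∑ i ∈ E, f i - (c - ∑ i ∈ F, f i)) - (t * ∑ i ∈ F, f i - ∑ i ∈ F, z i) +
            (t * ∑ i ∈ E, f i - ∑ i ∈ E, z i) := by ring
      rw [e]
      exact dvd_add (dvd_sub k3 k2) k1
    have h3 : 0 ≤ ∑ i : Fin m, if i ∈ Φ F ∧ i ∉ Φ E then |z i| else 0 := by
      apply sum_nonneg
      intro i _
      split_ifs
      · exact abs_nonneg _
      · exact le_refl _
    have h4 : ∑ i : Fin m, (if i ∈ Φ F ∧ i ∉ Φ E then |z i| else 0) < P := by
      have h5 : (∑ i : Fin m, (if i ∈ Φ F ∧ i ∉ Φ E then |z i| else 0)) * ((m : ℤ) + 1) ≤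
          m * (P - 1) := by
        rw [sum_mul]
        calc ∑ i : Fin m, (if i ∈ Φ F ∧ i ∉ Φ E then |z i| else 0) * ((m : ℤ) + 1)
            ≤ ∑ _i : Fin m, (P - 1) := by
              apply sum_le_sum
              intro i _
              have h6 := (hz i i.2).2
              split_ifs
              · omega
              · rw [zero_mul]; omega
          _ = _ := by
              simp only [sum_const, card_univ, Fintype.card_fin, nsmul_eq_mul]
      have h6 : (m : ℤ) * (P - 1) < P * (m + 1) := by nlinarith [(Nat.cast_nonneg m : (0:ℤ) ≤ m)]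
      have h7 : (∑ i : Fin m, (if i ∈ Φ F ∧ i ∉ Φ E then |z i| else 0)) * ((m : ℤ) + 1) <
          P * (m + 1) := lt_of_le_of_lt h5 h6
      exact lt_of_mul_lt_mul_right h7 (by positivity)
    rw [h1] at h2
    have h5 := Int.eq_zero_of_dvd_of_nonneg_of_lt h3 h4 h2
    rw [sum_eq_zero_iff_of_nonneg (by
      intro i _
      split_ifs
      · exact abs_nonneg _
      · exact le_refl _)] at h5
    apply Subset.antisymm hsub
    intro i hi
    by_contra hni
    have h6 := h5 i (mem_univ _)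
    rw [if_pos ⟨hi, hni⟩, abs_eq_zero] at h6
    exact hz0 i i.2 h6
  have := hanti.sperner
  simpa using this

theorem central (n : ℕ) : (Nat.centralBinom n : ℝ) ^ 2 * (2 * n + 1) ≤ 16 ^ n := by
  induction n with
  | zero => simp
  | succ n ih =>
    have h1 : ((n : ℝ) + 1) * Nat.centralBinom (n + 1) = 2 * (2 * n + 1) * Nat.centralBinom n := by
      exact_mod_cast Nat.succ_mul_centralBinom_succ n
    have hn : (0 : ℝ) < (n : ℝ) + 1 := by positivity
    have h2 : ((n : ℝ) + 1) ^ 2 * ((Nat.centralBinom (n + 1) : ℝ) ^ 2 * (2 * (n + 1 : ℕ) + 1)) =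
        (2 * (2 * n + 1)) ^ 2 * Nat.centralBinom n ^ 2 * (2 * (n + 1 : ℕ) + 1) := by
      have : ((n : ℝ) + 1) ^ 2 * ((Nat.centralBinom (n + 1) : ℝ) ^ 2 * (2 * (n + 1 : ℕ) + 1)) =
          (((n : ℝ) + 1) * Nat.centralBinom (n + 1)) ^ 2 * (2 * (n + 1 : ℕ) + 1) := by ring
      rw [this, h1]
      ring
    have h3 : ((n : ℝ) + 1) ^ 2 * ((Nat.centralBinom (n + 1) : ℝ) ^ 2 * (2 * (n + 1 : ℕ) + 1)) ≤
        ((n : ℝ) + 1) ^ 2 * 16 ^ (n + 1) := by
      rw [h2]
      have hc : (0 : ℝ) ≤ Nat.centralBinom n ^ 2 := by positivity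
      have h4 : 4 * (2 * (n : ℝ) + 1) * (2 * (n + 1 : ℕ) + 1) ≤ 16 * ((n : ℝ) + 1) ^ 2 := by
        push_cast
        nlinarith
      calc (2 * (2 * (n : ℝ) + 1)) ^ 2 * Nat.centralBinom n ^ 2 * (2 * (n + 1 : ℕ) + 1)
          = (Nat.centralBinom n ^ 2 * (2 * n + 1)) * (4 * (2 * n + 1) * (2 * (n + 1 : ℕ) + 1)) := by
            ring
        _ ≤ 16 ^ n * (16 * ((n : ℝ) + 1) ^ 2) := by
            apply mul_le_mul ih h4 (by positivity) (by positivity)
        _ = _ := by ring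
    exact le_of_mul_le_mul_left h3 (by positivity)

/-- choice of the number of steps -/
theorem exists_steps {α : ℝ} (hα : 0 < α) (hα1 : α ≤ 1) : ∃ m : ℕ, 1 ≤ m ∧ (m : ℝ) ≤ 18 / α ^ 2 ∧
    (m.choose (m / 2) : ℝ) ≤ α / 4 * 2 ^ m := by
  set n : ℕ := ⌈8 / α ^ 2⌉₊ with hn
  have h1 : 8 / α ^ 2 ≤ n := Nat.le_ceil _
  have h2 : (n : ℝ) < 8 / α ^ 2 + 1 := Nat.ceil_lt_add_one (by positivity)
  have hα2 : α ^ 2 ≤ 1 := by nlinarith
  have h3 : 1 ≤ 1 / α ^ 2 := by
    rw [le_div_iff₀ (by positivity)]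
    linarith
  have h4 : (8 : ℝ) / α ^ 2 = 8 * (1 / α ^ 2) := by ring
  have h5 : (1 : ℝ) ≤ n := by linarith
  refine ⟨2 * n, ?_, ?_, ?_⟩
  · have : 1 ≤ n := by exact_mod_cast h5
    omega
  · push_cast
    have : (18 : ℝ) / α ^ 2 = 18 * (1 / α ^ 2) := by ring
    rw [this]
    linarith
  · have h6 : (2 * n).choose (2 * n / 2) = Nat.centralBinom n := by
      rw [Nat.centralBinom, Nat.mul_div_cancel_left _ (by norm_num)]
    rw [h6]
    have h7 := central n
    have h8 : (16 : ℝ) ≤ α ^ 2 * (2 * n + 1) := by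
      have := mul_le_mul_of_nonneg_left h1 (show 0 ≤ α ^ 2 by positivity)
      have h9 : α ^ 2 * (8 / α ^ 2) = 8 := by field_simp
      nlinarith
    have h9 : ((Nat.centralBinom n : ℝ)) ^ 2 ≤ (α / 4 * 2 ^ (2 * n)) ^ 2 := by
      have h10 : (α / 4 * (2 : ℝ) ^ (2 * n)) ^ 2 = α ^ 2 / 16 * 16 ^ n := by
        rw [mul_pow, ← pow_mul, show 2 * n * 2 = 4 * n by ring, pow_mul]
        norm_num
        ring
      rw [h10]
      have hc : (0 : ℝ) ≤ Nat.centralBinom n ^ 2 := by positivity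
      have h11 := mul_le_mul_of_nonneg_left h8 hc
      have h12 := mul_le_mul_of_nonneg_left h7 (show 0 ≤ α ^ 2 by positivity)
      nlinarith
    exact (pow_le_pow_iff_left₀ (by positivity) (by positivity) (by norm_num)).1 h9

end Pool.Agent.Helper2.H
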