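import Pool.Agent.Helper2.HPart
import Pool.Agent.Helper2.HSperner

set_option autoImplicit false

/-!
The node: a set with a rich class modulo a power of a large prime moves by a definite amount when
one adds elements outside the corresponding subgroup.
-/

open Finset

namespace Pool.Agent.Helper2.H

open Pool.Agent.Helper2.F Pool.Agent.Helper2.G

/-- lazy averaging -/
noncomputable def opT (D : Finset ℤ) (F : ℤ → ℝ) : ℤ → ℝ :=
  fun c => (∑ y ∈ D, (F c + F (c - y))) / (2 * D.card)

theorem opT_shift (D : Finset ℤ) (y : ℤ) (m : ℕ) : ∀ (F : ℤ → ℝ) (c : ℤ),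
    (opT D)^[m] F c + (opT D)^[m] F (c - y) = (opT D)^[m] (fun c => F c + F (c - y)) c := by
  induction m with
  | zero => intro F c; rfl
  | succ m ih =>
    intro F c
    rw [Function.iterate_succ_apply', Function.iterate_succ_apply']
    unfold opT
    rw [← add_div, ← sum_add_distrib]
    congr 1
    apply sum_congr rfl
    intro y' _
    have h1 := ih F c
    have h2 := ih F (c - y')
    unfold opT at h1 h2
    rw [← h1, ← h2]
    have e : c - y' - y = c - y - y' := by ring
    rw [e]
    ring

theorem opT_lower {D : Finset ℤ} (hD : D.Nonempty) {F : ℤ → ℝ} {δ : ℝ}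
    (h : ∀ c, F c * D.card ≤ ∑ y ∈ D, F (c - y) + δ * D.card) (m : ℕ) :
    ∀ c, F c - m * (δ / 2) ≤ (opT D)^[m] F c := by
  have hDp : (0 : ℝ) < D.card := by exact_mod_cast card_pos.2 hD
  induction m with
  | zero => intro c; simp
  | succ m ih =>
    intro c
    rw [Function.iterate_succ_apply']
    show _ ≤ (∑ y ∈ D, ((opT D)^[m] F c + (opT D)^[m] F (c - y))) / (2 * D.card)
    rw [le_div_iff₀ (by positivity)]
    have h1 : ∑ y ∈ D, ((F c - m * (δ / 2)) + (F (c - y) - m * (δ / 2))) ≤
        ∑ y ∈ D, ((opT D)^[m] F c + (opT D)^[m] F (c - y)) :=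
      sum_le_sum (fun y _ => add_le_add (ih c) (ih (c - y)))
    refine le_trans ?_ h1
    rw [sum_add_distrib, sum_const, sum_sub_distrib, sum_const, nsmul_eq_mul, nsmul_eq_mul]
    have h2 := h c
    push_cast
    nlinarith

theorem opT_upper {D : Finset ℤ} (hD : D.Nonempty) (m : ℕ) : ∀ (F : ℤ → ℝ) (K : ℝ),
    (∀ f : ℕ → ℤ, (∀ i, f i ∈ D) → ∀ c,
      ∑ E ∈ (range m).powerset, F (c - ∑ i ∈ E, f i) ≤ 2 ^ m * K) →
    ∀ c, (opT D)^[m] F c ≤ K := by
  have hDp : (0 : ℝ) < D.card := by exact_mod_cast card_pos.2 hD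
  induction m with
  | zero =>
    intro F K h c
    obtain ⟨y, hy⟩ := hD
    have := h (fun _ => y) (fun _ => hy) c
    simpa using this
  | succ m ih =>
    intro F K h c
    rw [Function.iterate_succ_apply']
    show (∑ y ∈ D, ((opT D)^[m] F c + (opT D)^[m] F (c - y))) / (2 * D.card) ≤ K
    rw [div_le_iff₀ (by positivity)]
    have h1 : ∀ y ∈ D, (opT D)^[m] F c + (opT D)^[m] F (c - y) ≤ 2 * K := by
      intro y hy
      rw [opT_shift]
      apply ih
      intro f hf c
      have h2 := h (Function.update f m y) (by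
        intro i
        rcases eq_or_ne i m with rfl | hi
        · rw [Function.update_self]; exact hy
        · rw [Function.update_of_ne hi]; exact hf i) c
      rw [range_add_one, sum_powerset_insert notMem_range_self] at h2
      have e1 : ∑ E ∈ (range m).powerset, F (c - ∑ i ∈ E, Function.update f m y i) =
          ∑ E ∈ (range m).powerset, F (c - ∑ i ∈ E, f i) := by
        apply sum_congr rfl
        intro E hE
        congr 2
        apply sum_congr rfl
        intro i hi
        have : i ∈ range m := mem_powerset.1 hE hi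
        rw [mem_range] at this
        rw [Function.update_of_ne (by omega)]
      have e2 : ∑ E ∈ (range m).powerset, F (c - ∑ i ∈ insert m E, Function.update f m y i) =
          ∑ E ∈ (range m).powerset, F (c - ∑ i ∈ E, f i - y) := by
        apply sum_congr rfl
        intro E hE
        have hmE : m ∉ E := by
          intro hm
          have : m ∈ range m := mem_powerset.1 hE hm
          rw [mem_range] at this
          omega
        rw [sum_insert hmE, Function.update_self]
        have e3 : ∑ i ∈ E, Function.update f m y i = ∑ i ∈ E, f i := by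
          apply sum_congr rfl
          intro i hi
          have : i ∈ range m := mem_powerset.1 hE hi
          rw [mem_range] at this
          rw [Function.update_of_ne (by omega)]
        rw [e3]
        congr 1
        ring
      rw [e1, e2] at h2
      rw [sum_add_distrib]
      refine h2.trans (le_of_eq ?_)
      rw [pow_succ]
      ring
    refine (sum_le_sum h1).trans (le_of_eq ?_)
    rw [sum_const, nsmul_eq_mul]
    ring

/-- the gap -/
theorem gap {p l m : ℕ} (hp : p.Prime) (hpm : (m + 1) ^ m < p) (hm1 : 1 ≤ m) {α : ℝ}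
    (hα : 0 < α) (hm : (m.choose (m / 2) : ℝ) ≤ α / 4 * 2 ^ m) {X D : Finset ℤ}
    (hX : X.Nonempty) (hD : D.Nonempty) (hDp : ∀ y ∈ D, ¬ (p : ℤ) ^ l ∣ y) {c₀ : ℤ}
    (hc₀ : α * X.card ≤ nn p X l c₀) :
    ∃ c : ℤ, ∑ y ∈ D, (nn p X l (c - y) : ℝ) + α / m * X.card * D.card < nn p X l c * D.card := by
  classical
  by_contra hcon
  push Not at hcon
  have hXp : (0 : ℝ) < X.card := by exact_mod_cast card_pos.2 hX
  have hmp : (0 : ℝ) < m := by exact_mod_cast hm1
  set F : ℤ → ℝ := fun c => (nn p X l c : ℝ) with hF
  have h1 := opT_lower hD (F := F) (δ := α / m * X.card) (fun c => by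
    have := hcon c
    show (nn p X l c : ℝ) * D.card ≤ ∑ y ∈ D, (nn p X l (c - y) : ℝ) + α / m * X.card * D.card
    exact this) m c₀
  have h2 := opT_upper hD m F (α / 4 * X.card) (by
    intro f hf c
    have h3 : ∀ E ∈ (range m).powerset, F (c - ∑ i ∈ E, f i) =
        ∑ x ∈ X, if (p : ℤ) ^ l ∣ (c - x) - ∑ i ∈ E, f i then (1 : ℝ) else 0 := by
      intro E _
      rw [hF]
      simp only
      unfold nn
      rw [card_filter]
      push_cast
      apply sum_congr rfl
      intro x _
      have e : c - ∑ i ∈ E, f i - x = c - x - ∑ i ∈ E, f i := by ring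
      rw [e]
    rw [sum_congr rfl h3, sum_comm]
    have h4 : ∀ x ∈ X, ∑ E ∈ (range m).powerset,
        (if (p : ℤ) ^ l ∣ (c - x) - ∑ i ∈ E, f i then (1 : ℝ) else 0) ≤ α / 4 * 2 ^ m := by
      intro x _
      rw [← sum_filter, sum_const, nsmul_eq_mul, mul_one]
      refine le_trans ?_ hm
      exact_mod_cast lo_bound hp hpm f (fun i _ => hDp _ (hf i)) (c - x)
    refine (sum_le_sum h4).trans (le_of_eq ?_)
    rw [sum_const, nsmul_eq_mul]
    ring) c₀
  have h3 : F c₀ - m * (α / m * X.card / 2) ≤ α / 4 * X.card := h1.trans h2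
  have h4 : (m : ℝ) * (α / m * X.card / 2) = α / 2 * X.card := by field_simp
  rw [h4] at h3
  have h5 : α * X.card ≤ F c₀ := hc₀
  have h6 : 0 < α * X.card := by positivity
  linarith

end Pool.Agent.Helper2.H
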