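import Pool.Agent.Helper2.GNodeM2

set_option autoImplicit false

/-!
Splitting the summands in two parts: a lower bound that is linear in the smaller part.
-/

open Finset

namespace Pool.Agent.Helper2.H

open Pool.Agent.Helper2.F

theorem pair_ge' {η a b M t : ℝ} (hη0 : 0 < η) (hη1 : η < 1) (ha : 0 ≤ a) (hb : 0 ≤ b)
    (hM : M = η * a + (1 - η) * b) (ht : 0 ≤ t) :
    η * (1 - η) * (t * |a - b| - t ^ 2 * (a + b + M) / 2) ≤
      η * (a * Real.log (a / M)) + (1 - η) * (b * Real.log (b / M)) := by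
  have hη' : 0 < 1 - η := by linarith
  rcases (show 0 ≤ M by rw [hM]; positivity).eq_or_lt with h0 | h0
  · have h1 : η * a = 0 ∧ (1 - η) * b = 0 := by
      have h2 : 0 ≤ η * a := by positivity
      have h3 : 0 ≤ (1 - η) * b := by positivity
      constructor <;> linarith
    have ha0 : a = 0 := by
      rcases mul_eq_zero.1 h1.1 with h | h
      · linarith
      · exact h
    have hb0 : b = 0 := by
      rcases mul_eq_zero.1 h1.2 with h | h
      · linarith
      · exact h
    rw [← h0, ha0, hb0]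
    simp
  · have h1 := term_ge ha h0 (t := (1 - η) * t) (by positivity)
    have h2 := term_ge hb h0 (t := η * t) (by positivity)
    have h3 : |a - M| = (1 - η) * |a - b| := by
      have : a - M = (1 - η) * (a - b) := by rw [hM]; ring
      rw [this, abs_mul, abs_of_pos hη']
    have h4 : |b - M| = η * |a - b| := by
      have : b - M = η * (b - a) := by rw [hM]; ring
      rw [this, abs_mul, abs_of_pos hη0, abs_sub_comm]
    rw [h3] at h1
    rw [h4] at h2
    have h5 := mul_le_mul_of_nonneg_left h1 hη0.le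
    have h6 := mul_le_mul_of_nonneg_left h2 hη'.le
    refine le_trans ?_ (add_le_add h5 h6)
    have h7 : η * a + (1 - η) * b - M = 0 := by rw [hM]; ring
    have h8 : 0 ≤ η * (1 - η) * t ^ 2 * (η * a + (1 - η) * b) / 2 := by positivity
    have h9 : η * ((a - M) + (1 - η) * t * ((1 - η) * |a - b|) -
        ((1 - η) * t) ^ 2 * (a + M) / 2) +
        (1 - η) * ((b - M) + η * t * (η * |a - b|) - (η * t) ^ 2 * (b + M) / 2) =
        η * (1 - η) * (t * |a - b|) * ((1 - η) + η) + (η * a + (1 - η) * b - M)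
        - η * (1 - η) * t ^ 2 * ((1 - η) * (a + M) + η * (b + M)) / 2 := by ring
    rw [h9, h7]
    have h10 : (1 - η) * (a + M) + η * (b + M) = (a + b + M) - (η * a + (1 - η) * b) := by ring
    rw [h10]
    nlinarith

variable {G : Type*} [AddCommGroup G] [DecidableEq G]

theorem rep_union {X D₁ D₀ : Finset G} (hdis : Disjoint D₁ D₀) (s : G) :
    rep X (D₁ ∪ D₀) s = rep X D₁ s + rep X D₀ s := by
  unfold rep
  rw [filter_union, card_union_of_disjoint]
  exact disjoint_filter_filter hdis

/-- superadditivity with gain -/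
theorem J_part {X D₁ D₀ : Finset G} (hdis : Disjoint D₁ D₀) (h1 : D₁.Nonempty)
    (h0 : D₀.Nonempty) {γ : ℝ} (hγ : 0 ≤ γ) (T : Finset G)
    (hT : γ * X.card ≤ ∑ s ∈ T, ((rep X D₁ s : ℝ) / D₁.card - (rep X D₀ s : ℝ) / D₀.card)) :
    J X D₁ + J X D₀ + X.card * (((D₁.card : ℝ) * D₀.card / (D₁ ∪ D₀).card) * (γ ^ 2 / 6)) ≤
      J X (D₁ ∪ D₀) := by
  classical
  set D := D₁ ∪ D₀ with hD
  have hp1 : (0 : ℝ) < D₁.card := by exact_mod_cast card_pos.2 h1
  have hp0 : (0 : ℝ) < D₀.card := by exact_mod_cast card_pos.2 h0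
  have hsum : (D₁.card : ℝ) + D₀.card = D.card := by
    rw [hD, card_union_of_disjoint hdis]; push_cast; ring
  have hpD : (0 : ℝ) < D.card := by linarith
  set d := (D.card : ℝ) with hd
  set d1 := (D₁.card : ℝ) with hd1
  set d0 := (D₀.card : ℝ) with hd0
  set S := sset X D with hS
  have hSD : ∀ x ∈ X, ∀ y ∈ D, x + y ∈ S := fun x hx y hy => mem_sset hx hy
  have hS1 : ∀ x ∈ X, ∀ y ∈ D₁, x + y ∈ S := fun x hx y hy =>
    mem_sset hx (mem_union_left _ hy)
  have hS0 : ∀ x ∈ X, ∀ y ∈ D₀, x + y ∈ S := fun x hx y hy =>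
    mem_sset hx (mem_union_right _ hy)
  set a : G → ℝ := fun s => (rep X D₁ s : ℝ) / d1 with ha
  set b : G → ℝ := fun s => (rep X D₀ s : ℝ) / d0 with hb
  set M : G → ℝ := fun s => (rep X D s : ℝ) / d with hM
  set η := d1 / d with hη
  have hη0 : 0 < η := by positivity
  have hη' : 1 - η = d0 / d := by
    rw [hη, eq_div_iff hpD.ne', sub_mul, div_mul_cancel₀ _ hpD.ne']
    linarith
  have hη1 : η < 1 := by
    have : 0 < d0 / d := by positivity
    linarith
  have hMab : ∀ s, M s = η * a s + (1 - η) * b s := by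
    intro s
    rw [hη', hη, hM, ha, hb]
    simp only
    rw [hD, rep_union hdis s]
    push_cast
    field_simp
  have ha0 : ∀ s, 0 ≤ a s := fun s => by rw [ha]; positivity
  have hb0 : ∀ s, 0 ≤ b s := fun s => by rw [hb]; positivity
  -- the identity
  have hJ : J X D = J X D₁ + J X D₀ +
      ∑ s ∈ S, ((rep X D₁ s : ℝ) * Real.log (a s / M s) +
        (rep X D₀ s : ℝ) * Real.log (b s / M s)) := by
    rw [sum_add_distrib, ← sum_pairs X D₁ (fun s => Real.log (a s / M s)) hS1,
      ← sum_pairs X D₀ (fun s => Real.log (b s / M s)) hS0]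
    unfold J
    have hx : ∀ x ∈ X, ∑ y ∈ D, Real.log (d / (rep X D (x + y) : ℝ)) =
        ((∑ y ∈ D₁, Real.log (d1 / (rep X D₁ (x + y) : ℝ))) +
          ∑ y ∈ D₀, Real.log (d0 / (rep X D₀ (x + y) : ℝ))) +
        (∑ y ∈ D₁, Real.log (a (x + y) / M (x + y)) +
          ∑ y ∈ D₀, Real.log (b (x + y) / M (x + y))) := by
      intro x hx
      rw [hD, sum_union hdis]
      have e1 : ∀ y ∈ D₁, Real.log (d / (rep X (D₁ ∪ D₀) (x + y) : ℝ)) =
          Real.log (d1 / (rep X D₁ (x + y) : ℝ)) + Real.log (a (x + y) / M (x + y)) := by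
        intro y hy
        have hr : (0 : ℝ) < rep X D₁ (x + y) := by exact_mod_cast rep_pos hx hy
        have hr' : (0 : ℝ) < rep X D (x + y) := by
          exact_mod_cast rep_pos hx (mem_union_left _ hy)
        rw [← Real.log_mul (by positivity) (by rw [ha, hM]; positivity)]
        congr 1
        rw [ha, hM]
        simp only
        rw [← hD]
        field_simp
      have e0 : ∀ y ∈ D₀, Real.log (d / (rep X (D₁ ∪ D₀) (x + y) : ℝ)) =
          Real.log (d0 / (rep X D₀ (x + y) : ℝ)) + Real.log (b (x + y) / M (x + y)) := by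
        intro y hy
        have hr : (0 : ℝ) < rep X D₀ (x + y) := by exact_mod_cast rep_pos hx hy
        have hr' : (0 : ℝ) < rep X D (x + y) := by
          exact_mod_cast rep_pos hx (mem_union_right _ hy)
        rw [← Real.log_mul (by positivity) (by rw [hb, hM]; positivity)]
        congr 1
        rw [hb, hM]
        simp only
        rw [← hD]
        field_simp
      rw [sum_congr rfl e1, sum_congr rfl e0, sum_add_distrib, sum_add_distrib]
      ring
    rw [sum_congr rfl hx]
    simp_rw [sum_add_distrib]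
    rfl
  rw [hJ]
  apply add_le_add le_rfl
  set t : ℝ := γ / 3 with ht
  have ht0 : 0 ≤ t := by positivity
  have hpt : ∀ s ∈ S, d * (η * (1 - η) * (t * |a s - b s| - t ^ 2 * (a s + b s + M s) / 2)) ≤
      (rep X D₁ s : ℝ) * Real.log (a s / M s) +
        (rep X D₀ s : ℝ) * Real.log (b s / M s) := by
    intro s _
    have h := pair_ge' hη0 hη1 (ha0 s) (hb0 s) (hMab s) ht0
    have h2 := mul_le_mul_of_nonneg_left h hpD.le
    refine h2.trans (le_of_eq ?_)
    have e1 : d * (η * a s) = (rep X D₁ s : ℝ) := by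
      rw [hη, ha]; simp only; field_simp
    have e0 : d * ((1 - η) * b s) = (rep X D₀ s : ℝ) := by
      rw [hη', hb]; simp only; field_simp
    rw [← e1, ← e0]
    ring
  refine le_trans ?_ (sum_le_sum hpt)
  have hsa : ∑ s ∈ S, a s = X.card := by
    rw [ha]; simp only
    rw [← sum_div, sum_rep X D₁ hS1]
    field_simp
    rfl
  have hsb : ∑ s ∈ S, b s = X.card := by
    rw [hb]; simp only
    rw [← sum_div, sum_rep X D₀ hS0]
    field_simp
    rfl
  have hsM : ∑ s ∈ S, M s = X.card := by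
    rw [hM]; simp only
    rw [← sum_div, sum_rep X D hSD]
    field_simp
    rfl
  have habs : γ * X.card ≤ ∑ s ∈ S, |a s - b s| := by
    refine hT.trans ?_
    have h2 : ∑ s ∈ T, (a s - b s) ≤ ∑ s ∈ T, |a s - b s| :=
      sum_le_sum (fun s _ => le_abs_self _)
    refine h2.trans ?_
    have h3 : ∑ s ∈ T, |a s - b s| = ∑ s ∈ T.filter (fun s => s ∈ S), |a s - b s| := by
      symm
      apply sum_subset (filter_subset _ _)
      intro s hs hs'
      have hsS : s ∉ S := fun h => hs' (mem_filter.2 ⟨hs, h⟩)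
      have hz : ∀ E : Finset G, (∀ x ∈ X, ∀ y ∈ E, x + y ∈ S) → rep X E s = 0 := by
        intro E hE
        unfold rep
        rw [card_eq_zero]
        apply filter_false_of_mem
        intro y hy hx
        apply hsS
        have := hE _ hx y hy
        rwa [sub_add_cancel] at this
      have e1 : a s = 0 := by rw [ha]; simp only; rw [hz D₁ hS1]; simp
      have e0 : b s = 0 := by rw [hb]; simp only; rw [hz D₀ hS0]; simp
      rw [e1, e0]; simp
    rw [h3]
    apply sum_le_sum_of_subset_of_nonneg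
    · intro s hs; exact (mem_filter.1 hs).2
    · intro s _ _; exact abs_nonneg _
  have hfin : ∑ s ∈ S, d * (η * (1 - η) * (t * |a s - b s| - t ^ 2 * (a s + b s + M s) / 2)) =
      d * (η * (1 - η)) * (t * ∑ s ∈ S, |a s - b s| - t ^ 2 * (3 * X.card) / 2) := by
    rw [← mul_sum, ← mul_sum, sum_sub_distrib, ← mul_sum, ← sum_div, ← mul_sum,
      sum_add_distrib, sum_add_distrib, hsa, hsb, hsM]
    ring
  rw [hfin]
  have h5 : d * (η * (1 - η)) = d1 * d0 / d := by
    rw [hη', hη]; field_simp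
  rw [h5]
  have h6 : 0 ≤ d1 * d0 / d := by positivity
  have h7 : (X.card : ℝ) * (γ ^ 2 / 6) ≤
      t * ∑ s ∈ S, |a s - b s| - t ^ 2 * (3 * X.card) / 2 := by
    have h8 := mul_le_mul_of_nonneg_left habs ht0
    rw [ht] at h8 ⊢
    nlinarith
  calc (X.card : ℝ) * (d1 * d0 / d * (γ ^ 2 / 6)) = d1 * d0 / d * (X.card * (γ ^ 2 / 6)) := by ring
    _ ≤ _ := mul_le_mul_of_nonneg_left h7 h6

theorem J_free {X D₁ D₀ : Finset G} (hdis : Disjoint D₁ D₀) :
    J X D₁ + J X D₀ ≤ J X (D₁ ∪ D₀) := by
  rcases D₁.eq_empty_or_nonempty with h | h1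
  · rw [h, empty_union]
    unfold J
    simp
  rcases D₀.eq_empty_or_nonempty with h | h0
  · rw [h, union_empty]
    unfold J
    simp
  have := J_part hdis h1 h0 (X := X) (γ := 0) le_rfl ∅ (by simp)
  simpa using this

end Pool.Agent.Helper2.H
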