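import Pool.Agent.Helper2.HSumTree

set_option autoImplicit false

/-!
The product side for almost maximal growth.
-/

open Finset

namespace Pool.Agent.Helper2.H

open Pool.Agent.Helper2.F Pool.Agent.Helper2.G

variable {G : Type*} [AddCommGroup G] [DecidableEq G]

theorem LB_free {lam : ℝ} (hlam : 0 ≤ lam) {χ : G →+ ℤ} {D : Finset G} {B : ℤ → ℝ}
    (hB : ∀ c ∈ D.image χ, LB lam (fib χ D c) (B c)) : LB lam D (∑ c ∈ D.image χ, B c) := by
  intro X hX
  refine le_trans ?_ ((credit hB X).trans (J_free_all χ X D))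
  have h2 := EntG_nonneg χ X
  have h3 : 0 ≤ lam * D.card * EntG χ X := by positivity
  linarith

theorem node_gibbs_F {lam η : ℝ} (hlam : 0 < lam) (hη : 0 < η) : ∃ κ₀ : ℝ, 0 < κ₀ ∧
    ∀ (χ : G →+ ℤ) (D : Finset G) (B : ℤ → ℝ), (∀ c ∈ D.image χ, LB lam (fib χ D c) (B c)) →
    ∀ z : ℤ, ((D.filter (fun y => χ y ≠ z)).card : ℝ) ≤ κ₀ * D.card →
    LB lam D (∑ c ∈ D.image χ, B c + (1 - η) * EntG χ D) := by
  set δ : ℝ := min (min η (lam / 2)) 1 with hδ
  have hδ0 : 0 < δ := lt_min (lt_min hη (by positivity)) one_pos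
  have hδη : δ ≤ η := (min_le_left _ _).trans (min_le_left _ _)
  have hδl : δ ≤ lam / 2 := (min_le_left _ _).trans (min_le_right _ _)
  have hδ1 : δ ≤ 1 := min_le_right _ _
  set τ : ℝ := Real.exp (-(4 / δ)) with hτ
  have hτ0 : 0 < τ := Real.exp_pos _
  have hlτ : -Real.log τ = 4 / δ := by rw [hτ, Real.log_exp]; ring
  have hτδ : τ ≤ δ / 4 := by
    have h1 := Real.add_one_le_exp (4 / δ)
    have h2 : 4 / δ ≤ Real.exp (4 / δ) := by linarith
    have h3 : τ * Real.exp (4 / δ) = 1 := by rw [hτ, ← Real.exp_add]; simp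
    have h4 : τ * (4 / δ) ≤ 1 := by
      rw [← h3]; exact mul_le_mul_of_nonneg_left h2 hτ0.le
    rw [mul_div_assoc', div_le_one hδ0] at h4
    linarith
  set l' : ℝ := τ * δ / 8 with hl'
  have hl'0 : 0 < l' := by positivity
  have hl'1 : l' ≤ 1 / 2 := by
    rw [hl']; nlinarith
  set a₃ : ℝ := 1 / τ + 1 + (-Real.log l') / τ with ha₃
  have hll : 0 ≤ -Real.log l' := by
    rw [neg_nonneg]; exact Real.log_nonpos hl'0.le (by linarith)
  have ha₃0 : 0 < a₃ := by positivity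
  refine ⟨lam / 2 / a₃, by positivity, ?_⟩
  intro χ D B hB z hz X hX
  rcases D.eq_empty_or_nonempty with hE | hD
  · have h1 := LB_free hlam.le hB X hX
    have h2 : EntG χ D = 0 := by rw [hE]; unfold EntG; simp
    rw [h2, mul_zero, add_zero]
    exact h1
  have hXp : (0 : ℝ) < X.card := by exact_mod_cast card_pos.2 hX
  have hDp : (0 : ℝ) < D.card := by exact_mod_cast card_pos.2 hD
  have hg := gibbs χ hX hD hτ0 (by linarith) hl'0 hl'1 z
  rw [hlτ, ← ha₃] at hg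
  have hS0 := EntG_nonneg χ X
  have hE0 := EntG_nonneg χ D
  set S := EntG χ X with hS
  set En := EntG χ D with hEn
  set N' : ℝ := ((D.filter (fun a => χ a ≠ z)).card : ℝ) with hN'
  have hcr := credit hB X
  have hb2 : (2 * τ + 1) / (4 / δ) + τ ≤ 3 / 4 * δ := by
    have e1 : (2 * τ + 1) / (4 / δ) = (2 * τ + 1) * δ / 4 := by field_simp
    rw [e1]
    nlinarith
  have hb1 : (2 * τ + 1) / (4 / δ) + τ + 2 * l' / τ ≤ δ := by
    have e1 : 2 * l' / τ = δ / 4 := by rw [hl']; field_simp; ring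
    rw [e1]; linarith
  have hb3 : a₃ * N' ≤ lam / 2 * D.card := by
    calc a₃ * N' ≤ a₃ * (lam / 2 / a₃ * D.card) := mul_le_mul_of_nonneg_left hz ha₃0.le
      _ = _ := by field_simp
  have hc1 : ((2 * τ + 1) / (4 / δ) + τ + 2 * l' / τ) * (D.card * S) ≤ lam / 2 * (D.card * S) :=
    mul_le_mul_of_nonneg_right (hb1.trans hδl) (by positivity)
  have hc2 : ((2 * τ + 1) / (4 / δ) + τ) * (X.card * En) ≤ η * (X.card * En) :=
    mul_le_mul_of_nonneg_right (by linarith) (by positivity)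
  have hc3 : a₃ * (N' * S) ≤ lam / 2 * D.card * S := by
    calc a₃ * (N' * S) = a₃ * N' * S := by ring
      _ ≤ _ := mul_le_mul_of_nonneg_right hb3 hS0
  linarith

section trans

variable {φ : ℤ → G} {χ : G →+ ℤ} {v : ℤ → ℕ} {D : Finset ℤ}
  (hinj : ∀ y ∈ D, ∀ y' ∈ D, φ y = φ y' → y = y') (hχ : ∀ y ∈ D, χ (φ y) = (v y : ℤ))

include hinj hχ in
theorem prod_F {lam η κ₀ κ : ℝ} (hlam : 0 < lam)
    (hgf : ∀ (χ : G →+ ℤ) (D : Finset G) (B : ℤ → ℝ), (∀ c ∈ D.image χ, LB lam (fib χ D c) (B c)) →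
    ∀ z : ℤ, ((D.filter (fun y => χ y ≠ z)).card : ℝ) ≤ κ₀ * D.card →
    LB lam D (∑ c ∈ D.image χ, B c + (1 - η) * EntG χ D)) (hκ : 2 * κ ≤ κ₀) {B : ℕ → ℝ}
    (hB : ∀ j ∈ D.image v, LB lam ((part v D j).image φ) (B j)) :
    LB lam (D.image φ) (∑ j ∈ D.image v, B j +
      ((1 - η) * Ent v D + (-(1 - η)) * pop κ v D)) := by
  have hBB := LB_img hχ hB
  have hsB := sumB_img hχ B
  have hcd : (D.image φ).card = D.card := img_card hinj (Subset.refl D)
  have hE := EntG_img hinj hχ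
  by_cases hc : 2 * κ * D.card < mi v D
  · unfold pop
    rw [if_pos hc]
    have h1 := LB_free hlam.le hBB
    rw [hsB] at h1
    apply h1.mono
    linarith
  · unfold pop
    rw [if_neg hc]
    push Not at hc
    rcases D.eq_empty_or_nonempty with hDe | hne
    · have h1 := LB_free hlam.le hBB
      rw [hsB] at h1
      apply h1.mono
      have h2 : Ent v D = 0 := by rw [hDe]; exact Ent_const (z := 0) (by simp)
      rw [h2]; simp
    obtain ⟨z, hz, h1, h2⟩ := exists_mx (v := v) hne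
    have h3 := hgf χ (D.image φ) (fun c => B c.toNat) hBB (z : ℤ) (by
      rw [card_ne_img hinj hχ, hcd, ← h1]
      refine hc.trans ?_
      apply mul_le_mul_of_nonneg_right hκ (by positivity))
    rw [hsB, hE] at h3
    apply h3.mono
    linarith

end trans

theorem tree_prod_F {lam η κ₀ κ : ℝ} (hlam : 0 < lam)
    (hgf : ∀ (χ : G →+ ℤ) (D : Finset G) (B : ℤ → ℝ), (∀ c ∈ D.image χ, LB lam (fib χ D c) (B c)) →
    ∀ z : ℤ, ((D.filter (fun y => χ y ≠ z)).card : ℝ) ≤ κ₀ * D.card →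
    LB lam D (∑ c ∈ D.image χ, B c + (1 - η) * EntG χ D)) (hκ : 2 * κ ≤ κ₀)
    {A : Finset ℤ} {φ : ℤ → G}
    (hinj : ∀ y ∈ A, ∀ y' ∈ A, φ y = φ y' → y = y') (χ : ℕ → G →+ ℤ) (v : ℕ → ℤ → ℕ)
    (l : List ℕ) (hχ : ∀ p ∈ l, ∀ y ∈ A, χ p (φ y) = (v p y : ℤ)) :
    LB lam (A.image φ) ((1 - η) * (Tot v (fun p E => Ent (v p) E) l A -
      Tot v (fun p E => pop κ (v p) E) l A)) := by
  have h1 := tree (v := v) (g := fun p E => (1 - η) * Ent (v p) E + (-(1 - η)) * pop κ (v p) E)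
    (𝓛 := fun D B => LB lam (D.image φ) B) (A := A) (fun D _ => LB_zero hlam.le _) l (by
      intro p hp D hD B hB
      exact prod_F (D := D) (fun y hy y' hy' => hinj y (hD hy) y' (hD hy'))
        (fun y hy => hχ p hp y (hD hy)) hlam hgf hκ hB) A (Subset.refl A)
  rw [Tot_lin (fun p E => Ent (v p) E) (fun p E => pop κ (v p) E) (1 - η) (-(1 - η))] at h1
  apply h1.mono
  linarith

end Pool.Agent.Helper2.H
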