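import Pool.Agent.Helper2.HThresh

set_option autoImplicit false

/-!
Revealing a coordinate: the gain proportional to the minority contribution, in all cases.
-/

open Finset

namespace Pool.Agent.Helper2.H

open Pool.Agent.Helper2.F Pool.Agent.Helper2.E

/-- the choice of the parameters -/
structure Small (lam t α : ℝ) : Prop where
  α0 : 0 < α
  α1 : α ≤ 1 / 1000
  αt : 1000 * (α * t) ≤ 1
  t1 : 100 ≤ t
  lam_eq : lam = α ^ 8
  logα : Real.log (1 / α) = t / 8
  loglam : Real.log (1 / lam) = t

theorem Small.lam0 {lam t α : ℝ} (h : Small lam t α) : 0 < lam := by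
  rw [h.lam_eq]; have := h.α0; positivity

theorem Small.pow_le {lam t α : ℝ} (h : Small lam t α) {i j : ℕ} (hij : i ≤ j) :
    α ^ j ≤ α ^ i := by
  apply pow_le_pow_of_le_one h.α0.le _ hij
  have := h.α1; linarith

theorem small_exists {t : ℝ} (ht : 200 ≤ t) : Small (Real.exp (-t)) t (Real.exp (-(t / 8))) := by
  have hx : 25 ≤ t / 8 := by linarith
  have h1 := Real.pow_div_factorial_le_exp (t / 8) (by linarith) 6
  have h2 : (Nat.factorial 6 : ℝ) = 720 := by norm_num [Nat.factorial]
  rw [h2, div_le_iff₀ (by norm_num)] at h1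
  set x := t / 8 with hxdef
  have h3 : (25 : ℝ) ^ 5 ≤ x ^ 5 := pow_le_pow_left₀ (by norm_num) hx 5
  have h4 : 8000 * x ≤ Real.exp x := by
    have : x ^ 6 = x * x ^ 5 := by ring
    nlinarith
  have h5 : Real.exp (-x) * Real.exp x = 1 := by rw [← Real.exp_add]; simp
  have h6 : 0 < Real.exp (-x) := Real.exp_pos _
  have h7 : Real.exp (-x) * (8000 * x) ≤ 1 := by
    rw [← h5]; exact mul_le_mul_of_nonneg_left h4 h6.le
  refine ⟨h6, ?_, ?_, by linarith, ?_, ?_, ?_⟩
  · nlinarith
  · have : t = 8 * x := by rw [hxdef]; ring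
    rw [this]; nlinarith
  · rw [← Real.exp_nat_mul]
    congr 1
    rw [hxdef]; push_cast; ring
  · rw [one_div, Real.log_inv, Real.log_exp]; ring
  · rw [one_div, Real.log_inv, Real.log_exp]; ring

variable {G : Type*} [AddCommGroup G] [DecidableEq G]

theorem Small.two_lam {lam t α : ℝ} (h : Small lam t α) : lam * t * (18 * t + 3) ≤ α ^ 2 := by
  have h0 := h.α0
  have h1 := h.α1
  have h2 := h.αt
  have ht := h.t1
  rw [h.lam_eq]
  have e : α ^ 8 * t * (18 * t + 3) = α ^ 2 * (α ^ 4 * ((α * t) * (18 * (α * t) + 3 * α))) := by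
    ring
  rw [e]
  have h3 : 0 < α * t := by positivity
  have h4 : α ^ 4 ≤ 1 := pow_le_one₀ h0.le (by linarith)
  have h5 : (α * t) * (18 * (α * t) + 3 * α) ≤ 1 := by nlinarith
  have h6 : α ^ 4 * ((α * t) * (18 * (α * t) + 3 * α)) ≤ 1 := by
    have : 0 ≤ (α * t) * (18 * (α * t) + 3 * α) := by positivity
    nlinarith [show 0 ≤ α ^ 4 by positivity]
  calc α ^ 2 * (α ^ 4 * ((α * t) * (18 * (α * t) + 3 * α))) ≤ α ^ 2 * 1 :=
        mul_le_mul_of_nonneg_left h6 (by positivity)
    _ = _ := mul_one _

theorem Small.lamt {lam t α : ℝ} (h : Small lam t α) : lam * t ≤ 1 / 1000000 := by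
  have h0 := h.α0
  have h1 := h.α1
  have h2 := h.αt
  rw [h.lam_eq]
  have h3 : 0 < α * t := by have := h.t1; positivity
  have h4 : α ^ 7 ≤ α ^ 1 := h.pow_le (by norm_num)
  have e : α ^ 8 * t = α ^ 7 * (α * t) := by ring
  rw [e]
  calc α ^ 7 * (α * t) ≤ 1 / 1000 * (1 / 1000) := by
        apply mul_le_mul (h4.trans (by rw [pow_one]; exact h1)) (by linarith) h3.le (by norm_num)
    _ = _ := by norm_num

/-- the Gibbs node: a very concentrated coordinate -/
theorem node_gibbs {lam t α : ℝ} (h : Small lam t α) {χ : G →+ ℤ} {D : Finset G}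
    (hD : D.Nonempty) {B : ℤ → ℝ} (hB : ∀ c ∈ D.image χ, LB lam (fib χ D c) (B c)) {z : ℤ}
    (hz : ((D.filter (fun y => χ y ≠ z)).card : ℝ) ≤ lam ^ 18 * D.card) :
    LB lam D (∑ c ∈ D.image χ, B c + 2 * lam * t * EntG χ D) := by
  classical
  intro X hX
  have hXp : (0 : ℝ) < X.card := by exact_mod_cast card_pos.2 hX
  have hDp : (0 : ℝ) < D.card := by exact_mod_cast card_pos.2 hD
  have hl0 := h.lam0
  have ht := h.t1
  have hlt := h.lamt
  have hl1 : lam ≤ 1 / 100000000 := by
    have : lam * 100 ≤ lam * t := mul_le_mul_of_nonneg_left ht hl0.le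
    linarith
  have hloglam : -Real.log lam = t := by
    rw [← h.loglam, one_div, Real.log_inv]
  set τ := lam ^ 16 with hτ
  set l' := lam ^ 17 with hl'
  have hτ0 : 0 < τ := by positivity
  have hl'0 : 0 < l' := by positivity
  have hpw : ∀ n : ℕ, 1 ≤ n → lam ^ n ≤ lam := by
    intro n hn
    calc lam ^ n ≤ lam ^ 1 := pow_le_pow_of_le_one hl0.le (by linarith) hn
      _ = lam := pow_one _
  have hτ1 : τ ≤ lam := hpw 16 (by norm_num)
  have hl'1 : l' ≤ lam := hpw 17 (by norm_num)
  have hlτ : -Real.log τ = 16 * t := by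
    rw [hτ, Real.log_pow, ← hloglam]; push_cast; ring
  have hll' : -Real.log l' = 17 * t := by
    rw [hl', Real.log_pow, ← hloglam]; push_cast; ring
  have hg := gibbs χ hX hD hτ0 (by linarith) hl'0 (by linarith) z
  rw [hlτ, hll'] at hg
  have hS0 := EntG_nonneg χ X
  have hE0 := EntG_nonneg χ D
  set S := EntG χ X with hS
  set En := EntG χ D with hEn
  set N' : ℝ := ((D.filter (fun a => χ a ≠ z)).card : ℝ) with hN'
  have hfree := J_free_all χ X D
  have hcr := credit hB X
  have ht0 : 0 < t := by linarith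
  -- the three coefficients
  have hb1 : (2 * τ + 1) / (16 * t) + τ + 2 * l' / τ ≤ 1 / (8 * t) := by
    have e1 : 2 * l' / τ = 2 * lam := by
      rw [hl', hτ]; field_simp
    rw [e1, div_add' _ _ _ (by positivity), div_add' _ _ _ (by positivity),
      div_le_div_iff₀ (by positivity) (by positivity)]
    have e2 : τ * t ≤ lam * t := mul_le_mul_of_nonneg_right hτ1 ht0.le
    nlinarith
  have hb2 : (2 * τ + 1) / (16 * t) + τ ≤ 1 / 2 := by
    rw [div_add' _ _ _ (by positivity), div_le_div_iff₀ (by positivity) (by positivity)]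
    have e2 : τ * t ≤ lam * t := mul_le_mul_of_nonneg_right hτ1 ht0.le
    nlinarith
  have hb3 : (1 / τ + 1 + 17 * t / τ) * N' ≤ 1 / (8 * t) * D.card := by
    have e1 : (1 / τ + 1 + 17 * t / τ) * N' ≤ (1 / τ + 1 + 17 * t / τ) * (lam ^ 18 * D.card) :=
      mul_le_mul_of_nonneg_left hz (by positivity)
    refine e1.trans ?_
    have e2 : (1 / τ + 1 + 17 * t / τ) * (lam ^ 18 * D.card) =
        (lam ^ 2 + lam ^ 18 + 17 * (t * lam ^ 2)) * D.card := by
      rw [hτ]; field_simp
    rw [e2]
    apply mul_le_mul_of_nonneg_right _ hDp.le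
    rw [le_div_iff₀ (by positivity)]
    have e3 : lam ^ 18 ≤ lam ^ 2 := pow_le_pow_of_le_one hl0.le (by linarith) (by norm_num)
    have e4 : 0 < lam * t := by positivity
    have e5 : lam ^ 2 * t ≤ 1 / 1000000 := by
      calc lam ^ 2 * t = lam * (lam * t) := by ring
        _ ≤ 1 * (1 / 1000000) := mul_le_mul (by linarith) hlt e4.le (by norm_num)
        _ = _ := by norm_num
    have e6 : (lam * t) * (lam * t) ≤ 1 / 1000000 * (1 / 1000000) :=
      mul_le_mul hlt hlt e4.le (by norm_num)
    have e7 : lam ^ 18 * t ≤ lam ^ 2 * t := mul_le_mul_of_nonneg_right e3 ht0.le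
    nlinarith
  -- combine
  have hc1 : ((2 * τ + 1) / (16 * t) + τ + 2 * l' / τ) * (D.card * S) ≤
      1 / (8 * t) * (D.card * S) := mul_le_mul_of_nonneg_right hb1 (by positivity)
  have hc2 : ((2 * τ + 1) / (16 * t) + τ) * (X.card * En) ≤ 1 / 2 * (X.card * En) :=
    mul_le_mul_of_nonneg_right hb2 (by positivity)
  have hc3 : (1 / τ + 1 + 17 * t / τ) * (N' * S) ≤ 1 / (8 * t) * D.card * S := by
    calc (1 / τ + 1 + 17 * t / τ) * (N' * S) = (1 / τ + 1 + 17 * t / τ) * N' * S := by ring
      _ ≤ _ := mul_le_mul_of_nonneg_right hb3 hS0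
  set R := J X D - ∑ c ∈ D.image χ, J X (fib χ D c) with hR
  have hR0 : 0 ≤ R := by rw [hR]; linarith
  have hR1 : 1 / 2 * (X.card * En) - 1 / (4 * t) * (D.card * S) ≤ R := by
    have e1 : 1 / (8 * t) * (D.card * S) + 1 / (8 * t) * D.card * S =
        1 / (4 * t) * (D.card * S) := by
      field_simp; ring
    rw [hR]
    linarith
  have hε : 4 * (lam * t) ≤ 1 := by linarith
  have hR2 : 4 * (lam * t) * R ≤ R := by nlinarith
  have hR3 := mul_le_mul_of_nonneg_left hR1 (show 0 ≤ 4 * (lam * t) by positivity)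
  have e3 : 4 * (lam * t) * (1 / 2 * (X.card * En) - 1 / (4 * t) * (D.card * S)) =
      X.card * (2 * lam * t * En) - lam * D.card * S := by
    field_simp
    ring
  rw [e3] at hR3
  have hJ : J X D = ∑ c ∈ D.image χ, J X (fib χ D c) + R := by rw [hR]; ring
  rw [hJ]
  linarith

/-- the minority contribution -/
noncomputable def mfun (n N' : ℝ) : ℝ := N' * (Real.log (n / N') + 3)

theorem mfun_le {n N' : ℝ} (hn : 0 ≤ n) (h0 : 0 ≤ N') (h1 : 2 * N' ≤ n) : mfun n N' ≤ 3 * n := by
  unfold mfun
  rcases h0.eq_or_lt with h | h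
  · rw [← h]; simp; positivity
  have hc : 0 < n := by linarith
  have h2 := Real.log_le_sub_one_of_pos (show 0 < n / N' by positivity)
  have h3 := mul_le_mul_of_nonneg_left h2 h.le
  have h4 : N' * (n / N' - 1) = n - N' := by field_simp
  linarith

theorem node_conc {lam t α : ℝ} (h : Small lam t α) {χ : G →+ ℤ} {D : Finset G}
    (hD : D.Nonempty) {B : ℤ → ℝ} (hB : ∀ c ∈ D.image χ, LB lam (fib χ D c) (B c)) {z : ℤ}
    (hz : 2 * ((D.filter (fun y => χ y ≠ z)).card : ℝ) ≤ D.card) :
    LB lam D (∑ c ∈ D.image χ, B c +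
      lam * t / 24 * mfun D.card (D.filter (fun y => χ y ≠ z)).card) := by
  classical
  have hDp : (0 : ℝ) < D.card := by exact_mod_cast card_pos.2 hD
  have hl0 := h.lam0
  have ht := h.t1
  have ht0 : 0 < t := by linarith
  have hm3 := mfun_le hDp.le (by positivity) hz
  set N' : ℝ := ((D.filter (fun y => χ y ≠ z)).card : ℝ) with hN'
  have hN0 : 0 ≤ N' := by positivity
  rcases hN0.eq_or_lt with hNe | hNp
  · -- constant coordinate
    intro X hX
    have hcr := (credit hB X).trans (J_free_all χ X D)
    refine le_trans ?_ hcr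
    have h1 : mfun D.card N' = 0 := by unfold mfun; rw [← hNe]; simp
    rw [h1]
    have h2 := EntG_nonneg χ X
    have h3 : 0 ≤ lam * D.card * EntG χ X := by positivity
    linarith
  rcases le_or_gt N' (lam ^ 18 * D.card) with hsm | hmid
  · -- very concentrated
    apply (node_gibbs h hD hB hsm).mono
    have h1 : N' * (-Real.log (co D χ z)) ≤ EntG χ D := by
      rw [← sum_info]
      exact sum_info_ge χ z
    have h2 : -Real.log (co D χ z) = Real.log (D.card / N') := by
      have e : co D χ z = N' / D.card := rfl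
      rw [e, ← Real.log_inv, inv_div]
    rw [h2] at h1
    have h3 : 3 ≤ Real.log (D.card / N') := by
      have e1 : 1 / lam ^ 18 ≤ D.card / N' := by
        rw [div_le_div_iff₀ (by positivity) hNp]
        linarith
      have e2 := Real.log_le_log (by positivity) e1
      rw [one_div, Real.log_inv, Real.log_pow] at e2
      have e3 : -Real.log lam = t := by rw [← h.loglam, one_div, Real.log_inv]
      push_cast at e2
      nlinarith
    have h4 : mfun D.card N' ≤ 2 * EntG χ D := by
      unfold mfun
      have : N' * 3 ≤ N' * Real.log (D.card / N') := mul_le_mul_of_nonneg_left h3 hN0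
      linarith
    have h5 : lam * t / 24 * mfun D.card N' ≤ lam * t / 24 * (2 * EntG χ D) :=
      mul_le_mul_of_nonneg_left h4 (by positivity)
    have h6 := EntG_nonneg χ D
    have h7 : 0 ≤ lam * t * EntG χ D := by positivity
    linarith
  · -- the middle range
    have hlog : Real.log (D.card / N') ≤ 18 * t := by
      have e1 : D.card / N' ≤ 1 / lam ^ 18 := by
        rw [div_le_div_iff₀ hNp (by positivity)]
        linarith
      have e2 := Real.log_le_log (by positivity) e1
      rw [one_div, Real.log_inv, Real.log_pow] at e2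
      have e3 : -Real.log lam = t := by rw [← h.loglam, one_div, Real.log_inv]
      push_cast at e2
      linarith
    have hg1 : lam * t / 24 * mfun D.card N' ≤ lam * Real.log (1 / α) * D.card := by
      rw [h.logα]
      have := mul_le_mul_of_nonneg_left hm3 (show 0 ≤ lam * t / 24 by positivity)
      linarith
    have hg2 : lam * t / 24 * mfun D.card N' ≤ N' / (4 * D.card) * D.card * (α ^ 2 / 6) := by
      have e1 : N' / (4 * D.card) * D.card * (α ^ 2 / 6) = N' / 24 * α ^ 2 := by
        field_simp; ring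
      rw [e1]
      unfold mfun
      have e2 := h.two_lam
      have e3 : lam * t * (Real.log (D.card / N') + 3) ≤ α ^ 2 := by
        refine le_trans ?_ e2
        apply mul_le_mul_of_nonneg_left _ (by positivity)
        linarith
      calc lam * t / 24 * (N' * (Real.log (D.card / N') + 3)) =
            N' / 24 * (lam * t * (Real.log (D.card / N') + 3)) := by ring
        _ ≤ _ := mul_le_mul_of_nonneg_left e3 (by positivity)
    -- sizes
    have hc1 : (D.filter (fun y => z < χ y)).card + (D.filter (fun y => ¬ z < χ y)).card =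
        D.card := card_filter_add_card_filter_not _
    have hc2 : (D.filter (fun y => z - 1 < χ y)).card +
        (D.filter (fun y => ¬ z - 1 < χ y)).card = D.card := card_filter_add_card_filter_not _
    have hc3 : (D.filter (fun y => χ y ≠ z)).card =
        (D.filter (fun y => z < χ y)).card + (D.filter (fun y => ¬ z - 1 < χ y)).card := by
      rw [← card_union_of_disjoint]
      · congr 1
        ext y
        simp only [mem_filter, mem_union]
        constructor
        · rintro ⟨h1, h2⟩
          rcases lt_or_ge z (χ y) with h3 | h3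
          · exact Or.inl ⟨h1, h3⟩
          · exact Or.inr ⟨h1, by omega⟩
        · rintro (⟨h1, h2⟩ | ⟨h1, h2⟩)
          · exact ⟨h1, by omega⟩
          · exact ⟨h1, by omega⟩
      · rw [disjoint_left]
        intro y h1 h2
        rw [mem_filter] at h1 h2
        omega
    have hc1' : ((D.filter (fun y => z < χ y)).card : ℝ) +
        (D.filter (fun y => ¬ z < χ y)).card = D.card := by exact_mod_cast hc1
    have hc2' : ((D.filter (fun y => z - 1 < χ y)).card : ℝ) +
        (D.filter (fun y => ¬ z - 1 < χ y)).card = D.card := by exact_mod_cast hc2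
    have hc3' : N' = ((D.filter (fun y => z < χ y)).card : ℝ) +
        (D.filter (fun y => ¬ z - 1 < χ y)).card := by
      rw [hN']; exact_mod_cast hc3
    rcases le_total (N' / 2) ((D.filter (fun y => z < χ y)).card : ℝ) with ha | hb
    · have hlow : (0 : ℝ) ≤ (D.filter (fun y => ¬ z - 1 < χ y)).card := by positivity
      have h0 : (D.card : ℝ) / 2 ≤ (D.filter (fun y => ¬ z < χ y)).card := by linarith
      apply thresh hl0.le h.α0 hB (l := z) _ _ _ hg1 hg2
      · have : (0 : ℝ) < (D.filter (fun y => z < χ y)).card := by linarith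
        exact_mod_cast this
      · have : (0 : ℝ) < (D.filter (fun y => ¬ z < χ y)).card := by linarith
        exact_mod_cast this
      · calc N' / (4 * D.card) * (D.card * D.card) = N' / 2 * (D.card / 2) := by
              field_simp; ring
          _ ≤ _ := mul_le_mul ha h0 (by positivity) (by positivity)
    · have hlow : N' / 2 ≤ (D.filter (fun y => ¬ z - 1 < χ y)).card := by linarith
      have h1 : (D.card : ℝ) / 2 ≤ (D.filter (fun y => z - 1 < χ y)).card := by
        have : (0 : ℝ) ≤ (D.filter (fun y => z < χ y)).card := by positivity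
        linarith
      apply thresh hl0.le h.α0 hB (l := z - 1) _ _ _ hg1 hg2
      · have : (0 : ℝ) < (D.filter (fun y => z - 1 < χ y)).card := by linarith
        exact_mod_cast this
      · have : (0 : ℝ) < (D.filter (fun y => ¬ z - 1 < χ y)).card := by linarith
        exact_mod_cast this
      · calc N' / (4 * D.card) * (D.card * D.card) = (D.card / 2) * (N' / 2) := by
              field_simp; ring
          _ ≤ _ := mul_le_mul h1 hlow (by positivity) (by positivity)

theorem node_bal {lam t α : ℝ} (h : Small lam t α) {χ : G →+ ℤ} {D : Finset G}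
    (hD : D.Nonempty) {B : ℤ → ℝ} (hB : ∀ c ∈ D.image χ, LB lam (fib χ D c) (B c)) {l : ℤ}
    (h1 : 1 / 4 * (D.card : ℝ) ≤ (D.filter (fun y => l < χ y)).card)
    (h0 : ((D.filter (fun y => l < χ y)).card : ℝ) ≤ 3 / 4 * D.card) :
    LB lam D (∑ c ∈ D.image χ, B c + lam * t / 24 * (2 * D.card)) := by
  classical
  have hDp : (0 : ℝ) < D.card := by exact_mod_cast card_pos.2 hD
  have hl0 := h.lam0
  have ht := h.t1
  have ht0 : 0 < t := by linarith
  have hc1 : (D.filter (fun y => l < χ y)).card + (D.filter (fun y => ¬ l < χ y)).card =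
      D.card := card_filter_add_card_filter_not _
  have hc1' : ((D.filter (fun y => l < χ y)).card : ℝ) +
      (D.filter (fun y => ¬ l < χ y)).card = D.card := by exact_mod_cast hc1
  have hp1 : (0 : ℝ) < (D.filter (fun y => l < χ y)).card := by linarith
  have hp0 : (0 : ℝ) < (D.filter (fun y => ¬ l < χ y)).card := by linarith
  apply thresh hl0.le h.α0 hB (l := l) (by exact_mod_cast hp1) (by exact_mod_cast hp0) (w := 1 / 8)
  · nlinarith
  · rw [h.logα]
    have : 0 < lam * t * D.card := by positivity
    linarith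
  · have e2 := h.two_lam
    have e3 : lam * t * 4 ≤ α ^ 2 := by
      refine le_trans ?_ e2
      apply mul_le_mul_of_nonneg_left _ (by positivity)
      linarith
    nlinarith

end Pool.Agent.Helper2.H
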