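import Pool.Agent.Helper2.HBig2
import Pool.Agent.Helper2.GInd

set_option autoImplicit false

/-!
Revealing the valuation at a small prime: full gain, with a bounded loss.
-/

open Finset

namespace Pool.Agent.Helper2.H

open Pool.Agent.Helper2.F Pool.Agent.Helper2.G

theorem J_empty (X : Finset ℤ) : J X ∅ = 0 := by
  unfold J; simp

theorem small_node {g : ℕ} {lam : ℝ} (hl0 : 0 < lam) (hl1 : lam ≤ 1) {v : ℤ → ℕ} {B : ℕ → ℝ}
    {D : Finset ℤ} (hv : IsVal g v D) (hB : ∀ j ∈ D.image v, LB lam (part v D j) (B j)) :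
    LB lam D (∑ j ∈ D.image v, B j + (Ent v D - (Real.log (1 / lam) + 1) * D.card)) := by
  classical
  intro X hX
  obtain ⟨N, Q, hvN, hQ0, hQ1, hQp, hcst⟩ := nodeL (g := g) (v := v) (D := D) hX (by
    intro y hy
    refine ⟨(hv y hy _).2 le_rfl, ?_⟩
    intro h
    have := (hv y hy _).1 h
    omega) hl0 hl1
  have hmulti := multi v hvN Q hQ0 hQ1 hQp
  have hsub : D.image v ⊆ range N := by
    intro j hj
    obtain ⟨y, hy, rfl⟩ := mem_image.1 hj
    exact mem_range.2 (hvN y hy)
  have hrange : ∀ f : ℕ → ℝ, (∀ j, part v D j = ∅ → f j = 0) →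
      ∑ l ∈ range N, f l = ∑ j ∈ D.image v, f j := by
    intro f hf
    symm
    apply sum_subset hsub
    intro j _ hj
    exact hf j (part_empty hj)
  rw [hrange (fun l => J X (part v D l)) (by intro j hj; rw [hj, J_empty]),
    hrange (fun l => ((part v D l).card : ℝ) * Real.log (part v D l).card)
      (by intro j hj; rw [hj]; simp)] at hmulti
  have hpart : ∀ j ∈ D.image v,
      (X.card : ℝ) * B j - (lam * (part v D j).card) * ∑ x ∈ X, Real.log (nn g X j x) ≤
        J X (part v D j) := by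
    intro j hj
    apply classes_lower
    · intro y hy
      rw [(hv y (mem_part.1 hy).1 j), (mem_part.1 hy).2]
    · intro X' hX'
      exact hB j hj X' hX'
  have hsum := sum_le_sum hpart
  rw [sum_sub_distrib, ← mul_sum] at hsum
  have e3 : ∑ y ∈ D, ∑ x ∈ X, (Real.log X.card - Real.log (nn g X (v y) x)) =
      D.card * (X.card * Real.log X.card) -
      ∑ l ∈ D.image v, ((part v D l).card : ℝ) * ∑ x ∈ X, Real.log (nn g X l x) := by
    have e4 : ∀ y ∈ D, ∑ x ∈ X, (Real.log X.card - Real.log (nn g X (v y) x)) =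
        X.card * Real.log X.card - ∑ x ∈ X, Real.log (nn g X (v y) x) := by
      intro y _
      rw [sum_sub_distrib, sum_const, nsmul_eq_mul]
    rw [sum_congr rfl e4, sum_sub_distrib, sum_const, nsmul_eq_mul]
    congr 1
    rw [← sum_image_part v D (fun y => ∑ x ∈ X, Real.log (nn g X (v y) x))]
    apply sum_congr rfl
    intro l _
    have e5 : ∀ y ∈ part v D l, ∑ x ∈ X, Real.log (nn g X (v y) x) =
        ∑ x ∈ X, Real.log (nn g X l x) := by
      intro y hy
      rw [(mem_part.1 hy).2]
    rw [sum_congr rfl e5, sum_const, nsmul_eq_mul]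
  have e6 : ∑ j ∈ D.image v, lam * ((part v D j).card : ℝ) * ∑ x ∈ X, Real.log (nn g X j x) =
      lam * ∑ l ∈ D.image v, ((part v D l).card : ℝ) * ∑ x ∈ X, Real.log (nn g X l x) := by
    rw [mul_sum]
    apply sum_congr rfl
    intro l _
    ring
  rw [e3] at hcst
  rw [e6] at hsum
  unfold Ent
  linarith

end Pool.Agent.Helper2.H
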