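import Pool.Agent.Helper2.HNode

set_option autoImplicit false

/-!
Lower bounds for all `X`, and how they combine when the summands are split by a level of a
valuation at a large prime.
-/

open Finset

namespace Pool.Agent.Helper2.H

open Pool.Agent.Helper2.F Pool.Agent.Helper2.G

/-- lower bound for the mutual information, for all `X` -/
def LB {G : Type*} [AddCommGroup G] [DecidableEq G] (lam : ℝ) (D : Finset G) (B : ℝ) : Prop :=
  ∀ X : Finset G, X.Nonempty → (X.card : ℝ) * (B - lam * D.card * Real.log X.card) ≤ J X D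

section general

variable {G : Type*} [AddCommGroup G] [DecidableEq G]

theorem LB.mono {lam : ℝ} {D : Finset G} {B B' : ℝ} (h : LB lam D B) (hB : B' ≤ B) :
    LB lam D B' := by
  intro X hX
  refine le_trans ?_ (h X hX)
  apply mul_le_mul_of_nonneg_left _ (by positivity)
  linarith

theorem LB_zero {lam : ℝ} (hlam : 0 ≤ lam) (D : Finset G) : LB lam D 0 := by
  intro X hX
  refine le_trans ?_ (J_nonneg X D)
  have hX1 : (1 : ℝ) ≤ X.card := by exact_mod_cast card_pos.2 hX
  have h1 : 0 ≤ Real.log X.card := Real.log_nonneg hX1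
  have h2 : 0 ≤ lam * D.card * Real.log X.card := by positivity
  nlinarith

theorem LB_empty (lam : ℝ) {B : ℝ} : LB lam (∅ : Finset G) B → B ≤ 0 := by
  intro h
  have := h {0} (singleton_nonempty 0)
  unfold J at this
  simpa using this

theorem LB.union {lam : ℝ} {D₁ D₀ : Finset G} (hdis : Disjoint D₁ D₀) {B₁ B₀ : ℝ}
    (h1 : LB lam D₁ B₁) (h0 : LB lam D₀ B₀) : LB lam (D₁ ∪ D₀) (B₁ + B₀) := by
  intro X hX
  refine le_trans ?_ (J_free (X := X) hdis)
  refine le_trans (le_of_eq ?_) (add_le_add (h1 X hX) (h0 X hX))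
  rw [card_union_of_disjoint hdis]
  push_cast
  ring

end general

/-- the split at a level of a large prime -/
theorem split {p l m : ℕ} (hp : p.Prime) (hpm : (m + 1) ^ m < p) (hm1 : 1 ≤ m) {α lam κ : ℝ}
    (hα : 0 < α) (hκ : 0 < κ) (hm : (m.choose (m / 2) : ℝ) ≤ α / 4 * 2 ^ m) (hlam : 0 ≤ lam)
    {D₁ D₀ : Finset ℤ} (h1 : ∀ y ∈ D₁, (p : ℤ) ^ l ∣ y) (h0 : ∀ y ∈ D₀, ¬ (p : ℤ) ^ l ∣ y)
    {B₁ B₀ : ℝ} (hB1 : LB lam D₁ B₁) (hB0 : LB lam D₀ B₀)
    (hc1 : κ * ((D₁.card : ℝ) + D₀.card) ≤ D₁.card) (hc0 : κ * ((D₁.card : ℝ) + D₀.card) ≤ D₀.card)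
    {g₀ : ℝ} (hg0 : 0 ≤ g₀) (hg1 : g₀ ≤ κ * (lam * Real.log (1 / α)))
    (hg2 : 12 * g₀ ≤ κ * (α / m) ^ 2) :
    LB lam (D₁ ∪ D₀) (B₁ + B₀ + g₀ * (D₁.card + D₀.card)) := by
  classical
  have hdis : Disjoint D₁ D₀ := by
    rw [disjoint_left]
    intro y hy1 hy0
    exact h0 y hy0 (h1 y hy1)
  rcases D₁.eq_empty_or_nonempty with hE | hne1
  · rw [hE] at hc1 ⊢
    simp only [card_empty, Nat.cast_zero, zero_add] at hc1
    have hc1' : (D₀.card : ℝ) = 0 := le_antisymm (by
      by_contra hcon
      push Not at hcon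
      have : 0 < κ * (D₀.card : ℝ) := by positivity
      linarith) (by positivity)
    rw [hE] at hB1
    have hB1' := LB_empty lam hB1
    have h2 : LB lam (∅ ∪ D₀) (B₁ + B₀) := by
      rw [empty_union]
      exact hB0.mono (by linarith)
    apply h2.mono
    simp [hc1']
  rcases D₀.eq_empty_or_nonempty with hE | hne0
  · exfalso
    rw [hE] at hc0
    simp only [card_empty, Nat.cast_zero, add_zero] at hc0
    have h1 : (0 : ℝ) < D₁.card := by exact_mod_cast card_pos.2 hne1
    have : 0 < κ * (D₁.card : ℝ) := by positivity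
    linarith
  have hp1 : (0 : ℝ) < D₁.card := by exact_mod_cast card_pos.2 hne1
  have hp0 : (0 : ℝ) < D₀.card := by exact_mod_cast card_pos.2 hne0
  intro X hX
  have hXp : (0 : ℝ) < X.card := by exact_mod_cast card_pos.2 hX
  have hX1 : (1 : ℝ) ≤ X.card := by exact_mod_cast card_pos.2 hX
  have hcard : ((D₁ ∪ D₀).card : ℝ) = D₁.card + D₀.card := by
    rw [card_union_of_disjoint hdis]; push_cast; ring
  -- the part in the subgroup
  have hin : (X.card : ℝ) * B₁ - (lam * D₁.card) * ∑ x ∈ X, Real.log (nn p X l x) ≤ J X D₁ :=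
    classes_lower h1 (fun X' hX' => hB1 X' hX')
  have hout := hB0 X hX
  set S : ℝ := ∑ x ∈ X, (Real.log X.card - Real.log (nn p X l x)) with hS
  have hS' : ∑ x ∈ X, Real.log (nn p X l x) = X.card * Real.log X.card - S := by
    rw [hS, sum_sub_distrib, sum_const, nsmul_eq_mul]; ring
  rw [hS'] at hin
  have hSnn : 0 ≤ S := by
    apply sum_nonneg
    intro x hx
    have hn : (0 : ℝ) < nn p X l x := by exact_mod_cast nn_pos l hx
    have h4 : (nn p X l x : ℝ) ≤ X.card := by exact_mod_cast nn_le p X l x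
    have := Real.log_le_log hn h4
    linarith
  have hlS : 0 ≤ lam * D₁.card * S := by positivity
  have hla : 0 ≤ lam * Real.log (1 / α) := by
    by_contra hcon
    push Not at hcon
    have : κ * (lam * Real.log (1 / α)) < 0 := mul_neg_of_pos_of_neg hκ hcon
    linarith
  rcases le_or_gt (Real.log (1 / α) * X.card) S with hA | hB
  · -- large entropy
    refine le_trans ?_ (J_free (X := X) hdis)
    refine le_trans ?_ (add_le_add hin hout)
    rw [hcard]
    have h2 : g₀ * (D₁.card + D₀.card) * X.card ≤ lam * D₁.card * S := by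
      calc g₀ * ((D₁.card : ℝ) + D₀.card) * X.card
          ≤ κ * (lam * Real.log (1 / α)) * (D₁.card + D₀.card) * X.card := by gcongr
        _ = lam * Real.log (1 / α) * ((κ * (D₁.card + D₀.card)) * X.card) := by ring
        _ ≤ lam * Real.log (1 / α) * (D₁.card * X.card) := by gcongr
        _ = lam * D₁.card * (Real.log (1 / α) * X.card) := by ring
        _ ≤ _ := by gcongr
    linarith
  · -- a rich class
    have hex : ∃ x ∈ X, Real.log X.card - Real.log (nn p X l x) < Real.log (1 / α) := by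
      by_contra hno
      push Not at hno
      have h2 := sum_le_sum hno
      rw [sum_const, nsmul_eq_mul] at h2
      linarith
    obtain ⟨x₀, hx₀, hx₀'⟩ := hex
    have hn₀ : (0 : ℝ) < nn p X l x₀ := by exact_mod_cast nn_pos l hx₀
    have hrich : α * X.card ≤ nn p X l x₀ := by
      rw [← Real.log_le_log_iff (by positivity) hn₀, Real.log_mul hα.ne' hXp.ne']
      rw [one_div, Real.log_inv] at hx₀'
      linarith
    obtain ⟨c, hc⟩ := gap hp hpm hm1 hα hm hX hne0 h0 hrich
    have hmp : (0 : ℝ) < m := by exact_mod_cast hm1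
    set Sg := sset X (D₁ ∪ D₀) with hSg
    have hsumcls : ∀ E : Finset ℤ, (∀ x ∈ X, ∀ y ∈ E, x + y ∈ Sg) →
        ∑ s ∈ Sg.filter (fun s => (p : ℤ) ^ l ∣ c - s), (rep X E s : ℝ) =
        ∑ y ∈ E, (nn p X l (c - y) : ℝ) := by
      intro E hE
      have h2 := sum_pairs X E (fun s => if (p : ℤ) ^ l ∣ c - s then (1 : ℝ) else 0) hE
      simp only [mul_ite, mul_one, mul_zero] at h2
      rw [sum_filter, ← h2, sum_comm]
      apply sum_congr rfl
      intro y _
      rw [← sum_filter, sum_const, nsmul_eq_mul, mul_one]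
      unfold nn
      congr 2
      apply filter_congr
      intro x _
      have e : c - (x + y) = c - y - x := by ring
      rw [e]
    have hT : α / m * X.card ≤ ∑ s ∈ Sg.filter (fun s => (p : ℤ) ^ l ∣ c - s),
        ((rep X D₁ s : ℝ) / D₁.card - (rep X D₀ s : ℝ) / D₀.card) := by
      rw [sum_sub_distrib, ← sum_div, ← sum_div,
        hsumcls D₁ (fun x hx y hy => mem_sset hx (mem_union_left _ hy)),
        hsumcls D₀ (fun x hx y hy => mem_sset hx (mem_union_right _ hy))]
      have h2 : ∑ y ∈ D₁, (nn p X l (c - y) : ℝ) = nn p X l c * D₁.card := by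
        have h3 : ∀ y ∈ D₁, (nn p X l (c - y) : ℝ) = nn p X l c := by
          intro y hy
          have h4 : nn p X l (c - y) = nn p X l c := by
            apply nn_congr
            have e : c - y - c = -y := by ring
            rw [e, dvd_neg]
            exact h1 y hy
          rw [h4]
        rw [sum_congr rfl h3, sum_const, nsmul_eq_mul]; ring
      rw [h2, mul_div_cancel_right₀ _ hp1.ne', le_sub_iff_add_le, ← le_sub_iff_add_le',
        div_le_iff₀ hp0]
      nlinarith
    have hgain := J_part hdis hne1 hne0 (X := X) (by positivity) _ hT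
    refine le_trans ?_ hgain
    rw [hcard]
    have hprod : κ / 2 * ((D₁.card : ℝ) + D₀.card) ≤
        (D₁.card : ℝ) * D₀.card / (D₁.card + D₀.card) := by
      rw [le_div_iff₀ (by positivity)]
      have e1 := mul_le_mul_of_nonneg_left hc1 hp0.le
      have e2 := mul_le_mul_of_nonneg_left hc0 hp1.le
      linarith
    have hg3 : g₀ * ((D₁.card : ℝ) + D₀.card) ≤
        (D₁.card : ℝ) * D₀.card / (D₁.card + D₀.card) * ((α / m) ^ 2 / 6) := by
      calc g₀ * ((D₁.card : ℝ) + D₀.card) ≤ κ * (α / m) ^ 2 / 12 * (D₁.card + D₀.card) := by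
            apply mul_le_mul_of_nonneg_right _ (by positivity)
            linarith
        _ = κ / 2 * ((D₁.card : ℝ) + D₀.card) * ((α / m) ^ 2 / 6) := by ring
        _ ≤ _ := mul_le_mul_of_nonneg_right hprod (by positivity)
    have hg4 := mul_le_mul_of_nonneg_left hg3 hXp.le
    linarith

end Pool.Agent.Helper2.H
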