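import Pool.Agent.Helper2.HTrans

set_option autoImplicit false

/-!
The sum side: the tree bounds.
-/

open Finset

namespace Pool.Agent.Helper2.H

open Pool.Agent.Helper2.F Pool.Agent.Helper2.G

/-- number of steps -/
structure Steps (α : ℝ) (m : ℕ) : Prop where
  m1 : 1 ≤ m
  hm : (m.choose (m / 2) : ℝ) ≤ α / 4 * 2 ^ m
  le : (m : ℝ) ≤ 18 / α ^ 2

theorem Small.gain {lam t α : ℝ} (h : Small lam t α) {m : ℕ} (hm : Steps α m) {κ : ℝ}
    (hκ : 0 < κ) : 12 * (κ * (lam * t) / 8) ≤ κ * (α / m) ^ 2 := by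
  have h0 := h.α0
  have h1 := h.α1
  have h2 := h.αt
  have ht := h.t1
  have hmp : (0 : ℝ) < m := by exact_mod_cast hm.m1
  have e1 : α ^ 3 / 18 ≤ α / m := by
    rw [div_le_div_iff₀ (by norm_num) hmp]
    have h3 := mul_le_mul_of_nonneg_left hm.le (show 0 ≤ α ^ 3 by positivity)
    have h4 : α ^ 3 * (18 / α ^ 2) = α * 18 := by field_simp
    linarith
  have e2 : (α ^ 3 / 18) ^ 2 ≤ (α / m) ^ 2 := pow_le_pow_left₀ (by positivity) e1 2
  have e3 : 12 * (lam * t / 8) ≤ (α ^ 3 / 18) ^ 2 := by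
    rw [h.lam_eq]
    have e4 : 12 * (α ^ 8 * t / 8) = α ^ 6 * (3 / 2 * (α * (α * t))) := by ring
    have e5 : (α ^ 3 / 18) ^ 2 = α ^ 6 * (1 / 324) := by ring
    rw [e4, e5]
    apply mul_le_mul_of_nonneg_left _ (by positivity)
    have e6 : 0 < α * t := by positivity
    have e7 : α * (α * t) ≤ 1 / 1000 * (1 / 1000) :=
      mul_le_mul h1 (by linarith) e6.le (by norm_num)
    linarith
  calc 12 * (κ * (lam * t) / 8) = κ * (12 * (lam * t / 8)) := by ring
    _ ≤ κ * (α / m) ^ 2 := mul_le_mul_of_nonneg_left (e3.trans e2) hκ.le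

theorem sum_E {lam t α : ℝ} (h : Small lam t α) {m : ℕ} (hm : Steps α m) {p : ℕ} (hp : p.Prime)
    {v : ℤ → ℕ} {D : Finset ℤ} (hv : IsVal p v D) {B : ℕ → ℝ}
    (hB : ∀ j ∈ D.image v, LB lam (part v D j) (B j)) :
    LB lam D (∑ j ∈ D.image v, B j + (lam * t / 32 * max (Ent v D - sm v D) 0 +
      (-1) * ((if p ≤ (m + 1) ^ m then t + 1 else 0) * (D.card : ℝ)))) := by
  have hl0 := h.lam0
  have ht := h.t1
  have hlt := h.lamt
  by_cases hpm : p ≤ (m + 1) ^ m
  · rw [if_pos hpm]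
    have h1 := small_node hl0 (by
      have : lam * 100 ≤ lam * t := mul_le_mul_of_nonneg_left ht hl0.le
      linarith) hv hB
    rw [h.loglam] at h1
    apply h1.mono
    have h2 : max (Ent v D - sm v D) 0 ≤ Ent v D := by
      apply max_le
      · have := sm_nonneg v D; linarith
      · exact Ent_nonneg v D
    have h3 := Ent_nonneg v D
    have h4 : lam * t / 32 * max (Ent v D - sm v D) 0 ≤ 1 * Ent v D :=
      mul_le_mul (by linarith) h2 (le_max_right _ _) (by norm_num)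
    linarith
  · rw [if_neg hpm]
    have h1 := big_E hp (not_le.1 hpm) hm.m1 h.α0 hm.hm hl0.le (κ := 1 / 4) (by norm_num)
      (by norm_num) (g₀ := lam * t / 32) (by positivity) (by rw [h.logα]; linarith) (by
        have := h.gain hm (κ := 1 / 4) (by norm_num)
        linarith) hv hB
    apply h1.mono
    linarith

theorem sum_small (l : List ℕ) (hl : l.Nodup) (M : ℕ) {s : ℝ} (hs : 0 ≤ s) :
    (l.map (fun p => if p ≤ M then s else 0)).sum ≤ (M + 1 : ℕ) * s := by
  classical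
  have h1 : (l.map (fun p => if p ≤ M then s else 0)).sum =
      ∑ p ∈ l.toFinset, if p ≤ M then s else 0 := by
    rw [List.sum_toFinset _ hl]
  rw [h1, ← sum_filter, sum_const, nsmul_eq_mul]
  apply mul_le_mul_of_nonneg_right _ hs
  apply Nat.cast_le.2
  calc (l.toFinset.filter (fun p => p ≤ M)).card ≤ (range (M + 1)).card := by
        apply card_le_card
        intro p hp
        rw [mem_filter] at hp
        rw [mem_range]
        omega
    _ = M + 1 := card_range _

/-- the tree bound on the sum side, general growth -/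
theorem tree_sum_E {lam t α : ℝ} (h : Small lam t α) {m : ℕ} (hm : Steps α m) {A : Finset ℤ}
    (v : ℕ → ℤ → ℕ) (l : List ℕ) (hl : l.Nodup) (hlp : ∀ p ∈ l, p.Prime)
    (hv : ∀ p ∈ l, IsVal p (v p) A) :
    LB lam A (lam * t / 32 * Tot v (fun p E => max (Ent (v p) E - sm (v p) E) 0) l A -
      (((m + 1) ^ m + 1 : ℕ) * (t + 1)) * A.card) := by
  have ht := h.t1
  have h1 := tree (v := v) (g := fun p E => lam * t / 32 * max (Ent (v p) E - sm (v p) E) 0 +
      (-1) * ((if p ≤ (m + 1) ^ m then t + 1 else 0) * (E.card : ℝ)))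
    (𝓛 := fun D B => LB lam D B) (A := A) (fun D _ => LB_zero h.lam0.le _) l (by
      intro p hp D hD B hB
      exact sum_E h hm (hlp p hp) ((hv p hp).subset hD) hB) A (Subset.refl A)
  rw [Tot_lin (fun p E => max (Ent (v p) E - sm (v p) E) 0)
    (fun p E => (if p ≤ (m + 1) ^ m then t + 1 else 0) * (E.card : ℝ)) (lam * t / 32) (-1),
    Tot_card (fun p => if p ≤ (m + 1) ^ m then t + 1 else 0)] at h1
  apply h1.mono
  have h2 := sum_small l hl ((m + 1) ^ m) (s := t + 1) (by linarith)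
  have h3 := mul_le_mul_of_nonneg_right h2 (show (0 : ℝ) ≤ A.card by positivity)
  linarith

/-- entropy of popular nodes -/
noncomputable def pop (κ : ℝ) (v : ℤ → ℕ) (D : Finset ℤ) : ℝ :=
  if 2 * κ * D.card < mi v D then Ent v D else 0

theorem pop_nonneg (κ : ℝ) (v : ℤ → ℕ) (D : Finset ℤ) : 0 ≤ pop κ v D := by
  unfold pop
  split_ifs
  · exact Ent_nonneg v D
  · exact le_rfl

theorem pop_le (κ : ℝ) (v : ℤ → ℕ) (D : Finset ℤ) : pop κ v D ≤ Ent v D := by
  unfold pop
  split_ifs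
  · exact le_rfl
  · exact Ent_nonneg v D

theorem sum_F {lam t α κ : ℝ} (h : Small lam t α) (hκ0 : 0 < κ) (hκ1 : κ ≤ 1 / 4) {m : ℕ}
    (hm : Steps α m) {p : ℕ} (hp : p.Prime)
    {v : ℤ → ℕ} {D : Finset ℤ} (hv : IsVal p v D) {B : ℕ → ℝ}
    (hB : ∀ j ∈ D.image v, LB lam (part v D j) (B j)) :
    LB lam D (∑ j ∈ D.image v, B j + (κ * (lam * t) / 24 * pop κ v D +
      (-1) * ((if p ≤ (m + 1) ^ m then t + 1 else 0) * (D.card : ℝ)))) := by
  have hl0 := h.lam0
  have ht := h.t1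
  have hlt := h.lamt
  by_cases hpm : p ≤ (m + 1) ^ m
  · rw [if_pos hpm]
    have h1 := small_node hl0 (by
      have : lam * 100 ≤ lam * t := mul_le_mul_of_nonneg_left ht hl0.le
      linarith) hv hB
    rw [h.loglam] at h1
    apply h1.mono
    have h3 := Ent_nonneg v D
    have h4 : κ * (lam * t) / 24 * pop κ v D ≤ 1 * Ent v D := by
      apply mul_le_mul _ (pop_le κ v D) (pop_nonneg κ v D) (by norm_num)
      have : κ * (lam * t) ≤ 1 / 4 * (1 / 1000000) :=
        mul_le_mul hκ1 hlt (by positivity) (by norm_num)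
      linarith
    linarith
  · rw [if_neg hpm]
    have hg1 : κ * (lam * t) / 8 ≤ κ * (lam * Real.log (1 / α)) := by
      rw [h.logα]; apply le_of_eq; ring
    have hg2 := h.gain hm hκ0
    by_cases hc : 2 * κ * D.card < mi v D
    · unfold pop
      rw [if_pos hc]
      have h1 := big_F hp (not_le.1 hpm) hm.m1 h.α0 hm.hm hl0.le hκ0 hκ1
        (g₀ := κ * (lam * t) / 8) (by positivity) hg1 hg2 hv hB hc
      apply h1.mono
      linarith
    · unfold pop
      rw [if_neg hc]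
      have h1 := big_free hp (not_le.1 hpm) hm.m1 h.α0 hm.hm hl0.le hκ0 hκ1 hv hB
        (le_trans (by positivity) hg1)
      apply h1.mono
      linarith

theorem tree_sum_F {lam t α κ : ℝ} (h : Small lam t α) (hκ0 : 0 < κ) (hκ1 : κ ≤ 1 / 4) {m : ℕ}
    (hm : Steps α m) {A : Finset ℤ}
    (v : ℕ → ℤ → ℕ) (l : List ℕ) (hl : l.Nodup) (hlp : ∀ p ∈ l, p.Prime)
    (hv : ∀ p ∈ l, IsVal p (v p) A) :
    LB lam A (κ * (lam * t) / 24 * Tot v (fun p E => pop κ (v p) E) l A -
      (((m + 1) ^ m + 1 : ℕ) * (t + 1)) * A.card) := by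
  have ht := h.t1
  have h1 := tree (v := v) (g := fun p E => κ * (lam * t) / 24 * pop κ (v p) E +
      (-1) * ((if p ≤ (m + 1) ^ m then t + 1 else 0) * (E.card : ℝ)))
    (𝓛 := fun D B => LB lam D B) (A := A) (fun D _ => LB_zero h.lam0.le _) l (by
      intro p hp D hD B hB
      exact sum_F h hκ0 hκ1 hm (hlp p hp) ((hv p hp).subset hD) hB) A (Subset.refl A)
  rw [Tot_lin (fun p E => pop κ (v p) E)
    (fun p E => (if p ≤ (m + 1) ^ m then t + 1 else 0) * (E.card : ℝ))
    (κ * (lam * t) / 24) (-1),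
    Tot_card (fun p => if p ≤ (m + 1) ^ m then t + 1 else 0)] at h1
  apply h1.mono
  have h2 := sum_small l hl ((m + 1) ^ m) (s := t + 1) (by linarith)
  have h3 := mul_le_mul_of_nonneg_right h2 (show (0 : ℝ) ≤ A.card by positivity)
  linarith

end Pool.Agent.Helper2.H
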