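import Pool.Agent.Helper2.HGibbs

set_option autoImplicit false

/-!
The gain from a threshold of a coordinate.
-/

open Finset

namespace Pool.Agent.Helper2.H

open Pool.Agent.Helper2.F Pool.Agent.Helper2.E

variable {G : Type*} [AddCommGroup G] [DecidableEq G]

/-- the free bound with the credit -/
theorem credit {lam : ℝ} {χ : G →+ ℤ} {D : Finset G} {B : ℤ → ℝ}
    (hB : ∀ c ∈ D.image χ, LB lam (fib χ D c) (B c)) (X : Finset G) :
    (X.card : ℝ) * (∑ c ∈ D.image χ, B c - lam * D.card * Real.log X.card) +
      lam * D.card * EntG χ X ≤ ∑ c ∈ D.image χ, J X (fib χ D c) := by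
  have h1 : ∑ c ∈ D.image χ, ((X.card : ℝ) * (B c - lam * (fib χ D c).card * Real.log X.card) +
      lam * (fib χ D c).card * EntG χ X) ≤ ∑ c ∈ D.image χ, J X (fib χ D c) := by
    apply sum_le_sum
    intro c hc
    exact LB_fib (fun y hy => (mem_fib.1 hy).2) (hB c hc) X
  refine le_trans (le_of_eq ?_) h1
  rw [sum_add_distrib, ← mul_sum, sum_sub_distrib, ← sum_mul, ← sum_mul, ← mul_sum, card_fib]

/-- threshold gain -/
theorem thresh {lam α w : ℝ} (hlam : 0 ≤ lam) (hα : 0 < α) {χ : G →+ ℤ} {D : Finset G}
    {B : ℤ → ℝ} (hB : ∀ c ∈ D.image χ, LB lam (fib χ D c) (B c)) {l : ℤ}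
    (h1 : 0 < (D.filter (fun y => l < χ y)).card) (h0 : 0 < (D.filter (fun y => ¬ l < χ y)).card)
    (hw : w * ((D.card : ℝ) * D.card) ≤ ((D.filter (fun y => l < χ y)).card : ℝ) *
      (D.filter (fun y => ¬ l < χ y)).card) {g : ℝ} (hg1 : g ≤ lam * Real.log (1 / α) * D.card)
    (hg2 : g ≤ w * D.card * (α ^ 2 / 6)) :
    LB lam D (∑ c ∈ D.image χ, B c + g) := by
  classical
  intro X hX
  have hXp : (0 : ℝ) < X.card := by exact_mod_cast card_pos.2 hX
  set D₁ := D.filter (fun y => l < χ y) with hD₁
  set D₀ := D.filter (fun y => ¬ l < χ y) with hD₀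
  have hcard : D₁.card + D₀.card = D.card := card_filter_add_card_filter_not _
  have hcard' : (D₁.card : ℝ) + D₀.card = D.card := by exact_mod_cast hcard
  have hp1 : (0 : ℝ) < D₁.card := by exact_mod_cast h1
  have hp0 : (0 : ℝ) < D₀.card := by exact_mod_cast h0
  have hpD : (0 : ℝ) < D.card := by linarith
  have hcr := credit hB X
  have hS0 := EntG_nonneg χ X
  have hcr0 : 0 ≤ lam * D.card * EntG χ X := by positivity
  rcases le_or_gt (X.card * Real.log (1 / α)) (EntG χ X) with hA | hC
  · refine le_trans ?_ (hcr.trans (J_free_all χ X D))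
    have h2 : X.card * g ≤ lam * D.card * EntG χ X := by
      calc X.card * g ≤ X.card * (lam * Real.log (1 / α) * D.card) :=
            mul_le_mul_of_nonneg_left hg1 hXp.le
        _ = lam * D.card * (X.card * Real.log (1 / α)) := by ring
        _ ≤ _ := mul_le_mul_of_nonneg_left hA (by positivity)
    linarith
  · -- an atom
    have hex : ∃ x ∈ X, info X χ x < Real.log (1 / α) := by
      by_contra hno
      push Not at hno
      have h2 := sum_le_sum hno
      rw [sum_const, nsmul_eq_mul, sum_info] at h2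
      linarith
    obtain ⟨x₀, hx₀, hx₀'⟩ := hex
    have hn₀ : (0 : ℝ) < (fib χ X (χ x₀)).card := by
      exact_mod_cast card_pos.2 ⟨x₀, mem_fib.2 ⟨hx₀, rfl⟩⟩
    have hrich : α * X.card ≤ (fib χ X (χ x₀)).card := by
      rw [info_eq hx₀] at hx₀'
      have e : X.filter (fun d' => χ d' = χ x₀) = fib χ X (χ x₀) := rfl
      rw [e, one_div, Real.log_inv] at hx₀'
      rw [← Real.log_le_log_iff (by positivity) hn₀, Real.log_mul hα.ne' hXp.ne']
      linarith
    set b := χ x₀ with hb
    set Sg := sset X D with hSg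
    have hdis : Disjoint D₁ D₀ := disjoint_filter_filter_not _ _ _
    have hun : D₁ ∪ D₀ = D := filter_union_filter_not_eq _ _
    set T := Sg.filter (fun s => b + l + 1 ≤ χ s) with hT
    have hsumcls : ∀ E : Finset G, (∀ x ∈ X, ∀ y ∈ E, x + y ∈ Sg) →
        ∑ s ∈ T, (rep X E s : ℝ) =
        ∑ y ∈ E, ((X.filter (fun x => b + l + 1 ≤ χ (x + y))).card : ℝ) := by
      intro E hE
      have h2 := sum_pairs X E (fun s => if b + l + 1 ≤ χ s then (1 : ℝ) else 0) hE
      simp only [mul_ite, mul_one, mul_zero] at h2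
      rw [hT, sum_filter, ← h2, sum_comm]
      apply sum_congr rfl
      intro y _
      rw [← sum_filter, sum_const, nsmul_eq_mul, mul_one]
    have hlow : ∀ y ∈ D₁, ((X.filter (fun x => b ≤ χ x)).card : ℝ) ≤
        ((X.filter (fun x => b + l + 1 ≤ χ (x + y))).card : ℝ) := by
      intro y hy
      apply Nat.cast_le.2
      apply card_le_card
      intro x hx
      rw [mem_filter] at hx ⊢
      rw [hD₁, mem_filter] at hy
      refine ⟨hx.1, ?_⟩
      rw [map_add]
      have := hx.2
      have := hy.2
      omega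
    have hup : ∀ y ∈ D₀, ((X.filter (fun x => b + l + 1 ≤ χ (x + y))).card : ℝ) ≤
        ((X.filter (fun x => b < χ x)).card : ℝ) := by
      intro y hy
      apply Nat.cast_le.2
      apply card_le_card
      intro x hx
      rw [mem_filter] at hx ⊢
      rw [hD₀, mem_filter] at hy
      refine ⟨hx.1, ?_⟩
      have h3 := hx.2
      rw [map_add] at h3
      have := hy.2
      omega
    have hlow' := card_nsmul_le_sum D₁ _ _ hlow
    have hup' := sum_le_card_nsmul D₀ _ _ hup
    rw [nsmul_eq_mul] at hlow' hup'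
    have hdiff : ((X.filter (fun x => b ≤ χ x)).card : ℝ) =
        (fib χ X b).card + (X.filter (fun x => b < χ x)).card := by
      have e : X.filter (fun x => b ≤ χ x) = fib χ X b ∪ X.filter (fun x => b < χ x) := by
        ext x
        rw [mem_union, mem_filter, mem_filter, mem_fib]
        constructor
        · rintro ⟨hx, h⟩
          rcases h.eq_or_lt with h | h
          · exact Or.inl ⟨hx, h.symm⟩
          · exact Or.inr ⟨hx, h⟩
        · rintro (⟨hx, h⟩ | ⟨hx, h⟩)
          · exact ⟨hx, h.ge⟩
          · exact ⟨hx, h.le⟩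
      have hd : Disjoint (fib χ X b) (X.filter (fun x => b < χ x)) := by
        rw [disjoint_left]
        intro x hx hx'
        rw [mem_fib] at hx
        rw [mem_filter] at hx'
        have := hx.2
        have := hx'.2
        omega
      rw [e, card_union_of_disjoint hd]
      push_cast
      rfl
    have hT' : α * X.card ≤ ∑ s ∈ T,
        ((rep X D₁ s : ℝ) / D₁.card - (rep X D₀ s : ℝ) / D₀.card) := by
      rw [sum_sub_distrib, ← sum_div, ← sum_div,
        hsumcls D₁ (fun x hx y hy => mem_sset hx ((filter_subset _ _) hy)),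
        hsumcls D₀ (fun x hx y hy => mem_sset hx ((filter_subset _ _) hy))]
      have h2 : ((X.filter (fun x => b ≤ χ x)).card : ℝ) ≤
          (∑ y ∈ D₁, ((X.filter (fun x => b + l + 1 ≤ χ (x + y))).card : ℝ)) / D₁.card := by
        rw [le_div_iff₀ hp1]
        linarith
      have h3 : (∑ y ∈ D₀, ((X.filter (fun x => b + l + 1 ≤ χ (x + y))).card : ℝ)) / D₀.card ≤
          ((X.filter (fun x => b < χ x)).card : ℝ) := by
        rw [div_le_iff₀ hp0]
        linarith
      linarith
    have hgain := J_part hdis (card_pos.1 h1) (card_pos.1 h0) (X := X) hα.le T hT'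
    rw [hun] at hgain
    refine le_trans ?_ hgain
    -- the free bounds of the two halves
    have hf1 := J_free_fib χ X D ((D.image χ).filter (fun c => l < c))
    have hf0 := J_free_fib χ X D ((D.image χ).filter (fun c => ¬ l < c))
    have e1 : D.filter (fun y => χ y ∈ (D.image χ).filter (fun c => l < c)) = D₁ := by
      apply filter_congr
      intro y hy
      rw [mem_filter]
      exact ⟨fun h => h.2, fun h => ⟨mem_image_of_mem χ hy, h⟩⟩
    have e0 : D.filter (fun y => χ y ∈ (D.image χ).filter (fun c => ¬ l < c)) = D₀ := by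
      apply filter_congr
      intro y hy
      rw [mem_filter]
      exact ⟨fun h => h.2, fun h => ⟨mem_image_of_mem χ hy, h⟩⟩
    rw [e1] at hf1
    rw [e0] at hf0
    have hsum := sum_filter_add_sum_filter_not (D.image χ) (fun c => l < c)
      (fun c => J X (fib χ D c))
    have h4 : g ≤ (D₁.card : ℝ) * D₀.card / D.card * (α ^ 2 / 6) := by
      refine hg2.trans ?_
      apply mul_le_mul_of_nonneg_right _ (by positivity)
      rw [le_div_iff₀ hpD]
      linarith
    have h5 := mul_le_mul_of_nonneg_left h4 hXp.le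
    linarith

end Pool.Agent.Helper2.H
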