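import Pool.Agent.Helper2.HProdNode
import Pool.Agent.Helper2.HSmall

set_option autoImplicit false

/-!
The product side: transport of the node bounds to sets of integers.
-/

open Finset

namespace Pool.Agent.Helper2.H

open Pool.Agent.Helper2.F Pool.Agent.Helper2.G

variable {G : Type*} [AddCommGroup G] [DecidableEq G]

section trans

variable {φ : ℤ → G} {χ : G →+ ℤ} {v : ℤ → ℕ} {D : Finset ℤ}
  (hinj : ∀ y ∈ D, ∀ y' ∈ D, φ y = φ y' → y = y') (hχ : ∀ y ∈ D, χ (φ y) = (v y : ℤ))

include hinj in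
theorem img_card {D' : Finset ℤ} (hD' : D' ⊆ D) : (D'.image φ).card = D'.card :=
  card_image_of_injOn (fun y hy y' hy' h => hinj y (hD' hy) y' (hD' hy') h)

include hχ in
theorem img_img : (D.image φ).image χ = (D.image v).image (fun j : ℕ => (j : ℤ)) := by
  ext c
  simp only [mem_image, exists_exists_and_eq_and]
  constructor
  · rintro ⟨y, hy, rfl⟩
    exact ⟨y, hy, (hχ y hy).symm⟩
  · rintro ⟨y, hy, rfl⟩
    exact ⟨y, hy, hχ y hy⟩

include hχ in
theorem filter_img (P : ℤ → Prop) [DecidablePred P] :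
    (D.image φ).filter (fun y => P (χ y)) = (D.filter (fun y => P (v y))).image φ := by
  ext c
  simp only [mem_image, mem_filter]
  constructor
  · rintro ⟨⟨y, hy, rfl⟩, h⟩
    rw [hχ y hy] at h
    exact ⟨y, ⟨hy, h⟩, rfl⟩
  · rintro ⟨y, ⟨hy, h⟩, rfl⟩
    refine ⟨⟨y, hy, rfl⟩, ?_⟩
    rw [hχ y hy]
    exact h

include hχ in
theorem fib_img (j : ℕ) : fib χ (D.image φ) (j : ℤ) = (part v D j).image φ := by
  have h := filter_img hχ (fun c => c = (j : ℤ))
  unfold fib part
  rw [h]
  congr 1
  apply filter_congr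
  intro y _
  exact Nat.cast_inj

include hχ in
theorem sum_img (f : ℤ → ℝ) :
    ∑ c ∈ (D.image φ).image χ, f c = ∑ j ∈ D.image v, f (j : ℤ) := by
  rw [img_img hχ, sum_image]
  intro a _ b _ h
  have h' : (a : ℤ) = b := h
  exact_mod_cast h'

include hinj hχ in
theorem EntG_img : EntG χ (D.image φ) = Ent v D := by
  unfold EntG Ent
  rw [sum_img hχ, img_card hinj (Subset.refl D)]
  congr 1
  apply sum_congr rfl
  intro j _
  rw [fib_img hχ, img_card hinj (part_subset v D j)]

include hχ in
theorem LB_img {lam : ℝ} {B : ℕ → ℝ}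
    (hB : ∀ j ∈ D.image v, LB lam ((part v D j).image φ) (B j)) :
    ∀ c ∈ (D.image φ).image χ, LB lam (fib χ (D.image φ) c) (B c.toNat) := by
  intro c hc
  rw [img_img hχ, mem_image] at hc
  obtain ⟨j, hj, rfl⟩ := hc
  rw [fib_img hχ, Int.toNat_natCast]
  exact hB j hj

include hχ in
theorem sumB_img (B : ℕ → ℝ) :
    ∑ c ∈ (D.image φ).image χ, B c.toNat = ∑ j ∈ D.image v, B j := by
  rw [sum_img hχ]
  apply sum_congr rfl
  intro j _
  rw [Int.toNat_natCast]

include hinj hχ in
theorem card_ne_img (z : ℕ) : ((D.image φ).filter (fun y => χ y ≠ (z : ℤ))).card =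
    (D.filter (fun y => ¬ v y = z)).card := by
  rw [filter_img hχ (fun c => c ≠ (z : ℤ)), img_card hinj (filter_subset _ _)]
  congr 1
  apply filter_congr
  intro y _
  rw [ne_eq, Nat.cast_inj]

include hinj hχ in
/-- the gain on the product side, general growth -/
theorem prod_E {lam t α : ℝ} (h : Small lam t α) {B : ℕ → ℝ}
    (hB : ∀ j ∈ D.image v, LB lam ((part v D j).image φ) (B j)) :
    LB lam (D.image φ) (∑ j ∈ D.image v, B j + lam * t / 24 * sm v D) := by
  have hl0 := h.lam0
  have ht := h.t1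
  have ht0 : 0 < t := by linarith
  rcases D.eq_empty_or_nonempty with hE | hne
  · rw [hE]
    have : sm v (∅ : Finset ℤ) = 0 := by
      unfold sm
      have h1 : mi v (∅ : Finset ℤ) = 0 := by unfold mi mx; simp
      rw [h1]; simp
    rw [this]
    simpa using LB_zero hl0.le (∅ : Finset G)
  have hne' : (D.image φ).Nonempty := hne.image φ
  have hDp : (0 : ℝ) < D.card := by exact_mod_cast card_pos.2 hne
  have hBB := LB_img hχ hB
  have hsB := sumB_img hχ B
  have hcd : (D.image φ).card = D.card := img_card hinj (Subset.refl D)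
  by_cases hc : 2 * mi v D ≤ D.card
  · obtain ⟨z, hz, h1, h2⟩ := exists_mx (v := v) hne
    have h3 := node_conc h hne' hBB (z := (z : ℤ)) (by
      rw [card_ne_img hinj hχ, hcd, ← h1]; exact hc)
    rw [card_ne_img hinj hχ, hcd, hsB, ← h1] at h3
    unfold sm
    rw [if_pos hc]
    exact h3
  · push Not at hc
    rcases level D hne v (show (0 : ℝ) < 1 / 4 by norm_num) (by norm_num) with
      ⟨l, h1, h2⟩ | ⟨z, hz⟩
    · have e1 : (((D.image φ).filter (fun y => (l : ℤ) - 1 < χ y)).card : ℝ) =
          (D.filter (fun y => l ≤ v y)).card := by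
        rw [filter_img hχ (fun c => (l : ℤ) - 1 < c), img_card hinj (filter_subset _ _)]
        congr 2
        apply filter_congr
        intro y _
        omega
      have h3 := node_bal h hne' hBB (l := (l : ℤ) - 1) (by rw [e1, hcd]; exact h1)
        (by rw [e1, hcd]; linarith)
      rw [hcd, hsB] at h3
      unfold sm
      rw [if_neg (not_le.2 hc)]
      exact h3
    · exfalso
      have h4 := mi_le (v := v) (D := D) z
      have h5 : ((D.filter (fun y => ¬ v y = z)).card : ℝ) ≤ 2 * (1 / 4) * D.card := hz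
      linarith

end trans

/-- the tree bound on the product side, general growth -/
theorem tree_prod_E {lam t α : ℝ} (h : Small lam t α) {A : Finset ℤ} {φ : ℤ → G}
    (hinj : ∀ y ∈ A, ∀ y' ∈ A, φ y = φ y' → y = y') (χ : ℕ → G →+ ℤ) (v : ℕ → ℤ → ℕ)
    (l : List ℕ) (hχ : ∀ p ∈ l, ∀ y ∈ A, χ p (φ y) = (v p y : ℤ)) :
    LB lam (A.image φ) (lam * t / 24 * Tot v (fun p E => sm (v p) E) l A) := by
  have h1 := tree (v := v) (g := fun p E => lam * t / 24 * sm (v p) E + 0 * sm (v p) E)
    (𝓛 := fun D B => LB lam (D.image φ) B) (A := A) (fun D _ => LB_zero h.lam0.le _) l (by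
      intro p hp D hD B hB
      have h2 := prod_E (D := D) (fun y hy y' hy' => hinj y (hD hy) y' (hD hy'))
        (fun y hy => hχ p hp y (hD hy)) h hB
      rw [zero_mul, add_zero]
      exact h2) A (Subset.refl A)
  rw [Tot_lin (fun p E => sm (v p) E) (fun p E => sm (v p) E) (lam * t / 24) 0] at h1
  simpa using h1

end Pool.Agent.Helper2.H
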