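import Pool.Agent.Helper2.HSplit

set_option autoImplicit false

/-!
Entropy of a partition by the values of a function, and sums over the tree of valuations.
-/

open Finset

namespace Pool.Agent.Helper2.H

open Pool.Agent.Helper2.F Pool.Agent.Helper2.G

/-- the (unnormalised) entropy of `v` on `D` -/
noncomputable def Ent (v : ℤ → ℕ) (D : Finset ℤ) : ℝ :=
  D.card * Real.log D.card - ∑ j ∈ D.image v, ((part v D j).card : ℝ) * Real.log (part v D j).card

/-- sums over the tree of the values of the functions `v p`, `p ∈ l` -/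
noncomputable def Tot (v : ℕ → ℤ → ℕ) (g : ℕ → Finset ℤ → ℝ) : List ℕ → Finset ℤ → ℝ
  | [], _ => 0
  | (p :: l), D => g p D + ∑ j ∈ D.image (v p), Tot v g l (part (v p) D j)

theorem card_image_part (v : ℤ → ℕ) (D : Finset ℤ) :
    ∑ j ∈ D.image v, ((part v D j).card : ℝ) = D.card := by
  have h := card_eq_sum_card_image v D
  rw [h]
  push_cast
  rfl

theorem sum_image_part (v : ℤ → ℕ) (D : Finset ℤ) (f : ℤ → ℝ) :
    ∑ j ∈ D.image v, ∑ y ∈ part v D j, f y = ∑ y ∈ D, f y :=
  sum_fiberwise_of_maps_to (fun _ hy => mem_image_of_mem v hy) f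

theorem part_nonempty {v : ℤ → ℕ} {D : Finset ℤ} {j : ℕ} (hj : j ∈ D.image v) :
    (part v D j).Nonempty := by
  obtain ⟨y, hy, rfl⟩ := mem_image.1 hj
  exact ⟨y, mem_part.2 ⟨hy, rfl⟩⟩

theorem part_empty {v : ℤ → ℕ} {D : Finset ℤ} {j : ℕ} (hj : j ∉ D.image v) :
    part v D j = ∅ := by
  rw [eq_empty_iff_forall_notMem]
  intro y hy
  exact hj (mem_image.2 ⟨y, (mem_part.1 hy).1, (mem_part.1 hy).2⟩)

theorem tree {v : ℕ → ℤ → ℕ} {g : ℕ → Finset ℤ → ℝ} {𝓛 : Finset ℤ → ℝ → Prop} {A : Finset ℤ}
    (h0 : ∀ D ⊆ A, 𝓛 D 0) : ∀ l : List ℕ,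
    (∀ p ∈ l, ∀ D ⊆ A, ∀ B : ℕ → ℝ, (∀ j ∈ D.image (v p), 𝓛 (part (v p) D j) (B j)) →
      𝓛 D (∑ j ∈ D.image (v p), B j + g p D)) → ∀ D ⊆ A, 𝓛 D (Tot v g l D) := by
  intro l
  induction l with
  | nil => intro _ D hD; exact h0 D hD
  | cons p l ih =>
    intro h D hD
    have h1 := h p (List.mem_cons_self) D hD (fun j => Tot v g l (part (v p) D j)) (by
      intro j _
      exact ih (fun q hq => h q (List.mem_cons_of_mem _ hq)) _ ((part_subset _ _ _).trans hD))
    have h2 : Tot v g (p :: l) D =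
        ∑ j ∈ D.image (v p), Tot v g l (part (v p) D j) + g p D := by
      rw [Tot, add_comm]
    rw [h2]
    exact h1

theorem Tot_mono {v : ℕ → ℤ → ℕ} {g g' : ℕ → Finset ℤ → ℝ} {A : Finset ℤ} : ∀ l : List ℕ,
    (∀ p ∈ l, ∀ D ⊆ A, g p D ≤ g' p D) → ∀ D ⊆ A, Tot v g l D ≤ Tot v g' l D := by
  intro l
  induction l with
  | nil => intro _ D _; exact le_rfl
  | cons p l ih =>
    intro h D hD
    rw [Tot, Tot]
    apply add_le_add (h p List.mem_cons_self D hD)
    apply sum_le_sum
    intro j _
    exact ih (fun q hq => h q (List.mem_cons_of_mem _ hq)) _ ((part_subset _ _ _).trans hD)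

theorem Tot_lin {v : ℕ → ℤ → ℕ} (g g' : ℕ → Finset ℤ → ℝ) (a b : ℝ) : ∀ (l : List ℕ)
    (D : Finset ℤ), Tot v (fun p E => a * g p E + b * g' p E) l D =
      a * Tot v g l D + b * Tot v g' l D := by
  intro l
  induction l with
  | nil => intro D; simp [Tot]
  | cons p l ih =>
    intro D
    simp only [Tot]
    rw [sum_congr rfl (fun j _ => ih (part (v p) D j)), sum_add_distrib, ← mul_sum, ← mul_sum]
    ring

theorem Tot_card {v : ℕ → ℤ → ℕ} (c : ℕ → ℝ) : ∀ (l : List ℕ) (D : Finset ℤ),
    Tot v (fun p E => c p * E.card) l D = (l.map c).sum * D.card := by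
  intro l
  induction l with
  | nil => intro D; simp [Tot]
  | cons p l ih =>
    intro D
    simp only [Tot]
    rw [sum_congr rfl (fun j _ => ih (part (v p) D j)), ← mul_sum, card_image_part]
    rw [List.map_cons, List.sum_cons]
    ring

theorem Tot_Ent {v : ℕ → ℤ → ℕ} : ∀ (l : List ℕ) (D : Finset ℤ),
    (∀ y ∈ D, ∀ y' ∈ D, (∀ p ∈ l, v p y = v p y') → y = y') →
    Tot v (fun p E => Ent (v p) E) l D = D.card * Real.log D.card := by
  intro l
  induction l with
  | nil =>
    intro D hD
    have h1 : D.card ≤ 1 := by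
      rw [card_le_one]
      intro a ha b hb
      exact hD a ha b hb (by simp)
    have h2 : D.card = 0 ∨ D.card = 1 := by omega
    rcases h2 with h | h <;> simp [Tot, h]
  | cons p l ih =>
    intro D hD
    simp only [Tot]
    have h1 : ∀ j ∈ D.image (v p), Tot v (fun p E => Ent (v p) E) l (part (v p) D j) =
        ((part (v p) D j).card : ℝ) * Real.log (part (v p) D j).card := by
      intro j _
      apply ih
      intro y hy y' hy' h
      apply hD y (mem_part.1 hy).1 y' (mem_part.1 hy').1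
      intro q hq
      rcases List.mem_cons.1 hq with rfl | hq
      · rw [(mem_part.1 hy).2, (mem_part.1 hy').2]
      · exact h q hq
    rw [sum_congr rfl h1]
    unfold Ent
    ring

theorem part_le {v : ℤ → ℕ} {D : Finset ℤ} {j : ℕ} : ((part v D j).card : ℝ) ≤ D.card := by
  exact_mod_cast card_le_card (part_subset v D j)

theorem Ent_nonneg (v : ℤ → ℕ) (D : Finset ℤ) : 0 ≤ Ent v D := by
  unfold Ent
  rw [sub_nonneg]
  calc ∑ j ∈ D.image v, ((part v D j).card : ℝ) * Real.log (part v D j).card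
      ≤ ∑ j ∈ D.image v, ((part v D j).card : ℝ) * Real.log D.card := by
        apply sum_le_sum
        intro j hj
        apply mul_le_mul_of_nonneg_left _ (by positivity)
        apply Real.log_le_log
        · exact_mod_cast card_pos.2 (part_nonempty hj)
        · exact part_le
    _ = _ := by rw [← sum_mul, card_image_part]

/-- splitting the values by a predicate -/
theorem sum_filter_values (v : ℤ → ℕ) (D : Finset ℤ) (P : ℕ → Prop) [DecidablePred P]
    (f : ℕ → Finset ℤ → ℝ) :
    ∑ j ∈ D.image v, f j (part v D j) =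
      ∑ j ∈ (D.filter (fun y => P (v y))).image v, f j (part v (D.filter (fun y => P (v y))) j) +
      ∑ j ∈ (D.filter (fun y => ¬ P (v y))).image v,
        f j (part v (D.filter (fun y => ¬ P (v y))) j) := by
  have h1 : ∀ Q : ℕ → Prop, ∀ _ : DecidablePred Q,
      (D.filter (fun y => Q (v y))).image v = (D.image v).filter Q := by
    intro Q _
    rw [filter_image]
  have h2 : ∀ Q : ℕ → Prop, ∀ _ : DecidablePred Q, ∀ j, Q j →
      part v (D.filter (fun y => Q (v y))) j = part v D j := by
    intro Q _ j hj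
    ext y
    rw [mem_part, mem_part, mem_filter]
    constructor
    · rintro ⟨⟨h1, _⟩, h3⟩
      exact ⟨h1, h3⟩
    · rintro ⟨h1, h3⟩
      exact ⟨⟨h1, h3 ▸ hj⟩, h3⟩
  rw [h1 P inferInstance, h1 (fun j => ¬ P j) inferInstance,
    ← sum_filter_add_sum_filter_not (D.image v) P]
  congr 1
  · apply sum_congr rfl
    intro j hj
    rw [h2 P inferInstance j (mem_filter.1 hj).2]
  · apply sum_congr rfl
    intro j hj
    rw [h2 (fun j => ¬ P j) inferInstance j (mem_filter.1 hj).2]

theorem Ent_split (v : ℤ → ℕ) (D : Finset ℤ) (P : ℕ → Prop) [DecidablePred P] :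
    Ent v D = Ent v (D.filter (fun y => P (v y))) + Ent v (D.filter (fun y => ¬ P (v y))) +
      (D.card * Real.log D.card -
        (D.filter (fun y => P (v y))).card * Real.log (D.filter (fun y => P (v y))).card -
        (D.filter (fun y => ¬ P (v y))).card * Real.log (D.filter (fun y => ¬ P (v y))).card) := by
  unfold Ent
  rw [sum_filter_values v D P (fun _ E => (E.card : ℝ) * Real.log E.card)]
  ring

theorem two_log' {a b : ℝ} (ha : 0 ≤ a) (hb : 0 ≤ b) :
    (a + b) * Real.log (a + b) - a * Real.log a - b * Real.log b ≤ (a + b) * Real.log 2 := by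
  have hl2 : 0 < Real.log 2 := Real.log_pos (by norm_num)
  rcases ha.eq_or_lt with h | h
  · rw [← h]
    simp only [zero_add, zero_mul, sub_zero, sub_self]
    positivity
  rcases hb.eq_or_lt with h' | h'
  · rw [← h']
    simp only [add_zero, zero_mul, sub_zero, sub_self]
    positivity
  have := two_log h h'
  linarith

theorem split_log {a b : ℝ} (ha : 0 < a) (hb : 0 ≤ b) :
    (a + b) * Real.log (a + b) - a * Real.log a - b * Real.log b ≤
      b * (Real.log ((a + b) / b) + 1) := by
  rcases hb.eq_or_lt with h' | h'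
  · rw [← h']; simp
  rw [Real.log_div (by positivity) h'.ne']
  have h1 := Real.log_le_sub_one_of_pos (show 0 < (a + b) / a by positivity)
  rw [Real.log_div (by positivity) ha.ne'] at h1
  have h2 := mul_le_mul_of_nonneg_left h1 ha.le
  have h3 : a * ((a + b) / a - 1) = b := by field_simp; ring
  linarith

end Pool.Agent.Helper2.H
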