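import Mathlib

set_option autoImplicit false

/-!
Elementary incidence inequality for cartesian products: `|A+B|² |AX|² ≥ |A|³ |X| |B| / 256`.
-/

open Finset

namespace Pool.Agent.Helper2.R

/-- number of pairs in the fibres of a map -/
theorem card_sq_le_pairs {ι β : Type*} [DecidableEq ι] [DecidableEq β] (X : Finset ι) (φ : ι → β)
    (Y : Finset β) (hY : ∀ x ∈ X, φ x ∈ Y) :
    X.card ^ 2 ≤ Y.card * ((X ×ˢ X).filter (fun e => φ e.1 = φ e.2)).card := by
  have h1 : X.card = ∑ y ∈ Y, (X.filter (fun x => φ x = y)).card :=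
    card_eq_sum_card_fiberwise hY
  have h2 : ((X ×ˢ X).filter (fun e => φ e.1 = φ e.2)).card =
      ∑ y ∈ Y, (X.filter (fun x => φ x = y)).card ^ 2 := by
    rw [card_eq_sum_card_fiberwise (f := fun e : ι × ι => φ e.1) (t := Y)]
    · apply sum_congr rfl
      intro y _
      rw [sq, ← card_product]
      congr 1
      ext e
      simp only [mem_filter, mem_product]
      constructor
      · rintro ⟨⟨⟨h1, h2⟩, h3⟩, h4⟩
        exact ⟨⟨h1, h4⟩, ⟨h2, h3.symm.trans h4⟩⟩
      · rintro ⟨⟨h1, h2⟩, ⟨h3, h4⟩⟩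
        exact ⟨⟨⟨h1, h3⟩, h2.trans h4.symm⟩, h2⟩
    · intro e he
      have he' := mem_coe.1 he
      rw [mem_filter, mem_product] at he'
      exact mem_coe.2 (hY _ he'.1.1)
  rw [h2]
  calc X.card ^ 2 = (∑ y ∈ Y, (X.filter (fun x => φ x = y)).card) ^ 2 := by rw [← h1]
    _ ≤ Y.card * ∑ y ∈ Y, (X.filter (fun x => φ x = y)).card ^ 2 := sq_sum_le_card_mul_sum_sq

/-- rank of a real number with respect to a finite set -/
noncomputable def rk (S : Finset ℝ) (s : ℝ) : ℕ := (S.filter (fun x => x < s)).card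

theorem rk_mono (S : Finset ℝ) {s t : ℝ} (h : s ≤ t) : rk S s ≤ rk S t := by
  apply card_le_card
  intro x hx
  rw [mem_filter] at hx ⊢
  exact ⟨hx.1, lt_of_lt_of_le hx.2 h⟩

theorem rk_lt {S : Finset ℝ} {s : ℝ} (hs : s ∈ S) : rk S s < S.card := by
  apply card_lt_card
  rw [ssubset_iff_of_subset (filter_subset _ _)]
  exact ⟨s, hs, by simp⟩

theorem rk_strict {S : Finset ℝ} {s t : ℝ} (hs : s ∈ S) (h : s < t) : rk S s < rk S t := by
  apply card_lt_card
  rw [ssubset_iff_of_subset]
  · exact ⟨s, mem_filter.2 ⟨hs, h⟩, by simp⟩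
  · intro x hx
    rw [mem_filter] at hx ⊢
    exact ⟨hx.1, lt_trans hx.2 h⟩

theorem rk_inj {S : Finset ℝ} {s t : ℝ} (hs : s ∈ S) (ht : t ∈ S) (h : rk S s = rk S t) :
    s = t := by
  rcases lt_trichotomy s t with h1 | h1 | h1
  · exact absurd h (rk_strict hs h1).ne
  · exact h1
  · exact absurd h (rk_strict ht h1).ne'

/-- number of pairs of elements in the same block -/
theorem card_block_pairs (S : Finset ℝ) {m : ℕ} (hm : 0 < m) :
    ((S ×ˢ S).filter (fun e => rk S e.1 / m = rk S e.2 / m)).card ≤ S.card * m := by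
  have h1 : ((S ×ˢ S).filter (fun e => rk S e.1 / m = rk S e.2 / m)).card ≤
      ((S ×ˢ (range m))).card := by
    apply card_le_card_of_injOn (fun e => (e.1, rk S e.2 % m))
    · intro e he
      have he' := mem_coe.1 he
      rw [mem_filter, mem_product] at he'
      exact mem_coe.2 (mem_product.2 ⟨he'.1.1, mem_range.2 (Nat.mod_lt _ hm)⟩)
    · intro e he f hf hef
      have he' := mem_coe.1 he
      have hf' := mem_coe.1 hf
      rw [mem_filter, mem_product] at he' hf'
      simp only [Prod.mk.injEq] at hef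
      have h3 : e.1 = f.1 := hef.1
      have h4 : rk S e.2 = rk S f.2 := by
        rw [← Nat.div_add_mod (rk S e.2) m, ← Nat.div_add_mod (rk S f.2) m, ← he'.2, ← hf'.2,
          h3, hef.2]
      have h5 := rk_inj he'.1.2 hf'.1.2 h4
      exact Prod.ext h3 h5
  rw [card_product, card_range] at h1
  exact h1

/-- **Elekes-type inequality.** -/
theorem elekes (A B X S R : Finset ℝ) (hA : ∀ a ∈ A, 0 < a) (hX : ∀ x ∈ X, 0 < x)
    (hS : ∀ a ∈ A, ∀ b ∈ B, a + b ∈ S) (hR : ∀ x ∈ X, ∀ a ∈ A, x * a ∈ R) :
    X.card * B.card * A.card ^ 3 ≤ 256 * (S.card ^ 2 * R.card ^ 2) := by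
  classical
  rcases X.eq_empty_or_nonempty with h0 | ⟨x₀, hx₀⟩
  · rw [h0]; simp
  rcases B.eq_empty_or_nonempty with h0 | ⟨b₀, hb₀⟩
  · rw [h0]; simp
  rcases A.eq_empty_or_nonempty with h0 | ⟨a₀, ha₀⟩
  · rw [h0]; simp
  have hSA : A.card ≤ S.card := by
    apply card_le_card_of_injOn (fun a => a + b₀)
    · intro a ha; exact mem_coe.2 (hS a (mem_coe.1 ha) b₀ hb₀)
    · intro a _ a' _ h
      simpa using h
  have hSB : B.card ≤ S.card := by
    apply card_le_card_of_injOn (fun b => a₀ + b)
    · intro b hb; exact mem_coe.2 (hS a₀ ha₀ b (mem_coe.1 hb))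
    · intro a _ a' _ h
      simpa using h
  have hRA : A.card ≤ R.card := by
    apply card_le_card_of_injOn (fun a => x₀ * a)
    · intro a ha; exact mem_coe.2 (hR x₀ hx₀ a (mem_coe.1 ha))
    · intro a _ a' _ h
      exact mul_left_cancel₀ (hX x₀ hx₀).ne' h
  have hRX : X.card ≤ R.card := by
    apply card_le_card_of_injOn (fun x => x * a₀)
    · intro x hx; exact mem_coe.2 (hR x (mem_coe.1 hx) a₀ ha₀)
    · intro a _ a' _ h
      exact mul_right_cancel₀ (hA a₀ ha₀).ne' h
  set N := A.card with hN
  have hN1 : 0 < N := card_pos.2 ⟨a₀, ha₀⟩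
  rcases Nat.lt_or_ge N 4 with hsmall | hbig
  · -- trivial case
    have h1 : N ^ 3 ≤ 256 := by
      have : N ≤ 3 := by omega
      calc N ^ 3 ≤ 3 ^ 3 := Nat.pow_le_pow_left this 3
        _ ≤ 256 := by norm_num
    calc X.card * B.card * N ^ 3 ≤ R.card * S.card * 256 := by gcongr
      _ = 256 * (S.card * R.card) := by ring
      _ ≤ 256 * (S.card ^ 2 * R.card ^ 2) := by
        apply Nat.mul_le_mul_left
        apply Nat.mul_le_mul
        · exact Nat.le_self_pow (by norm_num) _
        · exact Nat.le_self_pow (by norm_num) _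
  · set r := N / 4 with hr
    have hr1 : 1 ≤ r := by omega
    set mS := S.card / r + 1 with hmS
    set mR := R.card / r + 1 with hmR
    have hmS0 : 0 < mS := Nat.succ_pos _
    have hmR0 : 0 < mR := Nat.succ_pos _
    have hblkS : ∀ s ∈ S, rk S s / mS < r := by
      intro s hs
      rw [Nat.div_lt_iff_lt_mul hmS0]
      exact (rk_lt hs).trans (Nat.lt_mul_div_succ S.card (show 0 < r by omega))
    have hblkR : ∀ s ∈ R, rk R s / mR < r := by
      intro s hs
      rw [Nat.div_lt_iff_lt_mul hmR0]
      exact (rk_lt hs).trans (Nat.lt_mul_div_succ R.card (show 0 < r by omega))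
    -- cells along a line
    let cS : ℝ → ℝ → ℕ := fun b a => rk S (a + b) / mS
    let cR : ℝ → ℝ → ℕ := fun x a => rk R (x * a) / mR
    -- off-diagonal pairs in a common cell
    let off : ℝ × ℝ → Finset (ℝ × ℝ) := fun l =>
      (A ×ˢ A).filter (fun e => e.1 ≠ e.2 ∧ cS l.2 e.1 = cS l.2 e.2 ∧ cR l.1 e.1 = cR l.1 e.2)
    have hoff : ∀ l ∈ X ×ˢ B, N ≤ (off l).card := by
      intro l hl
      rw [mem_product] at hl
      have hx := hX l.1 hl.1
      have h1 := card_sq_le_pairs A (fun a => cS l.2 a + cR l.1 a) (range (2 * r)) (by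
        intro a ha
        rw [mem_range]
        have e1 := hblkS _ (hS a ha l.2 hl.2)
        have e2 := hblkR _ (hR l.1 hl.1 a ha)
        simp only [cS, cR]
        omega)
      rw [card_range] at h1
      have hsub : (A ×ˢ A).filter (fun e => cS l.2 e.1 + cR l.1 e.1 = cS l.2 e.2 + cR l.1 e.2) ⊆
          off l ∪ A.image (fun a => (a, a)) := by
        intro e he
        rw [mem_filter, mem_product] at he
        rw [mem_union]
        by_cases hee : e.1 = e.2
        · right
          rw [mem_image]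
          exact ⟨e.1, he.1.1, Prod.ext rfl hee⟩
        · left
          have hmono : ∀ u v : ℝ, u ≤ v → cS l.2 u + cR l.1 u = cS l.2 v + cR l.1 v →
              cS l.2 u = cS l.2 v ∧ cR l.1 u = cR l.1 v := by
            intro u v huv h
            have e1 : cS l.2 u ≤ cS l.2 v := Nat.div_le_div_right (rk_mono S (by linarith))
            have e2 : cR l.1 u ≤ cR l.1 v :=
              Nat.div_le_div_right (rk_mono R (mul_le_mul_of_nonneg_left huv hx.le))
            omega
          refine mem_filter.2 ⟨mem_product.2 he.1, hee, ?_⟩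
          rcases le_total e.1 e.2 with h | h
          · exact hmono _ _ h he.2
          · have := hmono _ _ h he.2.symm
            exact ⟨this.1.symm, this.2.symm⟩
      have h2 := (card_le_card hsub).trans (card_union_le _ _)
      have h3 : (A.image (fun a => (a, a))).card ≤ N := card_image_le
      -- N² ≤ 2 r (off + N), 4 r ≤ N
      have h4 : N ^ 2 ≤ 2 * r * ((off l).card + N) :=
        h1.trans (Nat.mul_le_mul_left _ (h2.trans (Nat.add_le_add_left h3 _)))
      have h5 : 4 * r ≤ N := by omega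
      by_contra hlt
      push Not at hlt
      have h6 : 2 * r * ((off l).card + N) < N ^ 2 := by
        calc 2 * r * ((off l).card + N) < 2 * r * (N + N) := by
              apply Nat.mul_lt_mul_of_pos_left _ (by omega)
              omega
          _ = 4 * r * N := by ring
          _ ≤ N * N := Nat.mul_le_mul_right _ h5
          _ = N ^ 2 := by ring
      omega
    -- the injection
    have hinj : ((X ×ˢ B).sigma off).card ≤
        (((S ×ˢ S).filter (fun e => rk S e.1 / mS = rk S e.2 / mS)) ×ˢ
        ((R ×ˢ R).filter (fun e => rk R e.1 / mR = rk R e.2 / mR))).card := by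
      apply card_le_card_of_injOn (fun t : (_ : ℝ × ℝ) × (ℝ × ℝ) =>
        ((t.2.1 + t.1.2, t.2.2 + t.1.2), (t.1.1 * t.2.1, t.1.1 * t.2.2)))
      · intro t ht
        have ht' := mem_coe.1 ht
        rw [mem_sigma, mem_product] at ht'
        obtain ⟨⟨hx, hb⟩, ho⟩ := ht'
        have ho' := mem_filter.1 ho
        rw [mem_product] at ho'
        refine mem_coe.2 (mem_product.2 ⟨mem_filter.2 ⟨mem_product.2 ⟨?_, ?_⟩, ?_⟩,
          mem_filter.2 ⟨mem_product.2 ⟨?_, ?_⟩, ?_⟩⟩)
        · exact hS _ ho'.1.1 _ hb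
        · exact hS _ ho'.1.2 _ hb
        · exact ho'.2.2.1
        · exact hR _ hx _ ho'.1.1
        · exact hR _ hx _ ho'.1.2
        · exact ho'.2.2.2
      · rintro ⟨⟨x, b⟩, ⟨a, a'⟩⟩ ht ⟨⟨y, d⟩, ⟨e, e'⟩⟩ hu h
        have ht' := mem_coe.1 ht
        have hu' := mem_coe.1 hu
        rw [mem_sigma, mem_product] at ht' hu'
        obtain ⟨⟨hx, hb⟩, ho⟩ := ht'
        obtain ⟨⟨hy, hd⟩, hp⟩ := hu'
        have ho' := mem_filter.1 ho
        have hp' := mem_filter.1 hp
        simp only [Prod.mk.injEq] at h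
        obtain ⟨⟨h1, h2⟩, h3, h4⟩ := h
        have hne : a ≠ a' := ho'.2.1
        have hne' : e ≠ e' := hp'.2.1
        have hx0 : 0 < x := hX x hx
        have h5 : a - a' = e - e' := by linarith
        have h6 : x * (a - a') = y * (a - a') := by
          have : x * (a - a') = y * (e - e') := by
            rw [mul_sub, mul_sub, h3, h4]
          rw [this, h5]
        have h7 : x = y := mul_right_cancel₀ (sub_ne_zero.2 hne) h6
        subst h7
        have h8 : a = e := mul_left_cancel₀ hx0.ne' h3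
        have h9 : a' = e' := mul_left_cancel₀ hx0.ne' h4
        subst h8
        subst h9
        have h10 : b = d := by linarith
        subst h10
        rfl
    rw [card_sigma, card_product] at hinj
    have h1 : X.card * B.card * N ≤ ∑ l ∈ X ×ˢ B, (off l).card := by
      have : ∑ _l ∈ X ×ˢ B, N ≤ ∑ l ∈ X ×ˢ B, (off l).card := sum_le_sum hoff
      rw [sum_const, card_product, smul_eq_mul] at this
      exact this
    have h2 := card_block_pairs S hmS0
    have h3 := card_block_pairs R hmR0
    have h4 : X.card * B.card * N ≤ (S.card * mS) * (R.card * mR) :=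
      h1.trans (hinj.trans (Nat.mul_le_mul h2 h3))
    have h5 : mS * r ≤ 2 * S.card := by
      have e1 : S.card / r * r ≤ S.card := Nat.div_mul_le_self _ _
      have e2 : mS * r = S.card / r * r + r := by rw [hmS]; ring
      omega
    have h6 : mR * r ≤ 2 * R.card := by
      have e1 : R.card / r * r ≤ R.card := Nat.div_mul_le_self _ _
      have e2 : mR * r = R.card / r * r + r := by rw [hmR]; ring
      omega
    have h7 : N ≤ 8 * r := by omega
    calc X.card * B.card * N ^ 3 = X.card * B.card * N * N ^ 2 := by ring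
      _ ≤ (S.card * mS) * (R.card * mR) * (8 * r) ^ 2 := by gcongr
      _ = 64 * ((S.card * (mS * r)) * (R.card * (mR * r))) := by ring
      _ ≤ 64 * ((S.card * (2 * S.card)) * (R.card * (2 * R.card))) := by gcongr
      _ = 256 * (S.card ^ 2 * R.card ^ 2) := by ring

end Pool.Agent.Helper2.R
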