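import Pool.Agent.Helper2.R1

set_option autoImplicit false

/-!
Solymosi's inequality `|A+A|² |AA| ≥ |A|⁴ / (4 (1 + log |A|))`.
-/

open Finset

namespace Pool.Agent.Helper2.R

theorem pairs_eq_sum_sq {ι β : Type*} [DecidableEq ι] [DecidableEq β] (X : Finset ι) (φ : ι → β)
    (Y : Finset β) (hY : ∀ x ∈ X, φ x ∈ Y) :
    ((X ×ˢ X).filter (fun e => φ e.1 = φ e.2)).card =
      ∑ y ∈ Y, (X.filter (fun x => φ x = y)).card ^ 2 := by
  rw [card_eq_sum_card_fiberwise (f := fun e : ι × ι => φ e.1) (t := Y)]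
  · apply sum_congr rfl
    intro y _
    rw [sq, ← card_product]
    congr 1
    ext e
    simp only [mem_filter, mem_product]
    constructor
    · rintro ⟨⟨⟨h1, h2⟩, h3⟩, h4⟩
      exact ⟨⟨h1, h4⟩, ⟨h2, h3.symm.trans h4⟩⟩
    · rintro ⟨⟨h1, h2⟩, ⟨h3, h4⟩⟩
      exact ⟨⟨⟨h1, h3⟩, h2.trans h4.symm⟩, h2⟩
  · intro e he
    have he' := mem_coe.1 he
    rw [mem_filter, mem_product] at he'
    exact mem_coe.2 (hY _ he'.1.1)

/-- the elements whose dilate by `l` is in `A` -/
noncomputable def fib (A : Finset ℝ) (l : ℝ) : Finset ℝ := A.filter (fun a => l * a ∈ A)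

/-- **Cone argument.** -/
theorem cone (A S : Finset ℝ) (hA : ∀ a ∈ A, 0 < a) (hS : ∀ a ∈ A, ∀ a' ∈ A, a + a' ∈ S)
    (Λ : Finset ℝ) (hΛ : ∀ l ∈ Λ, 0 < l) (t : ℕ) (ht : ∀ l ∈ Λ, t ≤ (fib A l).card) :
    (Λ.card - 1) * t ^ 2 ≤ S.card ^ 2 := by
  classical
  rcases Λ.eq_empty_or_nonempty with h0 | hne
  · rw [h0]; simp
  set mx := Λ.max' hne with hmx
  -- the next slope
  have hnx : ∀ l ∈ Λ.erase mx, ∃ ν ∈ Λ, l < ν ∧ ∀ μ ∈ Λ, l < μ → ν ≤ μ := by
    intro l hl
    have hlΛ := mem_of_mem_erase hl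
    have hlt : l < mx := lt_of_le_of_ne (le_max' _ _ hlΛ) (ne_of_mem_erase hl)
    have hne' : (Λ.filter (fun μ => l < μ)).Nonempty :=
      ⟨mx, mem_filter.2 ⟨max'_mem _ _, hlt⟩⟩
    refine ⟨(Λ.filter (fun μ => l < μ)).min' hne', ?_, ?_, ?_⟩
    · exact (mem_filter.1 (min'_mem _ hne')).1
    · exact (mem_filter.1 (min'_mem _ hne')).2
    · intro μ hμ hlμ
      exact min'_le _ _ (mem_filter.2 ⟨hμ, hlμ⟩)
  choose! nx hnxΛ hnxlt hnxmin using hnx
  have h1 : ((Λ.erase mx).sigma (fun l => fib A l ×ˢ fib A (nx l))).card ≤ (S ×ˢ S).card := by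
    apply card_le_card_of_injOn (fun e : (_ : ℝ) × (ℝ × ℝ) =>
      (e.2.1 + e.2.2, e.1 * e.2.1 + nx e.1 * e.2.2))
    · intro e he
      have he' := mem_coe.1 he
      rw [mem_sigma, mem_product] at he'
      obtain ⟨_, h1, h2⟩ := he'
      have h1' := mem_filter.1 h1
      have h2' := mem_filter.1 h2
      exact mem_coe.2 (mem_product.2 ⟨hS _ h1'.1 _ h2'.1, hS _ h1'.2 _ h2'.2⟩)
    · rintro ⟨l, a, a'⟩ he ⟨m, b, b'⟩ hf h
      have he' := mem_coe.1 he
      have hf' := mem_coe.1 hf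
      rw [mem_sigma, mem_product] at he' hf'
      obtain ⟨hl, h1, h2⟩ := he'
      obtain ⟨hm, h3, h4⟩ := hf'
      simp only at hl h1 h2 hm h3 h4
      have ha := hA a (mem_filter.1 h1).1
      have ha' := hA a' (mem_filter.1 h2).1
      have hb := hA b (mem_filter.1 h3).1
      have hb' := hA b' (mem_filter.1 h4).1
      simp only [Prod.mk.injEq] at h
      obtain ⟨e1, e2⟩ := h
      have hν := hnxlt l hl
      have hν' := hnxlt m hm
      -- the slope lies in the open interval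
      have key : ∀ l' m' : ℝ, l' ∈ Λ.erase mx → m' ∈ Λ.erase mx → l' < m' →
          ∀ x x' y y' : ℝ, 0 < x → 0 < x' → 0 < y → 0 < y' → x + x' = y + y' →
          l' * x + nx l' * x' = m' * y + nx m' * y' → False := by
        intro l' m' hl' hm' hlm x x' y y' hx hx' hy hy' g1 g2
        have g3 := hnxmin l' hl' m' (mem_of_mem_erase hm') hlm
        have g4 := hnxlt l' hl'
        have g5 := hnxlt m' hm'
        have g6 : l' * x + nx l' * x' < nx l' * (x + x') := by nlinarith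
        have g7 : m' * (y + y') < m' * y + nx m' * y' := by nlinarith
        have g8 : nx l' * (x + x') ≤ m' * (x + x') :=
          mul_le_mul_of_nonneg_right g3 (by linarith)
        rw [g1] at g6 g8
        linarith
      have hlm : l = m := by
        rcases lt_trichotomy l m with h | h | h
        · exact (key l m hl hm h a a' b b' ha ha' hb hb' e1 e2).elim
        · exact h
        · exact (key m l hm hl h b b' a a' hb hb' ha ha' e1.symm e2.symm).elim
      subst hlm
      have e3 : (nx l - l) * (a' - b') = 0 := by linear_combination e2 - l * e1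
      have e4 : a' = b' := by
        rcases mul_eq_zero.1 e3 with h | h
        · linarith
        · linarith
      subst e4
      have e5 : a = b := by linarith
      subst e5
      rfl
  rw [card_product, card_sigma] at h1
  have h2 : (Λ.erase mx).card * t ^ 2 ≤
      ∑ l ∈ Λ.erase mx, (fib A l ×ˢ fib A (nx l)).card := by
    rw [← smul_eq_mul, ← sum_const]
    apply sum_le_sum
    intro l hl
    rw [card_product, sq]
    exact Nat.mul_le_mul (ht l (mem_of_mem_erase hl)) (ht _ (hnxΛ l hl))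
  rw [card_erase_of_mem (max'_mem _ _)] at h2
  calc (Λ.card - 1) * t ^ 2 ≤ S.card * S.card := h2.trans h1
    _ = S.card ^ 2 := (sq _).symm

/-- **Solymosi's inequality.** -/
theorem solymosi (A S R : Finset ℝ) (hAne : A.Nonempty) (hA : ∀ a ∈ A, 0 < a)
    (hS : ∀ a ∈ A, ∀ a' ∈ A, a + a' ∈ S) (hR : ∀ a ∈ A, ∀ a' ∈ A, a * a' ∈ R) :
    (A.card : ℝ) ^ 4 ≤ 4 * (1 + Real.log A.card) * ((S.card : ℝ) ^ 2 * R.card) := by
  classical
  obtain ⟨a₀, ha₀⟩ := hAne
  have hSA : A.card ≤ S.card := by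
    apply card_le_card_of_injOn (fun a => a + a₀)
    · intro a ha; exact mem_coe.2 (hS a (mem_coe.1 ha) a₀ ha₀)
    · intro a _ a' _ h
      simpa using h
  set N := A.card with hN
  set Λ := (A ×ˢ A).image (fun e => e.2 / e.1) with hΛ
  have hΛpos : ∀ l ∈ Λ, 0 < l := by
    intro l hl
    obtain ⟨e, he, rfl⟩ := mem_image.1 hl
    rw [mem_product] at he
    exact div_pos (hA _ he.2) (hA _ he.1)
  -- energy lower bound
  have h1 := card_sq_le_pairs (A ×ˢ A) (fun e => e.1 * e.2) R (by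
    intro e he
    rw [mem_product] at he
    exact hR _ he.1 _ he.2)
  have h2 : (((A ×ˢ A) ×ˢ (A ×ˢ A)).filter
      (fun e : (ℝ × ℝ) × (ℝ × ℝ) => e.1.1 * e.1.2 = e.2.1 * e.2.2)).card ≤
      (((A ×ˢ A) ×ˢ (A ×ˢ A)).filter
      (fun e : (ℝ × ℝ) × (ℝ × ℝ) => e.1.2 / e.1.1 = e.2.2 / e.2.1)).card := by
    apply card_le_card_of_injOn (fun e => ((e.1.1, e.2.1), (e.2.2, e.1.2)))
    · intro e he
      have he' := mem_coe.1 he
      rw [mem_filter, mem_product, mem_product, mem_product] at he'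
      obtain ⟨⟨⟨g1, g2⟩, g3, g4⟩, g5⟩ := he'
      refine mem_coe.2 (mem_filter.2 ⟨mem_product.2 ⟨mem_product.2 ⟨g1, g3⟩,
        mem_product.2 ⟨g4, g2⟩⟩, ?_⟩)
      have p1 := hA _ g1
      have p4 := hA _ g4
      show e.2.1 / e.1.1 = e.1.2 / e.2.2
      rw [div_eq_div_iff p1.ne' p4.ne']
      linarith
    · intro e _ f _ h
      simp only [Prod.mk.injEq] at h
      obtain ⟨⟨g1, g2⟩, g3, g4⟩ := h
      exact Prod.ext (Prod.ext g1 g4) (Prod.ext g2 g3)
  have h3 := pairs_eq_sum_sq (A ×ˢ A) (fun e => e.2 / e.1) Λ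
    (fun e he => mem_image_of_mem _ he)
  have h4 : ∀ l ∈ Λ, ((A ×ˢ A).filter (fun e => e.2 / e.1 = l)).card ≤ (fib A l).card := by
    intro l _
    apply card_le_card_of_injOn (fun e => e.1)
    · intro e he
      have he' := mem_coe.1 he
      rw [mem_filter, mem_product] at he'
      obtain ⟨⟨g1, g2⟩, g3⟩ := he'
      refine mem_coe.2 (mem_filter.2 ⟨g1, ?_⟩)
      have p1 := hA _ g1
      have : l * e.1 = e.2 := by rw [← g3]; field_simp
      rw [this]
      exact g2
    · intro e he f hf h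
      have he' := mem_coe.1 he
      have hf' := mem_coe.1 hf
      rw [mem_filter, mem_product] at he' hf'
      have p1 := hA _ he'.1.1
      have p2 := hA _ hf'.1.1
      have h' : e.1 = f.1 := h
      have g1 : e.2 = f.2 := by
        have e1 : e.2 = l * e.1 := by rw [← he'.2]; field_simp
        have e2 : f.2 = l * f.1 := by rw [← hf'.2]; field_simp
        rw [e1, e2, h']
      exact Prod.ext h' g1
  -- level sets
  have hlev : ∀ t : ℕ, 1 ≤ t → t ≤ N →
      (Λ.filter (fun l => t ≤ (fib A l).card)).card * t ^ 2 ≤ 2 * S.card ^ 2 := by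
    intro t _ htN
    have h5 := cone A S hA hS (Λ.filter (fun l => t ≤ (fib A l).card))
      (fun l hl => hΛpos l (mem_filter.1 hl).1) t (fun l hl => (mem_filter.1 hl).2)
    have h6 : t ^ 2 ≤ S.card ^ 2 := Nat.pow_le_pow_left (htN.trans hSA) 2
    set M := (Λ.filter (fun l => t ≤ (fib A l).card)).card
    rcases Nat.eq_zero_or_pos M with h0 | h0
    · rw [h0]; simp
    · calc M * t ^ 2 = (M - 1) * t ^ 2 + t ^ 2 := by
            conv_lhs => rw [show M = (M - 1) + 1 by omega]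
            ring
        _ ≤ S.card ^ 2 + S.card ^ 2 := Nat.add_le_add h5 h6
        _ = 2 * S.card ^ 2 := by ring
  have hfibN : ∀ l, (fib A l).card ≤ N := fun l => card_filter_le _ _
  have h5 : ∑ l ∈ Λ, (fib A l).card ^ 2 ≤
      ∑ t ∈ Icc 1 N, 2 * t * (Λ.filter (fun l => t ≤ (fib A l).card)).card := by
    have e1 : ∀ l ∈ Λ, (fib A l).card ^ 2 ≤
        ∑ t ∈ Icc 1 N, (if t ≤ (fib A l).card then 2 * t else 0) := by
      intro l _
      set r := (fib A l).card
      have hr : r ≤ N := hfibN l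
      rw [← sum_filter]
      have e2 : (Icc 1 N).filter (fun t => t ≤ r) = Icc 1 r := by
        ext t
        rw [mem_filter, mem_Icc, mem_Icc]
        omega
      rw [e2]
      have e3 : ∀ r : ℕ, ∑ t ∈ Icc 1 r, 2 * t = r * (r + 1) := by
        intro r
        induction r with
        | zero => simp
        | succ r ih =>
          rw [sum_Icc_succ_top (by omega), ih]
          ring
      rw [e3]
      nlinarith
    refine (sum_le_sum e1).trans ?_
    rw [sum_comm]
    apply sum_le_sum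
    intro t _
    rw [← sum_filter, sum_const, smul_eq_mul, mul_comm]
  have h6 : ((∑ l ∈ Λ, (fib A l).card ^ 2 : ℕ) : ℝ) ≤
      4 * (S.card : ℝ) ^ 2 * (1 + Real.log N) := by
    have e1 : ((∑ l ∈ Λ, (fib A l).card ^ 2 : ℕ) : ℝ) ≤
        ∑ t ∈ Icc 1 N, 4 * (S.card : ℝ) ^ 2 * (1 / (t : ℝ)) := by
      refine (Nat.cast_le.2 h5).trans ?_
      push_cast
      apply sum_le_sum
      intro t ht
      rw [mem_Icc] at ht
      have ht0 : (0:ℝ) < t := by exact_mod_cast ht.1
      have e2 : ((Λ.filter (fun l => t ≤ (fib A l).card)).card : ℝ) * (t:ℝ) ^ 2 ≤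
          2 * (S.card : ℝ) ^ 2 := by exact_mod_cast hlev t ht.1 ht.2
      rw [mul_one_div, le_div_iff₀ ht0]
      nlinarith
    refine e1.trans ?_
    rw [← mul_sum]
    apply mul_le_mul_of_nonneg_left _ (by positivity)
    have e3 := harmonic_le_one_add_log N
    rw [harmonic_eq_sum_Icc] at e3
    push_cast at e3
    simpa [one_div] using e3
  have h7 : (N:ℝ) ^ 4 ≤ R.card * ((∑ l ∈ Λ, (fib A l).card ^ 2 : ℕ) : ℝ) := by
    have e1 : N ^ 4 ≤ R.card * ∑ l ∈ Λ, (fib A l).card ^ 2 := by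
      calc N ^ 4 = (A ×ˢ A).card ^ 2 := by rw [card_product]; ring
        _ ≤ _ := h1
        _ ≤ R.card * (((A ×ˢ A) ×ˢ (A ×ˢ A)).filter
            (fun e : (ℝ × ℝ) × (ℝ × ℝ) => e.1.2 / e.1.1 = e.2.2 / e.2.1)).card :=
          Nat.mul_le_mul_left _ h2
        _ = R.card * ∑ l ∈ Λ, ((A ×ˢ A).filter (fun e => e.2 / e.1 = l)).card ^ 2 := by
          rw [h3]
        _ ≤ R.card * ∑ l ∈ Λ, (fib A l).card ^ 2 := by
          apply Nat.mul_le_mul_left
          apply sum_le_sum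
          intro l hl
          exact Nat.pow_le_pow_left (h4 l hl) 2
    exact_mod_cast e1
  calc (N:ℝ) ^ 4 ≤ R.card * ((∑ l ∈ Λ, (fib A l).card ^ 2 : ℕ) : ℝ) := h7
    _ ≤ R.card * (4 * (S.card : ℝ) ^ 2 * (1 + Real.log N)) := by gcongr
    _ = _ := by ring

end Pool.Agent.Helper2.R
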