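import Pool.Agent.Helper2.R2

set_option autoImplicit false

/-!
Iterated sums and products of a finite set of reals: combination of the inequalities of Elekes and
Solymosi type.
-/

open Finset

namespace Pool.Agent.Helper2.R

/-- `k`-fold sums -/
noncomputable def sR (A : Finset ℝ) (k : ℕ) : Finset ℝ :=
  (Fintype.piFinset (fun _ : Fin k => A)).image (fun f : Fin k → ℝ => ∑ i, f i)

/-- `k`-fold products -/
noncomputable def pR (A : Finset ℝ) (k : ℕ) : Finset ℝ :=
  (Fintype.piFinset (fun _ : Fin k => A)).image (fun f : Fin k → ℝ => ∏ i, f i)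

theorem sR_one (A : Finset ℝ) : sR A 1 = A := by
  ext x
  unfold sR
  rw [mem_image]
  constructor
  · rintro ⟨f, hf, rfl⟩
    rw [Fintype.mem_piFinset] at hf
    simpa using hf 0
  · intro hx
    exact ⟨fun _ => x, Fintype.mem_piFinset.2 (fun _ => hx), by simp⟩

theorem pR_one (A : Finset ℝ) : pR A 1 = A := by
  ext x
  unfold pR
  rw [mem_image]
  constructor
  · rintro ⟨f, hf, rfl⟩
    rw [Fintype.mem_piFinset] at hf
    simpa using hf 0
  · intro hx
    exact ⟨fun _ => x, Fintype.mem_piFinset.2 (fun _ => hx), by simp⟩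

theorem sR_succ {A : Finset ℝ} {k : ℕ} {a b : ℝ} (ha : a ∈ A) (hb : b ∈ sR A k) :
    a + b ∈ sR A (k + 1) := by
  unfold sR at hb ⊢
  rw [mem_image] at hb ⊢
  obtain ⟨f, hf, rfl⟩ := hb
  rw [Fintype.mem_piFinset] at hf
  refine ⟨Fin.cons a f, Fintype.mem_piFinset.2 (fun i => ?_), ?_⟩
  · refine Fin.cases ?_ (fun i => ?_) i
    · simpa using ha
    · simpa using hf i
  · rw [Fin.sum_univ_succ]
    simp

theorem pR_succ {A : Finset ℝ} {k : ℕ} {a b : ℝ} (ha : a ∈ A) (hb : b ∈ pR A k) :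
    b * a ∈ pR A (k + 1) := by
  unfold pR at hb ⊢
  rw [mem_image] at hb ⊢
  obtain ⟨f, hf, rfl⟩ := hb
  rw [Fintype.mem_piFinset] at hf
  refine ⟨Fin.cons a f, Fintype.mem_piFinset.2 (fun i => ?_), ?_⟩
  · refine Fin.cases ?_ (fun i => ?_) i
    · simpa using ha
    · simpa using hf i
  · rw [Fin.prod_univ_succ]
    simp [mul_comm]

theorem sR_nonempty {A : Finset ℝ} (hA : A.Nonempty) (k : ℕ) : (sR A k).Nonempty := by
  obtain ⟨a, ha⟩ := hA
  exact ⟨_, mem_image_of_mem _ (Fintype.mem_piFinset.2 (fun _ => ha) :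
    (fun _ : Fin k => a) ∈ Fintype.piFinset (fun _ : Fin k => A))⟩

theorem pR_nonempty {A : Finset ℝ} (hA : A.Nonempty) (k : ℕ) : (pR A k).Nonempty := by
  obtain ⟨a, ha⟩ := hA
  exact ⟨_, mem_image_of_mem _ (Fintype.mem_piFinset.2 (fun _ => ha) :
    (fun _ : Fin k => a) ∈ Fintype.piFinset (fun _ : Fin k => A))⟩

theorem pR_pos {A : Finset ℝ} (hA : ∀ a ∈ A, 0 < a) {k : ℕ} {x : ℝ} (hx : x ∈ pR A k) :
    0 < x := by
  unfold pR at hx
  rw [mem_image] at hx
  obtain ⟨f, hf, rfl⟩ := hx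
  rw [Fintype.mem_piFinset] at hf
  exact Finset.prod_pos (fun i _ => hA _ (hf i))

theorem sR_mono {A B : Finset ℝ} (h : A ⊆ B) (k : ℕ) : sR A k ⊆ sR B k :=
  image_subset_image (Fintype.piFinset_subset _ _ (fun _ => h))

theorem pR_mono {A B : Finset ℝ} (h : A ⊆ B) (k : ℕ) : pR A k ⊆ pR B k :=
  image_subset_image (Fintype.piFinset_subset _ _ (fun _ => h))

theorem sR_neg (A : Finset ℝ) (k : ℕ) :
    (sR (A.image (fun x => -x)) k).card ≤ (sR A k).card := by
  apply card_le_card_of_injOn (fun x => -x)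
  · intro x hx
    have hx' := mem_coe.1 hx
    unfold sR at hx'
    rw [mem_image] at hx'
    obtain ⟨f, hf, rfl⟩ := hx'
    rw [Fintype.mem_piFinset] at hf
    refine mem_coe.2 (mem_image.2 ⟨fun i => -f i, Fintype.mem_piFinset.2 (fun i => ?_), ?_⟩)
    · obtain ⟨a, ha, h⟩ := mem_image.1 (hf i)
      show -f i ∈ A
      rw [← h, neg_neg]
      exact ha
    · rw [sum_neg_distrib]
  · intro x _ y _ h
    exact neg_injective h

theorem pR_neg (A : Finset ℝ) (k : ℕ) :
    (pR (A.image (fun x => -x)) k).card ≤ (pR A k).card := by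
  apply card_le_card_of_injOn (fun x => (-1) ^ k * x)
  · intro x hx
    have hx' := mem_coe.1 hx
    unfold pR at hx'
    rw [mem_image] at hx'
    obtain ⟨f, hf, rfl⟩ := hx'
    rw [Fintype.mem_piFinset] at hf
    refine mem_coe.2 (mem_image.2 ⟨fun i => -f i, Fintype.mem_piFinset.2 (fun i => ?_), ?_⟩)
    · obtain ⟨a, ha, h⟩ := mem_image.1 (hf i)
      show -f i ∈ A
      rw [← h, neg_neg]
      exact ha
    · rw [Finset.prod_neg, card_univ, Fintype.card_fin]
  · intro x _ y _ h
    exact mul_left_cancel₀ (pow_ne_zero _ (by norm_num)) h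

/-- the linear programming part -/
theorem lp {n l C F : ℝ} (hC : 0 ≤ C) (hl : 0 ≤ l) (m : ℕ) (s p : ℕ → ℝ) (hp1 : p 1 = n)
    (hE : ∀ i j, 1 ≤ i → 1 ≤ j → 3 * n + p j + s i - C ≤ 2 * s (i + 1) + 2 * p (j + 1))
    (hS : 4 * n - l ≤ 2 * s 2 + p 2) (hs : s (m + 2) ≤ F) (hp : p (m + 2) ≤ F) :
    (12 - 9 * (1 / 2) ^ m + ((1 / 2 : ℝ) ^ m) ^ 2) * n - 4 * C - l ≤
      (8 - 5 * (1 / 2) ^ m) * F := by
  -- the maximising index
  obtain ⟨j₀, hj₀, hmax⟩ := exists_max_image (Icc 1 (m + 1))
    (fun j => 3 * n + p j - 2 * p (j + 1) - C) ⟨1, by simp⟩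
  rw [mem_Icc] at hj₀
  set σ := 3 * n + p j₀ - 2 * p (j₀ + 1) - C with hσ
  have ha : ∀ m' : ℕ, σ * (1 - (1 / 2) ^ m') + (1 / 2) ^ m' * s 2 ≤ s (m' + 2) := by
    intro m'
    induction m' with
    | zero => simp
    | succ m' ih =>
      have h1 := hE (m' + 2) j₀ (by omega) hj₀.1
      have h2 : m' + 2 + 1 = m' + 1 + 2 := by ring
      rw [h2] at h1
      rw [pow_succ]
      linarith
  have hb : ∀ m' : ℕ, m' ≤ m → (3 * n - σ - C) * (1 - (1 / 2) ^ m') + (1 / 2) ^ m' * p 2 ≤
      p (m' + 2) := by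
    intro m'
    induction m' with
    | zero => intro _; simp
    | succ m' ih =>
      intro hm'
      have ih' := ih (by omega)
      have h1 := hmax (m' + 2) (by rw [mem_Icc]; omega)
      have h2 : m' + 2 + 1 = m' + 1 + 2 := by ring
      simp only [h2] at h1
      rw [pow_succ]
      linarith
  have hc := hmax 1 (by rw [mem_Icc]; omega)
  simp only [hp1] at hc
  have ha' := (ha m).trans hs
  have hb' := (hb m le_rfl).trans hp
  set ρ : ℝ := (1 / 2) ^ m with hρ
  have hρ0 : 0 < ρ := by positivity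
  have hρ1 : ρ ≤ 1 := pow_le_one₀ (by norm_num) (by norm_num)
  clear_value ρ
  have e1 : (4 - 2 * ρ) * (σ * (1 - ρ) + ρ * s 2) ≤ (4 - 2 * ρ) * F :=
    mul_le_mul_of_nonneg_left ha' (by linarith)
  have e2 : (4 - 3 * ρ) * ((3 * n - σ - C) * (1 - ρ) + ρ * p 2) ≤ (4 - 3 * ρ) * F :=
    mul_le_mul_of_nonneg_left hb' (by linarith)
  have e3 : ρ * (2 - ρ) * (4 * n - l) ≤ ρ * (2 - ρ) * (2 * s 2 + p 2) :=
    mul_le_mul_of_nonneg_left hS (by
      have : 0 ≤ 2 - ρ := by linarith
      positivity)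
  have e4 : ρ * (1 - ρ) * (3 * n + n - 2 * p 2 - C) ≤ ρ * (1 - ρ) * σ :=
    mul_le_mul_of_nonneg_left hc (by
      have : 0 ≤ 1 - ρ := by linarith
      positivity)
  have e5 : 0 ≤ (1 - ρ * (2 - ρ)) * l := by
    apply mul_nonneg _ hl
    nlinarith [sq_nonneg (1 - ρ)]
  have e6 : 0 ≤ (4 - (1 - ρ) * (4 - 2 * ρ)) * C := by
    apply mul_nonneg _ hC
    nlinarith
  nlinarith

/-- The exponent. -/
noncomputable def gk (m : ℕ) : ℝ :=
  (12 - 9 * (1 / 2) ^ m + ((1 / 2 : ℝ) ^ m) ^ 2) / (8 - 5 * (1 / 2) ^ m)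

theorem gk_le (m : ℕ) : gk m ≤ 3 / 2 := by
  unfold gk
  have hρ0 : (0:ℝ) < (1 / 2) ^ m := by positivity
  have hρ1 : (1 / 2 : ℝ) ^ m ≤ 1 := pow_le_one₀ (by norm_num) (by norm_num)
  set ρ : ℝ := (1 / 2) ^ m
  rw [div_le_iff₀ (by linarith)]
  nlinarith

theorem gk_nonneg (m : ℕ) : 0 ≤ gk m := by
  unfold gk
  have hρ0 : (0:ℝ) < (1 / 2) ^ m := by positivity
  have hρ1 : (1 / 2 : ℝ) ^ m ≤ 1 := pow_le_one₀ (by norm_num) (by norm_num)
  set ρ : ℝ := (1 / 2) ^ m
  apply div_nonneg
  · nlinarith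
  · linarith

/-- the bound for sets of positive reals -/
theorem pos_case (m : ℕ) (A : Finset ℝ) (hAne : A.Nonempty) (hA : ∀ a ∈ A, 0 < a) :
    Real.exp (-(4 * Real.log 256 + Real.log 4) / 3) * (A.card : ℝ) ^ (gk m) ≤
      (1 + Real.log A.card) ^ (1 / 3 : ℝ) *
        max ((sR A (m + 2)).card : ℝ) ((pR A (m + 2)).card : ℝ) := by
  classical
  have hN1 : 1 ≤ A.card := card_pos.2 hAne
  have hN1' : (1:ℝ) ≤ A.card := by exact_mod_cast hN1
  have hNpos : (0:ℝ) < A.card := by linarith
  set n := Real.log A.card with hn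
  have hn0 : 0 ≤ n := Real.log_nonneg hN1'
  set C := Real.log 256 with hC
  have hC0 : 0 ≤ C := Real.log_nonneg (by norm_num)
  set l := Real.log 4 + Real.log (1 + n) with hl
  have hl0 : 0 ≤ l := add_nonneg (Real.log_nonneg (by norm_num)) (Real.log_nonneg (by linarith))
  have hSpos : ∀ i, (0:ℝ) < ((sR A i).card : ℝ) := fun i => by
    exact_mod_cast card_pos.2 (sR_nonempty hAne i)
  have hPpos : ∀ i, (0:ℝ) < ((pR A i).card : ℝ) := fun i => by
    exact_mod_cast card_pos.2 (pR_nonempty hAne i)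
  set F := Real.log (max ((sR A (m + 2)).card : ℝ) ((pR A (m + 2)).card : ℝ)) with hF
  have hmaxpos : 0 < max ((sR A (m + 2)).card : ℝ) ((pR A (m + 2)).card : ℝ) :=
    lt_max_of_lt_left (hSpos _)
  have hlp := lp (n := n) (l := l) (C := C) (F := F) hC0 hl0 m
    (fun i => Real.log (sR A i).card) (fun j => Real.log (pR A j).card)
    (by simp only [pR_one]; exact hn.symm) (by
      intro i j _ _
      have h1 := elekes A (sR A i) (pR A j) (sR A (i + 1)) (pR A (j + 1)) hA
        (fun x hx => pR_pos hA hx) (fun a ha b hb => sR_succ ha hb)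
        (fun x hx a ha => pR_succ ha hx)
      have h2 : ((pR A j).card : ℝ) * (sR A i).card * (A.card : ℝ) ^ 3 ≤
          256 * (((sR A (i + 1)).card : ℝ) ^ 2 * ((pR A (j + 1)).card : ℝ) ^ 2) := by
        exact_mod_cast h1
      have a1 := hSpos i
      have a2 := hSpos (i + 1)
      have a3 := hPpos j
      have a4 := hPpos (j + 1)
      have h3 := Real.log_le_log (by positivity) h2
      rw [Real.log_mul (by positivity) (by positivity), Real.log_mul (by positivity)
        (by positivity), Real.log_mul (by positivity) (by positivity),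
        Real.log_mul (by positivity) (by positivity), Real.log_pow, Real.log_pow,
        Real.log_pow] at h3
      push_cast at h3
      linarith) (by
      have h1 := solymosi A (sR A 2) (pR A 2) hAne hA (fun a ha a' ha' => by
        have := sR_succ (k := 1) ha (by rw [sR_one]; exact ha')
        exact this) (fun a ha a' ha' => by
        have := pR_succ (k := 1) ha' (b := a) (by rw [pR_one]; exact ha)
        exact this)
      have a2 := hSpos 2
      have a4 := hPpos 2
      have a5 : 0 < 1 + n := by linarith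
      have h3 := Real.log_le_log (by positivity) h1
      rw [Real.log_mul (by positivity) (by positivity), Real.log_mul (by positivity)
        (by positivity), Real.log_mul (by positivity) (by positivity), Real.log_pow,
        Real.log_pow] at h3
      push_cast at h3
      rw [← hn] at h3
      linarith) (by
      apply Real.log_le_log (hSpos _) (le_max_left _ _)) (by
      apply Real.log_le_log (hPpos _) (le_max_right _ _))
  have hρ0 : (0:ℝ) < (1 / 2) ^ m := by positivity
  have hρ1 : (1 / 2 : ℝ) ^ m ≤ 1 := pow_le_one₀ (by norm_num) (by norm_num)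
  have hd : (3:ℝ) ≤ 8 - 5 * (1 / 2) ^ m := by linarith
  -- divide
  have h1 : gk m * n - (4 * C + l) / 3 ≤ F := by
    have h2 : (12 - 9 * (1 / 2) ^ m + ((1 / 2 : ℝ) ^ m) ^ 2) * n =
        (8 - 5 * (1 / 2) ^ m) * (gk m * n) := by
      unfold gk
      have hd0 : (8 - 5 * (1 / 2 : ℝ) ^ m) ≠ 0 := by linarith
      rw [← mul_assoc, mul_div_cancel₀ _ hd0]
    rw [h2] at hlp
    have h3 : 4 * C + l ≤ (8 - 5 * (1 / 2) ^ m) * ((4 * C + l) / 3) := by
      calc 4 * C + l = 3 * ((4 * C + l) / 3) := by ring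
        _ ≤ (8 - 5 * (1 / 2) ^ m) * ((4 * C + l) / 3) := by gcongr
    have h4 : (8 - 5 * (1 / 2) ^ m) * (gk m * n - (4 * C + l) / 3) ≤
        (8 - 5 * (1 / 2) ^ m) * F := by
      rw [mul_sub]
      linarith
    exact le_of_mul_le_mul_left h4 (by linarith)
  have h5 : 0 < 1 + n := by linarith
  calc Real.exp (-(4 * C + Real.log 4) / 3) * (A.card : ℝ) ^ (gk m)
      = Real.exp (gk m * n - (4 * C + Real.log 4) / 3) := by
        rw [Real.rpow_def_of_pos hNpos, ← Real.exp_add]
        congr 1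
        rw [← hn]
        ring
    _ ≤ Real.exp (Real.log (1 + n) * (1 / 3) + F) := by
        apply Real.exp_le_exp.2
        rw [hl] at h1
        linarith
    _ = (1 + n) ^ (1 / 3 : ℝ) * max ((sR A (m + 2)).card : ℝ) ((pR A (m + 2)).card : ℝ) := by
        rw [Real.exp_add, Real.rpow_def_of_pos h5, hF, Real.exp_log hmaxpos]

/-- the bound for all finite sets of reals -/
theorem gen_case : ∃ c : ℝ, 0 < c ∧ ∀ (m : ℕ) (A : Finset ℝ), A.Nonempty →
    c * (A.card : ℝ) ^ (gk m) ≤ (1 + Real.log A.card) ^ (1 / 3 : ℝ) *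
        max ((sR A (m + 2)).card : ℝ) ((pR A (m + 2)).card : ℝ) := by
  classical
  set c₀ := Real.exp (-(4 * Real.log 256 + Real.log 4) / 3) with hc₀
  have hc₀pos : 0 < c₀ := Real.exp_pos _
  have hc₀1 : c₀ ≤ 1 := by
    rw [hc₀]
    apply Real.exp_le_one_iff.2
    have h1 : 0 ≤ Real.log 256 := Real.log_nonneg (by norm_num)
    have h2 : 0 ≤ Real.log 4 := Real.log_nonneg (by norm_num)
    linarith
  refine ⟨c₀ / 9, by positivity, ?_⟩
  intro m A hAne
  have hN1 : 1 ≤ A.card := card_pos.2 hAne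
  have hN1' : (1:ℝ) ≤ A.card := by exact_mod_cast hN1
  have hmax1 : (1:ℝ) ≤ max ((sR A (m + 2)).card : ℝ) ((pR A (m + 2)).card : ℝ) := by
    apply le_max_of_le_left
    exact_mod_cast card_pos.2 (sR_nonempty hAne _)
  have hlog1 : (1:ℝ) ≤ (1 + Real.log A.card) ^ (1 / 3 : ℝ) := by
    apply Real.one_le_rpow _ (by norm_num)
    have := Real.log_nonneg hN1'
    linarith
  -- a positive set A' with 3 |A'| ≥ |A|
  have hred : ∀ A' : Finset ℝ, A'.Nonempty → (∀ a ∈ A', 0 < a) → A.card ≤ 3 * A'.card →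
      A'.card ≤ A.card → (sR A' (m + 2)).card ≤ (sR A (m + 2)).card →
      (pR A' (m + 2)).card ≤ (pR A (m + 2)).card →
      c₀ / 9 * (A.card : ℝ) ^ (gk m) ≤ (1 + Real.log A.card) ^ (1 / 3 : ℝ) *
        max ((sR A (m + 2)).card : ℝ) ((pR A (m + 2)).card : ℝ) := by
    intro A' hA' hpos h3 hle hs hp
    have h1 := pos_case m A' hA' hpos
    have hA'1 : (1:ℝ) ≤ A'.card := by exact_mod_cast card_pos.2 hA'
    have h2 : (A.card : ℝ) ^ (gk m) ≤ 9 * (A'.card : ℝ) ^ (gk m) := by
      calc (A.card : ℝ) ^ (gk m) ≤ (3 * (A'.card : ℝ)) ^ (gk m) := by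
            apply Real.rpow_le_rpow (by linarith) _ (gk_nonneg m)
            exact_mod_cast h3
        _ = (3:ℝ) ^ (gk m) * (A'.card : ℝ) ^ (gk m) :=
            Real.mul_rpow (by norm_num) (by linarith)
        _ ≤ 9 * (A'.card : ℝ) ^ (gk m) := by
            apply mul_le_mul_of_nonneg_right _ (by positivity)
            calc (3:ℝ) ^ (gk m) ≤ (3:ℝ) ^ (2:ℝ) := by
                  apply Real.rpow_le_rpow_of_exponent_le (by norm_num)
                  have := gk_le m
                  linarith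
              _ = 9 := by norm_num
    have h4 : (1 + Real.log A'.card) ^ (1 / 3 : ℝ) ≤ (1 + Real.log A.card) ^ (1 / 3 : ℝ) := by
      apply Real.rpow_le_rpow
      · have := Real.log_nonneg hA'1
        linarith
      · have := Real.log_le_log (by linarith) (show (A'.card : ℝ) ≤ A.card by exact_mod_cast hle)
        linarith
      · norm_num
    have h5 : max ((sR A' (m + 2)).card : ℝ) ((pR A' (m + 2)).card : ℝ) ≤
        max ((sR A (m + 2)).card : ℝ) ((pR A (m + 2)).card : ℝ) :=
      max_le_max (by exact_mod_cast hs) (by exact_mod_cast hp)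
    calc c₀ / 9 * (A.card : ℝ) ^ (gk m) ≤ c₀ / 9 * (9 * (A'.card : ℝ) ^ (gk m)) := by gcongr
      _ = c₀ * (A'.card : ℝ) ^ (gk m) := by ring
      _ ≤ (1 + Real.log A'.card) ^ (1 / 3 : ℝ) *
          max ((sR A' (m + 2)).card : ℝ) ((pR A' (m + 2)).card : ℝ) := h1
      _ ≤ _ := by
          apply mul_le_mul h4 h5 (by positivity) (by positivity)
  set P := A.filter (fun a => 0 < a) with hP
  set Q := A.filter (fun a => a < 0) with hQ
  have hcount : A.card ≤ P.card + Q.card + 1 := by
    have h2 : A ⊆ (P ∪ Q) ∪ {0} := by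
      intro a ha
      rw [mem_union, mem_union, hP, hQ, mem_filter, mem_filter, mem_singleton]
      rcases lt_trichotomy a 0 with h | h | h
      · exact Or.inl (Or.inr ⟨ha, h⟩)
      · exact Or.inr h
      · exact Or.inl (Or.inl ⟨ha, h⟩)
    have h3 := (card_le_card h2).trans (card_union_le _ _)
    have h4 := card_union_le P Q
    rw [card_singleton] at h3
    omega
  have hPA : P.card ≤ A.card := card_filter_le _ _
  have hQA : Q.card ≤ A.card := card_filter_le _ _
  by_cases hsmall : P.card = 0 ∧ Q.card = 0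
  · have : A.card = 1 := by omega
    rw [this]
    simp only [Nat.cast_one, Real.one_rpow, Real.log_one, add_zero, mul_one, one_mul]
    linarith
  · rcases le_total Q.card P.card with h | h
    · have hPne : P.Nonempty := by rw [← card_pos]; omega
      exact hred P hPne (fun a ha => (mem_filter.1 ha).2) (by omega) hPA
        (card_le_card (sR_mono (filter_subset _ _) _))
        (card_le_card (pR_mono (filter_subset _ _) _))
    · have hQne : Q.Nonempty := by rw [← card_pos]; omega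
      have hcard : (Q.image (fun x => -x)).card = Q.card :=
        card_image_of_injective _ neg_injective
      apply hred (Q.image (fun x => -x)) (hQne.image _) _ (by rw [hcard]; omega)
        (by rw [hcard]; exact hQA)
        ((sR_neg Q _).trans (card_le_card (sR_mono (filter_subset _ _) _)))
        ((pR_neg Q _).trans (card_le_card (pR_mono (filter_subset _ _) _)))
      intro a ha
      obtain ⟨b, hb, rfl⟩ := mem_image.1 ha
      have := (mem_filter.1 hb).2
      linarith

end Pool.Agent.Helper2.R
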